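import Pool.Agent.Work.MP_849ab0_ag.G.ApiX
import Pool.Agent.Work.MP_849ab0_ag.G.Defs

/-!
The equivariant API.
-/

noncomputable section

set_option linter.unusedSectionVars false
set_option linter.unusedVariables false

namespace Pool.Agent.Work.MP_849ab0_ag.G

open Set Topology Matrix




end Pool.Agent.Work.MP_849ab0_ag.G
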