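import Pool.Agent.Work.MP_849ab0_ag.G.Coh

/-!
Equivariant cohomology with supports (Borel construction) for compact matrix groups, Thom
classes of representations and integration along the fibre of a representation.

The equivariant Borel-Moore homology of a closed invariant subset `Z` of a representation `V`
is the equivariant cohomology of `V` with supports in `Z`.
-/

noncomputable section

set_option linter.unusedSectionVars false

namespace Pool.Agent.Work.MP_849ab0_ag.G

open Set Topology Matrix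

/-- A topological group with a faithful matrix representation `u`. -/
structure Gp where
  H : Type
  [grp : Group H]
  [top : TopologicalSpace H]
  ι : Type
  [fin : Fintype ι]
  [dec : DecidableEq ι]
  u : H → Matrix ι ι ℂ

attribute [instance] Gp.grp Gp.top Gp.fin Gp.dec

/-- Unitary matrices that preserve the colouring `c`, a product of unitary groups. -/
def Ub {ι C : Type} [Fintype ι] [DecidableEq ι] (c : ι → C) :
    Subgroup (Matrix.unitaryGroup ι ℂ) where
  carrier := {g | ∀ a b, c a ≠ c b → g.1 a b = 0}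
  mul_mem' {g h} hg hh a b hab := by
    change ∑ d, g.1 a d * h.1 d b = 0
    refine Finset.sum_eq_zero fun d _ => ?_
    by_cases e : c a = c d
    · rw [hh d b (e ▸ hab), mul_zero]
    · rw [hg a d e, zero_mul]
  one_mem' a b hab := Matrix.one_apply_ne fun e => hab (e ▸ rfl)
  inv_mem' {g} hg a b hab := by
    change star (g.1 b a) = 0
    rw [hg b a hab.symm, star_zero]

/-- The group `∏ U (v i)`. -/
abbrev Gp.blk {ι C : Type} [Fintype ι] [DecidableEq ι] (c : ι → C) : Gp :=
  { H := Ub c, ι := ι, u := fun g => g.1.1 }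

/-- The compact torus. -/
abbrev Gp.tor (κ : Type) [Fintype κ] [DecidableEq κ] : Gp :=
  { H := κ → Circle, ι := κ, u := fun g => diagonal fun j => g j }

/-- The product of two groups. -/
@[instance_reducible] def Gp.prod (G G' : Gp) : Gp :=
  { H := G.H × G'.H, ι := G.ι ⊕ G'.ι, u := fun g => fromBlocks (G.u g.1) 0 0 (G'.u g.2) }

/-- The character with weight `m` of the torus. -/
def chr {κ : Type} [Fintype κ] (m : κ → ℤ) (g : κ → Circle) : ℂ := ∏ j, (g j : ℂ) ^ m j

/-- Linearly independent families of sequences: a contractible space on which `GL ι` acts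
freely. -/
def Fm (ι : Type) : Type := {e : Matrix ι ℕ ℂ // LinearIndependent ℂ e.row}

instance (ι : Type) : TopologicalSpace (Fm ι) := instTopologicalSpaceSubtype

instance (ι : Type) [Fintype ι] : Nonempty (Fm ι) :=
  ⟨⟨Matrix.of fun a => Pi.single (Fintype.equivFin ι a : ℕ) 1,
    (Pi.linearIndependent_single_one ℕ ℂ).comp _
      (Fin.val_injective.comp (Fintype.equivFin ι).injective)⟩⟩

/-- An action of `G` on `X`. -/
structure Act (G : Gp) (X : Type) where
  act : G.H → X → X

variable {G G' : Gp} {X X' Y : Type}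

namespace Act

/-- The diagonal action. -/
def prod (a : Act G X) (b : Act G Y) : Act G (X × Y) := ⟨fun g z => (a.act g z.1, b.act g z.2)⟩

/-- The action through a homomorphism. -/
def res (a : Act G X) (φ : G'.H → G.H) : Act G' X := ⟨fun g => a.act (φ g)⟩

/-- The action on an invariant subset. -/
def sub (a : Act G X) (S : Set X) : Act G S :=
  open Classical in ⟨fun g x => if h : a.act g x ∈ S then ⟨_, h⟩ else x⟩

/-- The action on a quotient. -/
def quot (a : Act G X) (r : X → X → Prop) : Act G (Quot r) :=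
  ⟨fun g m => Quot.mk r (a.act g m.out)⟩

/-- The trivial action on a point. -/
def pt (G : Gp) : Act G Unit := ⟨fun _ x => x⟩

/-- The orbit relation on `EG × X`. -/
def rel (a : Act G X) (p q : Fm G.ι × X) : Prop :=
  ∃ g, q.1.1 = G.u g * p.1.1 ∧ q.2 = a.act g p.2

/-- The Borel construction `EG ×_G X`. -/
def Bor (a : Act G X) : Type := Quot a.rel

instance [TopologicalSpace X] (a : Act G X) : TopologicalSpace a.Bor :=
  inferInstanceAs (TopologicalSpace (Quot a.rel))

/-- The class of a point of `EG × X`. -/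
def bmk (a : Act G X) (e : Fm G.ι) (x : X) : a.Bor := Quot.mk _ (e, x)

/-- The subset `EG ×_G S`. -/
def bs (a : Act G X) (S : Set X) : Set a.Bor := {p | ∃ e, ∃ x ∈ S, p = a.bmk e x}

end Act

variable [TopologicalSpace X] [TopologicalSpace X'] [TopologicalSpace Y]

/-- Equivariant cohomology of `U` with supports in `Z`. -/
abbrev EH (a : Act G X) (U Z : Set X) : Type := H (a.bs U) (a.bs Z)

instance (a : Act G X) (U Z : Set X) : AddCommGroup (EH a U Z) :=
  instAddCommGroupH (a.bs U) (a.bs Z)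

instance (a : Act G X) (U Z : Set X) : AddCommMonoid (EH a U Z) :=
  instAddCommMonoidH (a.bs U) (a.bs Z)

instance (a : Act G X) (U Z : Set X) : Module ℂ (EH a U Z) := instModuleComplexH (a.bs U) (a.bs Z)

instance (a : Act G X) (U Z : Set X) : SMul ℂ (EH a U Z) := (instModuleComplexEH a U Z).toSMul

instance (a : Act G X) (U Z : Set X) : SMulCommClass ℂ ℂ (EH a U Z) := ⟨smul_comm⟩

instance (a : Act G X) (U Z : Set X) : AddZero (EH a U Z) :=
  (instAddCommMonoidEH a U Z).toAddZeroClass.toAddZero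

instance (a : Act G X) (U Z : Set X) : Zero (EH a U Z) := (instAddCommMonoidEH a U Z).toZero

/-- A continuous `φ`-equivariant map `EG' → EG`. -/
def eps (φ : G'.H → G.H) : Fm G'.ι → Fm G.ι :=
  Classical.epsilon fun ε => Continuous ε ∧
    ∀ (g : G'.H) (e e' : Fm G'.ι), e'.1 = G'.u g * e.1 → (ε e').1 = G.u (φ g) * (ε e).1

/-- Pull-back along a homomorphism `φ` and a `φ`-equivariant map `f`. -/
def gp (a' : Act G' X') {a : Act G X} (φ : G'.H → G.H) (f : X' → X) (U' Z' : Set X')
    {U Z : Set X} : EH a U Z →ₗ[ℂ] EH a' U' Z' :=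
  pull (fun p : a'.Bor => a.bmk (eps φ (Quot.out p).1) (f (Quot.out p).2)) (a'.bs U') (a'.bs Z')

/-- The equivariant cup product. -/
def ecup {a : Act G X} (U'' Z'' : Set X) {U Z U' Z' : Set X} :
    EH a U Z →ₗ[ℂ] EH a U' Z' →ₗ[ℂ] EH a U'' Z'' := cup (a.bs U'') (a.bs Z'')

/-- The unit. -/
def eone (a : Act G X) (U : Set X) : EH a U univ := cls _ _ onec

/-- The inverse of a bijective linear map. -/
def linv {A B : Type} [AddCommGroup A] [Module ℂ A] [AddCommGroup B] [Module ℂ B]
    (L : A →ₗ[ℂ] B) : B →ₗ[ℂ] A :=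
  Classical.epsilon fun M => M ∘ₗ L = LinearMap.id ∧ L ∘ₗ M = LinearMap.id

/-- `gp` as a function. -/
abbrev gpf (a' : Act G' X') {a : Act G X} (φ : G'.H → G.H) (f : X' → X) (U' Z' : Set X')
    {U Z : Set X} (x : EH a U Z) : EH a' U' Z' := gp a' φ f U' Z' x

/-- The inverse of `gp`. -/
abbrev ginv (a' : Act G' X') (a : Act G X) (φ : G'.H → G.H) (f : X' → X) (U Z : Set X)
    {U' Z' : Set X'} (y : EH a' U' Z') : EH a U Z := linv (gp a' φ f U' Z') y

/-- `ecup` as a function. -/
abbrev cupf {a : Act G X} (U'' Z'' : Set X) {U Z U' Z' : Set X} (x : EH a U Z) (y : EH a U' Z') :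
    EH a U'' Z'' := ecup U'' Z'' x y

attribute [local instance] topC

variable {J J' : Type} [Fintype J] [Fintype J']

/-- The square of the norm. -/
def nsq (w : J → ℂ) : ℝ := ∑ j, ‖w j‖ ^ 2

/-- The Thom class of a representation: it restricts to the orientation class on every fibre. -/
def thom (ρ : Act G (J → ℂ)) : EH ρ univ {0} :=
  Classical.epsilon fun τ => IsDeg (2 * Fintype.card J) τ ∧
    ∀ e, pullf (ρ.bmk e) univ {0} τ = orient J

/-- The class of the zero set of an equivariant map to a representation. -/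
def eul (b : Act G Y) (ρ : Act G (J → ℂ)) (F : Y → J → ℂ) (U Z : Set Y) : EH b U Z :=
  gp b id F U Z (thom ρ)

/-- For `(p, F) : Y ≃ X × V`: the class `c` is the image of `x` under the Thom isomorphism,
once the supports are enlarged to a disc bundle over `Z`. -/
def IntRel {a : Act G X} {b : Act G Y} (ρ : Act G (J → ℂ)) (p : Y → X) (F : Y → J → ℂ)
    {U Z : Set X} {U' Z' : Set Y} (c : EH b U' Z') (x : EH a U Z) : Prop :=
  ∃ R : X → ℝ, ContinuousOn R U ∧ (∀ y ∈ U, 0 ≤ R y ∧ ∀ g, R (a.act g y) = R y) ∧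
    p ⁻¹' U ⊆ U' ∧ p ⁻¹' U ∩ Z' ⊆ p ⁻¹' Z ∩ {y | nsq (F y) ≤ R (p y)} ∧
    gpf b id id (p ⁻¹' U) (p ⁻¹' Z ∩ {y | nsq (F y) ≤ R (p y)}) c =
      cupf _ _ (gpf b id p (p ⁻¹' U) (p ⁻¹' Z) x) (eul b ρ F (p ⁻¹' U) (F ⁻¹' {0}))

/-- Integration along the fibre `V` of `(p, F) : Y ≃ X × V` (proper push-forward). -/
def intg (a : Act G X) {b : Act G Y} (ρ : Act G (J → ℂ)) (p : Y → X) (F : Y → J → ℂ)
    (U Z : Set X) {U' Z' : Set Y} : EH b U' Z' →ₗ[ℂ] EH a U Z :=
  Classical.epsilon fun L => ∀ c, IntRel ρ p F c (L c)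

/-- `intg` as a function. -/
abbrev intf (a : Act G X) {b : Act G Y} (ρ : Act G (J → ℂ)) (p : Y → X) (F : Y → J → ℂ)
    (U Z : Set X) {U' Z' : Set Y} (c : EH b U' Z') : EH a U Z := intg a ρ p F U Z c

/-- Push-forward along `(v, x) ↦ (F (v, x), x) : V × U → V' × U`: multiply by the class of the
graph and integrate over `V`. -/
def pushf (a : Act G X) (ρ : Act G (J → ℂ)) (ρ' : Act G (J' → ℂ))
    (F : (J → ℂ) × X → J' → ℂ) (U : Set X) (Z : Set ((J → ℂ) × X)) (Z' : Set ((J' → ℂ) × X))
    (c : EH (ρ.prod a) (univ ×ˢ U) Z) : EH (ρ'.prod a) (univ ×ˢ U) Z' :=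
  intf (ρ'.prod a) ρ Prod.snd Prod.fst (univ ×ˢ U) Z'
    (cupf (univ ×ˢ univ ×ˢ U) {y | (y.1, y.2.2) ∈ Z ∧ y.2.1 = F (y.1, y.2.2)}
      (gpf (ρ.prod (ρ'.prod a)) id (fun y => (y.1, y.2.2)) (univ ×ˢ univ ×ˢ U)
        {y | (y.1, y.2.2) ∈ Z} c)
      (eul (ρ.prod (ρ'.prod a)) ρ' (fun y => y.2.1 - F (y.1, y.2.2)) (univ ×ˢ univ ×ˢ U)
        {y | y.2.1 = F (y.1, y.2.2)}))

end Pool.Agent.Work.MP_849ab0_ag.G
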