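import Mathlib

/-! Quotients by compact groups: the quotient map is open and closed, the quotient of a second
countable metrisable space is second countable and metrisable. -/

noncomputable section

namespace Pool.Agent.Work.MP_849ab0_ag.G

open Set Topology

/-- `q` is the quotient map of the action `s` of the compact group `H`. -/
structure IsOrbQ {H Y Q : Type} [Group H] [TopologicalSpace H] [TopologicalSpace Y]
    [TopologicalSpace Q] (s : H → Y → Y) (q : Y → Q) : Prop where
  cont : Continuous fun z : H × Y => s z.1 z.2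
  one : ∀ y, s 1 y = y
  mul : ∀ g h y, s (g * h) y = s g (s h y)
  quot : IsQuotientMap q
  eq_iff : ∀ a b, q a = q b ↔ ∃ h, s h a = b

namespace IsOrbQ

variable {H Y Q : Type} [Group H] [TopologicalSpace H] [TopologicalSpace Y]
  [TopologicalSpace Q] {s : H → Y → Y} {q : Y → Q} (hq : IsOrbQ s q)
include hq

theorem q_s (h : H) (y : Y) : q (s h y) = q y := ((hq.eq_iff _ _).2 ⟨h, rfl⟩).symm

theorem cont_s (h : H) : Continuous (s h) :=
  hq.cont.comp (continuous_const.prodMk continuous_id)

theorem pre_image (A : Set Y) : q ⁻¹' (q '' A) = ⋃ h, s h ⁻¹' A := by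
  ext y
  simp only [mem_preimage, mem_image, mem_iUnion]
  constructor
  · rintro ⟨a, ha, e⟩
    obtain ⟨h, rfl⟩ := (hq.eq_iff _ _).1 e.symm
    exact ⟨h, ha⟩
  · rintro ⟨h, ha⟩
    exact ⟨_, ha, hq.q_s h y⟩

theorem isOpenMap : IsOpenMap q := fun A hA => by
  rw [← hq.quot.isOpen_preimage, hq.pre_image]
  exact isOpen_iUnion fun h => hA.preimage (hq.cont_s h)

theorem isOpenQuotientMap : IsOpenQuotientMap q :=
  ⟨hq.quot.surjective, hq.quot.continuous, hq.isOpenMap⟩

theorem isClosedMap [CompactSpace H] : IsClosedMap q := fun A hA => by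
  rw [← hq.quot.isClosed_preimage, hq.pre_image]
  have : (⋃ h, s h ⁻¹' A) = Prod.snd '' ((fun z : H × Y => s z.1 z.2) ⁻¹' A) := by
    ext y; simp
  rw [this]
  exact isClosedMap_snd_of_compactSpace _ (hA.preimage hq.cont)

theorem fibre (y : Y) : q ⁻¹' {q y} = range fun h => s h y := by
  ext z
  simp only [mem_preimage, mem_singleton_iff, mem_range]
  rw [eq_comm, hq.eq_iff]

theorem isCompact_fibre [CompactSpace H] (b : Q) : IsCompact (q ⁻¹' {b}) := by
  obtain ⟨y, rfl⟩ := hq.quot.surjective b
  rw [hq.fibre]
  exact isCompact_range (hq.cont.comp (continuous_id.prodMk continuous_const))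

theorem secondCountable [SecondCountableTopology Y] : SecondCountableTopology Q :=
  hq.quot.secondCountableTopology hq.isOpenMap

theorem t3 [CompactSpace H] [T3Space Y] : T3Space Q := by
  have h1 : T1Space Q := ⟨fun b => by
    rw [← hq.quot.isClosed_preimage]; exact (hq.isCompact_fibre b).isClosed⟩
  have h2 : RegularSpace Q := by
    refine RegularSpace.of_exists_mem_nhds_isClosed_subset fun b U hU => ?_
    obtain ⟨V, hVU, hV, hb⟩ := mem_nhds_iff.1 hU
    obtain ⟨y, rfl⟩ := hq.quot.surjective b
    obtain ⟨C, hC, hc, hs⟩ := exists_mem_nhds_isClosed_subset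
      ((hV.preimage hq.quot.continuous).mem_nhds hb)
    exact ⟨q '' C, hq.isOpenMap.image_mem_nhds hC, hq.isClosedMap C hc,
      (image_subset_iff.2 hs).trans hVU⟩
  exact ⟨⟩

theorem metrizable [CompactSpace H] [T3Space Y] [SecondCountableTopology Y] :
    TopologicalSpace.MetrizableSpace Q :=
  have := hq.t3
  have := hq.secondCountable
  TopologicalSpace.metrizableSpace_of_t3_secondCountable Q

/-- The product with a space on which the group acts trivially. -/
theorem prod (T : Type) [TopologicalSpace T] :
    IsOrbQ (fun h (z : Y × T) => (s h z.1, z.2)) (Prod.map q id) where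
  cont := (hq.cont.comp (continuous_fst.prodMk continuous_snd.fst)).prodMk continuous_snd.snd
  one y := by rw [hq.one]
  mul g h y := by rw [hq.mul]
  quot := (hq.isOpenQuotientMap.prodMap .id).isQuotientMap
  eq_iff a b := by
    simp only [Prod.ext_iff, Prod.map_fst, Prod.map_snd, id, hq.eq_iff, exists_and_right]

/-- Continuity on a saturated set can be checked upstairs. -/
theorem continuousOn_iff {T : Type} [TopologicalSpace T] {f : Q → T} {U : Set Q} :
    ContinuousOn f U ↔ ContinuousOn (f ∘ q) (q ⁻¹' U) := by
  refine ⟨fun h => h.comp hq.quot.continuous.continuousOn fun _ k => k, fun h => ?_⟩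
  intro b hb
  obtain ⟨y, rfl⟩ := hq.quot.surjective b
  have := h y hb
  rw [ContinuousWithinAt, nhdsWithin, ← hq.isOpenQuotientMap.map_nhds_eq,
    ← Filter.map_inf_principal_preimage, Filter.tendsto_map'_iff]
  exact this

end IsOrbQ

end Pool.Agent.Work.MP_849ab0_ag.G
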