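import Pool.Agent.Work.MP_849ab0_ag.G.Lat
import Pool.Agent.Work.MP_849ab0_ag.G.Bor
import Mathlib
import Pool.Agent.Work.MP_849ab0_ag.G.GrpQuot

-- merged part: Pool.Agent.Work.MP_849ab0_ag.G.Stm
section
/-!
Quiver gauge theories: the Nakajima quiver variety and the BFN space of triples with its
convolution product.  All groups are replaced by their maximal compact subgroups.
-/

noncomputable section

set_option linter.unusedSectionVars false

namespace Pool.Agent.Work.MP_849ab0_ag.G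

open Set Matrix

attribute [local instance] topC

/-- Quiver data.  Vertices `I`; the extra vertex `none` is the framing vertex (dimension one), so
an arrow `i → none` is one copy of `Hom (V i, ℂ)`.  `V = ℂ ^ P`, and `V i` is spanned by the basis
vectors of colour `i`.  The torus `T = U(1) ^ κ` acts on the arrow `e` by the weight `t e`;
`h` is the weight `ħ`. -/
structure Qv (I P E κ : Type) where
  col : P → I
  src : E → Option I
  tgt : E → Option I
  t : E → κ → ℤ
  h : κ → ℤ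

namespace Qv

variable {I P E κ : Type} [Fintype I] [DecidableEq I] [Fintype P] [DecidableEq P] [Fintype E]
  [Fintype κ] [DecidableEq κ] (D : Qv I P E κ)

/-- Coordinates of `N`: an arrow with a basis vector over its source and one over its target. -/
def Wt : Type :=
  {p : E × Option P × Option P // p.2.1.map D.col = D.src p.1 ∧ p.2.2.map D.col = D.tgt p.1}

instance : Fintype D.Wt := @Fintype.ofFinite _ Subtype.finite

/-- The representation `N`. -/
abbrev Rep : Type := D.Wt → ℂ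

/-- The component `e` of `y : N` as an endomorphism of `V ⊕ ℂ`. -/
def mat (y : D.Rep) (e : E) : Matrix (Option P) (Option P) ℂ :=
  Matrix.of fun b a =>
    if h : a.map D.col = D.src e ∧ b.map D.col = D.tgt e then y ⟨(e, a, b), h⟩ else 0

/-- The action of `g ∈ ∏ GL (V i)` on `N`. -/
def gact (g : Matrix P P ℂ) (y : D.Rep) : D.Rep :=
  fun p => (hat 1 g * D.mat y p.1.1 * (hat 1 g)⁻¹) p.1.2.2 p.1.2.1

/-- The action of `K × T` on `N`. -/
def aN : Act (KT D.col κ) D.Rep := ⟨fun g y p => chr (D.t p.1.1) g.2 * D.gact g.1.1.1 y p⟩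

/-- King's stability: `ν · dim S - (ν · v) dim S_∞ < 0` for proper nonzero subrepresentations `S`
of `V ⊕ ℂ`. -/
def Stable (ν : I → ℤ) (y : D.Rep) : Prop :=
  ∀ Q, IsPr (Option.map D.col) Q → (∀ e, Pres Q (D.mat y e)) → Q ≠ 0 → Q ≠ 1 →
    (∑ a, (ν (D.col a) : ℂ) * (Q (some a) (some a) - Q none none)).re < 0

/-- The doubled quiver; its representation space is `N ⊕ N^*`, with weights `χ` and `ħ - χ`. -/
abbrev dbl : Qv I P (E ⊕ E) κ :=
  ⟨D.col, Sum.elim D.src D.tgt, Sum.elim D.tgt D.src, Sum.elim D.t fun e => D.h - D.t e, D.h⟩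

/-- The moment map (its block on `V`). -/
def mu (y : D.dbl.Rep) : Matrix (Option P) (Option P) ℂ :=
  ∑ e, (D.dbl.mat y (.inl e) * D.dbl.mat y (.inr e) - D.dbl.mat y (.inr e) * D.dbl.mat y (.inl e))

/-- `μ⁻¹(0)^s`. -/
def Xs (ν : I → ℤ) : Set D.dbl.Rep :=
  {y | (∀ a b, D.mu y (some a) (some b) = 0) ∧ D.dbl.Stable ν y}

/-- The orbits of `∏ GL (V i)`. -/
def orb (ν : I → ℤ) (x y : D.Xs ν) : Prop :=
  ∃ g : Matrix P P ℂ, IsUnit g ∧ (∀ a b, D.col a ≠ D.col b → g a b = 0) ∧ y.1 = D.dbl.gact g x.1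

/-- The subspace topology on `μ⁻¹(0)^s`. -/
local instance topX (ν : I → ℤ) : TopologicalSpace (D.Xs ν) := instTopologicalSpaceSubtype

/-- The quotient topology on the quiver variety. -/
local instance topM (ν : I → ℤ) : TopologicalSpace (Quot (D.orb ν)) := instTopologicalSpaceQuot

/-- The Nakajima quiver variety with the action of `T`. -/
def aM (ν : I → ℤ) : Act (Gp.tor κ) (Quot (D.orb ν)) :=
  ((D.dbl.aN.res (G' := Gp.tor κ) fun τ => (1, τ)).sub (D.Xs ν)).quot _

/-- `H_T^*(M)`. -/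
abbrev HM (ν : I → ℤ) : Type := EH (D.aM ν) univ univ

/-- `H_{K × T}^*(pt)`. -/
abbrev HP : Type := EH (Act.pt (KT D.col κ)) univ univ

/-- `H_{K × T}^*(μ⁻¹(0)^s)`. -/
abbrev HX (ν : I → ℤ) : Type := EH (D.dbl.aN.sub (D.Xs ν)) univ univ

instance (ν : I → ℤ) : AddZero (D.HM ν) := instAddZeroEH _ _ _

instance (ν : I → ℤ) : Add (D.HM ν) := (instAddZeroHM D ν).toAdd

instance (ν : I → ℤ) : Zero (D.HM ν) := (instAddZeroHM D ν).toZero

/-- The pull-back `H_T^*(M) → H_{K × T}^*(μ⁻¹(0)^s)`. -/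
def dsc (ν : I → ℤ) (x : D.HM ν) : D.HX ν :=
  gpf _ Prod.snd (Quot.mk _) univ univ x

/-- The Kirwan map. -/
def kw (ν : I → ℤ) (c : D.HP) : D.HM ν :=
  ginv (D.dbl.aN.sub (D.Xs ν)) _ Prod.snd (Quot.mk _) univ univ
    (gpf _ id (fun _ => ()) univ univ c)

/-- The cup product on `H_T^*(M)`. -/
def mulM (ν : I → ℤ) (x y : D.HM ν) : D.HM ν := cupf univ univ x y

/-- The number of basis vectors in `S` over a vertex. -/
def mlt (S : Finset P) (o : Option I) : ℤ := (S.filter fun a => some (D.col a) = o).card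

/-- Regular characters: `ν · m ≠ 0` for `0 ≠ m ≤ v` with `q (m) ≤ 1`, `q` the Tits form. -/
def Reg (ν : I → ℤ) : Prop :=
  ∀ S : Finset P, S.Nonempty →
    ∑ i, D.mlt S (some i) ^ 2 - ∑ e, D.mlt S (D.src e) * D.mlt S (D.tgt e) ≤ 1 →
      ∑ a ∈ S, ν (D.col a) ≠ 0

end Qv

variable {P : Type} [Fintype P] [DecidableEq P]

namespace Qv

variable {I E κ : Type} [Fintype I] [DecidableEq I] [Fintype E] [Fintype κ] [DecidableEq κ]
  (D : Qv I P E κ)

/-- The product topology on `N[[t]]`. -/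
local instance topO : TopologicalSpace (ℕ → D.Rep) := Pi.topologicalSpace

/-- The product topology on pairs of a loop and an element of `N[[t]]`. -/
local instance topF : TopologicalSpace ((ℤ → Matrix P P ℂ) × (ℕ → D.Rep)) :=
  instTopologicalSpaceProd

attribute [local instance] topM

/-- The action on `N[[t]]`; the variable `t` has weight `ħ`. -/
def aO : Act (KT D.col κ) (ℕ → D.Rep) := ⟨fun g s m => chr D.h g.2 ^ m • D.aN.act g (s m)⟩

/-- The action on `En P k` by conjugation. -/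
def aE (k : ℕ) : Act (KT D.col κ) (En P k) :=
  ⟨fun g Q z => chr D.h g.2 ^ (z.1.2.1 - z.2.2.1) *
    (g.1.1.1 * blkAt Q z.1.2 z.2.2 * g.1.1.1ᴴ) z.1.1 z.2.1⟩

/-- The space of triples: pairs of a graded lattice `t^k V[[t]] ⊆ L ⊆ t^{-k} V[[t]]`, given by its
orthogonal projection, and `s ∈ N[[t]]` preserving `L ⊕ ℂ[[t]]`. -/
def RR (k : ℕ) : Set (En P k × (ℕ → D.Rep)) :=
  {z | IsPr (fun x => x.1.map D.col) (ext z.1) ∧ Pres (ext z.1) (ser k (Pi.single 1 1)) ∧
    ∀ e, Pres (ext z.1) (ser k fun m => D.mat (z.2 m) e)}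

/-- Equivariant Borel-Moore homology of a closed subset of the space of triples. -/
abbrev HR (k : ℕ) (Z : Set (En P k × (ℕ → D.Rep))) : Type := EH ((D.aE k).prod D.aO) univ Z

instance (k : ℕ) (Z : Set (En P k × (ℕ → D.Rep))) : AddZero (D.HR k Z) := instAddZeroEH _ _ _

/-- Push-forward along `RR k ⊆ RR (k + 1)`. -/
def up (k : ℕ) (a : D.HR k (D.RR k)) : D.HR (k + 1) (D.RR (k + 1)) :=
  gpf _ id id univ _
    (pushf D.aO (D.aE k) (D.aE (k + 1)) (fun z w => blkAt z.1 w.1.2 w.2.2 w.1.1 w.2.1) univ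
      (D.RR k) (D.RR (k + 1)) (gpf _ id id _ _ a))

/-- Polynomial loops in `K` of degree at most `k`. -/
def Lp (k : ℕ) : Set (ℤ → Matrix P P ℂ) :=
  {γ | (∀ x, (k : ℤ) < |x| → γ x = 0) ∧ (∀ x a b, D.col a ≠ D.col b → γ x a b = 0) ∧
    ∀ m, ∑ x ∈ Finset.Icc (-(k : ℤ)) k, (γ x)ᴴ * γ (x + m) = if m = 0 then 1 else 0}

/-- `γ⁻¹ s γ`. -/
def adj (k : ℕ) (γ : ℤ → Matrix P P ℂ) (s : ℕ → D.Rep) : ℕ → D.Rep := fun m p =>
  (∑ x ∈ Finset.Icc (-(k : ℤ)) k, ∑ y ∈ Finset.Icc (-(k : ℤ)) k,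
    if 0 ≤ m + x - y then (hat (if x = 0 then 1 else 0) (γ x))ᴴ *
      D.mat (s (m + x - y).toNat) p.1.1 * hat (if y = 0 then 1 else 0) (γ y) else 0) p.1.2.2 p.1.2.1

/-- The group `K × K × T`; the first factor acts on loops from the right. -/
abbrev KKT : Gp := (Gp.blk D.col).prod (KT D.col κ)

/-- The action on pairs `(γ, s)`. -/
def aF : Act D.KKT ((ℤ → Matrix P P ℂ) × (ℕ → D.Rep)) :=
  ⟨fun g z => (fun x => chr D.h g.2.2 ^ x • (g.2.1.1.1 * z.1 x * g.1.1.1ᴴ), D.aO.act g.2 z.2)⟩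

/-- Pairs `(γ, s)` with `(γ V[[t]], s)` in the space of triples. -/
def UF (k : ℕ) : Set ((ℤ → Matrix P P ℂ) × (ℕ → D.Rep)) :=
  {z | z.1 ∈ D.Lp k ∧ (tw k z.1 (0 : En P 0) k, z.2) ∈ D.RR k}

/-- Triples `(L, γ, s)` with `(L, γ⁻¹ s γ)` in the space of triples. -/
def Z1 (k l : ℕ) : Set (En P l × (ℤ → Matrix P P ℂ) × (ℕ → D.Rep)) :=
  {z | (z.1, D.adj k z.2.1 z.2.2) ∈ D.RR l}

/-- The same triples, written as `(γ L, γ, s)`. -/
def Z2 (k l : ℕ) : Set (En P (k + l) × (ℤ → Matrix P P ℂ) × (ℕ → D.Rep)) :=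
  {z | ∃ Q, (Q, z.2) ∈ D.Z1 k l ∧ z.1 = tw k z.2.1 Q (k + l)}

/-- The quotient map `(L₂, γ, s) ↦ (γ V[[t]], L₂, s)`. -/
def qq (k l : ℕ) (z : En P (k + l) × (ℤ → Matrix P P ℂ) × (ℕ → D.Rep)) :
    En P k × En P (k + l) × (ℕ → D.Rep) := (tw k z.2.1 (0 : En P 0) k, z.1, z.2.2)

/-- The convolution space of the triples `(L₁, L₂, s)`. -/
def Z3 (k l : ℕ) : Set (En P k × En P (k + l) × (ℕ → D.Rep)) :=
  D.qq k l '' (D.Z2 k l ∩ univ ×ˢ D.UF k)

/-- The class of the second factor on the convolution space: pull back along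
`(L, γ, s) ↦ (L, γ⁻¹ s γ)`, move `L` by `γ`, and descend along the quotient by `K`. -/
def tws (k l : ℕ) (b : D.HR l (D.RR l)) :
    EH ((D.aE k).prod ((D.aE (k + l)).prod D.aO)) {z | (z.1, z.2.2) ∈ D.RR k} (D.Z3 k l) :=
  ginv (((D.aE (k + l)).res Prod.snd).prod D.aF) _ Prod.snd (D.qq k l) _ _
    (pushf D.aF ((D.aE l).res fun g => (g.1, g.2.2)) ((D.aE (k + l)).res Prod.snd)
      (fun z => tw k z.2.1 z.1 (k + l)) (D.UF k) (D.Z1 k l) (D.Z2 k l)
      (gpf _ (fun g : D.KKT.H => (g.1, g.2.2)) (fun z => (z.1, D.adj k z.2.1 z.2.2)) _ _ b))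

/-- The convolution product: cap the first factor with the class of the second one and push
forward along `(L₁, L₂, s) ↦ (L₂, s)`. -/
def cnv (k l : ℕ) (a : D.HR k (D.RR k)) (b : D.HR l (D.RR l)) : D.HR (k + l) (D.RR (k + l)) :=
  intf _ (D.aE k) Prod.snd Prod.fst univ _
    (cupf univ (D.Z3 k l)
      (gpf _ id (fun z => (z.1, z.2.2)) univ {z | (z.1, z.2.2) ∈ D.RR k} a) (D.tws k l b))

/-- `H_{K × T}^*(pt)` is the homology of the triples with `L = V[[t]]`. -/
def unt (c : D.HP) : D.HR 0 (D.RR 0) := gpf _ id (fun _ => ()) univ _ c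

/-- The components of `ν`-weight `m` on which the determinant of `N` has degree `c`. -/
def comp (ν : I → ℤ) (k : ℕ) (m c : ℤ) : Set (En P k × (ℕ → D.Rep)) :=
  {z | z ∈ D.RR k ∧ ∑ a, ν (D.col a) * ind z.1 (some a) = m ∧
    ∑ p : D.Wt, (ind z.1 p.1.2.2 - ind z.1 p.1.2.1) = c}

/-- Families of additive maps from the groups `HR k (RR k)` to a ring. -/
abbrev Io (A : Type) [Ring A] : Type := ∀ k, D.HR k (D.RR k) →+ A

variable {A : Type} [Ring A]

/-- `A` is the convolution algebra: the direct limit of the groups `HR k (RR k)`. -/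
structure IsBFN (ι : D.Io A) : Prop where
  inj : ∀ k, Function.Injective (ι k)
  incl : ∀ k a, ι (k + 1) (D.up k a) = ι k a
  surj : ∀ x, ∃ k a, ι k a = x
  mul : ∀ k l a b, ι (k + l) (D.cnv k l a b) = ι k a * ι l b
  one : ι 0 (D.unt (eone _ univ)) = 1

/-- The elements of `ν`-weight `m` and cohomological degree `p`, normalised as in BFN. -/
def piece (ι : D.Io A) (ν : I → ℤ) (m p : ℤ) : Set A :=
  {x | ∃ (k : ℕ) (c : ℤ) (a : D.HR k (D.comp ν k m c)),
    IsDeg (p + 2 * c + 2 * Fintype.card ((P × Pos k) × (P × Pos k))) a ∧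
      x = ι k (gpf _ id id univ _ a)}

/-- The `ν`-weight space `A_m`. -/
def wsp (ι : D.Io A) (ν : I → ℤ) (m : ℤ) : AddSubgroup A :=
  AddSubgroup.closure (⋃ p, D.piece ι ν m p)

/-- The restriction of `Φ` to `A_0` induces an isomorphism of graded `H_{K × T}^*(pt)`-algebras
`A_0 / ∑_{m < 0} A_m A_{-m} ≃ H_T^*(M)`. -/
structure IsHik (ι : D.Io A) (ν : I → ℤ) (Φ : A → D.HM ν) : Prop where
  add : ∀ x ∈ D.wsp ι ν 0, ∀ y ∈ D.wsp ι ν 0, Φ (x + y) = Φ x + Φ y
  mul : ∀ x ∈ D.wsp ι ν 0, ∀ y ∈ D.wsp ι ν 0,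
    x * y ∈ D.wsp ι ν 0 ∧ Φ (x * y) = D.mulM ν (Φ x) (Φ y)
  ker : ∀ x ∈ D.wsp ι ν 0, Φ x = 0 ↔
    x ∈ AddSubgroup.closure {z | ∃ m < 0, ∃ b ∈ D.wsp ι ν m, ∃ a ∈ D.wsp ι ν (-m), z = b * a}
  surj : ∀ y, ∃ x ∈ D.wsp ι ν 0, Φ x = y
  alg : ∀ c, ι 0 (D.unt c) ∈ D.wsp ι ν 0 ∧ Φ (ι 0 (D.unt c)) = D.kw ν c
  deg : ∀ p, ∀ x ∈ D.piece ι ν 0 p, IsDeg p (Φ x)

end Qv

end Pool.Agent.Work.MP_849ab0_ag.G
end
end

-- merged part: Pool.Agent.Work.MP_849ab0_ag.G.Defs
section
/-!
The maps of `Stm` as linear maps.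
-/

noncomputable section

set_option linter.unusedSectionVars false

namespace Pool.Agent.Work.MP_849ab0_ag.G

open Set Matrix

section

variable {G : Gp} {X : Type} [TopologicalSpace X] {J J' : Type} [Fintype J] [Fintype J']

/-- Push-forward along `(v, x) ↦ (F (v, x), x) : V × U → V' × U`: multiply by the class of the
graph and integrate over `V`. -/
def push (a : Act G X) (ρ : Act G (J → ℂ)) (ρ' : Act G (J' → ℂ))
    (F : (J → ℂ) × X → J' → ℂ) (U : Set X) (Z : Set ((J → ℂ) × X)) (Z' : Set ((J' → ℂ) × X)) :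
    EH (ρ.prod a) (univ ×ˢ U) Z →ₗ[ℂ] EH (ρ'.prod a) (univ ×ˢ U) Z' :=
  intg (ρ'.prod a) ρ Prod.snd Prod.fst (univ ×ˢ U) Z' ∘ₗ
    (ecup (univ ×ˢ univ ×ˢ U) {y | (y.1, y.2.2) ∈ Z ∧ y.2.1 = F (y.1, y.2.2)}).flip
      (eul (ρ.prod (ρ'.prod a)) ρ' (fun y => y.2.1 - F (y.1, y.2.2)) (univ ×ˢ univ ×ˢ U)
        {y | y.2.1 = F (y.1, y.2.2)}) ∘ₗ
    gp (ρ.prod (ρ'.prod a)) id (fun y => (y.1, y.2.2)) (univ ×ˢ univ ×ˢ U) {y | (y.1, y.2.2) ∈ Z}

theorem pushf_eq (a : Act G X) (ρ : Act G (J → ℂ)) (ρ' : Act G (J' → ℂ))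
    (F : (J → ℂ) × X → J' → ℂ) (U : Set X) (Z : Set ((J → ℂ) × X)) (Z' : Set ((J' → ℂ) × X))
    (c : EH (ρ.prod a) (univ ×ˢ U) Z) : pushf a ρ ρ' F U Z Z' c = push a ρ ρ' F U Z Z' c := rfl

end

namespace Qv

variable {I P E κ : Type} [Fintype I] [DecidableEq I] [Fintype P] [DecidableEq P] [Fintype E]
  [Fintype κ] [DecidableEq κ] (D : Qv I P E κ)

/-- The pull-back `H_T^*(M) → H_{K × T}^*(μ⁻¹(0)^s)`. -/
def desc (ν : I → ℤ) : D.HM ν →ₗ[ℂ] EH (D.dbl.aN.sub (D.Xs ν)) univ univ :=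
  gp _ Prod.snd (Quot.mk _) univ univ

/-- The Kirwan map. -/
def kir (ν : I → ℤ) : D.HP →ₗ[ℂ] D.HM ν :=
  linv (D.desc ν) ∘ₗ gp _ id (fun _ => ()) univ univ

/-- Push-forward along `RR k ⊆ RR (k + 1)`. -/
def incl (k : ℕ) : D.HR k (D.RR k) →ₗ[ℂ] D.HR (k + 1) (D.RR (k + 1)) :=
  gp _ id id univ _ ∘ₗ
    push D.aO (D.aE k) (D.aE (k + 1)) (fun z w => blkAt z.1 w.1.2 w.2.2 w.1.1 w.2.1) univ
      (D.RR k) (D.RR (k + 1)) ∘ₗ gp _ id id _ _

/-- The class of the second factor on the convolution space: pull back along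
`(L, γ, s) ↦ (L, γ⁻¹ s γ)`, move `L` by `γ`, and descend along the quotient by `K`. -/
def twist (k l : ℕ) : D.HR l (D.RR l) →ₗ[ℂ]
    EH ((D.aE k).prod ((D.aE (k + l)).prod D.aO)) {z | (z.1, z.2.2) ∈ D.RR k} (D.Z3 k l) :=
  linv (gp (((D.aE (k + l)).res Prod.snd).prod D.aF) Prod.snd (D.qq k l) (univ ×ˢ D.UF k)
      (D.Z2 k l)) ∘ₗ
    push D.aF ((D.aE l).res fun g => (g.1, g.2.2)) ((D.aE (k + l)).res Prod.snd)
      (fun z => tw k z.2.1 z.1 (k + l)) (D.UF k) (D.Z1 k l) (D.Z2 k l) ∘ₗ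
    gp _ (fun g : D.KKT.H => (g.1, g.2.2)) (fun z => (z.1, D.adj k z.2.1 z.2.2)) _ _

/-- The convolution product: cap the first factor with the class of the second one and push
forward along `(L₁, L₂, s) ↦ (L₂, s)`. -/
def conv (k l : ℕ) (a : D.HR k (D.RR k)) (b : D.HR l (D.RR l)) : D.HR (k + l) (D.RR (k + l)) :=
  intg _ (D.aE k) Prod.snd Prod.fst univ _
    (ecup univ (D.Z3 k l)
      (gp _ id (fun z => (z.1, z.2.2)) univ {z | (z.1, z.2.2) ∈ D.RR k} a) (D.twist k l b))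

/-- `H_{K × T}^*(pt)` is the homology of the triples with `L = V[[t]]`. -/
def cst : D.HP →ₗ[ℂ] D.HR 0 (D.RR 0) := gp _ id (fun _ => ()) univ _

theorem dsc_eq (ν : I → ℤ) : D.dsc ν = D.desc ν := rfl

theorem kw_eq (ν : I → ℤ) (c : D.HP) : D.kw ν c = D.kir ν c := rfl

theorem up_eq (k : ℕ) (a : D.HR k (D.RR k)) : D.up k a = D.incl k a := rfl

theorem tws_eq (k l : ℕ) (b : D.HR l (D.RR l)) : D.tws k l b = D.twist k l b := rfl

theorem cnv_eq (k l : ℕ) (a : D.HR k (D.RR k)) (b : D.HR l (D.RR l)) :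
    D.cnv k l a b = D.conv k l a b := rfl

theorem unt_eq (c : D.HP) : D.unt c = D.cst c := rfl

theorem IsBFN.of {A : Type} [Ring A] {ι : ∀ k, D.HR k (D.RR k) →+ A}
    (inj : ∀ k, Function.Injective (ι k)) (incl : ∀ k a, ι (k + 1) (D.incl k a) = ι k a)
    (surj : ∀ x, ∃ k a, ι k a = x) (mul : ∀ k l a b, ι (k + l) (D.conv k l a b) = ι k a * ι l b)
    (one : ι 0 (D.cst (eone _ univ)) = 1) : D.IsBFN ι := ⟨inj, incl, surj, mul, one⟩

theorem mem_piece {A : Type} [Ring A] {ι : ∀ k, D.HR k (D.RR k) →+ A} {ν : I → ℤ} {m p : ℤ}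
    {x : A} : x ∈ D.piece ι ν m p ↔ ∃ (k : ℕ) (c : ℤ) (a : D.HR k (D.comp ν k m c)),
      IsDeg (p + 2 * c + 2 * Fintype.card ((P × Pos k) × (P × Pos k))) a ∧
        x = ι k (gp _ id id univ _ a) := Iff.rfl

end Qv

end Pool.Agent.Work.MP_849ab0_ag.G
end
end

-- merged part: Pool.Agent.Work.MP_849ab0_ag.G.ApiDef
section
/-!
Hypotheses and auxiliary definitions for the equivariant API.
-/

noncomputable section

set_option linter.unusedSectionVars false

namespace Pool.Agent.Work.MP_849ab0_ag.G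

open Set Topology Matrix

/-- compact matrix groups -/
class Gp.Nice (G : Gp) : Prop where
  tg : IsTopologicalGroup G.H
  cpt : CompactSpace G.H
  one : G.u 1 = 1
  mul : ∀ g h, G.u (g * h) = G.u g * G.u h
  cont : Continuous G.u
  inj : Function.Injective G.u

/-- the trivial group -/
abbrev Gp.one : Gp := Gp.tor Empty

variable {G G' G'' : Gp} {X X' X'' Y Y' : Type}

/-- continuous homomorphisms -/
class IsHom (φ : G'.H → G.H) : Prop where
  mul : ∀ g h, φ (g * h) = φ g * φ h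
  cont : Continuous φ

/-- continuous unitary characters -/
structure IsChar (χ : G.H → ℂ) : Prop where
  mul : ∀ g h, χ (g * h) = χ g * χ h
  cont : Continuous χ
  norm : ∀ g, ‖χ g‖ = 1

/-- diagonal matrices -/
def diagU {ι C : Type} [Fintype ι] [DecidableEq ι] (c : ι → C) (g : ι → Circle) : Ub c :=
  ⟨⟨diagonal fun j => (g j : ℂ), by
    rw [Matrix.mem_unitaryGroup_iff, star_eq_conjTranspose, diagonal_conjTranspose,
      diagonal_mul_diagonal, ← diagonal_one]
    congr 1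
    ext j
    simp [Complex.mul_conj, Complex.normSq_eq_norm_sq]⟩,
    fun _ _ h => diagonal_apply_ne _ fun e => h (e ▸ rfl)⟩

/-- the inclusion `T_K × G' → K × G'` -/
def inc {ι C : Type} [Fintype ι] [DecidableEq ι] (c : ι → C) (G' : Gp) :
    ((Gp.tor ι).prod G').H → ((Gp.blk c).prod G').H := fun g => (diagU c g.1, g.2)

namespace Act

/-- the trivial action -/
def triv (G : Gp) (X : Type) : Act G X := ⟨fun _ x => x⟩

/-- diagonal representations -/
def dg {J : Type} (χ : J → G.H → ℂ) : Act G (J → ℂ) := ⟨fun g w j => χ j g * w j⟩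

/-- direct sums -/
def sum {J J' : Type} (ρ : Act G (J → ℂ)) (ρ' : Act G (J' → ℂ)) : Act G (J ⊕ J' → ℂ) :=
  ⟨fun g w => Sum.elim (ρ.act g (w ∘ Sum.inl)) (ρ'.act g (w ∘ Sum.inr))⟩

/-- a representation twisted by the scalar action of a new circle -/
def scal {J : Type} (ρ : Act G (J → ℂ)) : Act ((Gp.tor Unit).prod G) (J → ℂ) :=
  ⟨fun g w => (g.1 () : ℂ) • ρ.act g.2 w⟩

variable [TopologicalSpace X] [TopologicalSpace X'] [TopologicalSpace Y]

/-- continuous actions -/
class Ok (a : Act G X) : Prop where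
  one : ∀ x, a.act 1 x = x
  mul : ∀ g h x, a.act (g * h) x = a.act g (a.act h x)
  cont : Continuous fun z : G.H × X => a.act z.1 z.2

/-- unitary representations -/
class Rep {J : Type} [Fintype J] (ρ : Act G (J → ℂ)) : Prop extends Ok ρ where
  lin : ∀ g, IsLinearMap ℂ (ρ.act g)
  nsq : ∀ g w, nsq (ρ.act g w) = nsq w

/-- good pairs: `U` locally closed and invariant, `U ∩ Z` invariant and closed in `U` -/
structure Pr (a : Act G X) (U Z : Set X) : Prop where
  lc : IsLocallyClosed U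
  inv : ∀ g, ∀ x ∈ U, a.act g x ∈ U
  invz : ∀ g, ∀ x ∈ U, x ∈ Z → a.act g x ∈ Z
  cl : U ∩ closure (U ∩ Z) ⊆ Z

end Act

variable [TopologicalSpace X] [TopologicalSpace X'] [TopologicalSpace Y] [TopologicalSpace Y']

/-- For `(p, F) : Y ≃ X × V`: the class `c` is the image of `x` under the Thom isomorphism,
once the supports are enlarged to a disc bundle over `Z`. -/
def IsInt {J : Type} [Fintype J] {a : Act G X}
    {b : Act G Y} (ρ : Act G (J → ℂ)) (p : Y → X) (F : Y → J → ℂ)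
    {U Z : Set X} {U' Z' : Set Y} (c : EH b U' Z') (x : EH a U Z) : Prop :=
  ∃ R : X → ℝ, ContinuousOn R U ∧ (∀ y ∈ U, 0 ≤ R y ∧ ∀ g, R (a.act g y) = R y) ∧
    p ⁻¹' U ⊆ U' ∧ p ⁻¹' U ∩ Z' ⊆ p ⁻¹' Z ∩ {y | nsq (F y) ≤ R (p y)} ∧
    gp b id id (p ⁻¹' U) (p ⁻¹' Z ∩ {y | nsq (F y) ≤ R (p y)}) c =
      ecup _ _ (gp b id p (p ⁻¹' U) (p ⁻¹' Z) x) (eul b ρ F (p ⁻¹' U) (F ⁻¹' {0}))

/-- admissible equivariant maps of pairs -/
structure GAdm (a' : Act G' X') (a : Act G X) (φ : G'.H → G.H) (f : X' → X) (U' Z' : Set X')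
    (U Z : Set X) : Prop where
  src : a'.Pr U' Z'
  tgt : a.Pr U Z
  cont : ContinuousOn f U'
  eqv : ∀ g, ∀ x ∈ U', f (a'.act g x) = a.act (φ g) (f x)
  maps : MapsTo f U' U
  supp : ∀ x ∈ U', f x ∈ Z → x ∈ Z'

/-- admissible maps to a representation, with zero set inside `Z` -/
abbrev EAdm {J : Type} (b : Act G Y) (ρ : Act G (J → ℂ)) (F : Y → J → ℂ) (U Z : Set Y) : Prop :=
  GAdm b ρ id F U Z univ {0}

/-- admissible cup products -/
structure ECup (a : Act G X) (U Z U' Z' U'' Z'' : Set X) : Prop where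
  p1 : a.Pr U Z
  p2 : a.Pr U' Z'
  p3 : a.Pr U'' Z''
  ok : CupOK U Z U' Z' U'' Z''

/-- `(p, F)` is an equivariant homeomorphism `p ⁻¹' U ≃ U × V` -/
structure Fib {J : Type} (a : Act G X) (b : Act G Y) (ρ : Act G (J → ℂ)) (p : Y → X)
    (F : Y → J → ℂ) (U : Set X) : Prop where
  contp : Continuous p
  eqvp : ∀ g y, p (b.act g y) = a.act g (p y)
  contF : ContinuousOn F (p ⁻¹' U)
  eqvF : ∀ g, ∀ y ∈ p ⁻¹' U, F (b.act g y) = ρ.act g (F y)
  inv : ∃ s : X × (J → ℂ) → Y, ContinuousOn s (U ×ˢ univ) ∧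
    (∀ x ∈ U, ∀ v, p (s (x, v)) = x ∧ F (s (x, v)) = v) ∧ ∀ y ∈ p ⁻¹' U, s (p y, F y) = y

/-- admissible integration: the support is bounded along the fibres and lies over `Z` -/
structure IAdm {J : Type} [Fintype J] (a : Act G X) (b : Act G Y) (ρ : Act G (J → ℂ)) (p : Y → X)
    (F : Y → J → ℂ) (U Z : Set X) (U' Z' : Set Y) : Prop where
  fib : Fib a b ρ p F U
  tgt : a.Pr U Z
  src : b.Pr U' Z'
  sub : p ⁻¹' U ⊆ U'
  supp : ∀ y ∈ Z', p y ∈ U → p y ∈ Z
  bdd : ∃ R : X → ℝ, ContinuousOn R U ∧ (∀ g, ∀ x ∈ U, R (a.act g x) = R x) ∧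
    ∀ y ∈ Z', p y ∈ U → nsq (F y) ≤ R (p y)

/-- classes of even degree -/
def Ev {U Z : Set X} (a : H U Z) : Prop :=
  ∃ φ ∈ Zc U Z, a = cls U Z φ ∧ ∀ l : List X, Even l.length → φ l = 0

/-- the homogeneous component of degree `p` -/
def dpr {U Z : Set X} (p : ℕ) : H U Z →ₗ[ℂ] H U Z :=
  Classical.epsilon fun L => ∀ φ ∈ Zc U Z,
    L (cls U Z φ) = cls U Z fun l => if l.length = p + 1 then φ l else 0

/-- the connecting map; `0` unless `U \ Z ⊆ U'` -/
def bdry (U Z : Set X) {U' Z' : Set X} : H U' Z' →ₗ[ℂ] H U Z :=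
  open Classical in
  if U \ Z ⊆ U' then Classical.epsilon fun L => ∀ φ ∈ Zc U' Z', L (cls U' Z' φ) = cls U Z (dl φ)
  else 0

/-- the equivariant connecting map -/
def ebd {a : Act G X} (U Z : Set X) {U' Z' : Set X} : EH a U' Z' →ₗ[ℂ] EH a U Z :=
  bdry (a.bs U) (a.bs Z)

/-- the Mayer-Vietoris connecting map -/
def mvd (a : Act G X) (A B Z : Set X) : EH a (A ∩ B) Z →ₗ[ℂ] EH a (A ∪ B) Z :=
  gp a id id (A ∪ B) Z ∘ₗ
    linv (gp a id id A (Z \ B) : EH a (A ∪ B) (Z \ B) →ₗ[ℂ] _) ∘ₗ ebd A (Z \ B) ∘ₗ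
      linv (gp a id id (A ∩ B) Z : EH a (A \ (Z \ B)) Z →ₗ[ℂ] _)

/-- equivariant cohomology of a point -/
abbrev HPt (G : Gp) : Type := EH (Act.pt G) univ univ

/-- the action of the cohomology of a point -/
def sm {a : Act G X} {U Z : Set X} : HPt G →ₗ[ℂ] EH a U Z →ₗ[ℂ] EH a U Z :=
  (ecup U Z : EH a U univ →ₗ[ℂ] _) ∘ₗ gp a id (fun _ => ()) U univ

/-- the Euler class of a representation -/
def euc {J : Type} [Fintype J] (ρ : Act G (J → ℂ)) : HPt G :=
  eul (Act.pt G) ρ (fun _ => 0) univ univ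

/-- the Euler class of a character -/
def eu (χ : G.H → ℂ) : HPt G := euc (Act.dg fun _ : Unit => χ)

/-- the linear form of a weight -/
def lf {κ : Type} [Fintype κ] (R : Type) [CommRing R] (m : κ → ℤ) : MvPolynomial κ R :=
  ∑ j, (m j : MvPolynomial κ R) * MvPolynomial.X j

end Pool.Agent.Work.MP_849ab0_ag.G
end
end

-- merged part: Pool.Agent.Work.MP_849ab0_ag.G.GrpRaw
section
/-! Raw facts on actions of compact groups: averaging, Gleason's lemma, shifts of `ℕ → ℂ`. -/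

noncomputable section

namespace Pool.Agent.Work.MP_849ab0_ag.G

open Set Topology MeasureTheory

theorem cont_avg {H P : Type} [TopologicalSpace H] [CompactSpace H] [MeasurableSpace H]
    [BorelSpace H] (μ : Measure H) [IsFiniteMeasure μ] [TopologicalSpace P]
    {g : P → H → ℂ} (hg : Continuous fun q : P × H => g q.1 q.2) :
    Continuous fun p => ∫ k, g p k ∂μ := by
  have hint : ∀ f : C(H, ℂ), Integrable f μ := fun f =>
    (BoundedContinuousFunction.mkOfCompact f).integrable μ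
  have hl : Continuous fun f : C(H, ℂ) => ∫ k, f k ∂μ := by
    refine (LipschitzWith.of_dist_le_mul (K := (μ univ).toNNReal) fun f f' => ?_).continuous
    rw [dist_eq_norm, ← integral_sub (hint f) (hint f')]
    refine (norm_integral_le_of_norm_le_const (C := dist f f')
      (Filter.Eventually.of_forall fun k => ?_)).trans (le_of_eq ?_)
    · rw [← dist_eq_norm]; exact ContinuousMap.dist_apply_le_dist k
    · rw [mul_comm]; rfl
  exact hl.comp (ContinuousMap.curry ⟨fun q : P × H => g q.1 q.2, hg⟩).continuous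

theorem gleason_local {H P ι : Type} [Group H] [TopologicalSpace H] [IsTopologicalGroup H]
    [CompactSpace H] [TopologicalSpace P] [T2Space P] [NormalSpace P] [Fintype ι] [DecidableEq ι]
    (w : H →* Matrix ι ι ℂ) (hw : Continuous w) (s : H → P → P)
    (hs : Continuous fun q : H × P => s q.1 q.2) (h1 : ∀ p, s 1 p = p)
    (hm : ∀ g h p, s (g * h) p = s g (s h p)) (p0 : P) (hf : ∀ h, s h p0 = p0 → w h = 1) :
    ∃ f : P → Matrix ι ι ℂ, Continuous f ∧ f p0 = 1 ∧ ∀ h p, f (s h p) = w h * f p := by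
  classical
  borelize H
  let μ : Measure H := Measure.haarMeasure ⊤
  have hμ : μ univ = 1 := by
    have := @Measure.haarMeasure_self H _ _ _ _ _ ⊤
    simpa using this
  have : IsProbabilityMeasure μ := ⟨hμ⟩
  have ho : Continuous fun h : H => s h p0 := hs.comp (continuous_id.prodMk continuous_const)
  let O : Set P := range fun h : H => s h p0
  have hO : IsClosed O := (isCompact_range ho).isClosed
  have key : ∀ g h, s g p0 = s h p0 → w g = w h := fun g h e => by
    have : w (h⁻¹ * g) = 1 := hf _ (by rw [hm, e, ← hm, inv_mul_cancel, h1])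
    rw [← mul_inv_cancel_left h g, map_mul, this, mul_one]
  let o : H → O := fun h => ⟨s h p0, h, rfl⟩
  have hoc : Continuous o := ho.subtype_mk _
  have hos : Function.Surjective o := by rintro ⟨_, h, rfl⟩; exact ⟨h, rfl⟩
  have hq : IsQuotientMap o := hoc.isClosedMap.isQuotientMap hoc hos
  let F0 : O → ι → ι → ℂ := fun y => w y.2.choose
  have hF0 : ∀ h, F0 (o h) = w h := fun h => key _ _ (o h).2.choose_spec
  have hF0c : Continuous F0 := by
    rw [hq.continuous_iff]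
    have : F0 ∘ o = w := funext hF0
    rw [this]; exact hw
  obtain ⟨F, hF⟩ := ContinuousMap.exists_restrict_eq hO ⟨F0, hF0c⟩
  have hF' : ∀ h, F (s h p0) = w h := fun h => by
    have := congrArg (fun f : C(O, ι → ι → ℂ) => f (o h)) hF
    exact this.trans (hF0 h)
  let g : P → H → Matrix ι ι ℂ := fun p k => w k * Matrix.of (F (s k⁻¹ p))
  have hgc : Continuous fun q : P × H => g q.1 q.2 :=
    (hw.comp continuous_snd).matrix_mul
      (F.continuous.comp (hs.comp (continuous_snd.inv.prodMk continuous_fst)))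
  have hgi : ∀ p i j, Integrable (fun k => g p k i j) μ := fun p i j =>
    (BoundedContinuousFunction.mkOfCompact ⟨fun k => g p k i j,
      (hgc.comp (continuous_const.prodMk continuous_id)).matrix_elem i j⟩).integrable μ
  refine ⟨fun p i j => ∫ k, g p k i j ∂μ, ?_, ?_, fun h p => ?_⟩
  · exact continuous_pi fun i => continuous_pi fun j => cont_avg μ (hgc.matrix_elem i j)
  · ext i j
    have : ∀ k, g p0 k = 1 := fun k => by
      change w k * Matrix.of (F (s k⁻¹ p0)) = 1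
      rw [hF']
      change w k * w k⁻¹ = 1
      rw [← map_mul, mul_inv_cancel, map_one]
    simp [this]
  · ext i j
    change ∫ k, g (s h p) k i j ∂μ = ∑ l, w h i l * ∫ k, g p k l j ∂μ
    rw [← integral_mul_left_eq_self (fun k => g (s h p) k i j) h]
    simp only [← integral_const_mul]
    rw [← integral_finsetSum _ fun l _ => (hgi p l j).const_mul _]
    congr 1; ext k
    change (w (h * k) * Matrix.of (F (s (h * k)⁻¹ (s h p)))) i j = _
    rw [← hm, mul_inv_rev, inv_mul_cancel_right, map_mul, mul_assoc, Matrix.mul_apply]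

/-- Gleason: a space with an action whose stabilisers act trivially through `w` has an
equivariant map to the linearly independent families. -/
theorem gleason {H P ι : Type} [Group H] [TopologicalSpace H] [IsTopologicalGroup H]
    [CompactSpace H] [TopologicalSpace P] [T2Space P] [NormalSpace P] [LindelofSpace P]
    [Fintype ι] [DecidableEq ι]
    (w : H →* Matrix ι ι ℂ) (hw : Continuous w) (s : H → P → P)
    (hs : Continuous fun q : H × P => s q.1 q.2) (h1 : ∀ p, s 1 p = p)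
    (hm : ∀ g h p, s (g * h) p = s g (s h p)) (hf : ∀ p h, s h p = p → w h = 1) :
    ∃ f : P → ι → ℕ → ℂ, Continuous f ∧ (∀ p, LinearIndependent ℂ (f p)) ∧
      ∀ h p, f (s h p) = fun i n => ∑ j, w h i j * f p j n := by
  classical
  choose f fc f1 fe using fun p0 => gleason_local w hw s hs h1 hm p0 (hf p0)
  rcases isEmpty_or_nonempty P with hP | hP
  · exact ⟨fun p => hP.elim p, continuous_of_discreteTopology, fun p => hP.elim p,
      fun _ p => hP.elim p⟩
  have hop : ∀ p0, IsOpen {p | (f p0 p).det ≠ 0} := fun p0 =>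
    isOpen_ne_fun (fc p0).matrix_det continuous_const
  obtain ⟨c, hc⟩ := (isLindelof_univ (X := P)).indexed_countable_subcover
    (fun p0 => {p | (f p0 p).det ≠ 0}) hop (fun p _ => mem_iUnion.2 ⟨p, by simp [f1]⟩)
  obtain ⟨e, he⟩ := exists_surjective_nat (ℕ × Option ι)
  let col : ℕ × Option ι → P → ι → ℂ := fun a p i => a.2.elim 0 fun j => f (c a.1) p i j
  refine ⟨fun p i n => col (e n) p i, ?_, fun p => ?_, fun h p => ?_⟩
  · refine continuous_pi fun i => continuous_pi fun n => ?_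
    rcases e n with ⟨a, _ | j⟩
    · exact continuous_const
    · exact (fc (c a)).matrix_elem i j
  · obtain ⟨a, ha⟩ := mem_iUnion.1 (hc (mem_univ p))
    rw [Fintype.linearIndependent_iff]
    intro x hx
    have hv : Matrix.vecMul x (f (c a) p) = 0 := by
      ext j
      obtain ⟨n, hn⟩ := he (a, some j)
      have := congrFun hx n
      simp only [Finset.sum_apply, Pi.smul_apply, smul_eq_mul, hn, col, Option.elim] at this
      simpa [Matrix.vecMul, dotProduct] using this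
    exact congrFun (Matrix.eq_zero_of_vecMul_eq_zero ha hv)
  · ext i n
    change col (e n) (s h p) i = ∑ j, w h i j * col (e n) p j
    rcases e n with ⟨a, _ | j⟩
    · simp [col]
    · simp [col, fe, Matrix.mul_apply]

/-- Even shift. -/
def shE (x : ℕ → ℂ) : ℕ → ℂ := fun n => if n % 2 = 0 then x (n / 2) else 0

/-- Odd shift. -/
def shO (x : ℕ → ℂ) : ℕ → ℂ := fun n => if n % 2 = 1 then x (n / 2) else 0

theorem li_of_inj {ι : Type} [Fintype ι] {a b e : ι → ℕ → ℂ} (ha : LinearIndependent ℂ a)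
    (hb : LinearIndependent ℂ b)
    (h : ∀ x : ι → ℂ, ∑ i, x i • e i = 0 → ∑ i, x i • a i = 0 ∨ ∑ i, x i • b i = 0) :
    LinearIndependent ℂ e := by
  rw [Fintype.linearIndependent_iff] at *
  intro x hx
  rcases h x hx with k | k
  · exact ha x k
  · exact hb x k

theorem shE_line (t : ℝ) (y : ℕ → ℂ) (h : ∀ n, (1 - t : ℂ) * y n + t * shE y n = 0) : y = 0 := by
  by_cases ht : (1 - t : ℂ) = 0
  · have ht' : (t : ℂ) = 1 := by linear_combination -ht
    ext n
    have := h (2 * n)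
    simpa [ht, ht', shE] using this
  · ext n
    induction n using Nat.strong_induction_on with
    | _ n ih =>
      have := h n
      rcases Nat.eq_zero_or_pos n with rfl | hn
      · simp only [shE, Nat.zero_mod, if_true, Nat.zero_div] at this
        show y 0 = 0
        linear_combination this
      · have h2 : shE y n = 0 := by
          unfold shE; split_ifs
          · exact ih _ (by omega)
          · rfl
        rw [h2, mul_zero, add_zero] at this
        exact (mul_eq_zero.1 this).resolve_left ht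

theorem shO_line (t : ℝ) (y : ℕ → ℂ) (h : ∀ n, (1 - t : ℂ) * y n + t * shO y n = 0) : y = 0 := by
  by_cases ht : (1 - t : ℂ) = 0
  · have ht' : (t : ℂ) = 1 := by linear_combination -ht
    ext n
    have := h (2 * n + 1)
    have e : (2 * n + 1) / 2 = n := by omega
    simpa [ht, ht', shO, e] using this
  · ext n
    induction n using Nat.strong_induction_on with
    | _ n ih =>
      have := h n
      have h2 : shO y n = 0 := by
        unfold shO; split_ifs
        · exact ih _ (by omega)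
        · rfl
      rw [h2, mul_zero, add_zero] at this
      exact (mul_eq_zero.1 this).resolve_left ht

theorem shEO_line (t : ℝ) (y z : ℕ → ℂ) (h : ∀ n, (1 - t : ℂ) * shE y n + t * shO z n = 0) :
    y = 0 ∨ z = 0 := by
  by_cases ht : (t : ℂ) = 0
  · left; ext n
    have := h (2 * n)
    simpa [ht, shE] using this
  · right; ext n
    have := h (2 * n + 1)
    have e : (2 * n + 1) / 2 = n := by omega
    simpa [ht, shE, shO, e] using this

theorem sum_shE {ι : Type} [Fintype ι] (x : ι → ℂ) (a : ι → ℕ → ℂ) (n : ℕ) :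
    shE (fun m => ∑ i, x i * a i m) n = ∑ i, x i * shE (a i) n := by
  unfold shE; split_ifs <;> simp

theorem sum_shO {ι : Type} [Fintype ι] (x : ι → ℂ) (a : ι → ℕ → ℂ) (n : ℕ) :
    shO (fun m => ∑ i, x i * a i m) n = ∑ i, x i * shO (a i) n := by
  unfold shO; split_ifs <;> simp

theorem sum_smul_fun {ι : Type} [Fintype ι] (x : ι → ℂ) (a : ι → ℕ → ℂ) :
    ∑ i, x i • a i = fun m => ∑ i, x i * a i m := by
  ext m; simp

theorem li_shE {ι : Type} [Fintype ι] {a : ι → ℕ → ℂ} (ha : LinearIndependent ℂ a) (t : ℝ) :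
    LinearIndependent ℂ fun i n => (1 - t : ℂ) * a i n + t * shE (a i) n :=
  li_of_inj ha ha fun x hx => Or.inl <| shE_line t _ fun n => by
    have := congrFun hx n
    rw [sum_smul_fun] at this ⊢
    rw [sum_shE, Finset.mul_sum, Finset.mul_sum, ← Finset.sum_add_distrib]
    exact Eq.trans (Finset.sum_congr rfl fun i _ => by ring) this

theorem li_shO {ι : Type} [Fintype ι] {a : ι → ℕ → ℂ} (ha : LinearIndependent ℂ a) (t : ℝ) :
    LinearIndependent ℂ fun i n => (1 - t : ℂ) * a i n + t * shO (a i) n :=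
  li_of_inj ha ha fun x hx => Or.inl <| shO_line t _ fun n => by
    have := congrFun hx n
    rw [sum_smul_fun] at this ⊢
    rw [sum_shO, Finset.mul_sum, Finset.mul_sum, ← Finset.sum_add_distrib]
    exact Eq.trans (Finset.sum_congr rfl fun i _ => by ring) this

theorem li_shEO {ι : Type} [Fintype ι] {a b : ι → ℕ → ℂ} (ha : LinearIndependent ℂ a)
    (hb : LinearIndependent ℂ b) (t : ℝ) :
    LinearIndependent ℂ fun i n => (1 - t : ℂ) * shE (a i) n + t * shO (b i) n :=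
  li_of_inj ha hb fun x hx => shEO_line t _ _ fun n => by
    have := congrFun hx n
    rw [sum_smul_fun] at this ⊢
    rw [sum_smul_fun, sum_shE, sum_shO, Finset.mul_sum, Finset.mul_sum, ← Finset.sum_add_distrib]
    exact Eq.trans (Finset.sum_congr rfl fun i _ => by ring) this

theorem cont_shE : Continuous shE := continuous_pi fun n => by
  unfold shE; split_ifs
  · exact continuous_apply _
  · exact continuous_const

theorem cont_shO : Continuous shO := continuous_pi fun n => by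
  unfold shO; split_ifs
  · exact continuous_apply _
  · exact continuous_const

end Pool.Agent.Work.MP_849ab0_ag.G
end
end

-- merged part: Pool.Agent.Work.MP_849ab0_ag.G.GrpBor
section
/-! The Borel construction of a compact matrix group is a quotient by a compact group. -/

noncomputable section

set_option linter.unusedSectionVars false
set_option linter.unusedVariables false

namespace Pool.Agent.Work.MP_849ab0_ag.G

open Set Topology Matrix

attribute [instance] Gp.Nice.tg Gp.Nice.cpt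

/-- An invariant set. -/
def Act.Inv {G : Gp} {X : Type} (a : Act G X) (S : Set X) : Prop := ∀ g, ∀ x ∈ S, a.act g x ∈ S

theorem compactSpace_unitaryGroup (ι : Type) [Fintype ι] [DecidableEq ι] :
    CompactSpace (Matrix.unitaryGroup ι ℂ) := by
  refine isCompact_iff_compactSpace.1 (?_ : IsCompact (Matrix.unitaryGroup ι ℂ : Set (Matrix ι ι ℂ)))
  have h1 : IsCompact (Set.pi univ fun _ : ι => Set.pi univ fun _ : ι => Metric.closedBall (0 : ℂ) 1) :=
    isCompact_univ_pi fun _ => isCompact_univ_pi fun _ => isCompact_closedBall _ _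
  refine IsCompact.of_isClosed_subset h1 ?_ fun U hU i _ j _ => by
    simpa using entry_norm_bound_of_unitary hU i j
  have : (Matrix.unitaryGroup ι ℂ : Set (Matrix ι ι ℂ)) = {U | U * star U = 1} := by
    ext U; exact Matrix.mem_unitaryGroup_iff
  rw [this]
  exact isClosed_eq (continuous_id.matrix_mul continuous_id.matrix_conjTranspose) continuous_const

instance {ι C : Type} [Fintype ι] [DecidableEq ι] (c : ι → C) : (Gp.blk c).Nice where
  tg := inferInstanceAs (IsTopologicalGroup (Ub c))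
  cpt := by
    have := compactSpace_unitaryGroup ι
    refine isCompact_iff_compactSpace.1
      (IsClosed.isCompact ?_ : IsCompact (Ub c : Set (Matrix.unitaryGroup ι ℂ)))
    have : (Ub c : Set (Matrix.unitaryGroup ι ℂ)) = ⋂ a, ⋂ b, ⋂ _ : c a ≠ c b, {g | g.1 a b = 0} := by
      ext g; simp only [mem_iInter]; rfl
    rw [this]
    exact isClosed_iInter fun a => isClosed_iInter fun b => isClosed_iInter fun _ =>
      isClosed_eq (continuous_subtype_val.matrix_elem a b) continuous_const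
  one := rfl
  mul _ _ := rfl
  cont := continuous_subtype_val.comp continuous_subtype_val
  inj _ _ h := Subtype.ext (Subtype.ext h)

instance (κ : Type) [Fintype κ] [DecidableEq κ] : (Gp.tor κ).Nice where
  tg := inferInstanceAs (IsTopologicalGroup (κ → Circle))
  cpt := inferInstanceAs (CompactSpace (κ → Circle))
  one := diagonal_one
  mul g h := by simp [diagonal_mul_diagonal]
  cont := Continuous.matrix_diagonal (continuous_pi fun j =>
    continuous_subtype_val.comp (continuous_apply j))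
  inj g h e := funext fun j => Circle.ext (congrFun (diagonal_injective e) j)

instance (G G' : Gp) [G.Nice] [G'.Nice] : (G.prod G').Nice where
  tg := inferInstanceAs (IsTopologicalGroup (G.H × G'.H))
  cpt := inferInstanceAs (CompactSpace (G.H × G'.H))
  one := by simp [Gp.prod, Gp.Nice.one, fromBlocks_one]
  mul g h := by simp [Gp.prod, Gp.Nice.mul, fromBlocks_multiply]
  cont := Continuous.matrix_fromBlocks (Gp.Nice.cont.comp continuous_fst) continuous_const
    continuous_const (Gp.Nice.cont.comp continuous_snd)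
  inj g h e := by
    obtain ⟨e1, -, -, e2⟩ := fromBlocks_inj.1 e
    exact Prod.ext (Gp.Nice.inj e1) (Gp.Nice.inj e2)

variable {G G' G'' : Gp} {X X' Y : Type}

namespace IsHom

theorem one {φ : G'.H → G.H} (h : IsHom φ) : φ 1 = 1 := by
  have := h.mul 1 1
  rw [one_mul] at this
  exact left_eq_mul.1 this

theorem inv {φ : G'.H → G.H} (h : IsHom φ) (g : G'.H) : φ g⁻¹ = (φ g)⁻¹ :=
  eq_inv_of_mul_eq_one_left (by rw [← h.mul, inv_mul_cancel, h.one])

instance id : IsHom (id : G.H → G.H) := ⟨fun _ _ => rfl, continuous_id⟩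

instance comp {φ : G'.H → G.H} {ψ : G''.H → G'.H} [h : IsHom φ] [k : IsHom ψ] : IsHom (φ ∘ ψ) :=
  ⟨fun a b => by simp [k.mul, h.mul], h.cont.comp k.cont⟩

instance fst : IsHom (G := G) (G' := G.prod G') Prod.fst := ⟨fun _ _ => rfl, continuous_fst⟩

instance snd : IsHom (G := G') (G' := G.prod G') Prod.snd := ⟨fun _ _ => rfl, continuous_snd⟩

theorem prodMk {φ : G''.H → G.H} {ψ : G''.H → G'.H} (h : IsHom φ) (k : IsHom ψ) :
    IsHom (G := G.prod G') (G' := G'') fun g => (φ g, ψ g) :=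
  ⟨fun a b => Prod.ext (h.mul a b) (k.mul a b), h.cont.prodMk k.cont⟩

instance const_one : IsHom (G := G) (G' := G') fun _ => 1 :=
  ⟨fun _ _ => (one_mul _).symm, continuous_const⟩

instance id' : IsHom (G := G) (G' := G) fun g => g := ⟨fun _ _ => rfl, continuous_id⟩

instance inl : IsHom (G := G.prod G') (G' := G) fun g => (g, 1) := prodMk id const_one

instance inr : IsHom (G := G.prod G') (G' := G') fun g => (1, g) := prodMk const_one id

instance inc {ι C : Type} [Fintype ι] [DecidableEq ι] (c : ι → C) (G' : Gp) :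
    IsHom (inc c G') where
  mul g h := Prod.ext (Subtype.ext (Subtype.ext (Gp.Nice.mul (G := Gp.tor ι) g.1 h.1))) rfl
  cont := Continuous.prodMk (continuous_induced_rng.2 (continuous_induced_rng.2
    ((Gp.Nice.cont (G := Gp.tor ι)).comp continuous_fst))) continuous_snd

end IsHom

theorem isChar_chr {κ : Type} [Fintype κ] [DecidableEq κ] (m : κ → ℤ) :
    IsChar (G := Gp.tor κ) (chr m) where
  mul g h := by simp [chr, mul_zpow, Finset.prod_mul_distrib]
  cont := continuous_finsetProd _ fun j _ =>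
    (continuous_subtype_val.comp (continuous_apply j)).zpow₀ _ fun g => Or.inl (g j).coe_ne_zero
  norm g := by simp [chr]

theorem IsChar.comp {χ : G.H → ℂ} (h : IsChar χ) (φ : G'.H → G.H) [k : IsHom φ] :
    IsChar (χ ∘ φ) :=
  ⟨fun a b => by simp [k.mul, h.mul], h.cont.comp k.cont, fun _ => h.norm _⟩

theorem IsChar.mul' {χ ψ : G.H → ℂ} (h : IsChar χ) (k : IsChar ψ) : IsChar fun g => χ g * ψ g :=
  ⟨fun a b => by rw [h.mul, k.mul]; ring, h.cont.mul k.cont, fun _ => by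
    rw [norm_mul, h.norm, k.norm, one_mul]⟩

theorem IsChar.ne_zero {χ : G.H → ℂ} (h : IsChar χ) (g : G.H) : χ g ≠ 0 := fun e => by
  simpa [e] using h.norm g

theorem IsChar.one {χ : G.H → ℂ} (h : IsChar χ) : χ 1 = 1 := by
  have h1 := h.mul 1 1
  rw [one_mul] at h1
  exact mul_left_cancel₀ (h.ne_zero 1) (h1.symm.trans (mul_one _).symm)

namespace Gp

variable [G.Nice]

theorem u_inv_mul (g : G.H) : G.u g⁻¹ * G.u g = 1 := by
  rw [← Nice.mul, inv_mul_cancel, Nice.one]

theorem u_mul_inv (g : G.H) : G.u g * G.u g⁻¹ = 1 := by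
  rw [← Nice.mul, mul_inv_cancel, Nice.one]

theorem isUnit_u (g : G.H) : IsUnit (G.u g) :=
  ⟨⟨G.u g, G.u g⁻¹, u_mul_inv g, u_inv_mul g⟩, rfl⟩

instance : T2Space G.H := T2Space.of_injective_continuous Nice.inj Nice.cont

instance : SecondCountableTopology G.H :=
  have : SecondCountableTopology (Matrix G.ι G.ι ℂ) :=
    inferInstanceAs (SecondCountableTopology (G.ι → G.ι → ℂ))
  ((Nice.cont (G := G)).isClosedEmbedding Nice.inj).isEmbedding.secondCountableTopology

/-- The representation as a homomorphism. -/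
def uh (G : Gp) [G.Nice] : G.H →* Matrix G.ι G.ι ℂ := ⟨⟨G.u, Nice.one⟩, Nice.mul⟩

end Gp

theorem li_mul {ι ι' : Type} [Fintype ι] [Fintype ι'] {A : Matrix ι' ι ℂ} {e : Matrix ι ℕ ℂ}
    (hA : LinearIndependent ℂ A.row) (he : LinearIndependent ℂ e.row) :
    LinearIndependent ℂ (A * e).row := by
  rw [← Matrix.vecMul_injective_iff] at *
  intro v w h
  simp only [← Matrix.vecMul_vecMul] at h
  exact hA (he h)

/-- A linearly independent family can be cancelled on the right. -/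
theorem Fm.cancel {ι ι' : Type} [Fintype ι] (e : Fm ι) {A B : Matrix ι' ι ℂ}
    (h : A * e.1 = B * e.1) : A = B := by
  ext i j
  have : A i ᵥ* e.1 = B i ᵥ* e.1 := funext fun n => congrFun (congrFun h i) n
  exact congrFun (Matrix.vecMul_injective_iff.2 e.2 this) j

instance (ι : Type) [Fintype ι] : T3Space (Fm ι) :=
  inferInstanceAs (T3Space {e : ι → ℕ → ℂ // LinearIndependent ℂ e})

instance (ι : Type) [Fintype ι] : SecondCountableTopology (Fm ι) :=
  TopologicalSpace.Subtype.secondCountableTopology {e : ι → ℕ → ℂ | LinearIndependent ℂ e}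

theorem Fm.cont_val {ι : Type} : Continuous (fun e : Fm ι => e.1) := continuous_subtype_val

theorem Fm.cont_iff {ι : Type} [TopologicalSpace X] {f : X → Fm ι} :
    Continuous f ↔ Continuous fun x => (f x).1 := continuous_induced_rng

/-- The free action on `EG`. -/
def Gp.fm (G : Gp) [G.Nice] : Act G (Fm G.ι) :=
  ⟨fun g e => ⟨G.u g * e.1, li_mul (Matrix.linearIndependent_rows_of_isUnit (Gp.isUnit_u g)) e.2⟩⟩

theorem Gp.fm_val [G.Nice] (g : G.H) (e : Fm G.ι) : (G.fm.act g e).1 = G.u g * e.1 := rfl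

theorem Gp.fm_free [G.Nice] {g : G.H} {e : Fm G.ι} (h : G.fm.act g e = e) : g = 1 :=
  Gp.Nice.inj (Fm.cancel e (by rw [Gp.Nice.one, Matrix.one_mul]; exact congrArg Subtype.val h))

theorem Gp.fm_inj [G.Nice] {g h : G.H} {e : Fm G.ι} (k : G.fm.act g e = G.fm.act h e) : g = h :=
  Gp.Nice.inj (Fm.cancel e (congrArg Subtype.val k))

instance [G.Nice] : G.fm.Ok where
  cont := Fm.cont_iff.2 ((Gp.Nice.cont.comp continuous_fst).matrix_mul
    (Fm.cont_val.comp continuous_snd))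
  one e := Subtype.ext (by rw [Gp.fm_val, Gp.Nice.one, Matrix.one_mul])
  mul g h e := Subtype.ext (by simp only [Gp.fm_val, Gp.Nice.mul, Matrix.mul_assoc])

variable [TopologicalSpace X] [TopologicalSpace X'] [TopologicalSpace Y]

namespace Act

theorem act_one (a : Act G X) [a.Ok] (x : X) : a.act 1 x = x := Ok.one x

theorem act_mul (a : Act G X) [a.Ok] (g h : G.H) (x : X) :
    a.act (g * h) x = a.act g (a.act h x) := Ok.mul g h x

theorem act_inv (a : Act G X) [a.Ok] (g : G.H) (x : X) : a.act g⁻¹ (a.act g x) = x := by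
  rw [← act_mul, inv_mul_cancel, act_one]

theorem act_inv' (a : Act G X) [a.Ok] (g : G.H) (x : X) : a.act g (a.act g⁻¹ x) = x := by
  rw [← act_mul, mul_inv_cancel, act_one]

theorem cont_act (a : Act G X) [a.Ok] {g : Y → G.H} {x : Y → X} (hg : Continuous g)
    (hx : Continuous x) : Continuous fun y => a.act (g y) (x y) :=
  (Ok.cont (a := a)).comp (hg.prodMk hx)

theorem contOn_act (a : Act G X) [a.Ok] {g : Y → G.H} {x : Y → X} {S : Set Y}
    (hg : ContinuousOn g S) (hx : ContinuousOn x S) :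
    ContinuousOn (fun y => a.act (g y) (x y)) S :=
  (Ok.cont (a := a)).comp_continuousOn (hg.prodMk hx)

instance (a : Act G X) (b : Act G Y) [a.Ok] [b.Ok] : (a.prod b).Ok where
  cont := (a.cont_act continuous_fst continuous_snd.fst).prodMk
    (b.cont_act continuous_fst continuous_snd.snd)
  one x := Prod.ext (a.act_one _) (b.act_one _)
  mul g h x := Prod.ext (a.act_mul _ _ _) (b.act_mul _ _ _)

instance (G : Gp) : (Act.pt G).Ok := ⟨fun _ => rfl, fun _ _ _ => rfl, continuous_snd⟩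

instance (G : Gp) : (Act.triv G X).Ok := ⟨fun _ => rfl, fun _ _ _ => rfl, continuous_snd⟩

instance ok_res (a : Act G X) [a.Ok] {φ : G'.H → G.H} [h : IsHom φ] : (a.res φ).Ok where
  cont := a.cont_act (h.cont.comp continuous_fst) continuous_snd
  one x := by change a.act (φ 1) x = x; rw [h.one, act_one]
  mul g k x := by change a.act (φ (g * k)) x = _; rw [h.mul, act_mul]; rfl

theorem ok_dg {J : Type} {χ : J → G.H → ℂ} (h : ∀ j, IsChar (χ j)) : (Act.dg χ).Ok where
  one w := funext fun j => by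
    change χ j 1 * w j = w j
    have h1 := (h j).mul 1 1
    have h2 : χ j 1 ≠ 0 := fun e => by simpa [e] using (h j).norm 1
    rw [one_mul] at h1
    rw [mul_left_cancel₀ h2 (h1.symm.trans (mul_one _).symm), one_mul]
  mul g k w := funext fun j => by
    change χ j (g * k) * w j = χ j g * (χ j k * w j)
    rw [(h j).mul, mul_assoc]
  cont := continuous_pi fun j =>
    ((h j).cont.comp continuous_fst).mul ((continuous_apply j).comp continuous_snd)

theorem rep_dg {J : Type} [Fintype J] {χ : J → G.H → ℂ} (h : ∀ j, IsChar (χ j)) :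
    (Act.dg χ).Rep where
  toOk := ok_dg h
  lin g := ⟨fun v w => funext fun j => mul_add _ _ _, fun c v => funext fun j => mul_left_comm _ _ _⟩
  nsq g w := Finset.sum_congr rfl fun j _ => by
    change ‖χ j g * w j‖ ^ 2 = _
    rw [norm_mul, (h j).norm, one_mul]

instance {J J' : Type} (ρ : Act G (J → ℂ)) (ρ' : Act G (J' → ℂ)) [ρ.Ok] [ρ'.Ok] :
    (ρ.sum ρ').Ok where
  one w := funext fun j => by cases j <;> simp [sum, act_one]
  mul g k w := funext fun j => by cases j <;> simp [sum, act_mul]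
  cont := continuous_pi fun j => by
    cases j with
    | inl j => exact (continuous_apply j).comp (ρ.cont_act continuous_fst
        (continuous_pi fun i => (continuous_apply (Sum.inl i)).comp continuous_snd))
    | inr j => exact (continuous_apply j).comp (ρ'.cont_act continuous_fst
        (continuous_pi fun i => (continuous_apply (Sum.inr i)).comp continuous_snd))

instance {J J' : Type} [Fintype J] [Fintype J'] (ρ : Act G (J → ℂ)) (ρ' : Act G (J' → ℂ))
    [ρ.Rep] [ρ'.Rep] : (ρ.sum ρ').Rep where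
  lin g := ⟨fun v w => funext fun j => by
      cases j with
      | inl j => exact congrFun ((Rep.lin (ρ := ρ) g).map_add (v ∘ Sum.inl) (w ∘ Sum.inl)) j
      | inr j => exact congrFun ((Rep.lin (ρ := ρ') g).map_add (v ∘ Sum.inr) (w ∘ Sum.inr)) j,
    fun c v => funext fun j => by
      cases j with
      | inl j => exact congrFun ((Rep.lin (ρ := ρ) g).map_smul c (v ∘ Sum.inl)) j
      | inr j => exact congrFun ((Rep.lin (ρ := ρ') g).map_smul c (v ∘ Sum.inr)) j⟩
  nsq g w := by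
    have h1 := Rep.nsq (ρ := ρ) g (w ∘ Sum.inl)
    have h2 := Rep.nsq (ρ := ρ') g (w ∘ Sum.inr)
    simp only [nsq, Fintype.sum_sum_type, sum, Sum.elim_inl, Sum.elim_inr] at *
    rw [h1, h2]; rfl

instance {J : Type} [Fintype J] (ρ : Act G (J → ℂ)) [ρ.Rep] {φ : G'.H → G.H} [IsHom φ] :
    (ρ.res φ).Rep where
  lin g := Rep.lin (ρ := ρ) (φ g)
  nsq g := Rep.nsq (ρ := ρ) (φ g)

instance {J : Type} [Fintype J] (G : Gp) : (Act.triv G (J → ℂ)).Rep where
  lin g := ⟨fun _ _ => rfl, fun _ _ => rfl⟩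
  nsq _ _ := rfl

instance {J : Type} [Fintype J] (ρ : Act G (J → ℂ)) [ρ.Rep] : ρ.scal.Rep where
  one w := by
    change ((1 : Circle) : ℂ) • ρ.act 1 w = w
    simp [act_one]
  mul g k w := by
    change ((g.1 () * k.1 () : Circle) : ℂ) • ρ.act (g.2 * k.2) w =
      (g.1 () : ℂ) • ρ.act g.2 ((k.1 () : ℂ) • ρ.act k.2 w)
    rw [(Rep.lin (ρ := ρ) g.2).map_smul, act_mul, smul_smul, Circle.coe_mul]
  cont := by
    have h : Continuous fun z : ((Unit → Circle) × G.H) × (J → ℂ) => (z.1.1 () : ℂ) :=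
      continuous_subtype_val.comp ((continuous_apply ()).comp continuous_fst.fst)
    exact h.smul (ρ.cont_act continuous_fst.snd continuous_snd)
  lin g := ⟨fun v w => by
      change (g.1 () : ℂ) • ρ.act g.2 (v + w) = (g.1 () : ℂ) • _ + (g.1 () : ℂ) • _
      rw [(Rep.lin (ρ := ρ) g.2).map_add, smul_add],
    fun c v => by
      change (g.1 () : ℂ) • ρ.act g.2 (c • v) = c • (g.1 () : ℂ) • _
      rw [(Rep.lin (ρ := ρ) g.2).map_smul, smul_comm]⟩
  nsq g w := by
    rw [← Rep.nsq (ρ := ρ) g.2 w]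
    exact Finset.sum_congr rfl fun j _ => by
      change ‖(g.1 () : ℂ) * _‖ ^ 2 = _
      rw [norm_mul, Circle.norm_coe, one_mul]

theorem sub_val (a : Act G X) {S : Set X} (h : a.Inv S) (g : G.H) (x : S) :
    ((a.sub S).act g x).1 = a.act g x := by
  simp only [sub, dif_pos (h g x x.2)]

theorem ok_sub (a : Act G X) [a.Ok] {S : Set X} (h : a.Inv S) : (a.sub S).Ok where
  cont := continuous_induced_rng.2 <| by
    have : (Subtype.val ∘ fun z : G.H × S => (a.sub S).act z.1 z.2) = fun z => a.act z.1 z.2 :=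
      funext fun z => a.sub_val h _ _
    rw [this]
    exact a.cont_act continuous_fst (continuous_subtype_val.comp continuous_snd)
  one x := Subtype.ext (by rw [a.sub_val h, act_one])
  mul g k x := Subtype.ext (by rw [a.sub_val h, a.sub_val h, a.sub_val h, act_mul])

theorem Inv.iff {a : Act G X} [a.Ok] {S : Set X} (h : a.Inv S) (g : G.H) (x : X) :
    a.act g x ∈ S ↔ x ∈ S :=
  ⟨fun k => by have := h g⁻¹ _ k; rwa [act_inv] at this, h g x⟩

theorem inv_univ (a : Act G X) : a.Inv univ := fun _ _ _ => trivial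

theorem inv_empty (a : Act G X) : a.Inv ∅ := fun _ _ h => h.elim

theorem Inv.inter {a : Act G X} {S T : Set X} (h : a.Inv S) (k : a.Inv T) : a.Inv (S ∩ T) :=
  fun g x hx => ⟨h g x hx.1, k g x hx.2⟩

theorem Inv.union {a : Act G X} {S T : Set X} (h : a.Inv S) (k : a.Inv T) : a.Inv (S ∪ T) :=
  fun g x hx => hx.imp (h g x) (k g x)

theorem Inv.compl {a : Act G X} [a.Ok] {S : Set X} (h : a.Inv S) : a.Inv Sᶜ :=
  fun g x hx k => hx ((h.iff g x).1 k)

theorem Inv.diff {a : Act G X} [a.Ok] {S T : Set X} (h : a.Inv S) (k : a.Inv T) :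
    a.Inv (S \ T) := h.inter k.compl

theorem Inv.prod {a : Act G X} {b : Act G Y} {S : Set X} {T : Set Y} (h : a.Inv S) (k : b.Inv T) :
    (a.prod b).Inv (S ×ˢ T) := fun g x hx => ⟨h g _ hx.1, k g _ hx.2⟩

theorem Inv.res {a : Act G X} {S : Set X} (h : a.Inv S) (φ : G'.H → G.H) : (a.res φ).Inv S :=
  fun g => h (φ g)

variable [G.Nice] (a : Act G X) [a.Ok]

theorem rel_iff (p q : Fm G.ι × X) : a.rel p q ↔ ∃ g, (G.fm.prod a).act g p = q :=
  exists_congr fun _ => ⟨fun h => Prod.ext (Subtype.ext h.1.symm) h.2.symm,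
    fun h => ⟨(congrArg (fun z => z.1.1) h).symm, (congrArg Prod.snd h).symm⟩⟩

theorem rel_equiv : Equivalence a.rel where
  refl p := (a.rel_iff _ _).2 ⟨1, act_one _ _⟩
  symm h := by
    obtain ⟨g, rfl⟩ := (a.rel_iff _ _).1 h
    exact (a.rel_iff _ _).2 ⟨g⁻¹, act_inv _ _ _⟩
  trans h k := by
    obtain ⟨g, rfl⟩ := (a.rel_iff _ _).1 h
    obtain ⟨g', rfl⟩ := (a.rel_iff _ _).1 k
    exact (a.rel_iff _ _).2 ⟨g' * g, act_mul _ _ _ _⟩

/-- The quotient map `EG × X → EG ×_G X`. -/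
def bq {G : Gp} {X : Type} (a : Act G X) (p : Fm G.ι × X) : a.Bor := a.bmk p.1 p.2

theorem isOrbQ : IsOrbQ (G.fm.prod a).act a.bq where
  cont := Ok.cont
  one := act_one _
  mul := act_mul _
  quot := isQuotientMap_quot_mk
  eq_iff p q := (Quot.eq.trans a.rel_equiv.eqvGen_iff).trans (a.rel_iff p q)

theorem bmk_eq_iff {e e' : Fm G.ι} {x x' : X} :
    a.bmk e x = a.bmk e' x' ↔ ∃ g, G.fm.act g e = e' ∧ a.act g x = x' :=
  (a.isOrbQ.eq_iff (e, x) (e', x')).trans (exists_congr fun _ => Prod.ext_iff)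

theorem bmk_act (g : G.H) (e : Fm G.ι) (x : X) : a.bmk (G.fm.act g e) (a.act g x) = a.bmk e x :=
  (a.bmk_eq_iff.2 ⟨g, rfl, rfl⟩).symm

theorem bmk_act_left (g : G.H) (e : Fm G.ι) (x : X) :
    a.bmk (G.fm.act g e) x = a.bmk e (a.act g⁻¹ x) := by
  rw [← a.bmk_act g e, act_inv']

theorem bmk_inj {e : Fm G.ι} {x x' : X} (h : a.bmk e x = a.bmk e x') : x = x' := by
  obtain ⟨g, h1, rfl⟩ := a.bmk_eq_iff.1 h
  rw [Gp.fm_free h1, act_one]

omit [G.Nice] [a.Ok] in
theorem cont_bq : Continuous a.bq := continuous_quot_mk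

omit [G.Nice] [a.Ok] in
theorem cont_bmk {e : Y → Fm G.ι} {x : Y → X} (he : Continuous e) (hx : Continuous x) :
    Continuous fun y => a.bmk (e y) (x y) := a.cont_bq.comp (he.prodMk hx)

omit [G.Nice] [a.Ok] in
theorem contOn_bmk {e : Y → Fm G.ι} {x : Y → X} {S : Set Y} (he : ContinuousOn e S)
    (hx : ContinuousOn x S) : ContinuousOn (fun y => a.bmk (e y) (x y)) S :=
  a.cont_bq.comp_continuousOn (he.prodMk hx)

omit [G.Nice] [a.Ok] [TopologicalSpace X] in
theorem bmk_surj (p : a.Bor) : ∃ e x, p = a.bmk e x :=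
  Quot.induction_on p fun z => ⟨z.1, z.2, rfl⟩

omit [G.Nice] [a.Ok] [TopologicalSpace X] in
theorem bmk_out (p : a.Bor) : a.bmk (Quot.out p).1 (Quot.out p).2 = p := Quot.out_eq p

theorem out_bmk (e : Fm G.ι) (x : X) :
    ∃ g, (Quot.out (a.bmk e x)).1 = G.fm.act g e ∧ (Quot.out (a.bmk e x)).2 = a.act g x := by
  obtain ⟨g, h1, h2⟩ := a.bmk_eq_iff.1 (a.bmk_out (a.bmk e x)).symm
  exact ⟨g, h1.symm, h2.symm⟩

instance [T3Space X] : T3Space a.Bor := a.isOrbQ.t3

instance [SecondCountableTopology X] : SecondCountableTopology a.Bor := a.isOrbQ.secondCountable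

variable {a}

theorem mem_bs {S : Set X} (h : a.Inv S) {e : Fm G.ι} {x : X} : a.bmk e x ∈ a.bs S ↔ x ∈ S := by
  refine ⟨?_, fun k => ⟨e, x, k, rfl⟩⟩
  rintro ⟨e', x', k, h'⟩
  obtain ⟨g, -, rfl⟩ := a.bmk_eq_iff.1 h'.symm
  exact h g _ k

theorem Pr.mem_bs {U Z : Set X} (h : a.Pr U Z) {e : Fm G.ι} {x : X} (hx : x ∈ U) :
    a.bmk e x ∈ a.bs Z ↔ x ∈ Z := by
  refine ⟨?_, fun k => ⟨e, x, k, rfl⟩⟩
  rintro ⟨e', x', k, h'⟩
  obtain ⟨g, -, rfl⟩ := a.bmk_eq_iff.1 h'.symm
  exact h.invz g _ ((Inv.iff h.inv g x').1 hx) k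

theorem Pr.mem_diff {U Z : Set X} (h : a.Pr U Z) {e : Fm G.ι} {x : X} :
    a.bmk e x ∈ a.bs U \ a.bs Z ↔ x ∈ U \ Z := by
  rw [Set.mem_sdiff, Act.mem_bs h.inv, Set.mem_sdiff]
  exact and_congr_right fun hx => not_congr (h.mem_bs hx)

omit [G.Nice] [a.Ok] in
theorem Pr.inv_inter {U Z : Set X} (h : a.Pr U Z) : a.Inv (U ∩ Z) :=
  fun g x hx => ⟨h.inv g x hx.1, h.invz g x hx.1 hx.2⟩

omit [G.Nice] in
theorem Pr.inv_diff {U Z : Set X} (h : a.Pr U Z) : a.Inv (U \ Z) := by
  have := Inv.diff h.inv h.inv_inter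
  rwa [Set.sdiff_self_inter] at this

theorem Pr.bs_diff {U Z : Set X} (h : a.Pr U Z) : a.bs (U \ Z) = a.bs U \ a.bs Z := by
  ext p
  obtain ⟨e, x, rfl⟩ := a.bmk_surj p
  rw [h.mem_diff, Act.mem_bs h.inv_diff]

theorem Pr.bs_inter {U Z : Set X} (h : a.Pr U Z) : a.bs (U ∩ Z) = a.bs U ∩ a.bs Z := by
  ext p
  obtain ⟨e, x, rfl⟩ := a.bmk_surj p
  rw [mem_inter_iff, Act.mem_bs h.inv, Act.mem_bs h.inv_inter, mem_inter_iff]
  exact and_congr_right fun hx => (h.mem_bs hx).symm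

theorem bq_preimage {S : Set X} (h : a.Inv S) : a.bq ⁻¹' a.bs S = univ ×ˢ S := by
  ext z
  exact (mem_bs h).trans (by simp)

omit [G.Nice] [a.Ok] [TopologicalSpace X] in
theorem bs_univ : a.bs univ = univ :=
  eq_univ_of_forall fun p => let ⟨e, x, h⟩ := a.bmk_surj p; ⟨e, x, trivial, h⟩

omit [G.Nice] [a.Ok] [TopologicalSpace X] in
theorem bs_empty : a.bs ∅ = ∅ := eq_empty_of_forall_notMem fun _ ⟨_, _, h, _⟩ => h

omit [G.Nice] [a.Ok] [TopologicalSpace X] in
theorem bs_mono {S T : Set X} (h : S ⊆ T) : a.bs S ⊆ a.bs T :=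
  fun _ ⟨e, x, k, h'⟩ => ⟨e, x, h k, h'⟩

omit [G.Nice] [a.Ok] [TopologicalSpace X] in
theorem bs_union (S T : Set X) : a.bs (S ∪ T) = a.bs S ∪ a.bs T := by
  ext p
  constructor
  · rintro ⟨e, x, k | k, h⟩
    · exact Or.inl ⟨e, x, k, h⟩
    · exact Or.inr ⟨e, x, k, h⟩
  · rintro (k | k)
    · exact bs_mono subset_union_left k
    · exact bs_mono subset_union_right k

theorem bs_inter {S T : Set X} (h : a.Inv S) (k : a.Inv T) : a.bs (S ∩ T) = a.bs S ∩ a.bs T := by
  ext p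
  obtain ⟨e, x, rfl⟩ := a.bmk_surj p
  rw [mem_inter_iff, mem_bs h, mem_bs k, mem_bs (h.inter k), mem_inter_iff]

theorem bs_compl {S : Set X} (h : a.Inv S) : a.bs Sᶜ = (a.bs S)ᶜ := by
  ext p
  obtain ⟨e, x, rfl⟩ := a.bmk_surj p
  rw [mem_compl_iff, mem_bs h, mem_bs h.compl, mem_compl_iff]

theorem bs_diff {S T : Set X} (h : a.Inv S) (k : a.Inv T) : a.bs (S \ T) = a.bs S \ a.bs T := by
  rw [Set.sdiff_eq, bs_inter h k.compl, bs_compl k, Set.sdiff_eq]

theorem isOpen_bs {S : Set X} (h : a.Inv S) (k : IsOpen S) : IsOpen (a.bs S) := by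
  rw [← a.isOrbQ.quot.isOpen_preimage, bq_preimage h]
  exact isOpen_univ.prod k

theorem isClosed_bs {S : Set X} (h : a.Inv S) (k : IsClosed S) : IsClosed (a.bs S) := by
  rw [← a.isOrbQ.quot.isClosed_preimage, bq_preimage h]
  exact isClosed_univ.prod k

theorem isLocallyClosed_bs {S : Set X} (h : a.Inv S) (k : IsLocallyClosed S) :
    IsLocallyClosed (a.bs S) := by
  have hc : a.Inv (closure S) := fun g x hx =>
    map_mem_closure (a.cont_act continuous_const continuous_id) hx (h g)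
  have h2 : IsClosed (closure S \ S) := by
    have := (isLocallyClosed_iff_isOpen_coborder.1 k).isClosed_compl
    rwa [coborder, compl_compl] at this
  have : a.bs S = a.bs (closure S) \ a.bs (closure S \ S) := by
    rw [← bs_diff hc (hc.diff h), Set.sdiff_sdiff_cancel_left subset_closure]
  rw [this]
  exact (isClosed_bs hc isClosed_closure).isLocallyClosed.inter
    (isClosed_bs (hc.diff h) h2).isOpen_compl.isLocallyClosed

/-- Continuity on `EG ×_G S` is checked on `EG × S`. -/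
theorem contOn_bs {S : Set X} (h : a.Inv S) {f : a.Bor → Y} :
    ContinuousOn f (a.bs S) ↔ ContinuousOn (fun z : Fm G.ι × X => f (a.bmk z.1 z.2)) (univ ×ˢ S) := by
  rw [a.isOrbQ.continuousOn_iff, bq_preimage h]
  rfl

end Act

/-- Gleason's lemma: an equivariant map to `EG`. -/
theorem exists_fm [G.Nice] {H P : Type} [Group H] [TopologicalSpace H] [IsTopologicalGroup H]
    [CompactSpace H] [TopologicalSpace P] [T3Space P] [SecondCountableTopology P]
    (φ : H → G.H) (hφ : ∀ g h, φ (g * h) = φ g * φ h) (hc : Continuous φ) (s : H → P → P)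
    (hs : Continuous fun q : H × P => s q.1 q.2) (h1 : ∀ p, s 1 p = p)
    (hm : ∀ g h p, s (g * h) p = s g (s h p)) (hf : ∀ p h, s h p = p → φ h = 1) :
    ∃ f : P → Fm G.ι, Continuous f ∧ ∀ h p, f (s h p) = G.fm.act (φ h) (f p) := by
  obtain ⟨f, k1, k2, k3⟩ := gleason (G.uh.comp (MonoidHom.mk' φ hφ)) (Gp.Nice.cont.comp hc) s hs h1
    hm fun p h e => by
      change G.u (φ h) = 1
      rw [hf p h e, Gp.Nice.one]
  exact ⟨fun p => ⟨Matrix.of (f p), k2 p⟩, Fm.cont_iff.2 k1, fun h p => Subtype.ext (k3 h p)⟩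

theorem eps_spec [G.Nice] [G'.Nice] (φ : G'.H → G.H) [h : IsHom φ] :
    Continuous (eps φ) ∧ ∀ g e, eps φ (G'.fm.act g e) = G.fm.act (φ g) (eps φ e) := by
  have : Continuous (eps φ) ∧ ∀ (g : G'.H) (e e' : Fm G'.ι),
      e'.1 = G'.u g * e.1 → (eps φ e').1 = G.u (φ g) * (eps φ e).1 := by
    refine Classical.epsilon_spec (p := fun ε : Fm G'.ι → Fm G.ι => Continuous ε ∧
      ∀ (g : G'.H) (e e' : Fm G'.ι), e'.1 = G'.u g * e.1 → (ε e').1 = G.u (φ g) * (ε e).1) ?_
    obtain ⟨f, k1, k2⟩ := exists_fm φ h.mul h.cont G'.fm.act Act.Ok.cont Act.Ok.one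
      Act.Ok.mul fun p g e => by rw [Gp.fm_free e, h.one]
    refine ⟨f, k1, fun g e e' k => ?_⟩
    obtain rfl : e' = G'.fm.act g e := Subtype.ext k
    rw [k2]; rfl
  exact ⟨this.1, fun g e => Subtype.ext (this.2 g e _ rfl)⟩

end Pool.Agent.Work.MP_849ab0_ag.G
end
end

-- merged part: Pool.Agent.Work.MP_849ab0_ag.G.C.Base
section
/-! Coulomb side: shared definitions (torus weights, fixed points, cells). -/

noncomputable section

set_option linter.unusedSectionVars false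

namespace Pool.Agent.Work.MP_849ab0_ag.G

open Set Matrix

/-- the torus `T_K × T` -/
abbrev TT (P κ : Type) [Fintype P] [DecidableEq P] [Fintype κ] [DecidableEq κ] : Gp :=
  (Gp.tor P).prod (Gp.tor κ)

/-- weights of `T_K × T` -/
abbrev WT (P κ : Type) : Type := (P → ℤ) × (κ → ℤ)

/-- polynomial functions on the Lie algebra of `T_K × T` -/
abbrev PL (P κ : Type) : Type := MvPolynomial P (MvPolynomial κ ℂ)

variable {P κ : Type} [Fintype P] [DecidableEq P] [Fintype κ] [DecidableEq κ]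

/-- the character of a weight -/
def ch (w : WT P κ) : (TT P κ).H → ℂ := fun g => chr w.1 g.1 * chr w.2 g.2

/-- the linear form of a weight -/
def lw (w : WT P κ) : PL P κ := lf _ w.1 + MvPolynomial.C (lf ℂ w.2)

/-- the diagonal representation with the weights `w` -/
def wr {J : Type} (w : J → WT P κ) : Act (TT P κ) (J → ℂ) := Act.dg fun j => ch (w j)

theorem isChar_ch (w : WT P κ) : IsChar (ch w) :=
  ((isChar_chr w.1).comp (G' := TT P κ) Prod.fst).mul'
    ((isChar_chr w.2).comp (G' := TT P κ) Prod.snd)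

instance {J : Type} [Fintype J] (w : J → WT P κ) : (wr w).Rep := Act.rep_dg fun _ => isChar_ch _

theorem wr_act {J : Type} (w : J → WT P κ) (g : (TT P κ).H) (v : J → ℂ) (j : J) :
    (wr w).act g v j = ch (w j) g * v j := rfl

/-- extension by zero along `e` -/
def ex0 {J₀ J : Type} (e : J₀ → J) (d : J₀ → ℂ) : J → ℂ := Function.extend e d 0

/-- the character `m` with values in the circle -/
def chc (m : κ → ℤ) (τ : κ → Circle) : Circle := ∏ j, τ j ^ m j

theorem coe_chc (m : κ → ℤ) (τ : κ → Circle) : (chc m τ : ℂ) = chr m τ :=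
  (map_prod Circle.coeHom _ _).trans (Finset.prod_congr rfl fun _ _ => Circle.coe_zpow _ _)

/-- `g ↦ g · ħ ^ l` -/
def shT (h : κ → ℤ) (l : P → ℤ) : (TT P κ).H → (TT P κ).H :=
  fun g => (fun a => g.1 a * chc h g.2 ^ l a, g.2)

/-- the shifted weight -/
def shW (h : κ → ℤ) (l : P → ℤ) (w : WT P κ) : WT P κ := (w.1, w.2 + (∑ a, w.1 a * l a) • h)

/-- permutation of the coordinates of the torus -/
def pmT (w : Equiv.Perm P) : (TT P κ).H → (TT P κ).H := fun g => (g.1 ∘ w.symm, g.2)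

/-- the weight of a point; the framing point has weight `0` -/
def os (o : Option P) : P → ℤ := o.elim 0 fun a => Pi.single a 1

/-- `Q` as a matrix -/
def mQ {k : ℕ} (Q : En P k) : Matrix (P × Pos k) (P × Pos k) ℂ := Matrix.of fun y x => Q (y, x)

/-- a matrix as an element of `En P k` -/
def unQ {k : ℕ} (M : Matrix (P × Pos k) (P × Pos k) ℂ) : En P k := fun z => M z.1 z.2

/-- coweights in the box -/
def box (P : Type) [Fintype P] [DecidableEq P] (k : ℕ) : Finset (P → ℤ) :=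
  Fintype.piFinset fun _ => Finset.Icc (-(k : ℤ)) k

theorem mem_box {k : ℕ} {μ : P → ℤ} : μ ∈ box P k ↔ ∀ a, -(k : ℤ) ≤ μ a ∧ μ a ≤ k := by
  simp [box]

/-- the projection on the lattice `t ^ μ V[[t]]` -/
def pjL (k : ℕ) (μ : P → ℤ) : En P k := fun z => if z.1 = z.2 ∧ μ z.1.1 ≤ z.1.2.1 then 1 else 0

/-- the loop `t ^ l` -/
def tl (l : P → ℤ) : ℤ → Matrix P P ℂ := fun x => diagonal fun a => if l a = x then 1 else 0

/-- coordinates of the `T_K`-fixed part of `En P k` -/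
abbrev DI (P : Type) (k : ℕ) : Type := P × Pos k × Pos k

/-- the inclusion of these coordinates -/
def eD (k : ℕ) (z : DI P k) : (P × Pos k) × (P × Pos k) := ((z.1, z.2.1), (z.1, z.2.2))

theorem eD_inj (k : ℕ) : Function.Injective (eD (P := P) k) := by
  rintro ⟨a, j, i⟩ ⟨a', j', i'⟩ h
  simp only [eD, Prod.mk.injEq] at h
  rw [h.1.1, h.1.2, h.2.2]

/-- the fixed point `μ` in the fixed part -/
def pD (k : ℕ) (μ : P → ℤ) : DI P k → ℂ := pjL k μ ∘ eD k

/-- the set of these fixed points -/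
def PD (P : Type) [Fintype P] [DecidableEq P] (k : ℕ) : Set (DI P k → ℂ) :=
  {d | ∃ μ ∈ box P k, d = pD k μ}

/-- a power series of matrices acting on `t^{-k} W[[t]] / t^k W[[t]]` -/
def sr {O : Type} (k : ℕ) (s : ℕ → Matrix O O ℂ) : Matrix (O × Pos k) (O × Pos k) ℂ :=
  Matrix.of fun y x => if x.2.1 ≤ y.2.1 then s (y.2.1 - x.2.1).toNat y.1 x.1 else 0

theorem ser_eq (k : ℕ) (s : ℕ → Matrix (Option P) (Option P) ℂ) : ser k s = sr k s := rfl

/-- the map of `incl` -/
def upE (k : ℕ) (Q : En P k) : En P (k + 1) := fun w => blkAt Q w.1.2 w.2.2 w.1.1 w.2.1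

namespace Qv

variable {I E : Type} [Fintype I] [DecidableEq I] [Fintype E] (D : Qv I P E κ)

/-- `N[[t]]` -/
abbrev NO : Type := ℕ → D.Rep

/-- the lattices -/
def Gr (k : ℕ) : Set (En P k) :=
  {Q | IsPr (fun x => x.1.map D.col) (ext Q) ∧ Pres (ext Q) (ser k (Pi.single 1 1))}

theorem mem_RR {k : ℕ} {z : En P k × D.NO} : z ∈ D.RR k ↔
    z.1 ∈ D.Gr k ∧ ∀ e, Pres (ext z.1) (ser k fun m => D.mat (z.2 m) e) :=
  ⟨fun h => ⟨⟨h.1, h.2.1⟩, h.2.2⟩, fun h => ⟨h.1.1, h.1.2, h.2⟩⟩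

/-- the inclusion `T_K × T → K × T` -/
abbrev ic : (TT P κ).H → (KT D.col κ).H := inc D.col (Gp.tor κ)

/-- the action of `K × T` on the ambient space -/
abbrev aX (k : ℕ) : Act (KT D.col κ) (En P k × D.NO) := (D.aE k).prod D.aO

/-- the action of the torus on the ambient space -/
abbrev tX (k : ℕ) : Act (TT P κ) (En P k × D.NO) := (D.aX k).res D.ic

/-- weights of `En P k` -/
def wE (k : ℕ) (z : (P × Pos k) × (P × Pos k)) : WT P κ :=
  (Pi.single z.1.1 1 - Pi.single z.2.1 1, (z.1.2.1 - z.2.2.1) • D.h)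

/-- weights of the fixed part -/
def wD (k : ℕ) (z : DI P k) : WT P κ := (0, (z.2.1.1 - z.2.2.1) • D.h)

theorem wD_eq (k : ℕ) (z : DI P k) : D.wD k z = D.wE k (eD k z) := by simp [wD, wE, eD]

/-- weights of `N[[t]]` -/
def wN (p : D.Wt) (m : ℕ) : WT P κ := (os p.1.2.2 - os p.1.2.1, D.t p.1.1 + (m : ℤ) • D.h)

/-- the value `χ (μ)` -/
def xm (μ : P → ℤ) (p : D.Wt) : ℤ := p.1.2.2.elim 0 μ - p.1.2.1.elim 0 μ

/-- the fixed part inside the ambient space -/
def jD (k : ℕ) (d : DI P k → ℂ) : En P k × D.NO := (ex0 (eD k) d, 0)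

/-- the homomorphism that fixes the loop `t ^ l` -/
def thT (l : P → ℤ) : (TT P κ).H → D.KKT.H := fun g => (diagU D.col (shT D.h l g).1, D.ic g)

/-- the homomorphism `K × K × T → K × T` that forgets the second factor -/
abbrev p13 : D.KKT.H → (KT D.col κ).H := fun g => (g.1, g.2.2)

/-- coordinates of `N[[t]] / (N[[t]] ∩ t ^ μ N[[t]])` -/
def QF (k : ℕ) (μ : P → ℤ) : Finset (D.Wt × ℕ) :=
  (Finset.univ ×ˢ Finset.range (2 * k)).filter fun q => (q.2 : ℤ) < D.xm μ q.1

/-- the weights of `En P k` and of that quotient -/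
def wV (k : ℕ) (μ : P → ℤ) : ((P × Pos k) × (P × Pos k)) ⊕ D.QF k μ → WT P κ :=
  Sum.elim (D.wE k) fun q => D.wN q.1.1 q.1.2

/-- its zero set is the fibre of the space of triples over `t ^ μ` -/
def FP (k : ℕ) (μ : P → ℤ) (z : En P k × D.NO) : ((P × Pos k) × (P × Pos k)) ⊕ D.QF k μ → ℂ :=
  Sum.elim (z.1 - pjL k μ) fun q => z.2 q.1.2 q.1.1

/-- triples `(L₁, L₂, s)` with `(L₁, s)` in the space of triples -/
def A3 (k l : ℕ) : Set (En P k × En P (k + l) × D.NO) := {z | (z.1, z.2.2) ∈ D.RR k}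

/-- the action on the triples `(L₁, L₂, s)` -/
abbrev b3 (k l : ℕ) : Act (KT D.col κ) (En P k × En P (k + l) × D.NO) :=
  (D.aE k).prod ((D.aE (k + l)).prod D.aO)

end Qv

section Cell

variable {n : ℕ} {I E : Type} [Fintype I] [DecidableEq I] [Fintype E]

/-- the order of the basis vectors -/
def rk {k : ℕ} (x : Fin n × Pos k) : ℤ := n * x.2.1 - (x.1 : ℕ)

/-- the matrix that is invertible when the image of `Q` is a graph over the lattice `t ^ μ` -/
def MC (k : ℕ) (μ : P → ℤ) (Q : En P k) : Matrix (P × Pos k) (P × Pos k) ℂ :=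
  mQ (pjL k μ) * mQ Q * mQ (pjL k μ) + (1 - mQ (pjL k μ))

/-- the domain of the chart -/
def UC (k : ℕ) (μ : P → ℤ) : Set (En P k) := {Q | (MC k μ Q).det ≠ 0}

namespace Qv

variable (D : Qv I (Fin n) E κ)

/-- coordinates `(a, b, j)` of the Iwahori cell of `μ`: the coefficient of `t ^ j E_{ab}` -/
def CF (k : ℕ) (μ : Fin n → ℤ) : Finset (Fin n × Fin n × ℕ) :=
  (Finset.univ ×ˢ Finset.univ ×ˢ Finset.range (2 * k)).filter fun q =>
    D.col q.1 = D.col q.2.1 ∧ (q.2.2 : ℤ) < μ q.1 - μ q.2.1 ∧ (0 < q.2.2 ∨ q.1 < q.2.1)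

/-- their weights -/
def wC (k : ℕ) (μ : Fin n → ℤ) (q : D.CF k μ) : WT (Fin n) κ :=
  (Pi.single q.1.1 1 - Pi.single q.1.2.1 1, (q.1.2.2 : ℤ) • D.h)

/-- the nilpotent loop with coordinates `w` -/
def hw (k : ℕ) (μ : Fin n → ℤ) (w : D.CF k μ → ℂ) : ℕ → Matrix (Fin n) (Fin n) ℂ :=
  fun j => Matrix.of fun a b => if h : (a, b, j) ∈ D.CF k μ then w ⟨_, h⟩ else 0

/-- a basis of the lattice `(1 + h) t ^ μ V[[t]]` -/
def AC (k : ℕ) (μ : Fin n → ℤ) (w : D.CF k μ → ℂ) : Matrix (Fin n × Pos k) (Fin n × Pos k) ℂ :=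
  (1 + sr k (D.hw k μ w)) * mQ (pjL k μ)

/-- the parametrisation of the cell -/
def gC (k : ℕ) (μ : Fin n → ℤ) (w : D.CF k μ → ℂ) : En (Fin n) k :=
  unQ (D.AC k μ w * ((D.AC k μ w)ᴴ * D.AC k μ w + (1 - mQ (pjL k μ)))⁻¹ * (D.AC k μ w)ᴴ)

/-- the chart -/
def fC (k : ℕ) (μ : Fin n → ℤ) (Q : En (Fin n) k) : D.CF k μ → ℂ := fun q =>
  blkAt (unQ (mQ Q * mQ (pjL k μ) * (MC k μ Q)⁻¹)) (μ q.1.2.1 + q.1.2.2) (μ q.1.2.1) q.1.1 q.1.2.1

/-- the union of the cells of the coweights in `Λ` -/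
def YC (k : ℕ) (Λ : Finset (Fin n → ℤ)) : Set (En (Fin n) k) := {Q | ∃ μ ∈ Λ, ∃ w, Q = D.gC k μ w}

/-- the part of the space of triples over these cells -/
def ZC (k : ℕ) (Λ : Finset (Fin n → ℤ)) : Set (En (Fin n) k × D.NO) :=
  {z | z ∈ D.RR k ∧ z.1 ∈ D.YC k Λ}

/-- basis vectors of colour `c` and order at least `r` -/
def SS (k : ℕ) (c : I) (r : ℤ) : Finset (Fin n × Pos k) :=
  Finset.univ.filter fun x => D.col x.1 = c ∧ r ≤ rk x

/-- the dimension of the intersection of `t ^ μ V[[t]]` with their span -/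
def dd (k : ℕ) (μ : Fin n → ℤ) (c : I) (r : ℤ) : ℕ :=
  ((D.SS k c r).filter fun x => μ x.1 ≤ x.2.1).card

/-- the closure order -/
def DLe (k : ℕ) (μ μ' : Fin n → ℤ) : Prop := ∀ c r, D.dd k μ c r ≤ D.dd k μ' c r

/-- sets of coweights whose cells have a closed union -/
def Up (k : ℕ) (Λ : Finset (Fin n → ℤ)) : Prop :=
  Λ ⊆ box (Fin n) k ∧ ∀ μ ∈ Λ, ∀ μ' ∈ box (Fin n) k, D.DLe k μ μ' → μ' ∈ Λ

/-- the loop `1 + h` on `V ⊕ ℂ` -/
def gS (k : ℕ) (μ : Fin n → ℤ) (w : D.CF k μ → ℂ) :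
    PowerSeries (Matrix (Option (Fin n)) (Option (Fin n)) ℂ) :=
  1 + PowerSeries.mk fun j => hat 0 (D.hw k μ w j)

/-- its inverse -/
def gI (k : ℕ) (μ : Fin n → ℤ) (w : D.CF k μ → ℂ) :
    PowerSeries (Matrix (Option (Fin n)) (Option (Fin n)) ℂ) :=
  ∑ i ∈ Finset.range (2 * k + 1), (1 - D.gS k μ w) ^ i

/-- `A s B` for power series of matrices `A`, `B` -/
def lr (A B : PowerSeries (Matrix (Option (Fin n)) (Option (Fin n)) ℂ)) (s : D.NO) : D.NO :=
  fun m p => PowerSeries.coeff m (A * (PowerSeries.mk fun j => D.mat (s j) p.1.1) * B)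
    p.1.2.2 p.1.2.1

/-- `g⁻¹ s g` -/
def cj (k : ℕ) (μ : Fin n → ℤ) (w : D.CF k μ → ℂ) : D.NO → D.NO := D.lr (D.gI k μ w) (D.gS k μ w)

/-- `g s g⁻¹` -/
def ci (k : ℕ) (μ : Fin n → ℤ) (w : D.CF k μ → ℂ) : D.NO → D.NO := D.lr (D.gS k μ w) (D.gI k μ w)

open Classical in
/-- the projection of the trivialisation over a cell -/
def pC (k : ℕ) (μ : Fin n → ℤ) (y : (D.CF k μ → ℂ) × En (Fin n) k × D.NO) :
    (D.CF k μ → ℂ) × D.NO :=
  (y.1, fun m p => if (p, m) ∈ D.QF k μ then 0 else D.cj k μ y.1 y.2.2 m p)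

/-- the fibre coordinate of the trivialisation over a cell -/
def FC (k : ℕ) (μ : Fin n → ℤ) (y : (D.CF k μ → ℂ) × En (Fin n) k × D.NO) :
    ((Fin n × Pos k) × (Fin n × Pos k)) ⊕ D.QF k μ → ℂ :=
  Sum.elim (y.2.1 - D.gC k μ y.1) fun q => D.cj k μ y.1 y.2.2 q.1.2 q.1.1

/-- the base of the trivialisation over a cell -/
def U2 (k : ℕ) (μ : Fin n → ℤ) : Set ((D.CF k μ → ℂ) × D.NO) :=
  {x | ∀ q ∈ D.QF k μ, x.2 q.2 q.1 = 0}

end Qv

end Cell

end Pool.Agent.Work.MP_849ab0_ag.G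
end
end

-- merged part: Pool.Agent.Work.MP_849ab0_ag.G.ApiI
section
/-!
Small facts on characters, good pairs and inverses (owner helper43).
-/

noncomputable section

set_option linter.unusedSectionVars false
set_option linter.unusedVariables false

namespace Pool.Agent.Work.MP_849ab0_ag.G

open Set Topology Matrix


@[simp] theorem Gp.prod_mul_fst {G G' : Gp} (g h : (G.prod G').H) : (g * h).1 = g.1 * h.1 := rfl
@[simp] theorem Gp.prod_mul_snd {G G' : Gp} (g h : (G.prod G').H) : (g * h).2 = g.2 * h.2 := rfl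
@[simp] theorem Gp.prod_one_fst {G G' : Gp} : (1 : (G.prod G').H).1 = 1 := rfl
@[simp] theorem Gp.prod_one_snd {G G' : Gp} : (1 : (G.prod G').H).2 = 1 := rfl
@[simp] theorem Gp.prod_inv_fst {G G' : Gp} (g : (G.prod G').H) : (g⁻¹).1 = g.1⁻¹ := rfl
@[simp] theorem Gp.prod_inv_snd {G G' : Gp} (g : (G.prod G').H) : (g⁻¹).2 = g.2⁻¹ := rfl

theorem isHom_conj {G : Gp} [G.Nice] (k : G.H) : IsHom (G := G) (G' := G) fun g => k * g * k⁻¹ :=
  ⟨fun g h => by group, (continuous_const.mul continuous_id).mul continuous_const⟩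

section

variable {G G' : Gp} {X Y : Type} [TopologicalSpace X] [TopologicalSpace Y]
  {J J' : Type} [Fintype J] [Fintype J']

theorem chr_add {κ : Type} [Fintype κ] (m m' : κ → ℤ) (g : κ → Circle) :
    chr (m + m') g = chr m g * chr m' g := by
  simp [chr, zpow_add₀, Finset.prod_mul_distrib]
theorem chr_zsmul {κ : Type} [Fintype κ] (c : ℤ) (m : κ → ℤ) (g : κ → Circle) :
    chr (c • m) g = chr m g ^ c := by
  simp only [chr, Pi.smul_apply, smul_eq_mul, ← Finset.prod_zpow, ← _root_.zpow_mul, mul_comm]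
theorem chr_single {κ : Type} [Fintype κ] [DecidableEq κ] (j : κ) (g : κ → Circle) :
    chr (Pi.single j 1) g = g j := by
  rw [chr, Finset.prod_eq_single j (fun i _ h => by simp [h]) (by simp)]
  simp

theorem Act.pr_univ (a : Act G X) {Z : Set X} (hZ : IsClosed Z)
    (h : ∀ g, ∀ x ∈ Z, a.act g x ∈ Z) : a.Pr univ Z :=
  ⟨isOpen_univ.isLocallyClosed, fun _ _ _ => trivial, fun g x _ => h g x,
    fun _ k => closure_minimal inter_subset_right hZ k.2⟩
theorem Act.pr_of (a : Act G X) {U Z : Set X} (hU : IsLocallyClosed U)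
    (hu : ∀ g, ∀ x ∈ U, a.act g x ∈ U) (hZ : IsClosed Z) (h : ∀ g, ∀ x ∈ Z, a.act g x ∈ Z) :
    a.Pr U Z :=
  ⟨hU, hu, fun g x _ => h g x, fun _ k => closure_minimal inter_subset_right hZ k.2⟩
theorem Act.Pr.top {a : Act G X} {U Z : Set X} (h : a.Pr U Z) : a.Pr U univ :=
  ⟨h.lc, h.inv, fun _ _ _ _ => trivial, fun _ _ => trivial⟩
theorem Act.Pr.inter {a : Act G X} {U Z Z' : Set X} (h : a.Pr U Z) (h' : a.Pr U Z') :
    a.Pr U (Z ∩ Z') :=
  ⟨h.lc, h.inv, fun g x hx k => ⟨h.invz g x hx k.1, h'.invz g x hx k.2⟩, fun x k =>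
    ⟨h.cl ⟨k.1, closure_mono (inter_subset_inter_right _ inter_subset_left) k.2⟩,
      h'.cl ⟨k.1, closure_mono (inter_subset_inter_right _ inter_subset_right) k.2⟩⟩⟩
theorem Act.Pr.union {a : Act G X} {U Z Z' : Set X} (h : a.Pr U Z) (h' : a.Pr U Z') :
    a.Pr U (Z ∪ Z') :=
  ⟨h.lc, h.inv, fun g x hx k => k.imp (h.invz g x hx) (h'.invz g x hx), fun x k => by
    have := k.2
    rw [inter_union_distrib_left, closure_union] at this
    exact this.imp (fun e => h.cl ⟨k.1, e⟩) fun e => h'.cl ⟨k.1, e⟩⟩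
theorem Act.Pr.mono {a : Act G X} {U U' Z Z' : Set X} (h : a.Pr U Z) (h' : a.Pr U' Z')
    (e : U' ⊆ U) : a.Pr U' Z :=
  ⟨h'.lc, h'.inv, fun g x hx => h.invz g x (e hx), fun x k =>
    h.cl ⟨e k.1, closure_mono (inter_subset_inter_left _ e) k.2⟩⟩
theorem Act.Pr.diff {a : Act G X} [a.Ok] {U Z Z' : Set X} (h : a.Pr U Z) (h' : a.Pr U Z') :
    a.Pr (U \ Z') Z := by
  have e : U \ Z' = U ∩ (closure (U ∩ Z'))ᶜ := Set.ext fun x =>
    ⟨fun k => ⟨k.1, fun m => k.2 (h'.cl ⟨k.1, m⟩)⟩,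
      fun k => ⟨k.1, fun m => k.2 (subset_closure ⟨k.1, m⟩)⟩⟩
  exact ⟨e ▸ h.lc.inter isClosed_closure.isOpen_compl.isLocallyClosed, h'.inv_diff,
    fun g x hx => h.invz g x hx.1, fun x k =>
      h.cl ⟨k.1.1, closure_mono (inter_subset_inter_left _ sdiff_subset) k.2⟩⟩
theorem Act.Pr.preimage {a : Act G X} {b : Act G' Y} {φ : G'.H → G.H} {U Z : Set X}
    (h : a.Pr U Z) {f : Y → X} (hf : Continuous f)
    (he : ∀ g y, f (b.act g y) = a.act (φ g) (f y)) : b.Pr (f ⁻¹' U) (f ⁻¹' Z) :=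
  ⟨h.lc.preimage hf, fun g y hy => by rw [mem_preimage, he]; exact h.inv _ _ hy,
    fun g y hy k => by rw [mem_preimage, he]; exact h.invz _ _ hy k,
    fun y k => h.cl ⟨k.1, hf.closure_preimage_subset (U ∩ Z) k.2⟩⟩
theorem Act.Pr.preimage' {a : Act G X} {b : Act G' Y} {φ : G'.H → G.H} {U Z : Set X}
    (h : a.Pr U Z) {V W : Set Y} (hV : b.Pr V W) {f : Y → X} (hf : ContinuousOn f V)
    (hm : MapsTo f V U) (he : ∀ g, ∀ y ∈ V, f (b.act g y) = a.act (φ g) (f y)) :
    b.Pr V (f ⁻¹' Z) :=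
  ⟨hV.lc, hV.inv, fun g y hy k => by rw [mem_preimage, he g y hy]; exact h.invz _ _ (hm hy) k,
    fun y k => h.cl ⟨hm k.1, ((hf y k.1).mono inter_subset_left).mem_closure k.2
      fun z hz => ⟨hm hz.1, hz.2⟩⟩⟩
theorem Act.Pr.res {a : Act G X} {U Z : Set X} (h : a.Pr U Z) (φ : G'.H → G.H) :
    (a.res φ).Pr U Z := ⟨h.lc, fun g => h.inv (φ g), fun g => h.invz (φ g), h.cl⟩
theorem Act.Rep.pr (ρ : Act G (J → ℂ)) [ρ.Rep] : ρ.Pr univ {0} :=
  ρ.pr_univ isClosed_singleton fun g x hx => by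
    rw [show x = 0 from hx]; exact (Act.Rep.lin g).map_zero
theorem Act.pr_pt (G : Gp) : (Act.pt G).Pr univ univ :=
  Act.pr_univ _ isClosed_univ fun _ _ _ => trivial

theorem gadm_id {a : Act G X} {U Z U' Z' : Set X} (h : a.Pr U Z) (h' : a.Pr U' Z') (e : U' ⊆ U)
    (e' : U' ∩ Z ⊆ Z') : GAdm a a id id U' Z' U Z :=
  ⟨h', h, continuousOn_id, fun _ _ _ => rfl, e, fun _ k m => e' ⟨k, m⟩⟩
theorem gadm_pt {a : Act G X} {U : Set X} (h : a.Pr U univ) (φ : G.H → G'.H) :
    GAdm a (Act.pt G') φ (fun _ => ()) U univ univ univ :=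
  ⟨h, Act.pr_pt G', continuousOn_const, fun _ _ _ => rfl, fun _ _ => trivial, fun _ _ _ => trivial⟩

end

theorem linv_spec {A B : Type} [AddCommGroup A] [Module ℂ A] [AddCommGroup B] [Module ℂ B]
    {L : A →ₗ[ℂ] B} (h : Function.Bijective L) :
    linv L ∘ₗ L = LinearMap.id ∧ L ∘ₗ linv L = LinearMap.id :=
  Classical.epsilon_spec (p := fun M : B →ₗ[ℂ] A => M ∘ₗ L = LinearMap.id ∧ L ∘ₗ M = LinearMap.id)
    ⟨(LinearEquiv.ofBijective L h).symm,
      LinearMap.ext (LinearEquiv.ofBijective L h).symm_apply_apply,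
      LinearMap.ext (LinearEquiv.ofBijective L h).apply_symm_apply⟩

theorem linv_apply {A B : Type} [AddCommGroup A] [Module ℂ A] [AddCommGroup B] [Module ℂ B]
    {L : A →ₗ[ℂ] B} (h : Function.Bijective L) (x : A) : linv L (L x) = x :=
  LinearMap.congr_fun (linv_spec h).1 x
theorem apply_linv {A B : Type} [AddCommGroup A] [Module ℂ A] [AddCommGroup B] [Module ℂ B]
    {L : A →ₗ[ℂ] B} (h : Function.Bijective L) (y : B) : L (linv L y) = y :=
  LinearMap.congr_fun (linv_spec h).2 y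

end Pool.Agent.Work.MP_849ab0_ag.G
end
end
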