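import Pool.Agent.Work.MP_849ab0_ag.G.FThom

/-! The Thom isomorphism for a subset that is locally a zero section. -/

noncomputable section

set_option linter.unusedSectionVars false

namespace Pool.Agent.Work.MP_849ab0_ag.G

open Set Topology Filter

variable {Y T A J : Type} [TopologicalSpace Y] [TopologicalSpace T] [TopologicalSpace A] [Fintype J]
variable {U S V V' N B : Set Y}

theorem cupOK_fm (h1 : V ⊆ U) (h2 : ∀ y ∈ V, y ∈ S → y ∈ B) : CupOK B univ U S V S :=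
  ⟨fun _ k => Or.inr (h1 k), fun y k => by
    by_cases e : y ∈ S
    exacts [Or.inl (h2 y k e), Or.inr ⟨h1 k, e⟩], fun _ k => Or.inr ⟨h1 k.1, k.2⟩⟩

variable [RegularSpace Y] [SecondCountableTopology Y]

/-- Multiplication by a class with support in `S` is bijective if it is so locally. -/
theorem cup_bij_fm (hc : Cl U S) {τ : H U S} {k : ℤ} (hk : IsDeg k τ)
    (loc : ∀ y ∈ S, ∃ V, IsOpen V ∧ y ∈ V ∧ ∀ W, IsOpen W → W ⊆ V →
      Function.Bijective fun c : H (S ∩ W) univ => cup (U ∩ W) S c τ) :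
    Function.Bijective fun c : H S univ => cup U S c τ := by
  obtain ⟨γ, m, rfl, d⟩ := hk
  have ch := lhc_ch (ι := Unit) (id : Y → Y) (fun _ => m.1.1) (k := fun _ => k) fun _ => d
  have sb : ∀ W, U ∩ S ∩ id ⁻¹' W ∪ U \ S ⊆ U := fun W x h => h.elim (·.1.1) (·.1)
  have sb' : ∀ W, ∀ x ∈ U ∩ S ∩ id ⁻¹' W ∪ U \ S, x ∈ S → x ∈ S ∩ W := fun W x h a =>
    ⟨a, (h.resolve_right fun b => b.2 a).2⟩
  have key : ∀ W {B : Set Y} {Q Q' : Set Y}, B = S ∩ W → Q = U \ S → Q' = ∅ →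
      ((Function.Bijective fun c : H B univ => cup (U ∩ S ∩ id ⁻¹' W ∪ U \ S) S c (cls U S γ)) ↔
      Cx.QI ((cx Y).pi fun _ : Unit => k) (cx Y) (lhc id fun _ => γ) (.pi univ fun _ => lz (S ∩ W))
        (.pi univ fun _ => lz Q') (lz (U ∩ S ∩ id ⁻¹' W ∪ U \ S)) (lz Q)) := by
    rintro W _ _ _ rfl rfl rfl
    rw [← lh_bij_iff (f := id) (fun _ => k) (eqOn_refl _ _) (Ok.refl (U := S ∩ W) (Z := univ)).adm_id
      (cupOK_fm (sb W) (sb' W)) (fun _ => m) rfl (Set.ext fun x => ⟨fun h => ⟨Or.inr h, h.2⟩,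
        fun h => ⟨sb W h.1, h.2⟩⟩) rfl (by simp), bij_unit_iff (F := fun a =>
          cup _ S (pull id (S ∩ W) univ a) (cls U S γ))]
    simp only [pull_id]
  have qi := Cx.Loc.qi_of_local ch
    ((loc_lz (q := id) (A := S) (B := ∅) (S := fun W => S ∩ W) continuousOn_id (by simp)
      (by simp)).pi fun _ => k)
    (loc_lz (q := id) (A := U ∩ S) (B := U \ S) continuousOn_id
      (Set.disjoint_left.2 fun x a b => a.2 (hc ⟨a.1, b⟩)) fun _ => rfl)
    (fun W => lhc_pair _ (fun _ _ => continuousAt_id) (fun _ => m) (sb W) (sb ∅) (sb' W) (sb' ∅)) S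
    (fun W => pi_lz_anti fun y h => ⟨h.1, h.2, h.1⟩)
    (fun W => lz_anti fun x h => h.imp_left fun h => ⟨h.1, h.2, h.1.2⟩) (fun y hy => by
      obtain ⟨V, v1, v2, v3⟩ := loc y hy
      refine ⟨V, v1, v2, fun W w1 w2 => (key W rfl (by simp) (by simp)).1 ?_⟩
      have s1 : U ∩ W ⊆ U ∩ S ∩ id ⁻¹' W ∪ U \ S := fun x h => by
        by_cases a : x ∈ S
        exacts [Or.inl ⟨⟨h.1, a⟩, h.2⟩, Or.inr ⟨h.1, a⟩]
      refine (Function.Bijective.of_comp_iff' (res_excision (Z := S) (Z₁ := S) s1 (hc.mono (sb W))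
        (fun x h a => nhdsWithin_mono _ (sb W) (inter_mem_nhdsWithin _ (w1.mem_nhds (sb' W x h a).2)))
        fun _ _ => Iff.rfl) _).1 ?_
      convert v3 W w1 w2 using 1
      exact funext fun a => res_cup_out (.id s1 fun _ _ h => h) (cupOK_fm (sb W) (sb' W)) _ _)
    univ isOpen_univ
  have := (key univ (B := S) (by simp) (by simp) (by simp)).2 qi
  rwa [show U ∩ S ∩ id ⁻¹' univ ∪ U \ S = U by simp] at this

variable {O : Set (A × (J → ℂ))} {K : A × (J → ℂ) → Y} {L : Y → A × (J → ℂ)}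

/-- The Thom isomorphism in a chart. -/
theorem chart_bij (hO : IsOpen O) (hK : ContinuousOn K O) (hL : Ext L V) (mK : MapsTo K O V)
    (mL : MapsTo L V O) (e1 : ∀ w ∈ O, L (K w) = w) (e2 : ∀ y ∈ V, K (L y) = y)
    (hS : ∀ w ∈ O, K w ∈ S ↔ w.2 = 0) (hV : V ⊆ V') (ok : Ok (fun y => (L y).2) V' S univ {0})
    (hB : ∀ y, y ∈ B ↔ y ∈ V ∧ y ∈ S) :
    Function.Bijective fun a : H B univ => cup V S a (pull (fun y => (L y).2) V' S (orient J)) := by
  have hS' : ∀ y ∈ V, y ∈ S ↔ (L y).2 = 0 := fun y k => by rw [← hS _ (mL k), e2 y k]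
  have z0 : ∀ y ∈ B, ((L y).1, 0) = L y := fun y k =>
    Prod.ext rfl ((hS' y ((hB y).1 k).1).1 ((hB y).1 k).2).symm
  have eK : Ext K O := .of_continuousAt fun w k => hK.continuousAt (hO.mem_nhds k)
  have e0 : Ext (fun y => ((L y).1, (0 : J → ℂ))) V :=
    (Ext.of_continuous (f := fun w : A × (J → ℂ) => (w.1, (0 : J → ℂ))) (by fun_prop) univ).comp hL
      (mapsTo_univ _ _)
  have e3 : Ext (fun z : Y × (J → ℂ) => ((L z.1).1, z.2)) (B ×ˢ univ) :=
    (((Ext.of_continuous continuous_fst univ).comp hL (mapsTo_univ _ _)).mono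
      fun y k => ((hB y).1 k).1).prodMap (.of_continuous continuous_id univ)
  let W : Set Y := V ∩ (fun y => ((L y).1, (0 : J → ℂ))) ⁻¹' O
  let O' : Set (Y × (J → ℂ)) := B ×ˢ univ ∩ (fun z => ((L z.1).1, z.2)) ⁻¹' O
  have sB : B ⊆ W := fun y k => ⟨((hB y).1 k).1, by rw [mem_preimage, z0 y k]; exact mL ((hB y).1 k).1⟩
  have eπ : Ext (fun y => K ((L y).1, 0)) W := eK.comp (e0.mono inter_subset_left) fun _ k => k.2
  have mπ : MapsTo (fun y => K ((L y).1, 0)) W B := fun y k =>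
    (hB _).2 ⟨mK k.2, (hS _ k.2).2 rfl⟩
  have eΛ := eπ.prodMk (ok.ext.mono (inter_subset_left.trans hV))
  have o1 : Ok (fun y => (K ((L y).1, 0), (L y).2)) W S O' (univ ×ˢ {0}) :=
    .of_mem eΛ (fun y k => ⟨⟨mπ k, trivial⟩, by
      rw [mem_preimage, e1 _ k.2]; exact mL k.1⟩) fun y k e => (hS' y k.1).2 e.2
  have o2 : Ok (fun z : Y × (J → ℂ) => K ((L z.1).1, z.2)) O' (univ ×ˢ {0}) W S :=
    .of_mem (eK.comp (e3.mono inter_subset_left) fun _ k => k.2) (fun z k => ⟨mK k.2, by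
      rw [mem_preimage, e1 _ k.2]; exact (sB k.1.1).2⟩) fun z k e => ⟨trivial, (hS _ k.2).1 e⟩
  have b1 := pull_bij_of_inv o1 o2 (fun y k => by rw [e1 _ k.2]; exact e2 y k.1) fun z k => by
    rw [e1 _ k.2, z0 _ k.1.1, e2 _ ((hB _).1 k.1.1).1]
  have b2 := res_excision (U := B ×ˢ univ) (U₁ := O') (Z := univ ×ˢ {0}) (Z₁ := univ ×ˢ {0})
    inter_subset_left (.of_isClosed (isClosed_univ.prod isClosed_singleton) _)
    (fun z k e => inter_mem self_mem_nhdsWithin (e3.continuousOn z k (hO.mem_nhds (by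
      change (_, z.2) ∈ O
      rw [show z.2 = 0 from e.2]; exact (sB k.1).2)))) fun _ _ => Iff.rfl
  have b3 := res_excision (U := V) (U₁ := W) (Z := S) (Z₁ := S) inter_subset_left
    (((Cl.of_isClosed isClosed_singleton univ).preimage (ok.ext.continuousOn.mono hV)
      (mapsTo_univ _ _)).congr fun y k => (hS' y k).symm)
    (fun y k e => inter_mem self_mem_nhdsWithin (e0.continuousOn y k
      (hO.mem_nhds (sB ((hB y).2 ⟨k, e⟩)).2))) fun _ _ => Iff.rfl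
  refine (Function.Bijective.of_comp_iff' b3 _).1 ?_
  convert b1.comp (b2.comp (thom_triv (Cl.univ B))) using 1
  funext a
  have o3 : Ok (fun y => (K ((L y).1, 0), (L y).2)) W S (B ×ˢ univ) (univ ×ˢ {0}) :=
    .of_mem eΛ (fun y k => ⟨mπ k, trivial⟩) fun y k e => o1.mem k e
  have o4 : Ok (fun y => (K ((L y).1, 0), (L y).2)) W univ (B ×ˢ univ) (univ ×ˢ univ) :=
    .of_mem eΛ o3.maps fun _ _ _ => trivial
  have o5 : Ok id W S V' S := .id (inter_subset_left.trans hV) fun _ _ k => k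
  have o6 : Ok id B univ W univ := .id sB fun _ _ k => k
  have c1 : ∀ {C}, W ⊆ C → CupOK B univ C S W S := fun k => cupOK_fm k fun y k e => (hB y).2 ⟨k.1, e⟩
  simp only [Function.comp_apply]
  rw [res_cup_out (.id inter_subset_left fun _ _ k => k) (cupOK_fm hV fun y k e => (hB y).2 ⟨k, e⟩),
    pull_pull' (F := fun y => (K ((L y).1, 0), (L y).2)) o1 (.id inter_subset_left fun _ _ k => k)
      fun _ _ => rfl,
    pull_cup' o3 o4 o3 (fun _ _ _ k => k) (cupOK fun _ _ _ k => k),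
    pull_pull' (F := fun y => K ((L y).1, 0)) o4 (.of_mem (.of_continuous continuous_fst _)
      (fun _ k => k.1) fun _ _ _ => ⟨trivial, trivial⟩) fun _ _ => rfl,
    pull_pull' (F := fun y => (L y).2) o3 (.of_mem (.of_continuous continuous_snd _)
      (fun _ _ => mem_univ _) fun _ _ k => ⟨trivial, k⟩) fun _ _ => rfl,
    ← cup_res_left o6 (c1 subset_rfl), pull_pull' (F := id) o6 (.of_mem eπ mπ fun _ _ _ => trivial)
      (fun y k => by rw [id, z0 y k, e2 y ((hB y).1 k).1]), pull_id, ← cup_res_right o5 (c1 subset_rfl),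
    pull_pull' (F := fun y => (L y).2) o5 ok fun _ _ => rfl]

/-- A class that does not vanish on a slice is a generator near the slice. -/
theorem cup_bij_near (hN : IsOpen N) {θ : H (U ∩ N) S} {τ : H U S} {k : ℤ}
    (hθ : IsDeg k θ) (hτ : IsDeg k τ) (h : ∀ W, IsOpen W → W ⊆ N →
      Function.Bijective fun c : H (S ∩ W) univ => cup (U ∩ W) S c θ)
    {σ : T → Y} {D : Set T} {t : T} (ok : Ok σ D {t} (U ∩ N) S) (ht : t ∈ D) (hσ : σ t ∈ S)
    (h0 : pull σ D {t} τ ≠ 0) : ∃ V, IsOpen V ∧ σ t ∈ V ∧ ∀ W, IsOpen W → W ⊆ V →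
      Function.Bijective fun c : H (S ∩ W) univ => cup (U ∩ W) S c τ := by
  have o1 : Ok id (U ∩ N) S U S := .id inter_subset_left fun _ _ k => k
  have c1 : CupOK (S ∩ N) univ (U ∩ N) S (U ∩ N) S := cupOK_fm subset_rfl fun _ k e => ⟨e, k.2⟩
  obtain ⟨u, hu⟩ := (h N hN subset_rfl).2 (pull id _ _ τ)
  have du : IsDeg 0 u := isDeg_iff.2 ((h N hN subset_rfl).1 (by
    change cup _ _ _ θ = cup _ _ _ θ
    rw [cup_prj_left (t := {k}) (by simp) _ hθ, show cup _ _ u θ = _ from hu,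
      isDeg_iff.1 (hτ.pull _ _ _)]))
  have m : σ t ∈ S ∩ N := ⟨hσ, (ok.maps ht).2⟩
  have l0 : ev (σ t) u ≠ 0 := fun e => h0 (by
    have o2 : Ok σ {t} univ (S ∩ N) univ := .of_mem (ok.ext.mono (singleton_subset_iff.2 ht))
      (fun _ k => k ▸ m) fun _ _ _ => trivial
    rw [← pull_pull' (F := σ) ok o1 fun _ _ => rfl, ← hu, pull_cup ok.ext subset_rfl
      (singleton_subset_iff.2 ht) subset_rfl ok o2 ok (cupOK_fm subset_rfl fun _ _ k => k) c1,
      pt_eq (mem_univ t) (pull σ {t} univ u), ev_pull o2 rfl, e]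
    simp)
  obtain ⟨V, v1, v2, v3⟩ := mem_nhdsWithin.1 (ev_eventually u m)
  refine ⟨V ∩ N, v1.inter hN, ⟨v2, m.2⟩, fun W w1 w2 => ?_⟩
  have s1 : S ∩ W ⊆ S ∩ N := fun _ k => ⟨k.1, (w2 k.2).2⟩
  have o3 : Ok id (S ∩ W) univ (S ∩ N) univ := .id s1 fun _ _ k => k
  have c2 : CupOK (S ∩ W) univ (U ∩ N) S (U ∩ W) S :=
    cupOK_fm (fun _ k => ⟨k.1, (w2 k.2).2⟩) fun _ k e => ⟨e, k.2⟩
  have eu : pull id (S ∩ W) univ u = ev (σ t) u • cls _ _ onec :=
    sub_eq_zero.1 (((du.pull _ _ _).sub (isDeg_one.smul _)).eq_zero_of_ev fun y k => by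
      rw [map_sub, ev_pull o3 k, map_smul, ev_one k (subset_univ _), smul_eq_mul, mul_one]
      exact sub_eq_zero.2 (v3 ⟨(w2 k.2).1, s1 k⟩))
  convert (MulAction.bijective (Units.mk0 _ l0)).comp (h W w1 fun _ k => (w2 k).2) using 1
  funext c
  rw [← cup_res_right o1 c2, ← hu, ← cup_assoc (.of_subset subset_rfl s1 fun _ _ _ k => k) c2 c1 c2,
    ← cup_res_right o3 (cupOK fun _ _ _ k => k), eu, map_smul, cup_one' (subset_univ _), map_smul]
  rfl

/-- The Thom isomorphism for a subset that is locally a zero section. -/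
theorem thom_chart (hU : IsLocallyClosed U) (hc : Cl U S) (hS : S ⊆ U) {τ : H U S}
    (hτ : IsDeg (2 * Fintype.card J) τ)
    (h : ∀ y ∈ S, ∃ (A : Type) (_ : TopologicalSpace A) (O : Set (A × (J → ℂ)))
      (K : A × (J → ℂ) → Y) (L : Y → A × (J → ℂ)) (N : Set Y) (z : A), IsOpen O ∧ IsOpen N ∧
      ContinuousOn K O ∧ ContinuousOn L (U ∩ N) ∧ MapsTo K O (U ∩ N) ∧ MapsTo L (U ∩ N) O ∧
      (∀ w ∈ O, L (K w) = w) ∧ (∀ y ∈ U ∩ N, K (L y) = y) ∧ (∀ w ∈ O, K w ∈ S ↔ w.2 = 0) ∧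
      (z, 0) ∈ O ∧ K (z, 0) = y ∧ pull (fun v => K (z, v)) {v | (z, v) ∈ O} {0} τ ≠ 0) :
    Function.Bijective fun c : H S univ => cup U S c τ := by
  refine cup_bij_fm hc hτ fun y hy => ?_
  obtain ⟨A, _, O, K, L, N, z, hO, hN, cK, cL, mK, mL, e1, e2, e3, z0, rfl, h0⟩ := h y hy
  have eL := Ext.of_continuousOn (hU.inter hN.isLocallyClosed) cL
  have ok : Ok (fun y => (L y).2) (U ∩ N) S univ {0} :=
    .of_mem ((Ext.of_continuous continuous_snd univ).comp eL (mapsTo_univ _ _)) (mapsTo_univ _ _)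
      fun y k e => e2 y k ▸ (e3 _ (mL k)).2 e
  refine cup_bij_near hN (isDeg_orient.pull (fun y => (L y).2) _ _) hτ (fun W w1 w2 => ?_)
    (σ := fun v => K (z, v)) (.of_mem (.of_continuousAt fun v k =>
      (cK.continuousAt (hO.mem_nhds k)).comp (f := fun v => (z, v)) (by fun_prop))
      (fun v k => mK k) fun v k e => (e3 _ k).1 e) z0 hy h0
  have s1 : U ∩ W ⊆ U ∩ N := inter_subset_inter_right _ w2
  exact chart_bij (O := O ∩ K ⁻¹' W) (cK.isOpen_inter_preimage hO w1) (cK.mono inter_subset_left)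
    (eL.mono s1) (fun w k => ⟨(mK k.1).1, k.2⟩)
    (fun y k => ⟨mL (s1 k), by rw [mem_preimage, e2 y (s1 k)]; exact k.2⟩) (fun w k => e1 w k.1)
    (fun y k => e2 y (s1 k)) (fun w k => e3 w k.1) s1 ok
    fun y => ⟨fun k => ⟨⟨hS k.1, k.2⟩, k.1⟩, fun k => ⟨k.2, k.1.2⟩⟩

end Pool.Agent.Work.MP_849ab0_ag.G
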