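import Pool.Agent.Work.MP_849ab0_ag.G.GrpAlg
import Pool.Agent.Work.MP_849ab0_ag.G.FLoc
import Pool.Agent.Work.MP_849ab0_ag.G.ApiI

-- merged part: Pool.Agent.Work.MP_849ab0_ag.G.GrpGys
section
/-! The Gysin sequence. -/

noncomputable section

set_option linter.unusedSectionVars false
set_option linter.unusedVariables false

namespace Pool.Agent.Work.MP_849ab0_ag.G

open Set Topology Matrix

variable {G G' : Gp} [G.Nice] [G'.Nice] {X Y : Type}
  [TopologicalSpace X] [T3Space X] [SecondCountableTopology X]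
  [TopologicalSpace Y] [T3Space Y] [SecondCountableTopology Y]
  {a : Act G X} [a.Ok] {b : Act G Y} [b.Ok] {J : Type} [Fintype J] {ρ : Act G (J → ℂ)} [ρ.Rep]
  {U Z : Set X} {p : Y → X} {F : Y → J → ℂ}

theorem Act.Pr.congr {Z' : Set X} (h : a.Pr U Z) (e : ∀ x ∈ U, x ∈ Z ↔ x ∈ Z') : a.Pr U Z' :=
  ⟨h.lc, h.inv, fun g x hx k => (e _ (h.inv g x hx)).1 (h.invz g x hx ((e x hx).2 k)),
    Cl.congr h.cl e⟩

theorem Act.Pr.inter_top {Z' : Set X} (h : a.Pr U Z) (h' : a.Pr U Z') : a.Pr (U ∩ Z') Z :=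
  h.mono (Z' := univ) ⟨Cl.isLocallyClosed_inter h'.cl h.lc, h'.inv_inter, fun _ _ _ _ => trivial,
    fun _ _ => trivial⟩ inter_subset_left

theorem cont_nsq : Continuous (nsq : (J → ℂ) → ℝ) := by unfold nsq; fun_prop

theorem nsq_smul (c : ℂ) (v : J → ℂ) : nsq (c • v) = ‖c‖ ^ 2 * nsq v := by
  simp [nsq, mul_pow, Finset.mul_sum]

theorem nsq_nonneg' (v : J → ℂ) : 0 ≤ nsq v := Finset.sum_nonneg fun _ _ => by positivity

theorem nsq_pos' {v : J → ℂ} (h : v ≠ 0) : 0 < nsq v := by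
  obtain ⟨j, hj⟩ := Function.ne_iff.1 h
  exact Finset.sum_pos' (fun _ _ => by positivity) ⟨j, Finset.mem_univ _, by positivity⟩

theorem pr_sphere : ρ.Pr univ {v | nsq v = 1} :=
  ρ.pr_univ (isClosed_eq cont_nsq continuous_const) fun g v hv => (Act.Rep.nsq g v).trans hv

theorem ev_euc (ρ : Act G (J → ℂ)) [ρ.Rep] : Ev (euc ρ) := ev_eul

theorem isDeg_euc (ρ : Act G (J → ℂ)) [ρ.Rep] : IsDeg (2 * Fintype.card J) (euc ρ) := isDeg_eul

theorem Fib.pr (h : Fib a b ρ p F U) (hU : a.Pr U Z) : b.Pr (p ⁻¹' U) (p ⁻¹' Z) :=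
  hU.preimage (φ := id) h.contp h.eqvp

theorem Fib.pr_pre (h : Fib a b ρ p F U) (hU : a.Pr U Z) {A : Set (J → ℂ)} (hA : ρ.Pr univ A) :
    b.Pr (p ⁻¹' U) (F ⁻¹' A) := hA.preimage' (φ := id) (h.pr hU) h.contF (mapsTo_univ _ _) h.eqvF

/-- scaling along the fibres -/
theorem Fib.exists_scale (h : Fib a b ρ p F U) (hU : a.Pr U Z) : ∃ K : ℝ → Y → Y,
    ContinuousOn (fun z : ℝ × Y => K z.1 z.2) (univ ×ˢ (p ⁻¹' U)) ∧
    (∀ t, ∀ y ∈ p ⁻¹' U, p (K t y) = p y ∧ F (K t y) = (t : ℂ) • F y) ∧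
    (∀ y ∈ p ⁻¹' U, K 1 y = y) ∧
    (∀ t g, ∀ y ∈ p ⁻¹' U, K t (b.act g y) = b.act g (K t y)) ∧
    ∃ σ : X → Y, GAdm a b id σ U Z (p ⁻¹' U) (p ⁻¹' Z) ∧ (∀ x ∈ U, p (σ x) = x) ∧
      ∀ y ∈ p ⁻¹' U, K 0 y = σ (p y) := by
  obtain ⟨s, s1, s2, s3⟩ := h.inv
  have eq : ∀ g, ∀ x ∈ U, ∀ v, s (a.act g x, ρ.act g v) = b.act g (s (x, v)) := fun g x hx v => by
    have m : s (x, v) ∈ p ⁻¹' U := by rw [mem_preimage, (s2 x hx v).1]; exact hx
    have := s3 _ ((h.pr hU).inv g _ m)
    rwa [h.eqvp, h.eqvF g _ m, (s2 x hx v).1, (s2 x hx v).2] at this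
  refine ⟨fun t y => s (p y, (t : ℂ) • F y), s1.comp
    ((h.contp.comp continuous_snd).continuousOn.prodMk
      ((Complex.continuous_ofReal.comp continuous_fst).continuousOn.smul
        (h.contF.comp continuousOn_snd fun _ k => k.2))) fun _ k => ⟨k.2, trivial⟩,
    fun t y hy => s2 _ hy _, fun y hy => by simpa using s3 y hy, fun t g y hy => ?_,
    fun x => s (x, 0), ⟨hU, h.pr hU, s1.comp (by fun_prop) fun _ k => ⟨k, trivial⟩,
      fun g x hx => ?_, fun x hx => ?_, fun x hx k => ?_⟩, fun x hx => (s2 x hx 0).1,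
    fun y hy => by simp⟩
  · dsimp only
    rw [h.eqvp, h.eqvF g y hy, ← (Act.Rep.lin g).map_smul, eq g _ hy]
  · rw [id, ← eq g x hx, (Act.Rep.lin g).map_zero]
  · rw [mem_preimage, (s2 x hx 0).1]; exact hx
  · rwa [mem_preimage, (s2 x hx 0).1] at k

theorem Fib.gadm (h : Fib a b ρ p F U) (hU : a.Pr U Z) :
    GAdm b a id p (p ⁻¹' U) (p ⁻¹' Z) U Z :=
  ⟨h.pr hU, hU, h.contp.continuousOn, fun g y _ => h.eqvp g y, fun _ k => k, fun _ _ k => k⟩

/-- the projection of a vector bundle -/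
theorem Fib.bij (h : Fib a b ρ p F U) (hU : a.Pr U Z) :
    Function.Bijective (gp b id p (p ⁻¹' U) (p ⁻¹' Z) : EH a U Z → _) := by
  obtain ⟨K, k1, k2, k3, k4, σ, k5, k6, k7⟩ := h.exists_scale hU
  refine Function.bijective_iff_has_inverse.2 ⟨gp a id σ U Z, fun c => ?_, fun c => ?_⟩
  · rw [gp_comp (h.gadm hU) k5 (χ := id) (fun _ => rfl) (k := id) (fun x m => (k6 x m).symm),
      gp_id hU]
  · rw [gp_comp k5 (h.gadm hU) (χ := id) (fun _ => rfl) (k := K 0) k7,
      gp_htpy (φ := id) (k1.mono (Set.prod_mono (subset_univ _) subset_rfl)) fun t _ =>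
        ⟨h.pr hU, h.pr hU, k1.comp (by fun_prop : ContinuousOn (fun y => (t, y)) _)
          fun _ k => ⟨trivial, k⟩, k4 t, fun y hy => by
            rw [mem_preimage, (k2 t y hy).1]; exact hy,
          fun y hy k => by rwa [mem_preimage, (k2 t y hy).1] at k⟩,
      gp_congr (h.pr hU) (k := id) k3, gp_id (h.pr hU)]

theorem Fib.pr_sph (h : Fib a b ρ p F U) (hU : a.Pr U Z) :
    b.Pr (p ⁻¹' U ∩ F ⁻¹' {v | nsq v = 1}) (p ⁻¹' Z) := (h.pr hU).inter_top (h.pr_pre hU pr_sphere)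

theorem Fib.res_sph (h : Fib a b ρ p F U) (hU : a.Pr U Z) :
    Function.Bijective (gp b id id (p ⁻¹' U ∩ F ⁻¹' {v | nsq v = 1}) (p ⁻¹' Z) :
      EH b (p ⁻¹' U \ F ⁻¹' {0}) (p ⁻¹' Z) → _) := by
  obtain ⟨K, k1, k2, k3, k4, -⟩ := h.exists_scale hU
  have pO := (h.pr hU).diff (h.pr_pre hU (Act.Rep.pr ρ))
  let c : ℝ → Y → ℝ := fun t y => 1 - t + t / √(nsq (F y))
  have cc : ContinuousOn (fun z : ℝ × Y => c z.1 z.2) (univ ×ˢ (p ⁻¹' U \ F ⁻¹' {0})) :=
    (continuousOn_const.sub continuousOn_fst).add (continuousOn_fst.div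
      (cont_nsq.comp_continuousOn (h.contF.comp continuousOn_snd fun _ k => k.2.1)).sqrt
      fun z k => (Real.sqrt_pos.2 (nsq_pos' k.2.2)).ne')
  have cK : ContinuousOn (fun z : ℝ × Y => K (c z.1 z.2) z.2) (univ ×ˢ (p ⁻¹' U \ F ⁻¹' {0})) :=
    k1.comp (cc.prodMk continuousOn_snd) fun _ k => ⟨trivial, k.2.1⟩
  have sb : p ⁻¹' U ∩ F ⁻¹' {v | nsq v = 1} ⊆ p ⁻¹' U \ F ⁻¹' {0} := fun y k => ⟨k.1, fun e => by
    have := k.2
    rw [mem_preimage, show F y = 0 from e] at this
    simp [nsq] at this⟩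
  refine gp_bij_retract pO (h.pr_sph hU) sb (F := fun t y => K (c t y) y)
    (cK.mono (Set.prod_mono (subset_univ _) subset_rfl)) (fun t ht => ⟨pO, pO,
      cK.comp (by fun_prop : ContinuousOn (fun y => (t, y)) _) fun _ k => ⟨trivial, k⟩,
      fun g y hy => ?_, fun y hy => ⟨?_, fun e => ?_⟩, fun y hy k => ?_⟩) (fun t ht y hy => ?_)
    (fun y hy => ?_) fun y hy => ⟨?_, ?_⟩
  · simp only [c]
    rw [h.eqvF g y hy.1, Act.Rep.nsq, k4 _ g y hy.1]; rfl
  · rw [mem_preimage, (k2 _ y hy.1).1]; exact hy.1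
  · rw [mem_preimage, (k2 _ y hy.1).2, mem_singleton_iff, smul_eq_zero] at e
    have h1 := Real.sqrt_pos.2 (nsq_pos' hy.2)
    have h2 : 0 < c t y := by
      rcases ht.1.eq_or_lt with e' | e'
      · simp [c, ← e']
      · exact add_pos_of_nonneg_of_pos (sub_nonneg.2 ht.2) (div_pos e' h1)
    exact e.elim (fun e => h2.ne' (by exact_mod_cast e)) hy.2
  · rwa [mem_preimage, (k2 _ y hy.1).1] at k
  · have : c t y = 1 := by simp [c, show nsq (F y) = 1 from hy.2]
    dsimp only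
    rwa [this, k3 y hy.1]
  · have : c 0 y = 1 := by simp [c]
    rw [this, k3 y hy.1]
  · rw [mem_preimage, (k2 _ y hy.1).1]; exact hy.1
  · have h1 := nsq_pos' hy.2
    rw [mem_preimage, (k2 _ y hy.1).2, mem_ofPred_eq, nsq_smul, Complex.norm_real, Real.norm_eq_abs,
      sq_abs]
    simp [c, Real.sq_sqrt h1.le, h1.ne']

theorem gysin_aux (h : Fib a b ρ p F U) (hU : a.Pr U Z) :
    (∀ y : EH b (p ⁻¹' U) (p ⁻¹' Z),
      gp b id id (p ⁻¹' U ∩ F ⁻¹' {v | nsq v = 1}) (p ⁻¹' Z) y = 0 ↔ ∃ y', sm (euc ρ) y' = y) ∧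
    (Function.Surjective (gp b id id (p ⁻¹' U ∩ F ⁻¹' {v | nsq v = 1}) (p ⁻¹' Z) :
      EH b (p ⁻¹' U) (p ⁻¹' Z) → _) ↔
      Function.Injective (sm (euc ρ) : EH b (p ⁻¹' U) (p ⁻¹' Z) → _)) := by
  have p0 := h.pr hU
  have p1 := h.pr_pre hU (Act.Rep.pr ρ)
  have p2 := p0.inter p1
  have sb : p ⁻¹' U ∩ (p ⁻¹' Z ∩ F ⁻¹' {0}) ⊆ p ⁻¹' Z := fun _ k => k.2.1
  have ea : EAdm b ρ F (p ⁻¹' U) (F ⁻¹' {0}) :=
    ⟨p1, Act.Rep.pr ρ, h.contF, h.eqvF, mapsTo_univ _ _, fun _ _ k => k⟩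
  have T : Function.Bijective fun y : EH b (p ⁻¹' U) (p ⁻¹' Z) =>
      ecup (p ⁻¹' U) (p ⁻¹' Z ∩ F ⁻¹' {0}) y (eul b ρ F (p ⁻¹' U) (F ⁻¹' {0})) :=
    (Function.Bijective.of_comp_iff _ (h.bij hU)).1 (thom_bij h hU)
  have iT : ∀ y : EH b (p ⁻¹' U) (p ⁻¹' Z), gp b id id (p ⁻¹' U) (p ⁻¹' Z)
      (ecup (p ⁻¹' U) (p ⁻¹' Z ∩ F ⁻¹' {0}) y (eul b ρ F (p ⁻¹' U) (F ⁻¹' {0}))) =
        sm (euc ρ) y := fun y => by
    have k := gadm_id p1 p0.top subset_rfl (subset_univ _)
    have k0 := gadm_id p0 p0 subset_rfl inter_subset_right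
    rw [gp_id_ecup (ecup_of p0 p1 p2 fun _ k => ⟨k.1.2, k.2⟩) (gadm_id p2 p0 subset_rfl sb),
      ← ecup_gp_right (ecup_top p0).symm k, gp_eul ea k (σ := ρ) (fun _ _ => rfl) (F' := F)
        (fun _ _ => rfl), eul_univ ⟨p0.top, Act.Rep.pr ρ, h.contF, h.eqvF, mapsTo_univ _ _,
        fun _ _ _ => trivial⟩, ecup_sm_right (ecup_top p0).symm (ev_euc ρ),
      ecup_eone (ecup_top p0).symm k0, gp_id p0]
  have sb2 : p ⁻¹' U \ F ⁻¹' {0} ⊆ p ⁻¹' U \ (p ⁻¹' Z ∩ F ⁻¹' {0}) :=
    fun _ k => ⟨k.1, fun e => k.2 e.2⟩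
  have sb3 : p ⁻¹' U ∩ F ⁻¹' {v | nsq v = 1} ⊆ p ⁻¹' U \ F ⁻¹' {0} := fun y k => ⟨k.1, fun e => by
    have := k.2
    rw [mem_preimage, show F y = 0 from e] at this
    simp [nsq] at this⟩
  have ex := excision (p0.diff p2) (O := p ⁻¹' U \ F ⁻¹' {0})
    ((p1.diff p2).congr fun y k => ⟨fun e => ⟨k, fun e' => e'.2 e⟩,
      fun e => by_contra fun e' => e.2 ⟨k.1, e'⟩⟩) sb2 fun y k => ⟨k.1.1, fun e => k.1.2 ⟨k.2, e⟩⟩
  have ε := (h.res_sph hU).comp ex
  have r : ∀ y : EH b (p ⁻¹' U) (p ⁻¹' Z),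
      gp b id id (p ⁻¹' U ∩ F ⁻¹' {v | nsq v = 1}) (p ⁻¹' Z) y =
      gp b id id _ _ (gp b id id (p ⁻¹' U \ F ⁻¹' {0}) (p ⁻¹' Z)
        (gp b id id (p ⁻¹' U \ (p ⁻¹' Z ∩ F ⁻¹' {0})) (p ⁻¹' Z) y)) := fun y => by
    rw [gp_comp (gadm_id p0 (p0.diff p2) sdiff_subset inter_subset_right)
      (gadm_id (p0.diff p2) (p0.diff p1) sb2 inter_subset_right) (χ := id) (fun _ => rfl) (k := id)
      (fun _ _ => rfl), gp_comp (gadm_id p0 (p0.diff p1) sdiff_subset inter_subset_right)
      (gadm_id (p0.diff p1) (h.pr_sph hU) sb3 inter_subset_right) (χ := id) (fun _ => rfl) (k := id)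
      (fun _ _ => rfl)]
  refine ⟨fun y => ?_, fun hs => (injective_iff_map_eq_zero _).2 fun y e => ?_, fun hi y => ?_⟩
  · rw [r]
    refine Iff.trans ⟨fun e => ε.1 (e.trans (by simp)), fun e => by rw [e, map_zero, map_zero]⟩
      ((les_mid p0 p2 sb y).trans ⟨fun ⟨w, e⟩ => ?_, fun ⟨w, e⟩ => ⟨_, (iT w).trans e⟩⟩)
    obtain ⟨w, rfl⟩ := T.2 w
    exact ⟨w, (iT w).symm.trans e⟩
  · obtain ⟨w, e'⟩ := (les_left p0 p2 sb _).1 ((iT y).trans e)
    obtain ⟨u, e''⟩ := hs (gp b id id _ _ (gp b id id (p ⁻¹' U \ F ⁻¹' {0}) (p ⁻¹' Z) w))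
    rw [(les_right p0 p2 sb w).2 ⟨u, ε.1 ((r u).symm.trans e'')⟩] at e'
    exact T.1 (e'.symm.trans (by simp))
  · obtain ⟨w, rfl⟩ := ε.2 y
    obtain ⟨u, e⟩ := T.2 (ebd _ _ w)
    have : u = 0 := hi (by rw [← iT, map_zero]; exact (les_left p0 p2 sb _).2 ⟨w, e.symm⟩)
    obtain ⟨u', rfl⟩ := (les_right p0 p2 sb w).1 (by rw [← e, this]; simp)
    exact ⟨u', r u'⟩

/-- `EH V W → EH V W → EH S W` is part of a long exact sequence, the first map being the
multiplication by `e`. -/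
structure Gys (b : Act G Y) (V W S : Set Y) (e : HPt G) : Prop where
  adm : GAdm b b id id S W V W
  ker : ∀ y : EH b V W, gp b id id S W y = 0 ↔ ∃ y', sm e y' = y
  iff : Function.Surjective (gp b id id S W : EH b V W → _) ↔
    Function.Injective (sm e : EH b V W → _)

/-- The Gysin sequence on the total space. -/
theorem gysin (h : Fib a b ρ p F U) (hU : a.Pr U Z) {V W S : Set Y} (hV : V = p ⁻¹' U)
    (hW : W = p ⁻¹' Z) (hS : ∀ y, y ∈ S ↔ y ∈ V ∧ nsq (F y) = 1) : Gys b V W S (euc ρ) := by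
  obtain rfl : S = V ∩ F ⁻¹' {v | nsq v = 1} := Set.ext hS
  subst hV hW
  exact ⟨gadm_id (h.pr hU) (h.pr_sph hU) inter_subset_left inter_subset_right,
    (gysin_aux h hU).1, (gysin_aux h hU).2⟩

end Pool.Agent.Work.MP_849ab0_ag.G
end
end

-- merged part: Pool.Agent.Work.MP_849ab0_ag.G.GrpTor
section
/-! Tori that act trivially. -/

noncomputable section

set_option linter.unusedSectionVars false
set_option linter.unusedVariables false

namespace Pool.Agent.Work.MP_849ab0_ag.G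

open Set Topology Matrix

theorem spn_adjoin {S S₀ P B' : Type} [TopologicalSpace S] [TopologicalSpace S₀] [AddCommGroup B']
    [Module ℂ B'] {V W : Set S} {V₀ W₀ : Set S₀} {j : P} {I : Set (P →₀ ℕ)}
    (hI : ∀ m k, m + Finsupp.single j k ∈ I ↔ m ∈ I) {L : (P →₀ ℕ) → H V₀ W₀ →ₗ[ℂ] H V W}
    {r : H V W →ₗ[ℂ] B'} {x : H V W →ₗ[ℂ] H V W}
    (hd : ∀ m, ∃ d : ℤ, ∀ p a, IsDeg p a → IsDeg (p + d) (L m a))
    (hx : ∀ p b, IsDeg p b → IsDeg (p + 2) (x b)) (hr : ∀ b, r b = 0 → ∃ y, x y = b)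
    (hL : ∀ m, x ∘ₗ L m = L (m + Finsupp.single j 1))
    (h : spn {m ∈ I | m j = 0} (fun m => r ∘ₗ L m) = ⊤) : spn I L = ⊤ := by
  have h1 : ∀ p : ℤ, spn I L ≤ (spn I L).comap (prj {p}) := fun p => spn_le fun m hm a => by
    obtain ⟨d, hd⟩ := hd m
    rw [Submodule.mem_comap, ← sub_add_cancel p d, ← prj_map hd]
    exact mem_spn hm _
  have h2 : spn I L ≤ (spn I L).comap x := spn_le fun m hm a => by
    rw [Submodule.mem_comap, ← LinearMap.comp_apply, hL]
    exact mem_spn ((hI _ _).2 hm) _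
  have key : ∀ n : ℕ, ∀ p : ℤ, p < n → ∀ b, IsDeg p b → b ∈ spn I L := by
    intro n
    induction n with
    | zero => exact fun p hp b hb => hb.eq_zero hp ▸ zero_mem _
    | succ n ih =>
      intro p hp b hb
      rw [spn_comp] at h
      obtain ⟨b0, k1, k2⟩ : r b ∈ (spn {m ∈ I | m j = 0} L).map r := h ▸ Submodule.mem_top
      obtain ⟨y, k3⟩ := hr (b - b0) (by rw [map_sub, k2, sub_self])
      have k4 : b0 ∈ spn I L := spn_le (fun m hm a => mem_spn hm.1 a) k1
      rw [← isDeg_iff.1 hb, eq_add_of_sub_eq k3.symm, map_add]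
      refine add_mem ?_ (h1 p k4)
      rw [← sub_add_cancel p 2, ← prj_map hx]
      exact h2 (ih _ (by push_cast at hp; omega) _ (isDeg_prj _ _))
  refine eq_top_iff.2 fun b _ => ?_
  obtain ⟨n, e⟩ := exists_sum_prj b
  rw [e]
  exact Submodule.sum_mem _ fun p _ => key (p + 1) p (by simp) _ (isDeg_prj _ _)

variable {G G' : Gp} [G.Nice] [G'.Nice] {X Y : Type}
  [TopologicalSpace X] [T3Space X] [SecondCountableTopology X]
  [TopologicalSpace Y] [T3Space Y] [SecondCountableTopology Y]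
  {a : Act G X} [a.Ok] {U Z : Set X}

theorem isCompact_of_retr {f : X → Y} {π : Y → X} (hf : Continuous f) (hπ : Continuous π)
    (e : ∀ x, π (f x) = x) {K : Set Y} (cK : IsCompact K) (h : ∀ y ∈ K, π y ∈ U) :
    IsCompact (U ∩ f ⁻¹' K) := by
  rw [inter_eq_right.2 fun x m => e x ▸ h _ m]
  exact (cK.image hπ).of_isClosed_subset (cK.isClosed.preimage hf) fun x m => ⟨_, m, e x⟩

/-- The Gysin sequence for some coordinates of a diagonal representation. -/
theorem gysin_dg {J R : Type} [Fintype J] [Fintype R] {χ : J → G.H → ℂ} (hχ : ∀ j, IsChar (χ j))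
    {i : R → J} (hi : Function.Injective i) {V S : Set ((J → ℂ) × X)}
    (hV : ((Act.dg χ).prod a).Pr V (Prod.snd ⁻¹' Z))
    (hV' : ∀ v v' x, (∀ z, z ∉ range i → v z = v' z) → (v, x) ∈ V → (v', x) ∈ V)
    (hS : ∀ y, y ∈ S ↔ y ∈ V ∧ nsq (y.1 ∘ i) = 1) :
    Gys ((Act.dg χ).prod a) V (Prod.snd ⁻¹' Z) S (euc (Act.dg (χ ∘ i))) := by
  have := Act.rep_dg hχ
  have := Act.rep_dg (χ := χ ∘ i) fun r => hχ (i r)
  have ce : Continuous fun z : (R → ℂ) × (J → ℂ) => Function.extend i z.1 z.2 :=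
    continuous_pi fun j => by
      by_cases k : ∃ r, i r = j
      · obtain ⟨r, rfl⟩ := k
        simp only [hi.extend_apply]; fun_prop
      · simp only [Function.extend_apply' _ _ _ k]; fun_prop
  have e1 : ∀ (u : R → ℂ) (v : J → ℂ), ∀ z, z ∉ range i → v z = Function.extend i u v z :=
    fun u v z k => (Function.extend_apply' _ _ _ k).symm
  have p1 : ((Act.dg χ).prod a).Pr V ((fun y => y.1 ∘ i) ⁻¹' {0}) :=
    (Act.Rep.pr (Act.dg (χ ∘ i))).preimage' (φ := id) hV (by fun_prop) (mapsTo_univ _ _)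
      fun _ _ _ => rfl
  have e2 : V = (fun y : (J → ℂ) × X => (Function.extend i 0 y.1, y.2)) ⁻¹'
      (V ∩ (fun y => y.1 ∘ i) ⁻¹' {0}) := Set.ext fun y =>
    ⟨fun k => ⟨hV' _ _ _ (e1 _ _) k, Function.extend_comp hi _ _⟩,
      fun k => hV' _ _ _ (fun z m => (e1 _ _ z m).symm) k.1⟩
  refine gysin (a := (Act.dg χ).prod a) (ρ := Act.dg (χ ∘ i)) (F := fun y => y.1 ∘ i)
    (p := fun y => (Function.extend i 0 y.1, y.2))
    ⟨(ce.comp (continuous_const.prodMk continuous_fst)).prodMk continuous_snd, fun g y => ?_,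
      by fun_prop, fun _ _ _ => rfl, fun z => (Function.extend i z.2 z.1.1, z.1.2),
      ((ce.comp (continuous_snd.prodMk continuous_fst.fst)).prodMk continuous_fst.snd).continuousOn,
      fun y hy v => ⟨Prod.ext (funext fun j => ?_) rfl, Function.extend_comp hi _ _⟩,
      fun y hy => Prod.ext (funext fun j => ?_) rfl⟩ (hV.inter_top p1) e2 rfl hS
  · refine Prod.ext (funext fun j => ?_) rfl
    change Function.extend i 0 (fun j => χ j g * y.1 j) j = χ j g * Function.extend i 0 y.1 j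
    by_cases k : ∃ r, i r = j
    · obtain ⟨r, rfl⟩ := k
      simp [hi.extend_apply]
    · simp [Function.extend_apply' _ _ _ k]
  · by_cases k : ∃ r, i r = j
    · obtain ⟨r, rfl⟩ := k
      simp only [hi.extend_apply]
      exact (congrFun hy.2 r).symm
    · simp only [Function.extend_apply' _ _ _ k]
  · by_cases k : ∃ r, i r = j
    · obtain ⟨r, rfl⟩ := k
      simp only [hi.extend_apply]; rfl
    · simp only [Function.extend_apply' _ _ _ k]

/-- the classes of even degree -/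
def evS (G : Gp) : Subalgebra ℂ (HPt G) where
  carrier := {c | Ev c}
  mul_mem' := Ev.ecup
  add_mem' := Ev.add
  algebraMap_mem' r := by
    rw [Algebra.algebraMap_eq_smul_one]; exact (isDeg_eone.ev (by simp)).smul r

theorem Ev.comm {c : HPt G} (h : Ev c) (d : HPt G) : d * c = c * d :=
  ecup_comm (ecup_top (Act.pr_pt G)) d h

instance (G : Gp) [G.Nice] : CommRing (evS G) where
  mul_comm c d := Subtype.ext (Ev.comm d.2 c.1)

theorem isDeg_eu0 {χ : G.H → ℂ} (h : IsChar χ) : IsDeg 2 (eu χ) :=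
  have := Act.rep_dg fun _ : Unit => h
  isDeg_euc (Act.dg fun _ : Unit => χ)

theorem ev_eu {χ : G.H → ℂ} (h : IsChar χ) : Ev (eu χ) := (isDeg_eu0 h).ev even_two

variable {κ κ' P C : Type} [Fintype κ] [DecidableEq κ] [Fintype κ'] [DecidableEq κ'] [Fintype P]
  [DecidableEq P]

theorem isChar_coord (j : κ) : IsChar (G := Gp.tor κ) fun g => (g j : ℂ) :=
  ⟨fun _ _ => rfl, continuous_subtype_val.comp (continuous_apply j), fun g => (g j).norm_coe⟩

/-- the cohomology of `BT`, with values in the even classes -/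
def pol0 (κ : Type) [Fintype κ] [DecidableEq κ] : MvPolynomial κ ℂ →ₐ[ℂ] evS (Gp.tor κ) :=
  MvPolynomial.aeval fun j => ⟨eu fun g : κ → Circle => (g j : ℂ), ev_eu (isChar_coord j)⟩

/-- the cohomology of `BT` -/
def pol (κ : Type) [Fintype κ] [DecidableEq κ] : MvPolynomial κ ℂ →ₐ[ℂ] HPt (Gp.tor κ) :=
  (evS _).val.comp (pol0 κ)

theorem pol_X (j : κ) : pol κ (MvPolynomial.X j) = eu fun g : κ → Circle => (g j : ℂ) := by
  simp [pol, pol0]

theorem ev_pol (f : MvPolynomial κ ℂ) : Ev (pol κ f) := (pol0 κ f).2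

theorem IsDeg.mul {p q : ℤ} {x y : EH a U univ} (hx : IsDeg p x) (hy : IsDeg q y) :
    IsDeg (p + q) (x * y) := hx.ecup hy

theorem isDeg_one' : IsDeg 0 (1 : EH a U univ) := isDeg_eone

section

variable {σ : Type} {Ψ : MvPolynomial σ ℂ →ₐ[ℂ] HPt G}

theorem isDeg_alg_mono (hΨ : ∀ j, IsDeg 2 (Ψ (MvPolynomial.X j))) (m : σ →₀ ℕ) (r : ℂ) :
    IsDeg (2 * (m.degree : ℕ)) (Ψ (MvPolynomial.monomial m r)) := by
  induction m using Finsupp.induction_linear generalizing r with
  | zero =>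
    rw [MvPolynomial.monomial_zero', ← MvPolynomial.algebraMap_eq, AlgHom.commutes,
      Algebra.algebraMap_eq_smul_one]
    simpa using isDeg_one'.smul r
  | add m m' h h' =>
    rw [← mul_one r, ← MvPolynomial.monomial_mul, map_mul, map_add, Nat.cast_add, mul_add]
    exact (h r).mul (h' 1)
  | single j n =>
    rw [← MvPolynomial.C_mul_X_pow_eq_monomial, MvPolynomial.C_mul', map_smul, map_pow,
      Finsupp.degree_single]
    refine IsDeg.smul ?_ r
    induction n with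
    | zero => simpa using isDeg_one'
    | succ n ih =>
      rw [pow_succ, Nat.cast_succ, mul_add, mul_one]
      exact ih.mul (hΨ j)

theorem isDeg_alg (hΨ : ∀ j, IsDeg 2 (Ψ (MvPolynomial.X j))) {f : MvPolynomial σ ℂ} {d : ℕ}
    (h : f.IsHomogeneous d) : IsDeg (2 * d) (Ψ f) := by
  rw [f.as_sum, map_sum]
  refine IsDeg.sum _ fun m hm => ?_
  have := isDeg_alg_mono hΨ m (f.coeff m)
  rwa [Finsupp.degree_eq_weight_one, show Finsupp.weight (fun _ => 1) m = d from
    h (MvPolynomial.mem_support_iff.1 hm)] at this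

theorem isDeg_alg_iff (hΨ : ∀ j, IsDeg 2 (Ψ (MvPolynomial.X j))) (hi : Function.Injective Ψ)
    {f : MvPolynomial σ ℂ} {p : ℤ} :
    IsDeg p (Ψ f) ↔ f = 0 ∨ ∃ d : ℕ, p = 2 * d ∧ f.IsHomogeneous d := by
  refine ⟨fun h => ?_, fun h => h.elim (fun e => by rw [e, map_zero]; exact .zero _)
    fun ⟨d, e, k⟩ => e ▸ isDeg_alg hΨ k⟩
  have hc := fun i => isDeg_alg hΨ (MvPolynomial.homogeneousComponent_isHomogeneous i f)
  have e : Ψ f = ∑ i ∈ Finset.range (f.totalDegree + 1), prj {p}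
      (Ψ (MvPolynomial.homogeneousComponent i f)) := by
    rw [← map_sum, ← map_sum, MvPolynomial.sum_homogeneousComponent, isDeg_iff.1 h]
  by_cases k : ∃ d ∈ Finset.range (f.totalDegree + 1), p = 2 * (d : ℕ)
  · obtain ⟨d, hd, rfl⟩ := k
    rw [Finset.sum_eq_single_of_mem d hd fun i _ m => (hc i).prj_eq_zero (by simpa using m),
      isDeg_iff.1 (hc d)] at e
    exact Or.inr ⟨d, rfl, hi e ▸ MvPolynomial.homogeneousComponent_isHomogeneous d f⟩
  · rw [Finset.sum_eq_zero fun i m => (hc i).prj_eq_zero fun m' => k ⟨i, m, m'.symm⟩] at e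
    exact Or.inl (hi (e.trans (map_zero _).symm))

end

theorem isDeg_pol_X (j : κ) : IsDeg 2 (pol κ (MvPolynomial.X j)) :=
  pol_X j ▸ isDeg_eu0 (isChar_coord j)

theorem isDeg_pol_mono (m : κ →₀ ℕ) (r : ℂ) :
    IsDeg (2 * (m.degree : ℕ)) (pol κ (MvPolynomial.monomial m r)) := isDeg_alg_mono isDeg_pol_X m r

theorem isDeg_pol {f : MvPolynomial κ ℂ} {d : ℕ} (h : f.IsHomogeneous d) :
    IsDeg (2 * d) (pol κ f) := isDeg_alg isDeg_pol_X h

/-- `G'` is the product of a torus and `G` -/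
structure Spl (τ : G'.H → (Gp.tor P).H) (σ : G'.H → G.H) (ι : G.H → G'.H) : Prop where
  e1 : ∀ g, τ (ι g) = 1
  e2 : ∀ g, σ (ι g) = g
  e3 : ∀ g, τ g = 1 → ι (σ g) = g
  surj : Function.Surjective τ

section

variable {τ : G'.H → (Gp.tor P).H} {σ : G'.H → G.H} {ι : G.H → G'.H} [IsHom τ] [IsHom σ] [IsHom ι]
  {c : Act G' X} [c.Ok]

theorem pr_of_eq (h : a.Pr U Z) (e : ∀ g, ∀ x ∈ U, c.act g x = a.act (σ g) x) : c.Pr U Z :=
  ⟨h.lc, fun g x hx => e g x hx ▸ h.inv _ x hx, fun g x hx => e g x hx ▸ h.invz _ x hx, h.cl⟩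

theorem nsq_unit (v : Unit → ℂ) : nsq v = 1 ↔ ‖v ()‖ = 1 := by
  simp [nsq, pow_eq_one_iff_of_nonneg]

/-- the coordinates outside `S` have norm one -/
def tV (U : Set X) (S : Finset P) : Set ((P → ℂ) × X) := {y | (∀ j ∉ S, ‖y.1 j‖ = 1) ∧ y.2 ∈ U}

/-- the coordinate characters -/
def tC (τ : G'.H → (Gp.tor P).H) (j : P) (g : G'.H) : ℂ := τ g j

theorem isChar_tC (τ : G'.H → (Gp.tor P).H) [IsHom τ] (j : P) : IsChar (tC τ j) :=
  (isChar_coord j).comp τ

instance : (Act.dg (tC τ)).Rep := Act.rep_dg (isChar_tC τ)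

theorem tV_pr (hc : c.Pr U Z) (S : Finset P) :
    ((Act.dg (tC τ)).prod c).Pr (tV U S) (Prod.snd ⁻¹' Z) := by
  have p0 : ((Act.dg (tC τ)).prod c).Pr (Prod.snd ⁻¹' U) (Prod.snd ⁻¹' Z) :=
    hc.preimage (φ := id) continuous_snd fun _ _ => rfl
  have : ((Act.dg (tC τ)).prod c).Pr univ {y | ∀ j ∉ S, ‖y.1 j‖ = 1} := Act.pr_univ _ (by
    simp only [ofPred_forall]
    exact isClosed_iInter fun j => isClosed_iInter fun _ => isClosed_eq (by fun_prop)
      continuous_const) fun g y hy j hj => by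
        change ‖tC τ j g * y.1 j‖ = 1
        rw [norm_mul, (isChar_tC τ j).norm, hy j hj, one_mul]
  convert p0.inter_top (this.mono p0 (subset_univ _)) using 1
  exact Set.ext fun y => and_comm

theorem tV_gadm (h : a.Pr U Z) (e : ∀ g, ∀ x ∈ U, c.act g x = a.act (σ g) x) (S : Finset P) :
    GAdm ((Act.dg (tC τ)).prod c) a σ Prod.snd (tV U S) (Prod.snd ⁻¹' Z) U Z :=
  ⟨tV_pr (pr_of_eq h e) S, h, continuousOn_snd, fun g y hy => e g _ hy.2, fun _ k => k.2,
    fun _ _ k => k⟩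

theorem tV_empty (hs : Spl τ σ ι) (h : a.Pr U Z) (e : ∀ g, ∀ x ∈ U, c.act g x = a.act (σ g) x) :
    Function.Bijective (gp ((Act.dg (tC τ)).prod c) σ Prod.snd (tV U ∅) (Prod.snd ⁻¹' Z) :
      EH a U Z → _) := by
  have hc := pr_of_eq h e
  have k : GAdm a ((Act.dg (tC τ)).prod c) ι (fun x => (1, x)) U Z (tV U ∅) (Prod.snd ⁻¹' Z) :=
    ⟨h, tV_pr hc ∅, by fun_prop, fun g x hx => Prod.ext (funext fun j => by
      change (1 : ℂ) = (τ (ι g) j : ℂ) * 1
      rw [hs.e1, mul_one]; rfl) (by change _ = c.act _ _; rw [e _ _ hx, hs.e2]),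
      fun x hx => ⟨fun _ _ => by simp, hx⟩, fun _ _ k => k⟩
  have bj := stackIso k (fun _ _ k => k) (fun y hy => by
    obtain ⟨g, hg⟩ := hs.surj fun j => ⟨y.1 j, mem_sphere_zero_iff_norm.2 (hy.1 j (by simp))⟩
    refine ⟨g, c.act g⁻¹ y.2, hc.inv _ _ hy.2, Prod.ext (funext fun j => ?_) (c.act_inv' _ _)⟩
    change (τ g j : ℂ) * 1 = _
    rw [hg, mul_one]) (fun x hx x' hx' g m => by
      have m1 : τ g = 1 := funext fun j => Circle.ext (by
        have := congrFun (congrArg Prod.fst m) j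
        exact (mul_one _).symm.trans this)
      exact ⟨σ g, ⟨hs.e3 g m1, (e g x hx).symm.trans (congrArg Prod.snd m)⟩,
        fun g' m' => by rw [← m'.1, hs.e2]⟩) fun K hK cK =>
    isCompact_of_retr (by fun_prop) continuous_snd (fun _ => rfl) cK fun y m => (hK m).2
  refine (Function.Bijective.of_comp_iff' bj _).1 ?_
  convert Function.bijective_id using 1
  funext x
  rw [Function.comp_apply, gp_comp (tV_gadm h e ∅) k (χ := id) (fun g => (hs.e2 g).symm) (k := id)
    (fun _ _ => rfl), gp_id h]; rfl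

theorem tV_gys (hc : c.Pr U Z) {S : Finset P} {j : P} (hj : j ∉ S) :
    Gys ((Act.dg (tC τ)).prod c) (tV U (insert j S)) (Prod.snd ⁻¹' Z) (tV U S) (eu (tC τ j)) :=
  gysin_dg (isChar_tC τ) (i := fun _ : Unit => j) (fun _ _ _ => rfl) (tV_pr hc _)
    (fun v v' x m k => ⟨fun i hi => (congrArg norm (m i (by
      rintro ⟨_, rfl⟩; exact hi (Finset.mem_insert_self _ _)))).symm.trans (k.1 i hi), k.2⟩)
    fun y => ⟨fun k => ⟨⟨fun i hi => k.1 i fun m => hi (Finset.mem_insert_of_mem m), k.2⟩,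
      (nsq_unit _).2 (k.1 j hj)⟩, fun k => ⟨fun i hi => by
        by_cases m : i = j
        · exact m ▸ (nsq_unit _).1 k.2
        · exact k.1.1 i (by simp [m, hi]), k.1.2⟩⟩

/-- monomials times pull-backs -/
def mL {X' : Type} [TopologicalSpace X'] (a : Act G X) (b : Act G' X') (τ : G'.H → (Gp.tor P).H)
    [IsHom τ] (σ : G'.H → G.H) (f : X' → X) (U Z : Set X) (V W : Set X') (m : P →₀ ℕ) :
    EH a U Z →ₗ[ℂ] EH b V W :=
  sm (gpt τ (pol P (MvPolynomial.monomial m 1))) ∘ₗ gp b σ f V W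

section

variable {b : Act G' Y} [b.Ok] {f : Y → X} {V W : Set Y}

omit [IsHom σ] [IsHom ι] in
theorem mL_apply (m : P →₀ ℕ) (x : EH a U Z) : mL a b τ σ f U Z V W m x =
    sm (gpt τ (pol P (MvPolynomial.monomial m 1))) (gp b σ f V W x) := rfl

theorem gp_mL {Y' : Type} [TopologicalSpace Y'] [T3Space Y'] [SecondCountableTopology Y']
    {b' : Act G' Y'} [b'.Ok] {f' : Y' → Y} {V' W' : Set Y'} (k : GAdm b a σ f V W U Z)
    (k' : GAdm b' b id f' V' W' V W) {f'' : Y' → X} (e : ∀ y ∈ V', f'' y = f (f' y)) (m : P →₀ ℕ) :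
    gp b' id f' V' W' ∘ₗ mL a b τ σ f U Z V W m = mL a b' τ σ f'' U Z V' W' m :=
  LinearMap.ext fun x => by
    rw [LinearMap.comp_apply, mL_apply, mL_apply, gp_sm k', gpt_id,
      gp_comp k k' (χ := σ) (fun _ => rfl) e]

omit [IsHom σ] [IsHom ι] in
theorem sm_mL (h : b.Pr V W) (m m' : P →₀ ℕ) (x : EH a U Z) :
    sm (gpt τ (pol P (MvPolynomial.monomial m' 1))) (mL a b τ σ f U Z V W m x) =
      mL a b τ σ f U Z V W (m + m') x := by
  rw [mL_apply, mL_apply, ← sm_mul h, ← map_mul, ← map_mul, MvPolynomial.monomial_mul, add_comm,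
    one_mul]

omit [IsHom σ] [IsHom ι] in
theorem isDeg_mL (m : P →₀ ℕ) (p : ℤ) (x : EH a U Z) (hx : IsDeg p x) :
    IsDeg (p + 2 * (m.degree : ℕ)) (mL a b τ σ f U Z V W m x) :=
  add_comm p _ ▸ ((isDeg_pol_mono m 1).gp _ _).sm (hx.gp _ _)

omit [IsHom σ] [IsHom ι] in
theorem mL_zero (h : b.Pr V W) : mL a b τ σ f U Z V W 0 = gp b σ f V W :=
  LinearMap.ext fun x => by
    rw [mL_apply, MvPolynomial.monomial_zero', map_one, map_one, map_one, sm_one h]

end

theorem eu_tC (j : P) :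
    eu (tC τ j) = gpt τ (pol P (MvPolynomial.monomial (Finsupp.single j 1) 1)) := by
  rw [← MvPolynomial.X, pol_X, gpt_eu (isChar_coord j)]; rfl

theorem tV_free (hs : Spl τ σ ι) (h : a.Pr U Z) (e : ∀ g, ∀ x ∈ U, c.act g x = a.act (σ g) x)
    (S : Finset P) : spn {m | ∀ j ∉ S, m j = 0}
      (mL a ((Act.dg (tC τ)).prod c) τ σ Prod.snd U Z (tV U S) (Prod.snd ⁻¹' Z)) = ⊤ ∧
    Indep {m | ∀ j ∉ S, m j = 0}
      (mL a ((Act.dg (tC τ)).prod c) τ σ Prod.snd U Z (tV U S) (Prod.snd ⁻¹' Z)) := by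
  have hc := pr_of_eq h e
  induction S using Finset.induction_on with
  | empty =>
    have bj := tV_empty hs h e
    rw [← mL_zero (τ := τ) (tV_pr hc ∅)] at bj
    have : {m : P →₀ ℕ | ∀ j ∉ (∅ : Finset P), m j = 0} = {0} := by
      ext m; simp [Finsupp.ext_iff]
    rw [this]
    exact ⟨spn_single bj.2, indep_single bj.1⟩
  | insert j S hj ih =>
    have gy := tV_gys (τ := τ) hc hj
    have e1 := funext (gp_mL (τ := τ) (tV_gadm h e _) gy.adm (f'' := Prod.snd) fun _ _ => rfl)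
    have e2 : ∀ m, sm (eu (tC τ j)) ∘ₗ mL a ((Act.dg (tC τ)).prod c) τ σ Prod.snd U Z
        (tV U (insert j S)) (Prod.snd ⁻¹' Z) m = mL a ((Act.dg (tC τ)).prod c) τ σ Prod.snd U Z
        (tV U (insert j S)) (Prod.snd ⁻¹' Z) (m + Finsupp.single j 1) :=
      fun m => LinearMap.ext fun x => by
        rw [LinearMap.comp_apply, eu_tC, sm_mL (tV_pr hc _)]
    have hI : ∀ (m : P →₀ ℕ) k, m + Finsupp.single j k ∈ {m : P →₀ ℕ | ∀ i ∉ insert j S, m i = 0}
        ↔ m ∈ {m : P →₀ ℕ | ∀ i ∉ insert j S, m i = 0} := fun m k =>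
      forall₂_congr fun i hi => by
        rw [Finsupp.add_apply, Finsupp.single_eq_of_ne fun m => hi (by simp [m]), add_zero]
    have e3 : {m ∈ {m : P →₀ ℕ | ∀ i ∉ insert j S, m i = 0} | m j = 0} =
        {m | ∀ i ∉ S, m i = 0} := Set.ext fun m =>
      ⟨fun k i hi => by
        by_cases m : i = j
        · exact m ▸ k.2
        · exact k.1 i (by simp [m, hi]),
      fun k => ⟨fun i hi => k i fun m => hi (Finset.mem_insert_of_mem m), k j hj⟩⟩
    rw [← e1, ← e3] at ih
    refine ⟨spn_adjoin hI (fun m => ⟨_, isDeg_mL m⟩)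
      (fun p x hx => add_comm p _ ▸ (isDeg_eu0 (isChar_tC τ j)).sm hx) (fun y => (gy.ker y).1) e2
      ih.1, indep_adjoin hI (gy.iff.1 fun y => ?_) (fun y => (gy.ker _).2 ⟨y, rfl⟩) e2 ih.2⟩
    have := ih.1
    rw [spn_comp] at this
    obtain ⟨y', -, k⟩ := this.ge (Submodule.mem_top (x := y))
    exact ⟨y', k⟩

theorem adj_free (hs : Spl τ σ ι) (h : a.Pr U Z) (e : ∀ g, ∀ x ∈ U, c.act g x = a.act (σ g) x) :
    spn univ (mL a c τ σ id U Z U Z) = ⊤ ∧ Indep univ (mL a c τ σ id U Z U Z) := by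
  have hc := pr_of_eq h e
  have eV : tV U (Finset.univ : Finset P) = Prod.snd ⁻¹' U := Set.ext fun y => by simp [tV]
  have := tV_free hs h e Finset.univ
  rw [eV, ← funext (gp_mL (τ := τ) ⟨hc, h, continuousOn_id, e, fun _ m => m, fun _ _ m => m⟩
    ((fib_prod (ρ := Act.dg (tC τ)) hc).gadm hc) (f'' := Prod.snd) fun _ _ => rfl),
    show {m : P →₀ ℕ | ∀ j ∉ Finset.univ, m j = 0} = univ by simp] at this
  exact ⟨spn_top_of_comp ((fib_prod hc).bij hc).1 this.1, this.2.of_comp⟩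

end

end Pool.Agent.Work.MP_849ab0_ag.G
end
end

-- merged part: Pool.Agent.Work.MP_849ab0_ag.G.GrpPol
section
/-! The cohomology of the classifying space of a torus. -/

noncomputable section

set_option linter.unusedSectionVars false
set_option linter.unusedVariables false

namespace Pool.Agent.Work.MP_849ab0_ag.G

open Set Topology Matrix

theorem bij_of_free {S A B P : Type} [CommRing S] [AddCommGroup A] [Module ℂ A] [AddCommGroup B]
    [Module ℂ B] {Φ : S →+ A} (hΦ : Function.Bijective Φ) {Ψ : MvPolynomial P S →+ B}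
    {L : (P →₀ ℕ) → A →ₗ[ℂ] B} (h : ∀ m s, L m (Φ s) = Ψ (MvPolynomial.monomial m s))
    (hs : spn univ L = ⊤ ∧ Indep univ L) : Function.Bijective Ψ := by
  classical
  refine ⟨(injective_iff_map_eq_zero _).2 fun f e => ?_, fun y => ?_⟩
  · have := hs.2 (∑ m ∈ f.support, Finsupp.single m (Φ (f.coeff m))) (fun _ k => (k trivial).elim)
      (by simp only [map_sum, Finsupp.lsum_single, h]; rw [← map_sum, ← f.as_sum, e])
    refine MvPolynomial.ext _ _ fun m => hΦ.1 ?_
    have := DFunLike.congr_fun this m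
    rw [Finsupp.finsetSum_apply, Finset.sum_eq_single m (fun _ _ k => Finsupp.single_eq_of_ne k.symm)
      (fun k => by simp [MvPolynomial.notMem_support_iff.1 k]), Finsupp.single_eq_same] at this
    simpa using this
  · obtain ⟨z, -, rfl⟩ := mem_spn_iff.1 (hs.1.ge (Submodule.mem_top (x := y)))
    choose s hs using hΦ.2
    exact ⟨∑ m ∈ z.support, MvPolynomial.monomial m (s (z m)), by
      simp only [map_sum, ← h, hs]; rfl⟩

theorem hpt_one0 (c : HPt Gp.one) : ∃ z : ℂ, c = z • (1 : HPt Gp.one) := by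
  have key : ∀ {S : Type} [TopologicalSpace S] {V W : Set S} {x : S}, V = {x} → x ∈ W →
      ∀ c : H V W, ∃ z : ℂ, c = z • cls V W onec := by
    rintro S _ V W x rfl hx c
    exact ⟨_, pt_eq hx c⟩
  obtain ⟨e⟩ : Nonempty (Fm Gp.one.ι) := inferInstance
  refine key (x := (Act.pt Gp.one).bmk e ()) (Set.ext fun p => ⟨?_, ?_⟩)
    (Act.bs_univ.ge trivial) c
  · rintro ⟨e', x, -, rfl⟩
    rw [show e' = e from Subtype.ext (Matrix.ext fun i => i.elim)]; rfl
  · rintro rfl
    exact ⟨e, (), trivial, rfl⟩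

variable {G G' : Gp} [G.Nice] [G'.Nice] {X Y : Type}
  [TopologicalSpace X] [T3Space X] [SecondCountableTopology X]
  [TopologicalSpace Y] [T3Space Y] [SecondCountableTopology Y]
  {a : Act G X} [a.Ok] {U Z : Set X}
  {κ κ' P C : Type} [Fintype κ] [DecidableEq κ] [Fintype κ'] [DecidableEq κ'] [Fintype P]
  [DecidableEq P]

instance : IsHom (G := Gp.tor κ) (G' := Gp.tor κ) id := IsHom.id

instance : IsHom (G := (Gp.tor P).prod G) (G' := G) fun g => (1, g) := IsHom.inr

instance : IsHom (G := Gp.tor P) (G' := (Gp.tor P).prod G) Prod.fst := IsHom.fst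

instance : IsHom (G := Gp.tor P) (G' := G.prod (Gp.tor P)) Prod.snd := IsHom.snd

theorem spl_tor : Spl (G := Gp.one) (G' := Gp.tor κ) id (fun _ => 1) fun _ => 1 :=
  ⟨fun _ => rfl, fun _ => Subsingleton.elim _ _, fun _ h => h.symm, Function.surjective_id⟩

theorem spl_prod : Spl (G := G) (G' := (Gp.tor P).prod G) Prod.fst Prod.snd fun g => (1, g) :=
  ⟨fun _ => rfl, fun _ => rfl, fun _ h => Prod.ext h.symm rfl, Prod.fst_surjective⟩

theorem pol_bij : Function.Bijective (pol κ) :=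
  bij_of_free (Φ := (LinearMap.toSpanSingleton ℂ _ (1 : HPt Gp.one)).toAddMonoidHom)
    ⟨smul_left_injective ℂ one_ne_zero_pt, fun c => (hpt_one0 c).imp fun _ => Eq.symm⟩
    (Ψ := (pol κ).toLinearMap.toAddMonoidHom) (fun m s => by
      change mL _ _ id _ id _ _ _ _ m (s • 1) = pol κ _
      rw [map_smul, mL_apply, gpt_id, sm_pt,
        show gp (Act.pt (Gp.tor κ)) (fun _ => 1) id univ univ 1 = 1 from map_one (gpt _), mul_one,
        ← map_smul, MvPolynomial.smul_monomial, smul_eq_mul, mul_one])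
    (adj_free spl_tor (Act.pr_pt _) (c := Act.pt _) fun _ _ _ => rfl)

theorem isChar_one : IsChar (G := G) fun _ => 1 :=
  ⟨fun _ _ => (one_mul _).symm, continuous_const, fun _ => norm_one⟩

theorem eu_one0 : eu (G := G) (fun _ => 1) = 0 := by
  obtain ⟨z, e⟩ := hpt_one0 (eu fun _ => 1)
  have : eu (G := Gp.one) (fun _ => 1) = 0 :=
    (isDeg_eu0 isChar_one).eq_zero_of_ne (e ▸ isDeg_one'.smul z) (by norm_num)
  rw [← gpt_eu (φ := fun _ : G.H => (1 : Gp.one.H)) isChar_one, this, map_zero]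

theorem eu_mul_univ : eu (G := Gp.tor Bool) (fun g => g true * g false) =
    eu (G := Gp.tor Bool) (fun g => g true) + eu (G := Gp.tor Bool) fun g => g false := by
  have h := (isChar_coord true).mul' (isChar_coord false)
  obtain ⟨f, e⟩ := pol_bij.2 (eu (G := Gp.tor Bool) fun g => g true * g false)
  have hf : f.IsHomogeneous 1 := by
    rcases (isDeg_alg_iff isDeg_pol_X pol_bij.1).1 (e ▸ isDeg_eu0 h) with rfl | ⟨d, k, k'⟩
    · exact MvPolynomial.isHomogeneous_zero _ _ _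
    · rwa [show d = 1 by omega] at k'
  rw [← MvPolynomial.mem_homogeneousSubmodule, MvPolynomial.homogeneousSubmodule_one_eq_span_X,
    Submodule.mem_span_range_iff_exists_fun] at hf
  obtain ⟨c, rfl⟩ := hf
  rw [Fintype.sum_bool, map_add, map_smul, map_smul, pol_X, pol_X] at e
  have hx : eu (G := Gp.tor Unit) (fun g => g ()) ≠ 0 := fun k =>
    MvPolynomial.X_ne_zero (R := ℂ) () (pol_bij.1 (by rw [pol_X, k, map_zero]))
  have hh : ∀ b : Bool, IsHom (G := Gp.tor Bool) (G' := Gp.tor Unit)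
      fun g i => if i = b then g () else 1 := fun b =>
    ⟨fun g g' => funext fun i => by by_cases k : i = b <;> simp [k], continuous_pi fun i => by
      by_cases k : i = b
      · simpa [k] using continuous_apply ()
      · simpa [k] using continuous_const⟩
  have h1 : c true = 1 := by
    have := hh true
    have := congrArg (gpt (G := Gp.tor Bool) (G' := Gp.tor Unit)
      fun g i => if i = true then g () else 1) e
    rw [map_add, map_smul, map_smul, gpt_eu h, gpt_eu (isChar_coord _), gpt_eu (isChar_coord _)]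
      at this
    simp only [if_true, Bool.false_eq_true, if_false, Circle.coe_one, mul_one, eu_one0, smul_zero,
      add_zero] at this
    exact smul_left_injective ℂ hx (this.trans (one_smul _ _).symm)
  have h2 : c false = 1 := by
    have := hh false
    have := congrArg (gpt (G := Gp.tor Bool) (G' := Gp.tor Unit)
      fun g i => if i = false then g () else 1) e
    rw [map_add, map_smul, map_smul, gpt_eu h, gpt_eu (isChar_coord _), gpt_eu (isChar_coord _)]
      at this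
    simp only [if_true, Bool.true_eq_false, if_false, Circle.coe_one, one_mul, eu_one0, smul_zero,
      zero_add] at this
    exact smul_left_injective ℂ hx (this.trans (one_smul _ _).symm)
  rw [← e, h1, h2, one_smul, one_smul]

/-- a character as a homomorphism to the circle -/
def IsChar.circ {χ : G.H → ℂ} (h : IsChar χ) (g : G.H) : Circle :=
  ⟨χ g, mem_sphere_zero_iff_norm.2 (h.norm g)⟩

theorem IsChar.circ_mul {χ : G.H → ℂ} (h : IsChar χ) (g g' : G.H) :
    h.circ (g * g') = h.circ g * h.circ g' := Circle.ext (h.mul g g')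

theorem IsChar.cont_circ {χ : G.H → ℂ} (h : IsChar χ) : Continuous h.circ := h.cont.subtype_mk _

theorem isHom_tor {χ : κ → G.H → ℂ} (h : ∀ j, IsChar (χ j)) :
    IsHom (G := Gp.tor κ) fun g j => (h j).circ g :=
  ⟨fun g g' => funext fun j => (h j).circ_mul g g', continuous_pi fun j => (h j).cont_circ⟩

theorem eu_mul {χ χ' : G.H → ℂ} (h : IsChar χ) (h' : IsChar χ') :
    eu (fun g => χ g * χ' g) = eu χ + eu χ' := by
  have hh : ∀ b : Bool, IsChar (Bool.rec χ' χ b) := fun b => by cases b <;> assumption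
  have := isHom_tor hh
  have := congrArg (gpt (G := Gp.tor Bool) fun g j => (hh j).circ g) eu_mul_univ
  rwa [map_add, gpt_eu ((isChar_coord true).mul' (isChar_coord false)), gpt_eu (isChar_coord _),
    gpt_eu (isChar_coord _)] at this

theorem eu_inv {χ χ' : G.H → ℂ} (h : IsChar χ) (h' : IsChar χ') (e : ∀ g, χ g * χ' g = 1) :
    eu χ' = -eu χ := by
  have := eu_mul h h'
  simp only [e, eu_one0] at this
  exact eq_neg_of_add_eq_zero_right this.symm

theorem pol_lf (m : κ → ℤ) : pol κ (lf ℂ m) = eu (G := Gp.tor κ) (chr m) := by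
  let E : (κ → ℤ) →+ HPt (Gp.tor κ) := AddMonoidHom.mk' (fun m => eu (G := Gp.tor κ) (chr m))
    fun m m' => by rw [← eu_mul (isChar_chr m) (isChar_chr m'), ← funext (chr_add m m')]
  change _ = E m
  conv_rhs => rw [← Finset.univ_sum_single m]
  rw [lf, map_sum, map_sum]
  refine Finset.sum_congr rfl fun j _ => ?_
  have : (Pi.single j (m j) : κ → ℤ) = m j • Pi.single j (1 : ℤ) := by
    rw [← Pi.single_smul, smul_eq_mul, mul_one]
  rw [← zsmul_eq_mul, map_zsmul, pol_X, this, map_zsmul, ← funext (chr_single j)]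
  rfl

theorem euc_dg_prod {J : Type} [Fintype J] {χ : J → G.H → ℂ} (h : ∀ j, IsChar (χ j)) :
    euc (Act.dg χ) = (∏ j, (⟨eu (χ j), ev_eu (h j)⟩ : evS G) : evS G) := by
  revert χ
  refine Fintype.induction_empty_option (P := fun J _ => ∀ {χ : J → G.H → ℂ}
    (h : ∀ j, IsChar (χ j)), euc (Act.dg χ) = (∏ j, (⟨eu (χ j), ev_eu (h j)⟩ : evS G) : evS G))
    (fun α β _ e ih χ h => ?_) (fun {χ} h => ?_) (fun α _ ih χ h => ?_) J
  · let _ := Fintype.ofEquiv β e.symm
    have := Act.rep_dg h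
    have := Act.rep_dg (χ := χ ∘ e) fun j => h (e j)
    rw [← e.prod_comp]
    exact (eul_equiv (eadm_zero (Act.pr_pt G)) e fun _ _ => rfl).symm.trans
      (ih (χ := χ ∘ e) fun j => h (e j))
  · have := Act.rep_dg h
    rw [Fintype.prod_empty]
    exact eul_isEmpty (Act.pr_pt G)
  · let e : Unit ⊕ α ≃ Option α := (Equiv.sumComm _ _).trans (Equiv.optionEquivSumPUnit α).symm
    have := Act.rep_dg h
    have := Act.rep_dg (χ := χ ∘ e ∘ Sum.inl) fun j => h _
    have := Act.rep_dg (χ := χ ∘ e ∘ Sum.inr) fun j => h _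
    rw [euc_sum (isSum_dg χ e), ih (χ := χ ∘ e ∘ Sum.inr) fun j => h _, Fintype.prod_option]
    rfl

/-- an algebra map with even values -/
theorem alg_prod {A J : Type} [CommRing A] (F : A →+* HPt G) (hF : ∀ x, Ev (F x)) (s : Finset J)
    (f : J → A) : F (∏ j ∈ s, f j) = (∏ j ∈ s, (⟨F (f j), hF _⟩ : evS G) : evS G) :=
  congrArg Subtype.val (map_prod (F.codRestrict (evS G) hF) f s)

theorem euc_dg_eq {A J : Type} [CommRing A] [Fintype J] (F : A →+* HPt G) (hF : ∀ x, Ev (F x))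
    {χ : J → G.H → ℂ} (h : ∀ j, IsChar (χ j)) {f : J → A} (e : ∀ j, F (f j) = eu (χ j)) :
    euc (Act.dg χ) = F (∏ j, f j) := by
  rw [euc_dg_prod h, alg_prod F hF]
  simp only [e]

theorem euc_dg {J : Type} [Fintype J] (m : J → κ → ℤ) :
    euc (Act.dg (G := Gp.tor κ) fun j => chr (m j)) = pol κ (∏ j, lf ℂ (m j)) :=
  euc_dg_eq (pol κ).toRingHom ev_pol (fun j => isChar_chr (m j)) fun j => pol_lf (m j)

/-- polynomials in the first factor of `T × G` -/
def polx (P : Type) [Fintype P] [DecidableEq P] (G : Gp) [G.Nice] :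
    MvPolynomial P ℂ →ₐ[ℂ] HPt ((Gp.tor P).prod G) := (gpt Prod.fst).comp (pol P)

theorem ev_polx0 (f : MvPolynomial P ℂ) : Ev (polx P G f) := (ev_pol f).gp _ _

theorem polx_X (j : P) : polx P G (MvPolynomial.X j) =
    eu (G := (Gp.tor P).prod G) fun g => (g.1 j : ℂ) := by
  rw [polx, AlgHom.comp_apply, pol_X, gpt_eu (isChar_coord j)]

/-- polynomials over the even classes of the second factor -/
def polE (P : Type) [Fintype P] [DecidableEq P] (G : Gp) [G.Nice] {S : Type} [CommRing S]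
    (F : S →+* HPt G) (hF : ∀ s, Ev (F s)) : MvPolynomial P S →+* HPt ((Gp.tor P).prod G) :=
  (evS _).val.toRingHom.comp (MvPolynomial.eval₂Hom
    (((gpt Prod.snd).toRingHom.comp F).codRestrict (evS _) fun s => (hF s).gp _ _)
    fun j => ⟨polx P G (MvPolynomial.X j), ev_polx0 _⟩)

section

variable {S : Type} [CommRing S] {F : S →+* HPt G} {hF : ∀ s, Ev (F s)}

theorem polE_C (s : S) : polE P G F hF (MvPolynomial.C s) = gpt Prod.snd (F s) := by
  simp [polE]

theorem polE_X (j : P) : polE P G F hF (MvPolynomial.X j) = polx P G (MvPolynomial.X j) := by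
  simp [polE]

theorem ev_polE (f : MvPolynomial P S) : Ev (polE P G F hF f) := Subtype.property _

theorem polE_mono (m : P →₀ ℕ) (s : S) : polE P G F hF (MvPolynomial.monomial m s) =
    polx P G (MvPolynomial.monomial m 1) * gpt Prod.snd (F s) := by
  have : ∀ m : P →₀ ℕ, polE P G F hF (MvPolynomial.monomial m 1) =
      polx P G (MvPolynomial.monomial m 1) := fun m => by
    induction m using Finsupp.induction_linear with
    | zero => simp
    | add m m' h h' =>
      rw [← mul_one (1 : S), ← mul_one (1 : ℂ), ← MvPolynomial.monomial_mul,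
        ← MvPolynomial.monomial_mul, map_mul, map_mul, h, h']
    | single j n =>
      rw [← MvPolynomial.X_pow_eq_monomial, ← MvPolynomial.X_pow_eq_monomial, map_pow, map_pow,
        polE_X]
  rw [← this, ← polE_C (hF := hF), ← map_mul, mul_comm, MvPolynomial.C_mul_monomial, mul_one]

theorem polE_mL (m : P →₀ ℕ) (c : HPt G) : mL (Act.pt G) (Act.pt ((Gp.tor P).prod G)) Prod.fst
    Prod.snd id univ univ univ univ m c = polx P G (MvPolynomial.monomial m 1) * gpt Prod.snd c :=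
  sm_pt _ _

theorem polE_bij (h : Function.Bijective F) : Function.Bijective (polE P G F hF) :=
  bij_of_free (Φ := F.toAddMonoidHom) h (Ψ := (polE P G F hF).toAddMonoidHom)
    (fun m s => (polE_mL m _).trans (polE_mono (hF := hF) m s).symm)
    (adj_free spl_prod (Act.pr_pt _) (c := Act.pt _) fun _ _ _ => rfl)

end

/-- the cohomology of `B (T_K × T)` -/
def pol2 (P κ : Type) [Fintype P] [DecidableEq P] [Fintype κ] [DecidableEq κ] :
    MvPolynomial P (MvPolynomial κ ℂ) →+* HPt ((Gp.tor P).prod (Gp.tor κ)) :=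
  polE P _ (pol κ).toRingHom ev_pol

theorem pol2_C (s : MvPolynomial κ ℂ) :
    pol2 P κ (MvPolynomial.C s) = gpt Prod.snd (pol κ s) := polE_C s

theorem pol2_X (j : P) : pol2 P κ (MvPolynomial.X j) = polx P _ (MvPolynomial.X j) := polE_X j

theorem pol2_map (f : MvPolynomial P ℂ) :
    pol2 P κ (MvPolynomial.map MvPolynomial.C f) = polx P _ f := by
  induction f using MvPolynomial.induction_on with
  | C r =>
    rw [MvPolynomial.map_C, pol2_C, ← MvPolynomial.algebraMap_eq, ← MvPolynomial.algebraMap_eq,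
      AlgHom.commutes, AlgHom.commutes, AlgHom.commutes]
  | add f g h h' => rw [map_add, map_add, map_add, h, h']
  | mul_X f j h => rw [map_mul, map_mul, map_mul, h, MvPolynomial.map_X, pol2_X]

theorem pol2_bij : Function.Bijective (pol2 P κ) := polE_bij pol_bij

theorem ev_pol2 (f : MvPolynomial P (MvPolynomial κ ℂ)) : Ev (pol2 P κ f) := ev_polE f

theorem isChar_chr2 (m : P → ℤ) (m' : κ → ℤ) : IsChar (G := (Gp.tor P).prod (Gp.tor κ))
    fun g => chr m g.1 * chr m' g.2 :=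
  ((isChar_chr m).comp (G' := (Gp.tor P).prod (Gp.tor κ)) Prod.fst).mul'
    ((isChar_chr m').comp (G' := (Gp.tor P).prod (Gp.tor κ)) Prod.snd)

theorem pol2_lf (m : P → ℤ) (m' : κ → ℤ) :
    pol2 P κ (lf _ m + MvPolynomial.C (lf ℂ m')) =
      eu fun g : (P → Circle) × (κ → Circle) => chr m g.1 * chr m' g.2 := by
  have : lf (MvPolynomial κ ℂ) m = MvPolynomial.map MvPolynomial.C (lf ℂ m) := by simp [lf]
  rw [map_add, this, pol2_map, pol2_C, polx, AlgHom.comp_apply, pol_lf, pol_lf,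
    gpt_eu (isChar_chr m), gpt_eu (isChar_chr m')]
  exact (eu_mul ((isChar_chr m).comp (G' := (Gp.tor P).prod (Gp.tor κ)) Prod.fst)
    ((isChar_chr m').comp (G' := (Gp.tor P).prod (Gp.tor κ)) Prod.snd)).symm

theorem euc_dg2 {J : Type} [Fintype J] (m : J → P → ℤ) (m' : J → κ → ℤ) :
    euc (Act.dg (G := (Gp.tor P).prod (Gp.tor κ)) fun j g => chr (m j) g.1 * chr (m' j) g.2) =
      pol2 P κ (∏ j, (lf _ (m j) + MvPolynomial.C (lf ℂ (m' j)))) :=
  euc_dg_eq (pol2 P κ) ev_pol2 (fun j => isChar_chr2 (m j) (m' j)) fun j => pol2_lf (m j) (m' j)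

theorem isDeg_pol2 {f : MvPolynomial P (MvPolynomial κ ℂ)} {p : ℤ} :
    IsDeg p (pol2 P κ f) ↔ f = 0 ∨ ∃ d : ℕ, p = 2 * d ∧
      ((MvPolynomial.sumAlgEquiv ℂ P κ).symm f).IsHomogeneous d := by
  let Ψ : MvPolynomial (P ⊕ κ) ℂ →ₐ[ℂ] HPt ((Gp.tor P).prod (Gp.tor κ)) :=
    { (pol2 P κ).comp (MvPolynomial.sumAlgEquiv ℂ P κ).toRingEquiv.toRingHom with
      commutes' := fun r => by
        change pol2 P κ (MvPolynomial.sumAlgEquiv ℂ P κ (MvPolynomial.C r)) = _
        rw [MvPolynomial.sumAlgEquiv_C_inl, pol2_C, ← MvPolynomial.algebraMap_eq, AlgHom.commutes,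
          AlgHom.commutes] }
  have e : ∀ g, Ψ g = pol2 P κ (MvPolynomial.sumAlgEquiv ℂ P κ g) := fun _ => rfl
  have := isDeg_alg_iff (Ψ := Ψ) (fun j => by
    rw [e]
    cases j with
    | inl j => rw [MvPolynomial.sumAlgEquiv_X_inl, pol2_X]; exact (isDeg_pol_X j).gp _ _
    | inr j => rw [MvPolynomial.sumAlgEquiv_X_inr, pol2_C]; exact (isDeg_pol_X j).gp _ _)
    (pol2_bij.1.comp (MvPolynomial.sumAlgEquiv ℂ P κ).injective)
    (f := (MvPolynomial.sumAlgEquiv ℂ P κ).symm f) (p := p)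
  rwa [e, AlgEquiv.apply_symm_apply, map_eq_zero_iff _ (AlgEquiv.injective _)] at this

end Pool.Agent.Work.MP_849ab0_ag.G
end
end

-- merged part: Pool.Agent.Work.MP_849ab0_ag.G.GrpSph
section
/-! Projective bundles and products of spheres. -/

noncomputable section

set_option linter.unusedSectionVars false
set_option linter.unusedVariables false

namespace Pool.Agent.Work.MP_849ab0_ag.G

open Set Topology Matrix

section

variable {A B ι K : Type} [AddCommGroup A] [Module ℂ A] [AddCommGroup B] [Module ℂ B] [Fintype K]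
  {I : Set ι} {L : ι → A →ₗ[ℂ] B} {e : K → ι}

theorem spn_fin (he : Function.Injective e) (hI : I ⊆ range e) (h : spn I L = ⊤) (y : B) :
    ∃ z : K → A, y = ∑ k, L (e k) (z k) := by
  classical
  obtain ⟨z, h1, rfl⟩ := mem_spn_iff.1 (h.ge (Submodule.mem_top (x := y)))
  refine ⟨fun k => z (e k), ?_⟩
  rw [Finsupp.lsum_apply, Finsupp.sum_of_support_subset z (s := Finset.univ.image e)
    (fun i hi => by
      obtain ⟨k, rfl⟩ := hI (by_contra fun m => Finsupp.mem_support_iff.1 hi (h1 i m))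
      simp) _ fun _ _ => map_zero _, Finset.sum_image he.injOn]

theorem indep_fin (he : Function.Injective e) (hI : range e ⊆ I) (h : Indep I L) {z : K → A}
    (hz : ∑ k, L (e k) (z k) = 0) : z = 0 := by
  classical
  have := h (∑ k, Finsupp.single (e k) (z k)) (fun i hi => by
    rw [Finsupp.finsetSum_apply]
    exact Finset.sum_eq_zero fun k _ => Finsupp.single_eq_of_ne fun m => hi (hI ⟨k, m.symm⟩))
    (by simpa using hz)
  funext k
  have := DFunLike.congr_fun this (e k)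
  rwa [Finsupp.finsetSum_apply, Finset.sum_eq_single k
    (fun _ _ m => Finsupp.single_eq_of_ne (he.ne m.symm)) (by simp), Finsupp.single_eq_same] at this

end

variable {G G' : Gp} [G.Nice] [G'.Nice] {X Y : Type}
  [TopologicalSpace X] [T3Space X] [SecondCountableTopology X]
  [TopologicalSpace Y] [T3Space Y] [SecondCountableTopology Y]
  {a : Act G X} [a.Ok] {U Z : Set X}
  {κ κ' P C : Type} [Fintype κ] [DecidableEq κ] [Fintype κ'] [DecidableEq κ'] [Fintype P]
  [DecidableEq P]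

theorem gpt_one_eq_zero {c : HPt G} {p : ℤ} (h : IsDeg p c) (hp : p ≠ 0) :
    gpt (fun _ : G'.H => (1 : G.H)) c = 0 := by
  obtain ⟨z, e⟩ := hpt_one0 (gpt (fun _ => 1) c)
  have : gpt (fun _ : Gp.one.H => (1 : G.H)) c = 0 :=
    IsDeg.eq_zero_of_ne (h.gp _ _) (e ▸ isDeg_one'.smul z) hp
  rw [← gpt_comp (φ := fun _ : Gp.one.H => (1 : G.H)) (ψ := fun _ => 1) (fun _ => rfl), this,
    map_zero]

instance : IsHom (G := (Gp.tor P).prod G) (G' := Gp.tor P) fun g => (g, 1) := IsHom.inl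

theorem gpt_polx0 {φ : G'.H → ((Gp.tor P).prod G).H} [IsHom φ] {τ : G'.H → (Gp.tor P).H} [IsHom τ]
    (e : ∀ g, τ g = (φ g).1) (f : MvPolynomial P ℂ) : gpt φ (polx P G f) = gpt τ (pol P f) :=
  gpt_comp e _

/-- the Euler class is monic in the weight of the scalar circle -/
theorem euc_scal {J : Type} [Fintype J] (ρ : Act G (J → ℂ)) [ρ.Rep] :
    ∃ c : ℕ → HPt G, (∀ i, Ev (c i)) ∧ euc ρ.scal =
      polx Unit G (MvPolynomial.X () ^ Fintype.card J) + ∑ i ∈ Finset.range (Fintype.card J),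
        polx Unit G (MvPolynomial.X () ^ i) * gpt Prod.snd (c i) := by
  classical
  obtain ⟨z, -, e⟩ := mem_spn_iff.1 ((adj_free (P := Unit) spl_prod (Act.pr_pt G) (c := Act.pt _)
    fun _ _ _ => rfl).1.ge (Submodule.mem_top (x := euc ρ.scal)))
  set n := Fintype.card J
  let c : ℕ → HPt G := fun i => prj {2 * (n : ℤ) - 2 * i} (z (Finsupp.single () i))
  have hc : ∀ i : ℕ, IsDeg (2 * (n : ℤ) - 2 * i) (c i) := fun i => isDeg_prj _ _
  have e1 : euc ρ.scal = ∑ i ∈ Finset.range (n + 1),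
      polx Unit G (MvPolynomial.X () ^ i) * gpt Prod.snd (c i) := by
    rw [← isDeg_iff.1 (isDeg_euc ρ.scal), ← e, Finsupp.lsum_apply, Finsupp.sum, map_sum]
    simp only [MvPolynomial.X_pow_eq_monomial, ← polE_mL]
    refine Eq.trans ?_ ((Finset.sum_image (f := fun m => mL (Act.pt G)
      (Act.pt ((Gp.tor Unit).prod G)) Prod.fst Prod.snd id univ univ univ univ m (c (m ())))
      (g := Finsupp.single ()) (s := Finset.range (n + 1)) (Finsupp.single_injective ()).injOn).trans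
      (by simp only [Finsupp.single_eq_same]))
    have e2 : ∀ m : Unit →₀ ℕ, Finsupp.single () (m ()) = m := fun m => (Finsupp.unique_single m).symm
    have e3 : ∀ m : Unit →₀ ℕ, prj {2 * (n : ℤ)} (mL (Act.pt G) (Act.pt ((Gp.tor Unit).prod G))
        Prod.fst Prod.snd id univ univ univ univ m (z m)) = mL (Act.pt G)
        (Act.pt ((Gp.tor Unit).prod G)) Prod.fst Prod.snd id univ univ univ univ m (c (m ())) := by
      intro m
      simp only [c]
      rw [prj_map (isDeg_mL (a := Act.pt G) (b := Act.pt ((Gp.tor Unit).prod G)) m), e2, ← e2 m, Finsupp.degree_single, Finsupp.single_eq_same,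
        sub_add_cancel]
    refine Finset.sum_congr_of_eq_on_inter (fun m _ k => ?_) (fun m _ k => ?_) fun m _ _ => e3 m
    · rw [e3, (hc _).eq_zero, map_zero]
      have : n + 1 ≤ m () := not_lt.1 fun k' => k (Finset.mem_image.2 ⟨_, Finset.mem_range.2 k', e2 m⟩)
      omega
    · rw [← e3, Finsupp.notMem_support_iff.1 k, map_zero, map_zero]
  obtain ⟨t, ht⟩ := deg0_pt (sub_self (2 * (n : ℤ)) ▸ hc n)
  rw [Finset.sum_range_succ, ht, map_smul, map_one, mul_smul_comm, mul_one, add_comm] at e1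
  have e4 := congrArg (gpt (G := (Gp.tor Unit).prod G) (G' := Gp.tor Unit) fun g => (g, 1)) e1
  rw [map_add, map_sum, Finset.sum_eq_zero, add_zero, map_smul, gpt_polx0 (τ := id) fun _ => rfl,
    gpt_id, euc_res, ← euc_congr (σ := Act.dg fun _ : J => fun g : Unit → Circle => (g () : ℂ))
      (fun g w => by
        change _ = (g () : ℂ) • ρ.act 1 w
        rw [ρ.act_one]; rfl),
    euc_dg_eq (pol Unit).toRingHom ev_pol (fun _ => isChar_coord ())
      (f := fun _ => MvPolynomial.X ()) fun _ => pol_X (), Finset.prod_const] at e4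
  · refine ⟨c, fun i => (hc i).ev (by rw [← mul_sub]; exact even_two_mul _), ?_⟩
    have : t = 1 := smul_left_injective ℂ (fun k => pow_ne_zero n (MvPolynomial.X_ne_zero (R := ℂ) ())
      (pol_bij.1 (k.trans (map_zero _).symm))) (e4.symm.trans (one_smul _ _).symm)
    rw [e1, this, one_smul]
  · intro i hi
    have := Finset.mem_range.1 hi
    rw [map_mul, gpt_comp (χ := fun _ => 1) (fun _ => rfl), gpt_one_eq_zero (hc i) (by omega),
      mul_zero]

section

variable {τ : G'.H → (Gp.tor P).H} {σ : G'.H → G.H} [IsHom τ] [IsHom σ]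
  {b : Act G' Y} [b.Ok] {f : Y → X} {V W S : Set Y}

theorem sm_gpt_mL (k : GAdm b a σ f V W U Z) (c : HPt G) (m : P →₀ ℕ) (x : EH a U Z) :
    sm (gpt σ c) (mL a b τ σ f U Z V W m x) = mL a b τ σ f U Z V W m (sm c x) := by
  rw [mL_apply, mL_apply, gp_sm k, ← sm_mul k.src, ← sm_mul k.src,
    Ev.comm (c := gpt τ _) ((ev_pol _).gp _ _)]

theorem euc_monic {J : Type} [Fintype J] (ρ : Act G (J → ℂ)) [ρ.Rep] (j : P) {ρ' : Act G' (J → ℂ)}
    (h : ∀ g w, ρ'.act g w = (τ g j : ℂ) • ρ.act (σ g) w) : ∃ c : ℕ → HPt G, euc ρ' =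
      gpt τ (pol P (MvPolynomial.X j ^ Fintype.card J)) + ∑ i ∈ Finset.range (Fintype.card J),
        gpt τ (pol P (MvPolynomial.X j ^ i)) * gpt σ (c i) := by
  obtain ⟨c, -, e⟩ := euc_scal ρ
  have hτ : IsHom (G := Gp.tor Unit) (G' := G') fun g _ => τ g j :=
    ⟨fun g g' => funext fun _ => congrFun (IsHom.mul (φ := τ) g g') j,
      continuous_pi fun _ => (continuous_apply j).comp (IsHom.cont (φ := τ))⟩
  let ψ : G'.H → ((Gp.tor Unit).prod G).H := fun g => (fun _ => τ g j, σ g)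
  have hψ : IsHom ψ := hτ.prodMk ‹IsHom σ›
  have e1 : ∀ i : ℕ, gpt ψ (polx Unit G (MvPolynomial.X () ^ i)) =
      gpt τ (pol P (MvPolynomial.X j ^ i)) := fun i => by
    rw [gpt_polx0 (τ := fun g _ => τ g j) fun _ => rfl, map_pow, map_pow, map_pow, map_pow, pol_X,
      pol_X, gpt_eu (isChar_coord j), gpt_eu (isChar_coord ())]
  have e2 : ∀ c, gpt ψ (gpt Prod.snd c) = gpt σ c := gpt_comp fun _ => rfl
  have e3 := congrArg (gpt ψ) e
  rw [map_add, map_sum, e1, euc_res] at e3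
  simp only [map_mul, e1, e2] at e3
  exact ⟨c, (euc_congr (ρ := ρ.scal.res ψ) h).trans e3⟩

/-- dividing by a monic polynomial -/
theorem monic_free (k : GAdm b a σ f V W U Z) {e : HPt G'} (gy : Gys b V W S e) {j : P} {n : ℕ}
    {c : ℕ → HPt G} (he : e = gpt τ (pol P (MvPolynomial.X j ^ n)) + ∑ i ∈ Finset.range n,
      gpt τ (pol P (MvPolynomial.X j ^ i)) * gpt σ (c i)) {I : Set (P →₀ ℕ)}
    (hI : ∀ m k, m + Finsupp.single j k ∈ I ↔ m ∈ I)
    (h : spn I (mL a b τ σ f U Z V W) = ⊤ ∧ Indep I (mL a b τ σ f U Z V W)) :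
    spn {m ∈ I | m j < n} (mL a b τ σ f U Z S W) = ⊤ ∧
      Indep {m ∈ I | m j < n} (mL a b τ σ f U Z S W) := by
  have h1 : ∀ m x, sm e (mL a b τ σ f U Z V W m x) = mL a b τ σ f U Z V W (m + Finsupp.single j n) x
      + ∑ i ∈ Finset.range n, mL a b τ σ f U Z V W (m + Finsupp.single j i) (sm (c i) x) := by
    intro m x
    rw [he, map_add, map_sum, LinearMap.add_apply, LinearMap.sum_apply,
      MvPolynomial.X_pow_eq_monomial, sm_mL k.src]
    congr 1
    refine Finset.sum_congr rfl fun i _ => ?_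
    rw [sm_mul k.src, sm_gpt_mL k, MvPolynomial.X_pow_eq_monomial, sm_mL k.src]
  rw [← funext (gp_mL (τ := τ) k gy.adm (f'' := f) fun _ _ => rfl)]
  exact ⟨monic_spn hI h1 h.1 (fun y => (gy.ker _).2 ⟨y, rfl⟩) (gy.iff.2 (monic_inj hI h1 h.1 h.2)),
    monic_indep hI h1 h.1 h.2 fun y => (gy.ker y).1⟩

end

section

variable {R : Type} [Fintype R] [Nonempty R] {χ : P × R → G.H → ℂ}

/-- the representation with weights `x j + χ (j, r)` -/
def sphRep (χ : P × R → G.H → ℂ) : Act ((Gp.tor P).prod G) (P × R → ℂ) :=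
  Act.dg fun z g => (g.1 z.1 : ℂ) * χ z g.2

/-- the product of the unit spheres -/
def sph (P R : Type) [Fintype R] : Set (P × R → ℂ) := {w | ∀ j, nsq (fun r => w (j, r)) = 1}

theorem isChar_sph (hχ : ∀ z, IsChar (χ z)) (z : P × R) :
    IsChar (G := (Gp.tor P).prod G) fun g => (g.1 z.1 : ℂ) * χ z g.2 :=
  ((isChar_coord z.1).comp (G' := (Gp.tor P).prod G) Prod.fst).mul'
    ((hχ z).comp (G' := (Gp.tor P).prod G) Prod.snd)

theorem rep_sphRep0 (hχ : ∀ z, IsChar (χ z)) : (sphRep χ).Rep := Act.rep_dg (isChar_sph hχ)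

/-- the blocks in `S` have norm one -/
def sV (R : Type) [Fintype R] (U : Set X) (S : Finset P) : Set ((P × R → ℂ) × X) :=
  {y | (∀ j ∈ S, nsq (fun r => y.1 (j, r)) = 1) ∧ y.2 ∈ U}

theorem sV_pr (hχ : ∀ z, IsChar (χ z)) (h : a.Pr U Z) (S : Finset P) :
    ((sphRep χ).prod (a.res Prod.snd)).Pr (sV R U S) (Prod.snd ⁻¹' Z) := by
  have := rep_sphRep0 hχ
  have p0 : ((sphRep χ).prod (a.res Prod.snd)).Pr (Prod.snd ⁻¹' U) (Prod.snd ⁻¹' Z) :=
    h.preimage (φ := Prod.snd) continuous_snd fun _ _ => rfl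
  have : ((sphRep χ).prod (a.res Prod.snd)).Pr univ
      {y | ∀ j ∈ S, nsq (fun r => y.1 (j, r)) = 1} := Act.pr_univ _ (by
    simp only [ofPred_forall]
    exact isClosed_iInter fun j => isClosed_iInter fun _ => isClosed_eq
      (cont_nsq.comp (by fun_prop)) continuous_const) fun g y hy j hj =>
        ((Act.rep_dg fun r => isChar_sph hχ (j, r)).nsq g fun r => y.1 (j, r)).trans (hy j hj)
  convert p0.inter_top (this.mono p0 (subset_univ _)) using 1
  exact Set.ext fun y => and_comm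

theorem sV_free (hχ : ∀ z, IsChar (χ z)) (h : a.Pr U Z) (S : Finset P) :
    spn {m | ∀ j ∈ S, m j < Fintype.card R} (mL a ((sphRep χ).prod (a.res Prod.snd)) Prod.fst
      Prod.snd Prod.snd U Z (sV R U S) (Prod.snd ⁻¹' Z)) = ⊤ ∧
    Indep {m | ∀ j ∈ S, m j < Fintype.card R} (mL a ((sphRep χ).prod (a.res Prod.snd)) Prod.fst
      Prod.snd Prod.snd U Z (sV R U S) (Prod.snd ⁻¹' Z)) := by
  have := rep_sphRep0 hχ
  induction S using Finset.induction_on with
  | empty =>
    have hc := h.res (G' := (Gp.tor P).prod G) Prod.snd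
    have eV : sV R U (∅ : Finset P) = Prod.snd ⁻¹' U := Set.ext fun y => by simp [sV]
    have k := adj_free (P := P) spl_prod h (c := a.res Prod.snd) fun _ _ _ => rfl
    rw [eV, ← funext (gp_mL (τ := Prod.fst) ⟨hc, h, continuousOn_id, fun _ _ _ => rfl,
      fun _ m => m, fun _ _ m => m⟩ ((fib_prod (ρ := sphRep χ) hc).gadm hc) (f'' := Prod.snd)
      fun _ _ => rfl), show {m : P →₀ ℕ | ∀ j ∈ (∅ : Finset P), m j < Fintype.card R} = univ by simp]
    exact ⟨spn_comp_top ((fib_prod hc).bij hc).2 k.1, k.2.comp ((fib_prod hc).bij hc).1⟩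
  | insert j S hj ih =>
    have gy : Gys ((sphRep χ).prod (a.res Prod.snd)) (sV R U S) (Prod.snd ⁻¹' Z)
        (sV R U (insert j S)) _ :=
      gysin_dg (isChar_sph hχ) (i := fun r => (j, r)) (Prod.mk_right_injective j) (sV_pr hχ h S)
        (fun v v' x m k => ⟨fun i hi => (congrArg nsq (funext fun r => m (i, r) (by
          rintro ⟨_, e⟩
          exact hj ((show j = i from congrArg Prod.fst e) ▸ hi)))).symm.trans (k.1 i hi), k.2⟩)
        fun y => by simp only [sV, mem_ofPred_eq, Finset.forall_mem_insert]; tauto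
    have := Act.rep_dg fun r => hχ (j, r)
    obtain ⟨c, e⟩ := euc_monic (G' := (Gp.tor P).prod G) (τ := Prod.fst) (σ := Prod.snd)
      (Act.dg fun r => χ (j, r)) j
      (ρ' := Act.dg ((fun z g => (g.1 z.1 : ℂ) * χ z g.2) ∘ fun r => (j, r)))
      fun g w => funext fun r => mul_assoc _ _ _
    convert monic_free ⟨sV_pr hχ h S, h, continuousOn_snd, fun _ _ _ => rfl, fun _ k => k.2,
      fun _ _ k => k⟩ gy e (I := {m | ∀ j ∈ S, m j < Fintype.card R})
      (fun m k => forall₂_congr fun i hi => by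
        rw [Finsupp.add_apply, Finsupp.single_eq_of_ne fun m : i = j => hj (m ▸ hi), add_zero]) ih using 3
    all_goals simp only [Finset.forall_mem_insert, mem_ofPred_eq, and_comm]

theorem sph_free (hχ : ∀ z, IsChar (χ z)) (h : a.Pr U Z) :
    spn {m | ∀ j, m j < Fintype.card R} (mL a ((sphRep χ).prod (a.res Prod.snd)) Prod.fst
      Prod.snd Prod.snd U Z (sph P R ×ˢ U) (univ ×ˢ Z)) = ⊤ ∧
    Indep {m | ∀ j, m j < Fintype.card R} (mL a ((sphRep χ).prod (a.res Prod.snd)) Prod.fst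
      Prod.snd Prod.snd U Z (sph P R ×ˢ U) (univ ×ˢ Z)) := by
  have := sV_free hχ h Finset.univ
  rwa [show sV R U Finset.univ = sph P R ×ˢ U from Set.ext fun y => by simp [sV, sph],
    ← Set.univ_prod, show {m : P →₀ ℕ | ∀ j ∈ Finset.univ, m j < Fintype.card R} =
      {m | ∀ j, m j < Fintype.card R} by simp] at this

/-- exponents below `n` -/
def expo {n : ℕ} (m : P → Fin n) : P →₀ ℕ := Finsupp.equivFunOnFinite.symm fun j => m j

theorem expo_inj {n : ℕ} : Function.Injective (expo : (P → Fin n) → _) := fun m m' h =>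
  funext fun j => Fin.ext (congrFun (Finsupp.equivFunOnFinite.symm.injective h) j)

theorem range_expo {n : ℕ} : range (expo : (P → Fin n) → _) = {m | ∀ j, m j < n} :=
  Set.ext fun m => ⟨by rintro ⟨k, rfl⟩ j; exact (k j).2,
    fun h => ⟨fun j => ⟨m j, h j⟩, Finsupp.ext fun _ => rfl⟩⟩

theorem monomial_expo {n : ℕ} (m : P → Fin n) :
    MvPolynomial.monomial (expo m) (1 : ℂ) = ∏ j, MvPolynomial.X j ^ (m j : ℕ) := by
  rw [MvPolynomial.monomial_eq, map_one, one_mul, Finsupp.prod_fintype _ _ fun _ => pow_zero _]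
  rfl

theorem sph_span (hχ : ∀ z, IsChar (χ z)) (h : a.Pr U Z)
    (y : EH ((sphRep χ).prod (a.res Prod.snd)) (sph P R ×ˢ U) (univ ×ˢ Z)) :
    ∃ z : (P → Fin (Fintype.card R)) → EH a U Z, y = ∑ m,
      sm (polx P G (∏ j, MvPolynomial.X j ^ (m j : ℕ))) (gp _ Prod.snd Prod.snd _ _ (z m)) := by
  simp only [← monomial_expo]
  exact spn_fin expo_inj range_expo.ge (sph_free hχ h).1 y

theorem sph_indep (hχ : ∀ z, IsChar (χ z)) (h : a.Pr U Z)
    {z : (P → Fin (Fintype.card R)) → EH a U Z}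
    (hz : ∑ m, sm (polx P G (∏ j, MvPolynomial.X j ^ (m j : ℕ)))
      (gp ((sphRep χ).prod (a.res Prod.snd)) Prod.snd Prod.snd (sph P R ×ˢ U) (univ ×ˢ Z) (z m))
        = 0) : z = 0 := by
  simp only [← monomial_expo] at hz
  exact indep_fin expo_inj range_expo.le (sph_free hχ h).2 hz

end

end Pool.Agent.Work.MP_849ab0_ag.G
end
end

-- merged part: Pool.Agent.Work.MP_849ab0_ag.G.ApiG
section
/-!
Tori, polynomial rings, flag bundles (owner helper43).
-/

noncomputable section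

set_option linter.unusedSectionVars false
set_option linter.unusedVariables false

namespace Pool.Agent.Work.MP_849ab0_ag.G

open Set Topology Matrix

variable {G G' G'' : Gp} [G.Nice] [G'.Nice] [G''.Nice] {X X' X'' Y Y' : Type}
  [TopologicalSpace X] [T3Space X] [SecondCountableTopology X]
  [TopologicalSpace X'] [T3Space X'] [SecondCountableTopology X']
  [TopologicalSpace X''] [T3Space X''] [SecondCountableTopology X'']
  [TopologicalSpace Y] [T3Space Y] [SecondCountableTopology Y]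
  [TopologicalSpace Y'] [T3Space Y'] [SecondCountableTopology Y']
  {a : Act G X} [a.Ok] {a' : Act G' X'} [a'.Ok] {a'' : Act G'' X''} [a''.Ok]
  {b : Act G Y} [b.Ok] {b' : Act G' Y'} [b'.Ok]
  {φ : G'.H → G.H} [IsHom φ] {ψ : G''.H → G'.H} [IsHom ψ]

variable {κ κ' P C : Type} [Fintype κ] [DecidableEq κ] [Fintype κ'] [DecidableEq κ'] [Fintype P]
  [DecidableEq P] {U Z : Set X}

/-! `eu_mul`, `pol`, `pol_X`, `pol_bij`, `pol_lf`, `ev_pol`, `isDeg_pol`, `polx`, `pol2`, `pol2_C`,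
`pol2_X`, `pol2_map`, `pol2_bij`, `ev_pol2`, `pol2_lf`, `euc_dg2`, `euc_dg`, `isDeg_pol2` are in
`GrpTor` and `GrpPol`; `euc_scal`, `sphRep`, `sph`, `sph_span`, `sph_indep` are in `GrpSph`. -/

/-! ### a torus that acts trivially -/

section

variable {c : Act ((Gp.tor P).prod G) X} [c.Ok]

theorem adj_span (h : a.Pr U Z) (e : ∀ g, ∀ x ∈ U, c.act g x = a.act g.2 x) (y : EH c U Z) :
    ∃ z : (P →₀ ℕ) →₀ EH a U Z, y = z.sum fun m x =>
      sm (polx P G (MvPolynomial.monomial m 1)) (gp c Prod.snd id U Z x) := by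
  obtain ⟨z, -, k⟩ := mem_spn_iff.1 ((adj_free spl_prod h e).1.ge (Submodule.mem_top (x := y)))
  exact ⟨z, k.symm⟩

theorem adj_indep (h : a.Pr U Z) (e : ∀ g, ∀ x ∈ U, c.act g x = a.act g.2 x)
    {z : (P →₀ ℕ) →₀ EH a U Z} (hz : (z.sum fun m x =>
      sm (polx P G (MvPolynomial.monomial m 1)) (gp c Prod.snd id U Z x)) = 0) : z = 0 :=
  (adj_free spl_prod h e).2 z (fun _ k => (k trivial).elim) hz

end

theorem pr_triv {c : Act G X} (h : c.Pr U Z) : (Act.triv G' X).Pr U Z :=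
  ⟨h.lc, fun _ _ k => k, fun _ _ _ k => k, h.cl⟩

theorem triv_span {c : Act (Gp.tor κ) X} [c.Ok] (h : c.Pr U Z) (e : ∀ g, ∀ x ∈ U, c.act g x = x)
    (y : EH c U Z) : ∃ z : (κ →₀ ℕ) →₀ EH (Act.triv Gp.one X) U Z, y = z.sum fun m x =>
      sm (pol κ (MvPolynomial.monomial m 1)) (gp c (fun _ => 1) id U Z x) := by
  obtain ⟨z, -, k⟩ := mem_spn_iff.1
    ((adj_free spl_tor (pr_triv h) e).1.ge (Submodule.mem_top (x := y)))
  refine ⟨z, k.symm.trans (Finsupp.sum_congr fun m _ => ?_)⟩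
  rw [mL_apply, gpt_id]

theorem triv_indep {c : Act (Gp.tor κ) X} [c.Ok] (h : c.Pr U Z) (e : ∀ g, ∀ x ∈ U, c.act g x = x)
    {z : (κ →₀ ℕ) →₀ EH (Act.triv Gp.one X) U Z} (hz : (z.sum fun m x =>
      sm (pol κ (MvPolynomial.monomial m 1)) (gp c (fun _ => 1) id U Z x)) = 0) : z = 0 :=
  (adj_free spl_tor (pr_triv h) e).2 z (fun _ k => (k trivial).elim)
    (Eq.trans (Finsupp.sum_congr fun m _ => by rw [mL_apply, gpt_id]) hz)

end Pool.Agent.Work.MP_849ab0_ag.G
end
end

-- merged part: Pool.Agent.Work.MP_849ab0_ag.G.GrpFlag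
section
/-! Splitting off one index from a product of unitary groups. -/

noncomputable section

set_option linter.unusedSectionVars false

namespace Pool.Agent.Work.MP_849ab0_ag.G

open Set Topology Matrix
open scoped ComplexOrder

variable {P C J : Type} [Fintype P] [DecidableEq P] [Fintype J] [DecidableEq J] {G : Gp}

theorem nsq_eq_dot (w : J → ℂ) : (nsq w : ℂ) = star w ⬝ᵥ w := by
  simp [nsq, dotProduct, Complex.conj_mul']

/-- the action through matrices -/
def Act.mat (M : G.H → Matrix J J ℂ) : Act G (J → ℂ) := ⟨fun g w => M g *ᵥ w⟩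

theorem Act.rep_mat {M : G.H → Matrix J J ℂ} (h1 : M 1 = 1) (h2 : ∀ g h, M (g * h) = M g * M h)
    (h3 : Continuous M) (h4 : ∀ g, (M g)ᴴ * M g = 1) : (Act.mat M).Rep where
  one w := by simp [Act.mat, h1]
  mul g h w := by simp [Act.mat, h2]
  cont := (h3.comp continuous_fst).matrix_mulVec continuous_snd
  lin g := (M g).mulVecLin.isLinear
  nsq g w := Complex.ofReal_injective (by
    rw [nsq_eq_dot, nsq_eq_dot, Act.mat, star_mulVec, ← dotProduct_mulVec, mulVec_mulVec, h4,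
      one_mulVec])

theorem Ub.star_mul {col : P → C} (k : Ub col) : k.1.1ᴴ * k.1.1 = 1 := k.1.2.1

theorem Ub.mul_star {col : P → C} (k : Ub col) : k.1.1 * k.1.1ᴴ = 1 := k.1.2.2

/-- a Householder reflection -/
theorem exists_ub (col : P → C) (p : P) {v : P → ℂ} (h0 : ∀ a, col a ≠ col p → v a = 0)
    (h1 : star v ⬝ᵥ v = 1) (h2 : star (v p) = v p) : ∃ k : Ub col, ∀ a, k.1.1 a p = v a := by
  set u : P → ℂ := v - Pi.single p 1 with hu
  have s0 : star u ⬝ᵥ u = 2 * (1 - v p) := by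
    simp only [hu, star_sub, sub_dotProduct, dotProduct_sub, h1, Pi.star_single, star_one,
      dotProduct_single, single_dotProduct, Pi.sub_apply, Pi.star_apply, h2, Pi.single_eq_same]
    ring
  by_cases e : v p = 1
  · have : u = 0 := dotProduct_star_self_eq_zero.1 (by rw [s0, e, sub_self, mul_zero])
    refine ⟨1, fun a => ?_⟩
    rw [sub_eq_zero.1 this, Pi.single_apply]
    exact Matrix.one_apply
  have e' : 1 - v p ≠ 0 := sub_ne_zero.2 (Ne.symm e)
  have u0 : ∀ a, col a ≠ col p → u a = 0 := fun a k => by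
    rw [hu, Pi.sub_apply, h0 a k, Pi.single_eq_of_ne fun e => k (congrArg col e), sub_zero]
  have st : star (1 - (1 - v p)⁻¹ • vecMulVec u (star u)) =
      1 - (1 - v p)⁻¹ • vecMulVec u (star u) := by
    simp [star_eq_conjTranspose, h2]
  refine ⟨⟨⟨1 - (1 - v p)⁻¹ • vecMulVec u (star u), Matrix.mem_unitaryGroup_iff.2 ?_⟩,
    fun a b k => ?_⟩, fun a => ?_⟩
  · rw [st, sub_mul, mul_sub, mul_sub, one_mul, one_mul, mul_one, smul_mul_smul_comm,
      vecMulVec_mul_vecMulVec, s0, vecMulVec_smul, smul_smul, ← sub_add, sub_sub, ← add_smul,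
      sub_add, ← sub_smul]
    field_simp
    norm_num
  · change (1 : Matrix P P ℂ) a b - _ * (u a * star (u b)) = 0
    rw [Matrix.one_apply_ne fun e => k (congrArg col e)]
    by_cases c : col a = col p
    · rw [u0 b fun e => k (c.trans e.symm)]; simp
    · rw [u0 a c]; simp
  · change (1 : Matrix P P ℂ) a p - _ * (u a * star (u p)) = _
    rw [hu, Pi.sub_apply, Pi.sub_apply, Pi.single_eq_same, star_sub, h2, star_one, Pi.single_apply,
      Matrix.one_apply]
    field_simp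
    ring

/-- the colouring in which `p` gets a new colour -/
def spl (col : P → C) (p : P) : P → Option C := fun q => if q = p then none else some (col q)

theorem spl_ne {col : P → C} {p a b : P} :
    spl col p a ≠ spl col p b ↔ a ≠ b ∧ (a = p ∨ b = p ∨ col a ≠ col b) := by
  unfold spl
  split_ifs with h1 h2 h2
  · simp [h1, h2]
  · simp [h1, Ne.symm h2]
  · simp [h1, h2]
  · simpa [h1, h2] using fun k e => k (e ▸ rfl)

theorem col_ind {Q : ∀ C : Type, (P → C) → Prop} (h0 : ∀ C col, Function.Injective col → Q C col)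
    (h1 : ∀ C col p, Q _ (spl col p) → Q C col) (C : Type) (col : P → C) : Q C col := by
  induction h : {z : P × P | col z.1 = col z.2} using WellFoundedLT.induction generalizing C with
  | _ s ih =>
  by_cases k : Function.Injective col
  · exact h0 C col k
  obtain ⟨p, q, e, ne⟩ := Function.not_injective_iff.1 k
  refine h1 C col p (ih _ (h ▸ lt_of_le_not_ge (fun z k => ?_) fun k => ?_) _ _ rfl)
  · by_contra c
    exact spl_ne.2 ⟨fun e => c (congrArg col e), Or.inr (Or.inr c)⟩ k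
  · exact spl_ne.2 ⟨ne, Or.inl rfl⟩ (@k (p, q) e)

variable (col : P → C) (p : P) (G)

theorem ub_spl_le : Ub (spl col p) ≤ Ub col := fun _ h a b k =>
  h a b (spl_ne.2 ⟨fun e => k (e ▸ rfl), Or.inr (Or.inr k)⟩)

/-- the inclusion of the smaller group -/
def splInc : ((Gp.blk (spl col p)).prod G).H → ((Gp.blk col).prod G).H :=
  fun g => (⟨g.1.1, ub_spl_le col p g.1.2⟩, g.2)

instance : IsHom (splInc G col p) :=
  ⟨fun _ _ => rfl, ((continuous_subtype_val.comp continuous_fst).subtype_mk _).prodMk continuous_snd⟩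

theorem splInc_inj : Function.Injective (splInc G col p) := fun _ _ h =>
  Prod.ext (Subtype.ext (congrArg (·.1.1) h)) (congrArg (·.2) h)

variable {col p} in
theorem Ub.col_eq (k : Ub col) (h : ∀ a, a ≠ p → k.1.1 a p = 0) (b : P) :
    star (k.1.1 p p) * k.1.1 p b = if p = b then 1 else 0 := by
  have := congrFun (congrFun (Ub.star_mul k) p) b
  rwa [mul_apply, Finset.sum_eq_single p (fun a _ e => by simp [h a e]) (by simp),
    Matrix.one_apply] at this

theorem spl_col (k : Ub (spl col p)) (a : P) (h : a ≠ p) : k.1.1 a p = 0 :=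
  k.2 a p (spl_ne.2 ⟨h, Or.inr (Or.inl rfl)⟩)

theorem spl_norm (k : Ub (spl col p)) : star (k.1.1 p p) * k.1.1 p p = 1 := by
  simpa using Ub.col_eq k (spl_col col p k) p

/-- the smaller group as the stabiliser of a vector up to scalars -/
def splStab : ((Gp.blk (spl col p)).prod G).H → ((Gp.tor Unit).prod ((Gp.blk col).prod G)).H :=
  fun g => (fun _ => ⟨g.1.1.1 p p, mem_sphere_zero_iff_norm.2 (by
    have := congrArg norm (spl_norm col p g.1)
    rw [norm_mul, norm_star, norm_one] at this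
    exact (mul_self_eq_one_iff.1 this).resolve_right (by linarith [norm_nonneg (g.1.1.1 p p)]))⟩,
    splInc G col p g)

instance : IsHom (splStab G col p) where
  mul g h := Prod.ext (funext fun _ => Subtype.ext (by
    change (g.1.1.1 * h.1.1.1) p p = g.1.1.1 p p * h.1.1.1 p p
    rw [mul_apply, Finset.sum_eq_single p (fun a _ e => by simp [spl_col col p h.1 a e]) (by simp)]))
    rfl
  cont := (continuous_pi fun _ => (((continuous_subtype_val.comp continuous_subtype_val).comp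
    continuous_fst).matrix_elem p p).subtype_mk _).prodMk IsHom.cont

/-- the indices with the colour of `p` -/
abbrev Cp : Type := {q // col q = col p}

instance : Fintype (Cp col p) := Fintype.ofFinite _

theorem sum_cp {f : P → ℂ} (h : ∀ a, col a ≠ col p → f a = 0) : ∑ a : Cp col p, f a.1 = ∑ a, f a :=
  Finset.sum_of_injOn Subtype.val Subtype.val_injective.injOn (by simp)
    (fun a _ k => h a fun e => k ⟨⟨a, e⟩, by simp, rfl⟩) fun _ _ => rfl

/-- the dual of the standard representation of the factor with the colour of `p` -/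
def cpRep : Act ((Gp.blk col).prod G) (Cp col p → ℂ) :=
  Act.mat fun g => Matrix.of fun a b => star (g.1.1.1 a.1 b.1)

instance : (cpRep G col p).Rep := by
  refine Act.rep_mat (Matrix.ext fun a b => ?_) (fun g h => Matrix.ext fun a b => ?_)
    (continuous_matrix fun a b => (((continuous_subtype_val.comp continuous_subtype_val).comp
      continuous_fst).matrix_elem a.1 b.1).star) fun g => Matrix.ext fun a b => ?_
  · change star ((1 : Matrix P P ℂ) a.1 b.1) = _
    simp [Matrix.one_apply, Subtype.val_inj]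
  · change star (∑ d, g.1.1.1 a.1 d * h.1.1.1 d b.1) = ∑ d : Cp col p, _
    rw [← sum_cp col p fun d k => by rw [g.1.2 _ _ fun e => k (e ▸ a.2), zero_mul]]
    simp
  · have := congrFun (congrFun (Ub.star_mul g.1) b.1) a.1
    rw [mul_apply, ← sum_cp col p fun d k => by
      rw [g.1.2 _ _ fun e => k (e.trans a.2), mul_zero]] at this
    simpa [mul_apply, Matrix.one_apply, Subtype.val_inj, mul_comm, eq_comm] using this

theorem cpRep_single (g : ((Gp.tor Unit).prod ((Gp.blk col).prod G)).H) (a : Cp col p) :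
    (cpRep G col p).scal.act g (Pi.single ⟨p, rfl⟩ 1) a = g.1 () * star (g.2.1.1.1 a.1 p) := by
  simp [Act.scal, cpRep, Act.mat]

theorem cpRep_stab (g : ((Gp.blk (spl col p)).prod G).H) :
    (cpRep G col p).scal.act (splStab G col p g) (Pi.single ⟨p, rfl⟩ 1) = Pi.single ⟨p, rfl⟩ 1 := by
  funext a
  rw [cpRep_single]
  change g.1.1.1 p p * star (g.1.1.1 a.1 p) = _
  by_cases e : a = ⟨p, rfl⟩
  · rw [e, Pi.single_eq_same, mul_comm, spl_norm]
  · rw [Pi.single_eq_of_ne e, spl_col col p g.1 _ fun k => e (Subtype.ext k), star_zero, mul_zero]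

theorem cpRep_stab' (g : ((Gp.tor Unit).prod ((Gp.blk col).prod G)).H)
    (h : (cpRep G col p).scal.act g (Pi.single ⟨p, rfl⟩ 1) = Pi.single ⟨p, rfl⟩ 1) :
    ∃ g', splStab G col p g' = g := by
  have h1 : ∀ a, a ≠ p → g.2.1.1.1 a p = 0 := fun a k => by
    by_cases e : col a = col p
    · have := congrFun h ⟨a, e⟩
      rw [cpRep_single, Pi.single_eq_of_ne fun e => k (congrArg Subtype.val e)] at this
      simpa using this
    · exact g.2.1.2 _ _ e
  have h2 := congrFun h ⟨p, rfl⟩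
  rw [cpRep_single, Pi.single_eq_same] at h2
  have h3 : star (g.2.1.1.1 p p) ≠ 0 := right_ne_zero_of_mul_eq_one h2
  refine ⟨(⟨g.2.1.1, fun a b k => ?_⟩, g.2.2), Prod.ext (funext fun _ => Subtype.ext ?_) rfl⟩
  · obtain ⟨k', rfl | rfl | e⟩ := spl_ne.1 k
    · exact (mul_eq_zero.1 ((Ub.col_eq g.2.1 h1 b).trans (if_neg k'))).resolve_left h3
    · exact h1 a k'
    · exact g.2.1.2 _ _ e
  · refine mul_right_cancel₀ h3 (Eq.trans ?_ h2.symm)
    exact (mul_comm _ _).trans ((Ub.col_eq g.2.1 h1 p).trans (if_pos rfl))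

theorem cpRep_trans {w : Cp col p → ℂ} (hw : nsq w = 1) :
    ∃ g, (cpRep G col p).scal.act g (Pi.single ⟨p, rfl⟩ 1) = w := by
  classical
  obtain ⟨z, z1, z2⟩ := Complex.exists_norm_mul_eq_self (w ⟨p, rfl⟩)
  have z3 : star z * z = 1 := by simp [Complex.conj_mul', z1]
  obtain ⟨k, hk⟩ := exists_ub col p (v := fun a => if h : col a = col p then z * star (w ⟨a, h⟩) else 0)
    (fun a k => dif_neg k) (by
      rw [dotProduct, ← sum_cp col p fun a k => by simp [k], ← Complex.ofReal_one, ← hw, nsq_eq_dot]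
      refine Finset.sum_congr rfl fun a _ => ?_
      simp only [Pi.star_apply, dif_pos a.2, star_mul', star_star]
      linear_combination (w a * star (w a)) * z3) (by
      rw [dif_pos rfl, ← z2]
      simp [mul_left_comm])
  refine ⟨(fun _ => ⟨z, mem_sphere_zero_iff_norm.2 z1⟩, k, 1), funext fun a => ?_⟩
  rw [cpRep_single, hk, dif_pos a.2, star_mul', star_star]
  change z * _ = _
  linear_combination w a * z3

end Pool.Agent.Work.MP_849ab0_ag.G
end
end

-- merged part: Pool.Agent.Work.MP_849ab0_ag.G.ApiR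
section
/-!
Restriction to the maximal torus (owner helper56).
-/

noncomputable section

set_option linter.unusedSectionVars false
set_option linter.unusedVariables false

namespace Pool.Agent.Work.MP_849ab0_ag.G

open Set Topology Matrix

variable {G : Gp} [G.Nice] {X : Type} [TopologicalSpace X] [T3Space X] [SecondCountableTopology X]
variable {κ P C : Type} [Fintype κ] [DecidableEq κ] [Fintype P] [DecidableEq P] {U Z : Set X}

theorem Ev.mul_comm {y : HPt G} (hy : Ev y) (x : HPt G) : x * y = y * x :=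
  ecup_comm (ecup_top (Act.pr_pt G)) x hy

theorem isChar_coe (j : κ) : IsChar (G := Gp.tor κ) fun g => (g j : ℂ) :=
  ⟨fun _ _ => rfl, continuous_subtype_val.comp (continuous_apply j), fun g => Circle.norm_coe _⟩

theorem gpt_polx {G' : Gp} [G'.Nice] {φ : ((Gp.tor P).prod G').H → ((Gp.tor κ).prod G).H} [IsHom φ]
    {i : P} {j : κ} (h : ∀ g, (φ g).1 j = g.1 i) :
    gpt φ (polx κ G (MvPolynomial.X j)) = polx P G' (MvPolynomial.X i) := by
  have k : IsChar (G := (Gp.tor κ).prod G) fun g => (g.1 j : ℂ) :=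
    (isChar_coe j).comp (G' := (Gp.tor κ).prod G) Prod.fst
  simp only [polx, AlgHom.comp_apply, pol_X, gpt_eu (isChar_coe _), gpt_eu k, h]

/-- the projective bundle theorem -/
theorem proj_free {J : Type} [Fintype J] (ρ : Act G (J → ℂ)) [ρ.Rep] {a : Act G X} [a.Ok]
    (h : a.Pr U Z) {S W : Set ((J → ℂ) × X)} (hS : ∀ y, y ∈ S ↔ y.2 ∈ U ∧ nsq y.1 = 1)
    (hW : W = Prod.snd ⁻¹' Z) {L : (Unit →₀ ℕ) → EH a U Z →ₗ[ℂ] EH (ρ.scal.prod (a.res Prod.snd)) S W}
    (hL : ∀ m, L m = sm (polx Unit G (MvPolynomial.X ()) ^ m ()) ∘ₗ gp _ Prod.snd Prod.snd S W) :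
    (ρ.scal.prod (a.res Prod.snd)).Pr S W ∧ spn {m | m () < Fintype.card J} L = ⊤ ∧
      Indep {m | m () < Fintype.card J} L := by
  have fb : Fib (a.res Prod.snd) (ρ.scal.prod (a.res Prod.snd)) ρ.scal Prod.snd Prod.fst U :=
    ⟨continuous_snd, fun _ _ => rfl, continuousOn_fst, fun _ _ _ => rfl, Prod.swap,
      continuous_swap.continuousOn, fun _ _ _ => ⟨rfl, rfl⟩, fun _ _ => rfl⟩
  have h' := h.res (G' := (Gp.tor Unit).prod G) Prod.snd
  obtain ⟨g1, g2, g3⟩ := gysin fb h' rfl hW hS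
  subst hW
  have k1 : GAdm (a.res Prod.snd) a (G' := (Gp.tor Unit).prod G) Prod.snd id U Z U Z :=
    ⟨h', h, continuousOn_id, fun _ _ _ => rfl, fun _ k => k, fun _ _ k => k⟩
  have k2 : GAdm (ρ.scal.prod (a.res Prod.snd)) a Prod.snd Prod.snd _ _ U Z :=
    k1.comp (fb.gadm h')
  let M : (Unit →₀ ℕ) → EH a U Z →ₗ[ℂ] EH (ρ.scal.prod (a.res Prod.snd)) (Prod.snd ⁻¹' U)
      (Prod.snd ⁻¹' Z) := fun m =>
    sm (polx Unit G (MvPolynomial.X ()) ^ m ()) ∘ₗ gp _ Prod.snd Prod.snd _ _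
  have e1 : ∀ m, M m = gp _ id Prod.snd _ _ ∘ₗ (sm (polx Unit G (MvPolynomial.monomial m 1)) ∘ₗ
      gp (a.res Prod.snd) Prod.snd id U Z) := fun m => LinearMap.ext fun x => by
    simp only [M, LinearMap.comp_apply]
    rw [gp_sm (fb.gadm h'), gpt_id, gp_comp k1 (fb.gadm h') (χ := Prod.snd) (fun _ => rfl)
      (k := Prod.snd) fun _ _ => rfl, ← map_pow, MvPolynomial.X_pow_eq_monomial,
      ← Finsupp.unique_single m]
  have s1 : spn univ M = ⊤ := (spn_congr fun m _ => e1 m).trans (spn_comp_top (fb.bij h').2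
    (eq_top_iff.2 fun y _ => mem_spn_iff.2 ((adj_span h (fun _ _ _ => rfl) y).imp fun z e =>
      ⟨fun _ k => (k trivial).elim, e.symm⟩)))
  have i1 : Indep univ M := Indep.congr (fun m _ => (e1 m).symm) (Indep.comp (fb.bij h').1
    fun z _ e => adj_indep h (fun _ _ _ => rfl) e)
  obtain ⟨c, c1, c2⟩ := euc_scal ρ
  have he : ∀ m x, sm (euc ρ.scal) (M m x) = M (m + Finsupp.single () (Fintype.card J)) x +
      ∑ k ∈ Finset.range (Fintype.card J), M (m + Finsupp.single () k) (sm (c k) x) := fun m x => by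
    simp only [M, LinearMap.comp_apply, Finsupp.add_apply, Finsupp.single_eq_same, gp_sm k2,
      ← sm_mul k2.src]
    generalize m () = n
    rw [← (ev_euc _).mul_comm, c2, mul_add, Finset.mul_sum, map_add, map_sum, LinearMap.add_apply,
      LinearMap.sum_apply]
    simp only [map_pow, pow_add, mul_assoc]
  have hI : ∀ (m : Unit →₀ ℕ) k, m + Finsupp.single () k ∈ (univ : Set _) ↔ m ∈ (univ : Set _) :=
    fun _ _ => Iff.rfl
  have e2 : ∀ m, gp _ id id S _ ∘ₗ M m = L m := fun m => LinearMap.ext fun x => by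
    simp only [M, hL, LinearMap.comp_apply]
    rw [gp_sm g1, gpt_id, gp_comp k2 g1 (χ := Prod.snd) (fun _ => rfl) (k := Prod.snd)
      fun _ _ => rfl]
  have s2 := monic_spn hI he s1 (fun b => (g2 _).2 ⟨b, rfl⟩) (g3.2 (monic_inj hI he s1 i1))
  have i2 := monic_indep hI he s1 i1 fun b => (g2 b).1
  simp only [e2, mem_univ, true_and] at s2 i2
  exact ⟨g1.src, s2, i2⟩

variable (G) in
/-- the character of the factor that is split off -/
def xq (col : P → C) (p : P) : HPt ((Gp.blk (spl col p)).prod G) :=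
  gpt (splStab G col p) (polx Unit _ (MvPolynomial.X ()))

theorem gpt_xq (col : P → C) (p : P) :
    gpt (inc (spl col p) G) (xq G col p) = polx P G (MvPolynomial.X p) := by
  rw [xq, gpt_comp (φ := splStab G col p) (ψ := inc (spl col p) G)
    (χ := splStab G col p ∘ inc (spl col p) G) fun _ => rfl]
  exact gpt_polx fun g => Subtype.ext (diagonal_apply_eq _ p)

theorem spl_free {col : P → C} (p : P) {c : Act ((Gp.blk col).prod G) X} [c.Ok]
    {c' : Act ((Gp.blk (spl col p)).prod G) X} [c'.Ok] (k : GAdm c' c (splInc G col p) id U Z U Z)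
    {L : (Unit →₀ ℕ) → EH c U Z →ₗ[ℂ] EH c' U Z}
    (hL : ∀ m, L m = sm (xq G col p ^ m ()) ∘ₗ gp c' (splInc G col p) id U Z) :
    spn {m | m () < Fintype.card (Cp col p)} L = ⊤ ∧ Indep {m | m () < Fintype.card (Cp col p)} L := by
  obtain ⟨h1, h2, h3⟩ := proj_free (cpRep G col p) k.tgt (S := {y | y.2 ∈ U ∧ nsq y.1 = 1})
    (fun _ => Iff.rfl) rfl fun _ => rfl
  have k1 : GAdm c' _ (splStab G col p) (fun x => (Pi.single (⟨p, rfl⟩ : Cp col p) 1, x)) U Z _ _ :=
    ⟨k.src, h1, by fun_prop, fun g x m => Prod.ext (cpRep_stab G col p g).symm (k.eqv g x m),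
      fun x m => ⟨m, by simp [nsq, Pi.single_apply, apply_ite]⟩, fun _ _ k => k⟩
  have k2 : GAdm _ c Prod.snd Prod.snd _ _ U Z :=
    ⟨h1, k.tgt, continuousOn_snd, fun _ _ _ => rfl, fun _ k => k.1, fun _ _ k => k⟩
  have b := stackIso k1 (fun _ _ k => k) (fun y m => ?_) (fun x m x' m' g e => ?_) fun K s hK => ?_
  · have s := spn_comp_top b.2 h2
    have i := h3.comp b.1
    refine ⟨(spn_congr fun m _ => Eq.symm ?_).trans s, i.congr fun m _ => ?_⟩
    all_goals
      refine LinearMap.ext fun x => ?_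
      simp only [hL, LinearMap.comp_apply]
      rw [gp_sm k1, map_pow, gp_comp k2 k1 (χ := splInc G col p) (fun _ => rfl) (k := id)
        fun _ _ => rfl, xq]
  · obtain ⟨g, e⟩ := cpRep_trans G col p m.2
    exact ⟨g, c.act g.2⁻¹ y.2, k.tgt.inv _ _ m.1, Prod.ext e (c.act_inv' _ _)⟩
  · obtain ⟨g', rfl⟩ := cpRep_stab' G col p g (congrArg Prod.fst e)
    exact ⟨g', ⟨rfl, (k.eqv g' x m).trans (congrArg Prod.snd e)⟩,
      fun _ k => splInc_inj G col p (congrArg Prod.snd k.1)⟩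
  · rw [inter_eq_right.2 (by exact fun x m => (s m).1)]
    exact (hK.image continuous_snd).of_isClosed_subset (hK.isClosed.preimage (by fun_prop))
      fun x m => ⟨_, m, rfl⟩

theorem inc_bij {col : P → C} (h : Function.Injective col) {c : Act ((Gp.blk col).prod G) X} [c.Ok]
    {d : Act ((Gp.tor P).prod G) X} [d.Ok] (k : GAdm d c (inc col G) id U Z U Z) :
    Function.Bijective (gp d (inc col G) id U Z : EH c U Z → _) := by
  refine stackIso k (fun _ _ k => k) (fun y m => ⟨1, y, m, c.act_one y⟩) (fun x m x' m' g e => ?_)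
    fun K s hK => by rwa [preimage_id, inter_eq_right.2 s]
  have h1 : ∀ a b, a ≠ b → g.1.1.1 a b = 0 := fun a b k => g.1.2 a b (h.ne k)
  obtain ⟨g', rfl⟩ : ∃ g', inc col G g' = g := ⟨(fun p => ⟨g.1.1.1 p p,
    mem_sphere_zero_iff_norm.2 (by
      have := congrArg norm ((Ub.col_eq g.1 (fun a => h1 a p) p).trans (if_pos rfl))
      rw [norm_mul, norm_star, norm_one] at this
      exact (mul_self_eq_one_iff.1 this).resolve_right (by linarith [norm_nonneg (g.1.1.1 p p)]))⟩,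
    g.2), Prod.ext (Subtype.ext (Subtype.ext (Matrix.ext fun a b => by
      by_cases e : a = b
      · subst e; exact diagonal_apply_eq _ a
      · exact (diagonal_apply_ne _ e).trans (h1 a b e).symm))) rfl⟩
  exact ⟨g', ⟨rfl, (k.eqv g' x m).trans e⟩, fun g'' k => Prod.ext
    (Gp.Nice.inj (G := Gp.tor P) (congrArg (·.1.1.1) k.1)) (congrArg (·.2) k.1)⟩

theorem res_free (col : P → C) : ∀ (c : Act ((Gp.blk col).prod G) X) [c.Ok]
    (d : Act ((Gp.tor P).prod G) X) [d.Ok] (k : GAdm d c (inc col G) id U Z U Z),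
    Function.Injective (gp d (inc col G) id U Z : EH c U Z → _) ∧
      spn univ (fun m => sm (polx P G (MvPolynomial.monomial m 1)) ∘ₗ
        (gp d (inc col G) id U Z : EH c U Z →ₗ[ℂ] _)) = ⊤ := by
  induction C, col using col_ind with
  | h0 C col h =>
    intro c _ d _ k
    refine ⟨(inc_bij h k).1, eq_top_iff.2 fun y _ => ?_⟩
    obtain ⟨x, rfl⟩ := (inc_bij h k).2 y
    convert mem_spn (mem_univ (0 : P →₀ ℕ)) x using 1
    exact (sm_one k.src _).symm.trans (by simp)
  | h1 C col p ih =>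
    intro c _ d _ k
    have k1 : GAdm (c.res (splInc G col p)) c (splInc G col p) id U Z U Z :=
      ⟨k.tgt.res _, k.tgt, continuousOn_id, fun _ _ _ => rfl, fun _ k => k, fun _ _ k => k⟩
    have k2 : GAdm d (c.res (splInc G col p)) (inc (spl col p) G) id U Z U Z :=
      ⟨k.src, k1.src, continuousOn_id, k.eqv, fun _ k => k, fun _ _ k => k⟩
    obtain ⟨i1, s1⟩ := ih _ d k2
    obtain ⟨s2, i2⟩ := spl_free p k1 fun _ => rfl
    have e := gp_comp k1 k2 (χ := inc col G) (fun _ => rfl) (k := id) fun _ _ => rfl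
    refine ⟨fun x y h => i2.inj (i := 0) (Fintype.card_pos_iff.2 ⟨⟨p, rfl⟩⟩) ?_,
      eq_top_iff.2 (s1 ▸ spn_le fun m _ x => ?_)⟩
    · simp only [LinearMap.comp_apply]
      rw [i1 ((e x).trans (h.trans (e y).symm))]
    · refine Submodule.mem_comap.1 (spn_le (fun n _ y => Submodule.mem_comap.2 ?_) (s2.ge trivial))
      convert mem_spn (mem_univ (m + Finsupp.single p (n ()))) y using 1
      simp only [LinearMap.comp_apply]
      rw [gp_sm k2, e, map_pow, gpt_xq, ← sm_mul k.src, ← map_pow, ← map_mul,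
        MvPolynomial.X_pow_eq_monomial, MvPolynomial.monomial_mul, mul_one]

section

variable {col : P → C} {c : Act ((Gp.blk col).prod G) X} [c.Ok]

theorem res_inj (h : c.Pr U Z) :
    Function.Injective (gp (c.res (inc col G)) (inc col G) id U Z : EH c U Z → _) :=
  (res_free col c _ ⟨h.res _, h, continuousOn_id, fun _ _ _ => rfl, fun _ k => k,
    fun _ _ k => k⟩).1

theorem res_span (h : c.Pr U Z) (y : EH (c.res (inc col G)) U Z) :
    ∃ z : (P →₀ ℕ) →₀ EH c U Z, y = z.sum fun m x =>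
      sm (polx P G (MvPolynomial.monomial m 1)) (gp _ (inc col G) id U Z x) :=
  (mem_spn_iff.1 ((res_free col c _ ⟨h.res _, h, continuousOn_id, fun _ _ _ => rfl, fun _ k => k,
    fun _ _ k => k⟩).2 ▸ Submodule.mem_top : y ∈ _)).imp fun _ e => e.2.symm

theorem gadm_pt_id {G' : Gp} (φ : G'.H → G.H) :
    GAdm (Act.pt G') (Act.pt G) φ id univ univ univ univ := gadm_pt (Act.pr_pt G') φ

theorem inv_of_res {col : P → C} {c : HPt ((Gp.blk col).prod (Gp.tor κ))}
    {f : MvPolynomial P (MvPolynomial κ ℂ)} (h : gpt (inc col _) c = pol2 P κ f) (w : Equiv.Perm P)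
    (hw : ∀ j, col (w j) = col j) : MvPolynomial.rename w f = f := by
  let σ : ((Gp.tor P).prod (Gp.tor κ)).H → ((Gp.tor P).prod (Gp.tor κ)).H :=
    fun g => (g.1 ∘ w, g.2)
  have : IsHom σ := ⟨fun _ _ => rfl, (continuous_pi fun j =>
    (continuous_apply (w j)).comp continuous_fst).prodMk continuous_snd⟩
  let k : ((Gp.blk col).prod (Gp.tor κ)).H := (⟨⟨w.permMatrix ℂ, Matrix.mem_unitaryGroup_iff.2 (by
    simp [star_eq_conjTranspose, ← permMatrix_mul])⟩, fun a b e => by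
      simpa [PEquiv.toMatrix_apply] using fun k : w a = b => e (k ▸ (hw a).symm)⟩, 1)
  have := isHom_conj k
  have e1 : ∀ f, gpt σ (pol2 P κ f) = pol2 P κ (MvPolynomial.rename w f) := fun f => by
    induction f using MvPolynomial.induction_on with
    | C s => rw [MvPolynomial.rename_C, pol2_C,
        gpt_comp (ψ := σ) (φ := Prod.snd) (χ := Prod.snd) fun _ => rfl]
    | add f g h1 h2 => simp only [map_add, h1, h2]
    | mul_X f j h1 =>
      rw [map_mul, map_mul, map_mul, map_mul, h1, MvPolynomial.rename_X, pol2_X, pol2_X,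
        gpt_polx (φ := σ) (i := w j) (j := j) fun _ => rfl]
  refine pol2_bij.1 ?_
  rw [← e1, ← h, gpt_comp (φ := inc col _) (ψ := σ) (χ := inc col _ ∘ σ) fun _ => rfl,
    ← gpt_comp (φ := fun g => k * g * k⁻¹) (ψ := inc col _) fun g => ?_]
  · exact congrArg _ (gp_inner (Act.pr_pt _) k c)
  refine eq_mul_inv_of_mul_eq (Prod.ext (Subtype.ext (Subtype.ext ?_)) (mul_comm _ _))
  change diagonal (fun j => (g.1 (w j) : ℂ)) * w.permMatrix ℂ =
    w.permMatrix ℂ * diagonal fun j => (g.1 j : ℂ)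
  ext a b
  simp only [diagonal_mul, mul_diagonal, PEquiv.toMatrix_apply, Equiv.toPEquiv_apply,
    Option.mem_def, Option.some.injEq]
  split_ifs with e <;> simp [e]

/-- the image of `H(B(K × T))` is the ring of invariants -/
theorem res_range (col : P → C) (f : MvPolynomial P (MvPolynomial κ ℂ)) :
    (∃ c : HPt ((Gp.blk col).prod (Gp.tor κ)), gpt (inc col _) c = pol2 P κ f) ↔
      ∀ w : Equiv.Perm P, (∀ j, col (w j) = col j) → MvPolynomial.rename w f = f := by
  refine ⟨fun ⟨c, h⟩ => inv_of_res h, ?_⟩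
  induction C, col using col_ind with
  | h0 C col h => exact fun _ => (inc_bij h (gadm_pt_id _)).2 _
  | h1 C col p ih =>
  intro h
  obtain ⟨c', e⟩ := ih fun w k => h w fun j => by
    by_contra c
    exact spl_ne.2 ⟨fun e => c (congrArg col e), Or.inr (Or.inr c)⟩ (k j)
  obtain ⟨z, z1, rfl⟩ := mem_spn_iff.1
    ((spl_free p (gadm_pt_id _) fun _ => rfl).1.ge (Submodule.mem_top (x := c')))
  choose b hb using fun m => pol2_bij.2 (gpt (inc col _) (z m))
  have e1 : f = ∑ m ∈ z.support, MvPolynomial.X p ^ m () * b m := pol2_bij.1 (by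
    rw [← e, Finsupp.lsum_apply, Finsupp.sum, map_sum, map_sum]
    refine Finset.sum_congr rfl fun m _ => ?_
    generalize m () = n
    rw [map_mul, map_pow (pol2 P κ), hb, pol2_X, ← gpt_xq col p, ← map_pow,
      ← gpt_comp (φ := splInc _ col p) (ψ := inc (spl col p) _) (χ := inc col _) fun _ => rfl,
      ← map_mul, ← sm_pt]
    rfl)
  have e2 : ∑ m ∈ z.support, Polynomial.monomial (m ()) (b m) - Polynomial.C f = 0 := by
    refine Polynomial.eq_zero_of_natDegree_lt_card_of_eval_eq_zero _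
      (f := fun q : Cp col p => MvPolynomial.X q.1)
      (MvPolynomial.X_injective.comp Subtype.val_injective) (fun q => ?_) ?_
    · have hw : ∀ j, col (Equiv.swap p q.1 j) = col j := fun j => by
        rw [Equiv.swap_apply_def]
        split_ifs with h1 h2
        exacts [h1 ▸ q.2, h2 ▸ q.2.symm, rfl]
      rw [Polynomial.eval_sub, Polynomial.eval_C, ← h _ hw, e1, map_sum, Polynomial.eval_finsetSum,
        sub_eq_zero]
      refine Finset.sum_congr rfl fun m _ => ?_
      generalize m () = n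
      rw [Polynomial.eval_monomial, map_mul, map_pow, inv_of_res (hb m).symm _ hw,
        MvPolynomial.rename_X, Equiv.swap_apply_left, mul_comm]
    · have : 0 < Fintype.card (Cp col p) := Fintype.card_pos_iff.2 ⟨⟨p, rfl⟩⟩
      rw [Polynomial.natDegree_sub_C]
      refine (Polynomial.natDegree_sum_le_of_forall_le (n := Fintype.card (Cp col p) - 1) _ _
        fun m k => (Polynomial.natDegree_monomial_le _).trans ?_).trans_lt (by omega)
      have : m () < _ := by_contra fun c => Finsupp.mem_support_iff.1 k (z1 m c)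
      omega
  refine ⟨z 0, (hb 0).symm.trans (congrArg _ ?_)⟩
  have e3 := Polynomial.ext_iff.1 e2 0
  rw [Polynomial.coeff_sub, Polynomial.finsetSum_coeff, Polynomial.coeff_C_zero,
    Polynomial.coeff_zero, sub_eq_zero] at e3
  simp only [Polynomial.coeff_monomial] at e3
  rw [← e3, Finset.sum_eq_single 0 (fun m _ k => if_neg fun c : m () = 0 => k (Finsupp.unique_ext c))
    fun k => ?_, if_pos (Finsupp.zero_apply)]
  rw [if_pos (Finsupp.zero_apply)]
  exact pol2_bij.1 (by rw [hb, Finsupp.notMem_support_iff.1 k, map_zero, map_zero])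

theorem ev_blk (col : P → C) (c : HPt ((Gp.blk col).prod (Gp.tor κ))) : Ev c := by
  obtain ⟨f, e⟩ := pol2_bij.2 (gpt (inc col _) c)
  refine ev_iff.2 fun m hm => (res_free col _ _ (gadm_pt_id _)).1 ?_
  rw [map_zero, dpr_eq_prj, gp_def, pull_prj, ← dpr_eq_prj]
  exact ev_iff.1 (e ▸ ev_pol2 f) m hm

end

end Pool.Agent.Work.MP_849ab0_ag.G
end
end

-- merged part: Pool.Agent.Work.MP_849ab0_ag.G.GrpLoc
section
/-! The equivariant Thom isomorphism for a subset that is locally a zero section. -/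

noncomputable section

set_option linter.unusedSectionVars false

namespace Pool.Agent.Work.MP_849ab0_ag.G

open Set Topology Filter

/-- The inverse of an open embedding of subsets. -/
theorem exists_inv_of_emb {P Q : Type} [TopologicalSpace P] [TopologicalSpace Q] [Nonempty P]
    {k : P → Q} {O : Set P} {U : Set Q} (hm : MapsTo k O U)
    (h : IsOpenEmbedding (hm.restrict k O U)) : ∃ (l : Q → P) (N : Set Q), IsOpen N ∧
      ContinuousOn k O ∧ ContinuousOn l (U ∩ N) ∧ MapsTo k O N ∧ MapsTo l (U ∩ N) O ∧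
        (∀ w ∈ O, l (k w) = w) ∧ ∀ y ∈ U ∩ N, k (l y) = y := by
  obtain ⟨N, n1, n2⟩ := isOpen_induced_iff.1 h.isOpen_range
  have ex : ∀ y ∈ U ∩ N, ∃ w ∈ O, k w = y := fun y m => by
    obtain ⟨w, e⟩ : (⟨y, m.1⟩ : U) ∈ range (hm.restrict k O U) := n2 ▸ m.2
    exact ⟨w, w.2, congrArg Subtype.val e⟩
  have inj : InjOn k O := fun w m w' m' e =>
    congrArg Subtype.val (@h.injective ⟨w, m⟩ ⟨w', m'⟩ (Subtype.ext e))
  refine ⟨Function.invFunOn k O, N, n1, continuousOn_iff_continuous_domRestrict.2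
    (continuous_subtype_val.comp h.continuous), continuousOn_iff_continuous_domRestrict.2 ?_,
    fun w m => show hm.restrict k O U ⟨w, m⟩ ∈ Subtype.val ⁻¹' N from n2 ▸ mem_range_self _,
    fun y m => Function.invFunOn_mem (ex y m), fun w m => inj.leftInvOn_invFunOn m,
    fun y m => Function.invFunOn_eq (ex y m)⟩
  refine continuous_subtype_val.comp (f := fun y : ↥(U ∩ N) =>
    (⟨_, Function.invFunOn_mem (ex y y.2)⟩ : O)) (h.isInducing.continuous_iff.2 ?_)
  exact (continuous_subtype_val.subtype_mk fun y => y.2.1).congr fun y =>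
    Subtype.ext (Function.invFunOn_eq (ex y y.2)).symm

variable {G : Gp} [G.Nice] {X : Type} [TopologicalSpace X] [T3Space X] [SecondCountableTopology X]
  {a : Act G X} [a.Ok] {U Z : Set X}

/-- A pull-back to a space with the trivial group factors through the plain pull-back. -/
theorem gp_one_eq_zero {T : Type} [TopologicalSpace T] [T3Space T] [SecondCountableTopology T]
    {f : T → X} {D E : Set T} (h : GAdm (Act.triv Gp.one T) a (fun _ => 1) f D E U Z) (e : Fm G.ι)
    {c : EH a U Z} (hc : pull (fun v => a.bmk e (f v)) D E c = 0) :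
    gp (Act.triv Gp.one T) (fun _ => 1) f D E c = 0 := by
  let pr : (Act.triv Gp.one T).Bor → T := Quot.lift Prod.snd fun _ _ k => k.choose_spec.2.symm
  have o1 : Ok pr ((Act.triv Gp.one T).bs D) ((Act.triv Gp.one T).bs E) D E :=
    .of_mem (.of_continuous (continuous_quot_lift _ continuous_snd) _)
      (by rintro _ ⟨e, x, m, rfl⟩; exact m) (by rintro _ ⟨e, x, m, rfl⟩ k; exact ⟨e, x, k, rfl⟩)
  have o2 : Ok (fun v => a.bmk e (f v)) D E (a.bs U) (a.bs Z) :=
    .of_mem (.of_continuousOn h.src.lc (a.contOn_bmk continuousOn_const h.cont))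
      (fun v m => ⟨e, _, h.maps m, rfl⟩) fun v m k => h.supp v m ((h.tgt.mem_bs (h.maps m)).1 k)
  rw [gp_eq h (g := fun _ => e) continuousOn_const (fun _ _ _ _ => (G.fm.act_one e).symm)
    (F := (fun v => a.bmk e (f v)) ∘ pr) fun _ _ _ => rfl, ← pull_pull o1 o2, hc, map_zero]

theorem thom_loc0 {J A : Type} [Fintype J] [TopologicalSpace A] {S : Set X} (h : a.Pr U S)
    (hS : S ⊆ U) {τ : EH a U S} (hτ : IsDeg (2 * Fintype.card J) τ)
    (hc : ∀ x ∈ S, ∃ g, ∃ (O : Set (A × (J → ℂ))) (k : A × (J → ℂ) → X) (z : A), IsOpen O ∧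
      (z, 0) ∈ O ∧ k (z, 0) = a.act g x ∧ (∀ w ∈ O, k w ∈ S ↔ w.2 = 0) ∧
      (∃ hm : MapsTo k O U, IsOpenEmbedding (hm.restrict k O U)) ∧
      gp (Act.triv Gp.one (J → ℂ)) (fun _ => 1) (fun v => k (z, v)) {v | (z, v) ∈ O} {0} τ ≠ 0) :
    Function.Bijective fun g : EH a S univ => ecup U S g τ := by
  have := Gp.Nice.tg (G := G)
  suffices b : Function.Bijective fun c : H (a.bs S) univ => cup (a.bs U) (a.bs S) c τ by
    change Function.Bijective fun c : H (a.bs S) (a.bs univ) => cup (a.bs U) (a.bs S) c τ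
    rwa [Act.bs_univ]
  refine thom_chart h.bs_lc h.bs_cl (Act.bs_mono hS) hτ ?_
  rintro _ ⟨e, x, hx, rfl⟩
  obtain ⟨g, O, k, z, hO, z0, ez, hk, ⟨hm, em⟩, h0⟩ := hc x hx
  have : Nonempty A := ⟨z⟩
  obtain ⟨l, N, n1, ck, cl, mk, ml, e1, e2⟩ := exists_inv_of_emb hm em
  obtain ⟨V, v1, v2, v3, ρ, r1, r2, r3⟩ := G.exists_locTriv (G.fm.act g e)
  let Sg : Type := {e // e ∈ V ∧ ρ e = 1}
  let s₀ : Sg := ⟨_, v2, r2⟩
  have : Nonempty Sg := ⟨s₀⟩
  classical
  let r : Fm G.ι → Sg := fun e =>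
    if m : e ∈ V then ⟨G.fm.act (ρ e)⁻¹ e, v3 _ _ m, by rw [r3 _ _ m, inv_mul_cancel]⟩ else s₀
  have rv : ∀ e ∈ V, (r e).1 = G.fm.act (ρ e)⁻¹ e := fun e m => by simp only [r, dif_pos m]
  have cr : ContinuousOn r V := IsInducing.subtypeVal.continuousOn_iff.2
    ((G.fm.contOn_act r1.inv continuousOn_id).congr rv)
  let u : Fm G.ι × X → X := fun p => a.act (ρ p.1)⁻¹ p.2
  have cu : ContinuousOn u (V ×ˢ univ) :=
    a.contOn_act (r1.comp continuousOn_fst fun _ m => m.1).inv continuousOn_snd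
  have eu : ∀ γ, ∀ e ∈ V, ∀ x, u (G.fm.act γ e, a.act γ x) = u (e, x) := fun γ e m x => by
    simp only [u]
    rw [r3 _ _ m, mul_inv_rev, a.act_mul, a.act_inv]
  let P : Set (Fm G.ι × X) := V ×ˢ univ ∩ u ⁻¹' N
  have mP : ∀ p, a.bq p ∈ a.bq '' P → p ∈ P := by
    rintro _ ⟨⟨e, x⟩, m, k⟩
    obtain ⟨γ, rfl⟩ := (a.isOrbQ.eq_iff _ _).1 k
    exact ⟨⟨v3 _ _ m.1.1, trivial⟩, show u _ ∈ N from (eu γ e m.1.1 x).symm ▸ m.2⟩
  obtain ⟨L, hL⟩ := exists_desc (q := a.bq) (V := V ×ˢ univ)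
    (F := fun p => ((r p.1, (l (u p)).1), (l (u p)).2)) (by
      rintro ⟨e, x⟩ m _ - k
      obtain ⟨γ, rfl⟩ := (a.isOrbQ.eq_iff _ _).1 k
      have : r (G.fm.act γ e) = r e := Subtype.ext (by
        rw [rv _ (v3 _ _ m.1), rv _ m.1, r3 _ _ m.1, mul_inv_rev, G.fm.act_mul, G.fm.act_inv])
      change _ = ((r (G.fm.act γ e), (l (u (_, a.act γ x))).1), (l (u (_, a.act γ x))).2)
      rw [this, eu γ e m.1])
  have mu : ∀ p, a.bq p ∈ a.bs U ∩ a.bq '' P → u p ∈ U ∩ N := fun p m =>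
    ⟨h.inv _ _ ((Act.mem_bs h.inv).1 m.1), (mP p m.2).2⟩
  have us : ∀ (s : Sg) x, u (s.1, x) = x := fun s x => by simp only [u, s.2.2, inv_one, a.act_one]
  have cw : Continuous fun w : (Sg × A) × (J → ℂ) => (w.1.2, w.2) := by fun_prop
  have cz : Continuous fun v : J → ℂ => (z, v) := by fun_prop
  refine ⟨Sg × A, inferInstance, (fun w => (w.1.2, w.2)) ⁻¹' O,
    fun w => a.bmk w.1.1.1 (k (w.1.2, w.2)), L, a.bq '' P, (s₀, z), hO.preimage cw,
    a.isOrbQ.isOpenMap _ (cu.isOpen_inter_preimage (v1.prod isOpen_univ) n1),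
    a.contOn_bmk (continuous_subtype_val.comp continuous_fst.fst).continuousOn (ck.comp cw.continuousOn fun _ m => m), ?_,
    fun w m => ⟨⟨_, _, hm m, rfl⟩, (_, _), ⟨⟨w.1.1.2.1, trivial⟩, ?_⟩, rfl⟩, fun p m => ?_,
    fun w m => ?_, fun p m => ?_, fun w m => (h.mem_bs (hm m)).trans (hk _ m), z0, ?_,
    fun k0 => h0 (gp_one_eq_zero ⟨Act.pr_of _ (hO.preimage cz).isLocallyClosed
      (fun _ _ m => m) isClosed_singleton fun _ _ m => m, h,
      ck.comp cz.continuousOn fun _ m => m, fun _ _ _ => (a.act_one _).symm, fun _ m => hm m,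
      fun _ m k => (hk _ m).1 k⟩ _ k0)⟩
  · have s : a.bq ⁻¹' (a.bs U ∩ a.bq '' P) ⊆ V ×ˢ univ := fun p m => (mP p m.2).1
    have c := cl.comp (cu.mono s) mu
    exact a.isOrbQ.continuousOn_iff.2 ((((cr.comp continuousOn_fst fun p m => (s m).1).prodMk
      c.fst).prodMk c.snd).congr fun p m => hL p (s m))
  · rw [mem_preimage, us]; exact mk m
  · obtain ⟨p, k, rfl⟩ := m.2
    rw [hL p k.1]
    exact ml (mu p m)
  · have := hL (w.1.1.1, k (w.1.2, w.2)) ⟨w.1.1.2.1, trivial⟩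
    rw [us, e1 _ m, show r w.1.1.1 = w.1.1 from Subtype.ext (by
      rw [rv _ w.1.1.2.1, w.1.1.2.2, inv_one, G.fm.act_one])] at this
    exact this
  · obtain ⟨p, k, rfl⟩ := m.2
    rw [hL p k.1]
    simp only
    rw [e2 _ (mu p m), rv _ k.1.1]
    exact a.bmk_act _ _ _
  · simp only
    rw [ez]
    exact a.bmk_act _ _ _

end Pool.Agent.Work.MP_849ab0_ag.G
end
end

-- merged part: Pool.Agent.Work.MP_849ab0_ag.G.ApiX
section
/-!
Further API (owners helper43: gp_conj, gp_ind, exists_bound; helper56: thom_loc).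
-/

noncomputable section

set_option linter.unusedSectionVars false
set_option linter.unusedVariables false

namespace Pool.Agent.Work.MP_849ab0_ag.G

open Set Topology Matrix

variable {G G' G'' : Gp} [G.Nice] [G'.Nice] [G''.Nice] {X X' X'' Y Y' : Type}
  [TopologicalSpace X] [T3Space X] [SecondCountableTopology X]
  [TopologicalSpace X'] [T3Space X'] [SecondCountableTopology X']
  [TopologicalSpace X''] [T3Space X''] [SecondCountableTopology X'']
  [TopologicalSpace Y] [T3Space Y] [SecondCountableTopology Y]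
  [TopologicalSpace Y'] [T3Space Y'] [SecondCountableTopology Y']
  {a : Act G X} [a.Ok] {a' : Act G' X'} [a'.Ok] {a'' : Act G'' X''} [a''.Ok]
  {b : Act G Y} [b.Ok] {b' : Act G' Y'} [b'.Ok]
  {φ : G'.H → G.H} [IsHom φ] {ψ : G''.H → G'.H} [IsHom ψ]

variable {U Z : Set X} {U' Z' : Set X'}

/-- two morphisms that differ by a continuous gauge transformation induce the same map -/
theorem gp_conj {φ₁ φ₂ : G'.H → G.H} [IsHom φ₁] [IsHom φ₂] {f₁ f₂ : X' → X}
    (h₁ : GAdm a' a φ₁ f₁ U' Z' U Z) (h₂ : GAdm a' a φ₂ f₂ U' Z' U Z) {k : X' → G.H}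
    (hk : ContinuousOn k U') (e : ∀ z ∈ U', f₁ z = a.act (k z) (f₂ z))
    (e' : ∀ g, ∀ z ∈ U', k (a'.act g z) = φ₁ g * k z * (φ₂ g)⁻¹) (c : EH a U Z) :
    gp a' φ₁ f₁ U' Z' c = gp a' φ₂ f₂ U' Z' c := by
  rw [gp_twist h₂ hk (φ₂ := φ₁) (fun g z hz => by rw [e' g z hz, inv_mul_cancel_right]) e]

/-- induction: `U` maps equivariantly to one orbit, `φ` is the inclusion of the stabiliser -/
theorem gp_ind (h : a.Pr U Z) (hφ : Function.Injective φ) {π : X → Y} (hπ : ContinuousOn π U)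
    (he : ∀ g, ∀ x ∈ U, π (a.act g x) = b.act g (π x)) {y₀ : Y}
    (ho : ∀ x ∈ U, ∃ g, b.act g y₀ = π x) (hs : ∀ g, b.act g y₀ = y₀ ↔ g ∈ range φ) :
    Function.Bijective (gp (a.res φ) φ id (U ∩ π ⁻¹' {y₀}) Z : EH a U Z → _) := by
  have p0 : (a.res φ).Pr U (π ⁻¹' {y₀}) :=
    ((b.res φ).pr_univ isClosed_singleton fun g y hy => by
      rw [show y = y₀ from hy]; exact (hs _).2 ⟨g, rfl⟩).preimage' (φ := id) (h.res φ) hπ
      (mapsTo_univ _ _) fun g => he (φ g)
  have p1 : (a.res φ).Pr (U ∩ π ⁻¹' {y₀}) univ :=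
    ⟨Cl.isLocallyClosed_inter p0.cl h.lc, p0.inv_inter, fun _ _ _ _ => trivial, fun _ _ => trivial⟩
  refine stackIso ⟨(h.res φ).mono p1 inter_subset_left, h, continuousOn_id, fun _ _ _ => rfl,
    inter_subset_left, fun _ _ k => k⟩ (fun _ _ k => k) (fun y hy => ?_) (fun x m x' m' g e => ?_)
    fun K hK cK => ?_
  · obtain ⟨g, e⟩ := ho y hy
    exact ⟨g, a.act g⁻¹ y, ⟨h.inv _ _ hy, by
      rw [mem_preimage, he _ _ hy, ← e, b.act_inv]; rfl⟩, a.act_inv' _ _⟩
  · have e1 := he g x m.1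
    rw [show a.act g x = x' from e, show π x' = y₀ from m'.2, show π x = y₀ from m.2] at e1
    obtain ⟨g', rfl⟩ := (hs g).1 e1.symm
    exact ⟨g', ⟨rfl, e⟩, fun _ k => hφ k.1⟩
  · convert cK.of_isClosed_subset ((hπ.mono hK).preimage_isClosed_of_isClosed cK.isClosed
      (isClosed_singleton (x := y₀))) inter_subset_left using 1
    exact Set.ext fun x => ⟨fun k => ⟨k.2, k.1.2⟩, fun k => ⟨⟨hK k.1, k.2⟩, k.1⟩⟩

/-- a support that is locally bounded over the base has a continuous invariant bound -/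
theorem exists_bound (h : a.Pr U Z) {p : Y → X} (he : ∀ g y, p (b.act g y) = a.act g (p y))
    {W : Set Y} (hW : ∀ g, ∀ y ∈ W, p y ∈ U → b.act g y ∈ W) {N : Y → ℝ}
    (hN : ∀ g, ∀ y ∈ W, p y ∈ U → N (b.act g y) = N y)
    (hb : ∀ x ∈ U, ∃ C, ∀ᶠ x' in 𝓝[U] x, ∀ y ∈ W, p y = x' → N y ≤ C) :
    ∃ R : X → ℝ, ContinuousOn R U ∧ (∀ g, ∀ x ∈ U, R (a.act g x) = R x) ∧
      ∀ y ∈ W, p y ∈ U → N y ≤ R (p y) := by
  classical
  have := a.ok_sub h.inv
  have : ParacompactSpace U := letI := TopologicalSpace.metrizableSpaceMetric U; inferInstance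
  obtain ⟨R0, h0⟩ := exists_continuous_forall_mem_convex_of_local_const (X := U)
    (t := fun x => {r : ℝ | ∀ y ∈ W, p y = x → N y ≤ r})
    (fun x r hr s hs α β hα hβ e y hy k => by
      have := hr y hy k
      have := hs y hy k
      calc N y = α * N y + β * N y := by rw [← add_mul, e, one_mul]
        _ ≤ α * r + β * s := by gcongr)
    fun x => (hb x x.2).imp fun C k => by
      rw [← map_nhds_subtype_val] at k; exact k
  let R1 : U → ℝ := fun x => sSup ((fun g => R0 ((a.sub U).act g x)) '' univ)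
  have c0 : Continuous fun z : U × G.H => R0 ((a.sub U).act z.2 z.1) :=
    R0.continuous.comp ((a.sub U).cont_act continuous_snd continuous_fst)
  have c1 : Continuous R1 := isCompact_univ.continuous_sSup c0
  refine ⟨fun x => if m : x ∈ U then R1 ⟨x, m⟩ else 0, ?_, fun g x m => ?_, fun y hy m => ?_⟩
  · rw [continuousOn_iff_continuous_domRestrict]
    exact c1.congr fun x => (dif_pos (t := fun m => R1 ⟨x, m⟩) x.2).symm
  · dsimp only
    rw [dif_pos m, dif_pos (h.inv g x m), show (⟨a.act g x, h.inv g x m⟩ : U) =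
      (a.sub U).act g ⟨x, m⟩ from Subtype.ext (a.sub_val h.inv g ⟨x, m⟩).symm]
    refine congrArg sSup (Set.ext fun r => ⟨?_, ?_⟩)
    · rintro ⟨k, -, rfl⟩
      exact ⟨k * g, trivial, by simp only [Act.act_mul]⟩
    · rintro ⟨k, -, rfl⟩
      exact ⟨k * g⁻¹, trivial, by simp only [Act.act_mul, Act.act_inv]⟩
  · dsimp only
    rw [dif_pos m]
    refine (h0 ⟨_, m⟩ y hy rfl).trans (le_csSup (isCompact_univ.image
      (c0.comp (continuous_const.prodMk continuous_id))).bddAbove ⟨1, trivial, ?_⟩)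
    simp only [Act.act_one]

/-- local Thom isomorphism: `S` is locally the zero section of `A × ℂ ^ J` and `τ` is nonzero on
the normal slices -/
theorem thom_loc {J A : Type} [Fintype J] [TopologicalSpace A] {S : Set X} (h : a.Pr U S)
    (hS : S ⊆ U) {τ : EH a U S} (hτ : IsDeg (2 * Fintype.card J) τ)
    (hc : ∀ x ∈ S, ∃ g, ∃ (O : Set (A × (J → ℂ))) (k : A × (J → ℂ) → X) (z : A), IsOpen O ∧
      (z, 0) ∈ O ∧ k (z, 0) = a.act g x ∧ (∀ w ∈ O, k w ∈ S ↔ w.2 = 0) ∧
      (∃ hm : MapsTo k O U, IsOpenEmbedding (hm.restrict k O U)) ∧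
      gp (Act.triv Gp.one (J → ℂ)) (fun _ => 1) (fun v => k (z, v)) {v | (z, v) ∈ O} {0} τ ≠ 0) :
    Function.Bijective fun g : EH a S univ => ecup U S g τ := thom_loc0 h hS hτ hc

end Pool.Agent.Work.MP_849ab0_ag.G
end
end

-- merged part: Pool.Agent.Work.MP_849ab0_ag.G.QBasic
section
/-!
The action on `N` (shared by all parts).
-/

noncomputable section

set_option linter.unusedSectionVars false
set_option linter.unusedVariables false

namespace Pool.Agent.Work.MP_849ab0_ag.G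

open Set Topology Matrix

variable {I P E κ : Type} [Fintype I] [DecidableEq I] [Fintype P] [DecidableEq P] [Fintype E]
  [Fintype κ] [DecidableEq κ] (D : Qv I P E κ)

theorem hat_mul (c d : ℂ) (g h : Matrix P P ℂ) : hat c g * hat d h = hat (c * d) (g * h) := by
  ext (_ | a) (_ | b) <;> simp [hat, Matrix.mul_apply, Fintype.sum_option]

theorem hat_one : hat 1 (1 : Matrix P P ℂ) = 1 := by
  ext (_ | a) (_ | b) <;> simp [hat, Matrix.one_apply]

theorem hat_conjTranspose (c : ℂ) (g : Matrix P P ℂ) : (hat c g)ᴴ = hat (star c) gᴴ := by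
  ext (_ | a) (_ | b) <;> simp [hat]

theorem hat_inv {g : Matrix P P ℂ} (h : IsUnit g) : (hat 1 g)⁻¹ = hat 1 g⁻¹ :=   Matrix.inv_eq_left_inv (by
    rw [hat_mul, Matrix.nonsing_inv_mul _ ((Matrix.isUnit_iff_isUnit_det _).1 h), one_mul, hat_one])

theorem isUnit_hat {g : Matrix P P ℂ} (h : IsUnit g) : IsUnit (hat 1 g) :=   IsUnit.of_mul_eq_one (hat 1 g⁻¹) (by
    rw [hat_mul, Matrix.mul_nonsing_inv _ ((Matrix.isUnit_iff_isUnit_det _).1 h), one_mul, hat_one])

theorem continuous_hat (c : ℂ) : Continuous (hat c : Matrix P P ℂ → _) := by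
  refine continuous_matrix ?_
  rintro (_ | a) (_ | b)
  exacts [continuous_const, continuous_const, continuous_const, continuous_apply_apply a b]

namespace Qv

/-- block diagonal matrices -/
def Blk (g : Matrix P P ℂ) : Prop := ∀ a b, D.col a ≠ D.col b → g a b = 0

theorem Blk.mul {g h : Matrix P P ℂ} (hg : D.Blk g) (hh : D.Blk h) : D.Blk (g * h) := by
  intro a b hab
  refine Finset.sum_eq_zero fun d _ => ?_
  by_cases e : D.col a = D.col d
  · exact mul_eq_zero_of_right _ (hh d b (e ▸ hab))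
  · exact mul_eq_zero_of_left (hg a d e) _

theorem Blk.inv {g : Matrix P P ℂ} (hg : D.Blk g) : D.Blk g⁻¹ := by
  intro a b hab
  by_cases hu : IsUnit g.det
  · let d : Matrix P P ℂ := diagonal fun x => if D.col x = D.col a then 1 else 0
    have h1 : d * g = g * d := by
      ext x y
      simp only [d, diagonal_mul, mul_diagonal]
      by_cases e : D.col x = D.col y
      · rw [e, mul_comm]
      · rw [hg x y e, mul_zero, zero_mul]
    have h2 : d * g⁻¹ = g⁻¹ * d := by
      rw [← Matrix.nonsing_inv_mul_cancel_left g (d * g⁻¹) hu, ← Matrix.mul_assoc g, ← h1,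
        Matrix.mul_nonsing_inv_cancel_right _ _ hu]
    have h3 := congrFun (congrFun h2 a) b
    simpa [d, diagonal_mul, mul_diagonal, hab.symm] using h3
  · rw [Matrix.nonsing_inv_apply_not_isUnit _ hu]
    rfl

theorem Blk.star {g : Matrix P P ℂ} (hg : D.Blk g) : D.Blk gᴴ := fun a b hab => by
  rw [conjTranspose_apply, hg b a hab.symm, star_zero]

theorem mat_apply (y : D.Rep) (p : D.Wt) : D.mat y p.1.1 p.1.2.2 p.1.2.1 = y p :=   dif_pos p.2

theorem mat_inj {y z : D.Rep} (h : ∀ e, D.mat y e = D.mat z e) : y = z :=   funext fun p => by rw [← D.mat_apply y, h, D.mat_apply]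

theorem mat_add (y z : D.Rep) (e : E) : D.mat (y + z) e = D.mat y e + D.mat z e := by
  ext b a
  simp only [mat, Matrix.of_apply, Matrix.add_apply]
  split_ifs
  exacts [rfl, (add_zero _).symm]

theorem mat_smul (c : ℂ) (y : D.Rep) (e : E) : D.mat (c • y) e = c • D.mat y e := by
  ext b a
  simp only [mat, Matrix.of_apply, Matrix.smul_apply]
  split_ifs
  exacts [rfl, (smul_zero _).symm]

theorem mat_zero (e : E) : D.mat 0 e = 0 := by
  ext b a
  simp only [mat, Matrix.of_apply]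
  split_ifs <;> rfl

theorem continuous_mat (e : E) : Continuous fun y : D.Rep => D.mat y e := by
  refine continuous_matrix fun b a => ?_
  simp only [mat, Matrix.of_apply]
  split_ifs
  exacts [continuous_apply _, continuous_const]

theorem qbasic_hat {g : Matrix P P ℂ} (hg : D.Blk g) (c : ℂ) {a b : Option P}
    (h : a.map D.col ≠ b.map D.col) : hat c g a b = 0 := by
  rcases a with _ | a <;> rcases b with _ | b
  exacts [absurd rfl h, rfl, rfl, hg a b fun e => h (congrArg some e)]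

/-- reading off the coordinates of `g y h` for block matrices -/
theorem mat_of_blk {g h : Matrix P P ℂ} (hg : D.Blk g) (hh : D.Blk h) (c d : ℂ) (y : D.Rep)
    (e : E) : D.mat (fun p => (hat c g * D.mat y p.1.1 * hat d h) p.1.2.2 p.1.2.1) e =
      hat c g * D.mat y e * hat d h := by
  ext b a
  by_cases k : a.map D.col = D.src e ∧ b.map D.col = D.tgt e
  · exact dif_pos k
  · refine (dif_neg k).trans (Finset.sum_eq_zero fun a' _ => ?_).symm
    by_cases e1 : a'.map D.col = a.map D.col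
    · refine mul_eq_zero_of_left (Finset.sum_eq_zero fun b' _ => ?_) _
      by_cases e2 : b.map D.col = b'.map D.col
      · exact mul_eq_zero_of_right _ (dif_neg (by rwa [e1, ← e2]))
      · exact mul_eq_zero_of_left (D.qbasic_hat hg c e2) _
    · exact mul_eq_zero_of_right _ (D.qbasic_hat hh d e1)

theorem mat_gact {g : Matrix P P ℂ} (hg : D.Blk g) (hu : IsUnit g) (y : D.Rep) (e : E) :
    D.mat (D.gact g y) e = hat 1 g * D.mat y e * (hat 1 g)⁻¹ := by
  unfold gact
  rw [hat_inv hu]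
  exact D.mat_of_blk hg (Blk.inv D hg) 1 1 y e

theorem gact_one (y : D.Rep) : D.gact 1 y = y :=   funext fun p => by simp only [gact, hat_one, inv_one, one_mul, mul_one, mat_apply]

theorem gact_mul {g h : Matrix P P ℂ} (hg : D.Blk g) (hu : IsUnit g) (hh : D.Blk h)
    (hv : IsUnit h) (y : D.Rep) : D.gact (g * h) y = D.gact g (D.gact h y) :=   D.mat_inj fun e => by
    rw [D.mat_gact (Blk.mul D hg hh) (hu.mul hv), D.mat_gact hg hu, D.mat_gact hh hv,
      ← one_mul (1 : ℂ), ← hat_mul, one_mul, Matrix.mul_inv_rev]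
    simp only [Matrix.mul_assoc]

theorem qbasic_unit (g : Matrix.unitaryGroup P ℂ) : (hat 1 g.1)ᴴ * hat 1 g.1 = 1 := by
  have h : g.1ᴴ * g.1 = 1 := g.2.1
  rw [hat_conjTranspose, hat_mul, h, star_one, one_mul, hat_one]

theorem mat_aN (g : (KT D.col κ).H) (y : D.Rep) (e : E) :
    D.mat (D.aN.act g y) e = chr (D.t e) g.2 • (hat 1 g.1.1.1 * D.mat y e * (hat 1 g.1.1.1)ᴴ) := by
  have hu : IsUnit g.1.1.1 := IsUnit.of_mul_eq_one _ g.1.1.2.2
  rw [← Matrix.inv_eq_left_inv (qbasic_unit g.1.1), ← D.mat_gact g.1.2 hu]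
  ext b a
  simp only [mat, Matrix.of_apply, Matrix.smul_apply]
  split_ifs
  exacts [rfl, (smul_zero _).symm]

theorem nsq_eq (y : D.Rep) : (nsq y : ℂ) = ∑ e, trace ((D.mat y e)ᴴ * D.mat y e) := by
  classical
  let F : E × Option P × Option P → ℂ := fun q =>
    star (D.mat y q.1 q.2.2 q.2.1) * D.mat y q.1 q.2.2 q.2.1
  have h1 : (nsq y : ℂ) = ∑ p : D.Wt, F p.1 := by
    simp only [nsq, F, mat_apply, Complex.ofReal_sum]
    refine Finset.sum_congr rfl fun p _ => ?_
    rw [Complex.star_def, Complex.conj_mul', Complex.ofReal_pow]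
  have h2 : ∑ q ∈ Finset.univ.filter (fun p : E × Option P × Option P =>
      p.2.1.map D.col = D.src p.1 ∧ p.2.2.map D.col = D.tgt p.1), F q = ∑ p : D.Wt, F p.1 :=
    Finset.sum_subtype _ (by simp) F
  rw [h1, ← h2, Finset.sum_filter_of_ne fun q _ k => by
    by_contra k'
    exact k (mul_eq_zero_of_right _ (dif_neg k'))]
  simp only [Fintype.sum_prod_type, F, trace, diag, Matrix.mul_apply, conjTranspose_apply]

instance : D.aN.Rep :=   have hc := fun e => isChar_chr (D.t e)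
  { one := fun y => funext fun p => by
      change chr _ 1 * D.gact 1 y p = _
      rw [(hc _).one, gact_one, one_mul]
    mul := fun g h y => D.mat_inj fun e => by
      rw [mat_aN, mat_aN, mat_aN]
      change chr _ (g.2 * h.2) • (hat 1 (g.1.1.1 * h.1.1.1) * _ * (hat 1 (g.1.1.1 * h.1.1.1))ᴴ) = _
      rw [(hc e).mul, ← one_mul (1 : ℂ), ← hat_mul, one_mul, conjTranspose_mul]
      simp only [Matrix.mul_smul, Matrix.smul_mul, smul_smul, Matrix.mul_assoc]
    cont := continuous_pi fun p => by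
      have h1 : Continuous fun z : (KT D.col κ).H × D.Rep => hat 1 z.1.1.1.1 :=
        (continuous_hat 1).comp ((Gp.Nice.cont (G := Gp.blk D.col)).comp continuous_fst.fst)
      have h2 := (((hc p.1.1).cont.comp continuous_fst.snd).smul
        ((h1.matrix_mul ((D.continuous_mat p.1.1).comp continuous_snd)).matrix_mul
          h1.matrix_conjTranspose)).matrix_elem p.1.2.2 p.1.2.1
      refine h2.congr fun z => ?_
      rw [← D.mat_apply (D.aN.act _ _), mat_aN]
      rfl
    lin := fun g => ⟨fun y z => D.mat_inj fun e => by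
        simp only [mat_aN, mat_add, Matrix.mul_add, Matrix.add_mul, smul_add],
      fun c y => D.mat_inj fun e => by
        simp only [mat_aN, mat_smul, Matrix.mul_smul, Matrix.smul_mul, smul_smul, mul_comm]⟩
    nsq := fun g y => Complex.ofReal_injective (by
      rw [nsq_eq, nsq_eq]
      refine Finset.sum_congr rfl fun e _ => ?_
      have h1 : star (chr (D.t e) g.2) * chr (D.t e) g.2 = 1 := by
        rw [Complex.star_def, Complex.conj_mul', (hc e).norm]
        simp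
      rw [mat_aN, conjTranspose_smul, Matrix.smul_mul, Matrix.mul_smul, smul_smul, h1, one_smul,
        conjTranspose_mul, conjTranspose_mul, conjTranspose_conjTranspose, Matrix.mul_assoc,
        trace_mul_comm]
      simp only [Matrix.mul_assoc, qbasic_unit, Matrix.mul_one]
      rw [← Matrix.mul_assoc (hat 1 g.1.1.1)ᴴ, qbasic_unit, Matrix.one_mul]) }

/-- the weight of a coordinate under `T_K` -/
def wt (p : D.Wt) : P → ℤ := fun a =>
  (if p.1.2.2 = some a then 1 else 0) - if p.1.2.1 = some a then 1 else 0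

theorem aN_inc (g : ((Gp.tor P).prod (Gp.tor κ)).H) (y : D.Rep) (p : D.Wt) :
    D.aN.act (inc D.col _ g) y p = chr (D.wt p) g.1 * chr (D.t p.1.1) g.2 * y p := by
  have h1 : hat 1 (diagonal fun j => (g.1 j : ℂ)) =
      diagonal fun o : Option P => ((o.elim 1 g.1 : Circle) : ℂ) := by
    ext (_ | a) (_ | b) <;> simp [hat, diagonal_apply]
  have h2 : ∀ o : Option P, chr (fun a => if o = some a then 1 else 0) g.1 =
      ((o.elim 1 g.1 : Circle) : ℂ) := by
    rintro (_ | b)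
    · simp [chr]
    · rw [Option.elim_some, ← chr_single b]
      congr 1
      ext a
      simp [Pi.single_apply, eq_comm]
  have h3 : D.wt p = (fun a => if p.1.2.2 = some a then 1 else 0) +
      (-1 : ℤ) • fun a => if p.1.2.1 = some a then 1 else 0 := by
    ext a
    simp [wt, sub_eq_add_neg]
  rw [← D.mat_apply (D.aN.act _ _), mat_aN, h3, chr_add, chr_zsmul, h2, h2]
  change chr _ g.2 * (hat 1 (diagonal fun j => (g.1 j : ℂ)) * D.mat y p.1.1 *
    (hat 1 (diagonal fun j => (g.1 j : ℂ)))ᴴ) p.1.2.2 p.1.2.1 = _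
  rw [h1, diagonal_conjTranspose, mul_diagonal, diagonal_mul, mat_apply, Pi.star_apply,
    Complex.star_def, ← Circle.coe_inv_eq_conj, Circle.coe_inv, _root_.zpow_neg_one]
  ring

/-- `H(B(K × T))` inside `S[x]` -/
def lam : D.HP →+* MvPolynomial P (MvPolynomial κ ℂ) :=
  (RingEquiv.ofBijective (pol2 P κ) pol2_bij).symm.toRingHom.comp
    (gpt (inc D.col (Gp.tor κ))).toRingHom

theorem pol2_lam (c : D.HP) : pol2 P κ (D.lam c) = gpt (inc D.col _) c :=
  (RingEquiv.ofBijective (pol2 P κ) pol2_bij).apply_symm_apply _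

theorem lam_inj : Function.Injective D.lam := fun x y h =>
  res_inj (col := D.col) (c := Act.pt _) (Act.pr_pt _)
    ((D.pol2_lam x).symm.trans ((congrArg _ h).trans (D.pol2_lam y)))

theorem mem_range_lam (f : MvPolynomial P (MvPolynomial κ ℂ)) :
    (∃ c, D.lam c = f) ↔
      ∀ w : Equiv.Perm P, (∀ j, D.col (w j) = D.col j) → MvPolynomial.rename w f = f := by
  rw [← res_range D.col f]
  exact exists_congr fun c => by rw [← pol2_lam, pol2_bij.1.eq_iff]

/-- the Kirwan map to the cohomology of a subset of `N ⊕ N^*` -/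
def kx (U : Set D.dbl.Rep) : D.HP →ₗ[ℂ] EH D.dbl.aN U univ := gp _ id (fun _ => ()) U univ

/-- the same quiver with other weights -/
abbrev chg {κ' : Type} (t : E → κ' → ℤ) (h : κ' → ℤ) : Qv I P E κ' := ⟨D.col, D.src, D.tgt, t, h⟩

/-- the torus contains a contracting circle -/
def Contr : Prop := ∃ ρ : κ → ℤ, ∀ e, 0 < ∑ j, ρ j * D.t e j ∧ 0 < ∑ j, ρ j * (D.h j - D.t e j)

end Qv

end Pool.Agent.Work.MP_849ab0_ag.G
end
end
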