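import Mathlib

/-!
Alexander-Spanier cohomology with complex coefficients and with supports.

A `p`-cochain is a function of `p + 1` points; all degrees are handled at once by taking
functions on lists.  `H U Z` is the cohomology of the cochains that vanish locally at the points
of `U \ Z` modulo those that vanish locally at the points of `U`.  For `U` open, or locally closed
in a metrisable space, this is `H^*(U, U \ Z)`, the cohomology of `U` with supports in `Z`.
-/

noncomputable section

set_option linter.unusedSectionVars false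

namespace Pool.Agent.Work.MP_849ab0_ag.G

open Set Topology Finset

variable {X Y : Type}

/-- Cochains form an additive monoid. -/
local instance chM (X : Type) : AddCommMonoid (List X → ℂ) := Pi.addCommMonoid

/-- The coboundary. -/
def dl : (List X → ℂ) →ₗ[ℂ] (List X → ℂ) where
  toFun φ l := ∑ i ∈ range l.length, (-1) ^ i * φ (l.eraseIdx i)
  map_add' φ ψ := by ext l; simp [mul_add, sum_add_distrib]
  map_smul' c φ := by ext l; simp [mul_sum, mul_left_comm]

/-- The cup product of cochains. -/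
def cupc : (List X → ℂ) →ₗ[ℂ] (List X → ℂ) →ₗ[ℂ] (List X → ℂ) :=
  LinearMap.mk₂ ℂ (fun φ ψ l => ∑ i ∈ range l.length, φ (l.take (i + 1)) * ψ (l.drop i))
    (fun _ _ _ => by ext l; simp [add_mul, sum_add_distrib])
    (fun _ _ _ => by ext l; simp [mul_sum, mul_assoc])
    (fun _ _ _ => by ext l; simp [mul_add, sum_add_distrib])
    (fun _ _ _ => by ext l; simp [mul_sum, mul_left_comm])

/-- The pull-back of cochains. -/
def pullc (f : X → Y) : (List Y → ℂ) →ₗ[ℂ] (List X → ℂ) := LinearMap.funLeft ℂ ℂ (List.map f)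

/-- The constant `0`-cochain `1`. -/
def onec : List X → ℂ := fun l => if l.length = 1 then 1 else 0

variable [TopologicalSpace X] [TopologicalSpace Y]

/-- Cochains that vanish locally at every point of `U`. -/
def lz (U : Set X) : Submodule ℂ (List X → ℂ) where
  carrier := {φ | ∀ x ∈ U, ∃ V ∈ 𝓝 x, ∀ l : List X, (∀ y ∈ l, y ∈ V) → φ l = 0}
  add_mem' {φ ψ} h1 h2 x hx := by
    obtain ⟨V, hV, k1⟩ := h1 x hx
    obtain ⟨W, hW, k2⟩ := h2 x hx
    exact ⟨V ∩ W, Filter.inter_mem hV hW, fun l hl => by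
      simp [k1 l fun y hy => (hl y hy).1, k2 l fun y hy => (hl y hy).2]⟩
  zero_mem' x _ := ⟨univ, Filter.univ_mem, fun _ _ => rfl⟩
  smul_mem' c φ h x hx := by
    obtain ⟨V, hV, k⟩ := h x hx
    exact ⟨V, hV, fun l hl => by simp [k l hl]⟩

/-- Cochains of bounded degree. -/
def bd (X : Type) : Submodule ℂ (List X → ℂ) where
  carrier := {φ | φ [] = 0 ∧ ∃ m, ∀ l : List X, m < l.length → φ l = 0}
  add_mem' := by
    rintro φ ψ ⟨h1, m, k1⟩ ⟨h2, m', k2⟩
    exact ⟨by simp [h1, h2], max m m', fun l hl => by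
      simp [k1 l (lt_of_le_of_lt (le_max_left _ _) hl), k2 l (lt_of_le_of_lt (le_max_right _ _) hl)]⟩
  zero_mem' := ⟨rfl, 0, fun _ _ => rfl⟩
  smul_mem' := by
    rintro c φ ⟨h, m, k⟩
    exact ⟨by simp [h], m, fun l hl => by simp [k l hl]⟩

/-- Cocycles on `U` with support in `Z`. -/
def Zc (U Z : Set X) : Submodule ℂ (List X → ℂ) := bd X ⊓ (lz U).comap dl ⊓ lz (U \ Z)

/-- Coboundaries on `U` with support in `Z`. -/
def Bc (U Z : Set X) : Submodule ℂ (List X → ℂ) := (bd X ⊓ lz (U \ Z)).map dl ⊔ lz U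

/-- Cohomology of `U` with supports in `Z`. -/
abbrev H (U Z : Set X) : Type := Zc U Z ⧸ (Bc U Z).comap (Zc U Z).subtype

instance (U Z : Set X) : AddCommGroup (H U Z) := Submodule.Quotient.addCommGroup _

instance (U Z : Set X) : AddCommMonoid (H U Z) := Submodule.Quotient.addCommMonoid _

instance (U Z : Set X) : Module ℂ (H U Z) := Submodule.Quotient.module _

instance (U Z : Set X) : SMul ℂ (H U Z) := (instModuleComplexH U Z).toSMul

instance (U Z : Set X) : SMulCommClass ℂ ℂ (H U Z) := ⟨smul_comm⟩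

instance (U Z : Set X) : Zero (H U Z) := (instAddCommMonoidH U Z).toZero

/-- The class of a cocycle. -/
def cls (U Z : Set X) (φ : List X → ℂ) : H U Z :=
  open Classical in if h : φ ∈ Zc U Z then Submodule.Quotient.mk ⟨φ, h⟩ else 0

/-- `a` is homogeneous of degree `p`. -/
def IsDeg {U Z : Set X} (p : ℤ) (a : H U Z) : Prop :=
  ∃ φ ∈ Zc U Z, a = cls U Z φ ∧ ∀ l : List X, (l.length : ℤ) ≠ p + 1 → φ l = 0

/-- `f` is a map of pairs `(U, U \ Z) → (U', U' \ Z')`, continuous at the points of `U`. -/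
structure Adm (f : X → Y) (U Z : Set X) (U' Z' : Set Y) : Prop where
  cont : ∀ x ∈ U, ContinuousAt f x
  maps : MapsTo f U U'
  supp : MapsTo f (U \ Z) (U' \ Z')

/-- Pull-back along `f`; only the values of `f` on `U` are used.  It is `0` if `f` is not a
continuous map of pairs. -/
def pull (f : X → Y) (U Z : Set X) {U' Z' : Set Y} : H U' Z' →ₗ[ℂ] H U Z :=
  open Classical in
  if h : ∃ g, EqOn f g U ∧ Adm g U Z U' Z' then
    epsilon fun L => ∀ φ ∈ Zc U' Z', L (cls U' Z' φ) = cls U Z (pullc h.choose φ)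
  else 0

/-- `pull` as a function. -/
abbrev pullf (f : X → Y) (U Z : Set X) {U' Z' : Set Y} (a : H U' Z') : H U Z := pull f U Z a

/-- The sets for which the cup product `H U Z × H U' Z' → H U'' Z''` is defined: at a point of
`U''` both factors are defined or one of them vanishes. -/
structure CupOK (U Z U' Z' U'' Z'' : Set X) : Prop where
  left : U'' ⊆ (U \ Z) ∪ U'
  right : U'' ⊆ U ∪ (U' \ Z')
  supp : U'' \ Z'' ⊆ (U \ Z) ∪ (U' \ Z')

/-- The cup product; `0` if it is not defined for these sets. -/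
def cup (U'' Z'' : Set X) {U Z U' Z' : Set X} : H U Z →ₗ[ℂ] H U' Z' →ₗ[ℂ] H U'' Z'' :=
  open Classical in
  if CupOK U Z U' Z' U'' Z'' then
    epsilon fun L => ∀ φ ∈ Zc U Z, ∀ ψ ∈ Zc U' Z',
      L (cls U Z φ) (cls U' Z' ψ) = cls U'' Z'' (cupc φ ψ)
  else 0

/-- The `1`-cocycle `θ (c y) - θ (c x)`, `θ` the indicator function of the positive reals. -/
def jump (c : X → ℝ) : List X → ℂ
  | [x, y] => (if 0 < c y then 1 else 0) - if 0 < c x then 1 else 0
  | _ => 0

/-- The product topology on `ℂ ^ J`. -/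
local instance topC (J : Type) : TopologicalSpace (J → ℂ) := Pi.topologicalSpace

/-- The orientation class of `ℂ ^ J` in `H^{2|J|}(ℂ ^ J, ℂ ^ J \ 0)`. -/
def orient (J : Type) [Fintype J] : H (univ : Set (J → ℂ)) {0} :=
  cls univ {0} ((Finset.univ : Finset J).toList.foldr
    (fun j φ => cupc (cupc (jump fun w => (w j).re) (jump fun w => (w j).im)) φ) onec)

end Pool.Agent.Work.MP_849ab0_ag.G
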