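import Pool.Agent.Work.MP_849ab0_ag.G.Coh

/-!
The pull-back and the cup product are well defined.
-/

noncomputable section

set_option linter.unusedSectionVars false

namespace Pool.Agent.Work.MP_849ab0_ag.G

open Set Topology Finset

variable {X Y : Type}

/-- The sign `(-1) ^ p` on `p`-cochains. -/
def sgc (φ : List X → ℂ) : List X → ℂ := fun l => (-1) ^ (l.length + 1) * φ l

theorem dl_apply (φ : List X → ℂ) (l : List X) :
    dl φ l = ∑ i ∈ range l.length, (-1) ^ i * φ (l.eraseIdx i) := rfl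

theorem cupc_apply (φ ψ : List X → ℂ) (l : List X) :
    cupc φ ψ l = ∑ i ∈ range l.length, φ (l.take (i + 1)) * ψ (l.drop i) := rfl

theorem pullc_apply (f : X → Y) (φ : List Y → ℂ) (l : List X) : pullc f φ l = φ (l.map f) := rfl

theorem dl_nil (φ : List X → ℂ) : dl φ [] = 0 := rfl

theorem dl_cons (φ : List X → ℂ) (a : X) (l : List X) :
    dl φ (a :: l) = φ l - dl (fun m => φ (a :: m)) l := by
  simp [dl, sum_range_succ', pow_succ, sub_eq_add_neg, add_comm]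

theorem cupc_nil (φ ψ : List X → ℂ) : cupc φ ψ [] = 0 := rfl

theorem cupc_cons (φ ψ : List X → ℂ) (a : X) (l : List X) :
    cupc φ ψ (a :: l) = φ [a] * ψ (a :: l) + cupc (fun m => φ (a :: m)) ψ l := by
  simp [cupc, sum_range_succ', add_comm]

theorem dl_cupc_aux (ψ : List X → ℂ) (hψ : ψ [] = 0) (l : List X) : ∀ φ : List X → ℂ,
    dl (cupc φ ψ) l = cupc (dl φ) ψ l + cupc (sgc φ) (dl ψ) l - φ [] * ψ l := by
  induction l with
  | nil => intro φ; simp [dl_nil, cupc_nil, hψ]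
  | cons a l ih =>
    intro φ
    have e1 : (fun m => cupc φ ψ (a :: m)) =
        φ [a] • (fun m => ψ (a :: m)) + cupc (fun m => φ (a :: m)) ψ :=
      funext fun m => cupc_cons φ ψ a m
    have e2 : (fun m => dl φ (a :: m)) = φ - dl fun m => φ (a :: m) :=
      funext fun m => dl_cons φ a m
    have e3 : (fun m => sgc φ (a :: m)) = -sgc fun m => φ (a :: m) := by
      ext m; simp [sgc, pow_succ]
    rw [dl_cons, e1, map_add, map_smul, cupc_cons, cupc_cons, e2, e3, map_sub, map_neg,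
      dl_cons φ, dl_cons ψ]
    simp only [Pi.add_apply, Pi.smul_apply, smul_eq_mul, ih, LinearMap.sub_apply,
      LinearMap.neg_apply, Pi.sub_apply, Pi.neg_apply, dl_nil, sgc, List.length_singleton]
    ring

theorem dl_cupc {φ ψ : List X → ℂ} (hφ : φ [] = 0) (hψ : ψ [] = 0) :
    dl (cupc φ ψ) = cupc (dl φ) ψ + cupc (sgc φ) (dl ψ) := by
  ext l; simp [dl_cupc_aux ψ hψ, hφ]

theorem dl_pullc (f : X → Y) (φ : List Y → ℂ) : dl (pullc f φ) = pullc f (dl φ) := by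
  ext l; simp [dl, pullc, LinearMap.funLeft_apply, List.eraseIdx_map]

variable [TopologicalSpace X] [TopologicalSpace Y]

theorem lz_pullc {f : X → Y} {U : Set X} {U' : Set Y} (hf : ∀ x ∈ U, ContinuousAt f x)
    (hU : MapsTo f U U') {φ : List Y → ℂ} (h : φ ∈ lz U') : pullc f φ ∈ lz U := fun x hx => by
  obtain ⟨V, hV, k⟩ := h _ (hU hx)
  exact ⟨f ⁻¹' V, hf x hx hV, fun l hl => k _ (by simpa using hl)⟩

theorem bd_pullc (f : X → Y) {φ : List Y → ℂ} (h : φ ∈ bd Y) : pullc f φ ∈ bd X :=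
  ⟨h.1, h.2.imp fun _ k l hl => k _ (by simpa using hl)⟩

/-- Pull-back along a map of pairs. -/
def pull0 {f : X → Y} {U Z : Set X} {U' Z' : Set Y} (h : Adm f U Z U' Z') :
    H U' Z' →ₗ[ℂ] H U Z :=
  Submodule.mapQ _ _
    ((pullc f).restrict fun φ k => ⟨⟨bd_pullc f k.1.1, by
      have := lz_pullc h.cont h.maps k.1.2
      rwa [← dl_pullc] at this⟩, lz_pullc (fun x hx => h.cont x hx.1) h.supp k.2⟩)
    fun φ k => by
      obtain ⟨_, ⟨ψ, k1, rfl⟩, η, k2, e⟩ := Submodule.mem_sup.1 k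
      exact Submodule.mem_sup.2 ⟨_, ⟨pullc f ψ, ⟨bd_pullc f k1.1,
        lz_pullc (fun x hx => h.cont x hx.1) h.supp k1.2⟩, rfl⟩, _, lz_pullc h.cont h.maps k2, by
          rw [dl_pullc, ← map_add, e]; rfl⟩

theorem cls_mk {U Z : Set X} (φ : Zc U Z) : cls U Z φ.1 = Submodule.Quotient.mk φ := dif_pos φ.2

theorem pull_eq {f : X → Y} {U Z : Set X} {U' Z' : Set Y} (h : ∃ g, EqOn f g U ∧ Adm g U Z U' Z') :
    pull f U Z = pull0 h.choose_spec.2 := by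
  have e : ∀ φ ∈ Zc U' Z',
      pull0 h.choose_spec.2 (cls U' Z' φ) = cls U Z (pullc h.choose φ) := fun φ k => by
    rw [cls_mk ⟨φ, k⟩]; exact (cls_mk _).symm
  have e' := Classical.epsilon_spec (p := fun L : H U' Z' →ₗ[ℂ] H U Z =>
    ∀ φ ∈ Zc U' Z', L (cls U' Z' φ) = cls U Z (pullc h.choose φ)) ⟨_, e⟩
  rw [pull, dif_pos h]
  exact LinearMap.ext fun a => Submodule.Quotient.induction_on _ a fun φ => by
    rw [← cls_mk, e' _ φ.2, e _ φ.2]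

theorem cupc_lz {φ ψ : List X → ℂ} {A B C : Set X} (h1 : φ ∈ lz A) (h2 : ψ ∈ lz B)
    (h : C ⊆ A ∪ B) : cupc φ ψ ∈ lz C := fun x hx => by
  rcases h hx with k | k
  · obtain ⟨V, hV, k⟩ := h1 x k
    exact ⟨V, hV, fun l hl => (cupc_apply _ _ _).trans <| sum_eq_zero fun i _ => by
      rw [k _ fun y hy => hl y (List.mem_of_mem_take hy), zero_mul]⟩
  · obtain ⟨V, hV, k⟩ := h2 x k
    exact ⟨V, hV, fun l hl => (cupc_apply _ _ _).trans <| sum_eq_zero fun i _ => by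
      rw [k _ fun y hy => hl y (List.mem_of_mem_drop hy), mul_zero]⟩

theorem cupc_bd {φ ψ : List X → ℂ} (h1 : φ ∈ bd X) (h2 : ψ ∈ bd X) : cupc φ ψ ∈ bd X := by
  obtain ⟨-, m, k⟩ := h1
  obtain ⟨-, m', k'⟩ := h2
  refine ⟨rfl, m + m', fun l hl => (cupc_apply _ _ _).trans <| sum_eq_zero fun i hi => ?_⟩
  have := Finset.mem_range.1 hi
  by_cases h : m ≤ i
  · rw [k _ (by simp; omega), zero_mul]
  · rw [k' _ (by simp; omega), mul_zero]

theorem sgc_lz {φ : List X → ℂ} {A : Set X} (h : φ ∈ lz A) : sgc φ ∈ lz A := fun x hx =>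
  (h x hx).imp fun _ k => ⟨k.1, fun l hl => by simp [sgc, k.2 l hl]⟩

theorem sgc_bd {φ : List X → ℂ} (h : φ ∈ bd X) : sgc φ ∈ bd X :=
  ⟨by simp [sgc, h.1], h.2.imp fun _ k l hl => by simp [sgc, k l hl]⟩

theorem sgc_sgc (φ : List X → ℂ) : sgc (sgc φ) = φ := by
  ext l; simp [sgc, ← mul_assoc, ← mul_pow]

theorem dl_sgc (φ : List X → ℂ) : dl (sgc φ) = -sgc (dl φ) := by
  ext l
  simp only [dl, sgc, LinearMap.coe_mk, AddHom.coe_mk, Pi.neg_apply, mul_sum, ← sum_neg_distrib]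
  refine sum_congr rfl fun i hi => ?_
  have := Finset.mem_range.1 hi
  rw [List.length_eraseIdx_of_lt this, Nat.sub_add_cancel (by omega), pow_succ]
  ring

theorem dl_lz {φ : List X → ℂ} {A : Set X} (h : φ ∈ lz A) : dl φ ∈ lz A := fun x hx =>
  (h x hx).imp fun _ k => ⟨k.1, fun l hl => (dl_apply _ _).trans <| sum_eq_zero fun i _ => by
    rw [k.2 _ fun y hy => hl y (List.mem_of_mem_eraseIdx hy), mul_zero]⟩

theorem CupOK.zc {U Z U' Z' U'' Z'' : Set X} (h : CupOK U Z U' Z' U'' Z'') {φ ψ : List X → ℂ}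
    (h1 : φ ∈ Zc U Z) (h2 : ψ ∈ Zc U' Z') : cupc φ ψ ∈ Zc U'' Z'' :=
  ⟨⟨cupc_bd h1.1.1 h2.1.1, by
    change dl _ ∈ lz U''
    rw [dl_cupc h1.1.1.1 h2.1.1.1]
    exact add_mem (cupc_lz h1.1.2 h2.2 h.right) (cupc_lz (sgc_lz h1.2) h2.1.2 h.left)⟩,
    cupc_lz h1.2 h2.2 h.supp⟩

theorem CupOK.bc_left {U Z U' Z' U'' Z'' : Set X} (h : CupOK U Z U' Z' U'' Z'')
    {φ ψ : List X → ℂ} (h1 : φ ∈ Bc U Z) (h2 : ψ ∈ Zc U' Z') : cupc φ ψ ∈ Bc U'' Z'' := by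
  obtain ⟨_, ⟨α, k1, rfl⟩, η, k2, rfl⟩ := Submodule.mem_sup.1 h1
  refine Submodule.mem_sup.2 ⟨_, ⟨cupc α ψ, ⟨cupc_bd k1.1 h2.1.1, cupc_lz k1.2 h2.2 h.supp⟩, rfl⟩,
    _, sub_mem (cupc_lz k2 h2.2 h.right) (cupc_lz (sgc_lz k1.2) h2.1.2 h.left), ?_⟩
  rw [dl_cupc k1.1.1 h2.1.1.1, map_add, LinearMap.add_apply]
  abel

theorem CupOK.bc_right {U Z U' Z' U'' Z'' : Set X} (h : CupOK U Z U' Z' U'' Z'')
    {φ ψ : List X → ℂ} (h1 : φ ∈ Zc U Z) (h2 : ψ ∈ Bc U' Z') : cupc φ ψ ∈ Bc U'' Z'' := by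
  obtain ⟨_, ⟨α, k1, rfl⟩, η, k2, rfl⟩ := Submodule.mem_sup.1 h2
  refine Submodule.mem_sup.2 ⟨_, ⟨cupc (sgc φ) α, ⟨cupc_bd (sgc_bd h1.1.1) k1.1,
    cupc_lz (sgc_lz h1.2) k1.2 h.supp⟩, rfl⟩, _,
    add_mem (cupc_lz h1.2 k2 h.left) (cupc_lz (sgc_lz h1.1.2) k1.2 h.right), ?_⟩
  rw [dl_cupc (sgc_bd h1.1.1).1 k1.1.1, sgc_sgc, dl_sgc, map_add, map_neg, LinearMap.neg_apply]
  abel

/-- The cup product on classes. -/
def cup0 {U Z U' Z' U'' Z'' : Set X} (h : CupOK U Z U' Z' U'' Z'') :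
    H U Z →ₗ[ℂ] H U' Z' →ₗ[ℂ] H U'' Z'' :=
  Submodule.liftQ _
    (LinearMap.flip (Submodule.liftQ _
      (LinearMap.mk₂ ℂ (fun (ψ : Zc U' Z') (φ : Zc U Z) =>
          (Submodule.Quotient.mk ⟨cupc φ.1 ψ.1, h.zc φ.2 ψ.2⟩ : H U'' Z''))
        (fun _ _ _ => by rw [← Submodule.Quotient.mk_add]; congr 1; ext1; simp)
        (fun _ _ _ => by rw [← Submodule.Quotient.mk_smul]; congr 1; ext1; simp)
        (fun _ _ _ => by rw [← Submodule.Quotient.mk_add]; congr 1; ext1; simp)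
        (fun _ _ _ => by rw [← Submodule.Quotient.mk_smul]; congr 1; ext1; simp))
      fun ψ k => LinearMap.ext fun φ =>
        (Submodule.Quotient.mk_eq_zero _).2 (h.bc_right φ.2 k)))
    fun φ k => LinearMap.ext fun b => Submodule.Quotient.induction_on _ b fun ψ =>
      (Submodule.Quotient.mk_eq_zero _).2 (h.bc_left k ψ.2)

theorem cup_eq {U Z U' Z' U'' Z'' : Set X} (h : CupOK U Z U' Z' U'' Z'') :
    cup U'' Z'' = cup0 h := by
  have e : ∀ φ ∈ Zc U Z, ∀ ψ ∈ Zc U' Z',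
      cup0 h (cls U Z φ) (cls U' Z' ψ) = cls U'' Z'' (cupc φ ψ) := fun φ k ψ k' => by
    rw [cls_mk ⟨φ, k⟩, cls_mk ⟨ψ, k'⟩]; exact (cls_mk ⟨_, h.zc k k'⟩).symm
  have e' := Classical.epsilon_spec (p := fun L : H U Z →ₗ[ℂ] H U' Z' →ₗ[ℂ] H U'' Z'' =>
    ∀ φ ∈ Zc U Z, ∀ ψ ∈ Zc U' Z', L (cls U Z φ) (cls U' Z' ψ) = cls U'' Z'' (cupc φ ψ)) ⟨_, e⟩
  rw [cup, if_pos h]
  exact LinearMap.ext fun a => Submodule.Quotient.induction_on _ a fun φ =>
    LinearMap.ext fun b => Submodule.Quotient.induction_on _ b fun ψ => by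
      rw [← cls_mk, ← cls_mk, e' _ φ.2 _ ψ.2, e _ φ.2 _ ψ.2]

end Pool.Agent.Work.MP_849ab0_ag.G
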