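import Mathlib

/-! Complexes inside one module, mapping cones and the local to global principle. -/

noncomputable section

namespace Pool.Agent.Work.MP_849ab0_ag.G

open Set Topology Filter TopologicalSpace

/-- Induction over open covers of a second countable regular space. -/
theorem cover_ind {T : Type} [TopologicalSpace T] [RegularSpace T] [SecondCountableTopology T]
    (P : Set T → Prop) (S : Set T) (h0 : P ∅)
    (mono : ∀ W W', IsOpen W → IsOpen W' → W' ⊆ W → P W → P W')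
    (un : ∀ W W', IsOpen W → IsOpen W' → P W → P W' → P (W ∪ W'))
    (sum : ∀ W : ℕ → Set T, (∀ k, IsOpen (W k)) → Pairwise (fun j k => Disjoint (W j) (W k)) →
      (∀ k, P (W k)) → P (⋃ k, W k))
    (loc : ∀ a ∈ S, ∃ W, IsOpen W ∧ a ∈ W ∧ P W) : ∃ W, IsOpen W ∧ S ⊆ W ∧ P W := by
  let _ := pseudoMetrizableSpacePseudoMetric T
  obtain ⟨C, hC, hCc, hCu⟩ := isOpen_sUnion_countable {W | IsOpen W ∧ P W} fun _ h => h.1
  obtain ⟨V, hV⟩ := (hC.insert ∅).exists_eq_range (insert_nonempty _ _)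
  have hVP : ∀ m, IsOpen (V m) ∧ P (V m) := fun m => by
    have : V m ∈ insert ∅ C := hV ▸ mem_range_self m
    rcases this with h | h
    · rw [h]; exact ⟨isOpen_empty, h0⟩
    · exact hCc h
  let U : ℕ → Set T := fun m => ⋃ j ≤ m, V j
  have hUo : ∀ m, IsOpen (U m) := fun m => isOpen_biUnion fun j _ => (hVP j).1
  have hUP : ∀ m, P (U m) := fun m => by
    induction m with
    | zero => simpa [U] using (hVP 0).2
    | succ m ih =>
      have : U (m + 1) = U m ∪ V (m + 1) := biUnion_le_succ V m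
      rw [this]; exact un _ _ (hUo m) (hVP _).1 ih (hVP _).2
  let e : ℕ → ENNReal := fun m => ((m : ENNReal) + 1)⁻¹
  let G : ℕ → Set T := fun m => ⋃ j ≤ m, {x | e m < Metric.infEDist x (V j)ᶜ}
  let F : ℕ → Set T := fun m => ⋃ j ≤ m, {x | e m ≤ Metric.infEDist x (V j)ᶜ}
  have hGo : ∀ m, IsOpen (G m) := fun m => isOpen_biUnion fun j _ =>
    isOpen_lt continuous_const Metric.continuous_infEDist
  have hFc : ∀ m, IsClosed (F m) := fun m => (finite_le_nat m).isClosed_biUnion fun j _ =>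
    isClosed_le continuous_const Metric.continuous_infEDist
  have he : ∀ m n, m < n → e n < e m := fun m n h => by
    simp only [e]
    rw [ENNReal.inv_lt_inv]
    exact_mod_cast Nat.succ_lt_succ h
  have hFG : ∀ m n, m < n → F m ⊆ G n := fun m n h x hx => by
    simp only [F, G, mem_iUnion, mem_ofPred_eq] at hx ⊢
    obtain ⟨j, hj, k⟩ := hx
    exact ⟨j, by omega, (he m n h).trans_le k⟩
  have hGF : ∀ m, G m ⊆ F m := fun m x hx => by
    simp only [F, G, mem_iUnion, mem_ofPred_eq] at hx ⊢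
    obtain ⟨j, hj, k⟩ := hx
    exact ⟨j, hj, k.le⟩
  have hGU : ∀ m, G m ⊆ U m := fun m x hx => by
    simp only [U, G, mem_iUnion, mem_ofPred_eq] at hx ⊢
    obtain ⟨j, hj, k⟩ := hx
    refine ⟨j, hj, by_contra fun hc => ?_⟩
    rw [Metric.infEDist_zero_of_mem (show x ∈ (V j)ᶜ from hc)] at k
    exact absurd k (not_lt.2 (zero_le))
  let W : ℕ → Set T := fun k => G k \ {x | ∃ j, j + 2 = k ∧ x ∈ F j}
  have hWo : ∀ k, IsOpen (W k) := fun k => (hGo k).sdiff (by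
    by_cases h : 2 ≤ k
    · convert hFc (k - 2) using 1
      ext x
      exact ⟨fun ⟨j, h1, h2⟩ => by rwa [show k - 2 = j by omega], fun h2 => ⟨_, by omega, h2⟩⟩
    · convert isClosed_empty (X := T) using 1
      ext x
      exact ⟨fun ⟨j, h1, h2⟩ => by omega, False.elim⟩)
  have hWP : ∀ k, P (W k) := fun k =>
    mono _ _ (hUo k) (hWo k) (sdiff_subset.trans (hGU k)) (hUP k)
  have hd : ∀ j k, j + 2 ≤ k → Disjoint (W j) (W k) := fun j k h => by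
    rw [Set.disjoint_left]
    intro x h1 h2
    refine h2.2 ⟨k - 2, by omega, ?_⟩
    rcases (show j ≤ k - 2 by omega).eq_or_lt with h3 | h3
    · exact h3 ▸ hGF j h1.1
    · exact hGF _ (hFG _ _ h3 (hGF j h1.1))
  have hs : ∀ r, P (⋃ k, W (2 * k + r)) := fun r => sum _ (fun _ => hWo _) (fun j k h => by
    rcases lt_or_gt_of_ne h with h | h
    · exact hd _ _ (by omega)
    · exact (hd _ _ (by omega)).symm) fun _ => hWP _
  refine ⟨_, (isOpen_iUnion fun _ => hWo _).union (isOpen_iUnion fun _ => hWo _), fun x hx => ?_,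
    un _ _ (isOpen_iUnion fun _ => hWo _) (isOpen_iUnion fun _ => hWo _) (hs 0) (hs 1)⟩
  obtain ⟨O, h1, h2, h3⟩ := loc x hx
  have : x ∈ ⋃₀ C := hCu ▸ ⟨O, ⟨h1, h3⟩, h2⟩
  obtain ⟨O', h4, h5⟩ := this
  obtain ⟨j, rfl⟩ : O' ∈ range V := hV ▸ mem_insert_of_mem _ h4
  have hp : 0 < Metric.infEDist x (V j)ᶜ :=
    Metric.infEDist_pos_iff_notMem_closure.2 (by rw [(hVP j).1.isClosed_compl.closure_eq]; simpa)
  obtain ⟨n, hn⟩ := ENNReal.exists_inv_nat_lt hp.ne'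
  have hex : ∃ m, x ∈ G m := ⟨max n j, mem_biUnion (le_max_right n j) (lt_of_le_of_lt (by
    simp only [e]
    rw [ENNReal.inv_le_inv]
    exact_mod_cast (le_max_left n j).trans (Nat.le_succ _)) hn)⟩
  classical
  have hxW : x ∈ W (Nat.find hex) := ⟨Nat.find_spec hex, fun ⟨i, k1, k2⟩ =>
    Nat.find_min hex (show i + 1 < Nat.find hex by omega) (hFG _ _ (by omega) k2)⟩
  rcases Nat.even_or_odd' (Nat.find hex) with ⟨k, h | h⟩
  · exact Or.inl (mem_iUnion.2 ⟨k, by rwa [h] at hxW⟩)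
  · exact Or.inr (mem_iUnion.2 ⟨k, by rwa [h] at hxW⟩)

/-- A bounded below complex inside one module, with truncation operators. -/
structure Cx (M : Type) [AddCommGroup M] [Module ℂ M] where
  d : M →ₗ[ℂ] M
  B : Submodule ℂ M
  tr : ℤ → M →ₗ[ℂ] M
  dB : ∀ x ∈ B, d x ∈ B
  trB : ∀ p, ∀ x ∈ B, tr p x ∈ B
  tr_tr : ∀ p x, tr p (tr p x) = tr p x
  d_tr : ∀ p x, d (tr p x) = tr (p + 1) (d x)
  bdd : ∀ x ∈ B, ∀ᶠ p in atTop, tr p x = x
  low : ∀ᶠ p in atBot, tr p = 0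

namespace Cx

variable {M M' : Type} [AddCommGroup M] [Module ℂ M] [AddCommGroup M'] [Module ℂ M']

/-- `Q / P` is acyclic. -/
def Acyc (K : Cx M) (P Q : Submodule ℂ M) : Prop :=
  ∀ x ∈ K.B, x ∈ Q → K.d x ∈ P → ∃ y ∈ K.B, y ∈ Q ∧ x - K.d y ∈ P

variable {K : Cx M} {K' : Cx M'} {P Q R : Submodule ℂ M} {P' Q' R' : Submodule ℂ M'}

theorem Acyc.left (hPQ : P ≤ Q) (hQR : Q ≤ R) (dd : ∀ x ∈ K.B, x ∈ R → K.d (K.d x) ∈ P)
    (h1 : K.Acyc P R) (h2 : K.Acyc Q R) : K.Acyc P Q := fun x xB xQ xP => by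
  obtain ⟨y, yB, yR, hy⟩ := h1 x xB (hQR xQ) xP
  obtain ⟨z, zB, zR, hz⟩ := h2 y yB yR (by simpa using Q.sub_mem xQ (hPQ hy))
  refine ⟨y - K.d z, sub_mem yB (K.dB _ zB), hz, ?_⟩
  convert P.add_mem hy (dd z zB zR) using 1
  rw [map_sub]; abel

theorem Acyc.mid (hPQ : P ≤ Q) (hQR : Q ≤ R) (dd : ∀ x ∈ K.B, x ∈ R → K.d (K.d x) ∈ P)
    (h1 : K.Acyc P Q) (h2 : K.Acyc Q R) : K.Acyc P R := fun x xB xR xP => by
  obtain ⟨y, yB, yR, hy⟩ := h2 x xB xR (hPQ xP)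
  obtain ⟨z, zB, zQ, hz⟩ := h1 _ (sub_mem xB (K.dB _ yB)) hy (by
    rw [map_sub]; exact sub_mem xP (dd y yB yR))
  refine ⟨y + z, add_mem yB zB, add_mem yR (hQR zQ), ?_⟩
  convert hz using 1
  rw [map_add]; abel

theorem Acyc.right (hPQ : P ≤ Q) (hQR : Q ≤ R) (dd : ∀ x ∈ K.B, x ∈ R → K.d (K.d x) ∈ P)
    (h1 : K.Acyc P Q) (h2 : K.Acyc P R) : K.Acyc Q R := fun x xB xR xQ => by
  obtain ⟨y, yB, yQ, hy⟩ := h1 _ (K.dB _ xB) xQ (dd x xB xR)
  obtain ⟨z, zB, zR, hz⟩ := h2 (x - y) (sub_mem xB yB) (sub_mem xR (hQR yQ)) (by rwa [map_sub])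
  refine ⟨z, zB, zR, ?_⟩
  convert Q.add_mem (hPQ hz) yQ using 1
  abel

/-- `T` preserves boundedness and commutes with truncation. -/
structure IsCh (K : Cx M) (K' : Cx M') (T : M →ₗ[ℂ] M') : Prop where
  bd : ∀ x ∈ K.B, T x ∈ K'.B
  tr : ∀ p x, T (K.tr p x) = K'.tr p (T x)
  dd : ∀ x, K.d (K.d x) = 0
  dd' : ∀ x, K'.d (K'.d x) = 0

/-- `T` is a chain map `Q / P → Q' / P'`. -/
structure IsPair (K : Cx M) (K' : Cx M') (T : M →ₗ[ℂ] M') (P Q : Submodule ℂ M)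
    (P' Q' : Submodule ℂ M') : Prop where
  mapP : ∀ x ∈ P, T x ∈ P'
  mapQ : ∀ x ∈ Q, T x ∈ Q'
  comm : ∀ x ∈ K.B, x ∈ Q → K'.d (T x) - T (K.d x) ∈ P'

/-- `T : Q / P → Q' / P'` is a quasi-isomorphism. -/
structure QI (K : Cx M) (K' : Cx M') (T : M →ₗ[ℂ] M') (P Q : Submodule ℂ M)
    (P' Q' : Submodule ℂ M') : Prop where
  inj : ∀ x ∈ K.B, x ∈ Q → K.d x ∈ P → ∀ y ∈ K'.B, y ∈ Q' → T x - K'.d y ∈ P' →
    ∃ z ∈ K.B, z ∈ Q ∧ x - K.d z ∈ P
  surj : ∀ y ∈ K'.B, y ∈ Q' → K'.d y ∈ P' → ∃ x ∈ K.B, x ∈ Q ∧ K.d x ∈ P ∧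
    ∃ z ∈ K'.B, z ∈ Q' ∧ y - T x - K'.d z ∈ P'

variable {T : M →ₗ[ℂ] M'}

/-- The mapping cone. -/
def cone (hT : IsCh K K' T) : Cx (M × M') where
  d := LinearMap.prod (-(K.d ∘ₗ LinearMap.fst ℂ M M'))
    (T ∘ₗ LinearMap.fst ℂ M M' + K'.d ∘ₗ LinearMap.snd ℂ M M')
  B := K.B.prod K'.B
  tr p := (K.tr (p + 1)).prodMap (K'.tr p)
  dB x hx := ⟨neg_mem (K.dB _ hx.1), add_mem (hT.bd _ hx.1) (K'.dB _ hx.2)⟩
  trB p x hx := ⟨K.trB _ _ hx.1, K'.trB _ _ hx.2⟩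
  tr_tr p x := by simp [K.tr_tr, K'.tr_tr]
  d_tr p x := by simp [K.d_tr, K'.d_tr, hT.tr]
  bdd x hx := by
    filter_upwards [(tendsto_atTop_add_const_right _ 1 tendsto_id).eventually (K.bdd _ hx.1),
      K'.bdd _ hx.2] with p h1 h2
    exact Prod.ext h1 h2
  low := by
    filter_upwards [(tendsto_atBot_add_const_right _ 1 tendsto_id).eventually K.low,
      K'.low] with p h1 h2
    simp only [id] at h1
    rw [h1, h2]; ext <;> simp

theorem cone_d (hT : IsCh K K' T) (x : M) (y : M') :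
    (cone hT).d (x, y) = (-K.d x, T x + K'.d y) := rfl

theorem cone_acyc_iff (hT : IsCh K K' T) (h : IsPair K K' T P Q P' Q') :
    (cone hT).Acyc (P.prod P') (Q.prod Q') ↔ QI K K' T P Q P' Q' := by
  constructor
  · intro hA
    constructor
    · intro x xB xQ xP y yB yQ hy
      obtain ⟨⟨u, v⟩, u1, u2, u3⟩ := hA (x, -y) ⟨xB, neg_mem yB⟩ ⟨xQ, neg_mem yQ⟩
        ⟨neg_mem xP, by simpa [cone_d, sub_eq_add_neg] using hy⟩
      exact ⟨-u, neg_mem u1.1, neg_mem u2.1, by simpa [cone_d] using u3.1⟩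
    · intro y yB yQ yP
      obtain ⟨⟨u, v⟩, u1, u2, u3⟩ := hA (0, y) ⟨zero_mem _, yB⟩ ⟨zero_mem _, yQ⟩
        ⟨by simp [cone_d], by simpa [cone_d] using yP⟩
      exact ⟨u, u1.1, u2.1, by simpa [cone_d] using u3.1, v, u1.2, u2.2, by
        simpa [cone_d, sub_sub] using u3.2⟩
  · rintro hq ⟨x, y⟩ ⟨g1, g2⟩ ⟨q1, q2⟩ ⟨p1, p2⟩
    have p1' : K.d x ∈ P := by simpa [cone_d] using p1
    have p2' : T x + K'.d y ∈ P' := p2
    obtain ⟨u, u1, u2, u3⟩ := hq.inj x g1 q1 p1' (-y) (neg_mem g2) (neg_mem q2) (by simpa using p2')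
    obtain ⟨w, w1, w2, w3, v, v1, v2, v3⟩ := hq.surj (y + T u) (add_mem g2 (hT.bd _ u1))
      (add_mem q2 (h.mapQ _ u2)) (by
        convert add_mem (P'.sub_mem p2' (h.mapP _ u3)) (h.comm u u1 u2) using 1
        rw [map_add, map_sub]; abel)
    refine ⟨(w - u, v), ⟨sub_mem w1 u1, v1⟩, ⟨sub_mem w2 u2, v2⟩, ?_, ?_⟩
    · change x - (-K.d (w - u)) ∈ P
      convert P.add_mem u3 w3 using 1
      rw [map_sub]; abel
    · change y - (T (w - u) + K'.d v) ∈ P'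
      convert v3 using 1
      rw [map_sub]; abel

theorem cone_dd (hT : IsCh K K' T) (h : IsPair K K' T P Q P' Q') :
    ∀ x ∈ (cone hT).B, x ∈ Q.prod Q' → (cone hT).d ((cone hT).d x) ∈ P.prod P' := by
  rintro ⟨x, y⟩ ⟨h1, -⟩ ⟨h3, -⟩
  refine ⟨by simp [cone_d, hT.dd x], ?_⟩
  change T (-K.d x) + K'.d (T x + K'.d y) ∈ P'
  convert h.comm x h1 h3 using 1
  simp only [map_neg, map_add, hT.dd' y]
  abel

section Five
variable (hT : IsCh K K' T) (h1 : P ≤ Q) (h2 : Q ≤ R) (h1' : P' ≤ Q') (h2' : Q' ≤ R')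
  (a : IsPair K K' T P Q P' Q') (b : IsPair K K' T P R P' R') (c : IsPair K K' T Q R Q' R')
include hT h1 h2 h1' h2' a b c

theorem QI.left (k1 : QI K K' T P R P' R') (k2 : QI K K' T Q R Q' R') : QI K K' T P Q P' Q' :=
  (cone_acyc_iff hT a).1 (Acyc.left (Submodule.prod_mono h1 h1') (Submodule.prod_mono h2 h2')
    (cone_dd hT b) ((cone_acyc_iff hT b).2 k1) ((cone_acyc_iff hT c).2 k2))

theorem QI.mid (k1 : QI K K' T P Q P' Q') (k2 : QI K K' T Q R Q' R') : QI K K' T P R P' R' :=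
  (cone_acyc_iff hT b).1 (Acyc.mid (Submodule.prod_mono h1 h1') (Submodule.prod_mono h2 h2')
    (cone_dd hT b) ((cone_acyc_iff hT a).2 k1) ((cone_acyc_iff hT c).2 k2))

theorem QI.right (k1 : QI K K' T P Q P' Q') (k2 : QI K K' T P R P' R') : QI K K' T Q R Q' R' :=
  (cone_acyc_iff hT c).1 (Acyc.right (Submodule.prod_mono h1 h1') (Submodule.prod_mono h2 h2')
    (cone_dd hT b) ((cone_acyc_iff hT a).2 k1) ((cone_acyc_iff hT b).2 k2))

end Five

variable {S : Type} [TopologicalSpace S]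

/-- A family of null submodules indexed by the subsets of a space. -/
structure Loc (K : Cx M) (N : Set S → Submodule ℂ M) : Prop where
  dN : ∀ W, ∀ x ∈ N W, K.d x ∈ N W
  ddN : ∀ W, ∀ x ∈ K.B, x ∈ N ∅ → K.d (K.d x) ∈ N W
  trN : ∀ W p, ∀ x ∈ N W, K.tr p x ∈ N W
  anti : ∀ W W', W ⊆ W' → N W' ≤ N W
  un : ∀ (W : ℕ → Set S) x, (∀ k, x ∈ N (W k)) → x ∈ N (⋃ k, W k)
  inter : ∀ W W', IsOpen W → IsOpen W' → ∀ x ∈ K.B, x ∈ N (W ∩ W') →
    ∃ a ∈ K.B, a ∈ N W ∧ x - a ∈ N W'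
  sum : ∀ W : ℕ → Set S, (∀ k, IsOpen (W k)) → Pairwise (fun j k => Disjoint (W j) (W k)) →
    ∀ p (y : ℕ → M), (∀ k, y k ∈ K.B ∧ K.tr p (y k) = y k ∧ y k ∈ N ∅) →
      ∃ z ∈ K.B, z ∈ N ∅ ∧ ∀ k, z - y k ∈ N (W k)

variable {N : Set S → Submodule ℂ M} {N' : Set S → Submodule ℂ M'}

theorem Loc.union (h : Loc K N) {W W' : Set S} {x : M} (h1 : x ∈ N W) (h2 : x ∈ N W') :
    x ∈ N (W ∪ W') := by
  refine h.anti _ _ ?_ (h.un (fun k => if k = 0 then W else W') x fun k => by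
    split_ifs <;> assumption)
  rintro a (k | k)
  · exact mem_iUnion.2 ⟨0, by simpa⟩
  · exact mem_iUnion.2 ⟨1, by simpa⟩

/-- Local primitives give global primitives. -/
theorem Loc.acyc [RegularSpace S] [SecondCountableTopology S] (h : Loc K N) (S₀ : Set S)
    (sat : ∀ W, N (W ∩ S₀) ≤ N W)
    (loc : ∀ W, IsOpen W → ∀ a ∈ W, a ∈ S₀ → ∀ x ∈ K.B, x ∈ N ∅ → K.d x ∈ N W →
      ∃ V, IsOpen V ∧ a ∈ V ∧ ∃ y ∈ K.B, y ∈ N ∅ ∧ x - K.d y ∈ N V) :
    ∀ W, IsOpen W → K.Acyc (N W) (N ∅) := by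
  have key : ∀ p : ℤ, ∀ W, IsOpen W → ∀ x ∈ K.B, K.tr p x = x → x ∈ N ∅ → K.d x ∈ N W →
      ∃ y ∈ K.B, K.tr (p - 1) y = y ∧ y ∈ N ∅ ∧ x - K.d y ∈ N W := by
    obtain ⟨p0, hp0⟩ := eventually_atBot.1 K.low
    intro p
    induction p using Int.strongRec (m := p0) with
    | lt p hp =>
      intro W _ x _ hx _ _
      refine ⟨0, zero_mem _, map_zero _, zero_mem _, ?_⟩
      rw [← hx, hp0 p hp.le]; simp
    | ge p _ ih =>
      intro W hW x xB hx x0 xW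
      have tt : ∀ V, ∀ y ∈ K.B, y ∈ N ∅ → x - K.d y ∈ N V →
          ∃ y ∈ K.B, K.tr (p - 1) y = y ∧ y ∈ N ∅ ∧ x - K.d y ∈ N V := fun V y y1 y2 y3 =>
        ⟨_, K.trB (p - 1) y y1, K.tr_tr _ _, h.trN _ _ _ y2, by
          have := h.trN _ p _ y3
          rwa [map_sub, hx, ← sub_add_cancel p 1, ← K.d_tr] at this⟩
      obtain ⟨V, -, hV, y, y1, y2, y3, y4⟩ := cover_ind
        (fun V => ∃ y ∈ K.B, K.tr (p - 1) y = y ∧ y ∈ N ∅ ∧ x - K.d y ∈ N V) (W ∩ S₀)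
        ⟨0, zero_mem _, map_zero _, zero_mem _, by simpa using x0⟩
        (fun V V' _ _ k ⟨y, y1, y2, y3, y4⟩ => ⟨y, y1, y2, y3, h.anti _ _ k y4⟩)
        (fun V V' o o' ⟨y, y1, y2, y3, y4⟩ ⟨z, z1, z2, z3, z4⟩ => by
          obtain ⟨t, t1, -, t3, t4⟩ := ih (p - 1) (by omega) (V ∩ V') (o.inter o') (y - z)
            (sub_mem y1 z1) (by rw [map_sub, y2, z2]) (sub_mem y3 z3) (by
              convert sub_mem (h.anti _ _ inter_subset_right z4)
                (h.anti _ _ inter_subset_left y4) using 1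
              rw [map_sub]; abel)
          obtain ⟨a, a1, a2, a3⟩ := h.inter V V' o o' _ (sub_mem (sub_mem y1 z1) (K.dB _ t1)) t4
          refine tt _ (y - a) (sub_mem y1 a1) (sub_mem y3 (h.anti _ _ (empty_subset _) a2))
            (h.union ?_ ?_)
          · convert add_mem y4 (h.dN _ _ a2) using 1
            rw [map_sub]; abel
          · convert sub_mem (sub_mem z4 (h.dN _ _ a3)) (h.ddN V' t t1 t3) using 1
            simp only [map_sub]; abel)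
        (fun V o dj hy => by
          choose y y1 y2 y3 y4 using hy
          obtain ⟨z, z1, z2, z3⟩ := h.sum V o dj (p - 1) y fun k => ⟨y1 k, y2 k, y3 k⟩
          refine tt _ z z1 z2 (h.un _ _ fun k => ?_)
          convert sub_mem (y4 k) (h.dN _ _ (z3 k)) using 1
          rw [map_sub]; abel)
        (fun a ha => by
          obtain ⟨V, v1, v2, y, y1, y2, y3⟩ := loc W hW a ha.1 ha.2 x xB x0 xW
          exact ⟨V, v1, v2, tt V y y1 y2 y3⟩)
      exact ⟨y, y1, y2, y3, sat _ (h.anti _ _ hV y4)⟩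
  intro W hW x xB x0 xW
  obtain ⟨p, hp⟩ := (K.bdd x xB).exists
  obtain ⟨y, y1, -, y2, y3⟩ := key p W hW x xB hp x0 xW
  exact ⟨y, y1, y2, y3⟩

theorem Loc.cone (hT : IsCh K K' T) (h : Loc K N) (h' : Loc K' N')
    (hp : ∀ W, IsPair K K' T (N W) (N ∅) (N' W) (N' ∅)) :
    Loc (cone hT) (fun W => (N W).prod (N' W)) where
  dN W x hx := ⟨neg_mem (h.dN _ _ hx.1), add_mem ((hp W).mapP _ hx.1) (h'.dN _ _ hx.2)⟩
  ddN W := cone_dd hT (hp W)
  trN W p x hx := ⟨h.trN _ _ _ hx.1, h'.trN _ _ _ hx.2⟩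
  anti W W' k := Submodule.prod_mono (h.anti _ _ k) (h'.anti _ _ k)
  un W x hx := ⟨h.un _ _ fun k => (hx k).1, h'.un _ _ fun k => (hx k).2⟩
  inter W W' o o' x hx hx' := by
    obtain ⟨a, a1, a2, a3⟩ := h.inter W W' o o' _ hx.1 hx'.1
    obtain ⟨b, b1, b2, b3⟩ := h'.inter W W' o o' _ hx.2 hx'.2
    exact ⟨(a, b), ⟨a1, b1⟩, ⟨a2, b2⟩, ⟨a3, b3⟩⟩
  sum W o dj p y hy := by
    obtain ⟨a, a1, a2, a3⟩ := h.sum W o dj (p + 1) (fun k => (y k).1) fun k =>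
      ⟨(hy k).1.1, congrArg Prod.fst (hy k).2.1, (hy k).2.2.1⟩
    obtain ⟨b, b1, b2, b3⟩ := h'.sum W o dj p (fun k => (y k).2) fun k =>
      ⟨(hy k).1.2, congrArg Prod.snd (hy k).2.1, (hy k).2.2.2⟩
    exact ⟨(a, b), ⟨a1, b1⟩, ⟨a2, b2⟩, fun k => ⟨a3 k, b3 k⟩⟩

variable [RegularSpace S] [SecondCountableTopology S]

/-- A chain map that is a quasi-isomorphism over all small open sets is one over all open sets. -/
theorem Loc.qi_of_local (hT : IsCh K K' T) (h : Loc K N) (h' : Loc K' N')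
    (hp : ∀ W, IsPair K K' T (N W) (N ∅) (N' W) (N' ∅)) (S₀ : Set S)
    (sat : ∀ W, N (W ∩ S₀) ≤ N W) (sat' : ∀ W, N' (W ∩ S₀) ≤ N' W)
    (loc : ∀ a ∈ S₀, ∃ V, IsOpen V ∧ a ∈ V ∧ ∀ W, IsOpen W → W ⊆ V →
      QI K K' T (N W) (N ∅) (N' W) (N' ∅)) (W : Set S) (hW : IsOpen W) :
    QI K K' T (N W) (N ∅) (N' W) (N' ∅) := by
  refine (cone_acyc_iff hT (hp W)).1 ((h.cone hT h' hp).acyc S₀
    (fun W => Submodule.prod_mono (sat W) (sat' W)) (fun W o a ha ha' x x1 x2 x3 => ?_) W hW)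
  obtain ⟨V, v1, v2, v3⟩ := loc a ha'
  exact ⟨W ∩ V, o.inter v1, ⟨ha, v2⟩, (cone_acyc_iff hT (hp _)).2
    (v3 _ (o.inter v1) inter_subset_right) x x1 x2
      ((h.cone hT h' hp).anti _ _ inter_subset_left x3)⟩

/-- A chain map that is a quasi-isomorphism on stalks is one over all open sets. -/
theorem Loc.qi_of_stalk (hT : IsCh K K' T) (h : Loc K N) (h' : Loc K' N')
    (hp : ∀ W, IsPair K K' T (N W) (N ∅) (N' W) (N' ∅)) (S₀ : Set S)
    (sat : ∀ W, N (W ∩ S₀) ≤ N W) (sat' : ∀ W, N' (W ∩ S₀) ≤ N' W)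
    (o1 : ∀ a ∈ S₀, ∀ x ∈ N {a}, ∃ V ∈ 𝓝 a, x ∈ N V)
    (o2 : ∀ a ∈ S₀, ∀ x ∈ N' {a}, ∃ V ∈ 𝓝 a, x ∈ N' V)
    (loc : ∀ a ∈ S₀, QI K K' T (N {a}) (N ∅) (N' {a}) (N' ∅)) (W : Set S) (hW : IsOpen W) :
    QI K K' T (N W) (N ∅) (N' W) (N' ∅) := by
  refine (cone_acyc_iff hT (hp W)).1 ((h.cone hT h' hp).acyc S₀
    (fun W => Submodule.prod_mono (sat W) (sat' W)) (fun W o a ha ha' x x1 x2 x3 => ?_) W hW)
  obtain ⟨y, y1, y2, y3⟩ := (cone_acyc_iff hT (hp _)).2 (loc a ha') x x1 x2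
    ((h.cone hT h' hp).anti _ _ (singleton_subset_iff.2 ha) x3)
  obtain ⟨V, v1, v2⟩ := o1 a ha' _ y3.1
  obtain ⟨V', v3, v4⟩ := o2 a ha' _ y3.2
  refine ⟨interior (V ∩ V'), isOpen_interior, mem_interior_iff_mem_nhds.2 (inter_mem v1 v3),
    y, y1, y2, h.anti _ _ (interior_subset.trans inter_subset_left) v2,
    h'.anti _ _ (interior_subset.trans inter_subset_right) v4⟩

/-- A finite product of shifted copies. -/
def pi (K : Cx M) {ι : Type} [Finite ι] (k : ι → ℤ) : Cx (ι → M) where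
  d := K.d.compLeft ι
  B := Submodule.pi univ fun _ => K.B
  tr p := LinearMap.pi fun i => K.tr (p - k i) ∘ₗ LinearMap.proj i
  dB x hx i hi := K.dB _ (hx i hi)
  trB p x hx i hi := K.trB _ _ (hx i hi)
  tr_tr p x := funext fun i => K.tr_tr _ _
  d_tr p x := funext fun i => by
    change K.d (K.tr (p - k i) (x i)) = K.tr (p + 1 - k i) (K.d (x i))
    rw [K.d_tr, add_sub_right_comm]
  bdd x hx := by
    filter_upwards [eventually_all.2 fun i =>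
      (tendsto_atTop_add_const_right _ (-k i) tendsto_id).eventually (K.bdd _ (hx i trivial))]
      with p h
    exact funext fun i => h i
  low := by
    filter_upwards [eventually_all.2 fun i =>
      (tendsto_atBot_add_const_right _ (-k i) tendsto_id).eventually K.low] with p h
    ext x i
    have : K.tr (p - k i) = 0 := h i
    simp [this]

omit [RegularSpace S] [SecondCountableTopology S] in
theorem Loc.pi (h : Loc K N) {ι : Type} [Finite ι] (k : ι → ℤ) :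
    Loc (K.pi k) (fun W => Submodule.pi univ fun _ => N W) where
  dN W x hx i hi := h.dN _ _ (hx i hi)
  ddN W x hx hx' i hi := h.ddN _ _ (hx i hi) (hx' i hi)
  trN W p x hx i hi := h.trN _ _ _ (hx i hi)
  anti W W' k x hx i hi := h.anti _ _ k (hx i hi)
  un W x hx i hi := h.un _ _ fun k => hx k i hi
  inter W W' o o' x hx hx' := by
    choose a a1 a2 a3 using fun i => h.inter W W' o o' _ (hx i trivial) (hx' i trivial)
    exact ⟨a, fun i _ => a1 i, fun i _ => a2 i, fun i _ => a3 i⟩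
  sum W o dj p y hy := by
    choose a a1 a2 a3 using fun i => h.sum W o dj (p - k i) (fun n => y n i) fun n =>
      ⟨(hy n).1 i trivial, congrFun (hy n).2.1 i, (hy n).2.2 i trivial⟩
    exact ⟨a, fun i _ => a1 i, fun i _ => a2 i, fun n i _ => a3 i n⟩

end Cx

end Pool.Agent.Work.MP_849ab0_ag.G
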