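import Pool.Agent.Work.MP_849ab0_ag.G.Lat

/-!
Quiver gauge theories with an arbitrary flavour torus: the Nakajima quiver variety and the BFN
space of triples with its convolution product.  All groups are replaced by their maximal compact
subgroups.
-/

noncomputable section

set_option linter.unusedSectionVars false

namespace Pool.Agent.Work.MP_849ab0_ag.G

open Set Matrix

attribute [local instance] topC

/-- Quiver data.  Vertices `I`; the extra vertex `none` is the framing vertex (dimension one), so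
an arrow `i → none` is one copy of `Hom (V i, ℂ)`.  `V = ℂ ^ P`, and `V i` is spanned by the basis
vectors of colour `i`. -/
structure Qd (I P E : Type) where
  col : P → I
  src : E → Option I
  tgt : E → Option I

namespace Qd

variable {I P E κ : Type} [Fintype I] [DecidableEq I] [Fintype P] [DecidableEq P] [Fintype E]
  [Fintype κ] [DecidableEq κ] (D : Qd I P E)

/-- Coordinates of `N`: an arrow with a basis vector over its source and one over its target. -/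
def Wt : Type :=
  {p : E × Option P × Option P // p.2.1.map D.col = D.src p.1 ∧ p.2.2.map D.col = D.tgt p.1}

instance : Fintype D.Wt := @Fintype.ofFinite _ Subtype.finite

/-- The representation `N`; also `N^*`, in the dual coordinates. -/
abbrev Rep : Type := D.Wt → ℂ

/-- The component `e` of `y : N` as an endomorphism of `V ⊕ ℂ`. -/
def mat (y : D.Rep) (e : E) : Matrix (Option P) (Option P) ℂ :=
  Matrix.of fun b a =>
    if h : a.map D.col = D.src e ∧ b.map D.col = D.tgt e then y ⟨(e, a, b), h⟩ else 0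

/-- The group `G = ∏ GL (V i)`. -/
def GG : Set (Matrix P P ℂ) := {g | IsUnit g ∧ ∀ a b, D.col a ≠ D.col b → g a b = 0}

/-- The action of `g ∈ G` on `N`. -/
def gact (g : Matrix P P ℂ) (y : D.Rep) : D.Rep :=
  fun p => (hat 1 g * D.mat y p.1.1 * (hat 1 g)⁻¹) p.1.2.2 p.1.2.1

/-- A continuous representation `M` of the torus `T = U(1) ^ κ` on `N` that commutes with `G`,
and a weight `h = ħ` of `T`. -/
structure Fl (κ : Type) where
  M : (κ → Circle) → Matrix D.Wt D.Wt ℂ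
  h : κ → ℤ
  cont : Continuous M
  one : ∀ y, M 1 *ᵥ y = y
  mul : ∀ σ τ, M (σ * τ) = M σ * M τ
  comm : ∀ τ y, ∀ g ∈ D.GG, M τ *ᵥ D.gact g y = D.gact g (M τ *ᵥ y)

/-- The representation `N ⊕ N^*`. -/
abbrev Dbl : Type := D.Rep × D.Rep

/-- The product topology on `N ⊕ N^*`. -/
local instance topD : TopologicalSpace D.Dbl := instTopologicalSpaceProd

/-- The action of `g ∈ G` on `N ⊕ N^*`. -/
def gdb (g : Matrix P P ℂ) (y : D.Dbl) : D.Dbl := (D.gact g y.1, D.gact g⁻¹ᵀ y.2)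

/-- King's stability: `ν · dim S - (ν · v) dim S_∞ < 0` for proper nonzero subrepresentations `S`
of the representation `V ⊕ ℂ` of the doubled quiver. -/
def Stable (ν : I → ℤ) (y : D.Dbl) : Prop :=
  ∀ Q, IsPr (Option.map D.col) Q → (∀ e, Pres Q (D.mat y.1 e) ∧ Pres Q (D.mat y.2 e)ᵀ) →
    Q ≠ 0 → Q ≠ 1 → (∑ a, (ν (D.col a) : ℂ) * (Q (some a) (some a) - Q none none)).re < 0

/-- The moment map (its block on `V`). -/
def mu (y : D.Dbl) : Matrix (Option P) (Option P) ℂ :=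
  ∑ e, (D.mat y.1 e * (D.mat y.2 e)ᵀ - (D.mat y.2 e)ᵀ * D.mat y.1 e)

/-- `μ⁻¹(0)^s`. -/
def Xs (ν : I → ℤ) : Set D.Dbl := {y | (∀ a b, D.mu y (some a) (some b) = 0) ∧ D.Stable ν y}

/-- The orbits of `G`. -/
def orb (ν : I → ℤ) (x y : D.Xs ν) : Prop := ∃ g ∈ D.GG, y.1 = D.gdb g x.1

/-- The subspace topology on `μ⁻¹(0)^s`. -/
local instance topX (ν : I → ℤ) : TopologicalSpace (D.Xs ν) := instTopologicalSpaceSubtype

/-- The quotient topology on the quiver variety. -/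
local instance topM (ν : I → ℤ) : TopologicalSpace (Quot (D.orb ν)) := instTopologicalSpaceQuot

/-- `H_{K × T}^*(pt)`. -/
abbrev HP (κ : Type) [Fintype κ] [DecidableEq κ] : Type := EH (Act.pt (KT D.col κ)) univ univ

/-- The number of basis vectors in `S` over a vertex. -/
def mlt (S : Finset P) (o : Option I) : ℤ := (S.filter fun a => some (D.col a) = o).card

/-- Regular characters: `ν · m ≠ 0` for `0 ≠ m ≤ v` with `q (m) ≤ 1`, `q` the Tits form. -/
def Reg (ν : I → ℤ) : Prop :=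
  ∀ S : Finset P, S.Nonempty →
    ∑ i, D.mlt S (some i) ^ 2 - ∑ e, D.mlt S (D.src e) * D.mlt S (D.tgt e) ≤ 1 →
      ∑ a ∈ S, ν (D.col a) ≠ 0

/-- The product topology on `N[[t]]`. -/
local instance topO : TopologicalSpace (ℕ → D.Rep) := Pi.topologicalSpace

/-- The product topology on pairs of a loop and an element of `N[[t]]`. -/
local instance topF : TopologicalSpace ((ℤ → Matrix P P ℂ) × (ℕ → D.Rep)) :=
  instTopologicalSpaceProd

/-- The space of triples: pairs of a graded lattice `t^k V[[t]] ⊆ L ⊆ t^{-k} V[[t]]`, given by its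
orthogonal projection, and `s ∈ N[[t]]` preserving `L ⊕ ℂ[[t]]`. -/
def RR (k : ℕ) : Set (En P k × (ℕ → D.Rep)) :=
  {z | IsPr (fun x => x.1.map D.col) (ext z.1) ∧ Pres (ext z.1) (ser k (Pi.single 1 1)) ∧
    ∀ e, Pres (ext z.1) (ser k fun m => D.mat (z.2 m) e)}

/-- Polynomial loops in `K` of degree at most `k`. -/
def Lp (k : ℕ) : Set (ℤ → Matrix P P ℂ) :=
  {γ | (∀ x, (k : ℤ) < |x| → γ x = 0) ∧ (∀ x a b, D.col a ≠ D.col b → γ x a b = 0) ∧
    ∀ m, ∑ x ∈ Finset.Icc (-(k : ℤ)) k, (γ x)ᴴ * γ (x + m) = if m = 0 then 1 else 0}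

/-- `γ⁻¹ s γ`. -/
def adj (k : ℕ) (γ : ℤ → Matrix P P ℂ) (s : ℕ → D.Rep) : ℕ → D.Rep := fun m p =>
  (∑ x ∈ Finset.Icc (-(k : ℤ)) k, ∑ y ∈ Finset.Icc (-(k : ℤ)) k,
    if 0 ≤ m + x - y then (hat (if x = 0 then 1 else 0) (γ x))ᴴ *
      D.mat (s (m + x - y).toNat) p.1.1 * hat (if y = 0 then 1 else 0) (γ y) else 0) p.1.2.2 p.1.2.1

/-- Pairs `(γ, s)` with `(γ V[[t]], s)` in the space of triples. -/
def UF (k : ℕ) : Set ((ℤ → Matrix P P ℂ) × (ℕ → D.Rep)) :=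
  {z | z.1 ∈ D.Lp k ∧ (tw k z.1 (0 : En P 0) k, z.2) ∈ D.RR k}

/-- Triples `(L, γ, s)` with `(L, γ⁻¹ s γ)` in the space of triples. -/
def Z1 (k l : ℕ) : Set (En P l × (ℤ → Matrix P P ℂ) × (ℕ → D.Rep)) :=
  {z | (z.1, D.adj k z.2.1 z.2.2) ∈ D.RR l}

/-- The same triples, written as `(γ L, γ, s)`. -/
def Z2 (k l : ℕ) : Set (En P (k + l) × (ℤ → Matrix P P ℂ) × (ℕ → D.Rep)) :=
  {z | ∃ Q, (Q, z.2) ∈ D.Z1 k l ∧ z.1 = tw k z.2.1 Q (k + l)}

/-- The quotient map `(L₂, γ, s) ↦ (γ V[[t]], L₂, s)`. -/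
def qq (k l : ℕ) (z : En P (k + l) × (ℤ → Matrix P P ℂ) × (ℕ → D.Rep)) :
    En P k × En P (k + l) × (ℕ → D.Rep) := (tw k z.2.1 (0 : En P 0) k, z.1, z.2.2)

/-- The convolution space of the triples `(L₁, L₂, s)`. -/
def Z3 (k l : ℕ) : Set (En P k × En P (k + l) × (ℕ → D.Rep)) :=
  D.qq k l '' (D.Z2 k l ∩ univ ×ˢ D.UF k)

/-- The components of `ν`-weight `m` on which the determinant of `N` has degree `c`. -/
def comp (ν : I → ℤ) (k : ℕ) (m c : ℤ) : Set (En P k × (ℕ → D.Rep)) :=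
  {z | z ∈ D.RR k ∧ ∑ a, ν (D.col a) * Qv.ind z.1 (some a) = m ∧
    ∑ p : D.Wt, (Qv.ind z.1 p.1.2.2 - Qv.ind z.1 p.1.2.1) = c}

/-- The group `K × K × T`; the first factor acts on loops from the right. -/
abbrev KKT (κ : Type) [Fintype κ] [DecidableEq κ] : Gp := (Gp.blk D.col).prod (KT D.col κ)

namespace Fl

variable {D} (F : D.Fl κ)

/-- The action of `K × T` on `N`. -/
def aN : Act (KT D.col κ) D.Rep := ⟨fun g y => F.M g.2 *ᵥ D.gact g.1.1.1 y⟩

/-- The action of `K × T` on `N ⊕ N^*`: on `N^*` the dual action times the character `ħ`. -/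
def aD : Act (KT D.col κ) D.Dbl :=
  ⟨fun g y => (F.M g.2 *ᵥ (D.gdb g.1.1.1 y).1, chr F.h g.2 • (D.gdb g.1.1.1 y).2 ᵥ* F.M g.2⁻¹)⟩

/-- The Nakajima quiver variety with the action of `T`. -/
def aM (ν : I → ℤ) : Act (Gp.tor κ) (Quot (D.orb ν)) :=
  ((F.aD.res (G' := Gp.tor κ) fun τ => (1, τ)).sub (D.Xs ν)).quot _

/-- `H_T^*(M)`. -/
abbrev HM (ν : I → ℤ) : Type := EH (F.aM ν) univ univ

/-- `H_{K × T}^*(μ⁻¹(0)^s)`. -/
abbrev HX (ν : I → ℤ) : Type := EH (F.aD.sub (D.Xs ν)) univ univ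

instance (ν : I → ℤ) : AddZero (F.HM ν) := instAddZeroEH _ _ _

instance (ν : I → ℤ) : Add (F.HM ν) := (instAddZeroHM F ν).toAdd

instance (ν : I → ℤ) : Zero (F.HM ν) := (instAddZeroHM F ν).toZero

/-- The pull-back `H_T^*(M) → H_{K × T}^*(μ⁻¹(0)^s)`. -/
def dsc (ν : I → ℤ) (x : F.HM ν) : F.HX ν := gpf _ Prod.snd (Quot.mk _) univ univ x

/-- The Kirwan map. -/
def kw (ν : I → ℤ) (c : D.HP κ) : F.HM ν :=
  ginv (F.aD.sub (D.Xs ν)) _ Prod.snd (Quot.mk _) univ univ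
    (gpf _ id (fun _ => ()) univ univ c)

/-- The cup product on `H_T^*(M)`. -/
def mulM (ν : I → ℤ) (x y : F.HM ν) : F.HM ν := cupf univ univ x y

/-- The action on `N[[t]]`; the variable `t` has weight `ħ`. -/
def aO : Act (KT D.col κ) (ℕ → D.Rep) := ⟨fun g s m => chr F.h g.2 ^ m • F.aN.act g (s m)⟩

/-- The action on `En P k` by conjugation. -/
def aE (k : ℕ) : Act (KT D.col κ) (En P k) :=
  ⟨fun g Q z => chr F.h g.2 ^ (z.1.2.1 - z.2.2.1) *
    (g.1.1.1 * blkAt Q z.1.2 z.2.2 * g.1.1.1ᴴ) z.1.1 z.2.1⟩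

/-- Equivariant Borel-Moore homology of a closed subset of the space of triples. -/
abbrev HR (k : ℕ) (Z : Set (En P k × (ℕ → D.Rep))) : Type := EH ((F.aE k).prod F.aO) univ Z

instance (k : ℕ) (Z : Set (En P k × (ℕ → D.Rep))) : AddZero (F.HR k Z) := instAddZeroEH _ _ _

/-- Push-forward along `RR k ⊆ RR (k + 1)`. -/
def up (k : ℕ) (a : F.HR k (D.RR k)) : F.HR (k + 1) (D.RR (k + 1)) :=
  gpf _ id id univ _
    (pushf F.aO (F.aE k) (F.aE (k + 1)) (fun z w => blkAt z.1 w.1.2 w.2.2 w.1.1 w.2.1) univ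
      (D.RR k) (D.RR (k + 1)) (gpf _ id id _ _ a))

/-- The action on pairs `(γ, s)`. -/
def aF : Act (D.KKT κ) ((ℤ → Matrix P P ℂ) × (ℕ → D.Rep)) :=
  ⟨fun g z => (fun x => chr F.h g.2.2 ^ x • (g.2.1.1.1 * z.1 x * g.1.1.1ᴴ), F.aO.act g.2 z.2)⟩

/-- The class of the second factor on the convolution space: pull back along
`(L, γ, s) ↦ (L, γ⁻¹ s γ)`, move `L` by `γ`, and descend along the quotient by `K`. -/
def tws (k l : ℕ) (b : F.HR l (D.RR l)) :
    EH ((F.aE k).prod ((F.aE (k + l)).prod F.aO)) {z | (z.1, z.2.2) ∈ D.RR k} (D.Z3 k l) :=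
  ginv (((F.aE (k + l)).res Prod.snd).prod F.aF) _ Prod.snd (D.qq k l) _ _
    (pushf F.aF ((F.aE l).res fun g => (g.1, g.2.2)) ((F.aE (k + l)).res Prod.snd)
      (fun z => tw k z.2.1 z.1 (k + l)) (D.UF k) (D.Z1 k l) (D.Z2 k l)
      (gpf _ (fun g : (D.KKT κ).H => (g.1, g.2.2)) (fun z => (z.1, D.adj k z.2.1 z.2.2)) _ _ b))

/-- The convolution product: cap the first factor with the class of the second one and push
forward along `(L₁, L₂, s) ↦ (L₂, s)`. -/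
def cnv (k l : ℕ) (a : F.HR k (D.RR k)) (b : F.HR l (D.RR l)) : F.HR (k + l) (D.RR (k + l)) :=
  intf _ (F.aE k) Prod.snd Prod.fst univ _
    (cupf univ (D.Z3 k l)
      (gpf _ id (fun z => (z.1, z.2.2)) univ {z | (z.1, z.2.2) ∈ D.RR k} a) (F.tws k l b))

/-- `H_{K × T}^*(pt)` is the homology of the triples with `L = V[[t]]`. -/
def unt (c : D.HP κ) : F.HR 0 (D.RR 0) := gpf _ id (fun _ => ()) univ _ c

/-- Families of additive maps from the groups `HR k (RR k)` to a ring. -/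
abbrev Io (A : Type) [Ring A] : Type := ∀ k, F.HR k (D.RR k) →+ A

variable {A : Type} [Ring A]

/-- `A` is the convolution algebra: the direct limit of the groups `HR k (RR k)`. -/
structure IsBFN (ι : F.Io A) : Prop where
  inj : ∀ k, Function.Injective (ι k)
  incl : ∀ k a, ι (k + 1) (F.up k a) = ι k a
  surj : ∀ x, ∃ k a, ι k a = x
  mul : ∀ k l a b, ι (k + l) (F.cnv k l a b) = ι k a * ι l b
  one : ι 0 (F.unt (eone _ univ)) = 1

/-- The elements of `ν`-weight `m` and cohomological degree `p`, normalised as in BFN. -/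
def piece (ι : F.Io A) (ν : I → ℤ) (m p : ℤ) : Set A :=
  {x | ∃ (k : ℕ) (c : ℤ) (a : F.HR k (D.comp ν k m c)),
    IsDeg (p + 2 * c + 2 * Fintype.card ((P × Pos k) × (P × Pos k))) a ∧
      x = ι k (gpf _ id id univ _ a)}

/-- The `ν`-weight space `A_m`. -/
def wsp (ι : F.Io A) (ν : I → ℤ) (m : ℤ) : AddSubgroup A :=
  AddSubgroup.closure (⋃ p, F.piece ι ν m p)

/-- The restriction of `Φ` to `A_0` induces an isomorphism of graded `H_{K × T}^*(pt)`-algebras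
`A_0 / ∑_{m < 0} A_m A_{-m} ≃ H_T^*(M)`. -/
structure IsHik (ι : F.Io A) (ν : I → ℤ) (Φ : A → F.HM ν) : Prop where
  add : ∀ x ∈ F.wsp ι ν 0, ∀ y ∈ F.wsp ι ν 0, Φ (x + y) = Φ x + Φ y
  mul : ∀ x ∈ F.wsp ι ν 0, ∀ y ∈ F.wsp ι ν 0,
    x * y ∈ F.wsp ι ν 0 ∧ Φ (x * y) = F.mulM ν (Φ x) (Φ y)
  ker : ∀ x ∈ F.wsp ι ν 0, Φ x = 0 ↔
    x ∈ AddSubgroup.closure {z | ∃ m < 0, ∃ b ∈ F.wsp ι ν m, ∃ a ∈ F.wsp ι ν (-m), z = b * a}
  surj : ∀ y, ∃ x ∈ F.wsp ι ν 0, Φ x = y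
  alg : ∀ c, ι 0 (F.unt c) ∈ F.wsp ι ν 0 ∧ Φ (ι 0 (F.unt c)) = F.kw ν c
  deg : ∀ p, ∀ x ∈ F.piece ι ν 0 p, IsDeg p (Φ x)

end Fl

end Qd

end Pool.Agent.Work.MP_849ab0_ag.G
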