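import Pool.Agent.Work.MP_849ab0_ag.G.ApiI

-- merged part: Pool.Agent.Work.MP_849ab0_ag.G.H1.Reg
section
-- merged part: Pool.Agent.Work.MP_849ab0_ag.G.H1.Mat
section
/-!
Matrix calculus for quiver representations: the definitions of part H1.
-/

noncomputable section

set_option linter.unusedSectionVars false
set_option linter.unusedVariables false

namespace Pool.Agent.Work.MP_849ab0_ag.G

open Set Matrix

section general

variable {J C : Type} [Fintype J] [DecidableEq J] {c : J → C} {g h k : Matrix J J ℂ}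

/-- matrices graded by the colouring `c` -/
def Grd (c : J → C) (g : Matrix J J ℂ) : Prop := ∀ a b, c a ≠ c b → g a b = 0

/-- graded invertible matrices -/
structure GU (c : J → C) (g : Matrix J J ℂ) : Prop where
  grd : Grd c g
  unit : IsUnit g

/-- graded unitary matrices -/
structure KU (c : J → C) (k : Matrix J J ℂ) : Prop where
  grd : Grd c k
  uni : kᴴ * k = 1

/-- the projection on the colour `i` -/
def pcol (c : J → C) (i : C) : Matrix J J ℂ :=
  open Classical in diagonal fun a => if c a = i then 1 else 0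

/-- the coordinate projection on `S` -/
def prS (S : Finset J) : Matrix J J ℂ := diagonal fun a => if a ∈ S then 1 else 0

/-- real diagonal matrices -/
def dg (d : J → ℝ) : Matrix J J ℂ := diagonal fun a => (d a : ℂ)

/-- the weight `tr (θ Q)` -/
def wtr (θ : J → ℝ) (Q : Matrix J J ℂ) : ℝ := (∑ a, (θ a : ℂ) * Q a a).re

/-- the square of the Frobenius norm -/
def fsq (g : Matrix J J ℂ) : ℝ := ∑ a, ∑ b, ‖g a b‖ ^ 2

/-- `g` maps the filtration given by `r` to the filtration given by `r'` shifted by `m` -/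
def MFil (r r' : J → ℤ) (m : ℤ) (g : Matrix J J ℂ) : Prop := ∀ b a, r a + m < r' b → g b a = 0

/-- the block on `V` -/
def unhat (g : Matrix (Option J) (Option J) ℂ) : Matrix J J ℂ := g.submatrix some some

end general

/-- endomorphisms of `V ⊕ ℂ` -/
abbrev Mt (P : Type) : Type := Matrix (Option P) (Option P) ℂ

namespace Qv

variable {I P E κ : Type} [Fintype I] [DecidableEq I] [Fintype P] [DecidableEq P] [Fintype E]
  [Fintype κ] [DecidableEq κ] (D : Qv I P E κ)

/-- the colouring of the basis of `V ⊕ ℂ` -/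
abbrev cl : Option P → Option I := Option.map D.col

/-- families of matrices supported on the blocks given by the arrows -/
def Sup (m : E → Mt P) : Prop :=
  ∀ e b a, ¬(a.map D.col = D.src e ∧ b.map D.col = D.tgt e) → m e b a = 0

/-- the representation given by a family of matrices -/
def unmat (m : E → Mt P) : D.Rep := fun p => m p.1.1 p.1.2.2 p.1.2.1

/-- conjugation -/
def cnj (g : Mt P) (y : D.Rep) : D.Rep := D.unmat fun e => g * D.mat y e * g⁻¹

/-- the infinitesimal action -/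
def ad (ξ : Mt P) (y : D.Rep) : D.Rep := D.unmat fun e => ξ * D.mat y e - D.mat y e * ξ

/-- rescaling of the arrows -/
def sc (χ : E → ℂ) (y : D.Rep) : D.Rep := fun p => χ p.1.1 * y p

/-- the stability weights, integer valued -/
def thZ (ν : I → ℤ) : Option P → ℤ
  | some a => ν (D.col a)
  | none => -∑ a, ν (D.col a)

/-- the stability weights -/
def th (ν : I → ℤ) : Option P → ℝ := fun o => (D.thZ ν o : ℝ)

/-- generic characters -/
def Gen (ν : I → ℤ) : Prop := ∀ S : Finset P, S.Nonempty → ∑ a ∈ S, ν (D.col a) ≠ 0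

/-- the generic perturbation `(n + 1) ν + 1` -/
def pert (_D : Qv I P E κ) (ν : I → ℤ) : I → ℤ := fun i => ((Fintype.card P : ℤ) + 1) * ν i + 1

/-- the real moment map -/
def muR (y : D.Rep) : Mt P := ∑ e, (D.mat y e * (D.mat y e)ᴴ - (D.mat y e)ᴴ * D.mat y e)

/-- its derivative -/
def dmuR (y δ : D.Rep) : Mt P :=
  ∑ e, (D.mat δ e * (D.mat y e)ᴴ + D.mat y e * (D.mat δ e)ᴴ - (D.mat δ e)ᴴ * D.mat y e -
    (D.mat y e)ᴴ * D.mat δ e)

/-- the level set of the real moment map -/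
def Lev (ν : I → ℤ) : Set D.Rep := {y | D.muR y = -dg (D.th ν)}

/-- the stable locus -/
def St (ν : I → ℤ) : Set D.Rep := {y | D.Stable ν y}

/-- homomorphisms of representations -/
structure Hm (ξ : Mt P) (x y : D.Rep) : Prop where
  grd : Grd D.cl ξ
  comm : ∀ e, ξ * D.mat x e = D.mat y e * ξ

/-- the zero set of the complex moment map -/
def M0 : Set D.dbl.Rep := {y | ∀ a b, D.mu y (some a) (some b) = 0}

end Qv

end Pool.Agent.Work.MP_849ab0_ag.G
end
end

-- merged part: Pool.Agent.Work.MP_849ab0_ag.G.H1.MatA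
section
/-!
Graded matrices.

Hints.  `Grd.inv`: if `g` is a unit, `g` commutes with the diagonal matrices `pcol c i`, hence so does
`g⁻¹`, and a matrix is graded iff it commutes with all `pcol c i`; if `g` is not a unit then
`g⁻¹ = 0`.  `isCompact_KU`: closed, and contained in `fsq ≤ card J`.  `continuousOn_inv`:
`g⁻¹ = (det g)⁻¹ • adjugate g`.
-/

noncomputable section

set_option linter.unusedSectionVars false
set_option linter.unusedVariables false

namespace Pool.Agent.Work.MP_849ab0_ag.G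

open Set Matrix

variable {J C : Type} [Fintype J] [DecidableEq J] {c : J → C} {g h k : Matrix J J ℂ}

theorem Grd.zero : Grd c (0 : Matrix J J ℂ) := fun _ _ _ => rfl
theorem Grd.one : Grd c (1 : Matrix J J ℂ) := fun _ _ e => one_apply_ne fun h => e (h ▸ rfl)
theorem Grd.diag (d : J → ℂ) : Grd c (diagonal d) :=
  fun _ _ e => diagonal_apply_ne _ fun h => e (h ▸ rfl)
theorem Grd.add (h1 : Grd c g) (h2 : Grd c h) : Grd c (g + h) := fun a b e => by
  rw [Matrix.add_apply, h1 a b e, h2 a b e, add_zero]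
theorem Grd.sub (h1 : Grd c g) (h2 : Grd c h) : Grd c (g - h) := fun a b e => by
  rw [Matrix.sub_apply, h1 a b e, h2 a b e, sub_zero]
theorem Grd.neg (h1 : Grd c g) : Grd c (-g) := fun a b e => by
  rw [Matrix.neg_apply, h1 a b e, neg_zero]
theorem Grd.smul (z : ℂ) (h1 : Grd c g) : Grd c (z • g) := fun a b e => by
  rw [Matrix.smul_apply, h1 a b e, smul_zero]
theorem Grd.mul (h1 : Grd c g) (h2 : Grd c h) : Grd c (g * h) := fun a b e => by
  rw [Matrix.mul_apply]
  refine Finset.sum_eq_zero fun d _ => ?_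
  by_cases e' : c a = c d
  · rw [h2 d b (e' ▸ e), mul_zero]
  · rw [h1 a d e', zero_mul]
theorem Grd.adj (h1 : Grd c g) : Grd c gᴴ := fun a b e => by
  rw [conjTranspose_apply, h1 b a e.symm, star_zero]
theorem matA_comm (h1 : Grd c g) {d : J → ℂ} (hd : ∀ a b, c a = c b → d a = d b) :
    diagonal d * g = g * diagonal d := by
  ext a b
  rw [diagonal_mul, mul_diagonal]
  by_cases e : c a = c b
  · rw [hd a b e, mul_comm]
  · rw [h1 a b e, mul_zero, zero_mul]

theorem matA_prc : Grd c g ↔ ∀ i, pcol c i * g = g * pcol c i := by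
  refine ⟨fun h1 i => matA_comm h1 fun a b e => by rw [e], fun h1 a b e => ?_⟩
  have := congrFun (congrFun (h1 (c a)) a) b
  rw [pcol, diagonal_mul, mul_diagonal, if_pos rfl, if_neg (Ne.symm e), one_mul, mul_zero] at this
  exact this

theorem Grd.inv (h1 : Grd c g) : Grd c g⁻¹ := by
  by_cases hu : IsUnit g.det
  · refine matA_prc.2 fun i => ?_
    calc pcol c i * g⁻¹ = g⁻¹ * (g * pcol c i) * g⁻¹ := by
          rw [← Matrix.mul_assoc, nonsing_inv_mul _ hu, Matrix.one_mul]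
      _ = g⁻¹ * pcol c i := by
          rw [← matA_prc.1 h1 i, Matrix.mul_assoc, Matrix.mul_assoc, mul_nonsing_inv _ hu,
            Matrix.mul_one]
  · rw [nonsing_inv_apply_not_isUnit _ hu]
    exact Grd.zero
theorem Grd.mono {C' : Type} {c' : J → C'} (h1 : Grd c' g) (e : ∀ a b, c' a = c' b → c a = c b) :
    Grd c g := fun a b e' => h1 a b fun k => e' (e a b k)
theorem Grd.comm_diag (h1 : Grd c g) {d : J → ℂ} (hd : ∀ a b, c a = c b → d a = d b) :
    diagonal d * g = g * diagonal d := matA_comm h1 hd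
theorem grd_iff_prc : Grd c g ↔ ∀ i, pcol c i * g = g * pcol c i := matA_prc
theorem isClosed_grd : IsClosed {g : Matrix J J ℂ | Grd c g} := by
  simp only [Grd, ofPred_forall]
  exact isClosed_iInter fun a => isClosed_iInter fun b => isClosed_iInter fun _ =>
    isClosed_eq (continuous_id.matrix_elem a b) continuous_const

theorem GU.one : GU c (1 : Matrix J J ℂ) := ⟨Grd.one, isUnit_one⟩
theorem GU.mul (h1 : GU c g) (h2 : GU c h) : GU c (g * h) :=
  ⟨h1.grd.mul h2.grd, h1.unit.mul h2.unit⟩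
theorem GU.inv (h1 : GU c g) : GU c g⁻¹ := ⟨h1.grd.inv, isUnit_nonsing_inv_iff.2 h1.unit⟩
theorem GU.adj (h1 : GU c g) : GU c gᴴ := ⟨h1.grd.adj, (isUnit_conjTranspose g).2 h1.unit⟩
theorem GU.diag {d : J → ℂ} (hd : ∀ a, d a ≠ 0) : GU c (diagonal d) :=
  ⟨Grd.diag d, isUnit_diagonal.2 (Pi.isUnit_iff.2 fun a => (hd a).isUnit)⟩
theorem GU.mul_inv (h1 : GU c g) : g * g⁻¹ = 1 :=
  mul_nonsing_inv _ ((isUnit_iff_isUnit_det g).1 h1.unit)
theorem GU.inv_mul (h1 : GU c g) : g⁻¹ * g = 1 :=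
  nonsing_inv_mul _ ((isUnit_iff_isUnit_det g).1 h1.unit)
theorem GU.inv_inv (h1 : GU c g) : g⁻¹⁻¹ = g :=
  nonsing_inv_nonsing_inv _ ((isUnit_iff_isUnit_det g).1 h1.unit)

theorem KU.one : KU c (1 : Matrix J J ℂ) := ⟨Grd.one, by simp⟩
theorem KU.mul (h1 : KU c g) (h2 : KU c h) : KU c (g * h) := ⟨h1.grd.mul h2.grd, by
  rw [conjTranspose_mul, Matrix.mul_assoc, ← Matrix.mul_assoc gᴴ, h1.uni, Matrix.one_mul, h2.uni]⟩
theorem KU.uni' (h1 : KU c k) : k * kᴴ = 1 := mul_eq_one_comm.1 h1.uni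
theorem KU.adj (h1 : KU c k) : KU c kᴴ :=
  ⟨h1.grd.adj, by rw [conjTranspose_conjTranspose, h1.uni']⟩
theorem KU.gu (h1 : KU c k) : GU c k := ⟨h1.grd, IsUnit.of_mul_eq_one _ h1.uni'⟩
theorem KU.inv_eq (h1 : KU c k) : k⁻¹ = kᴴ := inv_eq_left_inv h1.uni
theorem KU.diag {d : J → ℂ} (hd : ∀ a, ‖d a‖ = 1) : KU c (diagonal d) := by
  refine ⟨Grd.diag d, ?_⟩
  rw [diagonal_conjTranspose, diagonal_mul_diagonal, ← diagonal_one]
  congr 1
  funext a
  rw [Pi.star_apply, Complex.star_def, Complex.conj_mul', hd a]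
  simp
theorem matA_fsq (g : Matrix J J ℂ) : (fsq g : ℂ) = trace (gᴴ * g) := by
  rw [fsq, Finset.sum_comm]
  simp only [trace, diag_apply, Matrix.mul_apply, conjTranspose_apply, Complex.star_def,
    Complex.conj_mul', Complex.ofReal_sum, Complex.ofReal_pow]

theorem matA_cont : Continuous (fsq : Matrix J J ℂ → ℝ) :=
  continuous_finsetSum _ fun a _ => continuous_finsetSum _ fun b _ =>
    (continuous_id.matrix_elem a b).norm.pow 2

theorem matA_le (g : Matrix J J ℂ) (a b : J) : ‖g a b‖ ^ 2 ≤ fsq g :=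
  (Finset.single_le_sum (f := fun b => ‖g a b‖ ^ 2) (fun _ _ => by positivity)
    (Finset.mem_univ b)).trans (Finset.single_le_sum (f := fun a => ∑ b, ‖g a b‖ ^ 2)
      (fun _ _ => by positivity) (Finset.mem_univ a))

theorem matA_compact (M : ℝ) : IsCompact {g : Matrix J J ℂ | fsq g ≤ M} := by
  have h1 : IsCompact {g : Matrix J J ℂ | ∀ a b, g a b ∈ Metric.closedBall (0 : ℂ) √M} :=
    isCompact_pi_infinite fun a => isCompact_pi_infinite fun b => isCompact_closedBall _ _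
  refine h1.of_isClosed_subset (isClosed_le matA_cont continuous_const) fun g hg a b => ?_
  rw [mem_closedBall_zero_iff]
  exact Real.le_sqrt_of_sq_le ((matA_le g a b).trans hg)

theorem isCompact_KU : IsCompact {k : Matrix J J ℂ | KU c k} := by
  refine (matA_compact (Fintype.card J)).of_isClosed_subset ?_ fun k hk => ?_
  · have : {k : Matrix J J ℂ | KU c k} = {k | Grd c k} ∩ {k | kᴴ * k = 1} :=
      Set.ext fun k => ⟨fun h => ⟨h.1, h.2⟩, fun h => ⟨h.1, h.2⟩⟩
    rw [this]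
    exact isClosed_grd.inter (isClosed_eq
      (continuous_id.matrix_conjTranspose.matrix_mul continuous_id) continuous_const)
  · have := matA_fsq k
    rw [hk.uni, trace_one] at this
    exact (show fsq k = Fintype.card J by exact_mod_cast this).le
theorem ku_Ub (k : Ub c) : KU c k.1.1 := ⟨k.2, k.1.2.1⟩
theorem KU.exists_Ub (h1 : KU c k) : ∃ u : Ub c, u.1.1 = k := ⟨⟨⟨k, h1.uni, h1.uni'⟩, h1.grd⟩, rfl⟩

theorem continuousOn_inv : ContinuousOn (fun g : Matrix J J ℂ => g⁻¹) {g | IsUnit g} := by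
  intro g hg
  refine (continuousAt_matrix_inv g ?_).continuousWithinAt
  rw [Ring.inverse_eq_inv']
  exact continuousAt_inv₀ ((isUnit_iff_isUnit_det g).1 hg).ne_zero
theorem isOpen_isUnit : IsOpen {g : Matrix J J ℂ | IsUnit g} := by
  simp only [isUnit_iff_isUnit_det, isUnit_iff_ne_zero]
  exact isOpen_ne_fun continuous_id.matrix_det continuous_const

theorem fsq_eq (g : Matrix J J ℂ) : (fsq g : ℂ) = trace (gᴴ * g) := matA_fsq g
theorem fsq_nonneg (g : Matrix J J ℂ) : 0 ≤ fsq g := by unfold fsq; positivity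
theorem fsq_eq_zero : fsq g = 0 ↔ g = 0 := by
  refine ⟨fun e => Matrix.ext fun a b => ?_, fun e => by simp [e, fsq]⟩
  have := matA_le g a b
  rw [e] at this
  exact norm_eq_zero.1 (pow_eq_zero_iff two_ne_zero |>.1 (le_antisymm this (by positivity)))
theorem fsq_adj (g : Matrix J J ℂ) : fsq gᴴ = fsq g := by
  rw [fsq, fsq, Finset.sum_comm]
  simp only [conjTranspose_apply, norm_star]
theorem KU.fsq_mul (h1 : KU c k) (g : Matrix J J ℂ) : fsq (k * g) = fsq g := by
  apply Complex.ofReal_injective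
  rw [fsq_eq, fsq_eq, conjTranspose_mul, Matrix.mul_assoc, ← Matrix.mul_assoc kᴴ, h1.uni,
    Matrix.one_mul]
theorem KU.mul_fsq (h1 : KU c k) (g : Matrix J J ℂ) : fsq (g * k) = fsq g := by
  rw [← fsq_adj, conjTranspose_mul, h1.adj.fsq_mul, fsq_adj]
theorem continuous_fsq : Continuous (fsq : Matrix J J ℂ → ℝ) := matA_cont
theorem isCompact_fsq (M : ℝ) : IsCompact {g : Matrix J J ℂ | fsq g ≤ M} := matA_compact M

theorem wtr_eq (θ : J → ℝ) (Q : Matrix J J ℂ) : wtr θ Q = (trace (dg θ * Q)).re := by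
  simp only [wtr, dg, trace, diag_apply, diagonal_mul]
theorem wtr_add (θ : J → ℝ) (g h : Matrix J J ℂ) : wtr θ (g + h) = wtr θ g + wtr θ h := by
  simp only [wtr_eq, Matrix.mul_add, trace_add, Complex.add_re]
theorem wtr_sub (θ : J → ℝ) (g h : Matrix J J ℂ) : wtr θ (g - h) = wtr θ g - wtr θ h := by
  simp only [wtr_eq, Matrix.mul_sub, trace_sub, Complex.sub_re]
theorem wtr_one (θ : J → ℝ) : wtr θ (1 : Matrix J J ℂ) = ∑ a, θ a := by simp [wtr]
theorem wtr_prS (θ : J → ℝ) (S : Finset J) : wtr θ (prS S) = ∑ a ∈ S, θ a := by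
  simp [wtr, prS]
theorem wtr_dg (θ d : J → ℝ) : wtr θ (dg d) = ∑ a, θ a * d a := by
  simp [wtr, dg]
theorem wtr_comm {θ : J → ℝ} (hθ : ∀ a b, c a = c b → θ a = θ b) (h1 : Grd c g)
    (h : Matrix J J ℂ) : wtr θ (g * h) = wtr θ (h * g) := by
  have e : dg θ * g = g * dg θ := h1.comm_diag fun a b e => by rw [hθ a b e]
  rw [wtr_eq, wtr_eq, ← Matrix.mul_assoc, e, Matrix.mul_assoc, trace_mul_comm, Matrix.mul_assoc]
theorem wtr_conj {θ : J → ℝ} (hθ : ∀ a b, c a = c b → θ a = θ b) (h1 : KU c k)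
    (Q : Matrix J J ℂ) : wtr θ (k * Q * kᴴ) = wtr θ Q := by
  rw [Matrix.mul_assoc, wtr_comm hθ h1.grd, Matrix.mul_assoc, h1.uni, Matrix.mul_one]
theorem continuous_wtr (θ : J → ℝ) : Continuous (wtr θ) :=
  Complex.continuous_re.comp (continuous_finsetSum _ fun a _ =>
    continuous_const.mul (continuous_id.matrix_elem a a))

theorem isPr_prS (S : Finset J) : IsPr c (prS S) := by
  refine ⟨?_, ?_, Grd.diag _⟩
  · rw [prS, diagonal_conjTranspose]
    congr 1
    funext a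
    rw [Pi.star_apply]
    split_ifs <;> simp
  · rw [prS, diagonal_mul_diagonal]
    congr 1
    funext a
    split_ifs <;> simp
theorem IsPr.compl {Q : Matrix J J ℂ} (h1 : IsPr c Q) : IsPr c (1 - Q) := by
  refine ⟨?_, ?_, Grd.one.sub h1.2.2⟩
  · rw [conjTranspose_sub, conjTranspose_one, h1.1]
  · rw [Matrix.mul_sub, Matrix.sub_mul, Matrix.sub_mul, h1.2.1]
    simp
theorem matA_cj (h2 : KU c k) (x y : Matrix J J ℂ) :
    k * x * kᴴ * (k * y * kᴴ) = k * (x * y) * kᴴ := by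
  simp only [Matrix.mul_assoc]
  rw [← Matrix.mul_assoc kᴴ, h2.uni, Matrix.one_mul]

theorem IsPr.conj {Q : Matrix J J ℂ} (h1 : IsPr c Q) (h2 : KU c k) : IsPr c (k * Q * kᴴ) := by
  refine ⟨?_, ?_, (h2.grd.mul h1.2.2).mul h2.grd.adj⟩
  · rw [conjTranspose_mul, conjTranspose_mul, conjTranspose_conjTranspose, h1.1, Matrix.mul_assoc]
  · rw [matA_cj h2, h1.2.1]
theorem pres_prS {S : Finset J} {y : Matrix J J ℂ} :
    Pres (prS S) y ↔ ∀ b a, a ∈ S → b ∉ S → y b a = 0 := by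
  have e : ∀ b a, ((1 - prS S) * y * prS S) b a = if a ∈ S ∧ b ∉ S then y b a else 0 := by
    intro b a
    rw [prS, ← diagonal_one, diagonal_sub, mul_diagonal, diagonal_mul]
    by_cases ha : a ∈ S <;> by_cases hb : b ∈ S <;> simp [ha, hb]
  refine ⟨fun h b a ha hb => ?_, fun h => Matrix.ext fun b a => ?_⟩
  · have := congrFun (congrFun h b) a
    rwa [e, if_pos ⟨ha, hb⟩] at this
  · rw [e]
    split_ifs with k
    exacts [h b a k.1 k.2, rfl]
theorem Pres.conj {Q y : Matrix J J ℂ} (h1 : Pres Q y) (h2 : KU c k) :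
    Pres (k * Q * kᴴ) (k * y * kᴴ) := by
  have e : 1 - k * Q * kᴴ = k * (1 - Q) * kᴴ := by
    rw [Matrix.mul_sub, Matrix.sub_mul, Matrix.mul_one, h2.uni']
  rw [Pres, e, matA_cj h2, matA_cj h2, h1, Matrix.mul_zero, Matrix.zero_mul]
theorem prS_eq_zero {S : Finset J} : prS S = 0 ↔ S = ∅ := by
  rw [prS, ← diagonal_zero, diagonal_eq_diagonal_iff, Finset.eq_empty_iff_forall_notMem]
  simp
theorem prS_eq_one {S : Finset J} : prS S = 1 ↔ S = Finset.univ := by
  rw [prS, ← diagonal_one, diagonal_eq_diagonal_iff, Finset.eq_univ_iff_forall]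
  simp

theorem MFil.mul {r r' r'' : J → ℤ} {m m' : ℤ} (h1 : MFil r' r'' m g) (h2 : MFil r r' m' h) :
    MFil r r'' (m + m') (g * h) := fun b a e => by
  rw [Matrix.mul_apply]
  refine Finset.sum_eq_zero fun d _ => ?_
  by_cases e' : r a + m' < r' d
  · rw [h2 d a e', mul_zero]
  · rw [h1 b d (by omega), zero_mul]
theorem MFil.add {r r' : J → ℤ} {m : ℤ} (h1 : MFil r r' m g) (h2 : MFil r r' m h) :
    MFil r r' m (g + h) := fun b a e => by
  rw [Matrix.add_apply, h1 b a e, h2 b a e, add_zero]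
theorem MFil.sub {r r' : J → ℤ} {m : ℤ} (h1 : MFil r r' m g) (h2 : MFil r r' m h) :
    MFil r r' m (g - h) := fun b a e => by
  rw [Matrix.sub_apply, h1 b a e, h2 b a e, sub_zero]
theorem MFil.smul {r r' : J → ℤ} {m : ℤ} (z : ℂ) (h1 : MFil r r' m g) : MFil r r' m (z • g) :=
  fun b a e => by rw [Matrix.smul_apply, h1 b a e, smul_zero]
theorem MFil.mono {r r' : J → ℤ} {m m' : ℤ} (h1 : MFil r r' m g) (e : m ≤ m') : MFil r r' m' g :=
  fun b a e' => h1 b a (by omega)
theorem MFil.diag {r : J → ℤ} (d : J → ℂ) : MFil r r 0 (diagonal d) := fun b a e =>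
  diagonal_apply_ne _ fun h => by rw [h] at e; omega
/-- block triangular matrices have block triangular inverses (`Matrix.BlockTriangular.inv`) -/
theorem MFil.inv {r : J → ℤ} (h1 : MFil r r 0 g) : MFil r r 0 g⁻¹ := by
  by_cases hu : IsUnit g
  · obtain ⟨_⟩ := hu.nonempty_invertible
    exact fun b a e => blockTriangular_inv_of_blockTriangular (b := r)
      (fun b a e => h1 b a (by omega)) (by omega)
  · rw [nonsing_inv_apply_not_isUnit _ fun e => hu ((isUnit_iff_isUnit_det g).2 e)]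
    exact fun _ _ _ => rfl
theorem MFil.refine {r s : J → ℤ} (e : ∀ a b, r a < r b → s a < s b) (h1 : MFil s s 0 g) :
    MFil r r 0 g := fun b a e' => h1 b a (by have := e a b (by omega); omega)
theorem KU.grd_of_mfil {r : J → ℤ} (h1 : KU c k) (h2 : MFil r r 0 k) : Grd r k := by
  intro a b e
  rcases lt_or_gt_of_ne e with e | e
  · have := h2.inv b a (by omega)
    rwa [h1.inv_eq, conjTranspose_apply, star_eq_zero] at this
  · exact h2 a b (by omega)

theorem unhat_hat (z : ℂ) (g : Matrix J J ℂ) : unhat (hat z g) = g := rfl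
theorem hat_unhat {g : Matrix (Option J) (Option J) ℂ} (h1 : Grd (Option.map c) g) :
    hat (g none none) (unhat g) = g := by
  ext (_ | a) (_ | b)
  · rfl
  · exact (h1 _ _ (by simp)).symm
  · exact (h1 _ _ (by simp)).symm
  · rfl
theorem hat_mulH (z w : ℂ) (g h : Matrix J J ℂ) : hat z g * hat w h = hat (z * w) (g * h) := by
  ext (_ | a) (_ | b) <;> simp [hat, Matrix.mul_apply, Fintype.sum_option]
theorem hat_oneH : hat 1 (1 : Matrix J J ℂ) = 1 := by
  ext (_ | a) (_ | b) <;> simp [hat, Matrix.one_apply]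
theorem hat_adj (z : ℂ) (g : Matrix J J ℂ) : (hat z g)ᴴ = hat (star z) gᴴ := by
  ext (_ | a) (_ | b) <;> simp [hat]
theorem grd_hat {z : ℂ} : Grd (Option.map c) (hat z g) ↔ Grd c g := by
  refine ⟨fun h a b e => h (some a) (some b) (by simpa using e), ?_⟩
  rintro h (_ | a) (_ | b) e
  · exact absurd rfl e
  · rfl
  · rfl
  · exact h a b (by simpa using e)
theorem matA_det (z : ℂ) (g : Matrix J J ℂ) (h : Matrix (Option J) (Option J) ℂ)
    (e : hat z g * h = 1) : g * unhat h = 1 := by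
  ext a b
  simpa [hat, unhat, Matrix.mul_apply, Fintype.sum_option, Matrix.one_apply] using
    congrFun (congrFun e (some a)) (some b)

theorem gu_hat : GU (Option.map c) (hat 1 g) ↔ GU c g := by
  refine ⟨fun h => ⟨grd_hat.1 h.grd, IsUnit.of_mul_eq_one _ (matA_det _ _ _ h.mul_inv)⟩,
    fun h => ⟨grd_hat.2 h.grd, IsUnit.of_mul_eq_one (hat 1 g⁻¹) ?_⟩⟩
  rw [hat_mulH, h.mul_inv, one_mul, hat_oneH]
theorem ku_hat : KU (Option.map c) (hat 1 g) ↔ KU c g := by
  refine ⟨fun h => ⟨grd_hat.1 h.grd, ?_⟩, fun h => ⟨grd_hat.2 h.grd, ?_⟩⟩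
  · have := h.uni
    rw [hat_adj] at this
    exact matA_det _ _ _ this
  · rw [hat_adj, hat_mulH, h.uni, star_one, one_mul, hat_oneH]
theorem cont_hat : Continuous fun z : ℂ × Matrix J J ℂ => hat z.1 z.2 := by
  refine continuous_matrix ?_
  rintro (_ | a) (_ | b)
  · exact continuous_fst
  · exact continuous_const
  · exact continuous_const
  · exact continuous_snd.matrix_elem a b
theorem Grd.mul_none {g h : Matrix (Option J) (Option J) ℂ} (h1 : Grd (Option.map c) g) :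
    (g * h) none none = g none none * h none none := by
  rw [Matrix.mul_apply, Fintype.sum_option, Finset.sum_eq_zero fun a _ => by
    rw [h1 none (some a) (by simp), zero_mul], add_zero]
theorem GU.none_ne {g : Matrix (Option J) (Option J) ℂ} (h1 : GU (Option.map c) g) :
    g none none ≠ 0 := by
  have := h1.grd.mul_none (h := g⁻¹)
  rw [h1.mul_inv, one_apply_eq] at this
  exact left_ne_zero_of_mul_eq_one this.symm
theorem GU.inv_none {g : Matrix (Option J) (Option J) ℂ} (h1 : GU (Option.map c) g) :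
    g⁻¹ none none = (g none none)⁻¹ := by
  have := h1.grd.mul_none (h := g⁻¹)
  rw [h1.mul_inv, one_apply_eq] at this
  exact eq_inv_of_mul_eq_one_right this.symm

end Pool.Agent.Work.MP_849ab0_ag.G
end
end

-- merged part: Pool.Agent.Work.MP_849ab0_ag.G.H1.MatB
section
/-!
Representations as families of matrices, conjugation.

Hints.  `mat_cj`: the family `g * mat y e * g⁻¹` is supported on the right blocks (`Sup.mul`,
`Grd.inv`).  Prove equalities of representations with `mat_ext`.  `exists_framed`: divide by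
`g none none`.  `exists_act`: `exists_framed`, `hat_unhat`, `KU.exists_Ub`, `chr m 1 = 1`.
-/

noncomputable section

set_option linter.unusedSectionVars false
set_option linter.unusedVariables false

namespace Pool.Agent.Work.MP_849ab0_ag.G

open Set Matrix

namespace Qv

variable {I P E κ : Type} [Fintype I] [DecidableEq I] [Fintype P] [DecidableEq P] [Fintype E]
  [Fintype κ] [DecidableEq κ] {D : Qv I P E κ}
  {g h k ξ : Mt P} {x y : D.Rep} {ν : I → ℤ} {χ : E → ℂ}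

theorem sup_mat (y : D.Rep) : D.Sup (D.mat y) := by
  intro e b a h
  simp only [mat, Matrix.of_apply]
  rw [dif_neg h]

theorem unmat_mat (y : D.Rep) : D.unmat (D.mat y) = y := by
  funext p
  simp only [unmat, mat, Matrix.of_apply]
  rw [dif_pos p.2]
  rfl

theorem mat_unmat {m : E → Mt P} (hm : D.Sup m) : D.mat (D.unmat m) = m := by
  funext e
  ext b a
  simp only [mat, Matrix.of_apply]
  split_ifs with h
  · rfl
  · exact (hm e b a h).symm

theorem mat_app (y : D.Rep) (p : D.Wt) : D.mat y p.1.1 p.1.2.2 p.1.2.1 = y p :=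
  congrFun (unmat_mat y) p

theorem mat_ext (e : ∀ e, D.mat x e = D.mat y e) : x = y := by
  rw [← unmat_mat x, ← unmat_mat y, funext e]

theorem mat_addH (x y : D.Rep) (e : E) : D.mat (x + y) e = D.mat x e + D.mat y e := by
  ext b a
  simp only [mat, Matrix.of_apply, Matrix.add_apply]
  split_ifs with h
  · rfl
  · simp

theorem mat_sub (x y : D.Rep) (e : E) : D.mat (x - y) e = D.mat x e - D.mat y e := by
  ext b a
  simp only [mat, Matrix.of_apply, Matrix.sub_apply]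
  split_ifs with h
  · rfl
  · simp

theorem mat_smulH (z : ℂ) (y : D.Rep) (e : E) : D.mat (z • y) e = z • D.mat y e := by
  ext b a
  simp only [mat, Matrix.of_apply, Matrix.smul_apply]
  split_ifs with h
  · rfl
  · simp

theorem mat_zeroH (e : E) : D.mat 0 e = 0 := by
  ext b a
  simp only [mat, Matrix.of_apply, Matrix.zero_apply]
  split_ifs with h
  · rfl
  · rfl

theorem mat_sc (χ : E → ℂ) (y : D.Rep) (e : E) : D.mat (D.sc χ y) e = χ e • D.mat y e := by
  ext b a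
  simp only [mat, Matrix.of_apply, Matrix.smul_apply]
  split_ifs with h
  · rfl
  · simp

theorem cont_mat (e : E) : Continuous fun y : D.Rep => D.mat y e := by
  refine continuous_matrix fun b a => ?_
  simp only [mat, Matrix.of_apply]
  split_ifs with h
  · exact continuous_apply _
  · exact continuous_const

theorem continuous_unmat : Continuous D.unmat := by
  refine continuous_pi fun p => ?_
  exact (continuous_apply_apply p.1.2.2 p.1.2.1).comp (continuous_apply p.1.1)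

theorem Sup.mul {m : E → Mt P} (hm : D.Sup m) (h1 : Grd D.cl g) (h2 : Grd D.cl h) :
    D.Sup fun e => g * m e * h := by
  intro e b a hn
  simp only [Matrix.mul_apply]
  refine Finset.sum_eq_zero fun a' _ => ?_
  by_cases ha : D.cl a' = D.cl a
  · rw [Finset.sum_eq_zero, zero_mul]
    intro b' _
    by_cases hb : D.cl b = D.cl b'
    · rw [hm e b' a', mul_zero]
      rintro ⟨u, v⟩
      exact hn ⟨ha.symm.trans u, hb.trans v⟩
    · rw [h1 b b' hb, zero_mul]
  · rw [h2 a' a ha, mul_zero]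

theorem Sup.add {m m' : E → Mt P} (hm : D.Sup m) (hm' : D.Sup m') :
    D.Sup fun e => m e + m' e := by
  intro e b a hn
  simp only [Matrix.add_apply, hm e b a hn, hm' e b a hn, add_zero]

theorem Sup.sub {m m' : E → Mt P} (hm : D.Sup m) (hm' : D.Sup m') :
    D.Sup fun e => m e - m' e := by
  intro e b a hn
  simp only [Matrix.sub_apply, hm e b a hn, hm' e b a hn, sub_zero]

theorem matB_sum_wt (f : E → Option P → Option P → ℝ) (y : D.Rep) :
    ∑ e, ∑ b, ∑ a, f e b a * ‖D.mat y e b a‖ ^ 2 =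
      ∑ p : D.Wt, f p.1.1 p.1.2.2 p.1.2.1 * ‖y p‖ ^ 2 := by
  classical
  have h1 : ∑ e, ∑ b, ∑ a, f e b a * ‖D.mat y e b a‖ ^ 2 =
      ∑ q : E × Option P × Option P, f q.1 q.2.2 q.2.1 * ‖D.mat y q.1 q.2.2 q.2.1‖ ^ 2 := by
    rw [Fintype.sum_prod_type]
    refine Finset.sum_congr rfl fun e _ => ?_
    rw [Fintype.sum_prod_type, Finset.sum_comm]
  rw [h1]
  symm
  refine Finset.sum_of_injOn (fun p : D.Wt => p.1) (fun p _ q _ h => Subtype.ext h)
    (fun _ _ => Finset.mem_univ _) ?_ ?_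
  · intro q _ hq
    rw [sup_mat y q.1 q.2.2 q.2.1, norm_zero]
    · simp
    · intro h
      exact hq ⟨⟨q, h⟩, Finset.mem_coe.2 (Finset.mem_univ _), rfl⟩
  · intro p _
    rw [mat_app]

theorem nsq_fsq (y : D.Rep) : nsq y = ∑ e, fsq (D.mat y e) := by
  have := matB_sum_wt (fun _ _ _ => 1) y
  simp only [one_mul] at this
  rw [nsq, ← this]
  rfl

/-- sums over the coordinates -/
theorem sum_wt (f : E → Option P → Option P → ℝ) (y : D.Rep) :
    ∑ e, ∑ b, ∑ a, f e b a * ‖D.mat y e b a‖ ^ 2 = ∑ p : D.Wt, f p.1.1 p.1.2.2 p.1.2.1 * ‖y p‖ ^ 2 :=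
  matB_sum_wt f y

theorem gact_eq (g : Matrix P P ℂ) (y : D.Rep) : D.gact g y = D.cnj (hat 1 g) y := rfl
theorem aN_act (g : (KT D.col κ).H) (y : D.Rep) :
    D.aN.act g y = D.sc (fun e => chr (D.t e) g.2) (D.cnj (hat 1 g.1.1.1) y) := rfl
theorem mat_cj (h1 : Grd D.cl g) (y : D.Rep) (e : E) : D.mat (D.cnj g y) e = g * D.mat y e * g⁻¹ :=
  congrFun (mat_unmat ((sup_mat y).mul h1 h1.inv)) e

theorem mat_cj_ku (h1 : KU D.cl k) (y : D.Rep) (e : E) :
    D.mat (D.cnj k y) e = k * D.mat y e * kᴴ := by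
  rw [mat_cj h1.grd, h1.inv_eq]

theorem mat_ad (h1 : Grd D.cl ξ) (y : D.Rep) (e : E) :
    D.mat (D.ad ξ y) e = ξ * D.mat y e - D.mat y e * ξ := by
  have h2 := ((sup_mat y).mul h1 Grd.one).sub ((sup_mat y).mul Grd.one h1)
  simp only [Matrix.mul_one, Matrix.one_mul] at h2
  exact congrFun (mat_unmat h2) e

theorem cj_one (y : D.Rep) : D.cnj 1 y = y := by
  refine mat_ext fun e => ?_
  rw [mat_cj Grd.one, inv_one, Matrix.one_mul, Matrix.mul_one]

theorem cj_mul (h1 : GU D.cl g) (h2 : GU D.cl h) (y : D.Rep) :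
    D.cnj (g * h) y = D.cnj g (D.cnj h y) := by
  refine mat_ext fun e => ?_
  rw [mat_cj (h1.mul h2).grd, mat_cj h1.grd, mat_cj h2.grd, Matrix.mul_inv_rev]
  simp only [Matrix.mul_assoc]

theorem cj_inv (h1 : GU D.cl g) (y : D.Rep) : D.cnj g⁻¹ (D.cnj g y) = y := by
  rw [← cj_mul h1.inv h1, h1.inv_mul, cj_one]

theorem cj_inv' (h1 : GU D.cl g) (y : D.Rep) : D.cnj g (D.cnj g⁻¹ y) = y := by
  rw [← cj_mul h1 h1.inv, h1.mul_inv, cj_one]

theorem matB_inv_smul {z : ℂ} (hz : z ≠ 0) (h1 : GU D.cl g) : (z • g)⁻¹ = z⁻¹ • g⁻¹ := by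
  refine Matrix.inv_eq_right_inv ?_
  rw [Matrix.smul_mul, Matrix.mul_smul, smul_smul, h1.mul_inv, mul_inv_cancel₀ hz, one_smul]

theorem cj_smul {z : ℂ} (hz : z ≠ 0) (h1 : GU D.cl g) (y : D.Rep) :
    D.cnj (z • g) y = D.cnj g y := by
  refine mat_ext fun e => ?_
  rw [mat_cj (h1.grd.smul z), mat_cj h1.grd, matB_inv_smul hz h1, Matrix.smul_mul,
    Matrix.smul_mul, Matrix.mul_smul, smul_smul, mul_inv_cancel₀ hz, one_smul]

theorem cj_diag {d : Option P → ℂ} (hd : ∀ a, d a ≠ 0) (y : D.Rep) (p : D.Wt) :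
    D.cnj (diagonal d) y p = d p.1.2.2 * (d p.1.2.1)⁻¹ * y p := by
  have h1 : (diagonal d)⁻¹ = diagonal fun a => (d a)⁻¹ := by
    refine Matrix.inv_eq_right_inv ?_
    rw [diagonal_mul_diagonal, ← diagonal_one]
    congr 1
    funext a
    exact mul_inv_cancel₀ (hd a)
  simp only [cnj, unmat]
  rw [h1, mul_diagonal, diagonal_mul, mat_app]
  ring

theorem cj_sc (g : Mt P) (χ : E → ℂ) (y : D.Rep) :
    D.cnj g (D.sc χ y) = D.sc χ (D.cnj g y) := by
  funext p
  simp only [cnj, unmat, sc]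
  rw [mat_sc, Matrix.mul_smul, Matrix.smul_mul, Matrix.smul_apply, smul_eq_mul]

theorem cj_add (g : Mt P) (x y : D.Rep) : D.cnj g (x + y) = D.cnj g x + D.cnj g y := by
  funext p
  simp only [cnj, unmat, Pi.add_apply]
  rw [mat_addH, Matrix.mul_add, Matrix.add_mul, Matrix.add_apply]

theorem cj_smul' (g : Mt P) (z : ℂ) (y : D.Rep) : D.cnj g (z • y) = z • D.cnj g y := by
  funext p
  simp only [cnj, unmat, Pi.smul_apply]
  rw [mat_smulH, Matrix.mul_smul, Matrix.smul_mul, Matrix.smul_apply]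

theorem sc_sc (χ χ' : E → ℂ) (y : D.Rep) : D.sc χ (D.sc χ' y) = D.sc (χ * χ') y := by
  funext p
  simp only [sc, Pi.mul_apply, mul_assoc]

theorem continuousOn_cj :
    ContinuousOn (fun z : Mt P × D.Rep => D.cnj z.1 z.2) ({g | IsUnit g} ×ˢ univ) := by
  refine continuous_unmat.comp_continuousOn (continuousOn_pi.2 fun e => ?_)
  have h1 : ContinuousOn (fun z : Mt P × D.Rep => z.1⁻¹) ({g | IsUnit g} ×ˢ univ) :=
    continuousOn_inv.comp continuous_fst.continuousOn fun z hz => hz.1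
  have h2 : Continuous fun z : Mt P × D.Rep => z.1 * D.mat z.2 e :=
    continuous_fst.matrix_mul ((cont_mat e).comp continuous_snd)
  have h3 : Continuous fun w : Mt P × Mt P => w.1 * w.2 :=
    continuous_fst.matrix_mul continuous_snd
  have h4 := h3.comp_continuousOn (h2.continuousOn.prodMk h1)
  exact h4.congr fun z _ => rfl

theorem continuous_cnj (g : Mt P) : Continuous (D.cnj g) := by
  refine continuous_unmat.comp (continuous_pi fun e => ?_)
  exact (continuous_const.matrix_mul (cont_mat e)).matrix_mul continuous_const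

theorem continuous_sc : Continuous fun z : (E → ℂ) × D.Rep => D.sc z.1 z.2 := by
  refine continuous_pi fun p => ?_
  exact ((continuous_apply p.1.1).comp continuous_fst).mul
    ((continuous_apply p).comp continuous_snd)

theorem nsq_cj (h1 : KU D.cl k) (y : D.Rep) : nsq (D.cnj k y) = nsq y := by
  rw [nsq_fsq, nsq_fsq]
  refine Finset.sum_congr rfl fun e _ => ?_
  rw [mat_cj_ku h1, h1.adj.mul_fsq, h1.fsq_mul]

theorem nsq_sc (h1 : ∀ e, ‖χ e‖ = 1) (y : D.Rep) : nsq (D.sc χ y) = nsq y := by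
  simp only [nsq, sc, norm_mul, h1, one_mul]

theorem hm_cj (h1 : GU D.cl g) (y : D.Rep) : D.Hm g y (D.cnj g y) := by
  refine ⟨h1.grd, fun e => ?_⟩
  rw [mat_cj h1.grd, Matrix.mul_assoc (g * D.mat y e), h1.inv_mul, Matrix.mul_one]

theorem Hm.cj_eq (h1 : D.Hm g x y) (h2 : IsUnit g) : D.cnj g x = y := by
  refine mat_ext fun e => ?_
  rw [mat_cj h1.grd, h1.comm e, Matrix.mul_assoc, (GU.mk h1.grd h2).mul_inv, Matrix.mul_one]

/-- every graded invertible matrix acts like one whose framing entry is `1` -/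
theorem exists_framed (h1 : GU D.cl g) :
    ∃ g', GU D.cl g' ∧ g' none none = 1 ∧ (KU D.cl g → KU D.cl g') ∧
      ∀ y, D.cnj g' y = D.cnj g y := by
  have hz : g none none ≠ 0 := h1.none_ne
  have hd : (g none none)⁻¹ • g = Matrix.diagonal (fun _ => (g none none)⁻¹) * g := by
    ext a b
    rw [diagonal_mul, Matrix.smul_apply, smul_eq_mul]
  refine ⟨(g none none)⁻¹ • g, ?_, ?_, fun hk => ?_, fun y => cj_smul (inv_ne_zero hz) h1 y⟩
  · rw [hd]
    exact (GU.diag fun _ => inv_ne_zero hz).mul h1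
  · rw [Matrix.smul_apply, smul_eq_mul, inv_mul_cancel₀ hz]
  · rw [hd]
    refine (KU.diag fun _ => ?_).mul hk
    have h2 : (gᴴ * g) none none = gᴴ none none * g none none := hk.grd.adj.mul_none
    rw [hk.uni, one_apply_eq, conjTranspose_apply] at h2
    have h3 : ‖g none none‖ * ‖g none none‖ = 1 := by
      have := congrArg norm h2
      rw [norm_one, norm_mul, norm_star] at this
      exact this.symm
    have h4 : ‖g none none‖ = 1 := by
      rcases mul_self_eq_one_iff.1 h3 with h | h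
      · exact h
      · have := norm_nonneg (g none none)
        linarith
    rw [norm_inv, h4, inv_one]

theorem exists_act (h1 : KU D.cl k) : ∃ u : Ub D.col, ∀ y, D.aN.act (u, 1) y = D.cnj k y := by
  obtain ⟨g', h2, h3, h4, h5⟩ := exists_framed h1.gu
  have h6 : hat 1 (unhat g') = g' := by
    have := hat_unhat h2.grd
    rwa [h3] at this
  have h7 : KU D.col (unhat g') := ku_hat.1 (by rw [h6]; exact h4 h1)
  obtain ⟨u, hu⟩ := h7.exists_Ub
  refine ⟨u, fun y => ?_⟩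
  rw [aN_act]
  change D.sc (fun e => chr (D.t e) (1 : κ → Circle)) (D.cnj (hat 1 u.1.1) y) = _
  rw [hu, h6, h5]
  funext p
  simp [sc, chr]

end Qv

end Pool.Agent.Work.MP_849ab0_ag.G
end
end

-- merged part: Pool.Agent.Work.MP_849ab0_ag.G.H1.MatC
section
/-!
Stability weights and moment maps.

Hints.  `wtr_muR`: the diagonal entry of `y yᴴ` at `o` is the sum of `‖y o a‖ ^ 2`, use `sum_wt`.
`mem_lev_of`: `muR` is Hermitian, graded and traceless.  `nsq_le_of_acyclic`: `wtr_muR`.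
`grd_muR`, `grd_mu`: an entry `(b, a)` of `mat y e * mat y' e'` is a sum over the middle index.
-/

noncomputable section

set_option linter.unusedSectionVars false
set_option linter.unusedVariables false

namespace Pool.Agent.Work.MP_849ab0_ag.G

open Set Matrix

namespace Qv

variable {I P E κ : Type} [Fintype I] [DecidableEq I] [Fintype P] [DecidableEq P] [Fintype E]
  [Fintype κ] [DecidableEq κ] {D : Qv I P E κ}
  {g h k ξ : Mt P} {x y : D.Rep} {ν : I → ℤ} {χ : E → ℂ}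

theorem th_cl (a b : Option P) (e : D.cl a = D.cl b) : D.th ν a = D.th ν b := by
  cases a <;> cases b <;> simp only [cl, Option.map_none, Option.map_some, reduceCtorEq,
    Option.some.injEq] at e
  · rfl
  · simp only [th, thZ, e]
theorem sum_th : ∑ o, D.th ν o = 0 := by
  simp [th, thZ, Fintype.sum_option]
theorem sum_thZ : ∑ o, D.thZ ν o = 0 := by
  simp [thZ, Fintype.sum_option]
theorem stable_iff : D.Stable ν y ↔
    ∀ Q, IsPr D.cl Q → (∀ e, Pres Q (D.mat y e)) → Q ≠ 0 → Q ≠ 1 → wtr (D.th ν) Q < 0 := by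
  have e : ∀ Q : Mt P, wtr (D.th ν) Q =
      (∑ a, (ν (D.col a) : ℂ) * (Q (some a) (some a) - Q none none)).re := fun Q => by
    unfold wtr
    congr 1
    simp only [Fintype.sum_option, th, thZ, mul_sub, Finset.sum_sub_distrib, ← Finset.sum_mul]
    push_cast
    ring
  simp only [e]
  rfl
theorem gen_pert (ν : I → ℤ) : D.Gen (D.pert ν) := by
  intro S hS h
  simp only [pert, Finset.sum_add_distrib, ← Finset.mul_sum, Finset.sum_const, nsmul_eq_mul,
    mul_one] at h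
  have h1 : (1 : ℤ) ≤ S.card := by exact_mod_cast hS.card_pos
  have h2 : (S.card : ℤ) ≤ Fintype.card P := by exact_mod_cast S.card_le_univ
  rcases le_or_gt 0 (∑ a ∈ S, ν (D.col a)) with h3 | h3
  · nlinarith
  · nlinarith
theorem matc_sum_ne (h1 : D.Gen ν) {S : Finset (Option P)} (h2 : S.Nonempty) (h3 : none ∉ S) :
    ∑ o ∈ S, D.thZ ν o ≠ 0 := by
  have e : ∑ o ∈ S, D.thZ ν o = ∑ a ∈ Finset.eraseNone S, ν (D.col a) := by
    rw [Finset.sum_eraseNone]
    refine Finset.sum_congr rfl fun o ho => ?_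
    cases o with
    | none => exact absurd ho h3
    | some a => rfl
  rw [e]
  obtain ⟨o, ho⟩ := h2
  cases o with
  | none => exact absurd ho h3
  | some a => exact h1 _ ⟨a, Finset.mem_eraseNone.2 ho⟩
theorem Gen.sum_ne (h1 : D.Gen ν) {S : Finset (Option P)} (h2 : S ≠ ∅) (h3 : S ≠ Finset.univ) :
    ∑ o ∈ S, D.thZ ν o ≠ 0 := by
  by_cases h : none ∈ S
  · have h4 := matc_sum_ne h1 (S := Sᶜ)
      (Finset.nonempty_iff_ne_empty.2 fun h5 => h3 (Finset.compl_eq_empty_iff S |>.1 h5))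
      (by simpa using h)
    have h5 := Finset.sum_add_sum_compl S (D.thZ ν)
    rw [sum_thZ] at h5
    intro h6
    rw [h6, zero_add] at h5
    exact h4 h5
  · exact matc_sum_ne h1 (Finset.nonempty_iff_ne_empty.2 h2) h

theorem muR_adj (y : D.Rep) : (D.muR y)ᴴ = D.muR y := by
  simp only [muR, conjTranspose_sum, conjTranspose_sub, conjTranspose_mul,
    conjTranspose_conjTranspose]
theorem matc_grd {A B : Mt P} (u : Option I) (hA : ∀ a c, A a c ≠ 0 → D.cl a = u)
    (hB : ∀ c b, B c b ≠ 0 → D.cl b = u) : Grd D.cl (A * B) := by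
  intro a b h
  rw [Matrix.mul_apply]
  refine Finset.sum_eq_zero fun c _ => ?_
  by_contra h1
  exact h ((hA a c (left_ne_zero_of_mul h1)).trans (hB c b (right_ne_zero_of_mul h1)).symm)
theorem matc_sup (y : D.Rep) (e : E) (b a : Option P) (h : D.mat y e b a ≠ 0) :
    D.cl a = D.src e ∧ D.cl b = D.tgt e := by
  by_contra h1
  exact h (sup_mat y e b a h1)
theorem matc_grd_sum {f : E → Mt P} (h : ∀ e, Grd D.cl (f e)) : Grd D.cl (∑ e, f e) := by
  intro a b h1
  rw [Matrix.sum_apply]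
  exact Finset.sum_eq_zero fun e _ => h e a b h1
theorem grd_muR (y : D.Rep) : Grd D.cl (D.muR y) := by
  refine matc_grd_sum fun e => Grd.sub ?_ ?_
  · exact matc_grd (D.tgt e) (fun a c h => (matc_sup y e _ _ h).2) fun c b h =>
      (matc_sup y e b c fun h1 => h (by rw [conjTranspose_apply, h1, star_zero])).2
  · exact matc_grd (D.src e) (fun a c h =>
      (matc_sup y e c a fun h1 => h (by rw [conjTranspose_apply, h1, star_zero])).1)
      fun c b h => (matc_sup y e _ _ h).1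
theorem trace_muR (y : D.Rep) : trace (D.muR y) = 0 := by
  rw [muR, trace_sum]
  refine Finset.sum_eq_zero fun e _ => ?_
  rw [trace_sub, trace_mul_comm, sub_self]
theorem muR_cj (h1 : KU D.cl k) (y : D.Rep) : D.muR (D.cnj k y) = k * D.muR y * kᴴ := by
  have h2 : ∀ A : Mt P, kᴴ * (k * A) = A := fun A => by
    rw [← Matrix.mul_assoc, h1.uni, Matrix.one_mul]
  simp only [muR, mat_cj_ku h1, Finset.mul_sum, Finset.sum_mul, mul_sub, sub_mul,
    conjTranspose_mul, conjTranspose_conjTranspose, Matrix.mul_assoc, h2]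
theorem muR_sc (h1 : ∀ e, ‖χ e‖ = 1) (y : D.Rep) : D.muR (D.sc χ y) = D.muR y := by
  have h2 : ∀ e, χ e * star (χ e) = 1 := fun e => by
    rw [Complex.star_def, Complex.mul_conj, Complex.normSq_eq_norm_sq, h1]
    simp
  have h3 : ∀ e, star (χ e) * χ e = 1 := fun e => by rw [mul_comm, h2]
  simp only [muR, mat_sc, conjTranspose_smul, smul_mul_smul_comm, h2, h3, one_smul]
theorem continuous_muR : Continuous D.muR := by
  refine continuous_finsetSum _ fun e _ => Continuous.sub ?_ ?_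
  · exact (cont_mat e).matrix_mul (cont_mat e).matrix_conjTranspose
  · exact (cont_mat e).matrix_conjTranspose.matrix_mul (cont_mat e)
theorem matc_diag (y : D.Rep) (o : Option P) : D.muR y o o =
    ((∑ e, (∑ a, ‖D.mat y e o a‖ ^ 2 - ∑ b, ‖D.mat y e b o‖ ^ 2) : ℝ) : ℂ) := by
  simp only [muR, Matrix.sum_apply, Matrix.sub_apply, Matrix.mul_apply, conjTranspose_apply,
    Complex.star_def, Complex.mul_conj, Complex.conj_mul', Complex.normSq_eq_norm_sq]
  push_cast
  rfl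
theorem wtr_muR (η : Option P → ℝ) (y : D.Rep) :
    wtr η (D.muR y) = ∑ p : D.Wt, (η p.1.2.2 - η p.1.2.1) * ‖y p‖ ^ 2 := by
  rw [← sum_wt (fun _ b a => η b - η a) y]
  simp only [wtr, matc_diag, ← Complex.ofReal_mul, ← Complex.ofReal_sum, Complex.ofReal_re]
  simp only [Finset.mul_sum, mul_sub, sub_mul, Finset.sum_sub_distrib]
  rw [Finset.sum_comm]
  congr 1
  rw [Finset.sum_comm]
  exact Finset.sum_congr rfl fun e _ => Finset.sum_comm
theorem muR_diag (y : D.Rep) (o : Option P) : D.muR y o o =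
    ((∑ p : D.Wt, ((if p.1.2.2 = o then 1 else 0) - if p.1.2.1 = o then 1 else 0) * ‖y p‖ ^ 2 : ℝ)
      : ℂ) := by
  rw [← sum_wt (fun _ b a => (if b = o then 1 else 0) - if a = o then 1 else 0) y, matc_diag]
  congr 1
  refine Finset.sum_congr rfl fun e _ => ?_
  simp only [sub_mul, Finset.sum_sub_distrib, ite_mul, one_mul, zero_mul, Finset.sum_ite_eq',
    Finset.mem_univ, if_true]
  congr 1
  rw [Finset.sum_comm]
  simp only [Finset.sum_ite_eq', Finset.mem_univ, if_true]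
theorem lev_cj (h1 : KU D.cl k) (h2 : y ∈ D.Lev ν) : D.cnj k y ∈ D.Lev ν := by
  have h3 : D.muR y = -dg (D.th ν) := h2
  change D.muR _ = _
  rw [muR_cj h1, h3, Matrix.mul_neg, Matrix.neg_mul, dg,
    ← h1.grd.comm_diag fun a b h => by rw [th_cl a b h], Matrix.mul_assoc, h1.uni', Matrix.mul_one]
theorem lev_sc (h1 : ∀ e, ‖χ e‖ = 1) (h2 : y ∈ D.Lev ν) : D.sc χ y ∈ D.Lev ν :=
  (muR_sc h1 y).trans h2
theorem isClosed_lev : IsClosed (D.Lev ν) :=
  isClosed_eq continuous_muR continuous_const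
/-- it is enough to look at the diagonal and at one half of the off diagonal entries on `V` -/
theorem mem_lev_of {r : P → ℤ} (hr : Function.Injective r)
    (h1 : ∀ a, D.muR y (some a) (some a) = -(ν (D.col a) : ℂ))
    (h2 : ∀ a b, D.col a = D.col b → r a < r b → D.muR y (some a) (some b) = 0) : y ∈ D.Lev ν := by
  change D.muR y = _
  have hd : ∀ a b, a ≠ b → (-dg (D.th ν)) a b = 0 := fun a b h => by
    rw [Matrix.neg_apply, dg, diagonal_apply_ne _ h, neg_zero]
  ext a b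
  by_cases hc : D.cl a = D.cl b
  swap
  · rw [grd_muR y a b hc, hd a b fun h => hc (by rw [h])]
  cases a <;> cases b <;> simp only [cl, Option.map_none, Option.map_some, reduceCtorEq,
    Option.some.injEq] at hc
  · have h3 := trace_muR y
    rw [trace, Fintype.sum_option] at h3
    simp only [diag_apply, h1, Finset.sum_neg_distrib] at h3
    rw [Matrix.neg_apply, dg, diagonal_apply_eq, th, thZ]
    push_cast
    linear_combination h3
  · rename_i a b
    rcases lt_trichotomy (r a) (r b) with h | h | h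
    · rw [h2 a b hc h, hd _ _ fun h' => h.ne (by rw [Option.some.inj h'])]
    · obtain rfl := hr h
      rw [h1, Matrix.neg_apply, dg, diagonal_apply_eq, th, thZ]
      push_cast
      rfl
    · rw [← muR_adj, conjTranspose_apply, h2 b a hc.symm h, star_zero,
        hd _ _ fun h' => h.ne' (by rw [Option.some.inj h'])]
/-- the level set is bounded on an acyclic coordinate subspace -/
theorem nsq_le_of_acyclic {η : Option P → ℝ} (h1 : ∀ p : D.Wt, y p ≠ 0 → η p.1.2.1 + 1 ≤ η p.1.2.2)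
    (h2 : ∀ o, D.muR y o o = -(D.th ν o : ℂ)) : nsq y ≤ -∑ o, η o * D.th ν o := by
  have h3 := wtr_muR η y
  simp only [wtr, h2, mul_neg, Finset.sum_neg_distrib, ← Complex.ofReal_mul, ← Complex.ofReal_sum,
    Complex.neg_re, Complex.ofReal_re] at h3
  rw [h3, nsq]
  refine Finset.sum_le_sum fun p _ => ?_
  by_cases h : y p = 0
  · simp [h]
  · exact le_mul_of_one_le_left (sq_nonneg _) (by linarith [h1 p h])

theorem grd_mu (y : D.dbl.Rep) : Grd D.cl (D.mu y) := by
  refine matc_grd_sum fun e => Grd.sub ?_ ?_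
  · exact matc_grd (D.tgt e) (fun a c h => (matc_sup (D := D.dbl) y (.inl e) _ _ h).2)
      fun c b h => (matc_sup (D := D.dbl) y (.inr e) _ _ h).1
  · exact matc_grd (D.src e) (fun a c h => (matc_sup (D := D.dbl) y (.inr e) _ _ h).2)
      fun c b h => (matc_sup (D := D.dbl) y (.inl e) _ _ h).1
theorem mu_cj (h1 : GU D.cl g) (y : D.dbl.Rep) : D.mu (D.dbl.cnj g y) = g * D.mu y * g⁻¹ := by
  have h2 : ∀ A : Mt P, g⁻¹ * (g * A) = A := fun A => by
    rw [← Matrix.mul_assoc, h1.inv_mul, Matrix.one_mul]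
  simp only [mu, mat_cj (D := D.dbl) h1.grd, Finset.mul_sum, Finset.sum_mul, mul_sub, sub_mul,
    Matrix.mul_assoc, h2]
theorem mu_sc {χ : E ⊕ E → ℂ} {z : ℂ} (h1 : ∀ e, χ (.inl e) * χ (.inr e) = z) (y : D.dbl.Rep) :
    D.mu (D.dbl.sc χ y) = z • D.mu y := by
  have h2 : ∀ e, χ (.inr e) * χ (.inl e) = z := fun e => by rw [mul_comm, h1]
  simp only [mu, mat_sc, smul_mul_smul_comm, h1, h2, Finset.smul_sum, smul_sub]
theorem continuous_mu : Continuous D.mu := by
  refine continuous_finsetSum _ fun e _ => Continuous.sub ?_ ?_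
  · exact (cont_mat _).matrix_mul (cont_mat _)
  · exact (cont_mat _).matrix_mul (cont_mat _)
/-- the framing entry vanishes because the trace does -/
theorem mem_M0 {y : D.dbl.Rep} : y ∈ D.M0 ↔ D.mu y = 0 := by
  refine ⟨fun h => ?_, fun h a b => by rw [h]; rfl⟩
  have h1 : ∀ a b, D.mu y (some a) (some b) = 0 := h
  have h2 : trace (D.mu y) = 0 := by
    rw [mu, trace_sum]
    refine Finset.sum_eq_zero fun e _ => ?_
    rw [trace_sub, trace_mul_comm, sub_self]
  ext a b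
  cases a <;> cases b
  · rw [trace, Fintype.sum_option] at h2
    simpa only [diag_apply, h1, Finset.sum_const_zero, add_zero, Matrix.zero_apply] using h2
  · exact grd_mu y _ _ (by simp)
  · exact grd_mu y _ _ (by simp)
  · exact h1 _ _
theorem isClosed_M0 : IsClosed D.M0 := by
  have : D.M0 = {y | D.mu y = 0} := Set.ext fun _ => mem_M0
  rw [this]
  exact isClosed_eq continuous_mu continuous_const
theorem M0_cj {y : D.dbl.Rep} (h1 : GU D.cl g) (h2 : y ∈ D.M0) : D.dbl.cnj g y ∈ D.M0 := by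
  rw [mem_M0] at h2 ⊢
  rw [mu_cj h1, h2, Matrix.mul_zero, Matrix.zero_mul]
theorem M0_act (g : (KT D.col κ).H) {y : D.dbl.Rep} (h2 : y ∈ D.M0) : D.dbl.aN.act g y ∈ D.M0 := by
  have h3 := M0_cj (gu_hat.2 (ku_Ub g.1).gu) h2
  rw [mem_M0] at h3 ⊢
  rw [aN_act, mu_sc (z := chr D.h g.2) fun e => ?_]
  · exact (congrArg _ h3).trans (smul_zero _)
  · change chr (D.t e) g.2 * chr (D.h - D.t e) g.2 = _
    simp only [chr, ← Finset.prod_mul_distrib]
    refine Finset.prod_congr rfl fun j _ => ?_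
    rw [← zpow_add₀ (Circle.coe_ne_zero _), Pi.sub_apply, add_sub_cancel]
theorem xs_eq (ν : I → ℤ) : D.Xs ν = D.M0 ∩ D.dbl.St ν := rfl

end Qv

end Pool.Agent.Work.MP_849ab0_ag.G
end
end

-- merged part: Pool.Agent.Work.MP_849ab0_ag.G.H1.Spec
section
/-!
Spectral theorem, singular values and partial isometries for graded matrices.

Hints.  `bspec`: either apply `Matrix.IsHermitian.spectral_theorem` to the blocks
`H.submatrix Subtype.val Subtype.val` on `{a // c a = i}` and put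
`k a b = if h : c a = c b then U (c b) ⟨a, h⟩ ⟨b, rfl⟩ else 0`, or argue in any other way.
`coord`: the eigenvalues of a projection are `0` or `1`.  `kak`: `gᴴ g = k' dg d k'ᴴ` with `d > 0`,
`ξ = log d / 2`, `k = g k' dg (exp (-ξ))`.
`piso`: `ξᴴ ξ = k dg d kᴴ`, `d ≥ 0`, `s = k dg (d ^ (-1/2) or 0) kᴴ`, `u = ξ s`, `Q₁ = uᴴ u`,
`Q₂ = u uᴴ`; `ξ (1 - Q₁) = 0` because its `fsq` vanishes; `wtr_comm`.
`sum_inter`: apply `piso` to `ξ = (1 - Q') Q`; `R = Q - Q₁`, `R' = Q' + Q₂`.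
`range_pr`: `Q₂` of `piso` for `ξ = g Q` (then `Q₁ = Q`).
-/

noncomputable section

set_option linter.unusedSectionVars false
set_option linter.unusedVariables false

namespace Pool.Agent.Work.MP_849ab0_ag.G

open Set Matrix

variable {J C : Type} [Fintype J] [DecidableEq J] {c : J → C} {g h k ξ Q Q' : Matrix J J ℂ}

section blocks

variable [DecidableEq C]

/-- the block diagonal matrix with blocks indexed by the colours -/
def spec_bd (c : J → C) (A : ∀ i, Matrix {a // c a = i} {a // c a = i} ℂ) : Matrix J J ℂ :=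
  Matrix.of fun a b => if h : c a = c b then A (c b) ⟨a, h⟩ ⟨b, rfl⟩ else 0

theorem spec_bd_apply (A : ∀ i, Matrix {a // c a = i} {a // c a = i} ℂ) (i : C)
    (a b : {a // c a = i}) : spec_bd c A a.1 b.1 = A i a b := by
  obtain ⟨a, ha⟩ := a
  obtain ⟨b, hb⟩ := b
  subst hb
  simp [spec_bd, ha]

theorem spec_bd_grd (A : ∀ i, Matrix {a // c a = i} {a // c a = i} ℂ) : Grd c (spec_bd c A) :=
  fun a b h => by simp [spec_bd, h]

theorem spec_bd_ext {A : ∀ i, Matrix {a // c a = i} {a // c a = i} ℂ} {H : Matrix J J ℂ}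
    (h1 : Grd c H) (h2 : ∀ i (a b : {a // c a = i}), H a.1 b.1 = A i a b) : H = spec_bd c A := by
  ext a b
  by_cases h : c a = c b
  · exact (h2 (c b) ⟨a, h⟩ ⟨b, rfl⟩).trans (spec_bd_apply A (c b) ⟨a, h⟩ ⟨b, rfl⟩).symm
  · rw [h1 a b h, spec_bd_grd A a b h]

theorem spec_bd_mul (A B : ∀ i, Matrix {a // c a = i} {a // c a = i} ℂ) :
    spec_bd c A * spec_bd c B = spec_bd c fun i => A i * B i := by
  refine spec_bd_ext ((spec_bd_grd A).mul (spec_bd_grd B)) fun i a b => ?_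
  rw [Matrix.mul_apply, Matrix.mul_apply,
    ← Fintype.sum_subtype_add_sum_subtype (fun x => c x = i)]
  have e : ∑ x : {x // ¬ c x = i}, spec_bd c A a.1 x.1 * spec_bd c B x.1 b.1 = 0 := by
    refine Finset.sum_eq_zero fun x _ => ?_
    rw [spec_bd_grd B x.1 b.1 (by rw [b.2]; exact x.2), mul_zero]
  rw [e, add_zero]
  exact Finset.sum_congr rfl fun x _ => by rw [spec_bd_apply, spec_bd_apply]

theorem spec_bd_adj (A : ∀ i, Matrix {a // c a = i} {a // c a = i} ℂ) :
    (spec_bd c A)ᴴ = spec_bd c fun i => (A i)ᴴ := by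
  refine spec_bd_ext (spec_bd_grd A).adj fun i a b => ?_
  rw [conjTranspose_apply, conjTranspose_apply, spec_bd_apply]

theorem spec_bd_diag (d : ∀ i, {a // c a = i} → ℂ) :
    diagonal (fun a => d (c a) ⟨a, rfl⟩) = spec_bd c fun i => diagonal (d i) := by
  refine spec_bd_ext (Grd.diag _) fun i a b => ?_
  obtain ⟨a, ha⟩ := a
  obtain ⟨b, hb⟩ := b
  subst ha
  simp [diagonal_apply]

end blocks

theorem spec_dg_mul (d e : J → ℝ) : dg d * dg e = dg fun a => d a * e a := by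
  simp [dg, diagonal_mul_diagonal]

theorem spec_dg_adj (d : J → ℝ) : (dg d)ᴴ = dg d := by
  simp only [dg, diagonal_conjTranspose]
  congr 1
  funext a
  simp

theorem spec_dg_one : dg (fun _ : J => (1 : ℝ)) = 1 := by
  simp [dg]

theorem spec_dg_grd (d : J → ℝ) : Grd c (dg d) := Grd.diag _

theorem spec_nonneg {m : Matrix J J ℂ} {d : J → ℝ} (h : mᴴ * m = dg d) (a : J) : 0 ≤ d a := by
  have e : ((d a : ℝ) : ℂ) = ((∑ b, ‖m b a‖ ^ 2 : ℝ) : ℂ) := by
    have := congrFun (congrFun h a) a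
    rw [dg, diagonal_apply_eq, Matrix.mul_apply] at this
    rw [← this]
    push_cast
    refine Finset.sum_congr rfl fun b _ => ?_
    rw [conjTranspose_apply, Complex.star_def, Complex.conj_mul']
  rw [Complex.ofReal_inj.1 e]
  positivity

theorem spec_conj (h1 : KU c k) (x : Matrix J J ℂ) : kᴴ * (k * x * kᴴ) * k = x := by
  calc kᴴ * (k * x * kᴴ) * k = (kᴴ * k) * x * (kᴴ * k) := by simp only [Matrix.mul_assoc]
    _ = x := by rw [h1.uni, Matrix.one_mul, Matrix.mul_one]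

theorem bspec {H : Matrix J J ℂ} (h1 : Grd c H) (h2 : Hᴴ = H) :
    ∃ k, KU c k ∧ ∃ d : J → ℝ, H = k * dg d * kᴴ := by
  classical
  have hH : ∀ i, (H.submatrix (Subtype.val : {a // c a = i} → J) Subtype.val).IsHermitian :=
    fun i => IsHermitian.submatrix h2 _
  refine ⟨spec_bd c fun i => ((hH i).eigenvectorUnitary : Matrix _ _ ℂ), ⟨spec_bd_grd _, ?_⟩,
    fun a => (hH (c a)).eigenvalues ⟨a, rfl⟩, ?_⟩
  · rw [spec_bd_adj, spec_bd_mul]
    symm
    refine spec_bd_ext Grd.one fun i a b => ?_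
    have e := Unitary.coe_star_mul_self (hH i).eigenvectorUnitary
    rw [star_eq_conjTranspose] at e
    rw [e]
    simp [one_apply, Subtype.ext_iff]
  · rw [dg, spec_bd_diag (c := c) (fun i a => (((hH i).eigenvalues a : ℝ) : ℂ)), spec_bd_adj,
      spec_bd_mul, spec_bd_mul]
    refine spec_bd_ext h1 fun i a b => ?_
    have e := congrFun (congrFun (hH i).spectral_theorem a) b
    rw [Unitary.conjStarAlgAut_apply] at e
    exact e

theorem coord (h1 : IsPr c Q) : ∃ k, KU c k ∧ ∃ S : Finset J, Q = k * prS S * kᴴ := by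
  obtain ⟨k, hk, d, e⟩ := bspec (c := c) h1.2.2 h1.1
  refine ⟨k, hk, Finset.univ.filter fun a => d a = 1, ?_⟩
  have e1 : kᴴ * Q * k = dg d := by rw [e, spec_conj hk]
  have e2 : dg d * dg d = dg d := by
    rw [← e1]
    calc kᴴ * Q * k * (kᴴ * Q * k) = kᴴ * (Q * (k * kᴴ) * Q) * k := by simp only [Matrix.mul_assoc]
      _ = _ := by rw [hk.uni', Matrix.mul_one, h1.2.1]
  have e3 : dg d = prS (Finset.univ.filter fun a => d a = 1) := by
    rw [spec_dg_mul] at e2
    unfold dg prS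
    congr 1
    funext a
    have h3 := congrFun (congrFun e2 a) a
    simp only [dg, diagonal_apply_eq, Complex.ofReal_inj] at h3
    by_cases h4 : d a = 1
    · simp [h4]
    · have h5 : d a = 0 := by
        by_contra h5
        exact h4 (mul_left_cancel₀ h5 (h3.trans (mul_one _).symm))
      simp [h5]
  rw [← e3]
  exact e

theorem kak (h1 : GU c g) :
    ∃ k k', KU c k ∧ KU c k' ∧ ∃ ξ : J → ℝ, g = k * dg (fun a => Real.exp (ξ a)) * k' := by
  obtain ⟨k, hk, d, e⟩ := bspec (c := c) (H := gᴴ * g) (h1.grd.adj.mul h1.grd) (by simp)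
  have e1 : (g * k)ᴴ * (g * k) = dg d := by
    rw [← spec_conj hk (dg d), ← e, conjTranspose_mul]
    simp only [Matrix.mul_assoc]
  have hu : GU c (g * k) := h1.mul hk.gu
  have hd : ∀ a, 0 < d a := by
    intro a
    refine lt_of_le_of_ne (spec_nonneg e1 a) fun h0 => ?_
    have h2 := (hu.adj.mul hu).unit
    rw [e1, isUnit_iff_isUnit_det, dg, det_diagonal, isUnit_iff_ne_zero,
      Finset.prod_ne_zero_iff] at h2
    exact h2 a (Finset.mem_univ _) (by rw [← h0]; simp)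
  refine ⟨g * k * dg fun a => Real.exp (-(Real.log (d a) / 2)), kᴴ,
    ⟨hu.grd.mul (spec_dg_grd _), ?_⟩, hk.adj, fun a => Real.log (d a) / 2, ?_⟩
  · rw [conjTranspose_mul, spec_dg_adj]
    calc _ = dg (fun a => Real.exp (-(Real.log (d a) / 2))) * ((g * k)ᴴ * (g * k)) *
          dg fun a => Real.exp (-(Real.log (d a) / 2)) := by simp only [Matrix.mul_assoc]
      _ = 1 := by
        rw [e1, spec_dg_mul, spec_dg_mul, ← spec_dg_one]
        congr 1
        funext a
        have h3 : d a = Real.exp (Real.log (d a)) := (Real.exp_log (hd a)).symm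
        conv_lhs => rw [mul_assoc, mul_comm (d a), ← mul_assoc, ← Real.exp_add]; arg 2; rw [h3]
        rw [← Real.exp_add, ← Real.exp_zero]
        congr 1
        ring
  · rw [Matrix.mul_assoc (g * k), spec_dg_mul]
    have e2 : (fun a => Real.exp (-(Real.log (d a) / 2)) * Real.exp (Real.log (d a) / 2)) =
        fun _ => (1 : ℝ) := by
      funext a
      rw [← Real.exp_add, neg_add_cancel, Real.exp_zero]
    rw [e2, spec_dg_one, Matrix.mul_one, Matrix.mul_assoc, hk.uni', Matrix.mul_one]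

theorem piso (h1 : Grd c ξ) : ∃ Q₁ Q₂ ζ₁ ζ₂ : Matrix J J ℂ, IsPr c Q₁ ∧ IsPr c Q₂ ∧ ξ * Q₁ = ξ ∧
    Q₁ = ζ₁ * ξ ∧ Q₂ * ξ = ξ ∧ Q₂ = ξ * ζ₂ ∧ (Q₁ = 1 ↔ Q₂ = 1) ∧ (Q₁ = 1 → IsUnit ξ) ∧
      ∀ θ : J → ℝ, (∀ a b, c a = c b → θ a = θ b) → wtr θ Q₁ = wtr θ Q₂ := by
  obtain ⟨k, hk, d, e⟩ := bspec (c := c) (H := ξᴴ * ξ) (h1.adj.mul h1) (by simp)
  obtain ⟨m, hm⟩ : ∃ m, m = ξ * k := ⟨_, rfl⟩
  have hmg : Grd c m := hm ▸ h1.mul hk.grd
  have hξ : ξ = m * kᴴ := by rw [hm, Matrix.mul_assoc, hk.uni', Matrix.mul_one]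
  have e1 : mᴴ * m = dg d := by
    rw [← spec_conj hk (dg d), ← e, hm, conjTranspose_mul]
    simp only [Matrix.mul_assoc]
  obtain ⟨D, hD⟩ : ∃ D, D = dg fun a => (d a)⁻¹ := ⟨_, rfl⟩
  obtain ⟨P, hP⟩ : ∃ P, P = dg fun a => (d a)⁻¹ * d a := ⟨_, rfl⟩
  have hDg : Grd c D := hD ▸ spec_dg_grd _
  have hDa : Dᴴ = D := hD ▸ spec_dg_adj _
  have hPa : Pᴴ = P := hP ▸ spec_dg_adj _
  have hDP : D * dg d = P := by rw [hD, hP, spec_dg_mul]
  have hPD : P * D = D := by
    rw [hD, hP, spec_dg_mul]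
    congr 1
    funext a
    by_cases h0 : d a = 0
    · simp [h0]
    · rw [inv_mul_cancel₀ h0, one_mul]
  have hdP : dg d * P = dg d := by
    rw [hP, spec_dg_mul]
    congr 1
    funext a
    by_cases h0 : d a = 0
    · simp [h0]
    · rw [inv_mul_cancel₀ h0, mul_one]
  have hPP : P * P = P := by
    conv_lhs => arg 1; rw [← hDP]
    rw [Matrix.mul_assoc, hdP, hDP]
  have hmP : m * P = m := by
    have h2 : (m * (1 - P))ᴴ * (m * (1 - P)) = 0 := by
      calc _ = (1 - P)ᴴ * ((mᴴ * m) * (1 - P)) := by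
            rw [conjTranspose_mul]; simp only [Matrix.mul_assoc]
        _ = 0 := by rw [e1, Matrix.mul_sub, Matrix.mul_one, hdP, sub_self, Matrix.mul_zero]
    have h3 : fsq (m * (1 - P)) = 0 := by
      have h4 := fsq_eq (m * (1 - P))
      rw [h2, trace_zero] at h4
      exact_mod_cast h4
    rw [fsq_eq_zero, Matrix.mul_sub, Matrix.mul_one, sub_eq_zero] at h3
    exact h3.symm
  have q1 : k * D * mᴴ * ξ = k * P * kᴴ := by
    calc _ = k * (D * (mᴴ * m)) * kᴴ := by rw [hξ]; simp only [Matrix.mul_assoc]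
      _ = _ := by rw [e1, hDP]
  have q2 : ξ * (k * D * mᴴ) = m * D * mᴴ := by
    rw [← Matrix.mul_assoc, ← Matrix.mul_assoc, ← hm]
  have q3 : m * D * mᴴ * m = m := by
    calc _ = m * (D * (mᴴ * m)) := by simp only [Matrix.mul_assoc]
      _ = _ := by rw [e1, hDP, hmP]
  refine ⟨k * D * mᴴ * ξ, ξ * (k * D * mᴴ), k * D * mᴴ, k * D * mᴴ, ?_, ?_, ?_, rfl, ?_, rfl,
    mul_eq_one_comm, fun h => IsUnit.of_mul_eq_one _ (mul_eq_one_comm.1 h), fun θ hθ => (wtr_comm hθ h1 _).symm⟩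
  · rw [q1]
    exact IsPr.conj ⟨hPa, hPP, hP ▸ spec_dg_grd _⟩ hk
  · rw [q2]
    refine ⟨?_, ?_, (hmg.mul hDg).mul hmg.adj⟩
    · rw [conjTranspose_mul, conjTranspose_mul, conjTranspose_conjTranspose, hDa,
        Matrix.mul_assoc]
    · rw [← Matrix.mul_assoc, ← Matrix.mul_assoc, q3]
  · rw [q1, ← Matrix.mul_assoc, ← Matrix.mul_assoc, ← hm, hmP, ← hξ]
  · rw [q2]
    conv_lhs => arg 2; rw [hξ]
    rw [← Matrix.mul_assoc, q3, ← hξ]

theorem spec_swap {A B X : Matrix J J ℂ} (hA : Aᴴ = A) (hB : Bᴴ = B) (hX : Xᴴ = X)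
    (h : A * B = X) : B * A = X := by
  have := congrArg conjTranspose h
  rwa [conjTranspose_mul, hA, hB, hX] at this

theorem spec_pres {y : Matrix J J ℂ} : Pres Q y ↔ Q * (y * Q) = y * Q := by
  rw [Pres, Matrix.mul_assoc, Matrix.sub_mul, Matrix.one_mul, sub_eq_zero, eq_comm]

/-- intersection `R` and sum `R'` of two graded subspaces -/
theorem sum_inter (h1 : IsPr c Q) (h2 : IsPr c Q') : ∃ R R' : Matrix J J ℂ, IsPr c R ∧ IsPr c R' ∧
    R' * Q = Q ∧ R' * Q' = Q' ∧ (∀ y, Pres Q y → Pres Q' y → Pres R y ∧ Pres R' y) ∧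
      ∀ θ : J → ℝ, (∀ a b, c a = c b → θ a = θ b) → wtr θ R + wtr θ R' = wtr θ Q + wtr θ Q' := by
  have g1 : Grd c Q := h1.2.2
  have g2 : Grd c Q' := h2.2.2
  obtain ⟨Q₁, Q₂, ζ₁, ζ₂, p1, p2, a1, a2, a3, a4, -, -, a5⟩ :=
    piso (ξ := (1 - Q') * Q) ((Grd.one.sub g2).mul g1)
  have b1 : Q₁ * Q = Q₁ := by
    conv_lhs => rw [a2, Matrix.mul_assoc, Matrix.mul_assoc, h1.2.1, ← a2]
  have b2 : Q * Q₁ = Q₁ := spec_swap p1.1 h1.1 p1.1 b1
  have b3 : Q' * Q₂ = 0 := by
    rw [a4, ← Matrix.mul_assoc, ← Matrix.mul_assoc, Matrix.mul_sub, Matrix.mul_one, h2.2.1,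
      sub_self, Matrix.zero_mul, Matrix.zero_mul]
  have b4 : Q₂ * Q' = 0 := spec_swap h2.1 p2.1 conjTranspose_zero b3
  have b5 : (Q' + Q₂) * Q' = Q' := by rw [Matrix.add_mul, b4, h2.2.1, add_zero]
  have b6 : (Q' + Q₂) * Q = Q := by
    rw [← Matrix.mul_assoc, Matrix.mul_sub, Matrix.mul_one, b4, sub_zero] at a3
    rw [Matrix.add_mul, a3, Matrix.sub_mul, Matrix.one_mul, add_sub_cancel]
  have b7 : Q * (Q - Q₁) = Q - Q₁ := by rw [Matrix.mul_sub, h1.2.1, b2]
  have b8 : Q' * (Q - Q₁) = Q - Q₁ := by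
    have : (1 - Q') * (Q - Q₁) = 0 := by
      rw [Matrix.mul_sub (1 - Q'), ← b2, ← Matrix.mul_assoc, a1, sub_self]
    rw [Matrix.sub_mul, Matrix.one_mul, sub_eq_zero] at this
    exact this.symm
  refine ⟨Q - Q₁, Q' + Q₂, ⟨?_, ?_, g1.sub p1.2.2⟩, ⟨?_, ?_, g2.add p2.2.2⟩, b6, b5,
    fun y y1 y2 => ⟨?_, ?_⟩, fun θ hθ => ?_⟩
  · rw [conjTranspose_sub, h1.1, p1.1]
  · rw [Matrix.sub_mul, b7, Matrix.mul_sub, b1, p1.2.1, sub_self, sub_zero]
  · rw [conjTranspose_add, h2.1, p2.1]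
  · rw [Matrix.mul_add, b5, Matrix.add_mul, b3, p2.2.1, zero_add]
  · rw [spec_pres] at y1 y2 ⊢
    have z1 : Q * (y * (Q - Q₁)) = y * (Q - Q₁) := by
      rw [← b7, ← Matrix.mul_assoc y, ← Matrix.mul_assoc Q, y1]
    have z2 : Q' * (y * (Q - Q₁)) = y * (Q - Q₁) := by
      rw [← b8, ← Matrix.mul_assoc y, ← Matrix.mul_assoc Q', y2]
    have z3 : Q₁ * (y * (Q - Q₁)) = 0 := by
      conv_lhs => arg 1; rw [a2]
      rw [Matrix.mul_assoc, Matrix.mul_assoc, z1, Matrix.sub_mul, Matrix.one_mul, z2, sub_self,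
        Matrix.mul_zero]
    rw [Matrix.sub_mul, z1, z3, sub_zero]
  · rw [spec_pres] at y1 y2 ⊢
    have z1 : (Q' + Q₂) * (y * Q) = y * Q := by
      rw [← y1, ← Matrix.mul_assoc, b6]
    have z2 : (Q' + Q₂) * (y * Q') = y * Q' := by
      rw [← y2, ← Matrix.mul_assoc, b5]
    have z3 : y * (Q' + Q₂) = y * Q' + (y * Q * ζ₂ - y * Q' * (Q * ζ₂)) := by
      conv_lhs => rw [a4]
      simp only [Matrix.mul_add, Matrix.sub_mul, Matrix.mul_sub, Matrix.one_mul, Matrix.mul_assoc]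
    rw [z3, Matrix.mul_add, Matrix.mul_sub, z2, ← Matrix.mul_assoc, z1,
      ← Matrix.mul_assoc (Q' + Q₂), z2]
  · rw [wtr_sub, wtr_add, a5 θ hθ]
    ring

/-- the image of a graded subspace -/
theorem range_pr (h1 : GU c g) (h2 : IsPr c Q) : ∃ Q' : Matrix J J ℂ, IsPr c Q' ∧
    Q' * (g * Q) = g * Q ∧ (∀ y, Pres Q y → Pres Q' (g * y * g⁻¹)) ∧ (Q' = 0 → Q = 0) ∧
      (Q' = 1 → Q = 1) ∧
      ∀ θ : J → ℝ, (∀ a b, c a = c b → θ a = θ b) → wtr θ Q' = wtr θ Q := by
  obtain ⟨Q₁, Q₂, ζ₁, ζ₂, p1, p2, a1, a2, a3, a4, a6, -, a5⟩ :=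
    piso (ξ := g * Q) (h1.grd.mul h2.2.2)
  have hc : ∀ x y : Matrix J J ℂ, g * x = g * y → x = y := fun x y e => by
    rw [← Matrix.one_mul x, ← Matrix.one_mul y, ← h1.inv_mul, Matrix.mul_assoc, e,
      Matrix.mul_assoc]
  have b1 : Q₁ * Q = Q₁ := by
    conv_lhs => rw [a2, Matrix.mul_assoc, Matrix.mul_assoc, h2.2.1, ← a2]
  have b2 : Q * Q₁ = Q₁ := spec_swap p1.1 h2.1 p1.1 b1
  have b3 : Q₁ = Q := by
    rw [Matrix.mul_assoc, b2] at a1
    exact hc _ _ a1
  refine ⟨Q₂, p2, a3, fun y y1 => ?_, fun e => ?_, fun e => ?_, fun θ hθ => ?_⟩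
  · rw [spec_pres] at y1 ⊢
    have z : g * y * g⁻¹ * Q₂ = g * Q * (y * Q * ζ₂) := by
      calc _ = g * y * (g⁻¹ * g) * Q * ζ₂ := by
            conv_lhs => rw [a4]
            simp only [Matrix.mul_assoc]
        _ = g * (y * Q) * ζ₂ := by rw [h1.inv_mul, Matrix.mul_one, Matrix.mul_assoc g]
        _ = g * (Q * (y * Q)) * ζ₂ := by rw [y1]
        _ = _ := by simp only [Matrix.mul_assoc]
    rw [z, ← Matrix.mul_assoc, a3]
  · rw [e, Matrix.zero_mul] at a3
    exact hc _ _ (by rw [← a3, Matrix.mul_zero])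
  · rw [← b3]
    exact a6.2 e
  · rw [← a5 θ hθ, b3]

/-- a subspace of the same dimension -/
theorem IsPr.eq_of_le (h1 : IsPr c Q) (h2 : IsPr c Q') (e : Q' * Q = Q)
    (e' : wtr (fun _ => 1) Q' ≤ wtr (fun _ => 1) Q) : Q' = Q := by
  have b1 : Q * Q' = Q := spec_swap h2.1 h1.1 h1.1 e
  have b2 : (Q' - Q)ᴴ * (Q' - Q) = Q' - Q := by
    rw [conjTranspose_sub, h1.1, h2.1, Matrix.sub_mul, Matrix.mul_sub, Matrix.mul_sub, h2.2.1, e,
      b1, h1.2.1, sub_self, sub_zero]
  have b3 : fsq (Q' - Q) = wtr (fun _ => 1) (Q' - Q) := by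
    rw [wtr_eq, spec_dg_one, Matrix.one_mul, ← b2, ← fsq_eq, b2, Complex.ofReal_re]
  rw [wtr_sub] at b3
  have b4 := fsq_nonneg (Q' - Q)
  have b5 : fsq (Q' - Q) = 0 := by linarith
  exact sub_eq_zero.1 (fsq_eq_zero.1 b5)

theorem spec_conj_zero (h1 : KU c k) {S : Finset J} : k * prS S * kᴴ = 0 ↔ S = ∅ := by
  rw [← prS_eq_zero]
  refine ⟨fun e => ?_, fun e => by rw [e, Matrix.mul_zero, Matrix.zero_mul]⟩
  rw [← spec_conj h1 (prS S), e, Matrix.mul_zero, Matrix.zero_mul]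

theorem spec_conj_one (h1 : KU c k) {S : Finset J} : k * prS S * kᴴ = 1 ↔ S = Finset.univ := by
  rw [← prS_eq_one]
  refine ⟨fun e => ?_, fun e => by rw [e, Matrix.mul_one, h1.uni']⟩
  rw [← spec_conj h1 (prS S), e, Matrix.mul_one, h1.uni]

theorem IsPr.wtr_int (h1 : IsPr c Q) : ∃ S : Finset J, (Q = 0 ↔ S = ∅) ∧ (Q = 1 ↔ S = Finset.univ) ∧
    ∀ θ : J → ℝ, (∀ a b, c a = c b → θ a = θ b) → wtr θ Q = ∑ a ∈ S, θ a := by
  obtain ⟨k, hk, S, rfl⟩ := coord h1
  exact ⟨S, spec_conj_zero hk, spec_conj_one hk, fun θ hθ => by rw [wtr_conj hθ hk, wtr_prS]⟩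

/-- the proper nonzero graded projections form a compact set -/
theorem isCompact_isPr : IsCompact {Q : Matrix J J ℂ | IsPr c Q ∧ Q ≠ 0 ∧ Q ≠ 1} := by
  have e : {Q : Matrix J J ℂ | IsPr c Q ∧ Q ≠ 0 ∧ Q ≠ 1} =
      ⋃ S : {S : Finset J // S ≠ ∅ ∧ S ≠ Finset.univ},
        (fun k : Matrix J J ℂ => k * prS S.1 * kᴴ) '' {k | KU c k} := by
    ext Q
    simp only [mem_ofPred_eq, mem_iUnion, mem_image]
    constructor
    · rintro ⟨h1, h2, h3⟩
      obtain ⟨k, hk, S, rfl⟩ := coord h1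
      exact ⟨⟨S, fun e => h2 ((spec_conj_zero hk).2 e), fun e => h3 ((spec_conj_one hk).2 e)⟩,
        k, hk, rfl⟩
    · rintro ⟨S, k, hk, rfl⟩
      exact ⟨(isPr_prS S.1).conj hk, fun e => S.2.1 ((spec_conj_zero hk).1 e),
        fun e => S.2.2 ((spec_conj_one hk).1 e)⟩
  rw [e]
  refine isCompact_iUnion fun S => isCompact_KU.image ?_
  exact (continuous_id.matrix_mul continuous_const).matrix_mul continuous_id.matrix_conjTranspose

end Pool.Agent.Work.MP_849ab0_ag.G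
end
end

-- merged part: Pool.Agent.Work.MP_849ab0_ag.G.H1.Hom
section
/-!
Stable representations: invariance, homomorphisms, openness, the toric inequality.

Hints.  Use `stable_iff`.  `Stable.cnj`: `range_pr` for `g⁻¹`.  `Stable.hom`: `piso`; `1 - Q₁` (the
kernel) is preserved by `x`, `Q₂` (the image) by `y`; `wtr (1 - Q₁) = - wtr Q₁` by `sum_th`.
`Stable.endo`: `ξ - ξ none none • 1` has framing entry `0`; a graded unit has nonzero framing entry.
`lev_stable`: for a preserved projection `Q`, `tr (Q muR y) = ∑ fsq (Q y (1 - Q)) ≥ 0` and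
`tr (Q muR y) = - wtr Q`; `wtr Q ≠ 0` by `IsPr.wtr_int` and `Gen.sum_ne`.
`isOpen_st`: the complement is the projection of a closed subset of (compact set of
`isCompact_isPr`) `×` `Rep`.  `Stable.toric`: induction on the number of values of `η`, or: the sets
`S t = {o | η o ≤ t}` are preserved (`pres_prS`), Abel summation; a short way: let `m` be the
minimum of `η`, `S = {η = m}`, raise `η` on `S` to the next value.
-/

noncomputable section

set_option linter.unusedSectionVars false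
set_option linter.unusedVariables false

namespace Pool.Agent.Work.MP_849ab0_ag.G

open Set Matrix
open scoped ComplexOrder

namespace Qv

variable {I P E κ : Type} [Fintype I] [DecidableEq I] [Fintype P] [DecidableEq P] [Fintype E]
  [Fintype κ] [DecidableEq κ] {D : Qv I P E κ}
  {g h k ξ : Mt P} {x y : D.Rep} {ν : I → ℤ} {χ : E → ℂ}

theorem Stable.cnj (hy : D.Stable ν y) (h1 : GU D.cl g) : D.Stable ν (D.cnj g y) := by
  rw [stable_iff] at hy ⊢
  intro Q hQ hp h0 h1'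
  obtain ⟨Q', a1, -, a3, a4, a5, a6⟩ := range_pr h1.inv hQ
  rw [← a6 _ th_cl]
  refine hy Q' a1 (fun e => ?_) (fun h => h0 (a4 h)) fun h => h1' (a5 h)
  have h2 := a3 _ (hp e)
  have h3 : g⁻¹ * (g * D.mat y e * g⁻¹) * g = g⁻¹ * g * D.mat y e * (g⁻¹ * g) := by
    simp only [Matrix.mul_assoc]
  rwa [mat_cj h1.grd, h1.inv_inv, h3, h1.inv_mul, Matrix.one_mul, Matrix.mul_one] at h2

theorem Stable.sc (hy : D.Stable ν y) (h1 : ∀ e, χ e ≠ 0) : D.Stable ν (D.sc χ y) := by
  intro Q hQ hp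
  refine hy Q hQ fun e => ?_
  have h2 := hp e
  rw [Pres, mat_sc, Matrix.mul_smul, Matrix.smul_mul] at h2
  exact (smul_eq_zero.1 h2).resolve_left (h1 e)

theorem Stable.smul (hy : D.Stable ν y) {z : ℂ} (hz : z ≠ 0) : D.Stable ν (z • y) := by
  exact hy.sc (χ := fun _ => z) fun _ => hz

theorem Stable.act (hy : D.Stable ν y) (u : (KT D.col κ).H) : D.Stable ν (D.aN.act u y) := by
  rw [aN_act]
  exact (hy.cnj (gu_hat.2 (ku_Ub u.1).gu)).sc fun e =>
    Finset.prod_ne_zero_iff.2 fun j _ => zpow_ne_zero _ (Circle.coe_ne_zero _)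

theorem Stable.hom (hx : D.Stable ν x) (hy : D.Stable ν y) (h1 : D.Hm ξ x y) :
    ξ = 0 ∨ IsUnit ξ := by
  rw [stable_iff] at hx hy
  obtain ⟨Q₁, Q₂, ζ₁, ζ₂, a1, a2, a3, a4, a5, a6, a7, a8, a9⟩ := piso h1.grd
  by_contra h0
  rw [not_or] at h0
  have b1 : Q₁ ≠ 1 := fun h => h0.2 (a8 h)
  have b2 : Q₁ ≠ 0 := fun h => h0.1 (by rw [← a3, h, Matrix.mul_zero])
  have b3 : Q₂ ≠ 0 := fun h => h0.1 (by rw [← a5, h, Matrix.zero_mul])
  have c1 := hx (1 - Q₁) a1.compl (fun e => by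
    have h2 : ξ * (1 - Q₁) = 0 := by rw [Matrix.mul_sub, a3, Matrix.mul_one, sub_self]
    have h3 : Q₁ * D.mat x e = ζ₁ * D.mat y e * ξ := by
      rw [a4, Matrix.mul_assoc, h1.comm, Matrix.mul_assoc]
    rw [Pres, sub_sub_cancel, h3, Matrix.mul_assoc, h2, Matrix.mul_zero])
    (fun h => b1 (sub_eq_zero.1 h).symm) fun h => b2 (sub_eq_self.1 h)
  have c2 := hy Q₂ a2 (fun e => by
    have h2 : (1 - Q₂) * ξ = 0 := by rw [Matrix.sub_mul, a5, Matrix.one_mul, sub_self]
    have h3 : D.mat y e * Q₂ = ξ * (D.mat x e * ζ₂) := by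
      rw [a6, ← Matrix.mul_assoc, ← h1.comm, Matrix.mul_assoc]
    rw [Pres, Matrix.mul_assoc, h3, ← Matrix.mul_assoc, h2, Matrix.zero_mul])
    b3 fun h => b1 (a7.2 h)
  rw [wtr_sub, wtr_one, sum_th, a9 _ th_cl] at c1
  linarith

theorem Stable.hom_zero (hx : D.Stable ν x) (hy : D.Stable ν y) (h1 : D.Hm ξ x y)
    (h2 : ξ none none = 0) : ξ = 0 := by
  exact (hx.hom hy h1).resolve_right fun h => GU.none_ne ⟨h1.grd, h⟩ h2

theorem Stable.hom_gu (hx : D.Stable ν x) (hy : D.Stable ν y) (h1 : D.Hm ξ x y)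
    (h2 : ξ none none ≠ 0) : GU D.cl ξ := by
  exact ⟨h1.grd, (hx.hom hy h1).resolve_left fun h => h2 (by rw [h]; rfl)⟩

theorem Stable.endo (hy : D.Stable ν y) (h1 : D.Hm ξ y y) : ξ = ξ none none • (1 : Mt P) := by
  refine sub_eq_zero.1 (hy.hom_zero hy ⟨h1.grd.sub (Grd.one.smul _), fun e => ?_⟩ ?_)
  · rw [Matrix.sub_mul, Matrix.mul_sub, h1.comm, Matrix.smul_mul, Matrix.mul_smul,
      Matrix.one_mul, Matrix.mul_one]
  · simp

/-- the action is free -/
theorem Stable.free (hy : D.Stable ν y) (h1 : GU D.cl g) (h2 : GU D.cl h)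
    (e : D.cnj g y = D.cnj h y) (e' : g none none = h none none) : g = h := by
  refine sub_eq_zero.1 (hy.hom_zero (hy.cnj h1) ⟨h1.grd.sub h2.grd, fun i => ?_⟩ ?_)
  · rw [Matrix.sub_mul, Matrix.mul_sub, (hm_cj h1 y).comm, (hm_cj h2 y).comm, e]
  · rw [Matrix.sub_apply, e', sub_self]

theorem Hom_tr {J C : Type} [Fintype J] [DecidableEq J] {c : J → C} {Q m : Matrix J J ℂ}
    (hQ : IsPr c Q) (hp : Pres Q m) :
    trace (Q * (m * mᴴ - mᴴ * m)) = (fsq (Q * m * (1 - Q)) : ℂ) := by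
  have h1 : Q * m * Q = m * Q := by
    rw [Pres, Matrix.sub_mul, Matrix.sub_mul, Matrix.one_mul] at hp
    exact (sub_eq_zero.1 hp).symm
  have h2 := hQ.compl
  have h3 : (Q * m * (1 - Q))ᴴ * (Q * m * (1 - Q)) = (1 - Q) * (mᴴ * (Q * Q) * m * (1 - Q)) := by
    rw [conjTranspose_mul, conjTranspose_mul, h2.1, hQ.1]
    simp only [Matrix.mul_assoc]
  have h4 : mᴴ * Q * m * (1 - Q) = mᴴ * (Q * m) - mᴴ * m * Q := by
    rw [Matrix.mul_sub, Matrix.mul_one, Matrix.mul_assoc mᴴ Q m, Matrix.mul_assoc mᴴ (Q * m), h1,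
      Matrix.mul_assoc]
  rw [fsq_eq, h3, hQ.2.1, trace_mul_comm (1 - Q), Matrix.mul_assoc _ (1 - Q), h2.2.1, h4,
    Matrix.mul_sub, trace_sub, trace_sub, trace_mul_comm mᴴ, trace_mul_comm (mᴴ * m),
    Matrix.mul_assoc]

theorem lev_stable (h1 : D.Gen ν) (hy : y ∈ D.Lev ν) : D.Stable ν y := by
  rw [stable_iff]
  intro Q hQ hp h0 h1'
  have h2 : trace (Q * D.muR y) = ((∑ e, fsq (Q * D.mat y e * (1 - Q)) : ℝ) : ℂ) := by
    rw [muR, Finset.mul_sum, trace_sum, Complex.ofReal_sum]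
    exact Finset.sum_congr rfl fun e _ => Hom_tr hQ (hp e)
  have h3 : D.muR y = -dg (D.th ν) := hy
  have h4 := congrArg Complex.re h2
  rw [h3, Matrix.mul_neg, trace_neg, trace_mul_comm, Complex.neg_re, ← wtr_eq,
    Complex.ofReal_re] at h4
  have h5 : 0 ≤ ∑ e, fsq (Q * D.mat y e * (1 - Q)) := Finset.sum_nonneg fun e _ => fsq_nonneg _
  refine lt_of_le_of_ne (by linarith) ?_
  obtain ⟨S, a1, a2, a3⟩ := hQ.wtr_int
  rw [a3 _ th_cl]
  have h6 := h1.sum_ne (fun h => h0 (a1.2 h)) fun h => h1' (a2.2 h)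
  simp only [th]
  exact_mod_cast h6

theorem isOpen_st (ν : I → ℤ) : IsOpen (D.St ν) := by
  have hO : IsOpen {z : D.Rep × Mt P | (∀ e, Pres z.2 (D.mat z.1 e)) → wtr (D.th ν) z.2 < 0} := by
    have h1 : IsClosed (⋂ e, {z : D.Rep × Mt P | (1 - z.2) * D.mat z.1 e * z.2 = 0}) :=
      isClosed_iInter fun e => isClosed_eq (((continuous_const.sub continuous_snd).matrix_mul
        ((cont_mat e).comp continuous_fst)).matrix_mul continuous_snd) continuous_const
    have h2 : IsOpen {z : D.Rep × Mt P | wtr (D.th ν) z.2 < 0} :=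
      isOpen_lt ((continuous_wtr _).comp continuous_snd) continuous_const
    convert h1.isOpen_compl.union h2 using 1
    ext z
    simp only [mem_ofPred_eq, mem_union, mem_compl_iff, mem_iInter, Pres]
    exact imp_iff_not_or
  refine isOpen_iff_mem_nhds.2 fun y hy => ?_
  have h3 := (isCompact_isPr (c := D.cl)).eventually_forall_of_forall_eventually (x₀ := y)
    (P := fun x Q => (∀ e, Pres Q (D.mat x e)) → wtr (D.th ν) Q < 0) fun Q hQ =>
      hO.mem_nhds fun hp => stable_iff.1 hy Q hQ.1 hp hQ.2.1 hQ.2.2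
  filter_upwards [h3] with x hx
  exact stable_iff.2 fun Q hQ hp h0 h1 => hx Q ⟨hQ, h0, h1⟩ hp

theorem Stable.coord (hy : D.Stable ν y) {S : Finset (Option P)} (h1 : S ≠ ∅)
    (h2 : S ≠ Finset.univ) (h3 : ∀ p : D.Wt, p.1.2.1 ∈ S → p.1.2.2 ∉ S → y p = 0) :
    ∑ o ∈ S, D.thZ ν o < 0 := by
  have h4 := stable_iff.1 hy (prS S) (isPr_prS S) (fun e => pres_prS.2 fun b a ha hb => by
    by_cases h : a.map D.col = D.src e ∧ b.map D.col = D.tgt e
    · exact (mat_app y ⟨(e, a, b), h⟩).trans (h3 _ ha hb)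
    · exact sup_mat y e b a h) (fun h => h1 (prS_eq_zero.1 h)) fun h => h2 (prS_eq_one.1 h)
  rw [wtr_prS] at h4
  simp only [th] at h4
  exact_mod_cast h4

theorem Hom_const {η : Option P → ℝ} (h : ∀ o, η o = η none) : ∑ o, D.th ν o * η o = 0 := by
  rw [Finset.sum_congr rfl fun o _ => by rw [h o], ← Finset.sum_mul, sum_th, zero_mul]

theorem Hom_toric (hy : D.Stable ν y) (n : ℕ) : ∀ η : Option P → ℝ,
    (Finset.univ.image η).card ≤ n → (∀ p : D.Wt, y p ≠ 0 → η p.1.2.2 ≤ η p.1.2.1) →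
    (∀ o, η o = η none) ∨ 0 < ∑ o, D.th ν o * η o := by
  induction n with
  | zero =>
    intro η hn
    exact absurd (Finset.card_pos.2 ⟨_, Finset.mem_image_of_mem η (Finset.mem_univ none)⟩)
      (not_lt.2 hn)
  | succ n ih =>
    intro η hn h1
    refine or_iff_not_imp_left.2 fun hc => ?_
    obtain ⟨a, ha⟩ := Finite.exists_min η
    obtain ⟨b0, hb0⟩ : ∃ b, η a < η b := by
      by_contra h
      push Not at h
      exact hc fun o => (le_antisymm (h o) (ha o)).trans (le_antisymm (ha _) (h _))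
    obtain ⟨b, hb, hm⟩ := Finset.exists_min_image (Finset.univ.filter fun o => η a < η o) η
      ⟨b0, Finset.mem_filter.2 ⟨Finset.mem_univ _, hb0⟩⟩
    have hab : η a < η b := (Finset.mem_filter.1 hb).2
    have h2 := hy.coord (S := Finset.univ.filter fun o => η o ≤ η a)
      (Finset.ne_empty_of_mem (Finset.mem_filter.2 ⟨Finset.mem_univ a, le_rfl⟩))
      (fun h => absurd (Finset.mem_filter.1 (h.ge (Finset.mem_univ b))).2 (not_le.2 hab))
      fun p c1 c2 => by
        by_contra h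
        exact c2 (Finset.mem_filter.2 ⟨Finset.mem_univ _,
          (h1 p h).trans (Finset.mem_filter.1 c1).2⟩)
    have h3 : ∑ o ∈ Finset.univ.filter fun o => η o ≤ η a, D.th ν o < 0 := by
      simp only [th]
      exact_mod_cast h2
    have h4 : (Finset.univ.image fun o => max (η o) (η b)) ⊆ (Finset.univ.image η).erase (η a) := by
      intro t ht
      obtain ⟨o, -, rfl⟩ := Finset.mem_image.1 ht
      refine Finset.mem_erase.2 ⟨(hab.trans_le (le_max_right _ _)).ne', ?_⟩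
      rcases max_choice (η o) (η b) with h | h <;> rw [h] <;>
        exact Finset.mem_image_of_mem η (Finset.mem_univ _)
    have h5 := Finset.card_le_card h4
    rw [Finset.card_erase_of_mem (Finset.mem_image_of_mem η (Finset.mem_univ a))] at h5
    have h6 : 0 ≤ ∑ o, D.th ν o * max (η o) (η b) :=
      (ih (fun o => max (η o) (η b)) (by omega) fun p hp => max_le_max_right _ (h1 p hp)).elim
        (fun h => (Hom_const h).ge) le_of_lt
    have h7 : ∑ o, D.th ν o * η o = ∑ o, D.th ν o * max (η o) (η b) -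
        (η b - η a) * ∑ o ∈ Finset.univ.filter fun o => η o ≤ η a, D.th ν o := by
      rw [Finset.sum_filter, Finset.mul_sum, ← Finset.sum_sub_distrib]
      refine Finset.sum_congr rfl fun o _ => ?_
      split_ifs with h
      · rw [max_eq_right (h.trans hab.le), le_antisymm h (ha o)]
        ring
      · rw [max_eq_left (hm o (Finset.mem_filter.2 ⟨Finset.mem_univ _, not_le.1 h⟩))]
        ring
    rw [h7]
    linarith [mul_neg_of_pos_of_neg (sub_pos.2 hab) h3]

/-- the toric inequality -/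
theorem Stable.toric (hy : D.Stable ν y) {η : Option P → ℝ}
    (h1 : ∀ p : D.Wt, y p ≠ 0 → η p.1.2.2 ≤ η p.1.2.1) :
    0 ≤ ∑ o, D.th ν o * η o ∧ (∑ o, D.th ν o * η o = 0 → ∀ o, η o = η none) := by
  rcases Hom_toric hy _ η le_rfl h1 with h | h
  · exact ⟨(Hom_const h).ge, fun _ => h⟩
  · exact ⟨h.le, fun e => absurd e h.ne'⟩

/-- the support of a stable representation is connected -/
theorem Stable.conn (hy : D.Stable ν y) {S : Set (Option P)} (h0 : none ∈ S)
    (h1 : ∀ p : D.Wt, y p ≠ 0 → (p.1.2.1 ∈ S ↔ p.1.2.2 ∈ S)) : S = univ := by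
  classical
  have h2 : ∀ p : D.Wt, y p ≠ 0 →
      (if p.1.2.2 ∈ S then (1 : ℝ) else 0) = if p.1.2.1 ∈ S then 1 else 0 :=
    fun p hp => if_congr (h1 p hp).symm rfl rfl
  have h3 := hy.toric (η := fun o => if o ∈ S then 1 else 0) fun p hp => (h2 p hp).le
  have h4 := (hy.toric (η := fun o => -if o ∈ S then 1 else 0) fun p hp =>
    neg_le_neg (h2 p hp).ge).1
  simp only [mul_neg, Finset.sum_neg_distrib] at h4
  refine eq_univ_of_forall fun o => ?_
  have h5 := h3.2 (le_antisymm (by linarith) h3.1) o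
  by_contra h
  simp only [if_neg h, if_pos h0] at h5
  exact zero_ne_one h5

theorem Stable.pert (hy : D.Stable ν y) : D.Stable (D.pert ν) y := by
  rw [stable_iff] at hy ⊢
  intro Q hQ hp h0 h1
  have h2 := hy Q hQ hp h0 h1
  obtain ⟨S, -, -, a3⟩ := hQ.wtr_int
  rw [a3 _ th_cl] at h2 ⊢
  simp only [th] at h2 ⊢
  have h3 : ∑ o ∈ S, D.thZ ν o < 0 := by exact_mod_cast h2
  have h4 : ∀ o, D.thZ (D.pert ν) o ≤ ((Fintype.card P : ℤ) + 1) * D.thZ ν o +
      if o = none then 0 else 1 := by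
    rintro (_ | a)
    · simp only [thZ, Qv.pert, Finset.sum_add_distrib, ← Finset.mul_sum, if_true]
      simp
    · simp [thZ, Qv.pert]
  have h5 : ∑ o ∈ S, (if o = none then (0 : ℤ) else 1) ≤ Fintype.card P :=
    (Finset.sum_le_sum_of_subset_of_nonneg (Finset.subset_univ S) fun o _ _ => by
      split_ifs <;> norm_num).trans (by simp [Fintype.sum_option])
  have h6 := Finset.sum_le_sum fun o (_ : o ∈ S) => h4 o
  rw [Finset.sum_add_distrib, ← Finset.mul_sum] at h6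
  have h7 : ∑ o ∈ S, D.thZ (D.pert ν) o < 0 := by nlinarith
  exact_mod_cast h7

end Qv

end Pool.Agent.Work.MP_849ab0_ag.G
end
end

-- merged part: Pool.Agent.Work.MP_849ab0_ag.G.H1.KN1
section
/-!
Kempf-Ness, uniqueness.

Hints.  `kn_identity`: put `z = cnj g y`, `Pm = g gᴴ`.  With `B = mat y e`, `B' = g B g⁻¹`,
`tr (Pm B' B'ᴴ) = fsq (gᴴ B')`, `tr (gᴴ g B Bᴴ) = fsq (B' g) = tr (Pm B'ᴴ B')`,
`tr (gᴴ g Bᴴ B) = fsq (g⁻¹ B' Pm)`, and the cross term of `fsq (gᴴ B' - g⁻¹ B' Pm)` is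
`tr (B'ᴴ B' Pm)`.  `lev_unique`: both traces equal `- wtr θ (g gᴴ) = - wtr θ (gᴴ g)` (`wtr_comm`), so
`gᴴ B' = g⁻¹ B' Pm`, i.e. `Pm` is an endomorphism of `z` with framing entry `1` (`Stable.endo`).
`lev_tangent`: write `ζ = a + s`, `a` skew, `s` Hermitian; `dmuR y (ad a y) = a μ - μ a = 0` on the
level set, `tr (s dmuR y (ad s y)) = 2 nsq (ad s y)`, then `Stable.hom_zero`.
-/

noncomputable section

set_option linter.unusedSectionVars false
set_option linter.unusedVariables false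

namespace Pool.Agent.Work.MP_849ab0_ag.G

open Set Matrix
open scoped ComplexOrder

namespace Qv

variable {I P E κ : Type} [Fintype I] [DecidableEq I] [Fintype P] [DecidableEq P] [Fintype E]
  [Fintype κ] [DecidableEq κ] {D : Qv I P E κ}
  {g h k ξ : Mt P} {x y : D.Rep} {ν : I → ℤ} {χ : E → ℂ}

theorem KN1_cyc (a b c d : Mt P) : trace (a * (b * (c * d))) = trace (b * (c * (d * a))) := by
  rw [trace_mul_comm]
  simp only [Matrix.mul_assoc]

theorem KN1_edge (g gi B B' : Mt P) (h1 : g * gi = 1) (h2 : gi * g = 1) (hB : B' = g * B * gi) :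
    trace (g * gᴴ * (B' * B'ᴴ - B'ᴴ * B')) - trace (gᴴ * g * (B * Bᴴ - Bᴴ * B)) =
      trace ((gᴴ * B' - gi * B' * (g * gᴴ))ᴴ * (gᴴ * B' - gi * B' * (g * gᴴ))) := by
  have c1 : ∀ M : Mt P, g * (gi * M) = M := fun M => by rw [← Matrix.mul_assoc, h1, Matrix.one_mul]
  have c2 : ∀ M : Mt P, gi * (g * M) = M := fun M => by rw [← Matrix.mul_assoc, h2, Matrix.one_mul]
  have c3 : ∀ M : Mt P, giᴴ * (gᴴ * M) = M := fun M => by
    rw [← Matrix.mul_assoc, ← conjTranspose_mul, h1, conjTranspose_one, Matrix.one_mul]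
  have c4 : ∀ M : Mt P, gᴴ * (giᴴ * M) = M := fun M => by
    rw [← Matrix.mul_assoc, ← conjTranspose_mul, h2, conjTranspose_one, Matrix.one_mul]
  have e4 : trace ((gi * B' * (g * gᴴ))ᴴ * (gi * B' * (g * gᴴ))) = trace (gᴴ * (g * (Bᴴ * B))) := by
    have : gi * B' * (g * gᴴ) = B * gᴴ := by simp only [hB, Matrix.mul_assoc, c2]
    rw [this, KN1_cyc]
    simp only [conjTranspose_mul, conjTranspose_conjTranspose, Matrix.mul_assoc]
  have e5 : trace (g * (gᴴ * (B'ᴴ * B'))) = trace (gᴴ * (g * (B * Bᴴ))) := by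
    simp only [hB, conjTranspose_mul, Matrix.mul_assoc, c4]
    rw [trace_mul_comm, ← KN1_cyc Bᴴ]
    simp only [Matrix.mul_assoc, h2, Matrix.mul_one]
  have e1 := KN1_cyc B'ᴴ g gᴴ B'
  have e2 := (KN1_cyc B'ᴴ B' g gᴴ).trans (KN1_cyc _ _ _ _)
  rw [conjTranspose_sub, Matrix.sub_mul, Matrix.mul_sub (gi * B' * (g * gᴴ))ᴴ, trace_sub, trace_sub,
    e4]
  simp only [Matrix.mul_sub, trace_sub, conjTranspose_mul, conjTranspose_conjTranspose,
    Matrix.mul_assoc, c1, c3]
  linear_combination e5 - e1 + e2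

theorem KN1_mul_muR (M : Mt P) (y : D.Rep) : trace (M * D.muR y) =
    ∑ e, trace (M * (D.mat y e * (D.mat y e)ᴴ - (D.mat y e)ᴴ * D.mat y e)) := by
  rw [muR, Matrix.mul_sum, trace_sum]

theorem KN1_comm (h1 : Grd D.cl g) : dg (D.th ν) * g = g * dg (D.th ν) :=
  h1.comm_diag fun a b e => congrArg _ (th_cl a b e)

theorem KN1_sum_zero {m : E → Mt P} (h1 : ((∑ e, fsq (m e) : ℝ) : ℂ) = 0) (e : E) : m e = 0 :=
  fsq_eq_zero.1 ((Finset.sum_eq_zero_iff_of_nonneg fun e _ => fsq_nonneg (m e)).1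
    (Complex.ofReal_eq_zero.1 h1) e (Finset.mem_univ e))

theorem KN1_rsmul (c : ℝ) (y : D.Rep) (e : E) : D.mat (c • y) e = c • D.mat y e := by
  rw [← Complex.coe_smul, mat_smulH, Complex.coe_smul]

theorem KN1_polar (y δ : D.Rep) : D.dmuR y δ = D.muR (y + δ) - D.muR y - D.muR δ := by
  simp only [dmuR, muR, ← Finset.sum_sub_distrib, mat_addH, conjTranspose_add]
  exact Finset.sum_congr rfl fun e _ => by noncomm_ring

theorem KN1_tan (ζ η B C : Mt P) :
    2 * trace ((ζ + η) * ((ζ * B - B * ζ) * C + B * (C * η - η * C) - (C * η - η * C) * B -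
      C * (ζ * B - B * ζ))) =
      2 * trace ((C * (ζ + η) - (ζ + η) * C) * ((ζ + η) * B - B * (ζ + η))) +
        trace ((ζ + η) * ((ζ - η) * (B * C - C * B) - (B * C - C * B) * (ζ - η))) := by
  obtain ⟨s, hs⟩ : ∃ s, s = ζ + η := ⟨_, rfl⟩
  have e : ((ζ * B - B * ζ) * C + B * (C * η - η * C) - (C * η - η * C) * B - C * (ζ * B - B * ζ)) +
      ((ζ * B - B * ζ) * C + B * (C * η - η * C) - (C * η - η * C) * B - C * (ζ * B - B * ζ)) =
      s * (B * C) + B * (C * s) + s * (C * B) + C * (B * s) - B * (s * C) - B * (s * C) -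
        C * (s * B) - C * (s * B) + ((ζ - η) * (B * C - C * B) - (B * C - C * B) * (ζ - η)) := by
    rw [hs]
    noncomm_ring
  rw [two_mul, ← trace_add, ← Matrix.mul_add, e, ← hs, Matrix.mul_add, trace_add, add_left_inj]
  simp only [Matrix.mul_add, Matrix.mul_sub, Matrix.sub_mul, trace_add, trace_sub, Matrix.mul_assoc]
  linear_combination -KN1_cyc s s B C + KN1_cyc s s C B - 2 * KN1_cyc C s s B -
    2 * KN1_cyc s C s B - 2 * KN1_cyc s B s C - 2 * KN1_cyc B s C s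

theorem kn_identity (h1 : GU D.cl g) (y : D.Rep) :
    trace (g * gᴴ * D.muR (D.cnj g y)) - trace (gᴴ * g * D.muR y) =
      ((∑ e, fsq (gᴴ * D.mat (D.cnj g y) e - g⁻¹ * D.mat (D.cnj g y) e * (g * gᴴ)) : ℝ) : ℂ) := by
  rw [KN1_mul_muR, KN1_mul_muR, ← Finset.sum_sub_distrib, Complex.ofReal_sum]
  refine Finset.sum_congr rfl fun e _ => ?_
  rw [fsq_eq]
  exact KN1_edge g g⁻¹ _ _ h1.mul_inv h1.inv_mul (mat_cj h1.grd y e)

theorem lev_unique (hy : D.Stable ν y) (h0 : y ∈ D.Lev ν) (h1 : GU D.cl g)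
    (h2 : ‖g none none‖ = 1) (h3 : D.cnj g y ∈ D.Lev ν) : KU D.cl g := by
  have h4 := kn_identity h1 y
  have h5 : trace (g * gᴴ * dg (D.th ν)) = trace (gᴴ * g * dg (D.th ν)) := by
    rw [Matrix.mul_assoc, trace_mul_comm, Matrix.mul_assoc, KN1_comm h1.grd, Matrix.mul_assoc]
  rw [show D.muR (D.cnj g y) = _ from h3, show D.muR y = _ from h0, Matrix.mul_neg, Matrix.mul_neg,
    trace_neg, trace_neg, h5, sub_self] at h4
  have h6 : D.Hm (g * gᴴ) (D.cnj g y) (D.cnj g y) := ⟨h1.grd.mul h1.grd.adj, fun e => by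
    have h7 := congrArg (g * ·) (sub_eq_zero.1 (KN1_sum_zero h4.symm e))
    simpa only [← Matrix.mul_assoc, h1.mul_inv, Matrix.one_mul] using h7⟩
  have h7 := (hy.cnj h1).endo h6
  rw [h1.grd.mul_none, conjTranspose_apply, Complex.star_def, Complex.mul_conj', h2,
    Complex.ofReal_one, one_pow, one_smul] at h7
  exact ⟨h1.grd, mul_eq_one_comm.1 h7⟩

theorem hasFDerivAt_muR (y : D.Rep) : ∃ A : D.Rep →L[ℝ] Mt P, (∀ δ, A δ = D.dmuR y δ) ∧
    ∀ a b, HasFDerivAt (fun z : D.Rep => D.muR z a b)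
      ((ContinuousLinearMap.proj b).comp ((ContinuousLinearMap.proj a).comp A)) y := by
  let L : D.Rep →ₗ[ℝ] Mt P :=
    { toFun := D.dmuR y
      map_add' := fun δ δ' => by
        simp only [dmuR, mat_addH, conjTranspose_add, ← Finset.sum_add_distrib]
        exact Finset.sum_congr rfl fun e _ => by noncomm_ring
      map_smul' := fun c δ => by
        simp only [dmuR, KN1_rsmul, conjTranspose_smul, star_trivial, RingHom.id_apply,
          Finset.smul_sum, smul_sub, smul_add, Matrix.smul_mul, Matrix.mul_smul] }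
  refine ⟨LinearMap.toContinuousLinearMap L, fun _ => rfl, fun a b => ?_⟩
  obtain ⟨M, hM⟩ : ∃ M : E → Option P → Option P → D.Rep →L[ℝ] ℂ,
      ∀ e i j z, M e i j z = D.mat z e i j :=
    ⟨fun e i j => LinearMap.toContinuousLinearMap
      { toFun := fun z => D.mat z e i j
        map_add' := fun z z' => by rw [mat_addH, Matrix.add_apply]
        map_smul' := fun c z => by rw [KN1_rsmul, Matrix.smul_apply, RingHom.id_apply] },
      fun _ _ _ _ => rfl⟩
  have hd : ∀ e i j, HasFDerivAt (fun z : D.Rep => D.mat z e i j) (M e i j) y := fun e i j => by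
    simpa only [← hM] using (M e i j).hasFDerivAt (x := y)
  have h1 := HasFDerivAt.fun_sum (u := Finset.univ) fun e _ =>
    (HasFDerivAt.fun_sum (u := Finset.univ) fun j _ => (hd e a j).fun_mul (hd e b j).star).fun_sub
      (HasFDerivAt.fun_sum (u := Finset.univ) fun j _ => (hd e j a).star.fun_mul (hd e j b))
  have h2 : (fun z : D.Rep => D.muR z a b) = fun z => ∑ e, (∑ j, D.mat z e a j *
      star (D.mat z e b j) - ∑ j, star (D.mat z e j a) * D.mat z e j b) := by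
    funext z
    simp only [muR, Matrix.sum_apply, Matrix.sub_apply, Matrix.mul_apply, conjTranspose_apply]
  rw [h2]
  refine h1.congr_fderiv (ContinuousLinearMap.ext fun δ => ?_)
  change _ = D.dmuR y δ a b
  simp only [dmuR, Matrix.sum_apply, Matrix.sub_apply, Matrix.add_apply, Matrix.mul_apply,
    conjTranspose_apply, _root_.sum_apply, _root_.sub_apply, _root_.add_apply, _root_.smul_apply,
    ContinuousLinearMap.comp_apply,
    hM, smul_eq_mul, ← Finset.sum_sub_distrib, ← Finset.sum_add_distrib]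
  refine Finset.sum_congr rfl fun e _ => Finset.sum_congr rfl fun j _ => ?_
  simp
  ring

theorem lev_tangent (hy : D.Stable ν y) (h0 : y ∈ D.Lev ν) {ζ : Mt P} (h1 : Grd D.cl ζ)
    (h2 : (ζ none none).re = 0) (h3 : D.dmuR y (D.ad ζ y) = 0) : ζᴴ = -ζ := by
  have g1 := h1.add h1.adj
  have h4 : 2 * trace ((ζ + ζᴴ) * D.dmuR y (D.ad ζ y)) =
      2 * ((∑ e, fsq ((ζ + ζᴴ) * D.mat y e - D.mat y e * (ζ + ζᴴ)) : ℝ) : ℂ) +
        trace ((ζ + ζᴴ) * ((ζ - ζᴴ) * D.muR y - D.muR y * (ζ - ζᴴ))) := by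
    rw [dmuR, muR, Matrix.mul_sum, Matrix.mul_sum, Matrix.sum_mul, ← Finset.sum_sub_distrib,
      Matrix.mul_sum, trace_sum, trace_sum, Complex.ofReal_sum, Finset.mul_sum, Finset.mul_sum,
      ← Finset.sum_add_distrib]
    refine Finset.sum_congr rfl fun e _ => ?_
    rw [fsq_eq, mat_ad h1]
    simp only [conjTranspose_sub, conjTranspose_mul, conjTranspose_add, conjTranspose_conjTranspose,
      add_comm ζᴴ ζ]
    exact KN1_tan _ _ _ _
  rw [h3, show D.muR y = _ from h0, Matrix.mul_neg, Matrix.neg_mul, KN1_comm (h1.sub h1.adj),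
    sub_self, Matrix.mul_zero, trace_zero, mul_zero, add_zero] at h4
  have h5 := (mul_eq_zero.1 h4.symm).resolve_left two_ne_zero
  have h6 := hy.hom_zero hy ⟨g1, fun e => sub_eq_zero.1 (KN1_sum_zero h5 e)⟩ (by
    rw [Matrix.add_apply, conjTranspose_apply, Complex.star_def, Complex.add_conj, h2]
    simp)
  exact eq_neg_of_add_eq_zero_right h6

theorem dmuR_adj (y δ : D.Rep) : (D.dmuR y δ)ᴴ = D.dmuR y δ := by
  rw [KN1_polar, conjTranspose_sub, conjTranspose_sub, muR_adj, muR_adj, muR_adj]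

theorem grd_dmuR (y δ : D.Rep) : Grd D.cl (D.dmuR y δ) := by
  rw [KN1_polar]
  exact ((grd_muR _).sub (grd_muR _)).sub (grd_muR _)

theorem trace_dmuR (y δ : D.Rep) : trace (D.dmuR y δ) = 0 := by
  rw [KN1_polar, trace_sub, trace_sub, trace_muR, trace_muR, trace_muR, sub_zero, sub_zero]

theorem dmuR_diag (y δ : D.Rep) (o : Option P) : D.dmuR y δ o o =
    ((∑ p : D.Wt, ((if p.1.2.2 = o then 1 else 0) - if p.1.2.1 = o then 1 else 0) *
      (2 * (star (y p) * δ p).re) : ℝ) : ℂ) := by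
  rw [KN1_polar, Matrix.sub_apply, Matrix.sub_apply, muR_diag, muR_diag, muR_diag,
    ← Complex.ofReal_sub, ← Complex.ofReal_sub, ← Finset.sum_sub_distrib, ← Finset.sum_sub_distrib]
  refine congrArg _ (Finset.sum_congr rfl fun p _ => ?_)
  rw [← mul_sub, ← mul_sub]
  congr 1
  simp only [Pi.add_apply, Complex.sq_norm, Complex.normSq_apply, Complex.add_re, Complex.add_im,
    Complex.star_def, Complex.mul_re, Complex.conj_re, Complex.conj_im]
  ring

theorem dmuR_eq_zero {δ : D.Rep} {r : P → ℤ} (hr : Function.Injective r)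
    (h1 : ∀ a, D.dmuR y δ (some a) (some a) = 0)
    (h2 : ∀ a b, D.col a = D.col b → r a < r b → D.dmuR y δ (some a) (some b) = 0) :
    D.dmuR y δ = 0 := by
  have g1 := grd_dmuR y δ
  ext o o'
  rcases o with _ | a <;> rcases o' with _ | b
  · have h3 := trace_dmuR y δ
    simpa only [trace, diag_apply, Fintype.sum_option, h1, Finset.sum_const_zero, add_zero,
      Matrix.zero_apply] using h3
  · exact g1 _ _ (by simp)
  · exact g1 _ _ (by simp)
  · by_cases hc : D.col a = D.col b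
    · rcases lt_trichotomy (r a) (r b) with h3 | h3 | h3
      · exact h2 a b hc h3
      · rw [hr h3]
        exact h1 b
      · rw [← dmuR_adj, conjTranspose_apply, h2 b a hc.symm h3, star_zero, Matrix.zero_apply]
    · exact g1 _ _ (by simpa using hc)

end Qv

end Pool.Agent.Work.MP_849ab0_ag.G
end
end

-- merged part: Pool.Agent.Work.MP_849ab0_ag.G.H1.KN2
section
/-!
Kempf-Ness, properness.

Hints.  `lth`: for graded `g`, `h` one has
`pcol i * (g h) + (1 - pcol i) = (pcol i * g + (1 - pcol i)) * (pcol i * h + (1 - pcol i))`.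
`kn_proper`: by contradiction take sequences `g n`, `y n ∈ C` with `fsq (g n) + fsq (g n)⁻¹ → ∞`;
`kak`: `g n = k n * dg (exp (ξ n)) * k' n`, `ξ n none = 0` (framing entry has norm one),
`psi (g n) (y n) = ∑ p, exp (2 (ξ n b - ξ n a)) ‖cnj (k' n) (y n) p‖ ^ 2 + 2 ∑ θ ξ n` (`psi_kak`) and
`‖ξ n‖ → ∞`.  Pass to a subsequence with `k' n → k'`, `y n → y`, `ξ n / ‖ξ n‖ → η`; `z = cnj k' y` is
stable, `η none = 0`, `η ≠ 0`.  If `η a < η b` for some `p` with `z p ≠ 0`, the exponential term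
beats the linear one; otherwise `Stable.toric` gives `0 < ∑ θ η` and the linear term tends to `∞`.
-/

noncomputable section

set_option linter.unusedSectionVars false
set_option linter.unusedVariables false

namespace Pool.Agent.Work.MP_849ab0_ag.G

open Set Matrix
open scoped ComplexOrder

theorem kn2_ring {R : Type} [Ring R] {p g : R} (hp : p * p = p) (hg : p * g = g * p) (h : R) :
    p * (g * h) + (1 - p) = (p * g + (1 - p)) * (p * h + (1 - p)) := by
  have e : p * g * p = p * g := by rw [mul_assoc, ← hg, ← mul_assoc, hp]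
  simp only [add_mul, mul_add, sub_mul, mul_sub, one_mul, mul_one, ← mul_assoc, e, hp]
  abel

theorem kn2_core {ι X : Type} [Fintype ι] [TopologicalSpace X] {w c : ι → X → ℝ} {L : X → ℝ}
    (hw : ∀ p, Continuous (w p)) (hc : ∀ p, Continuous (c p)) (hL : Continuous L)
    (w0 : ∀ p x, 0 ≤ w p x) {K : Set X} (hK : IsCompact K)
    (h : ∀ x ∈ K, (∃ p, 0 < w p x ∧ 0 < c p x) ∨ 0 < L x) (M : ℝ) :
    ∃ T : ℕ, ∀ x ∈ K, ∀ s : ℝ, ∑ p, Real.exp (s * c p x) * w p x + s * L x ≤ M → s ≤ T := by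
  obtain ⟨B, hB⟩ := hK.bddAbove_image (continuous_finsetSum Finset.univ fun p _ => hw p).continuousOn
  obtain ⟨t, ht⟩ := hK.elim_finite_subcover
    (fun n : ℕ => {x | max M B < ∑ p, Real.exp (n * c p x) * w p x + n * L x})
    (fun n => isOpen_lt continuous_const (by fun_prop)) fun x hx => by
      have e : ∀ s : ℝ, 0 ≤ ∑ p, Real.exp (s * c p x) * w p x := fun s =>
        Finset.sum_nonneg fun p _ => mul_nonneg (Real.exp_nonneg _) (w0 p x)
      rcases h x hx with ⟨p, h1, h2⟩ | h1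
      · obtain ⟨n, hn⟩ := exists_nat_gt (max 1 ((|max M B| - L x) / (c p x ^ 2 / 2 * w p x)))
        rw [max_lt_iff, div_lt_iff₀ (by positivity)] at hn
        refine mem_iUnion.2 ⟨n, lt_of_lt_of_le ?_ (add_le_add_left (Finset.single_le_sum
          (fun p _ => mul_nonneg (Real.exp_nonneg _) (w0 p x)) (Finset.mem_univ p)) _)⟩
        have k1 : (0 : ℝ) ≤ n * c p x := by positivity
        have k2 := mul_le_mul_of_nonneg_right (Real.quadratic_le_exp_of_nonneg k1) h1.le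
        have k3 := mul_le_mul_of_nonneg_right hn.1.le (abs_nonneg (max M B))
        have k4 := mul_lt_mul_of_pos_left hn.2 (one_pos.trans hn.1)
        have k5 := mul_nonneg k1 h1.le
        have k6 := le_abs_self (max M B)
        linarith
      · obtain ⟨n, hn⟩ := exists_nat_gt (max M B / L x)
        rw [div_lt_iff₀ h1] at hn
        exact mem_iUnion.2 ⟨n, hn.trans_le (le_add_of_nonneg_left (e n))⟩
  refine ⟨t.sup id, fun x hx s hs => not_lt.1 fun c1 => ?_⟩
  obtain ⟨n, n1, n2⟩ := mem_iUnion₂.1 (ht hx)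
  have n3 : (n : ℝ) < s := (Nat.cast_le.2 (Finset.le_sup (f := id) n1)).trans_lt c1
  have s0 : 0 < s := n.cast_nonneg.trans_lt n3
  have l0 : 0 ≤ n / s := by positivity
  have l1 : 0 ≤ 1 - n / s := sub_nonneg.2 ((div_le_one s0).2 n3.le)
  have l2 : ∀ a, n / s * (s * a) = n * a := fun a => by rw [← mul_assoc, div_mul_cancel₀ _ s0.ne']
  have k1 : ∑ p, Real.exp (n * c p x) * w p x ≤
      (1 - n / s) * ∑ p, w p x + n / s * ∑ p, Real.exp (s * c p x) * w p x := by
    rw [Finset.mul_sum, Finset.mul_sum, ← Finset.sum_add_distrib]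
    refine Finset.sum_le_sum fun p _ => ?_
    have := convexOn_exp.2 (mem_univ 0) (mem_univ (s * c p x)) l1 l0 (sub_add_cancel _ _)
    simp only [smul_eq_mul, mul_zero, zero_add, Real.exp_zero, mul_one, l2] at this
    rw [← mul_assoc, ← add_mul]
    exact mul_le_mul_of_nonneg_right this (w0 p x)
  have k2 := mul_le_mul_of_nonneg_left ((hB ⟨x, hx, rfl⟩).trans (le_max_right M B)) l1
  have k3 := mul_le_mul_of_nonneg_left (hs.trans (le_max_left M B)) l0
  rw [mul_add, l2] at k3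
  simp only [mem_setOf_eq] at n2 k2
  linarith

theorem kn2_fsq {J : Type} [Fintype J] [DecidableEq J] {η : J → ℝ} {T : ℝ} (h : ‖η‖ ≤ T) :
    fsq (dg fun a => Real.exp (η a)) ≤ Fintype.card J * Real.exp T ^ 2 := by
  refine (Finset.sum_le_card_nsmul _ _ _ fun a _ => ?_).trans_eq (nsmul_eq_mul _ _)
  rw [dg, Finset.sum_eq_single a (fun b _ e => by simp [diagonal_apply_ne _ e.symm]) (by simp),
    diagonal_apply_eq, Complex.norm_real, Real.norm_of_nonneg (Real.exp_nonneg _)]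
  exact pow_le_pow_left₀ (Real.exp_nonneg _)
    (Real.exp_le_exp.2 ((le_abs_self _).trans ((norm_le_pi_norm η a).trans h))) 2

namespace Qv

variable {I P E κ : Type} [Fintype I] [DecidableEq I] [Fintype P] [DecidableEq P] [Fintype E]
  [Fintype κ] [DecidableEq κ] {D : Qv I P E κ}
  {g h k ξ : Mt P} {x y : D.Rep} {ν : I → ℤ} {χ : E → ℂ}

variable (D) in
/-- `∑ θ i * log |det g i|` -/
def lth (ν : I → ℤ) (g : Mt P) : ℝ :=
  ∑ i : Option I, ((i.elim (-∑ a, ν (D.col a)) ν : ℤ) : ℝ) *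
    Real.log ‖(pcol D.cl i * g + (1 - pcol D.cl i)).det‖

variable (D) in
/-- the Kempf-Ness function -/
def psi (ν : I → ℤ) (g : Mt P) (y : D.Rep) : ℝ := nsq (D.cnj g y) + 2 * D.lth ν g

theorem kn2_mul (i : Option I) (h1 : Grd D.cl g) (h : Mt P) :
    pcol D.cl i * (g * h) + (1 - pcol D.cl i) =
      (pcol D.cl i * g + (1 - pcol D.cl i)) * (pcol D.cl i * h + (1 - pcol D.cl i)) := by
  refine kn2_ring ?_ (grd_iff_prc.1 h1 i) h
  rw [pcol, diagonal_mul_diagonal]
  exact congrArg _ (funext fun a => by split_ifs <;> simp)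

theorem kn2_det (i : Option I) (h1 : Grd D.cl g) (e : g * h = 1) :
    (pcol D.cl i * g + (1 - pcol D.cl i)).det * (pcol D.cl i * h + (1 - pcol D.cl i)).det = 1 := by
  rw [← det_mul, ← kn2_mul i h1, e, mul_one, add_sub_cancel, det_one]

theorem kn2_ne (i : Option I) (h1 : GU D.cl g) : ‖(pcol D.cl i * g + (1 - pcol D.cl i)).det‖ ≠ 0 :=
  norm_ne_zero_iff.2 (left_ne_zero_of_mul_eq_one (kn2_det i h1.grd h1.mul_inv))

theorem kn2_gu (η : Option P → ℝ) : GU D.cl (dg fun a => Real.exp (η a)) :=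
  GU.diag fun _ => Complex.ofReal_ne_zero.2 (Real.exp_ne_zero _)

theorem kn2_none (h1 : KU D.cl k) : ‖k none none‖ = 1 := by
  have e := congrArg norm (h1.adj.grd.mul_none (h := k))
  rw [h1.uni, one_apply_eq, norm_one, norm_mul, conjTranspose_apply, norm_star] at e
  exact (mul_self_eq_one_iff.1 e.symm).resolve_right fun c => by linarith [norm_nonneg (k none none)]

theorem lth_mul (h1 : GU D.cl g) (h2 : GU D.cl h) : D.lth ν (g * h) = D.lth ν g + D.lth ν h := by
  simp only [lth, kn2_mul _ h1.grd, det_mul, norm_mul, Real.log_mul (kn2_ne _ h1) (kn2_ne _ h2)]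
  simp only [mul_add, Finset.sum_add_distrib]

theorem lth_ku (h1 : KU D.cl k) : D.lth ν k = 0 := by
  refine Finset.sum_eq_zero fun i _ => mul_eq_zero_of_right _ ?_
  have e := congrArg norm (kn2_det i h1.grd h1.uni')
  have p : (pcol D.cl i)ᴴ = pcol D.cl i := by
    rw [pcol, diagonal_conjTranspose]
    exact congrArg _ (funext fun a => by simp [apply_ite star])
  have q : pcol D.cl i * kᴴ + (1 - pcol D.cl i) = (pcol D.cl i * k + (1 - pcol D.cl i))ᴴ := by
    rw [conjTranspose_add, conjTranspose_sub, conjTranspose_mul, conjTranspose_one, p,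
      grd_iff_prc.1 h1.adj.grd]
  rw [q, det_conjTranspose, norm_mul, norm_star, norm_one] at e
  rcases mul_self_eq_one_iff.1 e with e | e <;> simp [e]

theorem lth_exp (η : Option P → ℝ) :
    D.lth ν (dg fun a => Real.exp (η a)) = ∑ o, D.th ν o * η o := by
  have e : ∀ i, Real.log ‖(pcol D.cl i * dg (fun a => Real.exp (η a)) + (1 - pcol D.cl i)).det‖ =
      ∑ a, if D.cl a = i then η a else 0 := fun i => by
    rw [pcol, dg, diagonal_mul_diagonal, ← diagonal_one, diagonal_sub, diagonal_add, det_diagonal,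
      ← Real.log_exp (∑ a, _), Real.exp_sum, norm_prod]
    refine congrArg _ (Finset.prod_congr rfl fun a _ => ?_)
    by_cases c : D.cl a = i <;> simp [c, Complex.norm_exp]
  simp only [lth, e, Finset.mul_sum, mul_ite, mul_zero]
  rw [Finset.sum_comm]
  refine Finset.sum_congr rfl fun o _ => ?_
  rw [Finset.sum_ite_eq, if_pos (Finset.mem_univ _)]
  cases o <;> rfl

theorem continuousOn_lth : ContinuousOn (D.lth ν) {g | GU D.cl g} :=
  continuousOn_finsetSum _ fun i _ => continuousOn_const.mul (ContinuousOn.log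
    ((continuous_const.matrix_mul continuous_id).add continuous_const).matrix_det.norm.continuousOn
    fun _ hg => kn2_ne i hg)

theorem psi_kak {k' : Mt P} (h1 : KU D.cl k) (h2 : KU D.cl k') (η : Option P → ℝ) (y : D.Rep) :
    D.psi ν (k * dg (fun a => Real.exp (η a)) * k') y =
      ∑ p : D.Wt, Real.exp (2 * (η p.1.2.2 - η p.1.2.1)) * ‖D.cnj k' y p‖ ^ 2 +
        2 * ∑ o, D.th ν o * η o := by
  rw [psi, lth_mul (h1.gu.mul (kn2_gu η)) h2.gu, lth_mul h1.gu (kn2_gu η), lth_ku h1, lth_ku h2,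
    lth_exp, zero_add, add_zero, cj_mul (h1.gu.mul (kn2_gu η)) h2.gu, cj_mul h1.gu (kn2_gu η),
    nsq_cj h1, nsq]
  refine congrArg (· + _) (Finset.sum_congr rfl fun p _ => ?_)
  rw [dg, cj_diag fun _ => Complex.ofReal_ne_zero.2 (Real.exp_ne_zero _), norm_mul, mul_pow,
    ← Complex.ofReal_inv, ← Complex.ofReal_mul, Complex.norm_real, Real.norm_eq_abs, sq_abs,
    ← div_eq_mul_inv, ← Real.exp_sub, two_mul, Real.exp_add, sq]

theorem kn_proper {C : Set D.Rep} (hC : IsCompact C) (h1 : C ⊆ D.St ν) (M : ℝ) :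
    ∃ R : ℝ, ∀ g, GU D.cl g → ‖g none none‖ = 1 → ∀ y ∈ C, D.psi ν g y ≤ M →
      fsq g ≤ R ∧ fsq g⁻¹ ≤ R := by
  have k1 : IsCompact ((fun z : Mt P × D.Rep => D.cnj z.1 z.2) '' ({k | KU D.cl k} ×ˢ C)) :=
    (isCompact_KU.prod hC).image_of_continuousOn
      (continuousOn_cj.mono (prod_mono (fun _ hk => KU.gu hk |>.unit) (subset_univ _)))
  have k2 : IsCompact (Metric.sphere (0 : Option P → ℝ) 1 ∩ {u | u none = 0}) :=
    (isCompact_sphere _ _).inter_right (isClosed_eq (continuous_apply _) continuous_const)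
  obtain ⟨T, hT⟩ := kn2_core (w := fun (p : D.Wt) x => ‖x.1 p‖ ^ 2)
    (c := fun p x => 2 * (x.2 p.1.2.2 - x.2 p.1.2.1)) (L := fun x => 2 * ∑ o, D.th ν o * x.2 o)
    (fun p => by fun_prop) (fun p => by fun_prop) (by fun_prop) (fun _ _ => sq_nonneg _)
    (k1.prod k2) (by
      rintro ⟨_, u⟩ ⟨⟨⟨k, y⟩, ⟨hk, hy⟩, rfl⟩, u1, u2⟩
      refine or_iff_not_imp_left.2 fun c => ?_
      obtain ⟨t1, t2⟩ := (Stable.cnj (h1 hy) (KU.gu hk)).toric (η := u) fun p hp =>
        not_lt.1 fun c' => c ⟨p, by positivity, mul_pos two_pos (sub_pos.2 c')⟩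
      refine mul_pos two_pos (t1.lt_of_ne fun e => ?_)
      have : u = 0 := funext fun o => (t2 e.symm o).trans u2
      simp [this] at u1) M
  refine ⟨Fintype.card (Option P) * Real.exp T ^ 2, fun g hg h0 y hy hM => ?_⟩
  obtain ⟨k, k', a1, a2, η, rfl⟩ := kak hg
  rw [(a1.grd.mul (kn2_gu η).grd).mul_none, a1.grd.mul_none, norm_mul, norm_mul, kn2_none a1,
    kn2_none a2, one_mul, mul_one, dg, diagonal_apply_eq, Complex.norm_real,
    Real.norm_of_nonneg (Real.exp_nonneg _), Real.exp_eq_one_iff] at h0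
  have a3 : ‖η‖ ≤ T := by
    by_cases e : η = 0
    · rw [e, norm_zero]
      exact T.cast_nonneg
    have e' := norm_ne_zero_iff.2 e
    refine hT (D.cnj k' y, ‖η‖⁻¹ • η) ⟨⟨(k', y), ⟨a2, hy⟩, rfl⟩, ?_, ?_⟩ _ (le_of_eq_of_le ?_ hM)
    · rw [mem_sphere_zero_iff_norm, norm_smul, norm_inv, norm_norm, inv_mul_cancel₀ e']
    · exact mul_eq_zero_of_right _ h0
    · rw [psi_kak a1 a2]
      simp only [Pi.smul_apply, smul_eq_mul, Finset.mul_sum]
      exact congrArg₂ _ (Finset.sum_congr rfl fun p _ => congrArg (Real.exp · * _) (by field_simp))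
        (Finset.sum_congr rfl fun o _ => by field_simp)
  have a4 : (dg fun a => Real.exp (η a))⁻¹ = dg fun a => Real.exp ((-η) a) := by
    refine inv_eq_right_inv ?_
    rw [dg, dg, diagonal_mul_diagonal, ← diagonal_one]
    exact congrArg _ (funext fun a => by simp [← Complex.exp_add])
  rw [Matrix.mul_inv_rev, Matrix.mul_inv_rev, a1.inv_eq, a2.inv_eq, a4, a2.mul_fsq, a1.fsq_mul,
    a2.adj.fsq_mul, a1.adj.mul_fsq]
  exact ⟨kn2_fsq a3, kn2_fsq ((norm_neg η).trans_le a3)⟩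

end Qv

end Pool.Agent.Work.MP_849ab0_ag.G
end
end

-- merged part: Pool.Agent.Work.MP_849ab0_ag.G.H1.QR
section
/-!
The unitary factors of the `QR` and of the polar decomposition of a graded invertible matrix.

Hints.  `exists_qr`: `gramSchmidtNormed` (or `gramSchmidtOrthonormalBasis`) of the columns of `g`
for the linear order lifted along `r` (`LinearOrder.lift' r`, `gramSchmidt_inv_triangular`); by
strong induction with `gramSchmidt_def` the vector number `a` is supported on the colour of `a`.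
Or: induction; or Cholesky via `LDL`.  `qr_unique`: `k'ᴴ k = b' b⁻¹` is unitary and triangular,
hence diagonal (`KU.grd_of_mfil`), with positive diagonal.  Continuity of `qrU` and `polU`: the
graph is closed in `{g | GU c g} × {k | KU c k}` (for `qrU`: positive diagonal in the limit because
the limit of `kᴴ g` is a triangular unit; for `polU`: positive semidefinite and a unit) and the
target is compact: along a sequence (or ultrafilter) every cluster value is the value at the limit.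
`exists_pol`: `kak`, `g = (k k') (k'ᴴ d k')`.  `pol_unique`: `pᴴ p = gᴴ g`, uniqueness of positive
square roots (`Matrix.PosSemidef`, `CFC.sqrt_unique` or `sq_eq_sq_iff`).
-/

noncomputable section

set_option linter.unusedSectionVars false
set_option linter.unusedVariables false

namespace Pool.Agent.Work.MP_849ab0_ag.G

open Set Matrix
open scoped ComplexOrder

variable {J C : Type} [Fintype J] [DecidableEq J] {c : J → C} {r : J → ℤ} {g h k k' : Matrix J J ℂ}

/-- `kᴴ g` is triangular with positive diagonal -/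
def IsQR (c : J → C) (r : J → ℤ) (g k : Matrix J J ℂ) : Prop :=
  KU c k ∧ MFil r r 0 (kᴴ * g) ∧ ∀ a, 0 < (kᴴ * g) a a

theorem QR_mul (h1 : MFil r r 0 g) (h2 : MFil r r 0 h) : MFil r r 0 (g * h) := by
  simpa using h1.mul h2

theorem QR_diag_mul (hr : Function.Injective r) (h1 : MFil r r 0 g) (h2 : MFil r r 0 h) (a : J) :
    (g * h) a a = g a a * h a a := by
  rw [mul_apply, Finset.sum_eq_single a]
  · intro b _ hb
    rcases lt_or_gt_of_ne (hr.ne hb) with e | e
    · rw [h1 a b (by omega), zero_mul]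
    · rw [h2 b a (by omega), mul_zero]
  · simp

theorem QR_diag_ne (hr : Function.Injective r) (h1 : MFil r r 0 g) (h2 : IsUnit g) (a : J) :
    g a a ≠ 0 := by
  have e := QR_diag_mul hr h1 h1.inv a
  rw [mul_nonsing_inv _ ((isUnit_iff_isUnit_det _).1 h2), one_apply_eq] at e
  exact left_ne_zero_of_mul_eq_one e.symm

/-- Gram-Schmidt -/
theorem QR_gs (hr : Function.Injective r) (g : Matrix J J ℂ) :
    ∃ k : Matrix J J ℂ, kᴴ * k = 1 ∧ MFil r r 0 (kᴴ * g) := by
  let _ : LinearOrder J := LinearOrder.lift' r hr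
  let _ : LocallyFiniteOrderBot J :=
    { finsetIic := fun a => Finset.univ.filter fun x => r x ≤ r a
      finsetIio := fun a => Finset.univ.filter fun x => r x < r a
      finset_mem_Iic := fun a x => by simp only [Finset.mem_filter, Finset.mem_univ, true_and]; rfl
      finset_mem_Iio := fun a x => by simp only [Finset.mem_filter, Finset.mem_univ, true_and]; rfl }
  have hd : Module.finrank ℂ (EuclideanSpace ℂ J) = Fintype.card J := by simp
  let f : J → EuclideanSpace ℂ J := fun a => WithLp.toLp 2 fun i => g i a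
  let u := InnerProductSpace.gramSchmidtOrthonormalBasis hd f
  have key : ∀ (b : J) (v : EuclideanSpace ℂ J),
      ∑ i, (Matrix.of fun i a => u a i)ᴴ b i * v i = inner ℂ (u b) v := fun b v => by
    rw [EuclideanSpace.inner_eq_star_dotProduct, dotProduct_comm]
    rfl
  refine ⟨Matrix.of fun i a => u a i, ?_, fun b a hab => ?_⟩
  · ext a b
    rw [mul_apply, one_apply, ← orthonormal_iff_ite.1 u.orthonormal a b]
    exact key a (u b)
  · rw [mul_apply]
    exact (key b (f a)).trans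
      (InnerProductSpace.gramSchmidtOrthonormalBasis_inv_triangular hd f
        (show r a < r b by simpa using hab))

theorem QR_eqv (h1 : IsQR c r g h) (h2 : KU c k) {d : J → ℂ} (hd : ∀ a, ‖d a‖ = 1) :
    IsQR c r (k * g * diagonal d) (k * h * diagonal d) := by
  have e : (k * h * diagonal d)ᴴ * (k * g * diagonal d) =
      diagonal (star d) * (hᴴ * g) * diagonal d := by
    rw [conjTranspose_mul, conjTranspose_mul, diagonal_conjTranspose]
    calc diagonal (star d) * (hᴴ * kᴴ) * (k * g * diagonal d)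
        = diagonal (star d) * (hᴴ * (kᴴ * k) * g) * diagonal d := by simp only [Matrix.mul_assoc]
      _ = _ := by rw [h2.uni, Matrix.mul_one]
  refine ⟨(h2.mul h1.1).mul (KU.diag hd), ?_, fun a => ?_⟩
  · rw [e]
    exact QR_mul (QR_mul (MFil.diag _) h1.2.1) (MFil.diag _)
  · rw [e, mul_diagonal, diagonal_mul, mul_right_comm, Pi.star_apply, Complex.star_def,
      Complex.conj_mul', hd]
    simpa using h1.2.2 a

theorem QR_unique (hr : Function.Injective r) (h1 : IsUnit g) (h2 : IsQR c r g k)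
    (h3 : IsQR c r g k') : k = k' := by
  have hu : KU c (k'ᴴ * k) := h3.1.adj.mul h2.1
  have e : k'ᴴ * k * (kᴴ * g) = k'ᴴ * g := by
    rw [Matrix.mul_assoc, ← Matrix.mul_assoc k, h2.1.uni', Matrix.one_mul]
  have hb : IsUnit (kᴴ * g) := h2.1.adj.gu.unit.mul h1
  have hm : MFil r r 0 (k'ᴴ * k) := by
    have := QR_mul h3.2.1 h2.2.1.inv
    rwa [← e, Matrix.mul_assoc, mul_nonsing_inv _ ((isUnit_iff_isUnit_det _).1 hb),
      Matrix.mul_one] at this
  have hg := hu.grd_of_mfil hm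
  have e1 : k'ᴴ * k = 1 := by
    ext a b
    by_cases hab : a = b
    · subst hab
      have k1 := QR_diag_mul hr hm h2.2.1 a
      rw [e] at k1
      have k2 : 0 < (k'ᴴ * k) a a := by
        rw [eq_div_of_mul_eq (h2.2.2 a).ne' k1.symm]
        exact div_pos (h3.2.2 a) (h2.2.2 a)
      have k3 := QR_diag_mul hr (fun b a hab => hg.adj b a (by omega)) hm a
      rw [hu.uni, one_apply_eq, conjTranspose_apply, (IsSelfAdjoint.of_nonneg k2.le).star_eq] at k3
      rw [one_apply_eq]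
      rcases mul_self_eq_one_iff.1 k3.symm with k4 | k4
      · exact k4
      · rw [k4] at k2
        exact absurd k2 (not_lt_of_gt (neg_lt_zero.2 one_pos))
    · rw [hg a b (hr.ne hab), one_apply_ne hab]
  rw [← Matrix.one_mul k, ← h3.1.uni', Matrix.mul_assoc, e1, Matrix.mul_one]

theorem QR_ex (hr : Function.Injective r) (h1 : IsUnit g) : ∃ k, IsQR (fun _ => ()) r g k := by
  obtain ⟨k, hk, hm⟩ := QR_gs hr g
  have h2 : KU (fun _ : J => ()) k := ⟨fun a b h => absurd rfl h, hk⟩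
  have h3 := QR_diag_ne hr hm (h2.adj.gu.unit.mul h1)
  have h4 : ∀ a, ((‖(kᴴ * g) a a‖ : ℝ) : ℂ) ≠ 0 := fun a =>
    Complex.ofReal_ne_zero.2 (norm_ne_zero_iff.2 (h3 a))
  let d : J → ℂ := fun a => (kᴴ * g) a a / ‖(kᴴ * g) a a‖
  have e : (k * diagonal d)ᴴ * g = diagonal (star d) * (kᴴ * g) := by
    rw [conjTranspose_mul, diagonal_conjTranspose, Matrix.mul_assoc]
  refine ⟨k * diagonal d, h2.mul (KU.diag fun a => ?_), ?_, fun a => ?_⟩
  · simp only [d, norm_div, Complex.norm_real, norm_norm]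
    exact div_self (norm_ne_zero_iff.2 (h3 a))
  · rw [e]
    exact QR_mul (MFil.diag _) hm
  · rw [e, diagonal_mul]
    simp only [d, Pi.star_apply, Complex.star_def, map_div₀, Complex.conj_ofReal]
    rw [div_mul_eq_mul_div, Complex.conj_mul', sq, mul_div_cancel_right₀ _ (h4 a)]
    exact Complex.zero_lt_real.2 (norm_pos_iff.2 (h3 a))

theorem exists_qr (hr : Function.Injective r) (h1 : GU c g) : ∃ k, IsQR c r g k := by
  classical
  obtain ⟨k, hk⟩ := QR_ex hr h1.unit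
  refine ⟨k, ⟨fun a b hab => ?_, hk.1.uni⟩, hk.2⟩
  let d : J → ℂ := fun x => if c x = c a then -1 else 1
  have hd : ∀ x, ‖d x‖ = 1 := fun x => by
    simp only [d]
    split_ifs <;> simp
  have h2 := QR_eqv hk (KU.diag hd) hd
  have e : diagonal d * g * diagonal d = g := by
    rw [h1.grd.comm_diag fun x y e => by simp only [d, e], Matrix.mul_assoc, diagonal_mul_diagonal]
    have : (fun x => d x * d x) = fun _ => 1 := funext fun x => by
      simp only [d]
      split_ifs <;> simp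
    rw [this, diagonal_one, Matrix.mul_one]
  rw [e] at h2
  have h3 := congrFun (congrFun (QR_unique hr h1.unit hk h2) a) b
  rw [mul_diagonal, diagonal_mul] at h3
  simp only [d, if_true, if_neg hab.symm] at h3
  linear_combination h3 / 2

theorem qr_unique (hr : Function.Injective r) (h1 : GU c g) (h2 : IsQR c r g k)
    (h3 : IsQR c r g k') : k = k' := QR_unique hr h1.unit h2 h3

/-- the unitary factor of the `QR` decomposition -/
def qrU (c : J → C) (r : J → ℤ) (g : Matrix J J ℂ) : Matrix J J ℂ := Classical.epsilon (IsQR c r g)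

theorem qrU_spec (hr : Function.Injective r) (h1 : GU c g) : IsQR c r g (qrU c r g) :=
  Classical.epsilon_spec (exists_qr hr h1)

theorem qrU_eqv (hr : Function.Injective r) (h1 : GU c g) (h2 : KU c k) {d : J → ℂ}
    (hd : ∀ a, ‖d a‖ = 1) : qrU c r (k * g * diagonal d) = k * qrU c r g * diagonal d :=
  qr_unique hr ((h2.gu.mul h1).mul (KU.diag hd).gu)
    (qrU_spec hr ((h2.gu.mul h1).mul (KU.diag hd).gu)) (QR_eqv (qrU_spec hr h1) h2 hd)

/-- closed graph -/
theorem QR_cont {f : Matrix J J ℂ → Matrix J J ℂ} {T : Set (Matrix J J ℂ × Matrix J J ℂ)}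
    (hT : IsClosed T) (hf : ∀ g, GU c g → KU c (f g) ∧ (g, f g) ∈ T)
    (hu : ∀ g k, GU c g → KU c k → (g, k) ∈ T → k = f g) : ContinuousOn f {g | GU c g} := by
  intro g hg
  refine isCompact_KU.tendsto_nhds_of_unique_mapClusterPt
    (eventually_mem_nhdsWithin.mono fun x hx => (hf x hx).1) fun k hk hc => hu g k hg hk ?_
  obtain ⟨U, hU, ht⟩ := mapClusterPt_iff_ultrafilter.1 hc
  have h1 : Filter.Tendsto (fun x => (x, f x)) U (nhds (g, k)) :=
    Filter.Tendsto.prodMk_nhds (hU.trans nhdsWithin_le_nhds) ht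
  exact hT.mem_of_tendsto h1 ((eventually_mem_nhdsWithin.mono fun x hx => (hf x hx).2).filter_mono hU)

theorem QR_cont' : Continuous fun p : Matrix J J ℂ × Matrix J J ℂ => p.2ᴴ * p.1 :=
  continuous_snd.matrix_conjTranspose.matrix_mul continuous_fst

theorem continuousOn_qrU (hr : Function.Injective r) : ContinuousOn (qrU c r) {g | GU c g} := by
  refine QR_cont (T := {p | MFil r r 0 (p.2ᴴ * p.1) ∧ ∀ a, 0 ≤ (p.2ᴴ * p.1) a a}) ?_
    (fun g hg => ⟨(qrU_spec hr hg).1, (qrU_spec hr hg).2.1, fun a => ((qrU_spec hr hg).2.2 a).le⟩)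
    fun g k hg hk h => qr_unique hr hg ⟨hk, h.1, fun a => lt_of_le_of_ne (h.2 a)
      (QR_diag_ne hr h.1 (hk.adj.gu.unit.mul hg.unit) a).symm⟩ (qrU_spec hr hg)
  simp only [MFil, ofPred_and, ofPred_forall]
  exact (isClosed_iInter fun b => isClosed_iInter fun a => isClosed_iInter fun _ =>
    isClosed_eq (QR_cont'.matrix_elem b a) continuous_const).inter
    (isClosed_iInter fun a => isClosed_le continuous_const (QR_cont'.matrix_elem a a))

/-- every integer valued function is refined by an injective one -/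
theorem exists_refine (ρ : J → ℤ) :
    ∃ r : J → ℤ, Function.Injective r ∧ ∀ a b, ρ a < ρ b → r a < r b := by
  let n : J → ℤ := fun a => ((Fintype.equivFin J a : ℕ) : ℤ)
  have h1 : ∀ a, 0 ≤ n a := fun a => Int.natCast_nonneg _
  have h2 : ∀ a, n a < Fintype.card J := fun a => Int.ofNat_lt.2 (Fintype.equivFin J a).2
  have h3 : ∀ a b, ρ a < ρ b → ρ a * Fintype.card J + n a < ρ b * Fintype.card J + n b := by
    intro a b h
    have := mul_le_mul_of_nonneg_right (Int.add_one_le_of_lt h) (Int.natCast_nonneg (Fintype.card J))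
    linarith [h1 b, h2 a]
  refine ⟨fun a => ρ a * Fintype.card J + n a, fun a b e => ?_, h3⟩
  rcases lt_trichotomy (ρ a) (ρ b) with h | h | h
  · exact absurd e (h3 a b h).ne
  · simp only [h, add_right_inj, n, Int.natCast_inj] at e
    exact (Fintype.equivFin J).injective (Fin.ext e)
  · exact absurd e (h3 b a h).ne'

/-- `G = K P` -/
theorem exists_kp (ρ : J → ℤ) (h1 : GU c g) :
    ∃ k p, KU c k ∧ GU c p ∧ MFil ρ ρ 0 p ∧ g = k * p := by
  obtain ⟨r, hr, h⟩ := exists_refine ρ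
  obtain ⟨k, h2, h3, -⟩ := exists_qr hr h1
  exact ⟨k, kᴴ * g, h2, h2.adj.gu.mul h1, h3.refine h, by
    rw [← Matrix.mul_assoc, h2.uni', Matrix.one_mul]⟩

/-- `G = P K` -/
theorem exists_pk (ρ : J → ℤ) (h1 : GU c g) :
    ∃ p k, GU c p ∧ MFil ρ ρ 0 p ∧ KU c k ∧ g = p * k := by
  obtain ⟨k, p, h2, h3, h4, e⟩ := exists_kp ρ h1.inv
  exact ⟨p⁻¹, kᴴ, h3.inv, h4.inv, h2.adj, by
    rw [← h2.inv_eq, ← Matrix.mul_inv_rev, ← e, h1.inv_inv]⟩

/-- `kᴴ g` is positive definite -/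
def IsPol (c : J → C) (g k : Matrix J J ℂ) : Prop := KU c k ∧ (kᴴ * g).PosDef

open scoped MatrixOrder in
theorem QR_pos {p p' : Matrix J J ℂ} (h1 : p.PosDef) (h2 : p'.PosDef) (h3 : kᴴ * k = 1)
    (e : p' = k * p) : p' = p := by
  refine (CFC.sq_eq_sq_iff p' p h2.posSemidef.nonneg h1.posSemidef.nonneg).1 ?_
  have e1 : p'ᴴ * p' = pᴴ * p := by
    rw [e, conjTranspose_mul, Matrix.mul_assoc, ← Matrix.mul_assoc kᴴ, h3, Matrix.one_mul]
  rwa [h1.1.eq, h2.1.eq, ← sq, ← sq] at e1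

theorem QR_pol_eqv (h1 : IsPol c g h) (h2 : KU c k) (h3 : KU c k') :
    IsPol c (k * g * k') (k * h * k') := by
  have e : (k * h * k')ᴴ * (k * g * k') = k'ᴴ * (hᴴ * g) * k' := by
    rw [conjTranspose_mul, conjTranspose_mul]
    calc k'ᴴ * (hᴴ * kᴴ) * (k * g * k') = k'ᴴ * (hᴴ * (kᴴ * k) * g) * k' := by
          simp only [Matrix.mul_assoc]
      _ = _ := by rw [h2.uni, Matrix.mul_one]
  refine ⟨(h2.mul h1.1).mul h3, ?_⟩
  rw [e]
  exact h1.2.conjTranspose_mul_mul_same (mulVec_injective_of_isUnit h3.gu.unit)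

theorem exists_pol (h1 : GU c g) : ∃ k, IsPol c g k := by
  obtain ⟨k, k', h2, h3, ξ, rfl⟩ := kak h1
  refine ⟨_, QR_pol_eqv (h := 1) ⟨KU.one, ?_⟩ h2 h3⟩
  rw [conjTranspose_one, Matrix.one_mul]
  exact PosDef.diagonal fun a => Complex.zero_lt_real.2 (Real.exp_pos _)

theorem pol_unique (h1 : GU c g) (h2 : IsPol c g k) (h3 : IsPol c g k') : k = k' := by
  have e := QR_pos h2.2 h3.2 (h3.1.adj.mul h2.1).uni
    (by rw [Matrix.mul_assoc, ← Matrix.mul_assoc k, h2.1.uni', Matrix.one_mul])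
  exact (conjTranspose_injective (h1.unit.mul_right_cancel e)).symm

/-- the unitary factor of the polar decomposition -/
def polU (c : J → C) (g : Matrix J J ℂ) : Matrix J J ℂ := Classical.epsilon (IsPol c g)

theorem polU_spec (h1 : GU c g) : IsPol c g (polU c g) := Classical.epsilon_spec (exists_pol h1)

theorem polU_eqv (h1 : GU c g) (h2 : KU c k) (h3 : KU c k') :
    polU c (k * g * k') = k * polU c g * k' :=
  pol_unique ((h2.gu.mul h1).mul h3.gu) (polU_spec ((h2.gu.mul h1).mul h3.gu))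
    (QR_pol_eqv (polU_spec h1) h2 h3)

theorem polU_ku (h2 : KU c k) : polU c k = k :=
  pol_unique h2.gu (polU_spec h2.gu) ⟨h2, by rw [h2.uni]; exact PosDef.one⟩

theorem continuousOn_polU : ContinuousOn (polU c) {g | GU c g} := by
  refine QR_cont (T := {p | (p.2ᴴ * p.1).PosSemidef}) ?_
    (fun g hg => ⟨(polU_spec hg).1, (polU_spec hg).2.posSemidef⟩)
    fun g k hg hk h => pol_unique hg
      ⟨hk, (PosSemidef.posDef_iff_isUnit h).2 (hk.adj.gu.unit.mul hg.unit)⟩ (polU_spec hg)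
  simp only [posSemidef_iff_dotProduct_mulVec, IsHermitian, ofPred_and, ofPred_forall]
  exact (isClosed_eq QR_cont'.matrix_conjTranspose QR_cont').inter
    (isClosed_iInter fun x => isClosed_le continuous_const
      (continuous_const.dotProduct (QR_cont'.matrix_mulVec continuous_const)))

/-- two positive definite matrices that differ by a unitary factor are equal -/
theorem posDef_eq {p p' : Matrix J J ℂ} (h1 : p.PosDef) (h2 : p'.PosDef) (h3 : kᴴ * k = 1)
    (e : p' = k * p) : p' = p := QR_pos h1 h2 h3 e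

end Pool.Agent.Work.MP_849ab0_ag.G
end
end

-- merged part: Pool.Agent.Work.MP_849ab0_ag.G.H1.StDef
section
/-!
Strata of the stable locus: definitions (owner helper71).  A type is a function
`ρ : Option P → ℤ`; the coordinate `(e, a, b)` has degree `ρ b - ρ a`.
-/

noncomputable section

set_option linter.unusedSectionVars false
set_option linter.unusedVariables false

namespace Pool.Agent.Work.MP_849ab0_ag.G

open Set Topology Matrix

/-- the part of degree `d` of a matrix -/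
def mpt {J : Type} (ρ : J → ℤ) (d : ℤ) (g : Matrix J J ℂ) : Matrix J J ℂ :=
  Matrix.of fun b a => if ρ b - ρ a = d then g b a else 0

namespace Qv

variable {I P E κ : Type} [Fintype I] [DecidableEq I] [Fintype P] [DecidableEq P] [Fintype E]
  [Fintype κ] [DecidableEq κ] (D : Qv I P E κ)

/-- the degree of a coordinate -/
def dgr (ρ : Option P → ℤ) (p : D.Wt) : ℤ := ρ p.1.2.2 - ρ p.1.2.1

/-- representations whose coordinates have degrees in `s` -/
def Ed (ρ : Option P → ℤ) (s : Set ℤ) : Submodule ℂ D.Rep where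
  carrier := {y | ∀ p, D.dgr ρ p ∉ s → y p = 0}
  add_mem' h k p hp := by simp [h p hp, k p hp]
  zero_mem' _ _ := rfl
  smul_mem' c _ h p hp := by simp [h p hp]

/-- the part with degrees in `s` -/
def prd (ρ : Option P → ℤ) (s : Set ℤ) (y : D.Rep) : D.Rep :=
  open Classical in fun p => if D.dgr ρ p ∈ s then y p else 0

/-- filtered representations -/
abbrev El (ρ : Option P → ℤ) : Submodule ℂ D.Rep := D.Ed ρ (Iic 1)

/-- graded representations -/
abbrev Eg (ρ : Option P → ℤ) : Submodule ℂ D.Rep := D.Ed ρ {1}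

/-- the associated graded representation -/
abbrev gr (ρ : Option P → ℤ) (y : D.Rep) : D.Rep := D.prd ρ {1} y

/-- the contraction `y ↦ ∑ t ^ (1 - k) y_k` -/
def scl (ρ : Option P → ℤ) (t : ℝ) (y : D.Rep) : D.Rep :=
  fun p => (t : ℂ) ^ (1 - D.dgr ρ p).toNat * y p

/-- the weight of a type -/
def wtZ (ν : I → ℤ) (ρ : Option P → ℤ) : ℤ := ∑ o, D.thZ ν o * ρ o

/-- `K · E (ρ)` -/
def Zr (ρ : Option P → ℤ) : Set D.Rep := {x | ∃ k, KU D.cl k ∧ ∃ y ∈ D.El ρ, x = D.cnj k y}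

/-- the coordinates with degrees in `s` -/
abbrev Ew (ρ : Option P → ℤ) (s : Set ℤ) : Type := {p : D.Wt // D.dgr ρ p ∈ s}

/-- the coordinates of the Lie algebra with degrees in `s`; `(b, a)` is the entry `a → b` -/
abbrev Lw (ρ : Option P → ℤ) (s : Set ℤ) : Type :=
  {z : P × P // D.col z.1 = D.col z.2 ∧ ρ (some z.1) - ρ (some z.2) ∈ s}

/-- the element of the Lie algebra with given coordinates -/
def lmat {ρ : Option P → ℤ} {s : Set ℤ} (ξ : D.Lw ρ s → ℂ) : Mt P :=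
  open Classical in hat 0 (Matrix.of fun b a =>
    if h : D.col b = D.col a ∧ ρ (some b) - ρ (some a) ∈ s then ξ ⟨(b, a), h⟩ else 0)

/-- the derivative of the complex moment map -/
def dmu (y δ : D.dbl.Rep) : Mt P :=
  ∑ e, (D.dbl.mat δ (.inl e) * D.dbl.mat y (.inr e) + D.dbl.mat y (.inl e) * D.dbl.mat δ (.inr e) -
    D.dbl.mat δ (.inr e) * D.dbl.mat y (.inl e) - D.dbl.mat y (.inr e) * D.dbl.mat δ (.inl e))

/-- filtered points of the stratum -/
def S0 (ν : I → ℤ) (ρ : Option P → ℤ) : Set D.dbl.Rep :=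
  {y | y ∈ D.Xs ν ∧ y ∈ D.dbl.El ρ ∧ D.dbl.Stable ν (D.dbl.gr ρ y)}

/-- the stratum -/
def Sr (ν : I → ℤ) (ρ : Option P → ℤ) : Set D.dbl.Rep :=
  {x | ∃ k, KU D.cl k ∧ ∃ y ∈ D.S0 ν ρ, x = D.dbl.cnj k y}

/-- graded points of the stratum -/
def Fr (ν : I → ℤ) (ρ : Option P → ℤ) : Set D.dbl.Rep := {y | y ∈ D.Xs ν ∧ y ∈ D.dbl.Eg ρ}

/-- normalised bounded types -/
def Bx (ρ : Option P → ℤ) : Prop := ρ none = 0 ∧ ∀ o, |ρ o| ≤ Fintype.card P

/-- the refined colouring; `K_ρ = Ub (D.cr ρ)` -/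
def cr (ρ : Option P → ℤ) : P → I × ℤ := fun a => (D.col a, ρ (some a))

/-- the inclusion `K_ρ × T → K × T` -/
def iK (ρ : Option P → ℤ) : (KT (D.cr ρ) κ).H → (KT D.col κ).H :=
  fun g => (⟨g.1.1, fun a b h => g.1.2 a b fun e => h (congrArg Prod.fst e)⟩, g.2)

instance (ρ : Option P → ℤ) : IsHom (D.iK ρ) :=
  ⟨fun _ _ => rfl, ((continuous_subtype_val.comp continuous_fst).subtype_mk _).prodMk
    continuous_snd⟩

theorem iK_inj (ρ : Option P → ℤ) : Function.Injective (D.iK ρ) := fun _ _ e =>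
  Prod.ext (Subtype.ext (congrArg (fun z => z.1.1) e)) (congrArg (fun z => z.2) e)

/-- the action of `K_ρ × T` on `N ⊕ N^*` -/
abbrev aR (ρ : Option P → ℤ) : Act (KT (D.cr ρ) κ) D.dbl.Rep := D.dbl.aN.res (D.iK ρ)

/-- `U` is an open invariant part of `Xs` in which the stratum of `ρ` is closed -/
structure Step (ν : I → ℤ) (ρ : Option P → ℤ) (U : Set D.dbl.Rep) : Prop where
  bx : Bx ρ
  sub : U ⊆ D.Xs ν
  op : ∃ V, IsOpen V ∧ U = D.M0 ∩ V
  cnj : ∀ g, GU D.cl g → ∀ y ∈ U, D.dbl.cnj g y ∈ U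
  sc : ∀ (χ : E ⊕ E → ℂ) (z : ℂ), (∀ e, χ e ≠ 0) → (∀ e, χ (.inl e) * χ (.inr e) = z) →
    ∀ y ∈ U, D.dbl.sc χ y ∈ U
  eq : U ∩ D.dbl.Zr ρ = D.Sr ν ρ

/-- the codimension of the stratum -/
def cod (ρ : Option P → ℤ) : ℕ :=
  Nat.card (D.dbl.Ew ρ (Ioi 1)) - Nat.card (D.Lw ρ (Ioi 0)) - Nat.card (D.Lw ρ (Ioi 2))

/-- the model space of the stratum -/
abbrev ChA (ρ : Option P → ℤ) : Type :=
  (D.Lw ρ (Ioi 0) → ℂ) × (Fin (Nat.card (D.dbl.Ew ρ (Iic 1)) - Nat.card (D.Lw ρ (Iic 2))) → ℂ)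

end Qv

end Pool.Agent.Work.MP_849ab0_ag.G
end
end

-- merged part: Pool.Agent.Work.MP_849ab0_ag.G.H1.StA
section
/-!
Degrees: elementary facts (owner helper71).

Hints.  Use `mat_app`, `sup_mat`, `mat_ext`, `mat_cj`.  A general tool: for `f : ℤ → ℂ` put
`W f M b a = f (ρ b - ρ a) * M b a`; if `g b a ≠ 0 → ρ' b = ρ a` and the same for `g⁻¹` with `ρ`, `ρ'`
exchanged, then `W' f (g M g⁻¹) = g (W f M) g⁻¹` (expand the double sum).  The property of `g⁻¹`:
`diagonal ρ' * g = g * diagonal ρ`, hence `g⁻¹ * diagonal ρ' = diagonal ρ * g⁻¹`.  This gives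
`prd_cj` and `scl_cj`.  `MFil ρ ρ i A → MFil ρ ρ j B → mpt ρ (i + j) (A * B) = mpt ρ i A * mpt ρ j B`
gives `gu_mpt` (`MFil.inv`) and `gr_cj` (this is `mpt_mul`).
`scl_eq`: `cj_diag`.  `cj_mem_Zr`: `exists_kp` for `g * k`.  `isClosed_Zr`: projection along the compact
set `isCompact_KU` (sequences, or `IsCompact.isClosedMap`-type lemma); `x ∈ Zr` iff `cnj kᴴ x ∈ El`.
-/

noncomputable section

set_option linter.unusedSectionVars false
set_option linter.unusedVariables false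

namespace Pool.Agent.Work.MP_849ab0_ag.G

open Set Topology Matrix

theorem mpt_mul {J : Type} [Fintype J] [DecidableEq J] {ρ : J → ℤ} {i j : ℤ} {A B : Matrix J J ℂ}
    (h1 : MFil ρ ρ i A) (h2 : MFil ρ ρ j B) : mpt ρ (i + j) (A * B) = mpt ρ i A * mpt ρ j B := by
  ext b a
  simp only [mpt, of_apply, mul_apply]
  have h0 : (if ρ b - ρ a = i + j then ∑ c, A b c * B c a else 0) =
      ∑ c, if ρ b - ρ a = i + j then A b c * B c a else 0 := by split_ifs <;> simp
  rw [h0]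
  refine Finset.sum_congr rfl fun c _ => ?_
  by_cases c1 : ρ c + i < ρ b
  · simp [h1 b c c1]
  by_cases c2 : ρ a + j < ρ c
  · simp [h2 c a c2]
  by_cases c3 : ρ b - ρ a = i + j
  · rw [if_pos c3, if_pos (by omega), if_pos (by omega)]
  · by_cases c4 : ρ b - ρ c = i
    · rw [if_neg c3, if_neg (show ¬ρ c - ρ a = j by omega), mul_zero]
    · rw [if_neg c3, if_neg c4, zero_mul]

/-- multiplication of the entries by a function of the degree -/
def StA_W {J : Type} (ρ : J → ℤ) (f : ℤ → ℂ) (M : Matrix J J ℂ) : Matrix J J ℂ :=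
  Matrix.of fun b a => f (ρ b - ρ a) * M b a

theorem StA_W_cj {J : Type} [Fintype J] {ρ ρ' : J → ℤ} {g h : Matrix J J ℂ}
    (hg : ∀ b a, ρ' b ≠ ρ a → g b a = 0) (hh : ∀ b a, ρ b ≠ ρ' a → h b a = 0) (f : ℤ → ℂ)
    (M : Matrix J J ℂ) : StA_W ρ' f (g * M * h) = g * StA_W ρ f M * h := by
  ext b a
  simp only [StA_W, of_apply, mul_apply, Finset.mul_sum, Finset.sum_mul]
  refine Finset.sum_congr rfl fun d _ => Finset.sum_congr rfl fun c _ => ?_
  by_cases c1 : ρ' b = ρ c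
  · by_cases c2 : ρ d = ρ' a
    · rw [c1, c2]
      ring
    · rw [hh d a c2, mul_zero, mul_zero, mul_zero]
  · simp only [hg b c c1, zero_mul, mul_zero]

theorem StA_inv {J C : Type} [Fintype J] [DecidableEq J] {c : J → C} {ρ ρ' : J → ℤ}
    {g : Matrix J J ℂ} (h1 : GU c g) (hg : ∀ b a, ρ' b ≠ ρ a → g b a = 0) (b a : J)
    (h : ρ b ≠ ρ' a) : g⁻¹ b a = 0 := by
  have e1 : diagonal (fun o => (ρ' o : ℂ)) * g = g * diagonal fun o => (ρ o : ℂ) := by
    ext b a
    rw [diagonal_mul, mul_diagonal]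
    by_cases c1 : ρ' b = ρ a
    · rw [c1, mul_comm]
    · rw [hg b a c1, mul_zero, zero_mul]
  have e2 : g⁻¹ * diagonal (fun o => (ρ' o : ℂ)) = diagonal (fun o => (ρ o : ℂ)) * g⁻¹ := by
    calc g⁻¹ * diagonal (fun o => (ρ' o : ℂ))
        = g⁻¹ * (diagonal (fun o => (ρ' o : ℂ)) * g) * g⁻¹ := by
          rw [Matrix.mul_assoc, Matrix.mul_assoc, h1.mul_inv, Matrix.mul_one]
      _ = _ := by rw [e1, ← Matrix.mul_assoc, h1.inv_mul, Matrix.one_mul]
  have e3 := congrFun (congrFun e2 b) a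
  rw [diagonal_mul, mul_diagonal, mul_comm] at e3
  exact (mul_eq_mul_right_iff.1 e3).resolve_left fun e => h (Int.cast_injective e).symm

theorem StA_one {J C : Type} [Fintype J] [DecidableEq J] {c : J → C} {ρ : J → ℤ}
    {g : Matrix J J ℂ} (h1 : GU c g) (h2 : MFil ρ ρ 0 g) : mpt ρ 0 g * mpt ρ 0 g⁻¹ = 1 := by
  rw [← mpt_mul h2 h2.inv, h1.mul_inv]
  ext b a
  by_cases h : b = a
  · subst h
    simp [mpt]
  · simp [mpt, h]

namespace Qv

variable {I P E κ : Type} [Fintype I] [DecidableEq I] [Fintype P] [DecidableEq P] [Fintype E]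
  [Fintype κ] [DecidableEq κ] {D : Qv I P E κ}
  {ν : I → ℤ} {ρ ρ' : Option P → ℤ} {g k ξ : Mt P}

variable {x y : D.Rep} {s : Set ℤ}

theorem mem_Ed : y ∈ D.Ed ρ s ↔ ∀ p, D.dgr ρ p ∉ s → y p = 0 := Iff.rfl

theorem StA_mat {m : E → Mt P} (h : ∀ p : D.Wt, y p = m p.1.1 p.1.2.2 p.1.2.1) (hm : D.Sup m)
    (e : E) : D.mat y e = m e := by
  have h1 : y = D.unmat m := funext h
  rw [h1, mat_unmat hm]

theorem StA_w (f : ℤ → ℂ) (y : D.Rep) (e : E) :
    D.mat (fun p => f (D.dgr ρ p) * y p) e = StA_W ρ f (D.mat y e) :=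
  StA_mat (m := fun e => StA_W ρ f (D.mat y e))
    (fun p => congrArg (f (D.dgr ρ p) * ·) (mat_app y p).symm)
    (fun e b a h => (congrArg (f (ρ b - ρ a) * ·) (sup_mat y e b a h)).trans (mul_zero _)) e

theorem StA_cj (h1 : GU D.cl g) (h2 : ∀ b a, ρ' b ≠ ρ a → g b a = 0) (f : ℤ → ℂ) (y : D.Rep) :
    (fun p => f (D.dgr ρ' p) * D.cnj g y p) = D.cnj g fun p => f (D.dgr ρ p) * y p :=
  mat_ext fun e => by
    rw [StA_w, mat_cj h1.grd, mat_cj h1.grd, StA_w, StA_W_cj h2 (StA_inv h1 h2)]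

theorem StA_prd (y : D.Rep) :
    D.prd ρ s y = fun p => s.indicator (fun _ => (1 : ℂ)) (D.dgr ρ p) * y p :=
  funext fun p => by
    by_cases h : D.dgr ρ p ∈ s
    · rw [indicator_of_mem h, one_mul, prd, if_pos h]
    · rw [indicator_of_notMem h, zero_mul, prd, if_neg h]

theorem mem_Ed_mat : y ∈ D.Ed ρ s ↔ ∀ e b a, ρ b - ρ a ∉ s → D.mat y e b a = 0 := by
  refine ⟨fun h e b a hs => ?_, fun h p hp => (mat_app y p).symm.trans (h _ _ _ hp)⟩
  by_cases c : a.map D.col = D.src e ∧ b.map D.col = D.tgt e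
  · exact (mat_app y ⟨(e, a, b), c⟩).trans (h _ hs)
  · exact sup_mat y e b a c

theorem mem_Ed_Iic {m : ℤ} : y ∈ D.Ed ρ (Iic m) ↔ ∀ e, MFil ρ ρ m (D.mat y e) := by
  rw [mem_Ed_mat]
  refine forall₃_congr fun e b a => imp_congr_left ?_
  rw [mem_Iic]
  omega

theorem Ed_mono {s' : Set ℤ} (h : s ⊆ s') (hy : y ∈ D.Ed ρ s) : y ∈ D.Ed ρ s' := by
  exact fun p hp => hy p fun c => hp (h c)

theorem isClosed_Ed : IsClosed (D.Ed ρ s : Set D.Rep) := by
  have h : (D.Ed ρ s : Set D.Rep) = ⋂ p, ⋂ _ : D.dgr ρ p ∉ s, {y : D.Rep | y p = 0} := by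
    ext y
    simp only [mem_iInter]
    rfl
  rw [h]
  exact isClosed_iInter fun p => isClosed_iInter fun _ =>
    isClosed_eq (continuous_apply p) continuous_const

theorem prd_mem (y : D.Rep) : D.prd ρ s y ∈ D.Ed ρ s := by
  exact fun p hp => if_neg hp

theorem prd_of_mem (hy : y ∈ D.Ed ρ s) : D.prd ρ s y = y := by
  funext p
  by_cases h : D.dgr ρ p ∈ s
  · exact if_pos h
  · exact (if_neg h).trans (hy p h).symm

theorem prd_add (x y : D.Rep) : D.prd ρ s (x + y) = D.prd ρ s x + D.prd ρ s y := by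
  funext p
  simp only [StA_prd, Pi.add_apply, mul_add]

theorem prd_smul (z : ℂ) (y : D.Rep) : D.prd ρ s (z • y) = z • D.prd ρ s y := by
  funext p
  simp only [StA_prd, Pi.smul_apply, smul_eq_mul]
  ring

theorem prd_sc (χ : E → ℂ) (y : D.Rep) : D.prd ρ s (D.sc χ y) = D.sc χ (D.prd ρ s y) := by
  funext p
  simp only [StA_prd, sc]
  ring

theorem continuous_prd : Continuous (D.prd ρ s) := by
  rw [funext (StA_prd (D := D) (ρ := ρ) (s := s))]
  exact continuous_pi fun p => continuous_const.mul (continuous_apply p)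

theorem mat_prd (d : ℤ) (y : D.Rep) (e : E) : D.mat (D.prd ρ {d} y) e = mpt ρ d (D.mat y e) := by
  rw [StA_prd, StA_w]
  ext b a
  by_cases h : ρ b - ρ a = d <;> simp [StA_W, mpt, h]

theorem sc_mem_Ed (χ : E → ℂ) (hy : y ∈ D.Ed ρ s) : D.sc χ y ∈ D.Ed ρ s := by
  exact fun p hp => (congrArg (χ p.1.1 * ·) (hy p hp)).trans (mul_zero _)

/-- `g` maps the degree `m` part for `ρ` to the degree `m` part for `ρ'` -/
theorem prd_cj (h1 : GU D.cl g) (h2 : ∀ b a, ρ' b ≠ ρ a → g b a = 0) (y : D.Rep) :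
    D.prd ρ' s (D.cnj g y) = D.cnj g (D.prd ρ s y) := by
  rw [StA_prd, StA_prd, StA_cj h1 h2]

theorem cj_mem_Ed (h1 : GU D.cl g) (h2 : ∀ b a, ρ' b ≠ ρ a → g b a = 0) (hy : y ∈ D.Ed ρ s) :
    D.cnj g y ∈ D.Ed ρ' s := by
  rw [← prd_of_mem hy, ← prd_cj h1 h2]
  exact prd_mem _

theorem cj_mem_Iic {m : ℤ} (h1 : GU D.cl g) (h2 : MFil ρ ρ' 0 g) (h3 : MFil ρ' ρ 0 g⁻¹)
    (hy : y ∈ D.Ed ρ (Iic m)) : D.cnj g y ∈ D.Ed ρ' (Iic m) := by
  rw [mem_Ed_Iic] at hy ⊢
  intro e
  have h := (h2.mul (hy e)).mul h3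
  rwa [zero_add, add_zero, ← mat_cj h1.grd] at h

/-- the graded part of a filtered unit is a unit -/
theorem gu_mpt (h1 : GU D.cl g) (h2 : MFil ρ ρ 0 g) : GU D.cl (mpt ρ 0 g) := by
  refine ⟨fun a b h => ?_, IsUnit.of_mul_eq_one _ (StA_one h1 h2)⟩
  simp [mpt, h1.grd a b h]

theorem gr_cj (h1 : GU D.cl g) (h2 : MFil ρ ρ 0 g) (hy : y ∈ D.El ρ) :
    D.gr ρ (D.cnj g y) = D.cnj (mpt ρ 0 g) (D.gr ρ y) := by
  refine mat_ext fun e => ?_
  have h3 := mem_Ed_Iic.1 hy e
  have h4 := mpt_mul (h2.mul h3) h2.inv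
  rw [mpt_mul h2 h3, zero_add, add_zero] at h4
  rw [mat_cj (gu_mpt h1 h2).grd, mat_prd, mat_prd, mat_cj h1.grd, h4,
    inv_eq_right_inv (StA_one h1 h2)]

theorem scl_one (y : D.Rep) : D.scl ρ 1 y = y := by
  funext p
  simp [scl]

theorem scl_zero (hy : y ∈ D.El ρ) : D.scl ρ 0 y = D.gr ρ y := by
  funext p
  simp only [scl, prd, mem_singleton_iff, Complex.ofReal_zero]
  split_ifs with h
  · rw [h, sub_self, Int.toNat_zero, pow_zero, one_mul]
  · by_cases c : D.dgr ρ p ≤ 1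
    · rw [zero_pow (by omega), zero_mul]
    · rw [hy p c, mul_zero]

theorem scl_of_Eg (hy : y ∈ D.Eg ρ) (t : ℝ) : D.scl ρ t y = y := by
  funext p
  by_cases h : D.dgr ρ p = 1
  · rw [scl, h, sub_self, Int.toNat_zero, pow_zero, one_mul]
  · rw [scl, hy p h, mul_zero]

theorem scl_eq (hy : y ∈ D.El ρ) {t : ℝ} (ht : t ≠ 0) :
    D.scl ρ t y = (t : ℂ) • D.cnj (diagonal fun o => (t : ℂ) ^ (-ρ o)) y := by
  have h0 : (t : ℂ) ≠ 0 := Complex.ofReal_ne_zero.2 ht
  funext p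
  rw [Pi.smul_apply, cj_diag fun o => zpow_ne_zero _ h0, scl, smul_eq_mul]
  by_cases c : D.dgr ρ p ≤ 1
  · rw [← zpow_natCast, Int.toNat_of_nonneg (by omega), dgr, sub_sub_eq_add_sub, zpow_sub₀ h0,
      zpow_add₀ h0, zpow_one, _root_.zpow_neg, _root_.zpow_neg, _root_.inv_inv]
    ring
  · rw [hy p c, mul_zero, mul_zero, mul_zero]

theorem scl_mem (t : ℝ) (hy : y ∈ D.Ed ρ s) : D.scl ρ t y ∈ D.Ed ρ s := by
  exact fun p hp => by rw [scl, hy p hp, mul_zero]

theorem gr_scl (t : ℝ) (y : D.Rep) : D.gr ρ (D.scl ρ t y) = D.gr ρ y := by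
  funext p
  simp only [scl, prd, mem_singleton_iff]
  split_ifs with h
  · rw [h, sub_self, Int.toNat_zero, pow_zero, one_mul]
  · rfl

theorem continuous_scl : Continuous fun z : ℝ × D.Rep => D.scl ρ z.1 z.2 := by
  exact continuous_pi fun p => ((Complex.continuous_ofReal.comp continuous_fst).pow _).mul
    ((continuous_apply p).comp continuous_snd)

theorem scl_cj (h1 : GU D.cl g) (h2 : Grd ρ g) (t : ℝ) (y : D.Rep) :
    D.scl ρ t (D.cnj g y) = D.cnj g (D.scl ρ t y) := by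
  exact StA_cj h1 h2 (fun d => (t : ℂ) ^ (1 - d).toNat) y

theorem stable_scl (h1 : y ∈ D.El ρ) (h2 : D.Stable ν y) (h3 : D.Stable ν (D.gr ρ y)) (t : ℝ) :
    D.Stable ν (D.scl ρ t y) := by
  by_cases ht : t = 0
  · rwa [ht, scl_zero h1]
  · have h0 : (t : ℂ) ≠ 0 := Complex.ofReal_ne_zero.2 ht
    rw [scl_eq h1 ht]
    exact (h2.cnj (GU.diag fun o => zpow_ne_zero _ h0)).smul h0

theorem El_sub_Zr (hy : y ∈ D.El ρ) : y ∈ D.Zr ρ := by
  exact ⟨1, KU.one, y, hy, (cj_one y).symm⟩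

/-- `G · E (ρ) = K · E (ρ)` -/
theorem cj_mem_Zr (h1 : GU D.cl g) (hy : y ∈ D.Zr ρ) : D.cnj g y ∈ D.Zr ρ := by
  obtain ⟨k, hk, x, hx, rfl⟩ := hy
  obtain ⟨k', p, a1, a2, a3, a4⟩ := exists_kp ρ (h1.mul hk.gu)
  exact ⟨k', a1, D.cnj p x, cj_mem_Iic a2 a3 a3.inv hx, by
    rw [← cj_mul h1 hk.gu, a4, cj_mul a1.gu a2]⟩

theorem sc_mem_Zr (χ : E → ℂ) (hy : y ∈ D.Zr ρ) : D.sc χ y ∈ D.Zr ρ := by
  obtain ⟨k, hk, x, hx, rfl⟩ := hy
  exact ⟨k, hk, D.sc χ x, sc_mem_Ed χ hx, (cj_sc k χ x).symm⟩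

theorem isClosed_Zr : IsClosed (D.Zr ρ) := by
  have h1 : ∀ x k, KU D.cl k → D.unmat (fun e => kᴴ * D.mat x e * k) = D.cnj k⁻¹ x :=
    fun x k hk => by rw [cnj, hk.gu.inv_inv, hk.inv_eq]
  have h2 : Continuous fun z : D.Rep × Mt P => D.unmat fun e => z.2ᴴ * D.mat z.1 e * z.2 :=
    continuous_unmat.comp (continuous_pi fun e => (continuous_snd.matrix_conjTranspose.matrix_mul
      ((cont_mat e).comp continuous_fst)).matrix_mul continuous_snd)
  refine isOpen_compl_iff.1 (isOpen_iff_mem_nhds.2 fun x hx => ?_)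
  have h3 := (isCompact_KU (c := D.cl)).eventually_forall_of_forall_eventually (x₀ := x)
    (P := fun x k => D.unmat (fun e => kᴴ * D.mat x e * k) ∉ D.El ρ) fun k hk =>
      ((isClosed_Ed (ρ := ρ) (s := Iic 1)).preimage h2).isOpen_compl.mem_nhds fun h =>
        hx ⟨k, hk, _, h, (cj_inv' (KU.gu hk) x).symm.trans (congrArg _ (h1 x k hk).symm)⟩
  filter_upwards [h3] with z hz
  rintro ⟨k, hk, w, hw, rfl⟩
  refine hz k hk ?_
  rwa [h1 _ k hk, cj_inv hk.gu]

theorem grd_lmat (η : D.Lw ρ s → ℂ) : Grd D.cl (D.lmat η) := by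
  exact grd_hat.2 fun a b h => dif_neg fun c => h c.1

theorem lmat_none (η : D.Lw ρ s → ℂ) : D.lmat η none none = 0 := rfl

theorem lmat_apply (η : D.Lw ρ s → ℂ) (z : D.Lw ρ s) : D.lmat η (some z.1.1) (some z.1.2) = η z := by
  exact dif_pos z.2

theorem lmat_deg (η : D.Lw ρ s → ℂ) {b a : Option P} (h : ρ b - ρ a ∉ s) : D.lmat η b a = 0 := by
  rcases b with _ | b <;> rcases a with _ | a
  · rfl
  · rfl
  · rfl
  · exact dif_neg fun c => h c.2

theorem exists_lmat (h1 : Grd D.cl ξ) (h2 : ξ none none = 0)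
    (h3 : ∀ b a, ρ b - ρ a ∉ s → ξ b a = 0) : ∃ η : D.Lw ρ s → ℂ, D.lmat η = ξ := by
  refine ⟨fun z => ξ (some z.1.1) (some z.1.2), ?_⟩
  ext (_ | b) (_ | a)
  · exact h2.symm
  · exact (h1 none (some a) (by simp)).symm
  · exact (h1 (some b) none (by simp)).symm
  · by_cases c : D.col b = D.col a ∧ ρ (some b) - ρ (some a) ∈ s
    · exact lmat_apply _ ⟨(b, a), c⟩
    · refine (dif_neg c).trans ?_
      rcases not_and_or.1 c with c | c
      · exact (h1 (some b) (some a) fun e => c (Option.some.inj e)).symm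
      · exact (h3 _ _ c).symm

/-- elements of `K_ρ × T` -/
theorem aR_act (u : (KT (D.cr ρ) κ).H) (y : D.dbl.Rep) : (D.aR ρ).act u y =
    D.dbl.sc (fun e => chr (D.dbl.t e) u.2) (D.dbl.cnj (hat 1 u.1.1.1) y) := rfl

theorem ku_iK (u : Ub (D.cr ρ)) : KU D.cl (hat 1 u.1.1) ∧ Grd ρ (hat 1 u.1.1) := by
  refine ⟨ku_hat.2 ⟨(ku_Ub u).grd.mono fun a b e => congrArg Prod.fst e, (ku_Ub u).uni⟩, ?_⟩
  rintro (_ | a) (_ | b) h
  · exact absurd rfl h
  · rfl
  · rfl
  · exact u.2 a b fun e => h (congrArg Prod.snd e)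

theorem mem_range_iK (u : (KT D.col κ).H) (h : Grd ρ (hat 1 u.1.1.1)) : ∃ v, D.iK ρ v = u := by
  refine ⟨(⟨u.1.1, fun a b c => ?_⟩, u.2), rfl⟩
  by_cases e : D.col a = D.col b
  · exact h (some a) (some b) fun e' => c (Prod.ext e e')
  · exact u.1.2 a b e

end Qv

end Pool.Agent.Work.MP_849ab0_ag.G
end
end

-- merged part: Pool.Agent.Work.MP_849ab0_ag.G.H1.StOrd
section
/-!
The canonical filtration is unique (owner helper71).

Hints.  `ord`: replace `g` by `(g none none)⁻¹ • g` (`cj_smul`, `MFil.smul`).  For `s ≥ 0` put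
`T s = dg fun o => exp (s * ρ o)`, `T' s` likewise, `g s = T' s * g * (T s)⁻¹`, `t = exp (-s)`.  By
`scl_eq`, `cnj (g s) (scl ρ t y) = scl ρ' t (cnj g y)`, whose `nsq` is at most `nsq (cnj g y)`, and
`lth (g s) = s * wtZ ρ' + lth g - s * wtZ ρ ≤ lth g` (`lth_mul`, `lth_exp`).  Apply `kn_proper` to the
compact set `C = (scl ρ · y) '' Icc 0 1` (`stable_scl`): the entries `exp (s (ρ' b - ρ a)) g b a` of
`g s` and those of `(g s)⁻¹ = T s * g⁻¹ * (T' s)⁻¹` are bounded for all `s ≥ 0`.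
`wtZ_eq`: `dg ρ' = k * dg ρ * kᴴ`, `wtr_conj`, `wtr_dg`.  `ord_le`: otherwise `ord_ku` and `wtZ_eq`.
-/

noncomputable section

set_option linter.unusedSectionVars false
set_option linter.unusedVariables false

namespace Pool.Agent.Work.MP_849ab0_ag.G

open Set Topology Matrix

/-- the one-parameter group of a type -/
def stoT {J : Type} [DecidableEq J] (ρ : J → ℤ) (s : ℝ) : Matrix J J ℂ :=
  dg fun o => Real.exp (s * ρ o)

theorem stoT_mul {J : Type} [Fintype J] [DecidableEq J] (ρ : J → ℤ) (s : ℝ) :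
    stoT ρ (-s) * stoT ρ s = 1 := by
  rw [stoT, stoT, spec_dg_mul, ← spec_dg_one]
  congr 1
  funext a
  rw [← Real.exp_add, neg_mul, neg_add_cancel, Real.exp_zero]

theorem stoT_mul' {J : Type} [Fintype J] [DecidableEq J] (ρ : J → ℤ) (s : ℝ) :
    stoT ρ s * stoT ρ (-s) = 1 := mul_eq_one_comm.1 (stoT_mul ρ s)

theorem stoT_apply {J : Type} [Fintype J] [DecidableEq J] (r r' : J → ℤ) (s : ℝ)
    (g : Matrix J J ℂ) (b a : J) :
    (stoT r' s * g * stoT r (-s)) b a = (Real.exp (s * ((r' b : ℝ) - r a)) : ℝ) * g b a := by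
  rw [stoT, stoT, dg, dg, mul_diagonal, diagonal_mul, mul_right_comm, ← Complex.ofReal_mul,
    ← Real.exp_add]
  congr 3
  ring

theorem sto_entry {J : Type} [Fintype J] [DecidableEq J] (g : Matrix J J ℂ) (b a : J) :
    ‖g b a‖ ^ 2 ≤ fsq g := by
  refine le_trans ?_ (Finset.single_le_sum (f := fun b => ∑ a, ‖g b a‖ ^ 2)
    (fun b _ => by positivity) (Finset.mem_univ b))
  exact Finset.single_le_sum (f := fun a => ‖g b a‖ ^ 2) (fun a _ => by positivity)
    (Finset.mem_univ a)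

theorem sto_bdd {J : Type} [Fintype J] [DecidableEq J] {r r' : J → ℤ} {g : Matrix J J ℂ} {R : ℝ}
    (h : ∀ s : ℝ, 0 ≤ s → fsq (stoT r' s * g * stoT r (-s)) ≤ R) : MFil r r' 0 g := by
  intro b a hlt
  by_contra h0
  have hp : 0 < ‖g b a‖ ^ 2 := by positivity
  have hR : 0 ≤ R := (fsq_nonneg _).trans (h 0 le_rfl)
  have h1 : (1 : ℝ) ≤ (r' b : ℝ) - r a := by
    have : (1 : ℤ) ≤ r' b - r a := by omega
    exact_mod_cast this
  have hs : 0 ≤ R / ‖g b a‖ ^ 2 := by positivity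
  have h2 := (sto_entry _ b a).trans (h _ hs)
  rw [stoT_apply, norm_mul, Complex.norm_real, Real.norm_of_nonneg (Real.exp_nonneg _),
    mul_pow] at h2
  have h3 : R / ‖g b a‖ ^ 2 + 1 ≤ Real.exp (R / ‖g b a‖ ^ 2 * ((r' b : ℝ) - r a)) :=
    le_trans (by nlinarith) (Real.add_one_le_exp _)
  have h4 : R / ‖g b a‖ ^ 2 + 1 ≤ Real.exp (R / ‖g b a‖ ^ 2 * ((r' b : ℝ) - r a)) ^ 2 := by
    nlinarith
  have h5 := mul_le_mul_of_nonneg_right h4 hp.le
  rw [add_mul, div_mul_cancel₀ _ hp.ne'] at h5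
  linarith

namespace Qv

variable {I P E κ : Type} [Fintype I] [DecidableEq I] [Fintype P] [DecidableEq P] [Fintype E]
  [Fintype κ] [DecidableEq κ] {D : Qv I P E κ}
  {ν : I → ℤ} {ρ ρ' : Option P → ℤ} {g k ξ : Mt P}

variable {x y : D.Rep}

theorem sto_gu (ρ : Option P → ℤ) (s : ℝ) : GU D.cl (stoT ρ s) := kn2_gu _

theorem sto_scl (h1 : y ∈ D.El ρ) (s : ℝ) :
    D.scl ρ (Real.exp (-s)) y = ((Real.exp (-s) : ℝ) : ℂ) • D.cnj (stoT ρ s) y := by
  rw [scl_eq h1 (Real.exp_ne_zero _), stoT, dg]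
  congr 3
  funext o
  rw [← Complex.ofReal_zpow, ← Real.rpow_intCast, ← Real.exp_mul]
  congr 2
  push_cast
  ring

theorem sto_lth (ρ : Option P → ℤ) (s : ℝ) : D.lth ν (stoT ρ s) = s * D.wtZ ν ρ := by
  rw [stoT, lth_exp, wtZ]
  push_cast
  rw [Finset.mul_sum]
  refine Finset.sum_congr rfl fun o _ => ?_
  rw [th]
  ring

theorem sto_nsq {t : ℝ} (h0 : 0 ≤ t) (h1 : t ≤ 1) (y : D.Rep) : nsq (D.scl ρ t y) ≤ nsq y := by
  refine Finset.sum_le_sum fun p _ => ?_
  refine pow_le_pow_left₀ (norm_nonneg _) ?_ 2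
  rw [scl, norm_mul, norm_pow, Complex.norm_real, Real.norm_of_nonneg h0]
  exact mul_le_of_le_one_left (norm_nonneg _) (pow_le_one₀ h0 h1)

theorem sto_ord (h0 : ρ none = ρ' none) (h1 : y ∈ D.El ρ) (h2 : D.Stable ν y)
    (h3 : D.Stable ν (D.gr ρ y)) (hg : GU D.cl g) (hn : g none none = 1) (h4 : D.cnj g y ∈ D.El ρ')
    (h5 : D.wtZ ν ρ' ≤ D.wtZ ν ρ) : MFil ρ ρ' 0 g ∧ MFil ρ' ρ 0 g⁻¹ := by
  have hC : IsCompact ((fun t : ℝ => D.scl ρ t y) '' Icc 0 1) :=
    isCompact_Icc.image (continuous_scl.comp (continuous_id.prodMk continuous_const))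
  have hS : (fun t : ℝ => D.scl ρ t y) '' Icc 0 1 ⊆ D.St ν := by
    rintro _ ⟨t, -, rfl⟩
    exact stable_scl h1 h2 h3 t
  obtain ⟨R, hR⟩ := kn_proper hC hS (D.psi ν g y)
  have key : ∀ s : ℝ, 0 ≤ s → fsq (stoT ρ' s * g * stoT ρ (-s)) ≤ R ∧
      fsq (stoT ρ' s * g * stoT ρ (-s))⁻¹ ≤ R := by
    intro s hs
    have u1 : GU D.cl (stoT ρ' s * g) := (sto_gu ρ' s).mul hg
    have u2 : GU D.cl (stoT ρ' s * g * stoT ρ (-s)) := u1.mul (sto_gu ρ (-s))
    have t0 : 0 ≤ Real.exp (-s) := Real.exp_nonneg _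
    have t1 : Real.exp (-s) ≤ 1 := Real.exp_le_one_iff.2 (by linarith)
    refine hR _ u2 ?_ _ ⟨Real.exp (-s), ⟨t0, t1⟩, rfl⟩ ?_
    · rw [stoT_apply, hn, h0]
      simp
    · have e1 : D.cnj (stoT ρ' s * g * stoT ρ (-s)) (D.scl ρ (Real.exp (-s)) y) =
          D.scl ρ' (Real.exp (-s)) (D.cnj g y) := by
        rw [sto_scl h1, sto_scl h4, cj_smul', ← cj_mul u2 (sto_gu ρ s), Matrix.mul_assoc, stoT_mul,
          Matrix.mul_one, cj_mul (sto_gu ρ' s) hg]
      have e2 := sto_nsq (ρ := ρ') t0 t1 (D.cnj g y)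
      have e3 : (D.wtZ ν ρ' : ℝ) ≤ D.wtZ ν ρ := by exact_mod_cast h5
      have e4 := mul_le_mul_of_nonneg_left e3 hs
      simp only [psi]
      rw [e1, lth_mul u1 (sto_gu ρ (-s)), lth_mul (sto_gu ρ' s) hg, sto_lth, sto_lth]
      linarith
  refine ⟨sto_bdd fun s hs => (key s hs).1, sto_bdd (R := R) fun s hs => ?_⟩
  have e : (stoT ρ' s * g * stoT ρ (-s))⁻¹ = stoT ρ s * g⁻¹ * stoT ρ' (-s) := by
    refine Matrix.inv_eq_right_inv ?_
    calc _ = stoT ρ' s * (g * (stoT ρ (-s) * stoT ρ s) * g⁻¹) * stoT ρ' (-s) := by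
          simp only [Matrix.mul_assoc]
      _ = 1 := by rw [stoT_mul, Matrix.mul_one, hg.mul_inv, Matrix.mul_one, stoT_mul']
  rw [← e]
  exact (key s hs).2

/-- ORD -/
theorem ord (h0 : ρ none = ρ' none) (h1 : y ∈ D.El ρ) (h2 : D.Stable ν y)
    (h3 : D.Stable ν (D.gr ρ y)) (hg : GU D.cl g) (h4 : D.cnj g y ∈ D.El ρ')
    (h5 : D.wtZ ν ρ' ≤ D.wtZ ν ρ) : MFil ρ ρ' 0 g ∧ MFil ρ' ρ 0 g⁻¹ := by
  have hz : g none none ≠ 0 := hg.none_ne
  have hz' : (g none none)⁻¹ ≠ 0 := inv_ne_zero hz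
  have hu : GU D.cl ((g none none)⁻¹ • g) := by
    rw [smul_eq_diagonal_mul]
    exact (GU.diag fun _ => hz').mul hg
  obtain ⟨a1, a2⟩ := sto_ord h0 h1 h2 h3 hu (by simp [hz]) (by rwa [cj_smul hz' hg]) h5
  rw [matB_inv_smul hz' hg] at a2
  constructor
  · simpa [smul_smul, hz] using a1.smul (g none none)
  · simpa [smul_smul, hz] using a2.smul (g none none)⁻¹

theorem ord_ku (h0 : ρ none = ρ' none) (h1 : y ∈ D.El ρ) (h2 : D.Stable ν y)
    (h3 : D.Stable ν (D.gr ρ y)) (hk : KU D.cl k) (h4 : D.cnj k y ∈ D.El ρ')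
    (h5 : D.wtZ ν ρ' ≤ D.wtZ ν ρ) : ∀ b a, ρ' b ≠ ρ a → k b a = 0 := by
  obtain ⟨a1, a2⟩ := ord h0 h1 h2 h3 hk.gu h4 h5
  rw [hk.inv_eq] at a2
  intro b a hne
  rcases lt_or_gt_of_ne hne with h | h
  · have := a2 a b (by omega)
    rwa [conjTranspose_apply, star_eq_zero] at this
  · exact a1 b a (by omega)

theorem wtZ_eq (hk : KU D.cl k) (h : ∀ b a, ρ' b ≠ ρ a → k b a = 0) :
    D.wtZ ν ρ' = D.wtZ ν ρ := by
  have e1 : dg (fun o => (ρ' o : ℝ)) * k = k * dg fun o => (ρ o : ℝ) := by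
    ext b a
    rw [dg, dg, diagonal_mul, mul_diagonal]
    by_cases h1 : ρ' b = ρ a
    · rw [h1, mul_comm]
    · rw [h b a h1, mul_zero, zero_mul]
  have e2 : dg (fun o => (ρ' o : ℝ)) = k * dg (fun o => (ρ o : ℝ)) * kᴴ := by
    rw [← e1, Matrix.mul_assoc, hk.uni', Matrix.mul_one]
  have e3 := wtr_conj (θ := D.th ν) th_cl hk (dg fun o => (ρ o : ℝ))
  rw [← e2, wtr_dg, wtr_dg] at e3
  simp only [th] at e3
  unfold wtZ
  exact_mod_cast e3

theorem ord_le (h0 : ρ none = ρ' none) (h1 : y ∈ D.El ρ) (h2 : D.Stable ν y)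
    (h3 : D.Stable ν (D.gr ρ y)) (h4 : y ∈ D.Zr ρ') : D.wtZ ν ρ ≤ D.wtZ ν ρ' := by
  obtain ⟨k, hk, y', hy', e⟩ := h4
  have e1 : D.cnj kᴴ y = y' := by rw [e, ← hk.inv_eq, cj_inv hk.gu]
  by_contra hlt
  have h5 := not_le.1 hlt
  exact h5.ne (wtZ_eq hk.adj (ord_ku h0 h1 h2 h3 hk.adj (e1 ▸ hy') h5.le))

end Qv

end Pool.Agent.Work.MP_849ab0_ag.G
end
end

-- merged part: Pool.Agent.Work.MP_849ab0_ag.G.H1.Reg
section
/-!
For a regular character the stable locus in `μ⁻¹(0)` does not change under the perturbation.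

Hints for `stable_of_pert`.  Let `y ∈ M0` be `pert ν`-stable, `θ = th ν`.  For a preserved `Q` with
`IsPr.wtr_int`: if `none ∉ S` then `wtr θ Q < 0`; if `none ∈ S` then `wtr θ Q ≤ 0`.  Suppose
`wtr θ Q = 0` for some preserved `Q ≠ 1` with `Q none none = 1`; take such a `Q` with maximal trace
(finitely many values) and conjugate by `K` (`coord`, `Stable.cnj`, `M0_cj`) so that `Q = prS S`.
Put `R = 1 - Q = prS T`, `T = Sᶜ ⊆ some '' T'`, `y_e' = R y_e R`.  Brick: a graded `ξ = R ξ R`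
commuting with all `y_e'` is a multiple of `R` (eigenvalue `λ` of the block on `T`; `piso` for
`ξ - λ R`: `1 - Q₁` and `Q + Q₂` are preserved by `y` and contain the framing vector; if
`ξ ≠ λ R` both are strictly between `Q` and `1`, so have negative weight by maximality, but
`wtr (1 - Q₁) + wtr (Q + Q₂) = 0`).  Count: `σ : L → F`, `σ ξ = (y_e' ξ - ξ y_e')`,
`τ : F → L`, `τ ψ = ∑ (y_l ψ_r + ψ_l y_r - y_r ψ_l - ψ_r y_l)`, `τ σ = 0` as `R μ R = 0`,
`dim ker σ = 1`, `rank τ = rank σ` (adjoint for the trace pairing: `tr (η τ ψ)` vanishes for all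
`ψ` iff `σ η = 0`), so `2 (dim L - 1) ≤ dim F`; `dim L = ∑ mlt ^ 2`, `dim F = 2 ∑ mlt mlt`.
This contradicts `Reg` for `T'`.
-/

noncomputable section

set_option linter.unusedSectionVars false
set_option linter.unusedVariables false

namespace Pool.Agent.Work.MP_849ab0_ag.G

open Set Matrix
open scoped ComplexOrder

section general

variable {J C E : Type} [Fintype J] [DecidableEq J] [Fintype E] {c : J → C} {θ : J → ℝ}
  {Q ξ η : Matrix J J ℂ} {Y : E → Matrix J J ℂ}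

/-- `Q` is maximal among the preserved subspaces of weight `0` -/
structure RegMax (c : J → C) (θ : J → ℝ) (Y : E → Matrix J J ℂ) (Q : Matrix J J ℂ) : Prop where
  col : ∀ a b, c a = c b → θ a = θ b
  sum : ∑ a, θ a = 0
  pr : IsPr c Q
  wt : wtr θ Q = 0
  pres : ∀ e, Pres Q (Y e)
  max : ∀ Q', IsPr c Q' → (∀ e, Pres Q' (Y e)) → Q' * Q = Q → Q' ≠ Q → Q' ≠ 1 → wtr θ Q' < 0

/-- endomorphisms of the quotient by `Q` -/
structure RegEnd (c : J → C) (Y : E → Matrix J J ℂ) (Q ξ : Matrix J J ℂ) : Prop where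
  grd : Grd c ξ
  left : Q * ξ = 0
  right : ξ * Q = 0
  comm : ∀ e, (1 - Q) * Y e * ξ = ξ * ((1 - Q) * Y e)

theorem RegMax.ker (h : RegMax c θ Y Q) (hη : RegEnd c Y Q η) : η = 0 ∨ ∃ ζ, 1 - Q = ζ * η := by
  obtain ⟨Q₁, Q₂, ζ₁, ζ₂, p1, p2, e1, e2, e3, e4, -, -, hw⟩ := piso hη.grd
  by_cases h0 : Q₁ = 0
  · exact Or.inl (by rw [← e1, h0, mul_zero])
  by_cases h1 : 1 - Q₁ = Q
  · exact Or.inr ⟨ζ₁, by rw [← h1, sub_sub_cancel, e2]⟩
  exfalso
  have a1 : Q * Q₂ = 0 := by rw [e4, ← mul_assoc, hη.left, zero_mul]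
  have a2 : Q₂ * Q = 0 := by
    rw [← h.pr.1, ← p2.1, ← conjTranspose_mul, a1, conjTranspose_zero]
  have a3 : ∀ e, η * Y e = (1 - Q) * Y e * η := fun e => by
    rw [hη.comm, ← mul_assoc, mul_sub, hη.right, mul_one, sub_zero]
  have b1 := h.max (1 - Q₁) p1.compl (fun e => by
    rw [Pres, sub_sub_cancel]
    nth_rewrite 1 [e2]
    rw [mul_assoc ζ₁, a3, mul_assoc ζ₁, mul_assoc _ η, mul_sub, e1, mul_one, sub_self, mul_zero,
      mul_zero]) (by rw [sub_mul, e2, mul_assoc, hη.right, mul_zero, one_mul, sub_zero]) h1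
    fun e => h0 (sub_eq_self.1 e)
  have b2 : wtr θ (Q + Q₂) ≤ 0 := by
    by_cases c1 : Q + Q₂ = Q
    · rw [c1, h.wt]
    by_cases c2 : Q + Q₂ = 1
    · rw [c2, wtr_one, h.sum]
    refine (h.max _ ⟨by rw [conjTranspose_add, h.pr.1, p2.1], ?_, Grd.add h.pr.2.2 p2.2.2⟩
      (fun e => ?_) (by rw [add_mul, a2, h.pr.2.1, add_zero]) c1 c2).le
    · rw [add_mul, mul_add, mul_add, a1, a2, h.pr.2.1, p2.2.1, add_zero, zero_add]
    · have c3 : 1 - (Q + Q₂) = (1 - Q₂) * (1 - Q) := by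
        rw [mul_sub, mul_one, sub_mul, a2, one_mul, sub_zero]
        abel
      have c4 : (1 - Q) * Y e * Q₂ = η * ((1 - Q) * Y e * ζ₂) := by
        rw [← mul_assoc η, ← hη.comm, mul_assoc _ η, ← e4]
      rw [Pres, c3, mul_assoc (1 - Q₂), mul_assoc (1 - Q₂), mul_add, h.pres e, zero_add, c4,
        ← mul_assoc, sub_mul, e3, one_mul, sub_self, zero_mul]
  rw [wtr_sub, wtr_one, h.sum, hw θ h.col] at b1
  rw [wtr_add, h.wt] at b2
  linarith

theorem RegMax.brick (h : RegMax c θ Y Q) (hξ : RegEnd c Y Q ξ) {v : J → ℂ} (hv : v ≠ 0)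
    (hq : Q *ᵥ v = 0) : ∃ z : ℂ, ξ = z • (1 - Q) := by
  have : Nontrivial (LinearMap.ker (mulVecLin Q)) :=
    ⟨⟨⟨v, hq⟩, 0, fun e => hv (congrArg Subtype.val e)⟩⟩
  obtain ⟨z, hz⟩ := Module.End.exists_eigenvalue ((mulVecLin ξ).restrict
    (p := LinearMap.ker (mulVecLin Q)) (q := LinearMap.ker (mulVecLin Q)) fun w _ => by
      rw [LinearMap.mem_ker, mulVecLin_apply, mulVecLin_apply, mulVec_mulVec, hξ.left, zero_mulVec])
  obtain ⟨⟨w, hw⟩, h1⟩ := hz.exists_hasEigenvector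
  have h2 : ξ *ᵥ w = z • w := congrArg Subtype.val h1.apply_eq_smul
  have h3 : (1 - Q) *ᵥ w = w := by
    rw [sub_mulVec, one_mulVec, show Q *ᵥ w = 0 from hw, sub_zero]
  have h4 : Q * (1 - Q) = 0 := by rw [mul_sub, h.pr.2.1, mul_one, sub_self]
  have h5 : (1 - Q) * Q = 0 := by rw [sub_mul, h.pr.2.1, one_mul, sub_self]
  rcases h.ker (η := ξ - z • (1 - Q)) ⟨hξ.grd.sub (Grd.smul z h.pr.compl.2.2),
    by rw [mul_sub, hξ.left, Matrix.mul_smul, h4, smul_zero, sub_zero],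
    by rw [sub_mul, hξ.right, Matrix.smul_mul, h5, smul_zero, sub_zero], fun e => by
      rw [mul_sub, sub_mul ξ, hξ.comm, Matrix.mul_smul, Matrix.smul_mul, ← mul_assoc (1 - Q),
        h.pr.compl.2.1, mul_sub, h.pres e, mul_one, sub_zero]⟩ with e | ⟨ζ, e⟩
  · exact ⟨z, sub_eq_zero.1 e⟩
  · refine absurd (Subtype.ext ?_) h1.2
    change w = 0
    rw [← h3, e, ← mulVec_mulVec, sub_mulVec, smul_mulVec, h2, h3, sub_self, mulVec_zero]

theorem reg_orth {A B : E → Matrix J J ℂ} (h0 : ∑ e, (A e * B e - B e * A e) = 0)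
    (h1 : ∀ e, (A e * ξ - ξ * A e) + ((B e)ᴴ * η - η * (B e)ᴴ) = 0)
    (h2 : ∀ e, (B e * ξ - ξ * B e) + (-(A e)ᴴ * η - η * -(A e)ᴴ) = 0) (e : E) :
    A e * ξ - ξ * A e = 0 ∧ B e * ξ - ξ * B e = 0 := by
  have h3 : ∑ e, (fsq (A e * ξ - ξ * A e) + fsq (B e * ξ - ξ * B e)) = 0 := by
    have h : ∀ X Y : Matrix J J ℂ, trace (X * (ηᴴ * Y)) = trace (ηᴴ * (Y * X)) := fun X Y => by
      rw [trace_mul_comm, mul_assoc]
    apply Complex.ofReal_injective
    rw [Complex.ofReal_zero, ← trace_zero J ℂ, ← mul_zero (ξ * ηᴴ - ηᴴ * ξ), ← h0, Finset.mul_sum,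
      trace_sum, Complex.ofReal_sum]
    refine Finset.sum_congr rfl fun e _ => ?_
    rw [Complex.ofReal_add, fsq_eq, fsq_eq]
    nth_rewrite 1 [eq_neg_of_add_eq_zero_left (h1 e), eq_neg_of_add_eq_zero_left (h2 e)]
    simp only [conjTranspose_neg, conjTranspose_sub, conjTranspose_mul, conjTranspose_conjTranspose,
      neg_mul, mul_neg, mul_sub, sub_mul, trace_sub, trace_neg, mul_assoc, h (A e), h (B e), h ξ]
    ring
  have h4 := (Finset.sum_eq_zero_iff_of_nonneg fun e _ =>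
    add_nonneg (fsq_nonneg _) (fsq_nonneg _)).1 h3 e (Finset.mem_univ _)
  rwa [add_eq_zero_iff_of_nonneg (fsq_nonneg _) (fsq_nonneg _), fsq_eq_zero, fsq_eq_zero] at h4

/-- the commutator with `M` -/
def regC (M : Matrix J J ℂ) : Matrix J J ℂ →ₗ[ℂ] Matrix J J ℂ :=
  LinearMap.mulLeft ℂ M - LinearMap.mulRight ℂ M

/-- matrices with entries indexed by `L` -/
def regX {L : Type} (ι : L → J × J) : (L → ℂ) →ₗ[ℂ] Matrix J J ℂ where
  toFun f := Matrix.of fun a b => Function.ExtendByZero.linearMap ℂ ι f (a, b)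
  map_add' f g := by rw [map_add]; rfl
  map_smul' z f := by rw [map_smul]; rfl

theorem regX_apply {L : Type} {ι : L → J × J} (h : Function.Injective ι) (f : L → ℂ) (p : L) :
    regX ι f (ι p).1 (ι p).2 = f p := h.extend_apply f 0 p

theorem regX_zero {L : Type} {ι : L → J × J} (f : L → ℂ) {a b : J} (h : ∀ p, ι p ≠ (a, b)) :
    regX ι f a b = 0 := Function.extend_apply' f (0 : J × J → ℂ) (a, b) (not_exists.2 h)

theorem reg_left {S : Finset J} : prS S * ξ = 0 ↔ ∀ a ∈ S, ∀ b, ξ a b = 0 := by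
  simp [prS, ← Matrix.ext_iff, forall_comm (α := J) (β := _ ∈ S)]

theorem reg_right {S : Finset J} : ξ * prS S = 0 ↔ ∀ b ∈ S, ∀ a, ξ a b = 0 := by
  simp only [prS, ← Matrix.ext_iff, mul_diagonal]
  rw [forall_comm]
  simp [forall_comm (α := J) (β := _ ∈ S)]

end general

namespace Qv

variable {I P E κ : Type} [Fintype I] [DecidableEq I] [Fintype P] [DecidableEq P] [Fintype E]
  [Fintype κ] [DecidableEq κ] {D : Qv I P E κ}
  {g h k ξ : Mt P} {x y : D.Rep} {ν : I → ℤ} {χ : E → ℂ}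

theorem reg_count {y : D.dbl.Rep} (h0 : y ∈ D.M0) {S : Finset (Option P)} (hS : none ∈ S)
    {t : Option P} (ht : t ∉ S) {θ : Option P → ℝ} (h : RegMax D.cl θ (D.dbl.mat y) (prS S))
    {T : Finset P} (hT : ∀ a, a ∈ T ↔ some a ∉ S) :
    ∑ i, D.mlt T (some i) ^ 2 - ∑ e, D.mlt T (D.src e) * D.mlt T (D.tgt e) ≤ 1 := by
  classical
  set Q : Mt P := prS S with hQ
  have hb : ∀ ξ, RegEnd D.cl (D.dbl.mat y) Q ξ → ξ t t = 0 → ξ = 0 := fun ξ hξ e => by
    obtain ⟨z, rfl⟩ := h.brick hξ (v := Pi.single t 1) (by simp) (by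
      funext a
      by_cases e : a = t <;> simp [hQ, prS, mulVec_diagonal, e, ht])
    obtain rfl : z = 0 := by simpa [hQ, prS, ht] using e
    exact zero_smul _ _
  let Fb : Option I → Type := fun o => T.filter fun a => some (D.col a) = o
  let ι : (Σ i : I, Fb (some i) × Fb (some i)) → Option P × Option P :=
    fun p => (some p.2.1.1, some p.2.2.1)
  have hι : Function.Injective ι := by
    rintro ⟨i, ⟨a, ha⟩, b, hb⟩ ⟨j, ⟨a', ha'⟩, b', hb'⟩ e
    obtain ⟨rfl, rfl⟩ : a = a' ∧ b = b' := by simpa [ι] using e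
    obtain rfl : i = j :=
      Option.some_injective _ ((Finset.mem_filter.1 ha).2.symm.trans (Finset.mem_filter.1 ha').2)
    rfl
  have hX : ∀ f, Grd D.cl (regX ι f) ∧ Q * regX ι f = 0 ∧ regX ι f * Q = 0 := fun f =>
    ⟨fun a b hab => regX_zero f fun p e => hab (by
      obtain ⟨rfl, rfl⟩ := Prod.mk.inj e
      exact (Finset.mem_filter.1 p.2.1.2).2.trans (Finset.mem_filter.1 p.2.2.2).2.symm),
    reg_left.2 fun a ha b => regX_zero f fun p e =>
      (hT _).1 (Finset.mem_filter.1 p.2.1.2).1 ((Prod.mk.inj e).1 ▸ ha),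
    reg_right.2 fun b hb a => regX_zero f fun p e =>
      (hT _).1 (Finset.mem_filter.1 p.2.2.2).1 ((Prod.mk.inj e).2 ▸ hb)⟩
  let m : E ⊕ E → Mt P := fun e => (1 - Q) * D.dbl.mat y e
  let m' : E ⊕ E → Mt P := Sum.elim (fun e => (m (.inr e))ᴴ) fun e => -(m (.inl e))ᴴ
  have s1 : D.dbl.Sup m := by
    simpa only [mul_one] using (sup_mat y).mul h.pr.compl.2.2 Grd.one
  have s2 : D.dbl.Sup m' := by
    rintro (e | e) b a hab
    · exact star_eq_zero.2 (s1 (.inr e) a b fun h => hab h.symm)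
    · exact neg_eq_zero.2 (star_eq_zero.2 (s1 (.inl e) a b fun h => hab h.symm))
  have l1 : ∀ e, Q * m e = 0 := fun e => by
    rw [← mul_assoc, mul_sub, h.pr.2.1, mul_one, sub_self, zero_mul]
  have r1 : ∀ e, m e * Q = 0 := h.pres
  have l2 : ∀ e, Q * m' e = 0 ∧ m' e * Q = 0 := by
    rintro (e | e) <;> simp only [m', Sum.elim_inl, Sum.elim_inr, mul_neg, neg_mul, neg_eq_zero] <;>
      rw [← h.pr.1, ← conjTranspose_mul, ← conjTranspose_mul, l1, r1, conjTranspose_zero] <;>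
      exact ⟨rfl, rfl⟩
  have hμ : ∑ e, (m (.inl e) * m (.inr e) - m (.inr e) * m (.inl e)) = 0 := by
    rw [← mul_zero (1 - Q), ← mem_M0.1 h0, mu, Finset.mul_sum]
    refine Finset.sum_congr rfl fun e _ => ?_
    have a : ∀ e e', m e * m e' = (1 - Q) * (D.dbl.mat y e * D.dbl.mat y e') := fun e e' => by
      rw [← mul_assoc, mul_sub (m e), r1, mul_one, sub_zero, ← mul_assoc]
    rw [a, a, mul_sub]
  let Φ := LinearMap.prod (LinearMap.pi fun p : Σ e : E ⊕ E, Fb (D.dbl.src e) × Fb (D.dbl.tgt e) =>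
    entryLinearMap ℂ ℂ (some p.2.2.1) (some p.2.1.1) ∘ₗ
      LinearMap.coprod (regC (m p.1) ∘ₗ regX ι) (regC (m' p.1) ∘ₗ regX ι))
    ((entryLinearMap ℂ ℂ t t ∘ₗ regX ι).prodMap (entryLinearMap ℂ ℂ t t ∘ₗ regX ι))
  have hΦ : Function.Injective Φ := by
    refine (injective_iff_map_eq_zero Φ).2 ?_
    rintro ⟨f, g⟩ e
    obtain ⟨x1, x2, x3⟩ := hX f
    obtain ⟨y1, y2, y3⟩ := hX g
    have e1 : ∀ e, (m e * regX ι f - regX ι f * m e) + (m' e * regX ι g - regX ι g * m' e) = 0 := by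
      have s3 : ∀ {n ξ}, D.dbl.Sup n → Grd D.cl ξ → D.dbl.Sup fun e => n e * ξ - ξ * n e :=
        fun hn hξ => by simpa only [one_mul, mul_one] using (hn.mul .one hξ).sub (hn.mul hξ .one)
      intro e'
      ext b a
      by_cases c1 : b ∈ S
      · refine reg_left.1 ?_ b c1 a
        simp only [← hQ, mul_add, mul_sub, ← mul_assoc, l1, l2, x2, y2, zero_mul, sub_self, add_zero]
      by_cases c2 : a ∈ S
      · refine reg_right.1 ?_ a c2 b
        simp only [← hQ, add_mul, sub_mul, mul_assoc, r1, l2, x3, y3, mul_zero, sub_self, add_zero]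
      by_cases c3 : a.map D.col = D.dbl.src e' ∧ b.map D.col = D.dbl.tgt e'
      · obtain _ | a := a
        · exact absurd hS c2
        obtain _ | b := b
        · exact absurd hS c1
        exact congrFun (congrArg Prod.fst e) ⟨e', ⟨a, Finset.mem_filter.2 ⟨(hT a).2 c2, c3.1⟩⟩,
          b, Finset.mem_filter.2 ⟨(hT b).2 c1, c3.2⟩⟩
      · exact (s3 s1 x1).add (s3 s2 y1) e' b a c3
    have e2 := reg_orth hμ (fun e => e1 (.inl e)) fun e => e1 (.inr e)
    have e3 : regX ι f = 0 := hb _ ⟨x1, x2, x3, by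
      rintro (e | e)
      exacts [sub_eq_zero.1 (e2 e).1, sub_eq_zero.1 (e2 e).2]⟩ (congrArg (·.2.1) e)
    simp only [e3, mul_zero, zero_mul, sub_self, zero_add, sub_eq_zero] at e1
    have e4 : (regX ι g)ᴴ = 0 := hb _ ⟨y1.adj,
      by rw [← h.pr.1, ← conjTranspose_mul, y3, conjTranspose_zero],
      by rw [← h.pr.1, ← conjTranspose_mul, y2, conjTranspose_zero], by
        rintro (e | e)
        · simpa [m'] using congrArg conjTranspose (e1 (.inr e)).symm
        · simpa [m'] using congrArg conjTranspose (e1 (.inl e)).symm⟩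
      (star_eq_zero.2 (congrArg (·.2.2) e))
    rw [conjTranspose_eq_zero] at e4
    exact Prod.ext (funext fun p => (regX_apply hι f p).symm.trans (by rw [e3]; rfl))
      (funext fun p => (regX_apply hι g p).symm.trans (by rw [e4]; rfl))
  have hd := LinearMap.finrank_le_finrank_of_injective hΦ
  simp only [Module.finrank_prod, Module.finrank_fintype_fun_eq_card, Module.finrank_self,
    Fintype.card_sigma, Fintype.card_prod, Fb, Fintype.card_coe] at hd
  zify at hd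
  simp only [← mlt.eq_1 D T, Fintype.sum_sum_type, Sum.elim_inl, Sum.elim_inr, ← sq,
    mul_comm (D.mlt T (D.tgt _))] at hd
  linarith

/-- coordinate subspaces that destabilise a point of the perturbed stable locus -/
def RegBad (D : Qv I P E κ) (ν : I → ℤ) (S : Finset (Option P)) (y : D.dbl.Rep) : Prop :=
  y ∈ D.M0 ∧ D.dbl.Stable (D.pert ν) y ∧ (∀ e, Pres (prS S) (D.dbl.mat y e)) ∧ S ≠ ∅ ∧
    S ≠ Finset.univ ∧ 0 ≤ ∑ o ∈ S, D.th ν o

theorem reg_bad {y : D.dbl.Rep} (h0 : y ∈ D.M0) (hy : D.dbl.Stable (D.pert ν) y) {Q : Mt P}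
    (h1 : IsPr D.cl Q) (h2 : ∀ e, Pres Q (D.dbl.mat y e)) (h3 : Q ≠ 0) (h4 : Q ≠ 1)
    (h5 : 0 ≤ wtr (D.th ν) Q) : ∃ S y', D.RegBad ν S y' ∧ wtr (fun _ => 1) Q = S.card := by
  obtain ⟨k, hk, S, rfl⟩ := coord h1
  refine ⟨S, D.dbl.cnj kᴴ y, ⟨M0_cj hk.adj.gu h0, Stable.cnj (D := D.dbl) hy hk.adj.gu, fun e => ?_,
    fun e => h3 ?_, fun e => h4 ?_, ?_⟩, ?_⟩
  · have := (h2 e).conj hk.adj
    rwa [← mat_cj_ku (D := D.dbl) hk.adj, conjTranspose_conjTranspose, ← mul_assoc, ← mul_assoc,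
      hk.uni, one_mul, mul_assoc, hk.uni, mul_one] at this
  · rw [prS_eq_zero.2 e, mul_zero, zero_mul]
  · rw [prS_eq_one.2 e, mul_one, hk.uni']
  · rwa [wtr_conj th_cl hk, wtr_prS] at h5
  · rw [wtr_conj (fun _ _ _ => rfl) hk, wtr_prS, Finset.sum_const, nsmul_eq_mul, mul_one]

theorem RegBad.wt {S : Finset (Option P)} {y : D.dbl.Rep} (h : D.RegBad ν S y) :
    none ∈ S ∧ ∑ o ∈ S, D.thZ ν o = 0 := by
  obtain ⟨-, hy, h1, h2, h3, h4⟩ := h
  have h5 := Stable.coord (D := D.dbl) hy h2 h3 fun p ha hb => by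
    rw [← mat_app y p]
    exact pres_prS.1 (h1 _) _ _ ha hb
  have h6 : ∀ o, D.dbl.thZ (D.pert ν) o = ((Fintype.card P : ℤ) + 1) * D.thZ ν o +
      (1 - if o = none then (Fintype.card P : ℤ) + 1 else 0) := by
    rintro (_ | a)
    · simp [thZ, pert, Finset.sum_add_distrib, ← Finset.mul_sum]
      ring
    · simp [thZ, pert]
  have h7 : 0 ≤ ∑ o ∈ S, D.thZ ν o := by
    simp only [th] at h4
    exact_mod_cast h4
  simp only [h6, Finset.sum_add_distrib, Finset.sum_sub_distrib, ← Finset.mul_sum,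
    Finset.sum_ite_eq', Finset.sum_const, nsmul_eq_mul, mul_one] at h5
  have h8 : (0 : ℤ) ≤ S.card := Nat.cast_nonneg _
  have h9 : (0 : ℤ) ≤ Fintype.card P := Nat.cast_nonneg _
  split_ifs at h5 with h
  · exact ⟨h, by nlinarith⟩
  · nlinarith

theorem stable_of_pert (hν : D.Reg ν) {y : D.dbl.Rep} (h0 : y ∈ D.M0)
    (hy : D.dbl.Stable (D.pert ν) y) : D.dbl.Stable ν y := by
  classical
  refine (stable_iff (D := D.dbl)).2 fun Q h1 h2 h3 h4 => lt_of_not_ge fun h5 => ?_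
  obtain ⟨S₀, y₀, hb, -⟩ := reg_bad h0 hy h1 h2 h3 h4 h5
  obtain ⟨S, ⟨y, hS⟩, hm⟩ := Set.exists_max_image {S | ∃ y, D.RegBad ν S y} Finset.card
    (Set.toFinite _) ⟨S₀, y₀, hb⟩
  obtain ⟨a1, a2⟩ := hS.wt
  obtain ⟨b1, b2, b3, b4, b5, -⟩ := hS
  obtain ⟨t, ht⟩ : ∃ t, t ∉ S := not_forall.1 fun e => b5 (Finset.eq_univ_of_forall e)
  have hT : ∀ a : P, a ∈ Finset.univ.filter (fun a => some a ∉ S) ↔ some a ∉ S := by simp
  have hc : Sᶜ = (Finset.univ.filter fun a => some a ∉ S).map Function.Embedding.some := by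
    ext (_ | a) <;> simp [a1]
  refine hν _ ?_ (reg_count b1 a1 ht (θ := D.th ν) ⟨th_cl, sum_th, isPr_prS S, ?_, b3,
    fun Q' c1 c2 c3 c4 c5 => lt_of_not_ge fun c6 => c4 ?_⟩ hT) ?_
  · obtain _ | t := t
    exacts [absurd a1 ht, ⟨t, (hT t).2 ht⟩]
  · rw [wtr_prS]
    simp only [th]
    exact_mod_cast a2
  · obtain ⟨S', y', d1, d2⟩ := reg_bad b1 b2 c1 c2
      (fun e => b4 (prS_eq_zero.1 (by rw [← c3, e, zero_mul]))) c5 c6
    refine (isPr_prS S).eq_of_le c1 c3 ?_
    rw [d2, wtr_prS, Finset.sum_const, nsmul_eq_mul, mul_one]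
    exact_mod_cast hm S' ⟨y', d1⟩
  · have := Finset.sum_add_sum_compl S (D.thZ ν)
    rwa [sum_thZ, a2, zero_add, hc, Finset.sum_map] at this

theorem xs_pert (hν : D.Reg ν) : D.Xs (D.pert ν) = D.Xs ν :=
  Set.ext fun _ => ⟨fun h => ⟨h.1, stable_of_pert hν h.1 h.2⟩, fun h => ⟨h.1, h.2.pert⟩⟩

end Qv

end Pool.Agent.Work.MP_849ab0_ag.G
end
end
end

-- merged part: Pool.Agent.Work.MP_849ab0_ag.G.Goal
section
/-! The target statement. -/

noncomputable section

namespace Pool.Agent.Work.MP_849ab0_ag.G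

open Set

/-- The full statement. -/
def Goal2 : Prop :=
  ∀ {k n : ℕ} {E κ : Type} [Fintype E] [Fintype κ] [DecidableEq κ]
    (D : Qv (Fin k) (Fin n) E κ) (ν : Fin k → ℤ), D.Reg ν →
    Function.Bijective (D.dsc ν) ∧
      ∃ (A : Type) (_ : Ring A) (ι : D.Io A) (Φ : A → D.HM ν), D.IsBFN ι ∧ D.IsHik ι ν Φ

end Pool.Agent.Work.MP_849ab0_ag.G
end
end
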