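import Pool.Agent.Work.MP_849ab0_ag.G.C.CFib
import Pool.Agent.Work.MP_849ab0_ag.G.C.Comb

-- merged part: Pool.Agent.Work.MP_849ab0_ag.G.C.Inj
section
-- merged part: Pool.Agent.Work.MP_849ab0_ag.G.C.Ct
section
/-!
Task C-Ct. Formal properties of the coefficients ct, ctT; compatibility with incl; the class cst.
Plan: unfold, ptc_* with fx_PD. ctT_gp: gp_comp. ct_eq: gp_comp. ct_sm: gp_sm, pol2_lam, ptc_pm.
ct_incl: push_loc with θ = D.ic, x₀ = 0, w = wE k, e = eD k, r = pD k, T = box P k (padm_incl, aE_ic, upE_ex0, upE_prj, ex0_pD, pD_inj);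
remove the outer gp id id by gp_comp. If ν is not in box (k + 1) both sides vanish (box_mono).
ct_cst: DI P 0 is empty, box P 0 = {0}; use ptc_iff with O = univ, eul_isEmpty, sm_eone ({pD 0 0} = univ as sets).
-/

noncomputable section

set_option linter.unusedSectionVars false
set_option linter.unusedVariables false

namespace Pool.Agent.Work.MP_849ab0_ag.G

open Set Topology Matrix

variable {I P E κ : Type} [Fintype I] [DecidableEq I] [Fintype P] [DecidableEq P] [Fintype E]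
  [Fintype κ] [DecidableEq κ] (D : Qv I P E κ)

namespace Qv

variable {k : ℕ} {μ : P → ℤ} {Z Z' : Set (En P k × D.NO)}

theorem ctT_out (h : μ ∉ box P k) (y : EH (D.tX k) univ Z) : D.ctT k μ y = 0 := if_neg h

theorem ctT_add (x y : EH (D.tX k) univ Z) : D.ctT k μ (x + y) = D.ctT k μ x + D.ctT k μ y := by
  unfold ctT
  split_ifs with h
  · rw [map_add, ptc_add (D.fx_PD k) ⟨μ, h, rfl⟩]
  · exact (add_zero _).symm

theorem ctT_zero : D.ctT k μ (0 : EH (D.tX k) univ Z) = 0 := by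
  unfold ctT
  split_ifs with h
  · rw [map_zero, ptc_zero (D.fx_PD k) ⟨μ, h, rfl⟩]
  · rfl

theorem ctT_sum {ι : Type} (s : Finset ι) (x : ι → EH (D.tX k) univ Z) :
    D.ctT k μ (∑ i ∈ s, x i) = ∑ i ∈ s, D.ctT k μ (x i) := by
  unfold ctT
  split_ifs with h
  · simp only [map_sum, ptc_sum (D.fx_PD k) ⟨μ, h, rfl⟩]
  · exact Finset.sum_const_zero.symm

theorem ctT_pm (h : (D.tX k).Pr univ Z) (e : Z ⊆ D.RR k) (f : PL P κ) (y : EH (D.tX k) univ Z) :
    D.ctT k μ (pm f y) = f * D.ctT k μ y := by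
  unfold ctT
  split_ifs with hμ
  · rw [locT, gp_pm_id (D.gadm_jD h e), ptc_pm (D.fx_PD k) ⟨μ, hμ, rfl⟩]
  · exact (mul_zero _).symm

theorem ctT_gp (h : (D.tX k).Pr univ Z) (h' : (D.tX k).Pr univ Z') (e : Z ⊆ D.RR k) (e' : Z' ⊆ Z)
    (y : EH (D.tX k) univ Z') : D.ctT k μ (gp (D.tX k) id id univ Z y) = D.ctT k μ y := by
  unfold ctT locT
  rw [gp_comp (gadm_id h' h subset_rfl (inter_subset_right.trans e')) (D.gadm_jD h e) (χ := id)
    (fun _ => rfl) (k := D.jD k) fun _ _ => rfl]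

theorem ctT_supp (h : (D.tX k).Pr univ Z) (e : Z ⊆ D.RR k) (hμ : (pjL k μ, 0) ∉ Z)
    (y : EH (D.tX k) univ Z) : D.ctT k μ y = 0 := by
  unfold ctT
  split_ifs with hb
  · have h1 : (wr (D.wD k)).Pr univ (D.jD k ⁻¹' Z) :=
      h.preimage (φ := id) (D.continuous_jD k) (D.jD_eqv k)
    have h2 : D.jD k ⁻¹' Z ⊆ PD P k := fun d hd => D.jD_RR.1 (e hd)
    have h3 : GAdm (wr (D.wD k)) (D.tX k) id (D.jD k) univ (D.jD k ⁻¹' Z) univ Z :=
      ⟨h1, h, (D.continuous_jD k).continuousOn, fun g d _ => D.jD_eqv k g d, fun _ _ => trivial,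
        fun _ _ m => m⟩
    rw [locT, ← gp_comp h3 (gadm_id h1 (D.fx_PD k).pr subset_rfl (inter_subset_right.trans h2))
      (χ := id) (fun _ => rfl) (k := D.jD k) fun _ _ => rfl]
    refine ptc_supp (D.fx_PD k) ⟨μ, hb, rfl⟩ h2 (fun m => hμ ?_) _
    rwa [mem_preimage, jD, ex0_pD] at m
  · rfl

theorem ctT_deg (h : (D.tX k).Pr univ Z) (e : Z ⊆ D.RR k) {m : ℤ} {y : EH (D.tX k) univ Z}
    (hy : IsDeg (m + 2 * Fintype.card (DI P k)) y) : IsDeg m (pol2 P κ (D.ctT k μ y)) := by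
  unfold ctT
  split_ifs with hb
  · exact ptc_deg (D.fx_PD k) ⟨μ, hb, rfl⟩ (hy.gp _ _)
  · rw [map_zero]
    exact isDeg_zero

theorem ct_gadm (h : (D.aX k).Pr univ Z) (e : Z ⊆ D.RR k) :
    GAdm (wr (D.wD k)) (D.aX k) D.ic (D.jD k) univ (PD P k) univ Z :=
  (D.gadm_rT h).comp (D.gadm_jD (h.res _) e)

theorem ct_eq (h : (D.aX k).Pr univ Z) (e : Z ⊆ D.RR k) (hμ : μ ∈ box P k) (a : D.HR k Z) :
    D.ct k μ a = ptc (D.wD k) (pD k μ) (gp (wr (D.wD k)) D.ic (D.jD k) univ (PD P k) a) := by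
  unfold ct ctT locT rT
  rw [if_pos hμ, gp_comp (D.gadm_rT h) (D.gadm_jD (h.res _) e) (χ := D.ic) (fun _ => rfl)
    (k := D.jD k) fun _ _ => rfl]

theorem ct_out (h : μ ∉ box P k) (a : D.HR k Z) : D.ct k μ a = 0 := if_neg h

theorem ct_add (x y : D.HR k Z) : D.ct k μ (x + y) = D.ct k μ x + D.ct k μ y := by
  rw [ct, map_add, ctT_add, ct, ct]

theorem ct_zero : D.ct k μ (0 : D.HR k Z) = 0 := by
  rw [ct, map_zero, ctT_zero]

theorem ct_sum {ι : Type} (s : Finset ι) (x : ι → D.HR k Z) :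
    D.ct k μ (∑ i ∈ s, x i) = ∑ i ∈ s, D.ct k μ (x i) := by
  simp only [ct, map_sum, ctT_sum]

theorem ct_gp (h : (D.aX k).Pr univ Z) (h' : (D.aX k).Pr univ Z') (e : Z ⊆ D.RR k) (e' : Z' ⊆ Z)
    (a : D.HR k Z') : D.ct k μ (gp (D.aX k) id id univ Z a) = D.ct k μ a := by
  have e2 : univ ∩ Z' ⊆ Z := inter_subset_right.trans e'
  rw [ct, ct, ← D.ctT_gp (h.res _) (h'.res _) e e', rT, rT,
    gp_comp (gadm_id h' h subset_rfl e2) (D.gadm_rT h) (χ := D.ic) (fun _ => rfl) (k := id)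
      fun _ _ => rfl,
    gp_comp (D.gadm_rT h') (gadm_id (h'.res _) (h.res _) subset_rfl e2) (χ := D.ic)
      (fun _ => rfl) (k := id) fun _ _ => rfl]

theorem ct_sm (h : (D.aX k).Pr univ Z) (e : Z ⊆ D.RR k) (c : D.HP) (a : D.HR k Z) :
    D.ct k μ (sm c a) = D.lam c * D.ct k μ a := by
  rw [ct, ct, ← D.ctT_pm (h.res _) e, rT, gp_sm (D.gadm_rT h), pm, pol2_lam]

theorem ct_incl (k : ℕ) (ν : P → ℤ) (a : D.HR k (D.RR k)) :
    D.EE k * D.ct (k + 1) ν (D.incl k a) = D.EE (k + 1) * D.ct k ν a := by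
  by_cases hν : ν ∈ box P (k + 1)
  swap
  · rw [D.ct_out hν, D.ct_out fun m => hν (box_mono k.le_succ m), mul_zero, mul_zero]
  have hu : ∀ i ∈ box P k, upE k (ex0 (eD k) (pD k i)) ∘ eD (k + 1) = pD (k + 1) i :=
    fun i hi => by rw [ex0_pD, upE_prj hi, pD]
  have key := push_loc (D.padm_incl k) (θ := D.ic) (x₀ := 0) trivial (fun g => D.aO_zero _)
    (D.aE_ic k) (D.aE_ic (k + 1)) (eD_inj k) (eD_inj (k + 1)) (D.wD_eq k) (D.wD_eq (k + 1))
    (D.fx_PD k) (D.fx_PD (k + 1)) (fun d => D.jD_RR.1) (fun d => D.jD_RR.1) (upE_ex0 k)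
    (pD_injOn k) (PD_eq k) (fun i hi => ⟨i, box_mono k.le_succ hi, hu i hi⟩)
    (gp (D.aX k) id id (univ ×ˢ univ) (D.RR k) a) ⟨ν, hν, rfl⟩
  have e1 : ∀ x : EH (D.aX (k + 1)) (univ ×ˢ univ) (D.RR (k + 1)),
      D.ct (k + 1) ν (gp (D.aX (k + 1)) id id univ (D.RR (k + 1)) x) =
      ptc (D.wD (k + 1)) (pD (k + 1) ν)
        (gp (wr (D.wD (k + 1))) D.ic (D.jD (k + 1)) univ (PD P (k + 1)) x) := fun x => by
    rw [D.ct_eq (D.pr_RR _) subset_rfl hν,
      gp_comp (gadm_id (D.pr_RR' _) (D.pr_RR _) (fun _ _ => ⟨trivial, trivial⟩) inter_subset_right)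
        (D.ct_gadm (D.pr_RR _) subset_rfl) (χ := D.ic) (fun _ => rfl) (k := D.jD (k + 1))
        fun _ _ => rfl]
  have e2 : gp (wr (D.wD k)) D.ic (D.jD k) univ (PD P k)
      (gp (D.aX k) id id (univ ×ˢ univ) (D.RR k) a) =
      gp (wr (D.wD k)) D.ic (D.jD k) univ (PD P k) a := by
    have h := D.ct_gadm (D.pr_RR k) subset_rfl
    exact gp_comp (gadm_id (D.pr_RR k) (D.pr_RR' k) (subset_univ _) inter_subset_right)
      ⟨h.src, D.pr_RR' k, h.cont, h.eqv, fun _ _ => ⟨trivial, trivial⟩, h.supp⟩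
      (fun _ => rfl) (fun _ _ => rfl) a
  refine (congrArg _ (e1 _)).trans (key.trans (congrArg _ ?_))
  rw [Finset.sum_congr rfl fun i hi => if_congr (Q := i = ν)
    (by rw [hu i hi]; exact ⟨pD_inj (box_mono k.le_succ hi) hν, fun m => m ▸ rfl⟩) rfl rfl,
    Finset.sum_ite_eq']
  split_ifs with hk
  · rw [D.ct_eq (D.pr_RR k) subset_rfl hk, ← e2]
    rfl
  · exact (D.ct_out hk a).symm

theorem ct_cst (c : D.HP) : D.ct 0 0 (D.cst c) = D.lam c := by
  have hb : (0 : P → ℤ) ∈ box P 0 := mem_box.2 fun a => by simp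
  have : IsEmpty (DI P 0) := ⟨fun z => by
    have := Finset.mem_Ico.1 z.2.1.2
    omega⟩
  have e : ({pD 0 0} : Set (DI P 0 → ℂ)) = univ := eq_univ_of_forall fun _ => Subsingleton.elim _ _
  have h1 : GAdm (D.aX 0) (Act.pt (KT D.col κ)) id (fun _ => ()) univ (D.RR 0) univ univ :=
    ⟨D.pr_RR 0, Act.pr_pt _, continuousOn_const, fun _ _ _ => rfl, fun _ _ => trivial,
      fun _ _ _ => D.RR_zero ▸ trivial⟩
  have h2 := D.ct_gadm (D.pr_RR 0) subset_rfl
  have h3 := (wr (D.wD 0)).pr_top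
  have h4 : GAdm (wr (D.wD 0)) (D.aX 0) D.ic (D.jD 0) univ univ univ (D.RR 0) :=
    h2.comp (gadm_id h2.src h3 subset_rfl inter_subset_left)
  rw [D.ct_eq (D.pr_RR 0) subset_rfl hb, ptc_iff (D.fx_PD 0) ⟨0, hb, rfl⟩ isOpen_univ
    (fun _ _ _ => trivial) trivial (fun _ _ => Subsingleton.elim _ _), e, ptl, eul_isEmpty h3, pm, sm_eone h3,
    pol2_lam, gpt_apply, cst,
    gp_comp h2 (gadm_id h2.src h3 subset_rfl inter_subset_left) (χ := D.ic) (fun _ => rfl)
      (k := D.jD 0) fun _ _ => rfl,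
    gp_comp h1 h4 (χ := D.ic) (fun _ => rfl) (k := fun _ => ()) fun _ _ => rfl,
    gp_comp (gadm_pt (Act.pr_pt _) D.ic) (gadm_pt h3 id) (χ := D.ic) (fun _ => rfl)
      (k := fun _ => ()) fun _ _ => rfl]

end Qv

end Pool.Agent.Work.MP_849ab0_ag.G
end
end

-- merged part: Pool.Agent.Work.MP_849ab0_ag.G.C.PtX
section
/-!
Task C-PtX. The class of the fibre over a fixed point.
Plan: FP k μ (jD d) = ex0 (Sum.inl ∘ eD k) (d - pD k μ), so eul_ex0 applies and eo (wV k μ) (Sum.inl ∘ eD k) = EE k * mq k μ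
(split the product over the sum type). ctT_ptX: gp_eul gives locT (ptX μ) = pm (EE * mq) (ptl (wD k) (pD k μ) univ PD); ptc_pm, ptc_ptl, pD_inj.
-/

noncomputable section

set_option linter.unusedSectionVars false
set_option linter.unusedVariables false

namespace Pool.Agent.Work.MP_849ab0_ag.G

open Set Topology Matrix

variable {I P E κ : Type} [Fintype I] [DecidableEq I] [Fintype P] [DecidableEq P] [Fintype E]
  [Fintype κ] [DecidableEq κ] (D : Qv I P E κ) {k : ℕ} {μ : P → ℤ}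

namespace Qv

theorem FP_jD (d : DI P k → ℂ) :
    D.FP k μ (D.jD k d) = ex0 (Sum.inl ∘ eD k) (d - pD k μ) := by
  funext j
  rcases j with z | q
  · change (ex0 (eD k) d - pjL k μ) z = _
    rw [← ex0_pD, ← ex0_sub (eD_inj k)]
    by_cases h : z ∈ range (eD k)
    · obtain ⟨y, rfl⟩ := h
      rw [ex0_apply (eD_inj k)]
      exact (ex0_apply (Sum.inl_injective.comp (eD_inj k)) _ y).symm
    · rw [ex0_out _ h, ex0_out]
      rintro ⟨y, e⟩
      exact h ⟨y, Sum.inl_injective e⟩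
  · refine (ex0_out _ ?_).symm
    rintro ⟨y, e⟩
    exact Sum.inl_ne_inr e

theorem eo_wV : eo (D.wV k μ) (Sum.inl ∘ eD k) = D.EE k * D.mq k μ := by
  rw [EE, mq, eo, eo, Finset.prod_filter, Finset.prod_filter, Fintype.prod_sum_type]
  congr 1
  · refine Finset.prod_congr rfl fun z _ => ?_
    by_cases h : z ∈ range (eD k)
    · rw [if_neg (not_not.2 h)]
      exact if_neg (not_not.2 (h.imp fun _ e => congrArg Sum.inl e))
    · rw [if_pos h]
      exact if_pos fun c => h (c.imp fun _ e => Sum.inl_injective e)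
  · refine Finset.prod_congr rfl fun q _ => if_pos ?_
    rintro ⟨y, e⟩
    exact Sum.inl_ne_inr e

theorem eadm_FP (h : μ ∈ box P k) : EAdm (D.tX k) (wr (D.wV k μ)) (D.FP k μ) univ (D.RR k) := by
  refine ⟨(D.pr_RR k).res _, Act.Rep.pr _, (continuous_pi ?_).continuousOn, fun g z _ => funext ?_,
    mapsTo_univ _ _, fun z _ hz => ?_⟩
  · rintro (y | q)
    · exact ((continuous_apply y).comp continuous_fst).sub continuous_const
    · exact (continuous_apply q.1.1).comp ((continuous_apply q.1.2).comp continuous_snd)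
  · rintro (y | q)
    · have e := congrFun (D.prj_fix k μ g) y
      change (D.aE k).act (D.ic g) z.1 y - pjL k μ y = ch (D.wE k y) g * (z.1 y - pjL k μ y)
      rw [aE_ic, wr_act] at e ⊢
      rw [mul_sub, e]
    · exact D.aO_ic g z.2 q.1.2 q.1.1
  · have e : z.1 = pjL k μ := funext fun y => sub_eq_zero.1 (congrFun hz (Sum.inl y))
    have := (D.prj_RR h z.2).2 fun q hq => congrFun hz (Sum.inr ⟨q, hq⟩)
    rwa [← e] at this

theorem ctT_ptX (h : μ ∈ box P k) (ν : P → ℤ) :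
    D.ctT k ν (D.ptX k μ) = if ν = μ then D.EE k * D.mq k μ else 0 := by
  by_cases hν : ν ∈ box P k
  swap
  · rw [D.ctT_out hν, if_neg fun e : ν = μ => hν (e ▸ h)]
  have hp : pD k μ ∈ PD P k := ⟨μ, h, rfl⟩
  have hq : pD k ν ∈ PD P k := ⟨ν, hν, rfl⟩
  have e : D.locT k (D.ptX k μ) =
      pm (D.EE k * D.mq k μ) (ptl (D.wD k) (pD k μ) univ (PD P k)) := by
    rw [← eo_wV]
    exact (gp_eul (D.eadm_FP h) (D.gadm_jD ((D.pr_RR k).res _) subset_rfl) (fun _ _ => rfl)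
      fun _ _ => rfl).trans (eul_ex0 (Sum.inl_injective.comp (eD_inj k)) (D.wD_eq k)
        ((D.fx_PD k).eadm hp (D.fx_PD k).pr hp) fun d _ => D.FP_jD d)
  rw [ctT, if_pos hν, e, ptc_pm (D.fx_PD k) hq, ptc_ptl (D.fx_PD k) hq hp]
  by_cases e' : ν = μ
  · rw [if_pos e', if_pos (congrArg _ e'.symm), mul_one]
  · rw [if_neg e', if_neg fun c => e' (pD_inj h hν c).symm, mul_zero]

end Qv

end Pool.Agent.Work.MP_849ab0_ag.G
end
end

-- merged part: Pool.Agent.Work.MP_849ab0_ag.G.C.CellH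
section
/-!
Task C-CellH. The leading coefficient along an open cell.
Plan: Z = ZC Λ, Z' = ZC (Λ.erase μ), O = (UC k μ \ YC (Λ.erase μ)) ×ˢ univ (open, invariant, contains Z \ Z' by gC_UC, cell_disj), W = CF → ℂ, Γ = FC ⁻¹' {0}
(closed; Γ ⊆ univ ×ˢ O; on univ ×ˢ O it is {y | y.2 ∈ Z ∧ y.1 = fC y.2.1} by FC_eq_zero, fC_gC). Let y₁ = gp id id O Z y and
c₁ = ecup (univ ×ˢ O) Γ (gp id snd y₁) (eul (fun y => y.1 - fC y.2.1)). The map y₁ ↦ c₁ is injective (thom_bij for the Fib with p = snd, F = fst - fC ∘ fst ∘ snd over O; sets up to gp_id_bij).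
By excision c₁ is the restriction of a class on univ, which is pm f (eul FC) by cell_span. If f = 0 then y₁ = 0, by excision the restriction of y to univ \ Z' vanishes, les_mid gives y'.
Pull back along d ↦ (0, jD d) on O' = jD ⁻¹' O ∩ (PD \ {pD μ})ᶜ with support {pD μ}: the left side is pm (eC) (restriction of locT y) by gp_ecup, gp_eul, ecup_eul; the right side is
pm (f * (EE * mq)) (ptl ...) by gp_eul, FC_zero, FP_jD, eul_ex0, eo_wV; ptc_iff (with f := ptc, rfl) and ptl_inj finish.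
-/

noncomputable section

set_option linter.unusedSectionVars false
set_option linter.unusedVariables false

namespace Pool.Agent.Work.MP_849ab0_ag.G

open Set Topology Matrix

variable {n : ℕ} {I E κ : Type} [Fintype I] [DecidableEq I] [Fintype E]
  [Fintype κ] [DecidableEq κ] (D : Qv I (Fin n) E κ) {k : ℕ} {μ : Fin n → ℤ} {Λ : Finset (Fin n → ℤ)}

section

variable {P : Type} [Fintype P] [DecidableEq P] {X Y : Type} [TopologicalSpace X] [T3Space X]
  [SecondCountableTopology X] [TopologicalSpace Y] [T3Space Y] [SecondCountableTopology Y]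
  {a : Act (TT P κ) X} [a.Ok] {b : Act (TT P κ) Y} [b.Ok] {J : Type} [Fintype J]
  {w : J → WT P κ} {O Z : Set X}

theorem cellh_abs {r : X → J → ℂ} {Γ : Set ((J → ℂ) × X)} (hZ : a.Pr univ Z) (hO : IsOpen O)
    (hi : a.Inv O) (hr : ContinuousOn r O)
    (he : ∀ g, ∀ x ∈ O, r (a.act g x) = (wr w).act g (r x))
    (hΓ : ((wr w).prod a).Pr univ Γ) (e : ∀ y, y ∈ Γ ↔ y.2 ∈ O ∧ y.2 ∈ Z ∧ y.1 = r y.2)
    {j : Y → X} {V W : Set Y} (k : GAdm b a id j V W O Z) (y : EH a univ Z) :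
    ∃ c : EH ((wr w).prod a) univ Γ, (c = 0 → gp a id id O Z y = 0) ∧
      gp b id (fun d => (0, j d)) V W c = pm (∏ i, lw (w i)) (gp b id j V W y) := by
  have pO := k.tgt
  let F : (J → ℂ) × X → J → ℂ := fun y => y.1 - r y.2
  have fb : Fib a ((wr w).prod a) (wr w) Prod.snd F O := ⟨continuous_snd, fun _ _ => rfl,
    continuousOn_fst.sub (hr.comp continuousOn_snd fun _ h => h),
    fun g y hy => (congrArg ((wr w).act g y.1 - ·) (he g y.2 hy)).trans
      (((instRepWr w).lin g).map_sub _ _).symm,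
    fun z => (z.2 + r z.1, z.1),
    (continuousOn_snd.add (hr.comp continuousOn_fst fun _ h => h.1)).prodMk continuousOn_fst,
    fun x _ v => ⟨rfl, add_sub_cancel_right _ _⟩,
    fun y _ => Prod.ext (sub_add_cancel _ _) rfl⟩
  have p1 : ((wr w).prod a).Pr (Prod.snd ⁻¹' O) (Prod.snd ⁻¹' Z) :=
    pO.preimage (φ := id) continuous_snd fun _ _ => rfl
  have p2 : ((wr w).prod a).Pr (Prod.snd ⁻¹' O) (F ⁻¹' {0}) :=
    (Act.Rep.pr (wr w)).preimage' (φ := id) p1 fb.contF (fun _ _ => trivial) fb.eqvF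
  have eF : EAdm ((wr w).prod a) (wr w) F (Prod.snd ⁻¹' O) (F ⁻¹' {0}) :=
    ⟨p2, Act.Rep.pr _, fb.contF, fb.eqvF, fun _ _ => trivial, fun _ _ h => h⟩
  have p3 := p1.inter p2
  have p4 := hΓ.mono p1 (subset_univ _)
  have s1 : Prod.snd ⁻¹' O ∩ (Prod.snd ⁻¹' Z ∩ F ⁻¹' {0}) ⊆ Γ := fun y h =>
    (e y).2 ⟨h.1, h.2.1, sub_eq_zero.1 h.2.2⟩
  have b1 := thom_bij fb pO
  have b2 := gp_id_bij p3 p4 (Set.ext fun y => ⟨fun h => ⟨h.1, s1 h⟩,
    fun h => ⟨h.1, ((e y).1 h.2).2.1, sub_eq_zero.2 ((e y).1 h.2).2.2⟩⟩)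
  have b3 := excision hΓ (O := Prod.snd ⁻¹' O) (Act.pr_univ _
    (isClosed_univ.sdiff (hO.preimage continuous_snd))
    ((Act.inv_univ _).diff p1.inv)) (subset_univ _) fun y h => ((e y).1 h.2).1
  have kk : ∀ {S : Set ((J → ℂ) × X)} {W' : Set Y}, ((wr w).prod a).Pr (Prod.snd ⁻¹' O) S →
      b.Pr V W' → (∀ x ∈ V, (0, j x) ∈ S → x ∈ W') →
      GAdm b ((wr w).prod a) id (fun d => (0, j d)) V W' (Prod.snd ⁻¹' O) S :=
    fun h1 h2 h3 => ⟨h2, h1, continuousOn_const.prodMk k.cont, fun g x hx =>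
      Prod.ext ((instRepWr w).lin g).map_zero.symm (k.eqv g x hx), k.maps, h3⟩
  have k1 := kk p1 k.src k.supp
  have k2 := kk p2 k.src.top fun _ _ _ => trivial
  have k3 := kk p3 k.src fun x hx h => k.supp x hx h.1
  have k4 := kk p4 k.src fun x hx h => k.supp x hx ((e _).1 h).2.1
  have ks : GAdm ((wr w).prod a) a id Prod.snd (Prod.snd ⁻¹' O) (Prod.snd ⁻¹' Z) O Z :=
    ⟨p1, pO, continuousOn_snd, fun _ _ _ => rfl, fun _ h => h, fun _ _ h => h⟩
  obtain ⟨c, hc⟩ := b3.2 (gp _ id id (Prod.snd ⁻¹' O) Γ (ecup (Prod.snd ⁻¹' O)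
    (Prod.snd ⁻¹' Z ∩ F ⁻¹' {0}) (gp ((wr w).prod a) id Prod.snd (Prod.snd ⁻¹' O) (Prod.snd ⁻¹' Z)
      (gp a id id O Z y)) (eul ((wr w).prod a) (wr w) F (Prod.snd ⁻¹' O) (F ⁻¹' {0}))))
  refine ⟨c, fun h0 => b1.1 (b2.1 ?_), ?_⟩
  · beta_reduce
    rw [← hc, h0, map_zero, map_zero, map_zero, LinearMap.zero_apply, map_zero]
  rw [← gp_comp (gadm_id hΓ p4 (subset_univ _) inter_subset_right) k4 (χ := id) (fun _ => rfl)
      (k := fun d => (0, j d)) (fun _ _ => rfl), hc,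
    gp_comp (gadm_id p3 p4 Subset.rfl s1) k4 (χ := id) (fun _ => rfl)
      (k := fun d => (0, j d)) (fun _ _ => rfl),
    gp_ecup (ecup_of p1 p2 p3 fun _ h => ⟨h.1.2, h.2⟩)
      (ecup_of k.src k.src.top k.src fun _ h => h.1.2) k3 k1 k2 Subset.rfl Subset.rfl,
    gp_eul eF k2 (σ := wr w) (fun _ _ => rfl) (F' := fun d => F (0, j d)) (fun _ _ => rfl),
    ecup_eul (F := fun d => F (0, j d)) (eF.comp k2) k.src,
    gp_comp ks k1 (χ := id) (fun _ => rfl) (k := j) (fun _ _ => rfl),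
    gp_comp (gadm_id hZ pO (subset_univ _) inter_subset_right) k (χ := id) (fun _ => rfl)
      (k := j) (fun _ _ => rfl)]

end

namespace Qv

theorem pr_ZC (h : D.Up k Λ) : (D.tX k).Pr univ (D.ZC k Λ) :=
  Act.pr_univ _ (D.isClosed_ZC h) D.inv_ZC

theorem cellh_gam (hμ : μ ∈ Λ) (h : D.Up k Λ)
    (y : (D.CF k μ → ℂ) × En (Fin n) k × D.NO) : y ∈ D.FC k μ ⁻¹' {0} ↔
      y.2 ∈ Prod.fst ⁻¹' (UC k μ \ D.YC k (Λ.erase μ)) ∧ y.2 ∈ D.ZC k Λ ∧ y.1 = D.fC k μ y.2.1 := by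
  have hb := h.1 hμ
  refine (D.FC_eq_zero hb y).trans ⟨fun ⟨e, hr⟩ => ⟨⟨e ▸ D.gC_UC _, fun ⟨ν, hν, w, e'⟩ => ?_⟩,
    ⟨hr, μ, hμ, _, e⟩, by rw [e, D.fC_gC hb]⟩, fun ⟨ho, ⟨hr, ν, hν, w, e⟩, e'⟩ => ⟨?_, hr⟩⟩
  · exact (Finset.mem_erase.1 hν).1
      (D.cell_disj hb (h.1 (Finset.mem_of_mem_erase hν)) (e.symm.trans e')).symm
  · obtain rfl : ν = μ := by_contra fun c => ho.2 ⟨ν, Finset.mem_erase.2 ⟨c, hν⟩, w, e⟩
    rw [e', e, D.fC_gC hb]

theorem cell_ct (hμ : μ ∈ Λ) (h : D.Up k Λ) (h' : D.Up k (Λ.erase μ))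
    (y : EH (D.tX k) univ (D.ZC k Λ)) :
    ∃ f, D.ctT k μ y * D.eC k μ = f * (D.EE k * D.mq k μ) ∧
      (f = 0 → ∃ y' : EH (D.tX k) univ (D.ZC k (Λ.erase μ)),
        gp (D.tX k) id id univ (D.ZC k Λ) y' = y) := by
  have hb := h.1 hμ
  have fx := D.fx_PD k
  have hp : pD k μ ∈ PD (Fin n) k := ⟨μ, hb, rfl⟩
  have hZ := D.pr_ZC h
  have hZ' := D.pr_ZC h'
  have eΓ := D.cellh_gam hμ h
  set O : Set (En (Fin n) k × D.NO) := Prod.fst ⁻¹' (UC k μ \ D.YC k (Λ.erase μ))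
  have oO : IsOpen O := ((isOpen_UC k μ).sdiff (D.isClosed_YC h')).preimage continuous_fst
  have iO : (D.tX k).Inv O := fun g z hz => D.inv_UC.diff D.inv_YC g z.1 hz
  have pO : (D.tX k).Pr O (D.ZC k Λ) :=
    Act.pr_of _ oO.isLocallyClosed iO (D.isClosed_ZC h) D.inv_ZC
  let V : Set (DI (Fin n) k → ℂ) := D.jD k ⁻¹' O ∩ (PD (Fin n) k \ {pD k μ})ᶜ
  have oV : IsOpen V := (oO.preimage (D.continuous_jD k)).inter (fx.open_nb _).1
  have iV : (wr (D.wD k)).Inv V := fun g d hd =>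
    ⟨by rw [mem_preimage, D.jD_eqv]; exact iO g _ hd.1, (fx.open_nb _).2 g d hd.2⟩
  have pV : pD k μ ∈ V := by
    refine ⟨?_, fun c => c.2 rfl⟩
    change ex0 (eD k) (pD k μ) ∈ UC k μ \ D.YC k (Λ.erase μ)
    rw [ex0_pD]
    exact ⟨D.gC_zero (k := k) (μ := μ) ▸ D.gC_UC _,
      fun c => Finset.notMem_erase _ _ ((D.prj_YC h'.1 hb).1 c)⟩
  have sV : V ∩ PD (Fin n) k ⊆ {pD k μ} := fun d hd => by_contra fun c => hd.1.2 ⟨hd.2, c⟩
  have p1 := fx.pr_one hp oV iV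
  have kj : GAdm (wr (D.wD k)) (D.tX k) id (D.jD k) V {pD k μ} O (D.ZC k Λ) :=
    ⟨p1, pO, (D.continuous_jD k).continuousOn, fun g x _ => D.jD_eqv k g x, fun _ h => h.1,
      fun d hd hz => sV ⟨hd, D.jD_RR.1 hz.1⟩⟩
  have pΓ : (D.bY k μ).Pr univ (D.FC k μ ⁻¹' {0}) :=
    (Act.Rep.pr (wr (D.wV k μ))).preimage (φ := id) D.continuous_FC D.FC_eqv
  have eF : EAdm (D.bY k μ) (wr (D.wV k μ)) (D.FC k μ) univ (D.FC k μ ⁻¹' {0}) :=
    ⟨pΓ, Act.Rep.pr _, D.continuous_FC.continuousOn, fun g y _ => D.FC_eqv g y,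
      fun _ _ => trivial, fun _ _ h => h⟩
  have k0 : GAdm (wr (D.wD k)) (D.bY k μ) id (fun d => (0, D.jD k d)) V {pD k μ} univ
      (D.FC k μ ⁻¹' {0}) :=
    ⟨p1, pΓ, continuousOn_const.prodMk kj.cont, fun g x hx =>
      Prod.ext ((instRepWr (D.wC k μ)).lin g).map_zero.symm (kj.eqv g x hx),
      fun _ _ => trivial, fun d hd hz => kj.supp d hd ((eΓ _).1 hz).2.1⟩
  have cf : ContinuousOn (fun z : En (Fin n) k × D.NO => D.fC k μ z.1) O :=
    ContinuousOn.comp (g := D.fC k μ) D.continuousOn_fC continuousOn_fst fun _ h => h.1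
  obtain ⟨c, h0, h1⟩ := cellh_abs (w := D.wC k μ) hZ oO iO cf
    (fun g x hx => D.fC_eqv hb g (Q := x.1) hx.1) pΓ eΓ kj y
  obtain ⟨f, rfl⟩ := D.cell_span hb c
  refine ⟨f, ptl_inj fx hp oV iV pV ?_, fun f0 => ?_⟩
  · rw [gp_pm_id k0, gp_eul eF k0 (σ := wr (D.wV k μ)) (fun _ _ => rfl)
        (F' := fun d => D.FC k μ (0, D.jD k d)) (fun _ _ => rfl),
      eul_ex0 (e := Sum.inl ∘ eD k) (Sum.inl_injective.comp (eD_inj k)) (w₀ := D.wD k)
        (fun z => D.wD_eq k z) (fx.eadm hp p1 rfl) (fun d _ => by rw [D.FC_zero, D.FP_jD]),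
      D.eo_wV, ← pm_mul p1] at h1
    rw [mul_comm, pm_mul p1, ctT, if_pos hb, ← (ptc_iff fx hp oV iV pV sV _ _).1 rfl, locT,
      gp_comp (D.gadm_jD hZ fun _ h => h.1) (gadm_id fx.pr p1 (subset_univ _) sV) (χ := id)
        (fun _ => rfl) (k := D.jD k) (fun _ _ => rfl)]
    exact h1.symm
  · have pU := hZ.diff hZ'
    have s1 : O ⊆ univ \ D.ZC k (Λ.erase μ) := fun z hz => ⟨trivial, fun c => hz.2 c.2⟩
    refine (les_mid hZ hZ' (fun _ h => D.ZC_mono (Finset.erase_subset _ _) h.2) y).1 ?_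
    refine (excision pU (O := O) ((Act.pr_univ _ (isClosed_univ.sdiff oO)
      ((Act.inv_univ _).diff iO)).mono pU (subset_univ _) |>.congr_mem fun z hz =>
        ⟨fun c => ⟨hz, c.2⟩, fun c => ⟨trivial, c.2⟩⟩) s1 ?_).1 ?_
    · rintro z ⟨hz, hr, ν, hν, w, e⟩
      obtain rfl : ν = μ :=
        by_contra fun c => hz.2 ⟨hr, ν, Finset.mem_erase.2 ⟨c, hν⟩, w, e⟩
      exact ⟨e ▸ D.gC_UC _, fun c => hz.2 ⟨hr, c⟩⟩
    · rw [res_res hZ pU pO (subset_univ _) inter_subset_right s1 inter_subset_right, map_zero]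
      exact h0 (by rw [f0, pm_zero])

end Qv

end Pool.Agent.Work.MP_849ab0_ag.G
end
end

-- merged part: Pool.Agent.Work.MP_849ab0_ag.G.C.Inj
section
/-!
Task C-Inj. The coefficients determine the class; the leading coefficient.
Plan: EE_ne, mq_ne: products of lw w with w.1 ≠ 0 (lw_ne); a pair outside the range of eD has different points; xm μ p > 0 forces different end points.
supp_lift: strong induction on the number of elements of Λ' \ Λ for Up Λ' with Λ ⊆ Λ' (start from ZC_box through gp_id_bij), exists_erase, cell_ct, ctT_gp, gp_comp.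
ctT_inj: Λ = ∅, ZC_empty, eq_zero_of_disjoint. ctT_lead: S = the coweights of the box with nonzero coefficient, up_erase_lex, supp_lift, cell_ct.
-/

noncomputable section

set_option linter.unusedSectionVars false
set_option linter.unusedVariables false

namespace Pool.Agent.Work.MP_849ab0_ag.G

open Set Topology Matrix

variable {n : ℕ} {I E κ : Type} [Fintype I] [DecidableEq I] [Fintype E]
  [Fintype κ] [DecidableEq κ] (D : Qv I (Fin n) E κ) {k : ℕ} {μ : Fin n → ℤ} {Λ : Finset (Fin n → ℤ)}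

theorem inj_os {o o' : Option (Fin n)} (h : os o = os o') : o = o' := by
  rcases o with _ | a <;> rcases o' with _ | b
  · rfl
  · simpa [os] using congrFun h b
  · simpa [os] using congrFun h a
  · by_contra e
    have e' : a ≠ b := fun k => e (congrArg some k)
    simpa [os, e'] using congrFun h a

namespace Qv

theorem EE_ne (k : ℕ) : D.EE k ≠ 0 := by
  refine Finset.prod_ne_zero_iff.2 fun z hz => lw_ne fun e => (@Finset.mem_filter _ _ (_) _ _ |>.1 hz).2 ?_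
  obtain ⟨⟨a, i⟩, b, j⟩ := z
  obtain rfl : a = b := Option.some.inj (inj_os (sub_eq_zero.1 e))
  exact ⟨(a, i, j), rfl⟩

theorem mq_ne (k : ℕ) (μ : Fin n → ℤ) : D.mq k μ ≠ 0 := by
  refine Finset.prod_ne_zero_iff.2 fun q _ => lw_ne fun e => ?_
  have h := (Finset.mem_filter.1 q.2).2
  rw [xm, inj_os (sub_eq_zero.1 e), sub_self] at h
  omega

theorem inj_ct (h : D.Up k Λ) (y : EH (D.tX k) univ (D.ZC k Λ)) :
    D.ctT k μ (gp (D.tX k) id id univ (D.RR k) y) = D.ctT k μ y :=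
  D.ctT_gp ((D.pr_RR k).res _) (D.pr_ZC h) subset_rfl (fun _ m => m.1) y

theorem supp_lift (h : D.Up k Λ) (y : EH (D.tX k) univ (D.RR k))
    (h0 : ∀ μ, μ ∉ Λ → D.ctT k μ y = 0) :
    ∃ y' : EH (D.tX k) univ (D.ZC k Λ), gp (D.tX k) id id univ (D.RR k) y' = y := by
  have key : ∀ Λ', D.Up k Λ' → Λ ⊆ Λ' → ∀ y' : EH (D.tX k) univ (D.ZC k Λ'),
      gp (D.tX k) id id univ (D.RR k) y' = y → ∃ y' : EH (D.tX k) univ (D.ZC k Λ),
        gp (D.tX k) id id univ (D.RR k) y' = y := by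
    intro Λ'
    induction Λ' using Finset.strongInduction with
    | H Λ' ih =>
      intro h' e y' hy
      by_cases hne : Λ = Λ'
      · subst hne
        exact ⟨y', hy⟩
      obtain ⟨μ, m1, m2, m3⟩ := D.exists_erase h h' e hne
      obtain ⟨f, f1, f2⟩ := D.cell_ct m1 h' m3 y'
      rw [← D.inj_ct h', hy, h0 μ m2, zero_mul] at f1
      obtain ⟨y'', rfl⟩ := f2 ((mul_eq_zero.1 f1.symm).resolve_right
        (mul_ne_zero (D.EE_ne k) (D.mq_ne k μ)))
      refine ih _ (Finset.erase_ssubset m1) m3 (Finset.subset_erase.2 ⟨e, m2⟩) y'' ?_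
      rw [← hy, res_res (D.pr_ZC m3) (D.pr_ZC h') ((D.pr_RR k).res _) subset_rfl
        (fun _ m => D.ZC_mono (Finset.erase_subset _ _) m.2) subset_rfl fun _ m => m.2.1]
  obtain ⟨y', hy⟩ := (gp_id_bij (D.pr_ZC D.up_box) ((D.pr_RR k).res _) (by rw [ZC_box])).2 y
  exact key _ D.up_box h.1 y' hy

theorem ctT_inj (y : EH (D.tX k) univ (D.RR k)) (h0 : ∀ μ, D.ctT k μ y = 0) : y = 0 := by
  obtain ⟨y', rfl⟩ := D.supp_lift D.up_empty y fun μ _ => h0 μ
  rw [eq_zero_of_disjoint (D.pr_ZC D.up_empty) (by rw [ZC_empty, inter_empty]) y', map_zero]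

theorem ct_inj (a : D.HR k (D.RR k)) (h0 : ∀ μ, D.ct k μ a = 0) : a = 0 :=
  res_inj (col := D.col) (G := Gp.tor κ) (c := D.aX k) (D.pr_RR k)
    ((D.ctT_inj _ h0).trans (map_zero _).symm)

theorem ctT_lead (y : EH (D.tX k) univ (D.RR k))
    (hw : ∀ μ, D.ctT k μ y ≠ 0 → ∀ w : stab D.col, D.ctT k (μ ∘ w.1.symm) y ≠ 0) {l : Fin n → ℤ}
    (hl : D.ctT k l y ≠ 0) (hm : ∀ μ, D.ctT k μ y ≠ 0 → toLex μ ≤ toLex l) :
    ∃ f, D.ctT k l y * D.eC k l = f * (D.EE k * D.mq k l) := by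
  classical
  have m : ∀ μ, μ ∈ (box (Fin n) k).filter (fun μ => D.ctT k μ y ≠ 0) ↔ D.ctT k μ y ≠ 0 :=
    fun μ => ⟨fun h => (Finset.mem_filter.1 h).2, fun h => Finset.mem_filter.2
      ⟨by_contra fun e => h (D.ctT_out e y), h⟩⟩
  obtain ⟨Λ, h1, h2, h3⟩ := D.up_erase_lex (Finset.filter_subset _ _)
    (fun μ h w => (m _).2 (hw μ ((m μ).1 h) w)) ((m l).2 hl) fun μ h => hm μ ((m μ).1 h)
  obtain ⟨y', rfl⟩ := D.supp_lift h2 y fun μ h => by_contra fun e => h (h1 ((m μ).2 e))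
  obtain ⟨f, f1, -⟩ := D.cell_ct (h1 ((m l).2 hl)) h2 h3 y'
  exact ⟨f, by rw [D.inj_ct h2, f1]⟩

end Qv

end Pool.Agent.Work.MP_849ab0_ag.G
end
end
end

-- merged part: Pool.Agent.Work.MP_849ab0_ag.G.C.Anti
section
/-!
Task C-Anti. Antisymmetrisation, and the criterion for a subring to be the Coulomb branch algebra.
Plan anti: rename w Dl = ± Dl (both are products over the unordered pairs), so q * Dl is a polynomial p for
q = the sum; q is invariant; for a transposition s = swap a b of one colour rename s Dl = - Dl, hence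
rename s p = - p and rt a b 0 ∣ p (mongood_anti in MonGood.lean); the forms rt a b 0, a < b, are pairwise non associated primes
(prime_rt, Forms_iff), so Dl ∣ p. ee_dvd_Dl: mongood_ee, up to sign a subproduct.
Plan le_Alg: bound the support by M and c (dec2_fin, exists_le as in neg_RI in ZD.lean), induct on the lexicographically largest l in
the support inside the finite set T: l is Dom by invariance (dom_of_max), g is invariant under the stabiliser of (col, l) (rename_mm, rename_ee, cancel),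
ex_two gives r in Alg Om with leading term; push it to Fr by opMap along D.lift (ak n R) (or spOp with RingHom.id); subtract.
-/

noncomputable section

set_option linter.unusedSectionVars false
set_option linter.unusedVariables false

namespace Pool.Agent.Work.MP_849ab0_ag

open MvPolynomial Finset

namespace QD

variable {k n : ℕ} {E R : Type} [Fintype E] [CommRing R] [IsDomain R] [Algebra ℚ R]
  (D : QD k n E R)

/-- the product of the positive roots -/
def Dl : Pol n R := ∏ q ∈ D.Rt with q.1 < q.2, (X q.1 - X q.2)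

theorem anti_rt (a b : Fin n) : D.rt a b 0 = X a - X b := by simp [rt]

include D in
theorem anti_prime {a b : Fin n} (h : a ≠ b) : Prime (X a - X b : Pol n R) :=
  D.anti_rt a b ▸ D.prime_rt 0 h

include D in
theorem anti_dvd {a b c d : Fin n} (h1 : a ≠ b) (h2 : c ≠ d)
    (h : (X a - X b : Pol n R) ∣ X c - X d) : (c = a ∧ d = b) ∨ (c = b ∧ d = a) := by
  have : CharZero R := algebraRat.charZero R
  let D1 : QD k n E R := ⟨D.col, D.src, D.tgt, D.t, 1⟩
  rw [← D1.anti_rt, ← D1.anti_rt] at h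
  rcases D1.rt_dvd_rt one_ne_zero h1 h2 h with e | e
  · exact Or.inl ⟨e.1, e.2.1⟩
  · exact Or.inr ⟨e.1, e.2.1⟩

theorem anti_prod_dvd {A ι : Type} [CommRing A] [IsDomain A] (s : Finset ι) (f : ι → A) (p : A)
    (h1 : ∀ i ∈ s, Prime (f i)) (h2 : ∀ i ∈ s, ∀ j ∈ s, f i ∣ f j → i = j)
    (h3 : ∀ i ∈ s, f i ∣ p) : ∏ i ∈ s, f i ∣ p := by
  classical
  induction s using Finset.induction_on with
  | empty => simp
  | insert a s ha ih =>
    obtain ⟨c, rfl⟩ := ih (fun i hi => h1 i (mem_insert_of_mem hi))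
      (fun i hi j hj => h2 i (mem_insert_of_mem hi) j (mem_insert_of_mem hj))
      fun i hi => h3 i (mem_insert_of_mem hi)
    have hp := h1 a (mem_insert_self _ _)
    rw [prod_insert ha, mul_comm]
    refine mul_dvd_mul_left _ ((hp.dvd_or_dvd (h3 a (mem_insert_self _ _))).resolve_left
      fun h => ?_)
    obtain ⟨j, hj, h⟩ := hp.exists_mem_finset_dvd h
    exact ha (h2 a (mem_insert_self _ _) j (mem_insert_of_mem hj) h ▸ hj)

theorem Dl_ne : D.Dl ≠ 0 :=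
  prod_ne_zero_iff.2 fun q hq => (D.anti_prime (mem_filter.1 hq).2.ne).ne_zero

/-- products over sets of unordered pairs are permuted up to sign -/
theorem anti_sign (w : Equiv.Perm (Fin n)) (s : Finset (Fin n × Fin n))
    (h1 : ∀ q ∈ s, q.1 < q.2)
    (h2 : ∀ a b, ((a, b) ∈ s ∨ (b, a) ∈ s) ↔ ((w a, w b) ∈ s ∨ (w b, w a) ∈ s)) :
    rename w (∏ q ∈ s, (X q.1 - X q.2) : Pol n R) = ∏ q ∈ s, (X q.1 - X q.2) ∨
      rename w (∏ q ∈ s, (X q.1 - X q.2) : Pol n R) = -∏ q ∈ s, (X q.1 - X q.2) := by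
  classical
  rw [← sq_eq_sq_iff_eq_or_eq_neg, map_prod, ← prod_pow, ← prod_pow]
  simp only [map_sub, rename_X]
  refine prod_nbij (fun q => if w q.1 < w q.2 then (w q.1, w q.2) else (w q.2, w q.1)) ?_ ?_ ?_ ?_
  · rintro ⟨a, b⟩ hq
    have k := (h2 a b).1 (Or.inl hq)
    dsimp only
    split_ifs with e
    · exact k.resolve_right fun k' => lt_asymm e (h1 _ k')
    · exact k.resolve_left fun k' => e (h1 _ k')
  · rintro ⟨a, b⟩ hq ⟨c, d⟩ hq' e
    have k := h1 _ hq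
    have k' := h1 _ hq'
    dsimp only at e k k'
    split_ifs at e <;> simp only [Prod.mk.injEq, w.injective.eq_iff] at e ⊢ <;> omega
  · rintro ⟨c, d⟩ hq
    have k := h1 _ hq
    obtain ⟨a, rfl⟩ := w.surjective c
    obtain ⟨b, rfl⟩ := w.surjective d
    rcases (h2 a b).2 (Or.inl hq) with k' | k'
    · exact ⟨(a, b), k', if_pos k⟩
    · exact ⟨(b, a), k', if_neg (lt_asymm k)⟩
  · rintro ⟨a, b⟩ hq
    dsimp only
    split_ifs
    · rfl
    · ring

theorem anti_Dl (w : stab D.col) : rename w.1 D.Dl = D.Dl ∨ rename w.1 D.Dl = -D.Dl := by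
  refine anti_sign w.1 _ (fun q hq => (mem_filter.1 hq).2) fun a b => ?_
  simp only [mem_filter, mem_Rt, w.2 a, w.2 b]
  have h1 : a = b ↔ w.1 a = w.1 b := w.1.injective.eq_iff.symm
  constructor
  · intro h
    have h2 : D.col a = D.col b := h.elim (·.1) (·.1.symm)
    have h3 : a ≠ b := h.elim (·.2.ne) (·.2.ne')
    exact (lt_or_gt_of_ne (mt h1.2 h3)).imp (⟨h2, ·⟩) (⟨h2.symm, ·⟩)
  · intro h
    have h2 : D.col a = D.col b := h.elim (·.1) (·.1.symm)
    have h3 : w.1 a ≠ w.1 b := h.elim (·.2.ne) (·.2.ne')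
    exact (lt_or_gt_of_ne (mt h1.1 h3)).imp (⟨h2, ·⟩) (⟨h2.symm, ·⟩)

include D in
theorem anti_odd {a b : Fin n} (h : a ≠ b) {p : Pol n R}
    (hp : rename (Equiv.swap a b) p = -p) : (X a - X b : Pol n R) ∣ p := by
  have : CharZero R := algebraRat.charZero R
  exact D.anti_rt a b ▸ D.mongood_anti h hp

theorem anti_swap {a b : Fin n} (h : a < b) (hc : D.col a = D.col b) :
    rename (Equiv.swap a b) D.Dl = -D.Dl := by
  refine (D.anti_Dl ⟨_, swap_mem_stab hc⟩).resolve_left fun e => ?_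
  have hm : (a, b) ∈ D.Rt.filter fun q => q.1 < q.2 := mem_filter.2 ⟨D.mem_Rt.2 hc, h⟩
  have hp := D.anti_prime h.ne
  rw [Dl, ← mul_prod_erase _ _ hm] at e
  dsimp only at e
  rw [map_mul, map_sub, rename_X, rename_X, Equiv.swap_apply_left, Equiv.swap_apply_right,
    ← neg_sub, neg_mul, neg_eq_iff_eq_neg, ← mul_neg] at e
  obtain ⟨q, hq, k⟩ := hp.exists_mem_finset_dvd
    (D.anti_odd h.ne (mul_left_cancel₀ hp.ne_zero e))
  obtain ⟨k1, k2⟩ := mem_erase.1 hq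
  have k3 := (mem_filter.1 k2).2
  rcases D.anti_dvd h.ne k3.ne k with k4 | k4
  · exact k1 (Prod.ext k4.1 k4.2)
  · rw [k4.1, k4.2] at k3
    exact lt_asymm h k3

theorem anti_Dl_dvd {p : Pol n R}
    (h : ∀ a b, a < b → D.col a = D.col b → rename (Equiv.swap a b) p = -p) : D.Dl ∣ p := by
  refine anti_prod_dvd _ _ p (fun q hq => D.anti_prime (mem_filter.1 hq).2.ne)
    (fun q hq q' hq' k => ?_) fun q hq => D.anti_odd (mem_filter.1 hq).2.ne
      (h _ _ (mem_filter.1 hq).2 (D.mem_Rt.1 (mem_filter.1 hq).1))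
  have k1 := (mem_filter.1 hq).2
  have k2 := (mem_filter.1 hq').2
  rcases D.anti_dvd k1.ne k2.ne k with k4 | k4
  · exact (Prod.ext k4.1 k4.2).symm
  · rw [k4.1, k4.2] at k2
    exact absurd k1 (lt_asymm k2)

theorem anti (f : Pol n R) : ∃ s ∈ Inv R D.col,
    ak n R s = ∑ w : stab D.col, rnK w.1 (ak n R f / ak n R D.Dl) := by
  have h0 : ak n R D.Dl ≠ 0 := (map_ne_zero_iff _ ak_inj).2 D.Dl_ne
  have h1 : ∀ w : stab D.col, ∃ p, rnK w.1 (ak n R f / ak n R D.Dl) * ak n R D.Dl = ak n R p := by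
    intro w
    rw [map_div₀, rnK_ak, rnK_ak]
    rcases D.anti_Dl w with e | e
    · exact ⟨_, by rw [e, div_mul_cancel₀ _ h0]⟩
    · exact ⟨-rename w.1 f, by rw [e, map_neg, map_neg, div_neg, neg_mul, div_mul_cancel₀ _ h0]⟩
  choose p hp using h1
  have h2 : ∀ s : stab D.col, rnK s.1 (∑ w : stab D.col, rnK w.1 (ak n R f / ak n R D.Dl)) =
      ∑ w : stab D.col, rnK w.1 (ak n R f / ak n R D.Dl) := fun s => by
    rw [map_sum]
    simp only [← rnK_mul]
    exact Equiv.sum_comp (Equiv.mulLeft s) fun w => rnK w.1 (ak n R f / ak n R D.Dl)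
  have h3 : (∑ w : stab D.col, rnK w.1 (ak n R f / ak n R D.Dl)) * ak n R D.Dl =
      ak n R (∑ w, p w) := by
    rw [sum_mul, map_sum]
    exact sum_congr rfl fun w _ => hp w
  generalize (∑ w : stab D.col, rnK w.1 (ak n R f / ak n R D.Dl)) = q at h2 h3
  obtain ⟨s, hs⟩ : D.Dl ∣ ∑ w, p w := D.anti_Dl_dvd fun a b hab hc => ak_inj (by
    rw [← rnK_ak, map_neg, ← h3, map_mul, h2 ⟨_, swap_mem_stab hc⟩, rnK_ak, D.anti_swap hab hc,
      map_neg, mul_neg])
  rw [hs, map_mul, mul_comm] at h3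
  have h4 := mul_left_cancel₀ h0 h3
  refine ⟨s, fun w hw => ak_inj ?_, h4.symm⟩
  rw [← rnK_ak, ← h4]
  exact h2 ⟨w, hw⟩

theorem ee_dvd_Dl {μ : Fin n → ℤ} (hμ : (∀ a, μ a = 0 ∨ μ a = 1) ∨ (∀ a, μ a = 0 ∨ μ a = -1)) :
    D.ee μ ∣ D.Dl := by
  have : CharZero R := algebraRat.charZero R
  have hm : ∀ a b, μ a - μ b ≤ 1 := fun a b => by
    rcases hμ with h | h <;> rcases h a with h1 | h1 <;> rcases h b with h2 | h2 <;> omega
  have hs : ∀ x : Fin n × Fin n, μ x.1 - μ x.2 = 1 → x.1 ≠ x.2 :=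
    fun x h1 h2 => by rw [h2, sub_self] at h1; exact zero_ne_one h1
  rw [D.mongood_ee hm]
  simp only [anti_rt]
  refine anti_prod_dvd _ _ _ (fun q hq => D.anti_prime (hs q (mem_filter.1 hq).2))
    (fun q hq q' hq' k => ?_) fun q hq => ?_
  · have k1 := (mem_filter.1 hq).2
    have k2 := (mem_filter.1 hq').2
    rcases D.anti_dvd (hs q k1) (hs q' k2) k with k4 | k4
    · exact (Prod.ext k4.1 k4.2).symm
    · rw [k4.1, k4.2] at k2
      omega
  · have k1 := D.mem_Rt.1 (mem_filter.1 hq).1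
    rcases lt_or_gt_of_ne (hs q (mem_filter.1 hq).2) with k | k
    · exact dvd_prod_of_mem _ (mem_filter.2 ⟨(mem_filter.1 hq).1, k⟩)
    · rw [← neg_sub, neg_dvd]
      exact dvd_prod_of_mem (fun q : Fin n × Fin n => (X q.1 - X q.2 : Pol n R)) (a := (q.2, q.1))
        (mem_filter.2 ⟨D.mem_Rt.2 k1.symm, k⟩)

/-- the inclusion of `Om` in the field of fractions -/
def antiSp : D.Om →+* Fr n R :=
  D.lift (ak n R) fun a b j h1 h2 => isUnit_iff_ne_zero.2
    ((map_ne_zero_iff _ ak_inj).2 (D.RS_ne_zero (D.rt_mem j h1 h2)))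

theorem anti_sp_al (f : Pol n R) : D.antiSp (D.al f) = ak n R f := D.lift_al _ _ _

theorem anti_sp_act (μ : Fin n → ℤ) (c : D.Om) :
    D.antiSp (D.act _ μ c) = D.act _ μ (D.antiSp c) := by
  have : D.antiSp.comp (D.act _ μ) = (D.act _ μ).comp D.antiSp :=
    D.om_ext fun f => by simp only [RingHom.comp_apply, act_alg, anti_sp_al]
  exact RingHom.congr_fun this c

theorem anti_sp_cc (μ : Fin n → ℤ) :
    D.antiSp (D.cc μ) = ak n R (D.mm μ) * Ring.inverse (ak n R (D.ee μ)) := by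
  rw [cc, map_mul, map_inverse _ (D.isUnit_ee μ), anti_sp_al, anti_sp_al]

/-- the inclusion of operators -/
def antiOp : D.Op D.Om →+* D.Op (Fr n R) := D.opMap D D.antiSp D.anti_sp_act

theorem anti_op_mem {x : D.Op D.Om} (hx : x ∈ D.Alg _) : D.antiOp x ∈ D.Alg _ := by
  have : D.Alg _ ≤ (D.Alg _).comap D.antiOp := by
    refine Subring.closure_le.2 ?_
    rintro x (⟨f, hf, rfl⟩ | ⟨μ, g, hμ, rfl⟩)
    · rw [SetLike.mem_coe, Subring.mem_comap, cst_eq, antiOp, opMap_sg, anti_sp_al]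
      exact D.cst_mem hf
    · have e : D.antiOp (D.mon _ μ g) = D.mon _ μ g := by
        rw [mon_om, mon_eq, map_sum]
        refine sum_congr rfl fun w _ => ?_
        rw [antiOp, opMap_sg, map_mul, anti_sp_al, anti_sp_cc, map_mul, mul_assoc]
      rw [SetLike.mem_coe, Subring.mem_comap, e]
      exact D.mon_mem hμ _
  exact this hx

theorem anti_ex (l : Fin n → ℤ) (hl : Dom D.col l) (M : ℤ) (hM : 0 ≤ M) (hlM : ∀ a, l a ≤ M)
    (g : Pol n R) (hg : g ∈ Inv R fun a => (D.col a, l a)) :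
    ∃ r ∈ D.Alg (Fr n R), D.co r l = ak n R (g * D.mm l) / ak n R (D.ee l) ∧
      ∀ μ, D.co r μ ≠ 0 → (∀ a, μ a ≤ M) ∧ D.dg 1 μ = D.dg 1 l ∧ toLex μ ≤ toLex l := by
  obtain ⟨r, hr, -, h1, h2, h3, h4⟩ := D.ex_two 1 l hl M hM hlM g hg
  refine ⟨D.antiOp r, D.anti_op_mem hr, ?_, fun μ h => ?_⟩
  · rw [antiOp, co_opMap, h3, map_mul, anti_sp_al, anti_sp_cc, map_mul, Ring.inverse_eq_inv',
      div_eq_mul_inv, mul_assoc]
  · have h5 := D.co_opMap_ne D _ _ h
    exact ⟨h2 μ h5, D.hom_iff.1 h1 μ h5, h4 μ h5⟩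

theorem le_Alg (B : Subring (D.Op (Fr n R))) (h : D.Alg _ ≤ B)
    (hinv : ∀ x ∈ B, ∀ (w : stab D.col) μ, D.co x (μ ∘ w.1.symm) = rnK w.1 (D.co x μ))
    (hlead : ∀ x ∈ B, ∀ l, D.co x l ≠ 0 → (∀ μ, D.co x μ ≠ 0 → toLex μ ≤ toLex l) →
      ∃ g, D.co x l = ak n R (g * D.mm l) / ak n R (D.ee l)) : B ≤ D.Alg _ := by
  classical
  intro x hx
  obtain ⟨M, hM, hle⟩ := D.exists_le x
  obtain ⟨c, hc⟩ : ∃ c : ℤ, ∀ μ, D.co x μ ≠ 0 → c ≤ D.dg 1 μ :=
    ⟨-∑ μ ∈ D.sup x, |D.dg 1 μ|, fun μ h => neg_le.2 ((neg_le_abs _).trans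
      (single_le_sum (f := fun μ => |D.dg 1 μ|) (fun _ _ => abs_nonneg _) (D.mem_sup.2 h)))⟩
  obtain ⟨T, hT⟩ := D.dec2_fin M c fun _ => True
  have hxT : ∀ μ, D.co x μ ≠ 0 → μ ∈ T := fun μ h => (hT μ).2 ⟨hle μ h, hc μ h, trivial⟩
  clear hle hc
  obtain ⟨N, hN⟩ : ∃ N, (T.filter fun μ => ∃ μ', D.co x μ' ≠ 0 ∧ toLex μ ≤ toLex μ').card = N :=
    ⟨_, rfl⟩
  induction N using Nat.strong_induction_on generalizing x with
  | _ N ih =>
    rcases (D.sup x).eq_empty_or_nonempty with he | he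
    · rw [← D.sum_sg x, he, sum_empty]
      exact zero_mem _
    · obtain ⟨l, hl1, hl2⟩ := exists_max_image (D.sup x) (fun μ => toLex μ) he
      have hl1' := D.mem_sup.1 hl1
      have hm : ∀ μ, D.co x μ ≠ 0 → toLex μ ≤ toLex l := fun μ h => hl2 μ (D.mem_sup.2 h)
      have hd : Dom D.col l := dom_of_max fun w => hm _ (by
        rw [hinv x hx]
        exact (map_ne_zero _).2 hl1')
      obtain ⟨g, hco⟩ := hlead x hx l hl1' hm
      have hg : g ∈ Inv R fun a => (D.col a, l a) := fun w hw => by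
        have hw1 : w ∈ stab D.col := fun a => congrArg Prod.fst (hw a)
        have e : l ∘ w.symm = l := funext fun a => congrArg Prod.snd (stab_symm ⟨w, hw⟩ a)
        have h1 := hinv x hx ⟨w, hw1⟩ l
        have h2 := D.rename_mm ⟨w, hw1⟩ l
        have h3 := D.rename_ee ⟨w, hw1⟩ l
        dsimp only at h1 h2 h3
        rw [e] at h1 h2 h3
        rw [hco, map_div₀, rnK_ak, rnK_ak, map_mul (rename w), h2, h3,
          div_left_inj' ((map_ne_zero_iff _ ak_inj).2 (D.ee_ne l))] at h1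
        exact (mul_right_cancel₀ (D.mm_ne l) (ak_inj h1)).symm
      obtain ⟨t1, t2, -⟩ := (hT l).1 (hxT l hl1')
      obtain ⟨r, r1, r2, r3⟩ := D.anti_ex l hd M hM t1 g hg
      have hne : ∀ μ, D.co (x - r) μ ≠ 0 → D.co x μ ≠ 0 ∨ D.co r μ ≠ 0 := by
        intro μ h
        by_contra h'
        push Not at h'
        rw [co_sub, h'.1, h'.2, sub_zero] at h
        exact h rfl
      have hlt : ∀ μ, D.co (x - r) μ ≠ 0 → toLex μ < toLex l := by
        intro μ h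
        refine lt_of_le_of_ne ((hne μ h).elim (hm μ) fun k => (r3 μ k).2.2) fun e => ?_
        have e' : μ = l := toLex.injective e
        rw [e', co_sub, r2, hco, sub_self] at h
        exact h rfl
      have c1 : (T.filter fun μ => ∃ μ', D.co (x - r) μ' ≠ 0 ∧ toLex μ ≤ toLex μ').card < N := by
        rw [← hN]
        refine card_lt_card ⟨?_, fun hsub => ?_⟩
        · intro μ hμ
          obtain ⟨h1, μ', h2, h3⟩ := mem_filter.1 hμ
          exact mem_filter.2 ⟨h1, l, hl1', h3.trans (hlt μ' h2).le⟩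
        · obtain ⟨-, μ', h2, h3⟩ := mem_filter.1
            (hsub (mem_filter.2 ⟨hxT l hl1', l, hl1', le_rfl⟩))
          exact absurd (hlt μ' h2) (not_lt.2 h3)
      have h4 := add_mem (ih _ c1 (sub_mem hx (h r1))
        (fun μ h => (hne μ h).elim (hxT μ) fun k =>
          (hT μ).2 ⟨(r3 μ k).1, (r3 μ k).2.1 ▸ t2, trivial⟩) rfl) r1
      rwa [sub_add_cancel] at h4

end QD

end Pool.Agent.Work.MP_849ab0_ag
end
end

-- merged part: Pool.Agent.Work.MP_849ab0_ag.G.C.Link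
section
/-!
Task C-Link. The Euler classes in terms of the algebraic data; degrees.
Plan: lw (wN p m) = chi p + m * C h and lw (wC q) = X a - X b + j * C h (lf is additive, lf of Pi.single). mq_eq: the subtype D.Wt corresponds to the finset toQD.Wt;
QF is the set of (p, m) with m < xm μ p (mem_QF), reindex Ico 0 c by naturals. eC_eq: for Dom l and l b < l a of one colour a < b, so the last condition of CF is automatic (mem_CF).
Hm: sumAlgEquiv.symm is an algebra map, IsHomogeneous.mul / prod, X a ↦ X (inl a), C (X j) ↦ X (inr j).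
cf_deg: card (Ico m 0) - card (Ico 0 m) = -m; EE has degree card J - card (DI P k).
-/

noncomputable section

set_option linter.unusedSectionVars false
set_option linter.unusedVariables false

namespace Pool.Agent.Work.MP_849ab0_ag.G

open Set Topology Matrix

variable {v n : ℕ} {E κ : Type} [Fintype E] [Fintype κ] [DecidableEq κ]
  (D : Qv (Fin v) (Fin n) E κ) {k : ℕ}

theorem Hm.mul {P : Type} [Fintype P] [DecidableEq P] {a b : ℕ} {f g : PL P κ} (h : Hm a f)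
    (h' : Hm b g) : Hm (a + b) (f * g) := by
  unfold Hm at *
  rw [map_mul]
  exact h.mul h'

theorem hm_lw {P : Type} [Fintype P] [DecidableEq P] (w : WT P κ) : Hm 1 (lw w) := by
  have key : ∀ (m : ℤ) (i : P ⊕ κ),
      ((m : MvPolynomial (P ⊕ κ) ℂ) * MvPolynomial.X i).IsHomogeneous 1 := fun m i => by
    simpa using (MvPolynomial.isHomogeneous_X ℂ i).C_mul (m : ℂ)
  simp only [Hm, lw, lf, map_add, map_sum, map_mul, map_intCast, MvPolynomial.sumAlgEquiv_symm_X,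
    MvPolynomial.sumAlgEquiv_symm_C_X]
  exact (MvPolynomial.IsHomogeneous.sum _ _ _ fun j _ => key _ _).add
    (MvPolynomial.IsHomogeneous.sum _ _ _ fun j _ => key _ _)

theorem hm_prod {P ι : Type} [Fintype P] [DecidableEq P] (s : Finset ι) {f : ι → PL P κ}
    {d : ι → ℕ} (h : ∀ i ∈ s, Hm (d i) (f i)) : Hm (∑ i ∈ s, d i) (∏ i ∈ s, f i) := by
  unfold Hm at *
  rw [map_prod]
  exact MvPolynomial.IsHomogeneous.prod _ _ _ h

section

variable {σ R : Type} [Fintype σ] [CommRing R]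

theorem link_add (m m' : σ → ℤ) : lf R (m + m') = lf R m + lf R m' := by
  simp only [lf, Pi.add_apply, Int.cast_add, add_mul, Finset.sum_add_distrib]

theorem link_sub (m m' : σ → ℤ) : lf R (m - m') = lf R m - lf R m' := by
  simp only [lf, Pi.sub_apply, Int.cast_sub, sub_mul, Finset.sum_sub_distrib]

theorem link_smul (j : ℤ) (m : σ → ℤ) : lf R (j • m) = j * lf R m := by
  simp only [lf, Pi.smul_apply, smul_eq_mul, Int.cast_mul, mul_assoc, Finset.mul_sum]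

theorem link_single [DecidableEq σ] (a : σ) : lf R (Pi.single a 1) = MvPolynomial.X a := by
  rw [lf, Finset.sum_eq_single a]
  · simp
  · intro b _ hb
    simp [Pi.single_eq_of_ne hb]
  · simp

theorem link_os (o : Option (Fin n)) : lf R (os o) = xv o := by
  cases o
  · simp [lf, os, xv]
  · exact link_single _

theorem link_ico (f : ℤ → R) (c : ℤ) :
    ∏ m ∈ Finset.range c.toNat, f m = ∏ j ∈ Finset.Ico 0 c, f j := by
  refine Finset.prod_nbij' (fun m => (m : ℤ)) Int.toNat ?_ ?_ ?_ ?_ ?_ <;>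
    simp only [Finset.mem_range, Finset.mem_Ico, implies_true] <;> omega

end

theorem link_hm {P ι : Type} [Fintype P] [DecidableEq P] (s : Finset ι) {f : ι → PL P κ}
    (h : ∀ i ∈ s, Hm 1 (f i)) : Hm s.card (∏ i ∈ s, f i) := by
  simpa using hm_prod s h

theorem link_eo {P J J₀ : Type} [Fintype P] [DecidableEq P] [Fintype J] [Fintype J₀]
    (w : J → WT P κ) {e : J₀ → J} (he : Function.Injective e) :
    ∃ c, Hm c (eo w e) ∧ Fintype.card J₀ + c = Fintype.card J := by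
  classical
  refine ⟨_, link_hm _ fun j _ => hm_lw _, ?_⟩
  rw [← Finset.card_add_card_compl (Finset.univ.image e), Finset.card_image_of_injective _ he,
    Finset.card_univ]
  congr 2
  ext j
  simp

namespace Qv

theorem link_chi (p : E × Option (Fin n) × Option (Fin n)) (j : ℤ) :
    lw (os p.2.2 - os p.2.1, D.t p.1 + j • D.h) =
      D.toQD.chi p + (j : PL (Fin n) κ) * MvPolynomial.C D.toQD.h := by
  simp only [lw, link_add, link_sub, link_smul, link_os, QD.chi, map_add, map_mul, map_intCast,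
    add_assoc]

theorem link_mem (p : E × Option (Fin n) × Option (Fin n)) :
    p ∈ D.toQD.Wt ↔ p.2.1.map D.col = D.src p.1 ∧ p.2.2.map D.col = D.tgt p.1 := by
  simp [QD.Wt]

theorem mq_eq {μ : Fin n → ℤ} (h : μ ∈ box (Fin n) k) : D.mq k μ = D.toQD.mp μ := by
  rw [mq, Finset.prod_coe_sort (D.QF k μ) fun q => lw (D.wN q.1 q.2),
    Finset.prod_finset_product _ Finset.univ (fun p => Finset.range (D.xm μ p).toNat)
      fun q => by simp [D.mem_QF h, Int.lt_toNat],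
    QD.mp, Finset.prod_subtype (F := inferInstanceAs (Fintype D.Wt)) _ D.link_mem]
  refine Finset.prod_congr rfl fun p _ => ?_
  rw [← link_ico]
  exact Finset.prod_congr rfl fun m _ => D.link_chi p.1 m

theorem eC_eq {l : Fin n → ℤ} (h : l ∈ box (Fin n) k) (hd : Dom D.col l) :
    D.eC k l = D.toQD.ee l := by
  have key := Finset.prod_finset_product
    ((D.CF k l).map (Equiv.prodAssoc _ _ _).symm.toEmbedding) D.toQD.Rt
    (fun q => Finset.range (l q.1 - l q.2).toNat)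
    (fun q => by
      rw [Finset.mem_map_equiv, D.mem_CF h]
      simp only [QD.Rt, Finset.mem_filter, Finset.mem_univ, true_and, Finset.mem_range,
        Int.lt_toNat, Equiv.symm_symm, Equiv.prodAssoc_apply]
      refine and_congr_right fun hc => and_iff_left_of_imp fun h1 => Or.inr ?_
      by_contra h2
      rcases (not_lt.1 h2).eq_or_lt with e | e
      · rw [e] at h1
        omega
      · have := hd _ _ e hc.symm
        omega)
    (f := fun q => lw (Pi.single q.1.1 1 - Pi.single q.1.2 1, (q.2 : ℤ) • D.h))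
  rw [Finset.prod_map] at key
  refine ((Finset.prod_coe_sort (D.CF k l) _).trans key).trans ?_
  refine Finset.prod_congr rfl fun q _ => ?_
  rw [← link_ico]
  refine Finset.prod_congr rfl fun m _ => ?_
  simp only [lw, link_sub, link_smul, link_single, map_mul, map_intCast]

theorem EE_zero : D.EE 0 = 1 :=
  Finset.prod_eq_one fun j _ => by
    have := Finset.mem_Ico.1 j.1.2.2
    omega

theorem cf_deg (k : ℕ) (μ : Fin n → ℤ) : ∃ (f g : PL (Fin n) κ) (a b : ℕ), Hm a f ∧ Hm b g ∧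
    g ≠ 0 ∧ D.cf k μ = QD.ak n _ f / QD.ak n _ g ∧
    (b : ℤ) - a = Fintype.card ((Fin n × Pos k) × (Fin n × Pos k)) - Fintype.card (DI (Fin n) k) +
      ∑ p, D.xm μ p := by
  obtain ⟨c, h0, h2⟩ := link_eo (D.wE k) (eD_inj k)
  have h1 : ∀ (p : E × Option (Fin n) × Option (Fin n)) (s : Finset ℤ), Hm s.card
      (∏ j ∈ s, (D.toQD.chi p + (j : PL (Fin n) κ) * MvPolynomial.C D.toQD.h)) := fun p s =>
    link_hm s fun j _ => D.link_chi p j ▸ hm_lw _
  refine ⟨D.toQD.mm μ, D.toQD.mp μ * D.EE k, _, _, hm_prod _ fun p _ => h1 p _,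
    (hm_prod _ fun p _ => h1 p _).mul h0,
    mul_ne_zero (D.toQD.mp_ne μ) (D.EE_ne k), by rw [cf, QD.rho, map_mul, div_div], ?_⟩
  have h4 : ∑ p, D.xm μ p = ∑ p ∈ D.toQD.Wt, (ov μ p.2.2 - ov μ p.2.1) :=
    (Finset.sum_subtype (F := inferInstanceAs (Fintype D.Wt)) _ D.link_mem
      fun p => ov μ p.2.2 - ov μ p.2.1).symm
  have h5 : ∀ m : ℤ, m = ((Finset.Ico 0 m).card : ℤ) - (Finset.Ico m 0).card := fun m => by
    simp only [Int.card_Ico]
    omega
  rw [h4, Finset.sum_congr rfl fun p _ => h5 _, Finset.sum_sub_distrib, ← h2]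
  push_cast
  ring

end Qv

end Pool.Agent.Work.MP_849ab0_ag.G
end
end

-- merged part: Pool.Agent.Work.MP_849ab0_ag.G.IfC
section
-- merged part: Pool.Agent.Work.MP_849ab0_ag.G.C.Weyl
section
/-!
Task C-Weyl. Weyl group symmetry of the coefficients of K-equivariant classes.
Plan: nW = the permutation matrix with entries (b, a) ↦ if b = σ a then 1 else 0, an element of Ub D.col; k₀ = (nW, 1).
gp_inner (with isHom_conj) gives a = gp (conj k₀) (act k₀) a. conj k₀ (ic g) = ic (pmT σ g), (aX k).act k₀ (jD d) = jD (d ∘ ε) for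
ε = the equivalence (a, j, i) ↦ (σ.symm a, j, i) of DI P k; so by gp_comp twice gp ic jD a = gp (pmT σ) (fun d => d ∘ ε) (gp ic jD a).
ptc_gp with gpt_pmT, pD k μ ∘ ε = pD k (μ ∘ σ.symm); apply rename σ to both sides. The box is invariant.
-/

noncomputable section

set_option linter.unusedSectionVars false
set_option linter.unusedVariables false

namespace Pool.Agent.Work.MP_849ab0_ag.G

open Set Topology Matrix

variable {I P E κ : Type} [Fintype I] [DecidableEq I] [Fintype P] [DecidableEq P] [Fintype E]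
  [Fintype κ] [DecidableEq κ] (D : Qv I P E κ)

namespace Qv

/-- the permutation matrix -/
def weyl_M (σ : Equiv.Perm P) : Matrix P P ℂ := Matrix.of fun b a => if σ.symm b = a then 1 else 0

theorem weyl_conj (σ : Equiv.Perm P) (B : Matrix P P ℂ) (b a : P) :
    (weyl_M σ * B * (weyl_M σ)ᴴ) b a = B (σ.symm b) (σ.symm a) := by
  simp [weyl_M, mul_apply, apply_ite star]

/-- the element of the group -/
def weyl_k {σ : Equiv.Perm P} (hσ : ∀ a, D.col (σ a) = D.col a) : (KT D.col κ).H :=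
  (⟨⟨weyl_M σ, by
    rw [Matrix.mem_unitaryGroup_iff, star_eq_conjTranspose]
    ext b a
    have := weyl_conj σ 1 b a
    rw [mul_one] at this
    rw [this]
    simp [one_apply]⟩, fun b a h => if_neg fun e => h (by
      rw [← e, ← hσ (σ.symm b), Equiv.apply_symm_apply])⟩, 1)

/-- the permutation of the coordinates of the fixed part -/
def weyl_e (k : ℕ) (σ : Equiv.Perm P) : DI P k ≃ DI P k := σ.symm.prodCongr (Equiv.refl _)

theorem weyl_ic {σ : Equiv.Perm P} (hσ : ∀ a, D.col (σ a) = D.col a) (g : (TT P κ).H) :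
    D.ic (pmT σ g) = D.weyl_k hσ * D.ic g * (D.weyl_k hσ)⁻¹ := by
  refine Prod.ext (Subtype.ext (Subtype.ext ?_)) ?_
  · change diagonal (fun j => ((g.1 (σ.symm j) : Circle) : ℂ)) =
      weyl_M σ * diagonal (fun j => ((g.1 j : Circle) : ℂ)) * (weyl_M σ)ᴴ
    ext b a
    rw [weyl_conj]
    simp [diagonal_apply]
  · change g.2 = 1 * g.2 * 1⁻¹
    simp

theorem weyl_jD (k : ℕ) {σ : Equiv.Perm P} (hσ : ∀ a, D.col (σ a) = D.col a) (d : DI P k → ℂ) :
    D.jD k (d ∘ weyl_e k σ) = (D.aX k).act (D.weyl_k hσ) (D.jD k d) := by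
  refine Prod.ext (funext fun z => ?_) (D.aO_zero _).symm
  change ex0 (eD k) (d ∘ weyl_e k σ) z = chr D.h 1 ^ (z.1.2.1 - z.2.2.1) *
    (weyl_M σ * blkAt (ex0 (eD k) d) z.1.2 z.2.2 * (weyl_M σ)ᴴ) z.1.1 z.2.1
  rw [act_chr_one, _root_.one_zpow, one_mul, weyl_conj, act_blk, of_apply, ex0_eD, ex0_eD]
  simp only [EmbeddingLike.apply_eq_iff_eq]
  rfl

theorem weyl_pD (k : ℕ) (σ : Equiv.Perm P) (μ : P → ℤ) :
    pD k μ ∘ weyl_e k σ = pD k (μ ∘ σ.symm) := by
  funext z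
  simp [pD, pjL, eD, weyl_e]

theorem weyl_box {k : ℕ} (σ : Equiv.Perm P) {μ : P → ℤ} : μ ∘ σ ∈ box P k ↔ μ ∈ box P k := by
  rw [mem_box, mem_box]
  exact ⟨fun h a => by simpa using h (σ.symm a), fun h a => h (σ a)⟩

theorem weyl_PD {k : ℕ} (σ : Equiv.Perm P) (d : DI P k → ℂ) (h : d ∘ weyl_e k σ ∈ PD P k) :
    d ∈ PD P k := by
  obtain ⟨μ, hμ, e⟩ := h
  refine ⟨μ ∘ σ, (weyl_box σ).2 hμ, ?_⟩
  have := weyl_pD k σ.symm μ
  rw [← e, Equiv.symm_symm] at this
  rw [← this]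
  funext ⟨a, z⟩
  simp [weyl_e]

theorem weyl_w (k : ℕ) (σ : Equiv.Perm P) (j : DI P k) (g : (TT P κ).H) :
    ch (D.wD k j) (pmT σ g) = ch (D.wD k (weyl_e k σ j)) g := ch_pmT σ _ g

theorem weyl_gp (k : ℕ) {σ : Equiv.Perm P} (hσ : ∀ a, D.col (σ a) = D.col a)
    (a : D.HR k (D.RR k)) :
    gp (wr (D.wD k)) (pmT σ) (fun d => d ∘ weyl_e k σ) univ (PD P k)
        (gp (wr (D.wD k)) D.ic (D.jD k) univ (PD P k) a) =
      gp (wr (D.wD k)) D.ic (D.jD k) univ (PD P k) a := by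
  have := isHom_conj (D.weyl_k hσ)
  have h1 : GAdm (wr (D.wD k)) (D.aX k) D.ic (D.jD k) univ (PD P k) univ (D.RR k) :=
    (D.gadm_rT (D.pr_RR k)).comp (D.gadm_jD ((D.pr_RR k).res _) subset_rfl)
  have h2 : GAdm (wr (D.wD k)) (wr (D.wD k)) (pmT σ) (fun d => d ∘ weyl_e k σ) univ (PD P k)
      univ (PD P k) :=
    ⟨(D.fx_PD k).pr, (D.fx_PD k).pr,
      (continuous_pi fun j => continuous_apply _).continuousOn,
      fun g x _ => funext fun j => by
        rw [wr_act, weyl_w]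
        rfl,
      fun _ _ => trivial, fun d _ => weyl_PD σ d⟩
  have h3 : GAdm (D.aX k) (D.aX k) (fun g => D.weyl_k hσ * g * (D.weyl_k hσ)⁻¹)
      ((D.aX k).act (D.weyl_k hσ)) univ (D.RR k) univ (D.RR k) :=
    ⟨D.pr_RR k, D.pr_RR k, ((D.aX k).cont_act continuous_const continuous_id).continuousOn,
      fun g x _ => by rw [← Act.act_mul, ← Act.act_mul, inv_mul_cancel_right],
      fun _ _ => trivial, fun x _ h => by
        have := D.inv_RR k (D.weyl_k hσ)⁻¹ _ h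
        rwa [Act.act_inv] at this⟩
  rw [gp_comp h1 h2 (χ := fun g => D.ic (pmT σ g)) (fun _ => rfl)
    (k := fun d => D.jD k (d ∘ weyl_e k σ)) fun _ _ => rfl,
    ← gp_comp h3 h1 (D.weyl_ic hσ) (fun d _ => D.weyl_jD k hσ d), gp_inner (D.pr_RR k)]

theorem ct_weyl (k : ℕ) {σ : Equiv.Perm P} (hσ : ∀ a, D.col (σ a) = D.col a) (μ : P → ℤ)
    (a : D.HR k (D.RR k)) : D.ct k (μ ∘ σ.symm) a = MvPolynomial.rename σ (D.ct k μ a) := by
  by_cases hμ : μ ∈ box P k
  · have hμ' := (weyl_box σ.symm).2 hμ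
    have := ptc_gp (D.fx_PD k) (D.fx_PD k) (weyl_e k σ) (D.weyl_w k σ) (weyl_PD σ) (gpt_pmT σ)
      (p' := pD k μ) ⟨μ, hμ, rfl⟩ ⟨_, hμ', weyl_pD k σ μ⟩
      (gp (wr (D.wD k)) D.ic (D.jD k) univ (PD P k) a)
    rw [D.weyl_gp k hσ, weyl_pD, ← D.ct_eq (D.pr_RR k) subset_rfl hμ,
      ← D.ct_eq (D.pr_RR k) subset_rfl hμ'] at this
    rw [this, MvPolynomial.rename_rename, Equiv.self_comp_symm, MvPolynomial.rename_id_apply]
  · rw [D.ct_out hμ, D.ct_out (mt (weyl_box σ.symm).1 hμ), map_zero]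

theorem rename_EE (k : ℕ) (σ : Equiv.Perm P) : MvPolynomial.rename σ (D.EE k) = D.EE k := by
  have hr : ∀ z : (P × Pos k) × (P × Pos k), z ∈ range (eD k) ↔ z.1.1 = z.2.1 := fun z =>
    ⟨fun ⟨y, e⟩ => e ▸ rfl, fun h => ⟨_, fix_eD h⟩⟩
  rw [EE, eo, map_prod]
  refine Finset.prod_equiv ((σ.prodCongr (Equiv.refl _)).prodCongr (σ.prodCongr (Equiv.refl _)))
    (fun z => by simp [hr]) fun z _ => ?_
  refine (rename_lw σ.symm _).trans (congrArg lw (Prod.ext (funext fun c => ?_) rfl))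
  simp [wE, Pi.single_apply, Equiv.symm_apply_eq]

end Qv

end Pool.Agent.Work.MP_849ab0_ag.G
end
end

-- merged part: Pool.Agent.Work.MP_849ab0_ag.G.C.Conv1
section
/-!
Task C-Conv1. Localisation of the convolution product, outer integral.
Plan: ct_eq; unfold conv. gp_intg along D.ic, f = jD (k + l), f' = fun y => (y.1, jD (k + l) y.2), σ = wr (wE k) (aE_ic), supports: preimage of Z3.
intg_ex0 along eD k. gp_comp and gp_ecup write the integrand on (DI P k → ℂ) × (DI P (k+l) → ℂ) as ecup univ W (gp id fst c₀) β₀ with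
c₀ = gp ic (jD k) univ (PD P k) a, β₀ = pull-back of twist k l b to A₀ = PD P k ×ˢ univ, W = Z₁ = preimage of Z3 (Z3_sub, jD_RR).
pt_decomp for c₀, gp_pm_id, ecup_pm_left, intg_pm, intg_pt, gp_comp with ex0_pD give the sum of pm (ct k λ a) (bt k l λ b).
-/

noncomputable section

set_option linter.unusedSectionVars false
set_option linter.unusedVariables false

namespace Pool.Agent.Work.MP_849ab0_ag.G

open Set Topology Matrix

variable {I P E κ : Type} [Fintype I] [DecidableEq I] [Fintype P] [DecidableEq P] [Fintype E]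
  [Fintype κ] [DecidableEq κ] (D : Qv I P E κ)

namespace Qv

/-- the inclusion of the fixed parts -/
def conv1_f (k l : ℕ) (y : (DI P k → ℂ) × (DI P (k + l) → ℂ)) : En P k × En P (k + l) × D.NO :=
  (ex0 (eD k) y.1, D.jD (k + l) y.2)

/-- the inclusion of the fixed part of the second factor -/
def conv1_g (k l : ℕ) (y : En P k × (DI P (k + l) → ℂ)) : En P k × En P (k + l) × D.NO :=
  (y.1, D.jD (k + l) y.2)

theorem conv1_jD {k : ℕ} : GAdm (wr (D.wD k)) (D.aX k) D.ic (D.jD k) univ (PD P k) univ (D.RR k) :=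
  ⟨(D.fx_PD k).pr, D.pr_RR k, (D.continuous_jD k).continuousOn, fun g d _ => D.jD_eqv k g d,
    mapsTo_univ _ _, fun _ _ h => D.jD_RR.1 h⟩

theorem conv1_cg (k l : ℕ) : Continuous (D.conv1_g k l) :=
  continuous_fst.prodMk ((D.continuous_jD (k + l)).comp continuous_snd)

theorem conv1_cf (k l : ℕ) : Continuous (D.conv1_f k l) :=
  ((continuous_ex0 (eD_inj k)).comp continuous_fst).prodMk
    ((D.continuous_jD (k + l)).comp continuous_snd)

theorem conv1_eg (k l : ℕ) (g : (TT P κ).H) (y : En P k × (DI P (k + l) → ℂ)) :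
    D.conv1_g k l (((wr (D.wE k)).prod (wr (D.wD (k + l)))).act g y) =
      (D.b3 k l).act (D.ic g) (D.conv1_g k l y) :=
  Prod.ext (D.aE_ic k g y.1).symm (D.jD_eqv (k + l) g y.2)

theorem conv1_ef (k l : ℕ) (g : (TT P κ).H) (y : (DI P k → ℂ) × (DI P (k + l) → ℂ)) :
    D.conv1_f k l (((wr (D.wD k)).prod (wr (D.wD (k + l)))).act g y) =
      (D.b3 k l).act (D.ic g) (D.conv1_f k l y) :=
  Prod.ext ((ex0_eqv (eD_inj k) (D.wD_eq k) g y.1).trans (D.aE_ic k g _).symm)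
    (D.jD_eqv (k + l) g y.2)

theorem conv1_A (k l : ℕ) : D.conv1_f k l ⁻¹' D.A3 k l = PD P k ×ˢ univ := by
  ext y
  rw [mem_prod, ← D.jD_RR]
  exact ⟨fun h => ⟨h, mem_univ _⟩, fun h => h.1⟩

theorem conv1_pW (k l : ℕ) : ((wr (D.wD k)).prod (wr (D.wD (k + l)))).Pr univ
    (D.conv1_f k l ⁻¹' D.Z3 k l) :=
  (D.pr_Z3 k l).preimage (D.conv1_cf k l) (D.conv1_ef k l)

theorem conv1_pA (k l : ℕ) : ((wr (D.wD k)).prod (wr (D.wD (k + l)))).Pr univ
    (PD P k ×ˢ univ) := by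
  rw [← D.conv1_A k l]
  exact (D.pr_A3 k l).preimage (D.conv1_cf k l) (D.conv1_ef k l)

theorem conv1_pAW (k l : ℕ) : ((wr (D.wD k)).prod (wr (D.wD (k + l)))).Pr (PD P k ×ˢ univ)
    (D.conv1_f k l ⁻¹' D.Z3 k l) := by
  rw [← D.conv1_A k l]
  exact (D.pr_A3Z3 k l).preimage (D.conv1_cf k l) (D.conv1_ef k l)

theorem conv1_mem {k l : ℕ} {y : (DI P k → ℂ) × (DI P (k + l) → ℂ)}
    (h : y ∈ D.conv1_f k l ⁻¹' D.Z3 k l) : y.1 ∈ PD P k ∧ y.2 ∈ PD P (k + l) :=
  ⟨D.jD_RR.1 (D.Z3_sub h).1, D.jD_RR.1 (D.Z3_sub h).2⟩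

theorem conv1_ig (k l : ℕ) : IAdm (wr (D.wD (k + l))) ((wr (D.wE k)).prod (wr (D.wD (k + l))))
    (wr (D.wE k)) Prod.snd Prod.fst univ (PD P (k + l)) univ (D.conv1_g k l ⁻¹' D.Z3 k l) := by
  refine iadm_prod (D.fx_PD (k + l)).pr
    ((D.pr_Z3 k l).preimage (D.conv1_cg k l) (D.conv1_eg k l)) (subset_univ _)
    (fun y h _ => D.jD_RR.1 (D.Z3_sub h).2) ?_
  obtain ⟨R, hR⟩ := D.bdd_Gr k
  exact ⟨R, fun y h _ => hR _ (D.zero_mem_RR.1 (D.Z3_sub h).1)⟩

theorem conv1_if (k l : ℕ) : IAdm (wr (D.wD (k + l))) ((wr (D.wD k)).prod (wr (D.wD (k + l))))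
    (wr (D.wD k)) Prod.snd Prod.fst univ (PD P (k + l)) univ (D.conv1_f k l ⁻¹' D.Z3 k l) := by
  refine iadm_prod (D.fx_PD (k + l)).pr (D.conv1_pW k l) (subset_univ _)
    (fun y h _ => (D.conv1_mem h).2) ?_
  obtain ⟨R, hR⟩ := D.bdd_Gr k
  refine ⟨R, fun y h _ => ?_⟩
  rw [← nsq_ex0 (eD_inj k)]
  exact hR _ (D.zero_mem_RR.1 (D.Z3_sub h).1)

theorem conv1_gg (k l : ℕ) : GAdm ((wr (D.wE k)).prod (wr (D.wD (k + l)))) (D.b3 k l) D.ic
    (D.conv1_g k l) univ (D.conv1_g k l ⁻¹' D.Z3 k l) univ (D.Z3 k l) :=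
  ⟨(D.conv1_ig k l).src, D.pr_Z3 k l, (D.conv1_cg k l).continuousOn,
    fun g y _ => D.conv1_eg k l g y, mapsTo_univ _ _, fun _ _ h => h⟩

theorem conv1_ge (k l : ℕ) : GAdm ((wr (D.wD k)).prod (wr (D.wD (k + l))))
    ((wr (D.wE k)).prod (wr (D.wD (k + l)))) id (fun y => (ex0 (eD k) y.1, y.2)) univ
    (D.conv1_f k l ⁻¹' D.Z3 k l) univ (D.conv1_g k l ⁻¹' D.Z3 k l) :=
  ⟨D.conv1_pW k l, (D.conv1_ig k l).src,
    (((continuous_ex0 (eD_inj k)).comp continuous_fst).prodMk continuous_snd).continuousOn,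
    fun g y _ => Prod.ext (ex0_eqv (eD_inj k) (D.wD_eq k) g y.1) rfl, mapsTo_univ _ _,
    fun _ _ h => h⟩

theorem conv1_gf (k l : ℕ) : GAdm ((wr (D.wD k)).prod (wr (D.wD (k + l)))) (D.b3 k l) D.ic
    (D.conv1_f k l) univ (D.conv1_f k l ⁻¹' D.Z3 k l) univ (D.Z3 k l) :=
  ⟨D.conv1_pW k l, D.pr_Z3 k l, (D.conv1_cf k l).continuousOn,
    fun g y _ => D.conv1_ef k l g y, mapsTo_univ _ _, fun _ _ h => h⟩

theorem conv1_g1 (k l : ℕ) : GAdm ((wr (D.wD k)).prod (wr (D.wD (k + l)))) (D.b3 k l) D.ic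
    (D.conv1_f k l) univ (PD P k ×ˢ univ) univ (D.A3 k l) :=
  ⟨D.conv1_pA k l, D.pr_A3 k l, (D.conv1_cf k l).continuousOn,
    fun g y _ => D.conv1_ef k l g y, mapsTo_univ _ _, fun _ _ h => ⟨D.jD_RR.1 h, mem_univ _⟩⟩

theorem conv1_g2 (k l : ℕ) : GAdm ((wr (D.wD k)).prod (wr (D.wD (k + l)))) (D.b3 k l) D.ic
    (D.conv1_f k l) (PD P k ×ˢ univ) (D.conv1_f k l ⁻¹' D.Z3 k l) (D.A3 k l) (D.Z3 k l) :=
  ⟨D.conv1_pAW k l, D.pr_A3Z3 k l, (D.conv1_cf k l).continuousOn,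
    fun g y _ => D.conv1_ef k l g y, fun _ h => D.jD_RR.2 h.1, fun _ _ h => h⟩

theorem conv1_g3 (k l : ℕ) : GAdm ((wr (D.wD k)).prod (wr (D.wD (k + l)))) (wr (D.wD k)) id
    Prod.fst univ (PD P k ×ˢ univ) univ (PD P k) :=
  ⟨D.conv1_pA k l, (D.fx_PD k).pr, continuous_fst.continuousOn, fun _ _ _ => rfl,
    mapsTo_univ _ _, fun _ _ h => ⟨h, mem_univ _⟩⟩

theorem conv1_pD {k : ℕ} {μ : P → ℤ} (h : μ ∈ box P k) : pD k μ ∈ PD P k := ⟨μ, h, rfl⟩

theorem conv1_g4 (k l : ℕ) {μ : P → ℤ} (h : μ ∈ box P k) : GAdm (wr (D.wD (k + l)))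
    ((wr (D.wD k)).prod (wr (D.wD (k + l)))) id (fun z => (pD k μ, z)) univ (PD P (k + l))
    (PD P k ×ˢ univ) (D.conv1_f k l ⁻¹' D.Z3 k l) :=
  ⟨(D.fx_PD (k + l)).pr, D.conv1_pAW k l, (continuous_const.prodMk continuous_id).continuousOn,
    fun g _ _ => Prod.ext (D.pD_fix k μ g).symm rfl, fun _ _ => ⟨conv1_pD h, mem_univ _⟩,
    fun _ _ h => (D.conv1_mem h).2⟩

theorem conv1_ec (k l : ℕ) : ECup ((wr (D.wD k)).prod (wr (D.wD (k + l)))) univ (PD P k ×ˢ univ)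
    (PD P k ×ˢ univ) (D.conv1_f k l ⁻¹' D.Z3 k l) univ (D.conv1_f k l ⁻¹' D.Z3 k l) := by
  refine ⟨D.conv1_pA k l, D.conv1_pAW k l, D.conv1_pW k l, fun y _ => ?_,
    fun y _ => Or.inl (mem_univ _), fun y h => ?_⟩
  · by_cases e : y ∈ PD P k ×ˢ (univ : Set (DI P (k + l) → ℂ))
    · exact Or.inr e
    · exact Or.inl ⟨mem_univ _, e⟩
  · by_cases e : y ∈ PD P k ×ˢ (univ : Set (DI P (k + l) → ℂ))
    · exact Or.inr ⟨e, h.2⟩
    · exact Or.inl ⟨mem_univ _, e⟩

theorem conv1_loc (k l : ℕ) (c : EH (D.b3 k l) univ (D.Z3 k l)) :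
    pm (D.EE k) (gp (wr (D.wD (k + l))) D.ic (D.jD (k + l)) univ (PD P (k + l))
      (intg (D.aX (k + l)) (D.aE k) Prod.snd Prod.fst univ (D.RR (k + l)) c)) =
    intg (wr (D.wD (k + l))) (wr (D.wD k)) Prod.snd Prod.fst univ (PD P (k + l))
      (gp ((wr (D.wD k)).prod (wr (D.wD (k + l)))) D.ic (D.conv1_f k l) univ
        (D.conv1_f k l ⁻¹' D.Z3 k l) c) := by
  rw [gp_intg (D.iadm_conv k l) (D.conv1_ig k l) D.conv1_jD (D.conv1_gg k l)
    (fun g w => (D.aE_ic k g w).symm) (fun _ _ => rfl) (fun _ _ => rfl), EE,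
    ← intg_ex0 (eD_inj k) (D.wD_eq k) (D.conv1_ig k l) (D.conv1_if k l) (D.conv1_ge k l),
    gp_comp (D.conv1_gg k l) (D.conv1_ge k l) (χ := D.ic) (fun _ => rfl) (k := D.conv1_f k l)
      (fun _ _ => rfl)]

theorem conv1_fst (k l : ℕ) (a : D.HR k (D.RR k)) :
    gp ((wr (D.wD k)).prod (wr (D.wD (k + l)))) D.ic (D.conv1_f k l) univ (PD P k ×ˢ univ)
      (gp (D.b3 k l) id (fun z => (z.1, z.2.2)) univ (D.A3 k l) a) =
    ∑ μ ∈ box P k, pm (D.ct k μ a) (gp ((wr (D.wD k)).prod (wr (D.wD (k + l)))) id Prod.fst univ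
      (PD P k ×ˢ univ) (ptl (D.wD k) (pD k μ) univ (PD P k))) := by
  rw [gp_comp (D.gadm_13 k l) (D.conv1_g1 k l) (χ := D.ic) (fun _ => rfl)
      (k := fun y => D.jD k y.1) (fun _ _ => rfl),
    ← gp_comp D.conv1_jD (D.conv1_g3 k l) (χ := D.ic) (fun _ => rfl)
      (k := fun y => D.jD k y.1) (fun _ _ => rfl),
    pt_decomp (D.fx_PD k) (pD_injOn k) (PD_eq k) (gp (wr (D.wD k)) D.ic (D.jD k) univ (PD P k) a),
    map_sum]
  refine Finset.sum_congr rfl fun μ h => ?_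
  rw [gp_pm_id (D.conv1_g3 k l), D.ct_eq (D.pr_RR k) Subset.rfl h]

theorem conv1_snd (k l : ℕ) (t : EH (D.b3 k l) (D.A3 k l) (D.Z3 k l)) {μ : P → ℤ}
    (h : μ ∈ box P k) :
    intg (wr (D.wD (k + l))) (wr (D.wD k)) Prod.snd Prod.fst univ (PD P (k + l))
      (ecup univ (D.conv1_f k l ⁻¹' D.Z3 k l)
        (gp ((wr (D.wD k)).prod (wr (D.wD (k + l)))) id Prod.fst univ
          (PD P k ×ˢ univ) (ptl (D.wD k) (pD k μ) univ (PD P k)))
        (gp ((wr (D.wD k)).prod (wr (D.wD (k + l)))) D.ic (D.conv1_f k l) (PD P k ×ˢ univ)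
          (D.conv1_f k l ⁻¹' D.Z3 k l) t)) =
    gp (wr (D.wD (k + l))) D.ic (fun d => (pjL k μ, D.jD (k + l) d)) univ (PD P (k + l)) t := by
  rw [intg_pt (D.fx_PD k) (conv1_pD h) (D.fx_PD (k + l)).pr (D.conv1_pAW k l) Subset.rfl
    (D.conv1_pW k l) (fun _ h _ => h) (fun _ h => D.conv1_mem h)]
  exact gp_comp (D.conv1_g2 k l) (D.conv1_g4 k l h) (χ := D.ic) (fun _ => rfl)
    (k := fun d => (pjL k μ, D.jD (k + l) d)) (fun _ _ => Prod.ext (ex0_pD k μ).symm rfl) t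

theorem conv1_all (k l : ℕ) (a : D.HR k (D.RR k)) (t : EH (D.b3 k l) (D.A3 k l) (D.Z3 k l)) :
    pm (D.EE k) (gp (wr (D.wD (k + l))) D.ic (D.jD (k + l)) univ (PD P (k + l))
      (intg (D.aX (k + l)) (D.aE k) Prod.snd Prod.fst univ (D.RR (k + l))
        (ecup univ (D.Z3 k l) (gp (D.b3 k l) id (fun z => (z.1, z.2.2)) univ (D.A3 k l) a) t))) =
    ∑ μ ∈ box P k, pm (D.ct k μ a)
      (gp (wr (D.wD (k + l))) D.ic (fun d => (pjL k μ, D.jD (k + l) d)) univ (PD P (k + l)) t) := by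
  rw [conv1_loc, gp_ecup (D.ecup_conv k l) (D.conv1_ec k l) (D.conv1_gf k l) (D.conv1_g1 k l)
    (D.conv1_g2 k l) Subset.rfl (subset_univ _), conv1_fst, map_sum, LinearMap.sum_apply, map_sum]
  refine Finset.sum_congr rfl fun μ h => ?_
  rw [ecup_pm_left (D.conv1_ec k l), intg_pm (D.conv1_if k l), D.conv1_snd k l t h]

theorem conv_outer (k l : ℕ) (a : D.HR k (D.RR k)) (b : D.HR l (D.RR l)) {ν : P → ℤ}
    (hν : ν ∈ box P (k + l)) : D.EE k * D.ct (k + l) ν (D.conv k l a b) =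
      ∑ μ ∈ box P k, D.ct k μ a * ptc (D.wD (k + l)) (pD (k + l) ν) (D.bt k l μ b) := by
  have h := congrArg (ptc (D.wD (k + l)) (pD (k + l) ν)) (D.conv1_all k l a (D.twist k l b))
  rw [ptc_pm (D.fx_PD _) (conv1_pD hν), ptc_sum (D.fx_PD _) (conv1_pD hν)] at h
  rw [D.ct_eq (D.pr_RR _) Subset.rfl hν]
  refine Eq.trans h (Finset.sum_congr rfl fun μ _ => ?_)
  exact ptc_pm (D.fx_PD _) (conv1_pD hν) _ _

end Qv

end Pool.Agent.Work.MP_849ab0_ag.G
end
end

-- merged part: Pool.Agent.Work.MP_849ab0_ag.G.C.Conv2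
section
/-!
Task C-Conv2. Localisation of the convolution product, the twisted factor.
Plan: (pjL k μ, jD d) = qq k l (ex0 d, tl μ, 0) (tw_tl_zero) and D.ic g = (thT μ g).2, so by gp_comp (gadm_qq) and apply_linv (bij_qq)
bt k l μ b = gp (thT μ) (fun d => (ex0 (eD _) d, (tl μ, 0))) (push ... (gp p13 ... b)). Apply push_loc with θ = thT μ, x₀ = (tl μ, 0) (tl_UF, aF_thT, padm_tw),
w = fun z => shW D.h μ (wE l z) (p13 (thT μ g) = ic (shT D.h μ g), aE_ic, ch_shT), w' = wE (k + l), w₀ = wD l (shW fixes the weights wD), r = pD l, T = box P l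
(tw_tl_ex0, tw_tl_prj, ex0_pD, adj_zero, tw_RR, jD_RR). eo_shW. The class on the right is gp (shT D.h μ) (fun d => d ∘ Equiv.refl _) of gp ic (jD l) b (gp_comp, gadm_adj): ptc_gp with gpt_shT, ct_eq.
Only the term ν - μ survives (pD_inj, add_mem_box); if ν - μ is not in the box both sides vanish.
-/

noncomputable section

set_option linter.unusedSectionVars false
set_option linter.unusedVariables false

namespace Pool.Agent.Work.MP_849ab0_ag.G

open Set Topology Matrix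

variable {I P E κ : Type} [Fintype I] [DecidableEq I] [Fintype P] [DecidableEq P] [Fintype E]
  [Fintype κ] [DecidableEq κ] (D : Qv I P E κ)

namespace Qv

theorem conv_inner (k l : ℕ) (b : D.HR l (D.RR l)) {μ ν : P → ℤ} (hμ : μ ∈ box P k)
    (hν : ν ∈ box P (k + l)) :
    shP D.h μ (D.EE l) * ptc (D.wD (k + l)) (pD (k + l) ν) (D.bt k l μ b) =
      D.EE (k + l) * shP D.h μ (D.ct l (ν - μ) b) := by
  have : SecondCountableTopology (Matrix P P ℂ) :=
    inferInstanceAs (SecondCountableTopology (P → P → ℂ))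
  have hU := D.tl_UF hμ
  have hP := D.padm_tw k l
  have s0 : ∀ j, shW D.h μ (D.wD l j) = D.wD l j := fun j => by simp [shW, wD]
  have h₀ : ∀ j, D.wD l j = shW D.h μ (D.wE l (eD l j)) := fun j => by rw [← wD_eq, s0]
  have hw : ∀ g d, ((D.aE l).res D.p13).act (D.thT μ g) d =
      (wr fun z => shW D.h μ (D.wE l z)).act g d := fun g d =>
    (D.aE_ic l (shT D.h μ g) d).trans (funext fun z => by rw [wr_act, wr_act, ch_shT])
  have hw' : ∀ g d, ((D.aE (k + l)).res Prod.snd : Act D.KKT _).act (D.thT μ g) d =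
      (wr (D.wE (k + l))).act g d := D.aE_ic _
  have hZ : ∀ d, (ex0 (eD l) d, tl μ, 0) ∈ D.Z1 k l → d ∈ PD P l := fun d h =>
    D.jD_RR.1 (by rw [jD, ← D.adj_zero k (tl μ)]; exact h)
  have hZ' : ∀ d, (ex0 (eD (k + l)) d, tl μ, 0) ∈ D.Z2 k l → d ∈ PD P (k + l) := by
    rintro d ⟨Q, h1, h2⟩
    exact D.jD_RR.1 (by rw [jD, show ex0 _ d = _ from h2]; exact D.tw_RR hU le_rfl h1)
  have hF : ∀ i ∈ box P l, tw k (tl μ) (ex0 (eD l) (pD l i)) (k + l) ∘ eD (k + l) =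
      pD (k + l) (μ + i) := fun i hi => by rw [ex0_pD, tw_tl_prj hμ hi, pD]
  have g1 : GAdm (wr (D.wD (k + l))) (((D.aE (k + l)).res Prod.snd).prod D.aF) (D.thT μ)
      (fun d => (ex0 (eD _) d, tl μ, 0)) univ (PD P (k + l)) (univ ×ˢ D.UF k) (D.Z2 k l) :=
    ⟨(D.fx_PD _).pr, hP.pz', ((continuous_ex0 (eD_inj _)).prodMk continuous_const).continuousOn,
      fun g d _ => Prod.ext ((ex0_eqv (eD_inj _) (D.wD_eq _) g d).trans (hw' _ _).symm)
        (D.aF_thT μ g).symm, fun d _ => ⟨trivial, hU⟩, fun d _ => hZ' d⟩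
  have g2 : GAdm (wr (D.wD l)) (((D.aE l).res D.p13).prod D.aF) (D.thT μ)
      (fun d => (ex0 (eD _) d, tl μ, 0)) univ (PD P l) (univ ×ˢ D.UF k) (D.Z1 k l) :=
    ⟨(D.fx_PD _).pr, hP.pz, ((continuous_ex0 (eD_inj _)).prodMk continuous_const).continuousOn,
      fun g d _ => Prod.ext ((ex0_eqv (eD_inj _) h₀ g d).trans (hw _ _).symm)
        (D.aF_thT μ g).symm, fun d _ => ⟨trivial, hU⟩, fun d _ => hZ d⟩
  have g3 : GAdm (wr (D.wD l)) (D.aX l) D.ic (D.jD l) univ (PD P l) univ (D.RR l) :=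
    (D.gadm_rT (D.pr_RR l)).comp (D.gadm_jD ((D.pr_RR l).res _) subset_rfl)
  have g4 : GAdm (wr (D.wD l)) (wr (D.wD l)) (shT D.h μ) (fun d => d ∘ Equiv.refl _) univ (PD P l)
      univ (PD P l) :=
    ⟨(D.fx_PD _).pr, (D.fx_PD _).pr, continuousOn_id, fun g d _ => funext fun z => by
      rw [wr_act, ch_shT, s0]; rfl, fun _ _ => trivial, fun _ _ h => h⟩
  have key := push_loc hP hU (D.aF_thT μ) hw hw' (eD_inj l) (eD_inj _) h₀ (D.wD_eq _) (D.fx_PD l)
    (D.fx_PD _) hZ hZ' (tw_tl_ex0 k l _ μ) (pD_injOn l) (PD_eq l)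
    (fun i hi => ⟨_, add_mem_box hμ hi, hF i hi⟩)
    (gp _ D.p13 (fun z => (z.1, D.adj k z.2.1 z.2.2)) _ _ b) ⟨ν, hν, rfl⟩
  rw [eo_shW] at key
  refine (congrArg (fun c => _ * ptc _ _ c) ((gp_comp (D.gadm_qq k l) g1 (fun _ => rfl)
    (fun d _ => by rw [qq, tw_tl_zero hμ]; rfl) _).symm.trans
      (congrArg _ (apply_linv (D.bij_qq k l) _)))).trans
    (key.trans (congrArg (_ * ·) ((Finset.sum_congr rfl fun i hi => ?_).trans
      ((Finset.sum_ite_eq' _ (ν - μ) fun i => shP D.h μ (D.ct l i b)).trans ?_))))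
  · refine if_congr ?_ ?_ rfl
    · rw [hF i hi, eq_sub_iff_add_eq']
      exact ⟨pD_inj (add_mem_box hμ hi) hν, congrArg _⟩
    · rw [gp_comp (D.gadm_adj k l) g2 (χ := D.ic ∘ shT D.h μ) (k := D.jD l) (fun _ => rfl)
        (fun d _ => by rw [adj_zero, jD]),
        ← gp_comp g3 g4 (χ := D.ic ∘ shT D.h μ) (k := D.jD l) (fun _ => rfl) fun _ _ => rfl,
        ptc_gp (D.fx_PD l) (D.fx_PD l) (Equiv.refl _) (fun j g => by rw [ch_shT, s0]; rfl)
          (fun _ h => h) (gpt_shT D.h μ) ⟨i, hi, rfl⟩ ⟨i, hi, rfl⟩,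
        D.ct_eq (D.pr_RR l) subset_rfl hi]
      rfl
  · split_ifs with h
    exacts [rfl, by rw [D.ct_out h, map_zero]]

end Qv

end Pool.Agent.Work.MP_849ab0_ag.G
end
end

-- merged part: Pool.Agent.Work.MP_849ab0_ag.G.C.Op
section
/-!
Task C-Op. The difference operator of a class.
Plan: co_opc: co_sum, co_sg, ct_out. opc_incl: ct_incl, EE_ne, field_simp. opc_conv: op_ext, co_mul_of_subset with s = box k, co_opc, conv_outer, conv_inner, rho_add, act_alg, shP_eq, sh_ne;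
if ν is outside box (k + l) every term has ν - μ outside box l (add_mem_box). opc_inj: ct_inj, rho_ne. opc_inv: ct_weyl, rnK_rho, rename_EE.
opc_lead: ctT_lead for rT a (invariance from opc_inv or ct_weyl), l is in the box and Dom (dom_of_max), mq_eq, eC_eq.
-/

noncomputable section

set_option linter.unusedSectionVars false
set_option linter.unusedVariables false

namespace Pool.Agent.Work.MP_849ab0_ag.G

open Set Topology Matrix

variable {v n : ℕ} {E κ : Type} [Fintype E] [Fintype κ] [DecidableEq κ]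
  (D : Qv (Fin v) (Fin n) E κ) {k : ℕ} {Z Z' : Set (En (Fin n) k × D.NO)}

theorem op_ak {f : PL (Fin n) κ} (h : f ≠ 0) : QD.ak n (MvPolynomial κ ℂ) f ≠ 0 :=
  (map_ne_zero_iff _ QD.ak_inj).2 h

theorem op_div {K : Type} [Field K] {A B x y r : K} (hA : A ≠ 0) (hB : B ≠ 0)
    (h : A * x = B * y) : x * (r / B) = y * (r / A) := by
  field_simp
  linear_combination r * h

theorem op_term {K : Type} [Field K] {A B S c p t r r' : K} (hA : A ≠ 0) (hB : B ≠ 0)
    (hS : S ≠ 0) (h : S * p = B * t) :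
    c * p / A * (r * r' / B) = c * (r / A) * (t * (r' / S)) := by
  field_simp
  linear_combination c * r * r' * h

theorem op_lead {K : Type} [Field K] {A p e c f m : K} (hA : A ≠ 0) (hp : p ≠ 0) (he : e ≠ 0)
    (h : c * e = f * (A * p)) : c * (m / p / A) = f * m / e := by
  field_simp
  linear_combination m * h

namespace Qv

theorem co_opc (a : D.HR k Z) (μ : Fin n → ℤ) :
    D.toQD.co (D.opc k a) μ = QD.ak n _ (D.ct k μ a) * D.cf k μ := by
  rw [opc, QD.co_sum]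
  simp only [QD.co_sg]
  rw [Finset.sum_ite_eq']
  split_ifs with h
  · rfl
  · rw [D.ct_out h, map_zero, zero_mul]

theorem cf_ne (k : ℕ) (μ : Fin n → ℤ) : D.cf k μ ≠ 0 :=
  div_ne_zero (D.toQD.rho_ne μ) (op_ak (D.EE_ne k))

theorem op_ne (a : D.HR k Z) (μ : Fin n → ℤ) :
    D.toQD.co (D.opc k a) μ ≠ 0 ↔ D.ct k μ a ≠ 0 := by
  rw [co_opc]
  refine ⟨fun h h1 => h (by rw [h1, map_zero, zero_mul]), fun h => ?_⟩
  exact mul_ne_zero (op_ak h) (D.cf_ne k μ)

theorem opc_add (a b : D.HR k Z) : D.opc k (a + b) = D.opc k a + D.opc k b :=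
  D.toQD.op_ext fun μ => by
    rw [QD.co_add, co_opc, co_opc, co_opc, ct_add, map_add, add_mul]

theorem opc_zero : D.opc k (0 : D.HR k Z) = 0 :=
  D.toQD.op_ext fun μ => by rw [co_opc, ct_zero, map_zero, zero_mul, QD.co_zero]

theorem opc_gp (h : (D.aX k).Pr univ Z) (h' : (D.aX k).Pr univ Z') (e : Z ⊆ D.RR k) (e' : Z' ⊆ Z)
    (a : D.HR k Z') : D.opc k (gp (D.aX k) id id univ Z a : D.HR k Z) = D.opc k a :=
  D.toQD.op_ext fun μ => by rw [co_opc, co_opc, D.ct_gp h h' e e']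

theorem opc_incl (a : D.HR k (D.RR k)) : D.opc (k + 1) (D.incl k a) = D.opc k a :=
  D.toQD.op_ext fun μ => by
    have h := congrArg (QD.ak n _) (D.ct_incl k μ a)
    rw [map_mul, map_mul] at h
    rw [co_opc, co_opc]
    exact op_div (op_ak (D.EE_ne k)) (op_ak (D.EE_ne (k + 1))) h

theorem opc_conv (k l : ℕ) (a : D.HR k (D.RR k)) (b : D.HR l (D.RR l)) :
    D.opc (k + l) (D.conv k l a b) = D.opc k a * D.opc l b := by
  refine D.toQD.op_ext fun ν => ?_
  have hs : D.toQD.sup (D.opc k a) ⊆ box (Fin n) k := fun μ hμ => by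
    by_contra h
    exact D.toQD.mem_sup.1 hμ (by rw [co_opc, D.ct_out h, map_zero, zero_mul])
  rw [D.toQD.co_mul_of_subset _ _ _ hs, co_opc]
  by_cases hν : ν ∈ box (Fin n) (k + l)
  · have hA := op_ak (D.EE_ne k)
    have h1 := congrArg (QD.ak n _) (D.conv_outer k l a b hν)
    rw [map_mul, map_sum, mul_comm, ← eq_div_iff hA] at h1
    rw [h1, Finset.sum_div, Finset.sum_mul]
    refine Finset.sum_congr rfl fun μ hμ => ?_
    have h2 := congrArg (QD.ak n _) (D.conv_inner k l b hμ hν)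
    rw [map_mul, map_mul, shP_eq, shP_eq] at h2
    have h3 := D.toQD.rho_add μ (ν - μ)
    rw [add_sub_cancel] at h3
    rw [co_opc, co_opc, cf, cf, cf, h3, map_mul, map_mul, map_div₀, QD.act_alg, QD.act_alg]
    exact op_term hA (op_ak (D.EE_ne (k + l))) (op_ak (D.toQD.sh_ne μ (D.EE_ne l))) h2
  · rw [D.ct_out hν, map_zero, zero_mul]
    refine (Finset.sum_eq_zero fun μ hμ => ?_).symm
    have h1 : ν - μ ∉ box (Fin n) l := fun h => hν (by simpa using add_mem_box hμ h)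
    rw [D.co_opc b, D.ct_out h1, map_zero, zero_mul, map_zero, mul_zero]

theorem opc_inj {a : D.HR k (D.RR k)} (h : D.opc k a = 0) : a = 0 :=
  D.ct_inj a fun μ => by
    by_contra h1
    exact (D.op_ne a μ).2 h1 (by rw [h, QD.co_zero])

theorem opc_cst (c : D.HP) : D.opc 0 (D.cst c) = D.toQD.cst _ (D.lam c) :=
  D.toQD.op_ext fun μ => by
    rw [co_opc, QD.cst_eq, QD.co_sg]
    split_ifs with h
    · subst h
      rw [ct_cst, cf, QD.rho_zero, EE_zero, map_one, div_one, mul_one]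
    · have h1 : μ ∉ box (Fin n) 0 := fun h1 => h (funext fun a => by
        have := mem_box.1 h1 a
        simp only [Pi.zero_apply]
        omega)
      rw [D.ct_out h1, map_zero, zero_mul]

theorem opc_inv (a : D.HR k (D.RR k)) (w : stab D.col) (μ : Fin n → ℤ) :
    D.toQD.co (D.opc k a) (μ ∘ w.1.symm) = QD.rnK w.1 (D.toQD.co (D.opc k a) μ) := by
  rw [co_opc, co_opc, D.ct_weyl k w.2, cf, cf, map_mul, map_div₀, QD.rnK_ak, QD.rnK_ak,
    D.toQD.rnK_rho w, rename_EE]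

theorem opc_lead (a : D.HR k (D.RR k)) {l : Fin n → ℤ} (h : D.toQD.co (D.opc k a) l ≠ 0)
    (hm : ∀ μ, D.toQD.co (D.opc k a) μ ≠ 0 → toLex μ ≤ toLex l) :
    ∃ g, D.toQD.co (D.opc k a) l = QD.ak n _ (g * D.toQD.mm l) / QD.ak n _ (D.toQD.ee l) := by
  have hw : ∀ μ, D.ct k μ a ≠ 0 → ∀ w : stab D.col, D.ct k (μ ∘ w.1.symm) a ≠ 0 := by
    intro μ hμ w
    rw [D.ct_weyl k w.2]
    exact (map_ne_zero_iff _ (MvPolynomial.rename_injective _ w.1.injective)).2 hμ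
  have hl : D.ct k l a ≠ 0 := (D.op_ne a l).1 h
  have hm' : ∀ μ, D.ct k μ a ≠ 0 → toLex μ ≤ toLex l := fun μ hμ => hm μ ((D.op_ne a μ).2 hμ)
  have hb : l ∈ box (Fin n) k := by_contra fun h1 => hl (D.ct_out h1 a)
  have hd : Dom D.col l := dom_of_max fun w => hm' _ (hw l hl w)
  obtain ⟨f, hf⟩ := D.ctT_lead (D.rT k _ a) hw hl hm'
  rw [D.mq_eq hb, D.eC_eq hb hd] at hf
  have h1 := congrArg (QD.ak n _) hf
  rw [map_mul, map_mul, map_mul] at h1
  refine ⟨f, ?_⟩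
  rw [co_opc, cf, QD.rho, map_mul]
  exact op_lead (op_ak (D.EE_ne k)) (op_ak (D.toQD.mp_ne l)) (op_ak (D.toQD.ee_ne l)) h1

end Qv

end Pool.Agent.Work.MP_849ab0_ag.G
end
end

-- merged part: Pool.Agent.Work.MP_849ab0_ag.G.C.Fmo
section
/-!
Task C-Fmo. Monopole operators come from classes; the image is the Coulomb branch algebra.
Plan exists_mon: μ ∈ box 1, Dl = ee μ * δ (ee_dvd_Dl). y = pm (g * δ) (ptX 1 μ); res_span writes y = ∑ sm (polx (monomial m 1)) (rT a m) = ∑ pm (f m) (rT (a m)), f m = map C (monomial m 1) (pol2_map).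
anti gives s m ∈ Inv, exists_lam gives c m; put a' = ∑ sm (c m) (a m). With X m = opc (a m): co (opc a') ν = ∑ ak (s m) * co (X m) ν (ct_sum, ct_sm) and co (X m) ν = rnK w (co (X m) (ν ∘ w)) (opc_inv), so
co (opc a') ν = ∑ w, rnK w (ak (ctT (ν ∘ w) y) * cf (ν ∘ w) / ak Dl); ctT_pm, ctT_ptX, mq_eq, co_mon_K.
BB is a subring: lift two elements to a common level by iterating opc_incl.
-/

noncomputable section

set_option linter.unusedSectionVars false
set_option linter.unusedVariables false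

namespace Pool.Agent.Work.MP_849ab0_ag.G

open Set Topology Matrix

variable {v n : ℕ} {E κ : Type} [Fintype E] [Fintype κ] [DecidableEq κ]
  (D : Qv (Fin v) (Fin n) E κ)

namespace Qv

theorem fmo_perm (w : Equiv.Perm (Fin n)) (ν : Fin n → ℤ) : (ν ∘ w) ∘ w.symm = ν := by
  funext a
  simp

theorem fmo_iff (w : Equiv.Perm (Fin n)) (μ ν : Fin n → ℤ) : ν ∘ w = μ ↔ μ ∘ w.symm = ν := by
  constructor
  · rintro rfl
    exact fmo_perm w ν
  · rintro rfl
    funext a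
    simp

theorem fmo_fld {K : Type} [Field K] (g m : K) {e p q d : K} (h1 : e ≠ 0) (h2 : p ≠ 0) (h3 : q ≠ 0)
    (h4 : d ≠ 0) : g * d * (e * p) * (m / p / e / (q * d)) = g * m / q := by
  field_simp

theorem fmo_fld2 {K : Type} [Field K] (a b c d : K) : a / d * (b * c) = a * b * (c / d) := by
  ring

theorem exists_mon {μ : Fin n → ℤ} (hμ : (∀ a, μ a = 0 ∨ μ a = 1) ∨ (∀ a, μ a = 0 ∨ μ a = -1))
    (g : PL (Fin n) κ) : ∃ a : D.HR 1 (D.RR 1), D.opc 1 a = D.toQD.mon _ μ g := by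
  classical
  have hb : μ ∈ box (Fin n) 1 := mem_box.2 fun a => by
    rcases hμ with h | h <;> rcases h a with h1 | h1 <;> rw [h1] <;> norm_num
  obtain ⟨δ, hδ⟩ := D.toQD.ee_dvd_Dl hμ
  obtain ⟨z, hz⟩ := res_span (D.pr_RR 1) (pm (g * δ) (D.ptX 1 μ))
  obtain ⟨f, hf⟩ : ∃ f : (Fin n →₀ ℕ) → PL (Fin n) κ,
      ∀ m, f m = MvPolynomial.map MvPolynomial.C (MvPolynomial.monomial m (1 : ℂ)) :=
    ⟨_, fun _ => rfl⟩
  choose s hs hs' using fun m : Fin n →₀ ℕ => D.toQD.anti (f m)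
  choose c hc using fun m => D.exists_lam (hs m)
  refine ⟨∑ m ∈ z.support, sm (c m) (z m), D.toQD.op_ext fun ν => ?_⟩
  have key : ∀ l, ∑ m ∈ z.support, f m * D.ct 1 l (z m) =
      if l = μ then g * δ * (D.EE 1 * D.toQD.mp μ) else 0 := by
    intro l
    have h1 := congrArg (D.ctT 1 l) hz
    rw [D.ctT_pm ((D.pr_RR 1).res _) subset_rfl, D.ctT_ptX hb, D.mq_eq hb, mul_ite, mul_zero]
      at h1
    rw [h1]
    refine Eq.symm ((D.ctT_sum _ _).trans (Finset.sum_congr rfl fun m _ => ?_))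
    beta_reduce
    rw [← pol2_map, ← hf]
    exact D.ctT_pm ((D.pr_RR 1).res _) subset_rfl (f m) (D.rT 1 _ (z m))
  have h1 : ∀ m, QD.ak n _ (D.ct 1 ν (sm (c m) (z m))) * D.cf 1 ν =
      ∑ w : stab D.col, QD.rnK w.1 (QD.ak n _ (f m * D.ct 1 (ν ∘ w.1) (z m)) *
        (D.cf 1 (ν ∘ w.1) / QD.ak n _ D.toQD.Dl)) := by
    intro m
    rw [D.ct_sm (D.pr_RR 1) subset_rfl, hc, map_mul, mul_assoc, ← D.co_opc, hs', Finset.sum_mul]
    refine Finset.sum_congr rfl fun w _ => ?_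
    have e := D.opc_inv (z m) w (ν ∘ w.1)
    rw [fmo_perm] at e
    rw [e, ← map_mul, D.co_opc, map_mul (QD.ak n _)]
    exact congrArg _ (fmo_fld2 _ _ _ _)
  rw [co_opc, ct_sum, QD.co_mon_K, map_sum, Finset.sum_mul, Finset.sum_congr rfl fun m _ => h1 m,
    Finset.sum_comm]
  refine Finset.sum_congr rfl fun w _ => ?_
  rw [← map_sum, ← Finset.sum_mul, ← map_sum, key]
  by_cases e : μ ∘ w.1.symm = ν
  · have e' := (fmo_iff _ _ _).2 e
    have n1 := (map_ne_zero_iff _ QD.ak_inj).2 (D.EE_ne 1)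
    have n2 := (map_ne_zero_iff _ QD.ak_inj).2 (D.toQD.mp_ne μ)
    have n3 := (map_ne_zero_iff _ QD.ak_inj).2 (D.toQD.ee_ne μ)
    have n4 := (map_ne_zero_iff _ QD.ak_inj).2 (right_ne_zero_of_mul (hδ ▸ D.toQD.Dl_ne))
    rw [if_pos e, if_pos e', e', cf, QD.rho, hδ]
    refine congrArg _ ?_
    rw [map_mul, map_mul, map_mul, map_mul, map_mul]
    exact fmo_fld _ _ n1 n2 n3 n4
  · rw [if_neg e, if_neg (mt (fmo_iff _ _ _).1 e), map_zero, zero_mul, map_zero]

theorem exists_level {k l : ℕ} (h : k ≤ l) (a : D.HR k (D.RR k)) :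
    ∃ b : D.HR l (D.RR l), D.opc l b = D.opc k a := by
  induction h with
  | refl => exact ⟨a, rfl⟩
  | step _ ih =>
    obtain ⟨b, hb⟩ := ih
    exact ⟨D.incl _ b, (D.opc_incl b).trans hb⟩

theorem fmo_cst {f : PL (Fin n) κ} (h : f ∈ Inv (MvPolynomial κ ℂ) D.col) :
    ∃ (k : ℕ) (a : D.HR k (D.RR k)), D.opc k a = D.toQD.cst _ f := by
  obtain ⟨c, rfl⟩ := D.exists_lam h
  exact ⟨0, D.cst c, D.opc_cst c⟩

/-- the image of the convolution algebra -/
def fmo_B : Subring (D.toQD.Op (KF n κ)) where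
  carrier := {x | ∃ (k : ℕ) (a : D.HR k (D.RR k)), D.opc k a = x}
  mul_mem' := by
    rintro _ _ ⟨k, a, rfl⟩ ⟨l, b, rfl⟩
    exact ⟨k + l, D.conv k l a b, D.opc_conv k l a b⟩
  one_mem' := by
    obtain ⟨k, a, h⟩ := D.fmo_cst (one_mem _)
    exact ⟨k, a, h.trans (map_one (D.toQD.cstHom _))⟩
  add_mem' := by
    rintro _ _ ⟨k, a, rfl⟩ ⟨l, b, rfl⟩
    obtain ⟨a', ha⟩ := D.exists_level (le_max_left k l) a
    obtain ⟨b', hb⟩ := D.exists_level (le_max_right k l) b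
    exact ⟨max k l, a' + b', by rw [D.opc_add, ha, hb]⟩
  zero_mem' := ⟨0, 0, D.opc_zero⟩
  neg_mem' := by
    rintro _ ⟨k, a, rfl⟩
    refine ⟨k, -a, eq_neg_of_add_eq_zero_left ?_⟩
    rw [← D.opc_add, neg_add_cancel, D.opc_zero]

theorem mem_Alg_iff (x : D.toQD.Op (KF n κ)) :
    x ∈ D.toQD.Alg _ ↔ ∃ (k : ℕ) (a : D.HR k (D.RR k)), D.opc k a = x := by
  have h : D.toQD.Alg _ ≤ D.fmo_B := by
    refine Subring.closure_le.2 ?_
    rintro _ (⟨f, hf, rfl⟩ | ⟨μ, g, hμ, rfl⟩)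
    · exact D.fmo_cst hf
    · exact ⟨1, D.exists_mon hμ g⟩
  refine ⟨fun hx => h hx, fun hx => D.toQD.le_Alg D.fmo_B h ?_ ?_ hx⟩
  · rintro _ ⟨k, a, rfl⟩ w μ
    exact D.opc_inv a w μ
  · rintro _ ⟨k, a, rfl⟩ l h1 h2
    exact D.opc_lead a h1 h2

end Qv

end Pool.Agent.Work.MP_849ab0_ag.G
end
end

-- merged part: Pool.Agent.Work.MP_849ab0_ag.G.C.Hmg
section
/-!
Task C-Hmg. Homogeneous operators of weight zero are congruent to homogeneous invariants.
Plan: let sc be the ring automorphism of PL that multiplies all variables X a and C (X j) by 2 (Hm d f gives sc f = 2 ^ d * f), extend it to KF (IsFractionRing.ringEquivOfRingEquiv);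
it commutes with the shifts and with rename, so opMap gives a ring endomorphism Θ of Op with Θ (cst f) = cst (sc f) and Θ (mon μ g) = mon μ (c * sc g) (mm, ee are homogeneous, c = C of a power of 2):
Θ preserves Alg, Hom, JJ. stmt3 gives x - cst f ∈ JJ, and Θ x = cst (2 ^ d) * x, so sc f - 2 ^ d * f lies in I = {f ∈ Inv | cst f ∈ JJ}, a ℂ-subspace stable under sc
(JJ is stable under left multiplication by cst (C r), which is central). An sc-stable subspace contains the homogeneous components of its elements (induction on the number of components,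
apply sc - 2 ^ e); components of invariants are invariant. Hence all components of f of degree ≠ d lie in I.
-/

noncomputable section

set_option linter.unusedSectionVars false
set_option linter.unusedVariables false

namespace Pool.Agent.Work.MP_849ab0_ag.G

open Set Topology Matrix

variable {v n : ℕ} {E κ : Type} [Fintype E] [Fintype κ] [DecidableEq κ]
  (D : Qv (Fin v) (Fin n) E κ)

section

open MvPolynomial

/-- the grading of the flavour ring -/
def hmg_g (κ : Type) : MvPolynomial κ ℂ →+* Polynomial (MvPolynomial κ ℂ) :=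
  eval₂Hom (Polynomial.C.comp C) fun j => Polynomial.C (X j) * Polynomial.X

theorem hmg_g_C {κ : Type} (c : ℂ) : hmg_g κ (C c) = Polynomial.C (C c) := eval₂Hom_C _ _ _

theorem hmg_g_X {κ : Type} (j : κ) : hmg_g κ (X j) = Polynomial.C (X j) * Polynomial.X :=
  eval₂Hom_X' _ _ _

/-- the grading as a structure -/
def hmg_G (κ : Type) : Grd2 (MvPolynomial κ ℂ) where
  g := hmg_g κ
  eval_one r := by
    induction r using MvPolynomial.induction_on with
    | C c => simp [hmg_g]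
    | add p q hp hq => simp [hp, hq]
    | mul_X p j hp => rw [map_mul, Polynomial.eval_mul, hp]; simp [hmg_g]
  g_two r := by
    induction r using MvPolynomial.induction_on with
    | C c => simp [hmg_g]
    | add p q hp hq => simp [hp, hq]
    | mul_X p j hp =>
      rw [map_mul, Polynomial.eval_mul, map_mul, hp]
      simp only [hmg_g_X, Polynomial.eval_mul, Polynomial.eval_C, Polynomial.eval_X, map_mul,
        map_ofNat, Polynomial.mul_comp, Polynomial.C_comp, Polynomial.X_comp]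
      ring

theorem hmg_lf (m : κ → ℤ) : (hmg_G κ).g (lf ℂ m) = Polynomial.C (lf ℂ m) * Polynomial.X := by
  change hmg_g κ _ = _
  simp only [lf, map_sum, map_mul, map_intCast, hmg_g_X, Finset.sum_mul, mul_assoc]

theorem hmg_CC (c : ℂ) : (hmg_G κ).Gr (C (C c) : PL (Fin n) κ) = Polynomial.C (C (C c)) := by
  rw [Grd2.Gr_C]
  change (hmg_g κ _).map _ = _
  rw [hmg_g_C, Polynomial.map_C]

theorem hmg_X (s : Fin n ⊕ κ) : (hmg_G κ).Gr (sumAlgEquiv ℂ (Fin n) κ (X s)) =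
    Polynomial.C (sumAlgEquiv ℂ (Fin n) κ (X s)) * Polynomial.X := by
  rcases s with a | j
  · rw [sumAlgEquiv_X_inl, Grd2.Gr_X]
  · rw [sumAlgEquiv_X_inr, Grd2.Gr_C]
    change (hmg_g κ _).map _ = _
    rw [hmg_g_X, Polynomial.map_mul, Polynomial.map_C, Polynomial.map_X]

theorem hmg_coeff (p : MvPolynomial (Fin n ⊕ κ) ℂ) (i : ℕ) :
    ((hmg_G κ).Gr (sumAlgEquiv ℂ (Fin n) κ p)).coeff i =
      sumAlgEquiv ℂ (Fin n) κ (homogeneousComponent i p) := by
  induction p using MvPolynomial.induction_on' with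
  | monomial m c =>
    have e : (hmg_G κ).Gr (sumAlgEquiv ℂ (Fin n) κ (monomial m c)) =
        Polynomial.C (sumAlgEquiv ℂ (Fin n) κ (monomial m c)) * Polynomial.X ^ m.degree := by
      rw [monomial_eq, map_mul, map_mul, map_mul, sumAlgEquiv_C_inl, hmg_CC, Finsupp.degree_apply,
        Finsupp.prod, map_prod, map_prod, map_prod, ← Finset.prod_pow_eq_pow_sum, mul_assoc,
        ← Finset.prod_mul_distrib]
      simp only [map_pow, hmg_X, mul_pow]
    rw [e, Polynomial.coeff_C_mul_X_pow, homogeneousComponent_of_mem (isHomogeneous_monomial c rfl)]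
    split_ifs
    exacts [rfl, (map_zero _).symm]
  | add p q hp hq => simp only [map_add, Polynomial.coeff_add, hp, hq]

theorem hmg_hm (f : PL (Fin n) κ) (i : ℕ) : Hm i (((hmg_G κ).Gr f).coeff i) := by
  obtain ⟨p, rfl⟩ := (sumAlgEquiv ℂ (Fin n) κ).surjective f
  rw [hmg_coeff, Hm, AlgEquiv.symm_apply_apply]
  exact homogeneousComponent_isHomogeneous _ _

theorem hmg_sc {f : PL (Fin n) κ} {i : ℕ} (h : Hm i f) : (hmg_G κ).sc f = 2 ^ i * f := by
  obtain ⟨p, rfl⟩ := (sumAlgEquiv ℂ (Fin n) κ).surjective f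
  rw [Hm, AlgEquiv.symm_apply_apply] at h
  have e : (hmg_G κ).Gr (sumAlgEquiv ℂ (Fin n) κ p) =
      Polynomial.C (sumAlgEquiv ℂ (Fin n) κ p) * Polynomial.X ^ i := by
    ext1 j
    rw [hmg_coeff, Polynomial.coeff_C_mul_X_pow, homogeneousComponent_of_mem h]
    split_ifs
    exacts [rfl, map_zero _]
  rw [Grd2.sc, RingHom.comp_apply, e, Polynomial.coe_evalRingHom, Polynomial.eval_mul,
    Polynomial.eval_C, Polynomial.eval_pow, Polynomial.eval_X, mul_comm]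

section

variable {R : Type} [CommRing R] [IsDomain R] [Algebra ℚ R] (G : Grd2 R) (Q : QD v n E R)
  (ht : ∀ e, G.g (Q.t e) = Polynomial.C (Q.t e) * Polynomial.X)
  (hg : G.g Q.h = Polynomial.C Q.h * Polynomial.X)

theorem hmg_inj : Function.Injective ((QD.ak n R).comp G.sc) := by
  refine QD.ak_inj.comp ((injective_iff_map_eq_zero G.sc).2 fun p hp => ?_)
  have e := G.Gr_sc p
  rw [hp, map_zero] at e
  have h2 : (2 : Pol n R) ≠ 0 := (QD.isUnit_two2.map (C : R →+* Pol n R)).ne_zero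
  rw [← G.eval_Gr p, show G.Gr p = 0 from Polynomial.ext fun i => ?_, Polynomial.eval_zero]
  have e' := congrArg (Polynomial.coeff · i) e
  simp only [Polynomial.coeff_zero, Polynomial.comp_C_mul_X_coeff] at e'
  exact (mul_eq_zero.1 e'.symm).resolve_right (pow_ne_zero _ h2)

/-- scaling on the field of fractions -/
def hmg_psi : QD.Fr n R →+* QD.Fr n R := IsFractionRing.lift (hmg_inj G)

theorem hmg_psi_ak (f : Pol n R) : hmg_psi G (QD.ak n R f) = QD.ak n R (G.sc f) :=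
  IsFractionRing.lift_algebraMap _ _

include hg in
theorem hmg_act (μ : Fin n → ℤ) (c : QD.Fr n R) :
    hmg_psi G (Q.act _ μ c) = Q.act _ μ (hmg_psi G c) := by
  have : (hmg_psi G).comp (Q.act (QD.Fr n R) μ) = (Q.act (QD.Fr n R) μ).comp (hmg_psi G) :=
    IsLocalization.ringHom_ext (nonZeroDivisors (Pol n R)) (RingHom.ext fun f => by
      simp only [RingHom.comp_apply, QD.act_alg, hmg_psi_ak, Q.sc_sh2 G hg])
  exact RingHom.congr_fun this c

/-- scaling on operators -/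
def hmg_th : Q.Op (QD.Fr n R) →+* Q.Op (QD.Fr n R) := Q.opMap Q (hmg_psi G) (hmg_act G Q hg)

theorem hmg_cst (f : Pol n R) : hmg_th G Q hg (Q.cst _ f) = Q.cst _ (G.sc f) := by
  rw [QD.cst_eq, QD.cst_eq, hmg_th, QD.opMap_sg, hmg_psi_ak]

include ht in
theorem hmg_mon (μ : Fin n → ℤ) (g : Pol n R) :
    ∃ g', hmg_th G Q hg (Q.mon _ μ g) = Q.mon _ μ g' := by
  obtain ⟨c, -, hc⟩ : ∃ c : R, IsUnit c ∧ G.sc (Q.mm μ) = C c * Q.mm μ := by
    refine QD.sc_prod2 G _ _ fun p _ => QD.sc_prod2 G _ _ fun j _ => ⟨2, QD.isUnit_two2, ?_⟩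
    have hx : ∀ o : Option (Fin n), G.sc (xv o : Pol n R) = 2 * xv o := by
      intro o; cases o <;> simp [G.sc_X]
    simp only [QD.chi, map_add, map_sub, map_mul, map_intCast, Q.sc_h2 G hg, hx, G.sc_C, ht,
      Polynomial.eval_mul, Polynomial.eval_C, Polynomial.eval_X, map_ofNat]
    ring
  obtain ⟨d, ⟨d, rfl⟩, hd⟩ : ∃ c : R, IsUnit c ∧ G.sc (Q.ee μ) = C c * Q.ee μ :=
    QD.sc_prod2 G _ _ fun p _ => QD.sc_prod2 G _ _ fun j _ =>
      ⟨2, QD.isUnit_two2, Q.sc_rt2 G hg _ _ _⟩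
  refine ⟨C (c * ↑d⁻¹) * G.sc g, ?_⟩
  unfold QD.mon
  rw [map_sum]
  refine Finset.sum_congr rfl fun w _ => ?_
  have hu : IsUnit (QD.ak n R (rename w.1 (Q.ee μ))) := by
    rw [QD.rename_ee]
    exact ((map_ne_zero_iff _ QD.ak_inj).2 (Q.ee_ne _)).isUnit
  have hd' : Ring.inverse (QD.ak n R (C (d : R))) = QD.ak n R (C (↑d⁻¹ : R)) := by
    rw [← map_inverse _ (d.isUnit.map C), ← map_inverse _ d.isUnit, Ring.inverse_unit]
  change Q.opMap Q _ _ (Q.sg _ _) = Q.sg _ _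
  rw [QD.opMap_sg, map_mul, map_inverse _ hu, hmg_psi_ak, hmg_psi_ak, G.sc_rename, G.sc_rename,
    map_mul G.sc, hc, hd]
  simp only [map_mul, rename_C, inverse_mul', hd']
  congr 1
  ring

include ht in
theorem hmg_mem {x : Q.Op (QD.Fr n R)} (hx : x ∈ Q.Alg _) : hmg_th G Q hg x ∈ Q.Alg _ := by
  have : Q.Alg _ ≤ (Q.Alg _).comap (hmg_th G Q hg) := by
    refine Subring.closure_le.2 ?_
    rintro x (⟨f, hf, rfl⟩ | ⟨μ, g, hμ, rfl⟩)
    · rw [SetLike.mem_coe, Subring.mem_comap, hmg_cst]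
      exact Q.cst_mem fun w hw => by rw [← G.sc_rename, hf w hw]
    · obtain ⟨g', hg'⟩ := hmg_mon G Q ht hg μ g
      rw [SetLike.mem_coe, Subring.mem_comap, hg']
      exact Q.mon_mem hμ _
  exact this hx

include ht in
theorem hmg_JJ {ν : Fin v → ℤ} {x : Q.Op (QD.Fr n R)} (hx : x ∈ Q.JJ _ ν) :
    hmg_th G Q hg x ∈ Q.JJ _ ν := by
  induction hx using AddSubgroup.closure_induction with
  | mem x hx =>
    obtain ⟨m, hm, b, hb, a, ha, h1, h2, rfl⟩ := hx
    exact AddSubgroup.subset_closure ⟨m, hm, _, hmg_mem G Q ht hg hb, _, hmg_mem G Q ht hg ha,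
      fun μ hμ => h1 μ (Q.co_opMap_ne _ _ _ hμ), fun μ hμ => h2 μ (Q.co_opMap_ne _ _ _ hμ),
      map_mul _ _ _⟩
  | zero => rw [map_zero]; exact zero_mem _
  | add y z _ _ hy hz => rw [map_add]; exact add_mem hy hz
  | neg y _ hy => rw [map_neg]; exact neg_mem hy

/-- polynomials whose operator lies in the ideal -/
def hmg_U (ν : Fin v → ℤ) : Submodule R (Pol n R) where
  carrier := {p | Q.cstHom (QD.Fr n R) p ∈ Q.JJ _ ν}
  add_mem' := fun {p q} hp hq => by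
    rw [Set.mem_ofPred_eq, map_add]
    exact add_mem hp hq
  zero_mem' := by
    rw [Set.mem_ofPred_eq, map_zero]
    exact zero_mem _
  smul_mem' := fun c p hp => by
    rw [Set.mem_ofPred_eq, smul_eq_C_mul, map_mul]
    exact Q.C_mul_mem_JJ ν c hp

theorem hmg_mem_U {ν : Fin v → ℤ} {p : Pol n R} :
    p ∈ hmg_U Q ν ↔ Q.cst (QD.Fr n R) p ∈ Q.JJ _ ν := Iff.rfl

end

end

namespace Qv

theorem hmg {ν : Fin v → ℤ} (hν : D.Reg ν) {x : D.toQD.Op (KF n κ)} (hx : x ∈ D.toQD.Alg _)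
    (h0 : D.toQD.Hom _ ν 0 x) {d : ℤ}
    (hd : ∀ μ, D.toQD.co x μ = 0 ∨ ∃ (f g : PL (Fin n) κ) (a b : ℕ), Hm a f ∧ Hm b g ∧ g ≠ 0 ∧
      D.toQD.co x μ = QD.ak n _ f / QD.ak n _ g ∧ (a : ℤ) - b = d) :
    ∃ f ∈ Inv (MvPolynomial κ ℂ) D.col, (f = 0 ∨ ∃ e : ℕ, d = e ∧ Hm e f) ∧
      x - D.toQD.cst _ f ∈ D.toQD.JJ _ ν := by
  have ht : ∀ e, (hmg_G κ).g (D.toQD.t e) = Polynomial.C (D.toQD.t e) * Polynomial.X :=
    fun e => hmg_lf _
  have hg : (hmg_G κ).g D.toQD.h = Polynomial.C D.toQD.h * Polynomial.X := hmg_lf _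
  obtain ⟨f, hf, hJ⟩ := (D.toQD.stmt3 (D.reg_toQD hν)).1 x hx h0
  have h2 : ∀ i : ℕ, (2 : PL (Fin n) κ) ^ i = MvPolynomial.C (MvPolynomial.C ((2 : ℂ) ^ i)) :=
    fun i => by rw [map_pow, map_pow]; rfl
  have hth : hmg_th _ _ hg x =
      D.toQD.cst _ (MvPolynomial.C (MvPolynomial.C ((2 : ℂ) ^ d))) * x := by
    refine D.toQD.op_ext fun μ => ?_
    rw [hmg_th, QD.co_opMap, QD.cst_eq, QD.co_sg_mul, QD.act_zero, sub_zero]
    rcases hd μ with h | ⟨p, q, a, b, hp, hq, hq0, h, rfl⟩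
    · rw [h, map_zero, mul_zero]
    · rw [h, map_div₀, hmg_psi_ak, hmg_psi_ak, hmg_sc hp, hmg_sc hq, map_mul, map_mul,
        mul_div_mul_comm, h2, h2, zpow_sub₀ two_ne_zero, zpow_natCast, zpow_natCast]
      congr 1
      exact (map_div₀ ((QD.ak n (MvPolynomial κ ℂ)).comp (MvPolynomial.C.comp MvPolynomial.C))
        ((2 : ℂ) ^ a) (2 ^ b)).symm
  have hU : ∀ p ∈ hmg_U D.toQD ν, (hmg_G κ).sc p ∈ hmg_U D.toQD ν := fun p hp => by
    have := hmg_JJ _ _ ht hg ((hmg_mem_U _).1 hp)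
    rwa [hmg_cst] at this
  have h1 : MvPolynomial.C (MvPolynomial.C ((2 : ℂ) ^ d)) * f - (hmg_G κ).sc f ∈
      hmg_U D.toQD ν := by
    have := sub_mem (hmg_JJ _ _ ht hg hJ) (D.toQD.C_mul_mem_JJ ν (MvPolynomial.C ((2 : ℂ) ^ d)) hJ)
    rw [map_sub, hth, hmg_cst, mul_sub, sub_sub_sub_cancel_left] at this
    rw [hmg_mem_U, ← QD.cstHom_apply, map_sub, map_mul]
    exact this
  have h3 : ∀ i : ℕ, (i : ℤ) ≠ d → ((hmg_G κ).Gr f).coeff i ∈ hmg_U D.toQD ν := fun i hi => by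
    have hne : (2 : ℂ) ^ d - 2 ^ i ≠ 0 := sub_ne_zero.2 fun e => hi (by
      have e' : (2 : ℝ) ^ (i : ℤ) = 2 ^ d := by
        simpa using congrArg norm e.symm
      exact zpow_right_injective₀ two_pos (by norm_num) e')
    have := (hmg_U D.toQD ν).smul_mem (MvPolynomial.C ((2 : ℂ) ^ d - 2 ^ i)⁻¹)
      ((hmg_G κ).coeff_mem _ hU h1 i)
    rwa [map_sub, map_mul, hmg_CC, Grd2.Gr_sc, Polynomial.coeff_sub, Polynomial.coeff_C_mul,
      Polynomial.comp_C_mul_X_coeff, h2, mul_comm (Polynomial.coeff _ _), ← sub_mul, ← map_sub,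
      ← map_sub, MvPolynomial.smul_eq_C_mul, ← mul_assoc, ← map_mul, ← map_mul,
      inv_mul_cancel₀ hne, map_one, map_one, one_mul] at this
  have h4 := (hmg_G κ).eval_Gr f
  rw [Polynomial.eval_eq_sum_range,
    ← Finset.sum_filter_add_sum_filter_not _ fun i : ℕ => (i : ℤ) = d] at h4
  simp only [one_pow, mul_one] at h4
  refine ⟨∑ i ∈ (Finset.range (((hmg_G κ).Gr f).natDegree + 1)).filter fun i : ℕ => (i : ℤ) = d,
    ((hmg_G κ).Gr f).coeff i, sum_mem fun i _ => (hmg_G κ).coeff_Gr_mem hf i, ?_, ?_⟩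
  · rcases le_or_gt 0 d with h | h
    · lift d to ℕ using h
      refine Or.inr ⟨d, rfl, ?_⟩
      rw [Hm, map_sum]
      refine MvPolynomial.IsHomogeneous.sum _ _ _ fun i hi => ?_
      rw [show i = d from Int.natCast_inj.1 (Finset.mem_filter.1 hi).2]
      exact hmg_hm f d
    · exact Or.inl (Finset.sum_eq_zero fun i hi => by
        have := (Finset.mem_filter.1 hi).2
        omega)
  · have h5 := add_mem hJ ((hmg_mem_U _).1 (sum_mem (t := (Finset.range
      (((hmg_G κ).Gr f).natDegree + 1)).filter fun i : ℕ => ¬(i : ℤ) = d)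
      fun i hi => h3 i (Finset.mem_filter.1 hi).2))
    rwa [eq_sub_of_add_eq' h4, ← QD.cstHom_apply _ (_ - _), map_sub, QD.cstHom_apply,
      QD.cstHom_apply, sub_add_sub_cancel] at h5

end Qv

end Pool.Agent.Work.MP_849ab0_ag.G
end
end

-- merged part: Pool.Agent.Work.MP_849ab0_ag.G.C.Wsp
section
/-!
Task C-Wsp. Weight spaces and degrees; the main theorem of the Coulomb side.
Plan comp_supp: ctT_supp, prj_comp. comp_deg: co_opc, ctT_deg with m = p + 2 c + 2 card J - 2 card DI (IsDeg.gp), isDeg_pol2, cf_deg, comp_supp.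
comp_decomp: T = image of the box under μ ↦ (weight, degree), exists_sum_supp with comp_cover, comp_disj, pr_comp.
wsp_iff: closure induction for one direction (Hom is closed under sums: hom_iff, co_add); for the other write x = io k a, a = sum over T of gp (y i), each y i = sum of dpr (sum_dpr, isDeg_dpr), so io k (gp (y i)) ∈ wsp i.1;
apply cmp ν m (cmp_of_hom and its vanishing on other weights) to drop the terms with i.1 ≠ m.
piece_deg: p even, p = 2 d: hmg, exists_lam, isDeg_of_map for the injective graded map gpt inc (lam_inj, pol2_lam, isDeg_pol2). p odd: comp_deg forces x = 0, take c = 0.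
-/

noncomputable section

set_option linter.unusedSectionVars false
set_option linter.unusedVariables false

namespace Pool.Agent.Work.MP_849ab0_ag.G

open Set Topology Matrix

variable {v n : ℕ} {E κ : Type} [Fintype E] [Fintype κ] [DecidableEq κ]
  (D : Qv (Fin v) (Fin n) E κ)

namespace Qv

/-- the structure maps -/
def io (k : ℕ) : D.HR k (D.RR k) →+ D.toQD.Alg (KF n κ) where
  toFun a := ⟨D.opc k a, (D.mem_Alg_iff _).2 ⟨k, a, rfl⟩⟩
  map_zero' := Subtype.ext D.opc_zero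
  map_add' a b := Subtype.ext (D.opc_add a b)

theorem io_val (k : ℕ) (a : D.HR k (D.RR k)) : (D.io k a).1 = D.opc k a := rfl

theorem isBFN_io : D.IsBFN D.io := by
  refine ⟨fun k => (injective_iff_map_eq_zero _).2 fun a h => D.opc_inj (congrArg Subtype.val h),
    fun k a => Subtype.ext (D.opc_incl a), fun x => ?_,
    fun k l a b => Subtype.ext (D.opc_conv k l a b), Subtype.ext ?_⟩
  · obtain ⟨k, a, h⟩ := (D.mem_Alg_iff _).1 x.2
    exact ⟨k, a, Subtype.ext h⟩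
  · change D.opc 0 (D.cst 1) = 1
    rw [opc_cst, map_one, ← QD.cstHom_apply, map_one]

theorem wsp_sub (ν : Fin v → ℤ) (k : ℕ) (m c : ℤ) : D.comp ν k m c ⊆ D.RR k := fun _ h => h.1

theorem wsp_io {ν : Fin v → ℤ} {k : ℕ} {m c : ℤ} (a : D.HR k (D.comp ν k m c)) :
    (D.io k (gp (D.aX k) id id univ (D.RR k) a)).1 = D.opc k a :=
  D.opc_gp (D.pr_RR k) (D.pr_comp ν k m c) subset_rfl (D.wsp_sub ν k m c) a

theorem comp_supp {ν : Fin v → ℤ} {k : ℕ} {m c : ℤ} (a : D.HR k (D.comp ν k m c)) {μ : Fin n → ℤ}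
    (h : D.toQD.co (D.opc k a) μ ≠ 0) : D.toQD.dg ν μ = m ∧ ∑ p, D.xm μ p = c := by
  rw [co_opc] at h
  have h1 : D.ct k μ a ≠ 0 := fun e => h (by rw [e, map_zero, zero_mul])
  exact D.prj_comp ν (by_contra fun h2 => h1 (D.ct_out h2 a)) (by_contra fun h2 =>
    h1 (D.ctT_supp ((D.pr_comp ν k m c).res _) (D.wsp_sub ν k m c) h2 _))

theorem comp_deg {ν : Fin v → ℤ} {k : ℕ} {m c p : ℤ} {a : D.HR k (D.comp ν k m c)}
    (h : IsDeg (p + 2 * c + 2 * Fintype.card ((Fin n × Pos k) × (Fin n × Pos k))) a)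
    (μ : Fin n → ℤ) : D.toQD.co (D.opc k a) μ = 0 ∨ ∃ (f g : PL (Fin n) κ) (a' b : ℕ),
      Hm a' f ∧ Hm b g ∧ g ≠ 0 ∧ D.toQD.co (D.opc k a) μ = QD.ak n _ f / QD.ak n _ g ∧
        2 * ((a' : ℤ) - b) = p := by
  refine or_iff_not_imp_left.2 fun h0 => ?_
  have h1 := (D.comp_supp a h0).2
  obtain ⟨f, g, a', b, hf, hg, hg0, e, hd⟩ := D.cf_deg k μ
  have h2 := D.ctT_deg (μ := μ) ((D.pr_comp ν k m c).res _) (D.wsp_sub ν k m c)
    (m := p + 2 * c + 2 * Fintype.card ((Fin n × Pos k) × (Fin n × Pos k)) -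
      2 * Fintype.card (DI (Fin n) k)) (y := D.rT k _ a) (by
      rw [sub_add_cancel]
      exact h.gp _ _)
  rw [co_opc] at h0 ⊢
  rcases isDeg_pol2.1 h2 with h3 | ⟨d, h3, h4⟩
  · exact (h0 (by rw [ct, h3, map_zero, zero_mul])).elim
  · refine ⟨D.ct k μ a * f, g, d + a', b, Hm.mul h4 hf, hg, hg0, ?_, ?_⟩
    · rw [e, map_mul, mul_div_assoc]
    · push_cast
      omega

theorem comp_decomp (ν : Fin v → ℤ) {k : ℕ} (a : D.HR k (D.RR k)) :
    ∃ (T : Finset (ℤ × ℤ)) (y : ∀ i : ℤ × ℤ, D.HR k (D.comp ν k i.1 i.2)),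
      a = ∑ i ∈ T, gp (D.aX k) id id univ (D.RR k) (y i) := by
  classical
  let T : Finset (ℤ × ℤ) :=
    (box (Fin n) k).image fun μ => (∑ a, ν (D.col a) * μ a, ∑ p, D.xm μ p)
  obtain ⟨y, hy⟩ := exists_sum_supp (W := fun i : T => D.comp ν k i.1.1 i.1.2) (D.pr_RR k)
    (fun i => D.pr_comp ν k _ _) (by
      refine congrArg _ (Subset.antisymm (fun z hz => ?_) (iUnion_subset fun i => D.wsp_sub _ _ _ _))
      obtain ⟨μ, h1, h2⟩ := D.comp_cover ν hz
      exact mem_iUnion.2 ⟨⟨_, Finset.mem_image_of_mem _ h1⟩, h2⟩)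
    (fun i j hij => eq_empty_of_forall_notMem fun z hz =>
      hij (Subtype.ext (Prod.ext_iff.2 (D.comp_disj hz.1.2 hz.2)))) a
  refine ⟨T, fun i => if h : i ∈ T then y ⟨i, h⟩ else 0, hy.trans ?_⟩
  rw [← Finset.sum_coe_sort T]
  exact Finset.sum_congr rfl fun i _ => by simp only [dif_pos i.2]

theorem wsp_hom {ν : Fin v → ℤ} {k : ℕ} {m c : ℤ} (a : D.HR k (D.comp ν k m c)) :
    D.toQD.Hom _ ν m (D.io k (gp (D.aX k) id id univ (D.RR k) a)).1 := by
  rw [wsp_io]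
  exact D.toQD.hom_iff.2 fun μ h => (D.comp_supp a h).1

theorem wsp_mem {ν : Fin v → ℤ} {k : ℕ} {m c : ℤ} (a : D.HR k (D.comp ν k m c)) :
    D.io k (gp (D.aX k) id id univ (D.RR k) a) ∈ D.wsp D.io ν m := by
  obtain ⟨N, hN⟩ := sum_dpr a
  rw [← hN N le_rfl, map_sum, map_sum]
  refine sum_mem fun j _ => AddSubgroup.subset_closure (mem_iUnion.2
    ⟨j - 2 * c - 2 * Fintype.card ((Fin n × Pos k) × (Fin n × Pos k)), k, c, _, ?_, rfl⟩)
  convert isDeg_dpr j a using 1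
  ring

theorem wsp_iff (ν : Fin v → ℤ) (m : ℤ) (x : D.toQD.Alg (KF n κ)) :
    x ∈ D.wsp D.io ν m ↔ D.toQD.Hom _ ν m x.1 := by
  constructor
  · intro h
    have h0 : D.toQD.Hom (KF n κ) ν m 0 := D.toQD.hom_iff.2 fun μ h => (h (D.toQD.co_zero μ)).elim
    induction h using AddSubgroup.closure_induction with
    | mem x hx =>
      obtain ⟨p, k, c, a, -, rfl⟩ := mem_iUnion.1 hx
      exact D.wsp_hom a
    | zero => exact h0
    | add x y _ _ hx hy => simpa using hx.sub _ (h0.sub _ hy)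
    | neg x _ hx => simpa using h0.sub _ hx
  · intro h
    obtain ⟨k, a, rfl⟩ := D.isBFN_io.surj x
    obtain ⟨T, y, rfl⟩ := D.comp_decomp ν a
    have e : D.io k (∑ i ∈ T, gp (D.aX k) id id univ (D.RR k) (y i)) =
        ∑ i ∈ T with i.1 = m, D.io k (gp (D.aX k) id id univ (D.RR k) (y i)) := by
      refine Subtype.ext ((D.toQD.cmp_of_hom h).symm.trans ?_)
      rw [map_sum, AddSubmonoidClass.coe_finsetSum, map_sum, AddSubmonoidClass.coe_finsetSum,
        Finset.sum_filter]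
      refine Finset.sum_congr rfl fun i _ => ?_
      split_ifs with hi
      · exact D.toQD.cmp_of_hom (hi ▸ D.wsp_hom (y i))
      · exact D.toQD.cmp_of_hom_ne (D.wsp_hom (y i)) hi
    rw [e]
    exact sum_mem fun i hi => (Finset.mem_filter.1 hi).2 ▸ D.wsp_mem (y i)

theorem piece_deg {ν : Fin v → ℤ} (hν : D.Reg ν) (p : ℤ) (x : D.toQD.Alg (KF n κ))
    (hx : x ∈ D.piece D.io ν 0 p) :
    ∃ c : D.HP, IsDeg p c ∧ x.1 - D.toQD.cst _ (D.lam c) ∈ D.toQD.JJ _ ν := by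
  obtain ⟨k, c, a, ha, rfl⟩ := hx
  rcases Int.even_or_odd' p with ⟨d, rfl | rfl⟩
  · obtain ⟨f, hf, h1, h2⟩ := D.hmg hν (D.io k (gp (D.aX k) id id univ (D.RR k) a)).2
      (D.wsp_hom a) (d := d) fun μ => by
        rw [wsp_io]
        refine (D.comp_deg ha μ).imp_right fun ⟨f, g, a', b, h1, h2, h3, h4, h5⟩ =>
          ⟨f, g, a', b, h1, h2, h3, h4, by omega⟩
    obtain ⟨e, rfl⟩ := D.exists_lam hf
    refine ⟨e, isDeg_of_map (d := 0) (res_inj (col := D.col) (c := Act.pt _) (Act.pr_pt _))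
      (fun p x hx => by simpa using hx.gp _ _) ?_, h2⟩
    rw [add_zero]
    refine (D.pol2_lam e).subst (motive := fun y => IsDeg (2 * d) y) (isDeg_pol2.2 ?_)
    exact h1.imp_right fun ⟨j, h3, h4⟩ => ⟨j, by rw [h3], h4⟩
  · refine ⟨0, isDeg_zero, ?_⟩
    have : D.opc k a = 0 := D.toQD.op_ext fun μ => by
      rcases D.comp_deg ha μ with h | ⟨f, g, a', b, -, -, -, -, h⟩
      · rw [h, QD.co_zero]
      · omega
    rw [wsp_io, this, map_zero, ← QD.cstHom_apply, map_zero, sub_zero]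
    exact zero_mem _

theorem cmain' {ν : Fin v → ℤ} (hν : D.Reg ν) :
    ∃ ι : ∀ m, D.HR m (D.RR m) →+ D.toQD.Alg (KF n κ), D.IsBFN ι ∧
      (∀ m x, x ∈ D.wsp ι ν m ↔ D.toQD.Hom _ ν m x.1) ∧
      (∀ c, (ι 0 (D.cst c)).1 = D.toQD.cst _ (D.lam c)) ∧
      ∀ p, ∀ x ∈ D.piece ι ν 0 p, ∃ c : D.HP, IsDeg p c ∧
        x.1 - D.toQD.cst _ (D.lam c) ∈ D.toQD.JJ _ ν :=
  ⟨D.io, D.isBFN_io, D.wsp_iff ν, D.opc_cst, D.piece_deg hν⟩

end Qv

end Pool.Agent.Work.MP_849ab0_ag.G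
end
end

-- merged part: Pool.Agent.Work.MP_849ab0_ag.G.IfC
section
/-!
Interface of the Coulomb part (owner helper75).
-/

noncomputable section

set_option linter.unusedSectionVars false
set_option linter.unusedVariables false

namespace Pool.Agent.Work.MP_849ab0_ag.G

open Set Topology Matrix

variable {k n : ℕ} {E κ : Type} [Fintype E] [Fintype κ] [DecidableEq κ]
  (D : Qv (Fin k) (Fin n) E κ)

namespace Qv

theorem cmain {ν : Fin k → ℤ} (hν : D.Reg ν) :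
    ∃ ι : ∀ m, D.HR m (D.RR m) →+ D.toQD.Alg (KF n κ), D.IsBFN ι ∧
      (∀ m x, x ∈ D.wsp ι ν m ↔ D.toQD.Hom _ ν m x.1) ∧
      (∀ c, (ι 0 (D.cst c)).1 = D.toQD.cst _ (D.lam c)) ∧
      ∀ p, ∀ x ∈ D.piece ι ν 0 p, ∃ c : D.HP, IsDeg p c ∧
        x.1 - D.toQD.cst _ (D.lam c) ∈ D.toQD.JJ _ ν := D.cmain' hν

end Qv

end Pool.Agent.Work.MP_849ab0_ag.G
end
end
end
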