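import Pool.Agent.Work.MP_849ab0_ag.G.CohL
import Pool.Agent.Work.MP_849ab0_ag.G.Cx

/-! Cochain algebra: cone, masks, cut, prism and reversal operators. -/

noncomputable section

set_option linter.unusedSectionVars false

namespace Pool.Agent.Work.MP_849ab0_ag.G

open Set Topology Finset

variable {X Y W : Type}

/-- The cone operator. -/
def cn (a : X) : (List X → ℂ) →ₗ[ℂ] (List X → ℂ) := LinearMap.funLeft ℂ ℂ (List.cons a)

@[simp] theorem cn_apply (a : X) (φ : List X → ℂ) (l : List X) : cn a φ l = φ (a :: l) := rfl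

theorem dl_cons' (φ : List X → ℂ) (a : X) (l : List X) :
    dl φ (a :: l) = φ l - dl (cn a φ) l := dl_cons φ a l

theorem cn_dl (a : X) (φ : List X → ℂ) : cn a (dl φ) = φ - dl (cn a φ) :=
  funext fun l => dl_cons φ a l

theorem dl_dl (φ : List X → ℂ) : dl (dl φ) = 0 := by
  funext l
  induction l generalizing φ with
  | nil => rfl
  | cons a l ih => rw [dl_cons', cn_dl, map_sub]; simp [ih (cn a φ)]

theorem dl_congr {φ ψ : List X → ℂ} {l : List X} (h : ∀ m : List X, m.length + 1 = l.length →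
    (∀ y ∈ m, y ∈ l) → φ m = ψ m) : dl φ l = dl ψ l := by
  rw [dl_apply, dl_apply]
  refine sum_congr rfl fun i hi => ?_
  have := Finset.mem_range.1 hi
  rw [h _ (by rw [List.length_eraseIdx_of_lt this]; omega) fun y hy => List.mem_of_mem_eraseIdx hy]

theorem cupc_cons' (φ ψ : List X → ℂ) (a : X) (l : List X) :
    cupc φ ψ (a :: l) = φ [a] * ψ (a :: l) + cupc (cn a φ) ψ l := cupc_cons φ ψ a l

theorem cn_cupc (a : X) (φ ψ : List X → ℂ) :
    cn a (cupc φ ψ) = φ [a] • cn a ψ + cupc (cn a φ) ψ := funext fun l => cupc_cons φ ψ a l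

theorem cupc_assoc (φ ψ χ : List X → ℂ) : cupc (cupc φ ψ) χ = cupc φ (cupc ψ χ) := by
  funext l
  induction l generalizing φ with
  | nil => rfl
  | cons a l ih =>
    rw [cupc_cons', cn_cupc, cupc_cons', cupc_cons' φ, cupc_cons' ψ, cupc_nil, map_add, map_smul]
    simp only [LinearMap.add_apply, LinearMap.smul_apply, Pi.add_apply, Pi.smul_apply, ih,
      smul_eq_mul]
    ring

theorem cupc_onec_aux (l : List X) : ∀ φ : List X → ℂ,
    cupc φ onec l = if l = [] then 0 else φ l := by
  induction l with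
  | nil => intro; rfl
  | cons a l ih =>
    intro φ
    rw [cupc_cons', ih]
    cases l <;> simp [onec]

theorem cupc_onec {φ : List X → ℂ} (h : φ [] = 0) : cupc φ onec = φ := by
  funext l; rw [cupc_onec_aux]; split_ifs with k
  · rw [k, h]
  · rfl

/-- A `0`-cochain. -/
def zc (θ : X → ℂ) : List X → ℂ
  | [x] => θ x
  | _ => 0

theorem zc_cupc (θ : X → ℂ) (φ : List X → ℂ) (a : X) (l : List X) :
    cupc (zc θ) φ (a :: l) = θ a * φ (a :: l) := by
  rw [cupc_cons', cupc_apply, sum_eq_zero, add_zero]; · rfl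
  intro i hi
  cases l with
  | nil => simp at hi
  | cons b l => simp [zc]

theorem onec_eq_zc : (onec : List X → ℂ) = zc fun _ => 1 := by
  funext l
  rcases l with _ | ⟨a, _ | ⟨b, l⟩⟩ <;> simp [onec, zc]

theorem onec_cupc {φ : List X → ℂ} (h : φ [] = 0) : cupc onec φ = φ := by
  funext l
  cases l with
  | nil => rw [cupc_nil, h]
  | cons a l => rw [onec_eq_zc, zc_cupc, one_mul]

theorem dl_onec : dl (onec : List X → ℂ) = 0 := by
  funext l
  rcases l with _ | ⟨a, _ | ⟨b, _ | ⟨c, l⟩⟩⟩
  · rfl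
  · simp [dl_apply, onec]
  · simp [dl_apply, onec, sum_range_succ]
  · refine (dl_congr (ψ := 0) fun m hm _ => ?_).trans (by simp)
    simp only [List.length_cons] at hm
    simp [onec]; omega

theorem pullc_cupc (f : X → Y) (φ ψ : List Y → ℂ) :
    pullc f (cupc φ ψ) = cupc (pullc f φ) (pullc f ψ) := by
  funext l; simp [pullc_apply, cupc_apply, List.map_take, List.map_drop]

theorem pullc_onec (f : X → Y) : pullc f onec = onec := by funext l; simp [pullc_apply, onec]

theorem pullc_pullc (f : X → Y) (g : Y → W) (φ : List W → ℂ) :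
    pullc f (pullc g φ) = pullc (g ∘ f) φ := by funext l; simp [pullc_apply]

theorem pullc_id (φ : List X → ℂ) : pullc id φ = φ := by funext l; simp [pullc_apply]

theorem pullc_sgc (f : X → Y) (φ : List Y → ℂ) : pullc f (sgc φ) = sgc (pullc f φ) := by
  funext l; simp [pullc_apply, sgc]

open Classical in
/-- The components whose degree lies in `s`. -/
def msk (s : Set ℤ) : (List X → ℂ) →ₗ[ℂ] (List X → ℂ) where
  toFun φ l := if (l.length : ℤ) - 1 ∈ s then φ l else 0
  map_add' φ ψ := by funext l; simp only [Pi.add_apply]; split_ifs <;> simp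
  map_smul' c φ := by funext l; simp only [Pi.smul_apply, RingHom.id_apply]; split_ifs <;> simp

theorem msk_of_mem {s : Set ℤ} (φ : List X → ℂ) {l : List X} (h : (l.length : ℤ) - 1 ∈ s) :
    msk s φ l = φ l := if_pos h

theorem msk_of_not_mem {s : Set ℤ} (φ : List X → ℂ) {l : List X} (h : (l.length : ℤ) - 1 ∉ s) :
    msk s φ l = 0 := if_neg h

theorem msk_zero {s : Set ℤ} {φ : List X → ℂ} {l : List X} (h : φ l = 0) : msk s φ l = 0 := by
  by_cases k : (l.length : ℤ) - 1 ∈ s
  · rw [msk_of_mem _ k, h]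
  · exact msk_of_not_mem _ k

theorem dl_msk {s t : Set ℤ} (h : ∀ p, p + 1 ∈ t ↔ p ∈ s) (φ : List X → ℂ) :
    dl (msk s φ) = msk t (dl φ) := by
  funext l
  by_cases k : (l.length : ℤ) - 1 ∈ t
  · rw [msk_of_mem _ k]
    exact dl_congr fun m hm _ => msk_of_mem _ ((h _).1 (by rw [← hm] at k; simpa using k))
  · rw [msk_of_not_mem _ k]
    exact (dl_congr (ψ := 0) fun m hm _ => msk_of_not_mem _ fun k' => k (by
      rw [← hm]; simpa using (h _).2 k')).trans (by simp)

theorem pullc_msk (f : X → Y) (s : Set ℤ) (φ : List Y → ℂ) :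
    pullc f (msk s φ) = msk s (pullc f φ) := by
  funext l
  by_cases k : (l.length : ℤ) - 1 ∈ s
  · rw [msk_of_mem _ k, pullc_apply, msk_of_mem _ (by simpa using k), pullc_apply]
  · rw [msk_of_not_mem _ k, pullc_apply, msk_of_not_mem _ (by simpa using k)]

/-- Homogeneous cochains of degree `p`. -/
def Hom (p : ℤ) (φ : List X → ℂ) : Prop := ∀ l : List X, (l.length : ℤ) ≠ p + 1 → φ l = 0

theorem Hom.msk (p : ℤ) (φ : List X → ℂ) : Hom p (msk {p} φ) := fun _ h =>
  msk_of_not_mem _ fun k => h (by rw [Set.mem_singleton_iff] at k; omega)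

theorem Hom.msk_eq {p : ℤ} {φ : List X → ℂ} (h : Hom p φ) {s : Set ℤ} (hs : p ∈ s) :
    G.msk s φ = φ := by
  funext l
  by_cases k : (l.length : ℤ) = p + 1
  · exact msk_of_mem _ (by rw [k]; simpa using hs)
  · rw [msk_zero (h l k), h l k]

theorem Hom.msk_eq_zero {p : ℤ} {φ : List X → ℂ} (h : Hom p φ) {s : Set ℤ} (hs : p ∉ s) :
    G.msk s φ = 0 := by
  funext l
  by_cases k : (l.length : ℤ) = p + 1
  · exact msk_of_not_mem _ (by rw [k]; simpa using hs)
  · exact msk_zero (h l k)

theorem msk_cupc_left {s t : Set ℤ} {k : ℤ} (h : ∀ p, p + k ∈ t ↔ p ∈ s) (φ : List X → ℂ)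
    {c : List X → ℂ} (hc : Hom k c) : cupc (msk s φ) c = msk t (cupc φ c) := by
  funext l
  by_cases e : (l.length : ℤ) - 1 ∈ t
  · rw [msk_of_mem _ e, cupc_apply, cupc_apply]
    refine sum_congr rfl fun i hi => ?_
    have := Finset.mem_range.1 hi
    by_cases e' : ((l.drop i).length : ℤ) = k + 1
    · rw [msk_of_mem _ ((h _).1 (by convert e using 1; simp at e' ⊢; omega))]
    · rw [hc _ e', mul_zero, mul_zero]
  · rw [msk_of_not_mem _ e, cupc_apply]
    refine sum_eq_zero fun i hi => ?_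
    have := Finset.mem_range.1 hi
    by_cases e' : ((l.drop i).length : ℤ) = k + 1
    · rw [msk_of_not_mem _ fun k' => e (by convert (h _).2 k' using 1; simp at e' ⊢; omega),
        zero_mul]
    · rw [hc _ e', mul_zero]

theorem msk_cupc_right {s t : Set ℤ} {k : ℤ} (h : ∀ p, p + k ∈ t ↔ p ∈ s) (φ : List X → ℂ)
    {c : List X → ℂ} (hc : Hom k c) : cupc c (msk s φ) = msk t (cupc c φ) := by
  funext l
  by_cases e : (l.length : ℤ) - 1 ∈ t
  · rw [msk_of_mem _ e, cupc_apply, cupc_apply]
    refine sum_congr rfl fun i hi => ?_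
    have := Finset.mem_range.1 hi
    by_cases e' : ((l.take (i + 1)).length : ℤ) = k + 1
    · rw [msk_of_mem _ ((h _).1 (by convert e using 1; simp at e' ⊢; omega))]
    · rw [hc _ e', zero_mul, zero_mul]
  · rw [msk_of_not_mem _ e, cupc_apply]
    refine sum_eq_zero fun i hi => ?_
    have := Finset.mem_range.1 hi
    by_cases e' : ((l.take (i + 1)).length : ℤ) = k + 1
    · rw [msk_of_not_mem _ fun k' => e (by convert (h _).2 k' using 1; simp at e' ⊢; omega),
        mul_zero]
    · rw [hc _ e', zero_mul]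

theorem Hom.cupc {p q : ℤ} {φ ψ : List X → ℂ} (h1 : Hom p φ) (h2 : Hom q ψ) :
    Hom (p + q) (cupc φ ψ) := by
  rw [← h1.msk_eq (s := {p}) rfl, msk_cupc_left (t := {p + q}) (by simp) φ h2]
  exact Hom.msk _ _

theorem Hom.pullc {p : ℤ} {φ : List Y → ℂ} (h : Hom p φ) (f : X → Y) : Hom p (pullc f φ) :=
  fun l hl => h _ (by simpa using hl)

theorem Hom.dl {p : ℤ} {φ : List X → ℂ} (h : Hom p φ) : Hom (p + 1) (dl φ) := by
  rw [← h.msk_eq (s := {p}) rfl, dl_msk (t := {p + 1}) (by simp) φ]
  exact Hom.msk _ _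

theorem hom_zc (θ : X → ℂ) : Hom 0 (zc θ) := by
  rintro (_ | ⟨a, _ | ⟨b, l⟩⟩) h
  · rfl
  · simp at h
  · rfl

theorem hom_onec : Hom 0 (onec : List X → ℂ) := onec_eq_zc (X := X) ▸ hom_zc _

theorem Hom.eq_zc {φ : List X → ℂ} (h : Hom 0 φ) : φ = zc fun x => φ [x] := by
  funext l
  rcases l with _ | ⟨a, _ | ⟨b, l⟩⟩
  · exact h _ (by simp)
  · rfl
  · exact h _ (by simp; omega)

theorem Hom.sgc {p : ℤ} {φ : List X → ℂ} (h : Hom p φ) : sgc φ = (-1 : ℂ) ^ p • φ := by
  funext l
  by_cases k : (l.length : ℤ) = p + 1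
  · have : p = ((l.length + 1 : ℕ) : ℤ) - 2 := by push_cast; omega
    rw [this, zpow_sub₀ (by norm_num), zpow_natCast]
    simp [G.sgc]
  · simp [G.sgc, h l k]

open Classical in
/-- Cut off by the first vertex. -/
def cut (O : Set X) : (List X → ℂ) →ₗ[ℂ] (List X → ℂ) where
  toFun φ l := if ∃ a ∈ l.head?, a ∈ O then φ l else 0
  map_add' φ ψ := by funext l; simp only [Pi.add_apply]; split_ifs <;> simp
  map_smul' c φ := by funext l; simp only [Pi.smul_apply, RingHom.id_apply]; split_ifs <;> simp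

theorem cut_nil (O : Set X) (φ : List X → ℂ) : cut O φ [] = 0 := by simp [cut]

theorem cut_of_mem {O : Set X} (φ : List X → ℂ) {a : X} (l : List X) (ha : a ∈ O) :
    cut O φ (a :: l) = φ (a :: l) := by simp [cut, ha]

theorem cut_of_not_mem {O : Set X} (φ : List X → ℂ) {a : X} (l : List X) (ha : a ∉ O) :
    cut O φ (a :: l) = 0 := by simp [cut, ha]

theorem cut_zero (O : Set X) {φ : List X → ℂ} {l : List X} (h : φ l = 0) : cut O φ l = 0 := by
  cases l with
  | nil => exact cut_nil _ _
  | cons a l =>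
    by_cases ha : a ∈ O
    · rw [cut_of_mem _ _ ha, h]
    · exact cut_of_not_mem _ _ ha

/-- The prism operator of two maps. -/
def prism (g g' : X → Y) : List X → (List Y → ℂ) →ₗ[ℂ] ℂ
  | [] => 0
  | a :: l => LinearMap.proj (g a :: (a :: l).map g') - prism g g' l ∘ₗ cn (g a)

/-- The prism operator on cochains. -/
def prc (g g' : X → Y) : (List Y → ℂ) →ₗ[ℂ] (List X → ℂ) := LinearMap.pi (prism g g')

theorem prc_nil (g g' : X → Y) (φ : List Y → ℂ) : prc g g' φ [] = 0 := rfl

theorem prc_cons (g g' : X → Y) (φ : List Y → ℂ) (a : X) (l : List X) :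
    prc g g' φ (a :: l) = φ (g a :: g' a :: l.map g') - prc g g' (cn (g a) φ) l := rfl

theorem dl_prc (g g' : X → Y) (φ : List Y → ℂ) :
    dl (prc g g' φ) + prc g g' (dl φ) = pullc g' φ - pullc g φ := by
  funext l
  induction l generalizing φ with
  | nil => simp [dl_nil, prc_nil, pullc_apply]
  | cons a l ih =>
    have e : cn a (prc g g' φ) = pullc g' (cn (g' a) (cn (g a) φ)) - prc g g' (cn (g a) φ) := rfl
    have := ih (cn (g a) φ)
    rw [Pi.add_apply, dl_cons', prc_cons, e, cn_dl, map_sub, map_sub, dl_pullc, dl_cons', dl_cons']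
    simp only [Pi.sub_apply, Pi.add_apply, pullc_apply, cn_apply, List.map_cons] at this ⊢
    linear_combination this

theorem prc_zero (g g' : X → Y) (l : List X) : ∀ (φ : List Y → ℂ),
    (∀ m : List Y, m.length = l.length + 1 → (∀ y ∈ m, ∃ x ∈ l, y = g x ∨ y = g' x) → φ m = 0) →
      prc g g' φ l = 0 := by
  induction l with
  | nil => intro _ _; rfl
  | cons a l ih =>
    intro φ h
    rw [prc_cons, h, ih, sub_zero]
    · intro m h1 h2
      refine h _ (by simp [h1]) fun y hy => ?_
      rcases List.mem_cons.1 hy with rfl | hy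
      · exact ⟨a, by simp, Or.inl rfl⟩
      · obtain ⟨x, k1, k2⟩ := h2 y hy
        exact ⟨x, List.mem_cons_of_mem _ k1, k2⟩
    · simp
    · intro y hy
      rcases List.mem_cons.1 hy with rfl | hy
      · exact ⟨a, by simp, Or.inl rfl⟩
      · obtain ⟨x, k1, rfl⟩ := List.mem_map.1 (show y ∈ (a :: l).map g' from hy)
        exact ⟨x, k1, Or.inr rfl⟩

/-- The sign `(-1) ^ (n (n - 1) / 2)`. -/
def rs : ℕ → ℂ
  | 0 => 1
  | n + 1 => (-1) ^ n * rs n

theorem rs_add (p q : ℕ) : rs (p + q + 1) = (-1) ^ (p * q) * rs (p + 1) * rs (q + 1) := by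
  induction q with
  | zero => simp [rs]
  | succ q ih =>
    rw [← add_assoc, rs, ih, rs.eq_2 (q + 1)]
    ring

/-- Reversal of the vertices. -/
def rev : (List X → ℂ) →ₗ[ℂ] (List X → ℂ) where
  toFun φ l := rs l.length * φ l.reverse
  map_add' φ ψ := by funext l; simp [mul_add]
  map_smul' c φ := by funext l; simp [mul_left_comm]

theorem rev_apply (φ : List X → ℂ) (l : List X) : rev φ l = rs l.length * φ l.reverse := rfl

theorem neg_one_pow_sq (n : ℕ) : (-1 : ℂ) ^ n * (-1) ^ n = 1 := by rw [← mul_pow]; simp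

theorem dl_rev (φ : List X → ℂ) : dl (rev φ) = rev (dl φ) := by
  funext l
  rw [rev_apply, dl_apply, dl_apply, List.length_reverse, mul_sum, ← sum_range_reflect]
  refine sum_congr rfl fun i hi => ?_
  have := Finset.mem_range.1 hi
  obtain ⟨k, hk⟩ : ∃ k, l.length = i + k + 1 := ⟨l.length - 1 - i, by omega⟩
  have e : (l.eraseIdx k).reverse = l.reverse.eraseIdx i := by
    rw [List.eraseIdx_eq_take_drop_succ, List.eraseIdx_eq_take_drop_succ, List.reverse_append,
      List.reverse_take, List.reverse_drop]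
    congr 2 <;> omega
  rw [show l.length - 1 - i = k by omega, rev_apply, e, List.length_eraseIdx_of_lt (by omega), hk,
    Nat.add_sub_cancel, rs, pow_add]
  linear_combination (-((-1 : ℂ) ^ k * rs (i + k) * φ (l.reverse.eraseIdx i))) * neg_one_pow_sq i

theorem rev_cupc (φ ψ : List X → ℂ) (l : List X) : rev (cupc ψ φ) l =
    ∑ i ∈ range l.length, (-1) ^ (i * (l.length - 1 - i)) *
      (rev φ (l.take (i + 1)) * rev ψ (l.drop i)) := by
  rw [rev_apply, cupc_apply, List.length_reverse, mul_sum, ← sum_range_reflect]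
  refine sum_congr rfl fun i hi => ?_
  have := Finset.mem_range.1 hi
  obtain ⟨k, hk⟩ : ∃ k, l.length = i + k + 1 := ⟨l.length - 1 - i, by omega⟩
  rw [show l.length - 1 - i = k by omega, rev_apply, rev_apply, List.reverse_take,
    List.reverse_drop, List.length_take, List.length_drop, show l.length - (i + 1) = k by omega,
    show l.length - i = k + 1 by omega, show min (i + 1) l.length = i + 1 by omega, hk, rs_add]
  ring

theorem rev_cupc_hom {p q : ℤ} {φ ψ : List X → ℂ} (h1 : Hom p φ) (h2 : Hom q ψ) :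
    rev (cupc ψ φ) = (-1 : ℂ) ^ (p * q) • cupc (rev φ) (rev ψ) := by
  funext l
  rw [rev_cupc, Pi.smul_apply, cupc_apply, smul_eq_mul, mul_sum]
  refine sum_congr rfl fun i hi => ?_
  have := Finset.mem_range.1 hi
  by_cases e : (i : ℤ) = p
  · by_cases e' : ((l.length - 1 - i : ℕ) : ℤ) = q
    · rw [← e, ← e', ← Nat.cast_mul, zpow_natCast]
    · rw [rev_apply ψ, h2 _ (by simp; omega)]; simp
  · rw [rev_apply φ, h1 _ (by simp; omega)]; simp

theorem rev_cupc_even {p : ℤ} {φ : List X → ℂ} (h1 : Hom (2 * p) φ) (ψ : List X → ℂ) :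
    rev (cupc ψ φ) = cupc (rev φ) (rev ψ) := by
  funext l
  rw [rev_cupc, cupc_apply]
  refine sum_congr rfl fun i hi => ?_
  have := Finset.mem_range.1 hi
  by_cases e : (i : ℤ) = 2 * p
  · rw [show i = 2 * p.toNat by omega, mul_assoc 2, pow_mul]; simp
  · rw [rev_apply φ, h1 _ (by simp; omega)]; simp

/-- The homotopy from the identity to the reversal, by recursion on the length. -/
def rhn : ℕ → (List X → ℂ) →ₗ[ℂ] (List X → ℂ)
  | 0 => 0
  | n + 1 => LinearMap.pi fun l => match l with
    | [] => 0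
    | a :: m => LinearMap.proj (a :: m) ∘ₗ (rev - LinearMap.id - dl ∘ₗ rhn n) ∘ₗ cn a

/-- The homotopy from the identity to the reversal. -/
def rh : (List X → ℂ) →ₗ[ℂ] (List X → ℂ) :=
  LinearMap.pi fun l => LinearMap.proj l ∘ₗ rhn l.length

theorem rh_nil (φ : List X → ℂ) : rh φ [] = 0 := rfl

theorem rh_cons (φ : List X → ℂ) (a : X) (m : List X) : rh φ (a :: m) =
    rev (cn a φ) (a :: m) - cn a φ (a :: m) - dl (rh (cn a φ)) (a :: m) := by
  change rev (cn a φ) (a :: m) - cn a φ (a :: m) - dl (rhn m.length (cn a φ)) (a :: m) = _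
  congr 1
  refine dl_congr fun k hk _ => ?_
  rw [← show k.length = m.length by simpa using hk]; rfl

theorem dl_rh (φ : List X → ℂ) : dl (rh φ) + rh (dl φ) = rev φ - φ := by
  funext l
  induction hn : l.length using Nat.strong_induction_on generalizing l φ with
  | _ n ih =>
    cases l with
    | nil => simp [dl_nil, rh_nil, rev_apply, rs]
    | cons a m =>
      have e : dl (rev (cn a φ) - cn a φ - rh (dl (cn a φ))) (a :: m) =
          dl (dl (rh (cn a φ))) (a :: m) := dl_congr fun k hk _ => by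
        have := ih k.length (by omega) (cn a φ) k rfl
        simp only [Pi.add_apply, Pi.sub_apply] at this ⊢
        linear_combination -this
      rw [dl_dl, map_sub, map_sub, dl_rev] at e
      rw [Pi.add_apply, rh_cons, cn_dl]
      simp only [map_sub, Pi.sub_apply, Pi.zero_apply] at e ⊢
      linear_combination -e

theorem rh_zero (V : Set X) (l : List X) : ∀ (φ : List X → ℂ), (∀ y ∈ l, y ∈ V) →
    (∀ m : List X, l.length ≤ m.length → (∀ y ∈ m, y ∈ V) → φ m = 0) → rh φ l = 0 := by
  induction hn : l.length using Nat.strong_induction_on generalizing l with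
  | _ n ih =>
    intro φ hl h
    cases l with
    | nil => rfl
    | cons a m =>
      have ha := hl a List.mem_cons_self
      have k : ∀ m' : List X, n ≤ m'.length + 1 → (∀ y ∈ m', y ∈ V) → cn a φ m' = 0 :=
        fun m' h1 h2 => h _ (by simpa using h1) (by simpa [ha] using h2)
      rw [rh_cons, rev_apply, k _ (by simp [← hn]) (by simpa [or_comm] using hl),
        k _ (by omega) hl, dl_congr (ψ := 0) fun m' h1 h2 => ih m'.length (by omega) m' rfl _
          (fun y hy => hl y (h2 y hy)) fun m'' h3 h4 => k _ (by omega) h4]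
      simp

end Pool.Agent.Work.MP_849ab0_ag.G
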