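import Pool.Agent.Work.MP_849ab0_ag.G.FH

/-! Excision, additivity and the theorem of Leray-Hirsch. -/

noncomputable section

set_option linter.unusedSectionVars false

namespace Pool.Agent.Work.MP_849ab0_ag.G

open Set Topology Filter

variable {X Y T : Type} [TopologicalSpace X] [TopologicalSpace Y] [TopologicalSpace T]
variable {U Z U₁ Z₁ U₂ Z₂ V W : Set X} {U' Z' : Set Y} {φ ψ : List X → ℂ} {f g : X → Y}

/-- `U ∩ Z` is closed in `U`. -/
def Cl (U Z : Set X) : Prop := U ∩ closure (U ∩ Z) ⊆ Z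

theorem Cl.of_isClosed (h : IsClosed Z) (U : Set X) : Cl U Z :=
  fun _ k => closure_minimal inter_subset_right h k.2

theorem Cl.of_subset (h : U ⊆ Z) : Cl U Z := fun _ k => h k.1

theorem Cl.univ (U : Set X) : Cl U univ := .of_subset (subset_univ _)

theorem Cl.mono (h : Cl U Z) (k : U₁ ⊆ U) : Cl U₁ Z :=
  fun _ e => h ⟨k e.1, closure_mono (inter_subset_inter_left _ k) e.2⟩

theorem Cl.congr (h : Cl U Z) (k : ∀ x ∈ U, x ∈ Z ↔ x ∈ Z₁) : Cl U Z₁ := fun x e =>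
  (k x e.1).1 (h ⟨e.1, closure_mono (by exact fun y hy => ⟨hy.1, (k y hy.1).2 hy.2⟩) e.2⟩)

theorem Cl.inter (h : Cl U Z) (k : Cl U Z₁) : Cl U (Z ∩ Z₁) := fun _ e =>
  ⟨h ⟨e.1, closure_mono (by exact fun _ hy => ⟨hy.1, hy.2.1⟩) e.2⟩,
    k ⟨e.1, closure_mono (by exact fun _ hy => ⟨hy.1, hy.2.2⟩) e.2⟩⟩

theorem Cl.union (h : Cl U Z) (k : Cl U Z₁) : Cl U (Z ∪ Z₁) := fun x e => by
  have := e.2
  rw [inter_union_distrib_left, closure_union] at this
  exact this.imp (fun a => h ⟨e.1, a⟩) fun a => k ⟨e.1, a⟩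

theorem Cl.preimage (h : Cl U' Z') (hf : ContinuousOn f U) (k : MapsTo f U U') :
    Cl U (f ⁻¹' Z') := fun x e =>
  h ⟨k e.1, ((hf x e.1).mono inter_subset_left).mem_closure e.2 fun _ hy => ⟨k hy.1, hy.2⟩⟩

theorem Cl.eq_inter (h : Cl U Z) : U \ Z = U ∩ (closure (U ∩ Z))ᶜ :=
  Subset.antisymm (fun _ k => ⟨k.1, fun e => k.2 (h ⟨k.1, e⟩)⟩)
    fun _ k => ⟨k.1, fun e => k.2 (subset_closure ⟨k.1, e⟩)⟩

theorem Cl.isLocallyClosed_diff (h : Cl U Z) (k : IsLocallyClosed U) : IsLocallyClosed (U \ Z) :=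
  h.eq_inter ▸ k.inter isClosed_closure.isOpen_compl.isLocallyClosed

theorem Cl.isLocallyClosed_inter (h : Cl U Z) (k : IsLocallyClosed U) :
    IsLocallyClosed (U ∩ Z) := by
  have : U ∩ Z = U ∩ closure (U ∩ Z) :=
    Subset.antisymm (fun _ e => ⟨e.1, subset_closure e⟩) fun _ e => ⟨e.1, h e⟩
  exact this ▸ k.inter isClosed_closure.isLocallyClosed

theorem Cl.diff_mem_nhdsWithin (h : Cl U Z) {x : X} (hx : x ∈ U \ Z) : U \ Z ∈ 𝓝[U] x := by
  rw [h.eq_inter] at hx ⊢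
  exact inter_mem_nhdsWithin _ (isClosed_closure.isOpen_compl.mem_nhds hx.2)

theorem exists_sep [RegularSpace X] [SecondCountableTopology X] {A B : Set X}
    (h1 : Disjoint (closure A) B) (h2 : Disjoint A (closure B)) :
    ∃ O O', IsOpen O ∧ IsOpen O' ∧ A ⊆ O ∧ B ⊆ O' ∧ Disjoint O O' :=
  separatedNhds_iff_disjoint.2 (completely_normal h1 h2)

/-- The open set near which a cochain vanishes. -/
def nul (φ : List X → ℂ) : Set X := {x | ∃ V ∈ 𝓝 x, ∀ l : List X, (∀ y ∈ l, y ∈ V) → φ l = 0}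

theorem isOpen_nul (φ : List X → ℂ) : IsOpen (nul φ) := by
  rw [isOpen_iff_mem_nhds]
  rintro x ⟨U, hU, h⟩
  filter_upwards [eventually_mem_nhds_iff.2 hU] with y hy using ⟨U, hy, h⟩

theorem mem_lz {A : Set X} : φ ∈ lz A ↔ A ⊆ nul φ := Iff.rfl

theorem lz_nul (φ : List X → ℂ) : φ ∈ lz (nul φ) := mem_lz.2 subset_rfl

theorem lz_cover {A B C : Set X} (h1 : φ ∈ lz A) (h2 : φ ∈ lz B) (h : ∀ x ∈ C, x ∉ A → x ∈ B) :
    φ ∈ lz C := fun x hx => by
  by_cases k : x ∈ A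
  exacts [h1 x k, h2 x (h x hx k)]

/-- The complex of cochains. -/
def cx (X : Type) [TopologicalSpace X] : Cx (List X → ℂ) where
  d := dl
  B := bd X
  tr p := msk (Iic p)
  dB _ := dl_bd
  trB _ _ := msk_bd _
  tr_tr p x := funext fun l => by
    by_cases h : (l.length : ℤ) - 1 ∈ Iic p
    · rw [msk_of_mem _ h]
    · rw [msk_of_not_mem _ h, msk_of_not_mem _ h]
  d_tr p := dl_msk (by simp)
  bdd x hx := by
    obtain ⟨m, k⟩ := hx.2
    filter_upwards [eventually_ge_atTop (m : ℤ)] with p hp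
    funext l
    by_cases h : m < l.length
    · rw [msk_zero (k l h), k l h]
    · exact msk_of_mem _ (by simp; omega)
  low := by
    filter_upwards [eventually_le_atBot (-2 : ℤ)] with p hp
    ext x l
    exact msk_of_not_mem _ (by simp; omega)

section Reg
variable [RegularSpace X] [SecondCountableTopology X]

theorem loc_lz {q : X → T} {A B : Set X} (hq : ContinuousOn q A) (hAB : Disjoint B (closure A))
    {S : Set T → Set X} (hS : ∀ W, S W = A ∩ q ⁻¹' W ∪ B) : (cx X).Loc fun W => lz (S W) := by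
  obtain rfl : S = fun W => A ∩ q ⁻¹' W ∪ B := funext hS
  have op : ∀ W, IsOpen W → ∀ x ∈ A ∩ q ⁻¹' W, x ∉ closure (A \ q ⁻¹' W) := fun W o x hx k =>
    o.isClosed_compl.closure_subset
      (((hq x hx.1).mono sdiff_subset).mem_closure (t := Wᶜ) k fun _ e => e.2) hx.2
  refine ⟨fun _ _ => dl_lz, fun W x _ _ => ?_, fun _ _ _ => msk_lz _, fun W W' k => lz_anti ?_,
    fun W x h a ha => ?_, fun W W' o o' x hx h => ?_, fun W o dj p y hy => ?_⟩
  · exact (dl_dl x).symm ▸ zero_mem _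
  · exact union_subset_union_left _ (inter_subset_inter_right _ (preimage_mono k))
  · rcases ha with ⟨h1, h2⟩ | h1
    · obtain ⟨k, h3⟩ := mem_iUnion.1 h2
      exact h k a (Or.inl ⟨h1, h3⟩)
    · exact h 0 a (Or.inr h1)
  · obtain ⟨O, O', o1, o2, k1, k2, k3⟩ := exists_sep (A := (A ∩ q ⁻¹' W) \ nul x)
      (B := (A ∩ q ⁻¹' W') \ nul x) (Set.disjoint_left.2 fun a h1 h2 => op W' o' a h2.1
        (closure_mono (by
          exact fun b hb => ⟨hb.1.1, fun e => hb.2 (h b (Or.inl ⟨hb.1.1, hb.1.2, e⟩))⟩) h1))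
      (Set.disjoint_left.2 fun a h1 h2 => op W o a h1.1
        (closure_mono (by
          exact fun b hb => ⟨hb.1.1, fun e => hb.2 (h b (Or.inl ⟨hb.1.1, e, hb.1.2⟩))⟩) h2))
    refine ⟨cut O' x, cut_bd _ hx, lz_cover (cut_lz O' (lz_nul x))
      (cut_lz_of_disjoint o1 k1 k3.symm x) ?_, lz_cover (sub_mem (lz_nul x) (cut_lz O' (lz_nul x)))
      (sub_cut_lz o2 k2 hx.1) ?_⟩
    all_goals exact fun a ha k => ⟨ha.resolve_right fun e => k (h a (Or.inr e)), k⟩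
  let _ := TopologicalSpace.pseudoMetrizableSpacePseudoMetric X
  let O : ℕ → Set X := fun k => {x | Metric.infEDist x (A ∩ q ⁻¹' W k) <
    Metric.infEDist x (A \ q ⁻¹' W k)} ∩ {x | Metric.infEDist x A < ((k : ENNReal) + 1)⁻¹}
  have oO : ∀ k, IsOpen (O k) := fun k =>
    (isOpen_lt Metric.continuous_infEDist Metric.continuous_infEDist).inter
      (isOpen_lt Metric.continuous_infEDist continuous_const)
  have cO : ∀ k, A ∩ q ⁻¹' W k ⊆ O k := fun k x hx => by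
    constructor
    · rw [mem_ofPred_eq, Metric.infEDist_zero_of_mem hx]
      exact Metric.infEDist_pos_iff_notMem_closure.2 (op _ (o k) x hx)
    · rw [mem_ofPred_eq, Metric.infEDist_zero_of_mem hx.1]
      simp
  have dO : ∀ j k x, x ∈ O j → x ∈ O k → j = k := fun j k x h1 h2 => by
    by_contra e
    have a1 : Metric.infEDist x (A \ q ⁻¹' W j) ≤ Metric.infEDist x (A ∩ q ⁻¹' W k) :=
      Metric.infEDist_anti fun b hb => ⟨hb.1, fun c => (dj e).notMem_of_mem_left c hb.2⟩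
    have a2 : Metric.infEDist x (A \ q ⁻¹' W k) ≤ Metric.infEDist x (A ∩ q ⁻¹' W j) :=
      Metric.infEDist_anti fun b hb => ⟨hb.1, fun c => (dj e).notMem_of_mem_right c hb.2⟩
    exact lt_irrefl _ ((a1.trans_lt h2.1).trans (a2.trans_lt h1.1))
  classical
  let z : List X → ℂ := fun l => match l with
    | [] => 0
    | a :: m => if h : ∃ k, a ∈ O k then y h.choose (a :: m) else 0
  have z1 : ∀ k a m, a ∈ O k → z (a :: m) = y k (a :: m) := fun k a m h => by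
    have e : ∃ k, a ∈ O k := ⟨k, h⟩
    simp only [z, dif_pos e]
    rw [dO _ _ a e.choose_spec h]
  have z2 : ∀ a m, (∀ k, a ∈ O k → y k (a :: m) = 0) → z (a :: m) = 0 := fun a m h => by
    by_cases e : ∃ k, a ∈ O k
    · obtain ⟨k, e⟩ := e
      rw [z1 k a m e, h k e]
    · simp only [z, dif_neg e]
  have zB : z ∈ lz B := fun b hb => by
    have hp : 0 < Metric.infEDist b A :=
      Metric.infEDist_pos_iff_notMem_closure.2 (hAB.notMem_of_mem_left hb)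
    obtain ⟨n, hn⟩ := ENNReal.exists_inv_nat_lt hp.ne'
    choose V v1 v2 using fun k => (hy k).2.2 b (Or.inr hb)
    refine ⟨{x | (n : ENNReal)⁻¹ < Metric.infEDist x A} ∩ ⋂ k ∈ Iio n, V k, inter_mem
      ((isOpen_lt continuous_const Metric.continuous_infEDist).mem_nhds hn)
      ((biInter_mem (finite_Iio n)).2 fun k _ => v1 k), fun l hl => ?_⟩
    cases l with
    | nil => rfl
    | cons a m =>
      refine z2 a m fun k hk => v2 k _ fun c hc => mem_iInter₂.1 (hl c hc).2 k ?_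
      have a1 : (n : ENNReal)⁻¹ < _ := (hl a List.mem_cons_self).1
      have a2 : _ < ((k : ENNReal) + 1)⁻¹ := hk.2
      have := a1.trans a2
      rw [ENNReal.inv_lt_inv] at this
      have : k + 1 < n := by exact_mod_cast this
      exact (by omega : k < n)
  refine ⟨z, ⟨rfl, (p + 1).toNat, fun l hl => ?_⟩, lz_anti (by simp) zB, fun k => lz_union ?_
    (sub_mem zB (lz_anti subset_union_right (hy k).2.2))⟩
  · cases l with
    | nil => rfl
    | cons a m =>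
      refine z2 a m fun k _ => ?_
      rw [← (hy k).2.1]
      exact msk_of_not_mem _ (by simp only [mem_Iic]; omega)
  · refine fun x hx => ⟨O k, (oO k).mem_nhds (cO k hx), fun l hl => ?_⟩
    cases l with
    | nil => simpa [z] using (hy k).1.1
    | cons a m => simp [z1 k a m (hl a List.mem_cons_self)]

/-- Excision. -/
theorem res_excision (hU : U₁ ⊆ U) (hc : Cl U Z) (hn : ∀ x ∈ U, x ∈ Z → U₁ ∈ 𝓝[U] x)
    (hZ : ∀ x ∈ U₁, x ∈ Z ↔ x ∈ Z₁) : Function.Bijective (pull id U₁ Z₁ : H U Z → H U₁ Z₁) := by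
  have ok : Ok id U₁ Z₁ U Z := .id hU fun x k => (hZ x k).1
  have s1 : ∀ x ∈ U, x ∈ Z → x ∈ U₁ := fun x k1 k2 => mem_of_mem_nhdsWithin k1 (hn x k1 k2)
  obtain ⟨O, O', o1, o2, k1, k2, k3⟩ := exists_sep (A := U ∩ Z) (B := U \ U₁)
    (Set.disjoint_left.2 fun a h1 h2 => h2.2 (s1 a h2.1 (hc ⟨h2.1, h1⟩)))
    (Set.disjoint_left.2 fun a h1 h2 => by
      obtain ⟨N, n1, n2⟩ := mem_nhdsWithin_iff_exists_mem_nhds_inter.1 (hn a h1.1 h1.2)
      obtain ⟨b, b1, b2⟩ := mem_closure_iff_nhds.1 h2 N n1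
      exact b2.2 (n2 ⟨b1, b2.1⟩))
  have c1 : ∀ χ ∈ lz (U₁ \ Z₁), cut O χ ∈ lz (U \ Z) := fun χ h =>
    lz_cover (cut_lz_of_disjoint o2 k2 k3 χ) (cut_lz O h) fun x hx k => by
      have : x ∈ U₁ := by_contra fun e => k ⟨hx.1, e⟩
      exact ⟨this, fun e => hx.2 ((hZ x this).2 e)⟩
  constructor
  · refine (injective_iff_map_eq_zero _).2 fun a => ?_
    obtain ⟨φ, m, rfl⟩ := exists_cls a
    rw [res_cls ok m, cls_eq_zero (ok.zc_id m), cls_eq_zero m]
    rintro ⟨χ, h1, h2, h3⟩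
    refine ⟨cut O χ, cut_bd _ h1, c1 χ h2, lz_cover (sub_mem m.2 (dl_lz (c1 χ h2)))
      (B := U ∩ Z) ?_ fun x hx k => ⟨hx, by_contra fun e => k ⟨hx, e⟩⟩⟩
    convert add_mem (lz_anti (fun x k => s1 x k.1 k.2) h3) (dl_lz (sub_cut_lz o1 k1 h1.1)) using 1
    rw [map_sub]; abel
  · intro a
    obtain ⟨φ, m, rfl⟩ := exists_cls a
    have e := sub_cut_lz o1 k1 m.1.1.1
    have m' : cut O φ ∈ Zc U Z := mem_Zc.2 ⟨cut_bd _ m.1.1, lz_cover (dl_lz (c1 φ m.2))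
      (B := U ∩ Z) (by simpa using sub_mem (lz_anti (fun x k => s1 x k.1 k.2) m.1.2) (dl_lz e))
      fun x hx k => ⟨hx, by_contra fun e => k ⟨hx, e⟩⟩, c1 φ m.2⟩
    refine ⟨cls U Z (cut O φ), ?_⟩
    rw [res_cls ok m']
    exact (cls_eq_of_lz m (cut_bd _ m.1.1) (lz_cover e (sub_mem m.2 (cut_lz O m.2))
      fun x hx k => ⟨hx, fun e => k ⟨hU hx, (hZ x hx).2 e⟩⟩)).symm

theorem res_excision_open {O : Set X} (hO : IsOpen O) (hc : Cl U Z) (h : ∀ x ∈ U, x ∈ Z → x ∈ O) :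
    Function.Bijective (pull id (U ∩ O) Z : H U Z → H (U ∩ O) Z) :=
  res_excision inter_subset_left hc (fun x k1 k2 => inter_mem_nhdsWithin _ (hO.mem_nhds (h x k1 k2)))
    fun _ _ => Iff.rfl

/-- Additivity for disjoint closed supports. -/
theorem additivity {ι : Type} [Fintype ι] {Zi : ι → Set X} (hc : ∀ i, Cl U (Zi i))
    (hd : ∀ i j, ∀ x ∈ U, x ∈ Zi i → x ∈ Zi j → i = j) (hZ : ∀ x ∈ U, x ∈ Z ↔ ∃ i, x ∈ Zi i) :
    Function.Bijective fun a : ∀ i, H U (Zi i) => ∑ i, pull id U Z (a i) := by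
  classical
  have ok : ∀ i, Ok id U Z U (Zi i) := fun i => .id subset_rfl fun x k e => (hZ x k).2 ⟨i, e⟩
  have : ∀ i, ∃ O O', IsOpen O ∧ IsOpen O' ∧ U ∩ Zi i ⊆ O ∧ (U ∩ Z) \ Zi i ⊆ O' ∧ Disjoint O O' :=
    fun i => exists_sep (Set.disjoint_left.2 fun a h1 h2 => h2.2 (hc i ⟨h2.1.1, h1⟩))
      (Set.disjoint_left.2 fun a h1 h2 => by
        have : (U ∩ Z) \ Zi i ⊆ ⋃ j ∈ {j | j ≠ i}, U ∩ Zi j := fun x hx => by
          obtain ⟨j, hj⟩ := (hZ x hx.1.1).1 hx.1.2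
          exact mem_biUnion (show j ≠ i from fun e => hx.2 (e ▸ hj)) ⟨hx.1.1, hj⟩
        have := closure_mono this h2
        rw [(toFinite _).closure_biUnion] at this
        obtain ⟨j, j1, j2⟩ := mem_iUnion₂.1 this
        exact j1 (hd j i a h1.1 (hc j ⟨h1.1, j2⟩) h1.2))
  choose O O' o1 o2 k1 k2 k3 using this
  have c1 : ∀ i, ∀ χ ∈ lz (U \ Z), cut (O i) χ ∈ lz (U \ Zi i) := fun i χ h =>
    lz_cover (cut_lz _ h) (cut_lz_of_disjoint (o2 i) (k2 i) (k3 i) χ) fun x hx k =>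
      ⟨⟨hx.1, by_contra fun e => k ⟨hx.1, e⟩⟩, hx.2⟩
  have c2 : ∀ i (φ : ι → List X → ℂ), (∀ j, φ j ∈ lz (U \ Zi j)) →
      ∑ j, φ j - φ i ∈ lz (U ∩ Zi i) := fun i φ h => by
    rw [← Finset.add_sum_erase _ _ (Finset.mem_univ i), add_sub_cancel_left]
    exact sum_mem fun j hj => lz_anti
      (by exact fun x k => ⟨k.1, fun e => Finset.ne_of_mem_erase hj (hd j i x k.1 e k.2)⟩) (h j)
  constructor
  · intro a b hab
    rw [← sub_eq_zero]
    have : ∑ i, pull id U Z ((a - b) i) = 0 := by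
      simpa [map_sub, Finset.sum_sub_distrib, sub_eq_zero] using hab
    generalize a - b = c at this
    choose φ m e using fun i => exists_cls (c i)
    funext i
    simp only [e, fun i => res_cls (ok i) (m i)] at this
    rw [← cls_sum _ fun i _ => (ok i).zc_id (m i),
      cls_eq_zero (sum_mem fun i _ => (ok i).zc_id (m i))] at this
    obtain ⟨χ, h1, h2, h3⟩ := this
    rw [e, Pi.zero_apply, cls_eq_zero (m i)]
    refine ⟨cut (O i) χ, cut_bd _ h1, c1 i χ h2, lz_cover (sub_mem (m i).2 (dl_lz (c1 i χ h2)))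
      (B := U ∩ Zi i) ?_ fun x hx k => ⟨hx, by_contra fun e => k ⟨hx, e⟩⟩⟩
    convert sub_mem (add_mem (lz_anti inter_subset_left h3) (dl_lz (sub_cut_lz (o1 i) (k1 i) h1.1)))
      (c2 i φ fun j => (m j).2) using 1
    rw [map_sub]; abel
  · intro a
    obtain ⟨φ, m, rfl⟩ := exists_cls a
    have e := fun i => sub_cut_lz (o1 i) (k1 i) m.1.1.1
    have m' : ∀ i, cut (O i) φ ∈ Zc U (Zi i) := fun i => mem_Zc.2 ⟨cut_bd _ m.1.1,
      lz_cover (dl_lz (c1 i φ m.2)) (B := U ∩ Zi i)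
        (by simpa using sub_mem (lz_anti inter_subset_left m.1.2) (dl_lz (e i)))
        fun x hx k => ⟨hx, by_contra fun e => k ⟨hx, e⟩⟩, c1 i φ m.2⟩
    refine ⟨fun i => cls U (Zi i) (cut (O i) φ), ?_⟩
    simp only [fun i => res_cls (ok i) (m' i)]
    rw [← cls_sum _ fun i _ => (ok i).zc_id (m' i)]
    refine (cls_eq_of_lz m (sum_mem fun i _ => cut_bd _ m.1.1) fun x hx => ?_).symm
    by_cases k : x ∈ Z
    · obtain ⟨i, hi⟩ := (hZ x hx).1 k
      have := sub_mem (e i) (c2 i _ fun j => (m' j).2)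
      rw [sub_sub_sub_cancel_right] at this
      exact this x ⟨hx, hi⟩
    · exact sub_mem m.2 (sum_mem fun i _ => cut_lz _ m.2) x ⟨hx, k⟩

theorem additivity₂ (h1 : Cl U Z₁) (h2 : Cl U Z₂) (hd : ∀ x ∈ U, x ∈ Z₁ → x ∉ Z₂)
    (hZ : ∀ x ∈ U, x ∈ Z ↔ x ∈ Z₁ ∨ x ∈ Z₂) :
    Function.Bijective fun a : H U Z₁ × H U Z₂ => pull id U Z a.1 + pull id U Z a.2 := by
  have := additivity (U := U) (Z := Z) (Zi := fun b : Bool => Bool.rec Z₂ Z₁ b)
    (fun b => by cases b <;> assumption) (fun i j x hx a b => by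
      cases i <;> cases j <;> first | rfl | exact (hd x hx ‹_› ‹_›).elim)
    fun x hx => by simpa [or_comm] using hZ x hx
  simp only [Fintype.sum_bool] at this
  constructor
  · intro a b h
    have := @this.1 (fun i => Bool.rec a.2 a.1 i) (fun i => Bool.rec b.2 b.1 i) h
    exact Prod.ext (congrFun this true) (congrFun this false)
  · intro c
    obtain ⟨a, h⟩ := this.2 c
    exact ⟨(a true, a false), h⟩

end Reg

variable {ι : Type} [Fintype ι]

/-- `(φ i) ↦ ∑ g^* (φ i) ∪ γ i`. -/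
def lhc (g : X → Y) (γ : ι → List X → ℂ) : (ι → List Y → ℂ) →ₗ[ℂ] (List X → ℂ) :=
  ∑ i, cupc.flip (γ i) ∘ₗ pullc g ∘ₗ LinearMap.proj i

theorem lhc_apply (g : X → Y) (γ : ι → List X → ℂ) (φ : ι → List Y → ℂ) :
    lhc g γ φ = ∑ i, cupc (pullc g (φ i)) (γ i) := by simp [lhc]

theorem lhc_ch (g : X → Y) {γ : ι → List X → ℂ} {k : ι → ℤ} (h1 : ∀ i, γ i ∈ bd X)
    (h2 : ∀ i, Hom (k i) (γ i)) : Cx.IsCh ((cx Y).pi k) (cx X) (lhc g γ) where
  bd φ h := by
    rw [lhc_apply]; exact sum_mem fun i _ => cupc_bd (bd_pullc g (h i trivial)) (h1 i)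
  tr p φ := by
    rw [lhc_apply, lhc_apply, map_sum]
    refine Finset.sum_congr rfl fun i _ => ?_
    change cupc (pullc g (msk (Iic (p - k i)) (φ i))) (γ i) = msk (Iic p) _
    rw [pullc_msk, msk_cupc_left (t := Iic p) (by simp [le_sub_iff_add_le]) _ (h2 i)]
  dd φ := funext fun i => dl_dl (φ i)
  dd' := dl_dl

theorem lhc_pair {γ : ι → List X → ℂ} (k : ι → ℤ) (hg : ∀ x ∈ U, ContinuousAt g x)
    (hγ : ∀ i, γ i ∈ Zc U Z₂) {P Q : Set X} {P' Q' : Set Y} (hP : P ⊆ U) (hQ : Q ⊆ U)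
    (hP' : ∀ x ∈ P, x ∈ Z₂ → g x ∈ P') (hQ' : ∀ x ∈ Q, x ∈ Z₂ → g x ∈ Q') :
    Cx.IsPair ((cx Y).pi k) (cx X) (lhc g γ) (.pi univ fun _ => lz P') (.pi univ fun _ => lz Q')
      (lz P) (lz Q) := by
  have key : ∀ {P : Set X} {P' : Set Y}, P ⊆ U → (∀ x ∈ P, x ∈ Z₂ → g x ∈ P') →
      ∀ φ ∈ Submodule.pi univ fun _ : ι => lz P', lhc g γ φ ∈ lz P := fun {P P'} h1 h2 φ h => by
    rw [lhc_apply]
    refine sum_mem fun i _ => cupc_lz (lz_pullc (U := P ∩ Z₂) (fun x e => hg x (h1 e.1))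
      (fun x e => h2 x e.1 e.2) (h i trivial)) (hγ i).2 fun x hx => ?_
    by_cases e : x ∈ Z₂
    exacts [Or.inl ⟨hx, e⟩, Or.inr ⟨h1 hx, e⟩]
  refine ⟨key hP hP', key hQ hQ', fun φ h _ => ?_⟩
  rw [lhc_apply, lhc_apply, map_sum, ← Finset.sum_sub_distrib]
  refine sum_mem fun i _ => ?_
  change dl _ - cupc (pullc g (dl (φ i))) _ ∈ _
  rw [dl_cupc (bd_pullc g (h i trivial)).1 (hγ i).1.1.1, dl_pullc, add_sub_cancel_left]
  exact cupc_lz (lz_empty _) (hγ i).1.2 fun x hx => Or.inr (hP hx)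

theorem lh_bij_iff {γ : ι → List X → ℂ} (k : ι → ℤ) (e : EqOn f g U₁) (ha : Adm g U₁ Z₁ U' Z')
    (hc : CupOK U₁ Z₁ U₂ Z₂ V W) (hγ : ∀ i, γ i ∈ Zc U₂ Z₂) {P Q : Set X} {P' Q' : Set Y}
    (e1 : P = V) (e2 : Q = V \ W) (e3 : P' = U') (e4 : Q' = U' \ Z') :
    (Function.Bijective fun a : ι → H U' Z' =>
      ∑ i, cup V W (pull f U₁ Z₁ (a i)) (cls U₂ Z₂ (γ i))) ↔
    Cx.QI ((cx Y).pi k) (cx X) (lhc g γ) (.pi univ fun _ => lz P') (.pi univ fun _ => lz Q')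
      (lz P) (lz Q) := by
  subst e1 e2 e3 e4
  have mz : ∀ φ : ι → List Y → ℂ, (∀ i, φ i ∈ Zc P' Z') → lhc g γ φ ∈ Zc P W := fun φ m => by
    rw [lhc_apply]; exact sum_mem fun i _ => hc.zc (ha.zc (m i)) (hγ i)
  have key : ∀ φ : ι → List Y → ℂ, (∀ i, φ i ∈ Zc P' Z') →
      ∑ i, cup P W (pull f U₁ Z₁ (cls P' Z' (φ i))) (cls U₂ Z₂ (γ i)) = cls P W (lhc g γ φ) := by
    intro φ m
    rw [lhc_apply, cls_sum _ fun i _ => hc.zc (ha.zc (m i)) (hγ i)]
    exact Finset.sum_congr rfl fun i _ => by rw [pull_cls e ha (m i), cup_cls hc (ha.zc (m i)) (hγ i)]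
  constructor
  · intro h
    constructor
    · intro φ h1 h2 h3 ψ h4 h5 h6
      have m : ∀ i, φ i ∈ Zc P' Z' := fun i => mem_Zc.2 ⟨h1 i trivial, h3 i trivial, h2 i trivial⟩
      have : (fun i => cls P' Z' (φ i)) = 0 := h.1 (by
        simp only [key φ m, Pi.zero_apply, map_zero, LinearMap.zero_apply, Finset.sum_const_zero]
        exact (cls_eq_zero (mz φ m)).2 ⟨ψ, h4, h5, h6⟩)
      choose χ c1 c2 c3 using fun i => (cls_eq_zero (m i)).1 (congrFun this i)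
      exact ⟨χ, fun i _ => c1 i, fun i _ => c2 i, fun i _ => c3 i⟩
    · intro ψ h1 h2 h3
      have m' : ψ ∈ Zc P W := mem_Zc.2 ⟨h1, h3, h2⟩
      obtain ⟨a, ha⟩ := h.2 (cls P W ψ)
      choose φ m e using fun i => exists_cls (a i)
      simp only [e, key φ m] at ha
      exact ⟨φ, fun i _ => (m i).1.1, fun i _ => (m i).2, fun i _ => (m i).1.2,
        (cls_eq_cls m' (mz φ m)).1 ha.symm⟩
  · intro h
    constructor
    · intro a b hab
      rw [← sub_eq_zero]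
      have : ∑ i, cup P W (pull f U₁ Z₁ ((a - b) i)) (cls U₂ Z₂ (γ i)) = 0 := by
        simpa [map_sub, Finset.sum_sub_distrib, sub_eq_zero] using hab
      generalize a - b = c at this
      choose φ m e using fun i => exists_cls (c i)
      simp only [e, key φ m] at this
      obtain ⟨ψ, h4, h5, h6⟩ := (cls_eq_zero (mz φ m)).1 this
      obtain ⟨χ, c1, c2, c3⟩ := h.inj φ (fun i _ => (m i).1.1) (fun i _ => (m i).2)
        (fun i _ => (m i).1.2) ψ h4 h5 h6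
      funext i
      rw [e]
      exact (cls_eq_zero (m i)).2 ⟨χ i, c1 i trivial, c2 i trivial, c3 i trivial⟩
    · intro b
      obtain ⟨ψ, m', rfl⟩ := exists_cls b
      obtain ⟨φ, h1, h2, h3, h4⟩ := h.surj ψ m'.1.1 m'.2 m'.1.2
      have m : ∀ i, φ i ∈ Zc P' Z' := fun i => mem_Zc.2 ⟨h1 i trivial, h3 i trivial, h2 i trivial⟩
      exact ⟨fun i => cls P' Z' (φ i), (key φ m).trans ((cls_eq_cls m' (mz φ m)).2 h4).symm⟩

theorem pi_lz_anti {A B : Set Y} (h : A ⊆ B) :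
    (Submodule.pi univ fun _ : ι => lz B) ≤ .pi univ fun _ => lz A :=
  fun _ k i hi => lz_anti h (k i hi)

variable [RegularSpace X] [SecondCountableTopology X] [RegularSpace Y] [SecondCountableTopology Y]

/-- Leray-Hirsch from small open sets of the base. -/
theorem lh_local (hf : Ext f U) (hm : MapsTo f U U') (hc' : Cl U' Z') (hc : Cl U Z₂)
    (h1 : ∀ x ∈ U, x ∈ Z₁ ↔ f x ∈ Z') (h2 : ∀ x ∈ U, x ∈ Z ↔ f x ∈ Z' ∧ x ∈ Z₂)
    {c : ι → H U Z₂} {k : ι → ℤ} (hk : ∀ i, IsDeg (k i) (c i))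
    (loc : ∀ y ∈ U', ∃ V, IsOpen V ∧ y ∈ V ∧ ∀ W, IsOpen W → W ⊆ V →
      Function.Bijective fun a : ι → H (U' ∩ W) univ =>
        ∑ i, cup (U ∩ f ⁻¹' W) Z₂ (pull f (U ∩ f ⁻¹' W) univ (a i)) (c i)) :
    Function.Bijective fun a : ι → H U' Z' => ∑ i, cup U Z (pull f U Z₁ (a i)) (c i) := by
  have hf' := hf.continuousOn
  obtain ⟨g, e, hg⟩ := hf
  choose γ m ec d using hk
  obtain rfl : c = fun i => cls U Z₂ (γ i) := funext ec
  have ch := lhc_ch g (fun i => (m i).1.1) d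
  have pr : ∀ W W' : Set Y, Cx.IsPair ((cx Y).pi k) (cx X) (lhc g γ)
      (.pi univ fun _ => lz (U' ∩ W)) (.pi univ fun _ => lz (U' ∩ W'))
      (lz (U ∩ Z₂ ∩ f ⁻¹' W ∪ U \ Z₂)) (lz (U ∩ Z₂ ∩ f ⁻¹' W' ∪ U \ Z₂)) := fun W W' =>
    lhc_pair k hg m (fun x h => h.elim (·.1.1) (·.1)) (fun x h => h.elim (·.1.1) (·.1))
      (fun x h a => h.elim (fun h => e h.1.1 ▸ ⟨hm h.1.1, h.2⟩) fun h => (h.2 a).elim)
      (fun x h a => h.elim (fun h => e h.1.1 ▸ ⟨hm h.1.1, h.2⟩) fun h => (h.2 a).elim)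
  have qi := Cx.Loc.qi_of_local ch
    ((loc_lz (q := id) (A := U') (B := ∅) (S := fun W => U' ∩ W) continuousOn_id (by simp)
      (by simp)).pi k)
    (loc_lz (q := f) (A := U ∩ Z₂) (B := U \ Z₂) (hf'.mono inter_subset_left)
      (Set.disjoint_left.2 fun x a b => a.2 (hc ⟨a.1, b⟩)) fun _ => rfl) (fun W => pr W ∅) U'
    (fun W => pi_lz_anti fun y h => ⟨h.1, h.2, h.1⟩)
    (fun W => lz_anti fun x h => h.imp_left fun h => ⟨h.1, h.2, hm h.1.1⟩) fun y hy => by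
      obtain ⟨V, v1, v2, v3⟩ := loc y hy
      refine ⟨V, v1, v2, fun W w1 w2 => ?_⟩
      have ad : Adm g (U ∩ f ⁻¹' W) univ (U' ∩ W) univ := ⟨fun x h => hg x h.1,
        fun x h => e h.1 ▸ ⟨hm h.1, h.2⟩, fun x h => (h.2 trivial).elim⟩
      have cu : CupOK (U ∩ f ⁻¹' W) univ U Z₂ (U ∩ Z₂ ∩ f ⁻¹' W ∪ U \ Z₂) Z₂ :=
        ⟨fun x h => Or.inr (h.elim (·.1.1) (·.1)), fun x h => h.imp_left fun h => ⟨h.1.1, h.2⟩,
          fun x h => Or.inr ⟨h.1.elim (·.1.1) (·.1), h.2⟩⟩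
      have sb : U ∩ f ⁻¹' W ⊆ U ∩ Z₂ ∩ f ⁻¹' W ∪ U \ Z₂ := fun x h => by
        by_cases a : x ∈ Z₂
        exacts [Or.inl ⟨⟨h.1, a⟩, h.2⟩, Or.inr ⟨h.1, a⟩]
      refine (lh_bij_iff k (e.mono inter_subset_left) ad cu m rfl ?_ rfl (by simp)).1 ?_
      · ext x
        simp only [preimage_empty, inter_empty, empty_union, Set.mem_sdiff, mem_union, mem_inter_iff]
        tauto
      have ex := res_excision (Z := Z₂) (Z₁ := Z₂) sb (hc.mono fun x h => h.elim (·.1.1) (·.1))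
        (fun x h a => by
          have h' := h.resolve_right fun b => b.2 a
          exact nhdsWithin_mono _ (fun x h => h.elim (·.1.1) (·.1))
            (inter_mem self_mem_nhdsWithin (hf' x h'.1.1 (w1.mem_nhds h'.2))))
        fun _ _ => Iff.rfl
      refine (Function.Bijective.of_comp_iff' ex _).1 ?_
      convert v3 W w1 w2 using 1
      funext a
      simp only [Function.comp_apply, map_sum]
      exact Finset.sum_congr rfl fun i _ => res_cup_out (.id sb fun _ _ h => h) cu _ _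
  refine (lh_bij_iff k e (Ok.adm (.of_mem ⟨g, e, hg⟩ hm fun x a => (h1 x a).2) e hg)
    (.of_subset subset_rfl subset_rfl fun x a b c => (h2 x a).2 ⟨(h1 x a).1 b, c⟩) m
    (P := U ∩ Z₂ ∩ f ⁻¹' univ ∪ U \ Z₂) (Q := U ∩ Z₂ ∩ f ⁻¹' (closure (U' ∩ Z'))ᶜ ∪ U \ Z₂)
    (P' := U' ∩ univ) (Q' := U' ∩ (closure (U' ∩ Z'))ᶜ) (by simp) ?_ (by simp)
    hc'.eq_inter.symm).2 ?_
  · ext x
    have a1 := h2 x
    have a2 := fun h => Set.ext_iff.1 hc'.eq_inter (f x) |>.trans (and_iff_right (hm h))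
    have a3 := @hm x
    simp only [Set.mem_sdiff, mem_union, mem_inter_iff, mem_preimage] at a2 ⊢
    tauto
  exact Cx.QI.left ch (pi_lz_anti (by simp)) (pi_lz_anti (by simp))
    (lz_anti (union_subset_union_left _ fun _ h => ⟨h.1, trivial⟩))
    (lz_anti (union_subset_union_left _ (by simp)))
    (pr _ _) (pr _ _) (pr _ _) (qi _ isOpen_univ) (qi _ isClosed_closure.isOpen_compl)

/-- Leray-Hirsch for closed maps from the fibres. -/
theorem lh_stalk (hf : Ext f U) (hm : MapsTo f U U')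
    (h1 : ∀ x ∈ U, x ∈ Z₁ ↔ f x ∈ Z') (h2 : ∀ x ∈ U, x ∈ Z ↔ f x ∈ Z')
    (cl : ∀ y ∈ U', ∀ O, IsOpen O → U ∩ f ⁻¹' {y} ⊆ O → ∃ W ∈ 𝓝 y, U ∩ f ⁻¹' W ⊆ O)
    {c : ι → H U Z₂} {k : ι → ℤ} (hk : ∀ i, IsDeg (k i) (c i))
    (loc : ∀ y ∈ U', Function.Bijective fun a : ι → ℂ =>
      ∑ i, a i • pull id (U ∩ f ⁻¹' {y}) univ (c i)) :
    Function.Bijective fun a : ι → H U' Z' => ∑ i, cup U Z (pull f U Z₁ (a i)) (c i) := by
  have hf' := hf.continuousOn
  obtain ⟨g, e, hg⟩ := hf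
  choose γ m ec d using hk
  obtain rfl : c = fun i => cls U Z₂ (γ i) := funext ec
  have ch := lhc_ch g (fun i => (m i).1.1) d
  have pr : ∀ S S' : Set Y, Cx.IsPair ((cx Y).pi k) (cx X) (lhc g γ)
      (.pi univ fun _ => lz S) (.pi univ fun _ => lz S') (lz (U ∩ f ⁻¹' S)) (lz (U ∩ f ⁻¹' S')) :=
    fun W W' => lhc_pair k hg m inter_subset_left inter_subset_left (fun x h _ => e h.1 ▸ h.2)
      fun x h _ => e h.1 ▸ h.2
  have qi : ∀ S ⊆ U', Cx.QI ((cx Y).pi k) (cx X) (lhc g γ) (.pi univ fun _ => lz S)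
      (.pi univ fun _ => lz ∅) (lz (U ∩ f ⁻¹' S)) (lz (U ∩ f ⁻¹' ∅)) := fun S hS => by
    have := Cx.Loc.qi_of_stalk ch
      ((loc_lz (q := id) (A := S) (B := ∅) (S := fun W => S ∩ W) continuousOn_id (by simp)
        (by simp)).pi k)
      (loc_lz (q := f) (A := U ∩ f ⁻¹' S) (B := ∅) (S := fun W => U ∩ f ⁻¹' (S ∩ W))
        (hf'.mono inter_subset_left) (by simp) (by simp [inter_assoc])) (fun W => pr _ _) S
      (fun W => pi_lz_anti fun y h => ⟨h.1, h.2, h.1⟩)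
      (fun W => lz_anti fun x h => ⟨h.1, h.2.1, h.2.2, h.2.1⟩)
      (fun y hy φ h => ⟨⋂ i, nul (φ i), iInter_mem.2 fun i =>
        (isOpen_nul _).mem_nhds (h i trivial y ⟨hy, rfl⟩), fun i _ x a => mem_iInter.1 a.2 i⟩)
      (fun y hy φ h => (cl y (hS hy) _ (isOpen_nul φ) fun x a =>
        h x ⟨a.1, (show f x = y from a.2) ▸ hy, a.2⟩).imp fun W a =>
          ⟨a.1, fun x b => a.2 ⟨b.1, b.2.2⟩⟩)
      (fun y hy => ?_) univ isOpen_univ
    · simpa using this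
    have ad : Adm g (U ∩ f ⁻¹' {y}) univ {y} univ := ⟨fun x h => hg x h.1,
      fun x h => e h.1 ▸ h.2, fun x h => (h.2 trivial).elim⟩
    have ok : Ok f (U ∩ f ⁻¹' {y}) univ {y} univ := ad.ok.congr (e.mono inter_subset_left).symm
    have cu : CupOK (U ∩ f ⁻¹' {y}) univ U Z₂ (U ∩ f ⁻¹' {y}) univ :=
      .of_subset subset_rfl inter_subset_left fun _ _ _ _ => trivial
    refine (lh_bij_iff k (e.mono inter_subset_left) ad cu m
      (by rw [inter_eq_right.2 (singleton_subset_iff.2 hy)]) (by simp)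
      (inter_eq_right.2 (singleton_subset_iff.2 hy)) (by simp)).1 ?_
    have b : Function.Bijective fun (a : ι → H {y} univ) i => ev y (a i) :=
      Function.Bijective.piMap (f := fun (_ : ι) (a : H {y} univ) => ev y a) fun i =>
        ⟨fun a b h => by rw [pt_eq (mem_univ y) a, pt_eq (mem_univ y) b]; exact congrArg (· • _) h,
          fun t => ⟨t • cls _ _ onec, by simp [ev_one (mem_singleton y) (subset_univ _)]⟩⟩
    convert (loc y (hS hy)).comp b using 1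
    funext a
    refine Finset.sum_congr rfl fun i _ => ?_
    rw [pt_eq (mem_univ y) (a i), map_smul, map_smul, pull_one ok (subset_univ _),
      LinearMap.smul_apply, one_cup (subset_univ _) cu (.id inter_subset_left fun _ _ _ => trivial)]
  refine (lh_bij_iff k e (Ok.adm (.of_mem ⟨g, e, hg⟩ hm fun x a => (h1 x a).2) e hg)
    (.of_subset subset_rfl subset_rfl fun x a b _ => (h2 x a).2 ((h1 x a).1 b)) m
    (P := U ∩ f ⁻¹' U') (Q := U ∩ f ⁻¹' (U' \ Z')) (inter_eq_left.2 hm) ?_ rfl rfl).2 ?_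
  · ext x
    have a1 := h2 x
    have a3 := @hm x
    simp only [Set.mem_sdiff, mem_inter_iff, mem_preimage]
    tauto
  exact Cx.QI.left ch (pi_lz_anti sdiff_subset) (pi_lz_anti (by simp))
    (lz_anti (inter_subset_inter_right _ (preimage_mono sdiff_subset))) (lz_anti (by simp))
    (pr _ _) (pr _ _) (pr _ _) (qi _ subset_rfl) (qi _ sdiff_subset)

end Pool.Agent.Work.MP_849ab0_ag.G
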