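import Pool.Agent.Work.MP_849ab0_ag.G.FCo

/-! Formal properties of the cohomology groups `H U Z`. -/

noncomputable section

set_option linter.unusedSectionVars false

namespace Pool.Agent.Work.MP_849ab0_ag.G

open Set Topology Filter

variable {X Y W : Type} [TopologicalSpace X] [TopologicalSpace Y] [TopologicalSpace W]
variable {U Z U₁ Z₁ U₂ Z₂ : Set X} {U' Z' U₁' Z₁' U₂' Z₂' : Set Y} {U'' Z'' : Set W}
variable {φ ψ : List X → ℂ}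

theorem lz_anti {A B : Set X} (h : A ⊆ B) : lz B ≤ lz A := fun _ k x hx => k x (h hx)

theorem lz_empty (φ : List X → ℂ) : φ ∈ lz (∅ : Set X) := fun _ hx => hx.elim

theorem lz_union {A B : Set X} (h1 : φ ∈ lz A) (h2 : φ ∈ lz B) : φ ∈ lz (A ∪ B) :=
  fun x hx => hx.elim (h1 x) (h2 x)

theorem lz_of_zero {A : Set X} (h : φ ∈ lz A) (k : ∀ l, φ l = 0 → ψ l = 0) : ψ ∈ lz A :=
  fun x hx => (h x hx).imp fun _ e => ⟨e.1, fun l hl => k l (e.2 l hl)⟩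

theorem bd_of_zero (h : φ ∈ bd X) (k : ∀ l, φ l = 0 → ψ l = 0) : ψ ∈ bd X :=
  ⟨k _ h.1, h.2.imp fun _ e l hl => k l (e l hl)⟩

theorem dl_bd (h : φ ∈ bd X) : dl φ ∈ bd X := by
  obtain ⟨-, m, k⟩ := h
  exact ⟨rfl, m + 1, fun l hl => (dl_congr (ψ := 0) fun m' e _ => k _ (by omega)).trans (by simp)⟩

theorem msk_lz {A : Set X} (s : Set ℤ) (h : φ ∈ lz A) : msk s φ ∈ lz A :=
  lz_of_zero h fun _ => msk_zero

theorem msk_bd (s : Set ℤ) (h : φ ∈ bd X) : msk s φ ∈ bd X := bd_of_zero h fun _ => msk_zero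

theorem cut_lz {A : Set X} (O : Set X) (h : φ ∈ lz A) : cut O φ ∈ lz A :=
  lz_of_zero h fun _ => cut_zero O

theorem cut_bd (O : Set X) (h : φ ∈ bd X) : cut O φ ∈ bd X := bd_of_zero h fun _ => cut_zero O

theorem cut_lz_of_disjoint {A O V : Set X} (hV : IsOpen V) (hA : A ⊆ V) (h : Disjoint O V)
    (φ : List X → ℂ) : cut O φ ∈ lz A := fun x hx => ⟨V, hV.mem_nhds (hA hx), fun l hl => by
  cases l with
  | nil => exact cut_nil _ _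
  | cons a l => exact cut_of_not_mem _ _ (h.notMem_of_mem_right (hl a List.mem_cons_self))⟩

theorem sub_cut_lz {A O : Set X} (hO : IsOpen O) (hA : A ⊆ O) (h : φ [] = 0) :
    φ - cut O φ ∈ lz A := fun x hx => ⟨O, hO.mem_nhds (hA hx), fun l hl => by
  cases l with
  | nil => simp [cut_nil, h]
  | cons a l => simp [cut_of_mem _ _ (hl a List.mem_cons_self)]⟩

theorem Hom.mem_bd {p : ℤ} (h : Hom p φ) (h0 : φ [] = 0) : φ ∈ bd X :=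
  ⟨h0, (p + 1).toNat, fun l hl => h l (by omega)⟩

theorem zc_bd (θ : X → ℂ) : zc θ ∈ bd X := (hom_zc θ).mem_bd rfl

theorem onec_bd : onec ∈ bd X := hom_onec.mem_bd rfl

theorem cn_lz {a : X} (h : φ ∈ lz {a}) : cn a φ ∈ lz {a} := by
  rintro x rfl
  obtain ⟨V, hV, k⟩ := h x rfl
  exact ⟨V, hV, fun l hl => k _ (by simpa [mem_of_mem_nhds hV] using hl)⟩

theorem mem_Zc : φ ∈ Zc U Z ↔ φ ∈ bd X ∧ dl φ ∈ lz U ∧ φ ∈ lz (U \ Z) := and_assoc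

theorem mem_Bc : φ ∈ Bc U Z ↔ ∃ ψ ∈ bd X, ψ ∈ lz (U \ Z) ∧ φ - dl ψ ∈ lz U := by
  rw [Bc, Submodule.mem_sup]
  constructor
  · rintro ⟨_, ⟨ψ, h1, rfl⟩, η, h2, rfl⟩
    exact ⟨ψ, h1.1, h1.2, by simpa using h2⟩
  · rintro ⟨ψ, h1, h2, h3⟩
    exact ⟨_, ⟨ψ, ⟨h1, h2⟩, rfl⟩, _, h3, by simp⟩

theorem cls_eq_mk (h : φ ∈ Zc U Z) : cls U Z φ = Submodule.Quotient.mk ⟨φ, h⟩ := dif_pos h

theorem exists_cls (a : H U Z) : ∃ φ ∈ Zc U Z, a = cls U Z φ := by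
  obtain ⟨⟨φ, h⟩, rfl⟩ := Submodule.Quotient.mk_surjective _ a
  exact ⟨φ, h, (cls_eq_mk h).symm⟩

theorem cls_add (h1 : φ ∈ Zc U Z) (h2 : ψ ∈ Zc U Z) :
    cls U Z (φ + ψ) = cls U Z φ + cls U Z ψ := by
  rw [cls_eq_mk h1, cls_eq_mk h2, cls_eq_mk (add_mem h1 h2)]; rfl

theorem cls_sub (h1 : φ ∈ Zc U Z) (h2 : ψ ∈ Zc U Z) :
    cls U Z (φ - ψ) = cls U Z φ - cls U Z ψ := by
  rw [cls_eq_mk h1, cls_eq_mk h2, cls_eq_mk (sub_mem h1 h2)]; rfl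

theorem cls_neg (h1 : φ ∈ Zc U Z) : cls U Z (-φ) = -cls U Z φ := by
  rw [cls_eq_mk h1, cls_eq_mk (neg_mem h1)]; rfl

theorem cls_smul (c : ℂ) (h1 : φ ∈ Zc U Z) : cls U Z (c • φ) = c • cls U Z φ := by
  rw [cls_eq_mk h1, cls_eq_mk (Submodule.smul_mem _ c h1)]; rfl

theorem cls_zero : cls U Z 0 = 0 := by rw [cls_eq_mk (zero_mem _)]; rfl

theorem cls_sum {ι : Type} (s : Finset ι) {φ : ι → List X → ℂ} (h : ∀ i ∈ s, φ i ∈ Zc U Z) :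
    cls U Z (∑ i ∈ s, φ i) = ∑ i ∈ s, cls U Z (φ i) := by
  classical
  induction s using Finset.induction_on with
  | empty => simpa using cls_zero
  | insert a s ha ih =>
    rw [Finset.sum_insert ha, Finset.sum_insert ha, cls_add (h a (by simp))
      (sum_mem fun i hi => h i (by simp [hi])), ih fun i hi => h i (by simp [hi])]

theorem cls_eq_zero (h : φ ∈ Zc U Z) :
    cls U Z φ = 0 ↔ ∃ ψ ∈ bd X, ψ ∈ lz (U \ Z) ∧ φ - dl ψ ∈ lz U := by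
  rw [cls_eq_mk h, Submodule.Quotient.mk_eq_zero, ← mem_Bc]; rfl

theorem cls_eq_cls (h1 : φ ∈ Zc U Z) (h2 : ψ ∈ Zc U Z) :
    cls U Z φ = cls U Z ψ ↔ ∃ χ ∈ bd X, χ ∈ lz (U \ Z) ∧ φ - ψ - dl χ ∈ lz U := by
  rw [← sub_eq_zero, ← cls_sub h1 h2, cls_eq_zero (sub_mem h1 h2)]

theorem Zc_of_sub_lz (h1 : φ ∈ Zc U Z) (h2 : ψ ∈ bd X) (h : φ - ψ ∈ lz U) : ψ ∈ Zc U Z :=
  mem_Zc.2 ⟨h2, by simpa using sub_mem h1.1.2 (dl_lz h),
    by simpa using sub_mem h1.2 (lz_anti sdiff_subset h)⟩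

theorem cls_eq_of_lz (h1 : φ ∈ Zc U Z) (h2 : ψ ∈ bd X) (h : φ - ψ ∈ lz U) :
    cls U Z φ = cls U Z ψ :=
  (cls_eq_cls h1 (Zc_of_sub_lz h1 h2 h)).2 ⟨0, zero_mem _, zero_mem _, by simpa using h⟩

theorem H_ext {A : Type} [AddCommGroup A] [Module ℂ A] {F G : H U Z →ₗ[ℂ] A}
    (h : ∀ φ ∈ Zc U Z, F (cls U Z φ) = G (cls U Z φ)) : F = G :=
  LinearMap.ext fun a => by obtain ⟨φ, k, rfl⟩ := exists_cls a; exact h φ k

theorem subsingleton_H (h : Disjoint U Z) : Subsingleton (H U Z) :=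
  subsingleton_of_forall_eq 0 fun a => by
    obtain ⟨φ, k, rfl⟩ := exists_cls a
    exact (cls_eq_zero k).2 ⟨0, zero_mem _, zero_mem _, by simpa [h.sdiff_eq_left] using k.2⟩

/-- The map induced by a cochain operator. -/
def mapH (T : (List Y → ℂ) →ₗ[ℂ] (List X → ℂ)) (h1 : ∀ φ ∈ Zc U' Z', T φ ∈ Zc U Z)
    (h2 : ∀ φ ∈ Zc U' Z', φ ∈ Bc U' Z' → T φ ∈ Bc U Z) : H U' Z' →ₗ[ℂ] H U Z :=
  Submodule.mapQ _ _ (T.restrict h1) fun φ k => h2 φ.1 φ.2 k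

theorem mapH_cls {T : (List Y → ℂ) →ₗ[ℂ] (List X → ℂ)} (h1 : ∀ φ ∈ Zc U' Z', T φ ∈ Zc U Z)
    (h2 : ∀ φ ∈ Zc U' Z', φ ∈ Bc U' Z' → T φ ∈ Bc U Z) {φ : List Y → ℂ} (h : φ ∈ Zc U' Z') :
    mapH T h1 h2 (cls U' Z' φ) = cls U Z (T φ) := by
  rw [cls_eq_mk h, cls_eq_mk (h1 φ h)]; rfl

/-! Pull-back -/

/-- `f` agrees on `U` with a map that is continuous at the points of `U`. -/
def Ext (f : X → Y) (U : Set X) : Prop := ∃ g, EqOn f g U ∧ ∀ x ∈ U, ContinuousAt g x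

/-- The condition under which `pull f U Z : H U' Z' → H U Z` is defined. -/
structure Ok (f : X → Y) (U Z : Set X) (U' Z' : Set Y) : Prop where
  ext : Ext f U
  maps : MapsTo f U U'
  supp : MapsTo f (U \ Z) (U' \ Z')

variable {f g : X → Y} {f' : Y → W}

theorem Ext.mono (h : Ext f U) (k : U₁ ⊆ U) : Ext f U₁ :=
  h.imp fun _ e => ⟨e.1.mono k, fun x hx => e.2 x (k hx)⟩

theorem Ext.of_continuous (h : Continuous f) (U : Set X) : Ext f U :=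
  ⟨f, fun _ _ => rfl, fun _ _ => h.continuousAt⟩

theorem Ext.of_continuousAt (h : ∀ x ∈ U, ContinuousAt f x) : Ext f U := ⟨f, fun _ _ => rfl, h⟩

theorem Ext.congr (h : Ext f U) (k : EqOn f g U) : Ext g U :=
  h.imp fun _ e => ⟨k.symm.trans e.1, e.2⟩

theorem Ext.continuousOn (h : Ext f U) : ContinuousOn f U := by
  obtain ⟨g, h1, h2⟩ := h
  exact ContinuousOn.congr (fun x hx => (h2 x hx).continuousWithinAt) h1

theorem Ext.comp (h' : Ext f' U') (h : Ext f U) (k : MapsTo f U U') : Ext (f' ∘ f) U := by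
  obtain ⟨g, h1, h2⟩ := h
  obtain ⟨g', h3, h4⟩ := h'
  refine ⟨g' ∘ g, fun x hx => ?_, fun x hx => (h4 _ (h1 hx ▸ k hx)).comp (h2 x hx)⟩
  rw [Function.comp_apply, h3 (k hx), h1 hx]; rfl

theorem Ext.prodMk {f₂ : X → W} (h : Ext f U) (h' : Ext f₂ U) : Ext (fun x => (f x, f₂ x)) U := by
  obtain ⟨g, h1, h2⟩ := h
  obtain ⟨g', h3, h4⟩ := h'
  exact ⟨fun x => (g x, g' x), fun x hx => Prod.ext (h1 hx) (h3 hx),
    fun x hx => (h2 x hx).prodMk (h4 x hx)⟩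

theorem Ext.prodMap {V : Type} [TopologicalSpace V] {f₂ : W → V} (h : Ext f U) (h' : Ext f₂ U'') :
    Ext (Prod.map f f₂) (U ×ˢ U'') :=
  (h.comp (.of_continuous continuous_fst _) fun _ k => k.1).prodMk
    (h'.comp (.of_continuous continuous_snd _) fun _ k => k.2)

/-- A locally closed set is a retract, continuously at its own points. -/
theorem exists_retr [RegularSpace X] [SecondCountableTopology X] (hU : IsLocallyClosed U)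
    (hne : U.Nonempty) : ∃ r : X → X, (∀ x, r x ∈ U) ∧ (∀ x ∈ U, r x = x) ∧
      ∀ x ∈ U, ContinuousAt r x := by
  let _ := TopologicalSpace.pseudoMetrizableSpacePseudoMetric X
  have : ∀ x, ∃ y ∈ U, (x ∈ U → y = x) ∧ (x ∉ closure U → dist x y < 2 * Metric.infDist x U) := by
    intro x
    by_cases h : x ∈ U
    · exact ⟨x, h, fun _ => rfl, fun k => (k (subset_closure h)).elim⟩
    by_cases k : x ∈ closure U
    · exact ⟨_, hne.choose_spec, fun e => (h e).elim, fun e => (e k).elim⟩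
    have := (Metric.infDist_pos_iff_notMem_closure hne).1 k
    obtain ⟨y, h1, h2⟩ := (Metric.infDist_lt_iff hne).1
      (show Metric.infDist x U < 2 * Metric.infDist x U by linarith)
    exact ⟨y, h1, fun e => (h e).elim, fun _ => h2⟩
  choose r r1 r2 r3 using this
  refine ⟨r, r1, r2, fun x hx => Metric.continuousAt_iff'.2 fun ε hε => ?_⟩
  have key : ∀ x ∈ U, ∃ O, x ∈ O ∧ IsOpen O ∧ O ∩ closure U ⊆ U :=
    ((isLocallyClosed_tfae U).out 0 3).1 hU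
  obtain ⟨O, hO, hO', e⟩ := key x hx
  filter_upwards [hO'.mem_nhds hO, Metric.ball_mem_nhds x (show 0 < ε / 3 by positivity)] with y h1 h2
  rw [r2 x hx]
  have h2' : dist y x < ε / 3 := h2
  by_cases k : y ∈ closure U
  · rw [r2 y (e ⟨h1, k⟩)]; linarith
  · have := r3 y k
    have := Metric.infDist_le_dist_of_mem (x := y) hx
    have := dist_triangle_left (r y) x y
    linarith

theorem Ext.of_continuousOn [RegularSpace X] [SecondCountableTopology X] (hU : IsLocallyClosed U)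
    (h : ContinuousOn f U) : Ext f U := by
  rcases U.eq_empty_or_nonempty with rfl | hne
  · exact ⟨f, fun _ _ => rfl, fun _ k => k.elim⟩
  obtain ⟨r, r1, r2, r3⟩ := exists_retr hU hne
  refine ⟨f ∘ r, fun x hx => by rw [Function.comp_apply, r2 x hx], fun x hx => ?_⟩
  have : Tendsto r (𝓝 x) (𝓝[U] x) :=
    tendsto_nhdsWithin_iff.2 ⟨by simpa only [ContinuousAt, r2 x hx] using r3 x hx, .of_forall r1⟩
  simpa only [ContinuousAt, Function.comp_apply, r2 x hx] using (h x hx).tendsto.comp this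

theorem Ok.adm (h : Ok f U Z U' Z') (e : EqOn f g U) (k : ∀ x ∈ U, ContinuousAt g x) :
    Adm g U Z U' Z' :=
  ⟨k, h.maps.congr e, h.supp.congr (e.mono sdiff_subset)⟩

theorem ok_iff : Ok f U Z U' Z' ↔ ∃ g, EqOn f g U ∧ Adm g U Z U' Z' :=
  ⟨fun h => h.ext.imp fun _ e => ⟨e.1, h.adm e.1 e.2⟩, fun ⟨g, e, k⟩ =>
    ⟨⟨g, e, k.cont⟩, k.maps.congr e.symm, k.supp.congr (e.mono sdiff_subset).symm⟩⟩

theorem Adm.ok (h : Adm f U Z U' Z') : Ok f U Z U' Z' := ok_iff.2 ⟨f, fun _ _ => rfl, h⟩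

theorem Ok.of_mem (h : Ext f U) (h1 : MapsTo f U U') (h2 : ∀ x ∈ U, f x ∈ Z' → x ∈ Z) :
    Ok f U Z U' Z' := ⟨h, h1, fun x hx => ⟨h1 hx.1, fun k => hx.2 (h2 x hx.1 k)⟩⟩

theorem Ok.mem (h : Ok f U Z U' Z') {x : X} (hx : x ∈ U) (k : f x ∈ Z') : x ∈ Z :=
  by_contra fun e => (h.supp ⟨hx, e⟩).2 k

theorem Ok.id (h1 : U₁ ⊆ U) (h2 : ∀ x ∈ U₁, x ∈ Z → x ∈ Z₁) : Ok id U₁ Z₁ U Z :=
  .of_mem (.of_continuous continuous_id _) h1 h2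

theorem Ok.refl : Ok _root_.id U Z U Z := .id subset_rfl fun _ _ h => h

theorem Ok.comp (h' : Ok f' U' Z' U'' Z'') (h : Ok f U Z U' Z') : Ok (f' ∘ f) U Z U'' Z'' :=
  ⟨h'.ext.comp h.ext h.maps, h'.maps.comp h.maps, h'.supp.comp h.supp⟩

theorem Ok.congr (h : Ok f U Z U' Z') (e : EqOn f g U) : Ok g U Z U' Z' :=
  ⟨h.ext.congr e, h.maps.congr e, h.supp.congr (e.mono sdiff_subset)⟩

theorem Adm.zc (h : Adm f U Z U' Z') {φ : List Y → ℂ} (k : φ ∈ Zc U' Z') : pullc f φ ∈ Zc U Z :=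
  mem_Zc.2 ⟨bd_pullc f k.1.1, dl_pullc f φ ▸ lz_pullc h.cont h.maps k.1.2,
    lz_pullc (fun x hx => h.cont x hx.1) h.supp k.2⟩

theorem pull0_cls (h : Adm f U Z U' Z') {φ : List Y → ℂ} (k : φ ∈ Zc U' Z') :
    pull0 h (cls U' Z' φ) = cls U Z (pullc f φ) := by
  rw [cls_eq_mk k, cls_eq_mk (h.zc k)]; rfl

theorem prc_lz {A : Set X} {A' : Set Y} (e : EqOn f g A) (h1 : ∀ x ∈ A, ContinuousAt f x)
    (h2 : ∀ x ∈ A, ContinuousAt g x) (h3 : MapsTo f A A') {φ : List Y → ℂ} (h : φ ∈ lz A') :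
    prc f g φ ∈ lz A := fun x hx => by
  obtain ⟨V, hV, k⟩ := h _ (h3 hx)
  refine ⟨f ⁻¹' V ∩ g ⁻¹' V, inter_mem (h1 x hx hV) (h2 x hx (e hx ▸ hV)), fun l hl =>
    prc_zero f g l φ fun m _ hm => k m fun y hy => ?_⟩
  obtain ⟨x, k1, rfl | rfl⟩ := hm y hy
  exacts [(hl x k1).1, (hl x k1).2]

theorem prc_bd (f g : X → Y) {φ : List Y → ℂ} (h : φ ∈ bd Y) : prc f g φ ∈ bd X :=
  ⟨rfl, h.2.imp fun _ k l hl => prc_zero f g l φ fun m e _ => k m (by omega)⟩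

theorem cls_pullc_congr (h1 : Adm f U Z U' Z') (h2 : Adm g U Z U' Z') (e : EqOn f g U)
    {φ : List Y → ℂ} (k : φ ∈ Zc U' Z') : cls U Z (pullc g φ) = cls U Z (pullc f φ) :=
  (cls_eq_cls (h2.zc k) (h1.zc k)).2 ⟨prc f g φ, prc_bd f g k.1.1,
    prc_lz (e.mono sdiff_subset) (fun x hx => h1.cont x hx.1) (fun x hx => h2.cont x hx.1)
      h1.supp k.2, by
    rw [← dl_prc, add_sub_cancel_left]
    exact prc_lz e h1.cont h2.cont h1.maps k.1.2⟩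

theorem pull_cls (e : EqOn f g U) (h : Adm g U Z U' Z') {φ : List Y → ℂ} (k : φ ∈ Zc U' Z') :
    pull f U Z (cls U' Z' φ) = cls U Z (pullc g φ) := by
  have h0 : ∃ g, EqOn f g U ∧ Adm g U Z U' Z' := ⟨g, e, h⟩
  rw [pull_eq h0, pull0_cls _ k]
  exact cls_pullc_congr h h0.choose_spec.2 (e.symm.trans h0.choose_spec.1) k

theorem Adm.pull_cls (h : Adm f U Z U' Z') {φ : List Y → ℂ} (k : φ ∈ Zc U' Z') :
    pull f U Z (cls U' Z' φ) = cls U Z (pullc f φ) := G.pull_cls (fun _ _ => rfl) h k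

theorem pull_of_not_ok (h : ¬ Ok f U Z U' Z') : (pull f U Z : H U' Z' →ₗ[ℂ] H U Z) = 0 :=
  dif_neg (ok_iff.not.1 h)

theorem Ok.adm_id (h : Ok _root_.id U₁ Z₁ U Z) : Adm _root_.id U₁ Z₁ U Z :=
  h.adm (fun _ _ => rfl) fun _ _ => continuousAt_id

theorem Ok.zc_id (h : Ok _root_.id U₁ Z₁ U Z) (k : φ ∈ Zc U Z) : φ ∈ Zc U₁ Z₁ :=
  pullc_id φ ▸ h.adm_id.zc k

theorem res_cls (h : Ok id U₁ Z₁ U Z) (k : φ ∈ Zc U Z) :
    pull id U₁ Z₁ (cls U Z φ) = cls U₁ Z₁ φ := by rw [h.adm_id.pull_cls k, pullc_id]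

theorem pull_id (a : H U Z) : pull id U Z a = a := by
  obtain ⟨φ, k, rfl⟩ := exists_cls a
  exact res_cls .refl k

theorem pull_congr (e : EqOn f g U) : (pull f U Z : H U' Z' →ₗ[ℂ] H U Z) = pull g U Z := by
  by_cases h : Ok f U Z U' Z'
  · obtain ⟨g', h1, h2⟩ := ok_iff.1 h
    exact H_ext fun φ k => by rw [pull_cls h1 h2 k, pull_cls (e.symm.trans h1) h2 k]
  · rw [pull_of_not_ok h, pull_of_not_ok fun k => h (k.congr e.symm)]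

theorem pull_pull (h : Ok f U Z U' Z') (h' : Ok f' U' Z' U'' Z'') (a : H U'' Z'') :
    pull f U Z (pull f' U' Z' a) = pull (f' ∘ f) U Z a := by
  obtain ⟨φ, k, rfl⟩ := exists_cls a
  obtain ⟨g, h1, h2⟩ := ok_iff.1 h
  obtain ⟨g', h3, h4⟩ := ok_iff.1 h'
  have e : EqOn (f' ∘ f) (g' ∘ g) U := fun x hx => by
    rw [Function.comp_apply, h3 (h.maps hx), h1 hx]; rfl
  rw [pull_cls h3 h4 k, pull_cls h1 h2 (h4.zc k), pullc_pullc, pull_cls e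
    ((h'.comp h).adm e fun x hx => (h4.cont _ (h2.maps hx)).comp (h2.cont x hx)) k]

theorem pull_pull' {F : X → W} (h : Ok f U Z U' Z') (h' : Ok f' U' Z' U'' Z'')
    (e : ∀ x ∈ U, f' (f x) = F x) (a : H U'' Z'') :
    pull f U Z (pull f' U' Z' a) = pull F U Z a := by
  rw [pull_pull h h', pull_congr (f := f' ∘ f) (g := F) e]

/-- Pull-back along a homeomorphism of pairs. -/
theorem pull_bij_of_inv {s : Y → X} (h : Ok f U Z U' Z') (h' : Ok s U' Z' U Z)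
    (e : ∀ x ∈ U, s (f x) = x) (e' : ∀ y ∈ U', f (s y) = y) :
    Function.Bijective (pull f U Z : H U' Z' → H U Z) :=
  Function.bijective_iff_has_inverse.2 ⟨pull s U' Z', fun a => by
    rw [pull_pull' (F := id) h' h e', pull_id], fun a => by
    rw [pull_pull' (F := id) h h' e, pull_id]⟩

theorem res_bij_of_eq (h : ∀ x ∈ U, x ∈ Z ↔ x ∈ Z₁) :
    Function.Bijective (pull id U Z₁ : H U Z → H U Z₁) :=
  pull_bij_of_inv (s := id) (.id subset_rfl fun x k => (h x k).1)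
    (.id subset_rfl fun x k => (h x k).2) (fun _ _ => rfl) fun _ _ => rfl

/-! Cup product -/

theorem cup_cls (h : CupOK U₁ Z₁ U₂ Z₂ U Z) (h1 : φ ∈ Zc U₁ Z₁) (h2 : ψ ∈ Zc U₂ Z₂) :
    cup U Z (cls U₁ Z₁ φ) (cls U₂ Z₂ ψ) = cls U Z (cupc φ ψ) := by
  rw [cup_eq h, cls_eq_mk h1, cls_eq_mk h2, cls_eq_mk (h.zc h1 h2)]; rfl

theorem CupOK.of_subset (h1 : U ⊆ U₁) (h2 : U ⊆ U₂) (h : ∀ x ∈ U, x ∈ Z₁ → x ∈ Z₂ → x ∈ Z) :
    CupOK U₁ Z₁ U₂ Z₂ U Z :=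
  ⟨fun _ k => Or.inr (h2 k), fun _ k => Or.inl (h1 k), fun x k => by
    by_cases e : x ∈ Z₁
    · exact Or.inr ⟨h2 k.1, fun e' => k.2 (h x k.1 e e')⟩
    · exact Or.inl ⟨h1 k.1, e⟩⟩

theorem CupOK.symm (h : CupOK U₁ Z₁ U₂ Z₂ U Z) : CupOK U₂ Z₂ U₁ Z₁ U Z :=
  ⟨fun _ k => (h.right k).symm, fun _ k => (h.left k).symm, fun _ k => (h.supp k).symm⟩

theorem pull_cup {V : Set X} (hV : Ext f V) (k : U ⊆ V) (k1 : U₁ ⊆ V) (k2 : U₂ ⊆ V)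
    (h : Ok f U Z U' Z') (h1 : Ok f U₁ Z₁ U₁' Z₁') (h2 : Ok f U₂ Z₂ U₂' Z₂')
    (c : CupOK U₁ Z₁ U₂ Z₂ U Z) (c' : CupOK U₁' Z₁' U₂' Z₂' U' Z') (a : H U₁' Z₁')
    (b : H U₂' Z₂') :
    pull f U Z (cup U' Z' a b) = cup U Z (pull f U₁ Z₁ a) (pull f U₂ Z₂ b) := by
  obtain ⟨φ, m1, rfl⟩ := exists_cls a
  obtain ⟨ψ, m2, rfl⟩ := exists_cls b
  obtain ⟨g, e, hg⟩ := hV
  have a0 := h.adm (e.mono k) fun x hx => hg x (k hx)
  have a1 := h1.adm (e.mono k1) fun x hx => hg x (k1 hx)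
  have a2 := h2.adm (e.mono k2) fun x hx => hg x (k2 hx)
  rw [cup_cls c' m1 m2, pull_cls (e.mono k) a0 (c'.zc m1 m2), pull_cls (e.mono k1) a1 m1,
    pull_cls (e.mono k2) a2 m2, cup_cls c (a1.zc m1) (a2.zc m2), pullc_cupc]

theorem pull_cup' (h : Ok f U Z U' Z') (h1 : Ok f U Z₁ U₁' Z₁') (h2 : Ok f U Z₂ U₂' Z₂')
    (c : ∀ x ∈ U, x ∈ Z₁ → x ∈ Z₂ → x ∈ Z) (c' : CupOK U₁' Z₁' U₂' Z₂' U' Z') (a : H U₁' Z₁')
    (b : H U₂' Z₂') :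
    pull f U Z (cup U' Z' a b) = cup U Z (pull f U Z₁ a) (pull f U Z₂ b) :=
  pull_cup h.ext subset_rfl subset_rfl subset_rfl h h1 h2 (.of_subset subset_rfl subset_rfl c) c' a b

theorem res_cup {V W V₁ W₁ V₂ W₂ : Set X} (h : Ok id V W U Z) (h1 : Ok id V₁ W₁ U₁ Z₁)
    (h2 : Ok id V₂ W₂ U₂ Z₂) (c : CupOK V₁ W₁ V₂ W₂ V W) (c' : CupOK U₁ Z₁ U₂ Z₂ U Z)
    (a : H U₁ Z₁) (b : H U₂ Z₂) :
    pull id V W (cup U Z a b) = cup V W (pull id V₁ W₁ a) (pull id V₂ W₂ b) :=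
  pull_cup (.of_continuous continuous_id univ) (subset_univ _) (subset_univ _) (subset_univ _)
    h h1 h2 c c' a b

theorem res_cup_out {V W : Set X} (h : Ok id V W U Z) (c' : CupOK U₁ Z₁ U₂ Z₂ U Z)
    (a : H U₁ Z₁) (b : H U₂ Z₂) : pull id V W (cup U Z a b) = cup V W a b := by
  rw [res_cup h .refl .refl ⟨fun _ k => c'.left (h.maps k), fun _ k => c'.right (h.maps k),
    fun _ k => c'.supp (h.supp k)⟩ c', pull_id, pull_id]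

theorem cup_res_left {V₁ W₁ : Set X} (h1 : Ok id V₁ W₁ U₁ Z₁) (c : CupOK V₁ W₁ U₂ Z₂ U Z)
    (a : H U₁ Z₁) (b : H U₂ Z₂) : cup U Z (pull id V₁ W₁ a) b = cup U Z a b := by
  have := res_cup .refl h1 .refl c ⟨fun _ k => (c.left k).imp_left fun e => h1.supp e,
    fun _ k => (c.right k).imp_left fun e => h1.maps e,
    fun _ k => (c.supp k).imp_left fun e => h1.supp e⟩ a b
  rw [pull_id, pull_id] at this
  exact this.symm

theorem cup_res_right {V₂ W₂ : Set X} (h2 : Ok id V₂ W₂ U₂ Z₂) (c : CupOK U₁ Z₁ V₂ W₂ U Z)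
    (a : H U₁ Z₁) (b : H U₂ Z₂) : cup U Z a (pull id V₂ W₂ b) = cup U Z a b := by
  have := res_cup .refl .refl h2 c ⟨fun _ k => (c.left k).imp_right fun e => h2.maps e,
    fun _ k => (c.right k).imp_right fun e => h2.supp e,
    fun _ k => (c.supp k).imp_right fun e => h2.supp e⟩ a b
  rw [pull_id, pull_id] at this
  exact this.symm

theorem cup_assoc {U₃ Z₃ V W V' W' : Set X} (c1 : CupOK U₁ Z₁ U₂ Z₂ V W) (c2 : CupOK V W U₃ Z₃ U Z)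
    (c3 : CupOK U₂ Z₂ U₃ Z₃ V' W') (c4 : CupOK U₁ Z₁ V' W' U Z) (a : H U₁ Z₁) (b : H U₂ Z₂)
    (c : H U₃ Z₃) : cup U Z (cup V W a b) c = cup U Z a (cup V' W' b c) := by
  obtain ⟨φ, m1, rfl⟩ := exists_cls a
  obtain ⟨ψ, m2, rfl⟩ := exists_cls b
  obtain ⟨χ, m3, rfl⟩ := exists_cls c
  rw [cup_cls c1 m1 m2, cup_cls c2 (c1.zc m1 m2) m3, cup_cls c3 m2 m3,
    cup_cls c4 m1 (c3.zc m2 m3), cupc_assoc]

theorem onec_zc (h : U ⊆ Z) : onec ∈ Zc U Z :=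
  mem_Zc.2 ⟨onec_bd, dl_onec (X := X) ▸ zero_mem _, by rw [sdiff_eq_empty.2 h]; exact lz_empty _⟩

theorem cup_one (h : U₂ ⊆ Z₂) (c : CupOK U₁ Z₁ U₂ Z₂ U Z) (k : Ok id U Z U₁ Z₁) (a : H U₁ Z₁) :
    cup U Z a (cls U₂ Z₂ onec) = pull id U Z a := by
  obtain ⟨φ, m1, rfl⟩ := exists_cls a
  rw [cup_cls c m1 (onec_zc h), cupc_onec m1.1.1.1, res_cls k m1]

theorem one_cup (h : U₁ ⊆ Z₁) (c : CupOK U₁ Z₁ U₂ Z₂ U Z) (k : Ok id U Z U₂ Z₂) (a : H U₂ Z₂) :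
    cup U Z (cls U₁ Z₁ onec) a = pull id U Z a := by
  obtain ⟨φ, m1, rfl⟩ := exists_cls a
  rw [cup_cls c (onec_zc h) m1, onec_cupc m1.1.1.1, res_cls k m1]

theorem cup_one' (h : U ⊆ Z₂) (a : H U Z) : cup U Z a (cls U Z₂ onec) = a := by
  rw [cup_one h (.of_subset subset_rfl subset_rfl fun _ _ k _ => k) .refl, pull_id]

theorem one_cup' (h : U ⊆ Z₁) (a : H U Z) : cup U Z (cls U Z₁ onec) a = a := by
  rw [one_cup h (.of_subset subset_rfl subset_rfl fun _ _ _ k => k) .refl, pull_id]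

theorem pull_one (h : Ok f U Z U' Z') (k : U' ⊆ Z') :
    pull f U Z (cls U' Z' onec) = cls U Z onec := by
  obtain ⟨g, h1, h2⟩ := ok_iff.1 h
  rw [pull_cls h1 h2 (onec_zc k), pullc_onec]

theorem rev_lz {A : Set X} (h : φ ∈ lz A) : rev φ ∈ lz A := fun x hx =>
  (h x hx).imp fun _ k => ⟨k.1, fun l hl => by
    rw [rev_apply, k.2 _ (by simpa using hl), mul_zero]⟩

theorem rev_bd (h : φ ∈ bd X) : rev φ ∈ bd X :=
  ⟨by simp [rev_apply, h.1], h.2.imp fun _ k l hl => by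
    rw [rev_apply, k _ (by simpa using hl), mul_zero]⟩

theorem rh_lz {A : Set X} (h : φ ∈ lz A) : rh φ ∈ lz A := fun x hx =>
  (h x hx).imp fun V k => ⟨k.1, fun l hl => rh_zero V l φ hl fun m _ => k.2 m⟩

theorem rh_bd (h : φ ∈ bd X) : rh φ ∈ bd X :=
  ⟨rfl, h.2.imp fun _ k l hl => rh_zero univ l φ (fun _ _ => trivial) fun m e _ => k m (by omega)⟩

theorem rev_zc (h : φ ∈ Zc U Z) : rev φ ∈ Zc U Z :=
  mem_Zc.2 ⟨rev_bd h.1.1, dl_rev φ ▸ rev_lz h.1.2, rev_lz h.2⟩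

theorem cls_rev (h : φ ∈ Zc U Z) : cls U Z (rev φ) = cls U Z φ :=
  (cls_eq_cls (rev_zc h) h).2 ⟨rh φ, rh_bd h.1.1, rh_lz h.2, by
    rw [← dl_rh, add_sub_cancel_left]; exact rh_lz h.1.2⟩

/-- Graded commutativity. -/
theorem cup_comm (c : CupOK U₁ Z₁ U₂ Z₂ U Z) {p q : ℤ} {a : H U₁ Z₁} {b : H U₂ Z₂}
    (ha : IsDeg p a) (hb : IsDeg q b) : cup U Z b a = (-1 : ℂ) ^ (p * q) • cup U Z a b := by
  obtain ⟨φ, m1, rfl, d1⟩ := ha
  obtain ⟨ψ, m2, rfl, d2⟩ := hb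
  rw [cup_cls c.symm m2 m1, ← cls_rev (c.symm.zc m2 m1), rev_cupc_hom d1 d2,
    cls_smul _ (c.zc (rev_zc m1) (rev_zc m2)), ← cup_cls c (rev_zc m1) (rev_zc m2), cls_rev m1,
    cls_rev m2]

/-- Classes of even degree are central. -/
theorem cup_comm_even (c : CupOK U₁ Z₁ U₂ Z₂ U Z) {p : ℤ} {a : H U₁ Z₁} (ha : IsDeg (2 * p) a)
    (b : H U₂ Z₂) : cup U Z b a = cup U Z a b := by
  obtain ⟨φ, m1, rfl, d1⟩ := ha
  obtain ⟨ψ, m2, rfl⟩ := exists_cls b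
  rw [cup_cls c.symm m2 m1, ← cls_rev (c.symm.zc m2 m1), rev_cupc_even d1,
    ← cup_cls c (rev_zc m1) (rev_zc m2), cls_rev m1, cls_rev m2]

/-! Degrees -/

theorem msk_zc (s : Set ℤ) (h : φ ∈ Zc U Z) : msk s φ ∈ Zc U Z :=
  mem_Zc.2 ⟨msk_bd s h.1.1, by
    rw [dl_msk (t := {p | p - 1 ∈ s}) (by simp)]; exact msk_lz _ h.1.2, msk_lz s h.2⟩

/-- The components of a class whose degree lies in `s`. -/
def prj (s : Set ℤ) : H U Z →ₗ[ℂ] H U Z :=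
  mapH (msk s) (fun _ => msk_zc s) fun φ _ h => by
    obtain ⟨ψ, h1, h2, h3⟩ := mem_Bc.1 h
    refine mem_Bc.2 ⟨msk {p | p + 1 ∈ s} ψ, msk_bd _ h1, msk_lz _ h2, ?_⟩
    rw [dl_msk (t := s) (by simp), ← map_sub]
    exact msk_lz _ h3

theorem prj_cls (s : Set ℤ) (h : φ ∈ Zc U Z) : prj s (cls U Z φ) = cls U Z (msk s φ) :=
  mapH_cls _ _ h

theorem isDeg_prj (p : ℤ) (a : H U Z) : IsDeg p (prj {p} a) := by
  obtain ⟨φ, m, rfl⟩ := exists_cls a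
  exact ⟨_, msk_zc _ m, prj_cls _ m, Hom.msk p φ⟩

theorem IsDeg.prj_eq {p : ℤ} {a : H U Z} (h : IsDeg p a) {s : Set ℤ} (hs : p ∈ s) :
    prj s a = a := by
  obtain ⟨φ, m, rfl, d⟩ := h
  rw [prj_cls _ m, Hom.msk_eq d hs]

theorem IsDeg.prj_eq_zero {p : ℤ} {a : H U Z} (h : IsDeg p a) {s : Set ℤ} (hs : p ∉ s) :
    prj s a = 0 := by
  obtain ⟨φ, m, rfl, d⟩ := h
  rw [prj_cls _ m, Hom.msk_eq_zero d hs, cls_zero]

theorem isDeg_iff {p : ℤ} {a : H U Z} : IsDeg p a ↔ prj {p} a = a :=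
  ⟨fun h => h.prj_eq rfl, fun h => h ▸ isDeg_prj p a⟩

theorem isDeg_cls {p : ℤ} (h : φ ∈ Zc U Z) (d : Hom p φ) : IsDeg p (cls U Z φ) := ⟨φ, h, rfl, d⟩

theorem IsDeg.zero (p : ℤ) : IsDeg p (0 : H U Z) := isDeg_iff.2 (map_zero _)

theorem IsDeg.add {p : ℤ} {a b : H U Z} (h1 : IsDeg p a) (h2 : IsDeg p b) : IsDeg p (a + b) :=
  isDeg_iff.2 (by rw [map_add, isDeg_iff.1 h1, isDeg_iff.1 h2])

theorem IsDeg.sub {p : ℤ} {a b : H U Z} (h1 : IsDeg p a) (h2 : IsDeg p b) : IsDeg p (a - b) :=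
  isDeg_iff.2 (by rw [map_sub, isDeg_iff.1 h1, isDeg_iff.1 h2])

theorem IsDeg.neg {p : ℤ} {a : H U Z} (h1 : IsDeg p a) : IsDeg p (-a) :=
  isDeg_iff.2 (by rw [map_neg, isDeg_iff.1 h1])

theorem IsDeg.smul {p : ℤ} {a : H U Z} (h1 : IsDeg p a) (c : ℂ) : IsDeg p (c • a) :=
  isDeg_iff.2 (by rw [map_smul, isDeg_iff.1 h1])

theorem IsDeg.sum {ι : Type} {p : ℤ} (s : Finset ι) {a : ι → H U Z} (h : ∀ i ∈ s, IsDeg p (a i)) :
    IsDeg p (∑ i ∈ s, a i) :=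
  isDeg_iff.2 (by rw [map_sum]; exact Finset.sum_congr rfl fun i hi => isDeg_iff.1 (h i hi))

theorem IsDeg.eq_zero_of_ne {p q : ℤ} {a : H U Z} (h1 : IsDeg p a) (h2 : IsDeg q a) (h : p ≠ q) :
    a = 0 := by rw [← isDeg_iff.1 h2, h1.prj_eq_zero h]

theorem IsDeg.eq_zero_of_neg {p : ℤ} {a : H U Z} (h1 : IsDeg p a) (h : p < 0) : a = 0 := by
  obtain ⟨φ, m, rfl, d⟩ := h1
  have : φ = 0 := funext fun l => by
    cases l with
    | nil => exact m.1.1.1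
    | cons a l => exact d _ (by simp; omega)
  rw [this, cls_zero]

theorem exists_sum_prj (a : H U Z) : ∃ n : ℕ, a = ∑ p ∈ Finset.range n, prj {(p : ℤ)} a := by
  obtain ⟨φ, m, rfl⟩ := exists_cls a
  obtain ⟨h0, n, hn⟩ := m.1.1
  refine ⟨n, ?_⟩
  simp only [prj_cls _ m]
  rw [← cls_sum _ fun p _ => msk_zc _ m]
  congr 1
  funext l
  rw [Finset.sum_apply]
  by_cases k : 0 < l.length ∧ l.length ≤ n
  · rw [Finset.sum_eq_single (l.length - 1), msk_of_mem _ (by simp; omega)]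
    · exact fun b _ hb => msk_of_not_mem _ (by simp; omega)
    · simp; omega
  · have : φ l = 0 := by
      cases l with
      | nil => exact h0
      | cons a l => exact hn _ (by simp at k ⊢; omega)
    rw [this]
    exact (Finset.sum_eq_zero fun p _ => msk_zero this).symm

theorem eq_zero_of_prj {a : H U Z} (h : ∀ p : ℕ, prj {(p : ℤ)} a = 0) : a = 0 := by
  obtain ⟨n, e⟩ := exists_sum_prj a
  rw [e]; simp [h]

theorem pull_prj (s : Set ℤ) (a : H U' Z') : pull f U Z (prj s a) = prj s (pull f U Z a) := by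
  by_cases h : Ok f U Z U' Z'
  · obtain ⟨φ, m, rfl⟩ := exists_cls a
    obtain ⟨g, h1, h2⟩ := ok_iff.1 h
    rw [prj_cls _ m, pull_cls h1 h2 m, pull_cls h1 h2 (msk_zc _ m), prj_cls _ (h2.zc m), pullc_msk]
  · simp [pull_of_not_ok h]

theorem IsDeg.pull {p : ℤ} {a : H U' Z'} (h : IsDeg p a) (f : X → Y) (U Z : Set X) :
    IsDeg p (pull f U Z a) := isDeg_iff.2 (by rw [← pull_prj, isDeg_iff.1 h])

theorem cup_of_not_ok (h : ¬ CupOK U₁ Z₁ U₂ Z₂ U Z) (a : H U₁ Z₁) (b : H U₂ Z₂) :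
    cup U Z a b = 0 := by rw [cup, if_neg h]; rfl

theorem cup_prj_left {s t : Set ℤ} {k : ℤ} (h : ∀ p, p + k ∈ t ↔ p ∈ s) (a : H U₁ Z₁)
    {b : H U₂ Z₂} (hb : IsDeg k b) : cup U Z (prj s a) b = prj t (cup U Z a b) := by
  by_cases c : CupOK U₁ Z₁ U₂ Z₂ U Z
  · obtain ⟨φ, m, rfl⟩ := exists_cls a
    obtain ⟨ψ, m2, rfl, d⟩ := hb
    rw [prj_cls _ m, cup_cls c m m2, cup_cls c (msk_zc _ m) m2, prj_cls _ (c.zc m m2),
      msk_cupc_left h φ d]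
  · simp [cup_of_not_ok c]

theorem cup_prj_right {s t : Set ℤ} {k : ℤ} (h : ∀ p, p + k ∈ t ↔ p ∈ s) {a : H U₁ Z₁}
    (ha : IsDeg k a) (b : H U₂ Z₂) : cup U Z a (prj s b) = prj t (cup U Z a b) := by
  by_cases c : CupOK U₁ Z₁ U₂ Z₂ U Z
  · obtain ⟨φ, m, rfl⟩ := exists_cls b
    obtain ⟨ψ, m2, rfl, d⟩ := ha
    rw [prj_cls _ m, cup_cls c m2 m, cup_cls c m2 (msk_zc _ m), prj_cls _ (c.zc m2 m),
      msk_cupc_right h φ d]
  · simp [cup_of_not_ok c]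

theorem IsDeg.cup {p q : ℤ} {a : H U₁ Z₁} {b : H U₂ Z₂} (ha : IsDeg p a) (hb : IsDeg q b)
    (U Z : Set X) : IsDeg (p + q) (cup U Z a b) :=
  isDeg_iff.2 (by rw [← cup_prj_left (s := {p}) (by simp) a hb, isDeg_iff.1 ha])

theorem isDeg_one : IsDeg 0 (cls U Z onec) := by
  by_cases h : onec ∈ Zc U Z
  · exact isDeg_cls h hom_onec
  · rw [cls, dif_neg h]; exact .zero _

/-! Values of classes of degree zero -/

/-- The value at `x` of the component of degree zero. -/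
def ev (x : X) : H U Z →ₗ[ℂ] ℂ :=
  open Classical in
  if h : x ∈ U then Submodule.liftQ _ (LinearMap.proj [x] ∘ₗ (Zc U Z).subtype) fun φ k => by
    obtain ⟨ψ, h1, -, h3⟩ := mem_Bc.1 k
    obtain ⟨V, hV, e⟩ := h3 x h
    have := e [x] (by simpa using mem_of_mem_nhds hV)
    rw [Pi.sub_apply, dl_cons', dl_nil, h1.1] at this
    simpa using this
  else 0

theorem ev_cls {x : X} (hx : x ∈ U) (h : φ ∈ Zc U Z) : ev x (cls U Z φ) = φ [x] := by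
  rw [ev, dif_pos hx, cls_eq_mk h]; rfl

theorem ev_pull (h : Ok f U Z U' Z') {x : X} (hx : x ∈ U) (a : H U' Z') :
    ev x (pull f U Z a) = ev (f x) a := by
  obtain ⟨φ, m, rfl⟩ := exists_cls a
  obtain ⟨g, h1, h2⟩ := ok_iff.1 h
  rw [pull_cls h1 h2 m, ev_cls hx (h2.zc m), ev_cls (h.maps hx) m, h1 hx]; rfl

theorem ev_one {x : X} (hx : x ∈ U) (h : U ⊆ Z) : ev x (cls U Z onec) = 1 := by
  rw [ev_cls hx (onec_zc h)]; rfl

theorem ev_cup (c : CupOK U₁ Z₁ U₂ Z₂ U Z) {x : X} (hx : x ∈ U) (h1 : x ∈ U₁) (h2 : x ∈ U₂)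
    (a : H U₁ Z₁) (b : H U₂ Z₂) : ev x (cup U Z a b) = ev x a * ev x b := by
  obtain ⟨φ, m1, rfl⟩ := exists_cls a
  obtain ⟨ψ, m2, rfl⟩ := exists_cls b
  rw [cup_cls c m1 m2, ev_cls hx (c.zc m1 m2), ev_cls h1 m1, ev_cls h2 m2, cupc_cons', cupc_nil,
    add_zero]

theorem eventually_apply_eq (h : dl φ ∈ lz U) {x : X} (hx : x ∈ U) :
    ∀ᶠ y in 𝓝 x, φ [y] = φ [x] := by
  obtain ⟨V, hV, k⟩ := h x hx
  filter_upwards [hV] with y hy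
  have := k [x, y] (by simp [hy, mem_of_mem_nhds hV])
  simp only [dl_cons', dl_nil, cn_apply] at this
  linear_combination this

theorem ev_eventually (a : H U Z) {x : X} (hx : x ∈ U) : ∀ᶠ y in 𝓝[U] x, ev y a = ev x a := by
  obtain ⟨φ, m, rfl⟩ := exists_cls a
  filter_upwards [mem_nhdsWithin_of_mem_nhds (eventually_apply_eq m.1.2 hx), self_mem_nhdsWithin]
    with y h1 h2
  rw [ev_cls hx m, ev_cls h2 m, h1]

theorem zc_lz {θ : X → ℂ} {A : Set X} (h : ∀ x ∈ A, ∀ᶠ y in 𝓝 x, θ y = 0) : zc θ ∈ lz A :=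
  fun x hx => ⟨_, h x hx, fun l hl => by
    rcases l with _ | ⟨a, _ | ⟨b, l⟩⟩
    · rfl
    · exact hl a (by simp)
    · rfl⟩

theorem dl_zc_lz {θ : X → ℂ} {A : Set X} (h : ∀ x ∈ A, ∀ᶠ y in 𝓝 x, θ y = θ x) :
    dl (zc θ) ∈ lz A := fun x hx => ⟨_, h x hx, fun l hl => by
  rw [dl_congr (ψ := θ x • onec), map_smul, dl_onec]; · simp
  rintro (_ | ⟨a, _ | ⟨b, m⟩⟩) - k
  · simp [zc, onec]
  · simpa [zc, onec] using hl a (k a (by simp))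
  · simp [zc, onec]⟩

theorem IsDeg.eq_zero_of_ev {a : H U Z} (h : IsDeg 0 a) (k : ∀ x ∈ U, ev x a = 0) : a = 0 := by
  obtain ⟨φ, m, rfl, d⟩ := h
  refine (cls_eq_zero m).2 ⟨0, zero_mem _, zero_mem _, ?_⟩
  rw [map_zero, sub_zero, Hom.eq_zc d]
  refine zc_lz fun x hx => (eventually_apply_eq m.1.2 hx).mono fun y hy => ?_
  rw [hy, ← ev_cls hx m, k x hx]

/-- The cohomology of a point. -/
theorem pt_eq {x : X} (hx : x ∈ Z) (a : H {x} Z) : a = ev x a • cls {x} Z onec := by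
  obtain ⟨φ, m, rfl⟩ := exists_cls a
  have h1 : onec ∈ Zc {x} Z := onec_zc (singleton_subset_iff.2 hx)
  have m' : φ - φ [x] • onec ∈ Zc {x} Z := sub_mem m (Submodule.smul_mem _ (φ [x]) h1)
  rw [ev_cls (mem_singleton x) m, ← cls_smul _ h1,
    cls_eq_cls m (Submodule.smul_mem _ (φ [x]) h1)]
  refine ⟨cn x (φ - φ [x] • onec), ⟨by simp [onec], m'.1.1.2.imp
    fun n k l hl => k (x :: l) (by simp; omega)⟩, ?_, ?_⟩
  · rw [sdiff_eq_empty.2 (singleton_subset_iff.2 hx)]; exact lz_empty _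
  · rw [← cn_dl]; exact cn_lz m'.1.2

/-! The long exact sequence -/

theorem dl_zc (h : U \ Z ⊆ U₁) (k : φ ∈ Zc U₁ Z₁) : dl φ ∈ Zc U Z :=
  mem_Zc.2 ⟨dl_bd k.1.1, dl_dl φ ▸ zero_mem _, lz_anti h k.1.2⟩

/-- The connecting homomorphism; `0` unless `U \ Z ⊆ U₁`. -/
def dlt (U Z : Set X) {U₁ Z₁ : Set X} : H U₁ Z₁ →ₗ[ℂ] H U Z :=
  open Classical in
  if h : U \ Z ⊆ U₁ then mapH dl (fun _ => dl_zc h) fun φ m k => by
    obtain ⟨ψ, h1, -, h3⟩ := mem_Bc.1 k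
    exact mem_Bc.2 ⟨_, sub_mem m.1.1 (dl_bd h1), lz_anti h h3, by simp [dl_dl]⟩
  else 0

theorem dlt_cls (h : U \ Z ⊆ U₁) (k : φ ∈ Zc U₁ Z₁) :
    dlt U Z (cls U₁ Z₁ φ) = cls U Z (dl φ) := by rw [dlt, dif_pos h, mapH_cls _ _ k]

theorem IsDeg.dlt {p : ℤ} {a : H U₁ Z₁} (h : IsDeg p a) (U Z : Set X) :
    IsDeg (p + 1) (dlt U Z a) := by
  by_cases k : U \ Z ⊆ U₁
  · obtain ⟨φ, m, rfl, d⟩ := h
    rw [dlt_cls k m]; exact isDeg_cls (dl_zc k m) (Hom.dl d)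
  · rw [G.dlt, dif_neg k]; exact .zero _

theorem dlt_prj {s t : Set ℤ} (h : ∀ p, p + 1 ∈ t ↔ p ∈ s) (a : H U₁ Z₁) :
    dlt U Z (prj s a) = prj t (dlt U Z a) := by
  by_cases k : U \ Z ⊆ U₁
  · obtain ⟨φ, m, rfl⟩ := exists_cls a
    rw [prj_cls _ m, dlt_cls k m, dlt_cls k (msk_zc _ m), prj_cls _ (dl_zc k m), dl_msk h]
  · simp [G.dlt, dif_neg k]

theorem pull_dlt {V : Set X} (hV : Ext f V) (k : U ⊆ V) (k1 : U₁ ⊆ V) (h : Ok f U Z U' Z')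
    (h1 : Ok f U₁ Z₁ U₁' Z₁') (c : U \ Z ⊆ U₁) (c' : U' \ Z' ⊆ U₁') (a : H U₁' Z₁') :
    pull f U Z (dlt U' Z' a) = dlt U Z (pull f U₁ Z₁ a) := by
  obtain ⟨φ, m, rfl⟩ := exists_cls a
  obtain ⟨g, e, hg⟩ := hV
  have a0 := h.adm (e.mono k) fun x hx => hg x (k hx)
  have a1 := h1.adm (e.mono k1) fun x hx => hg x (k1 hx)
  rw [dlt_cls c' m, pull_cls (e.mono k) a0 (dl_zc c' m), pull_cls (e.mono k1) a1 m,
    dlt_cls c (a1.zc m), dl_pullc]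

theorem dlt_cup {V W V₁ W₁ : Set X} (c : CupOK U₁ Z₁ U₂ Z₂ V W) (c' : CupOK V₁ W₁ U₂ Z₂ U Z)
    (k : U \ Z ⊆ V) (k1 : V₁ \ W₁ ⊆ U₁) (k2 : U ⊆ (U₁ \ Z₁) ∪ U₂) (a : H U₁ Z₁) (b : H U₂ Z₂) :
    dlt U Z (cup V W a b) = cup U Z (dlt V₁ W₁ a) b := by
  obtain ⟨φ, m1, rfl⟩ := exists_cls a
  obtain ⟨ψ, m2, rfl⟩ := exists_cls b
  rw [cup_cls c m1 m2, dlt_cls k (c.zc m1 m2), dlt_cls k1 m1, cup_cls c' (dl_zc k1 m1) m2]
  refine cls_eq_of_lz (dl_zc k (c.zc m1 m2)) (cupc_bd (dl_bd m1.1.1) m2.1.1) ?_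
  rw [dl_cupc m1.1.1.1 m2.1.1.1, add_sub_cancel_left]
  exact cupc_lz (sgc_lz m1.2) m2.1.2 k2

theorem cup_dlt {V W V₂ W₂ : Set X} (c : CupOK U₁ Z₁ U₂ Z₂ V W) (c' : CupOK U₁ Z₁ V₂ W₂ U Z)
    (k : U \ Z ⊆ V) (k1 : V₂ \ W₂ ⊆ U₂) (k2 : U ⊆ U₁ ∪ (U₂ \ Z₂)) {p : ℤ} {a : H U₁ Z₁}
    (ha : IsDeg p a) (b : H U₂ Z₂) :
    dlt U Z (cup V W a b) = (-1 : ℂ) ^ p • cup U Z a (dlt V₂ W₂ b) := by
  obtain ⟨φ, m1, rfl, d⟩ := ha
  obtain ⟨ψ, m2, rfl⟩ := exists_cls b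
  rw [cup_cls c m1 m2, dlt_cls k (c.zc m1 m2), dlt_cls k1 m2, cup_cls c' m1 (dl_zc k1 m2),
    ← cls_smul _ (c'.zc m1 (dl_zc k1 m2))]
  refine cls_eq_of_lz (dl_zc k (c.zc m1 m2))
    (Submodule.smul_mem _ _ (cupc_bd m1.1.1 (dl_bd m2.1.1))) ?_
  rw [dl_cupc m1.1.1.1 m2.1.1.1, Hom.sgc d, map_smul, LinearMap.smul_apply, add_sub_cancel_right]
  exact cupc_lz m1.1.2 m2.2 k2

section LES
variable (h1 : U \ Z₁ = U₂) (h2 : U₂ \ Z₂ = U \ Z)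
include h1 h2

theorem ok_supp : Ok id U Z U Z₁ :=
  ⟨.of_continuous continuous_id _, fun _ k => k, fun _ k => h1 ▸ (h2 ▸ k : _ ∈ U₂ \ Z₂).1⟩

theorem ok_res : Ok id U₂ Z₂ U Z :=
  ⟨.of_continuous continuous_id _, fun _ k => (h1 ▸ k : _ ∈ U \ Z₁).1, fun _ k => h2 ▸ k⟩

/-- Exactness of `H U Z₁ → H U Z → H (U \ Z₁) Z`. -/
theorem exact_supp_res :
    Function.Exact (pull id U Z : H U Z₁ → H U Z) (pull id U₂ Z₂ : H U Z → H U₂ Z₂) := by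
  have o1 := ok_supp h1 h2
  have o2 := ok_res h1 h2
  intro a
  constructor
  · obtain ⟨φ, m, rfl⟩ := exists_cls a
    rw [res_cls o2 m, cls_eq_zero (o2.zc_id m)]
    rintro ⟨ψ, k1, k2, k3⟩
    have m' : φ - dl ψ ∈ Zc U Z₁ := mem_Zc.2 ⟨sub_mem m.1.1 (dl_bd k1), by
      simpa [dl_dl] using m.1.2, h1 ▸ k3⟩
    refine ⟨cls _ _ (φ - dl ψ), ?_⟩
    rw [res_cls o1 m']
    exact (cls_eq_cls (o1.zc_id m') m).2 ⟨-ψ, neg_mem k1, neg_mem (h2 ▸ k2), by simp⟩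
  · rintro ⟨b, rfl⟩
    obtain ⟨φ, m, rfl⟩ := exists_cls b
    rw [res_cls o1 m, res_cls o2 (o1.zc_id m), cls_eq_zero (o2.zc_id (o1.zc_id m))]
    exact ⟨0, zero_mem _, zero_mem _, by simpa [h1] using m.2⟩

/-- Exactness of `H U Z → H (U \ Z₁) Z → H U Z₁`. -/
theorem exact_res_dlt :
    Function.Exact (pull id U₂ Z₂ : H U Z → H U₂ Z₂) (dlt U Z₁ : H U₂ Z₂ → H U Z₁) := by
  have o2 := ok_res h1 h2
  intro a
  constructor
  · obtain ⟨φ, m, rfl⟩ := exists_cls a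
    rw [dlt_cls h1.subset m, cls_eq_zero (dl_zc h1.subset m)]
    rintro ⟨ψ, k1, k2, k3⟩
    have m' : φ - ψ ∈ Zc U Z := mem_Zc.2 ⟨sub_mem m.1.1 k1, by rwa [map_sub],
      sub_mem (h2 ▸ m.2) (lz_anti (ok_supp h1 h2).supp k2)⟩
    refine ⟨cls _ _ (φ - ψ), ?_⟩
    rw [res_cls o2 m']
    exact cls_eq_of_lz (o2.zc_id m') m.1.1 (by simpa [h1] using k2)
  · rintro ⟨b, rfl⟩
    obtain ⟨φ, m, rfl⟩ := exists_cls b
    rw [res_cls o2 m, dlt_cls h1.subset (o2.zc_id m), cls_eq_zero (dl_zc h1.subset (o2.zc_id m))]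
    exact ⟨0, zero_mem _, zero_mem _, by simpa using m.1.2⟩

/-- Exactness of `H (U \ Z₁) Z → H U Z₁ → H U Z`. -/
theorem exact_dlt_supp :
    Function.Exact (dlt U Z₁ : H U₂ Z₂ → H U Z₁) (pull id U Z : H U Z₁ → H U Z) := by
  have o1 := ok_supp h1 h2
  intro a
  constructor
  · obtain ⟨φ, m, rfl⟩ := exists_cls a
    rw [res_cls o1 m, cls_eq_zero (o1.zc_id m)]
    rintro ⟨ψ, k1, k2, k3⟩
    have m' : ψ ∈ Zc U₂ Z₂ := mem_Zc.2 ⟨k1, by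
      simpa [h1] using sub_mem m.2 (lz_anti sdiff_subset k3), h2 ▸ k2⟩
    refine ⟨cls _ _ ψ, ?_⟩
    rw [dlt_cls h1.subset m']
    exact (cls_eq_of_lz m (dl_bd k1) k3).symm
  · rintro ⟨b, rfl⟩
    obtain ⟨φ, m, rfl⟩ := exists_cls b
    rw [dlt_cls h1.subset m, res_cls o1 (dl_zc h1.subset m),
      cls_eq_zero (o1.zc_id (dl_zc h1.subset m))]
    exact ⟨φ, m.1.1, h2 ▸ m.2, by simp⟩

end LES

end Pool.Agent.Work.MP_849ab0_ag.G
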