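import Pool.Agent.Work.MP_849ab0_ag.G.FGlue

/-! Vietoris-Begle, homotopy invariance and the suspension isomorphism. -/

noncomputable section

set_option linter.unusedSectionVars false

namespace Pool.Agent.Work.MP_849ab0_ag.G

open Set Topology Filter

variable {X Y : Type} [TopologicalSpace X] [TopologicalSpace Y]
variable {U Z U₁ Z₁ Z₂ : Set X} {U' Z' : Set Y} {φ ψ : List X → ℂ} {f g : X → Y}

theorem bij_unit_iff {A B : Type} [AddCommMonoid B] {F : A → B} :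
    (Function.Bijective fun a : Unit → A => ∑ i, F (a i)) ↔ Function.Bijective F := by
  simp only [Fintype.sum_unique]
  exact Function.Bijective.of_comp_iff F (Equiv.funUnique Unit A).bijective

/-- `U` has the cohomology of a point. -/
def Acy (U : Set X) : Prop := U.Nonempty ∧ ∀ a : H U univ, ∃ t : ℂ, a = t • cls U univ onec

theorem Acy.bij (h : Acy U) : Function.Bijective fun t : ℂ => t • cls U univ onec :=
  ⟨fun s t e => by
    obtain ⟨x, hx⟩ := h.1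
    simpa [ev_one hx (subset_univ _)] using congrArg (ev x) e, fun a => (h.2 a).imp fun _ e => e.symm⟩

theorem acy_singleton (x : X) : Acy {x} := ⟨singleton_nonempty x, fun a => ⟨_, pt_eq (mem_univ x) a⟩⟩

theorem Acy.of_surj (h : Acy U') (hne : U.Nonempty) (ok : Ok f U univ U' univ)
    (k : Function.Surjective (pull f U univ : H U' univ → _)) : Acy U :=
  ⟨hne, fun a => by
    obtain ⟨b, rfl⟩ := k a
    obtain ⟨t, rfl⟩ := h.2 b
    exact ⟨t, by rw [map_smul, pull_one ok (subset_univ _)]⟩⟩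

/-- Homotopy invariance for compact sets. -/
theorem pull_htpy_compact (hU : IsCompact U) {F : X × ℝ → Y} (hF : Continuous F)
    (h : ∀ x ∈ U, ∀ t ∈ Icc (0 : ℝ) 1, F (x, t) ∈ U') (a : H U' univ) :
    pull (fun x => F (x, 0)) U univ a = pull (fun x => F (x, 1)) U univ a := by
  obtain ⟨φ, m, rfl⟩ := exists_cls a
  have ad : ∀ t ∈ Icc (0 : ℝ) 1, Adm (fun x => F (x, t)) U univ U' univ := fun t ht =>
    ⟨fun x _ => (hF.comp (by fun_prop)).continuousAt, fun x hx => h x hx t ht,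
      fun x k => (k.2 trivial).elim⟩
  let _ : TopologicalSpace (H U univ) := ⊥
  have : DiscreteTopology (H U univ) := ⟨rfl⟩
  rw [(ad 0 (by simp)).pull_cls m, (ad 1 (by simp)).pull_cls m]
  refine isPreconnected_Icc.constant (f := fun t => cls U univ (pullc (fun x => F (x, t)) φ))
    (fun s hs => ?_) (left_mem_Icc.2 zero_le_one) (right_mem_Icc.2 zero_le_one)
  rw [ContinuousWithinAt, nhds_discrete, tendsto_pure]
  have := hU.eventually_forall_of_forall_eventually (x₀ := s) (P := fun t x => ∃ V : Set Y,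
    (∀ l : List Y, (∀ y ∈ l, y ∈ V) → dl φ l = 0) ∧ ∀ᶠ x' in 𝓝 x, F (x', t) ∈ V ∧ F (x', s) ∈ V)
    fun x hx => by
      obtain ⟨V, v1, v2⟩ := m.1.2 _ (h x hx s hs)
      have a1 : Continuous fun z : ℝ × X => F (z.2, z.1) := by fun_prop
      have a2 : Continuous fun z : ℝ × X => F (z.2, s) := by fun_prop
      have : ∀ᶠ z : ℝ × X in 𝓝 (s, x), F (z.2, z.1) ∈ V ∧ F (z.2, s) ∈ V :=
        (a1.continuousAt.eventually_mem v1).and (a2.continuousAt.eventually_mem v1)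
      exact this.eventually_nhds.mono fun z hz =>
        ⟨V, v2, (Continuous.prodMk_right z.1).continuousAt.eventually hz⟩
  filter_upwards [mem_nhdsWithin_of_mem_nhds this, self_mem_nhdsWithin] with t h1 ht
  refine (cls_eq_cls ((ad t ht).zc m) ((ad s hs).zc m)).2 ⟨prc (fun x => F (x, s))
    (fun x => F (x, t)) φ, prc_bd _ _ m.1.1, by simpa using lz_empty _, ?_⟩
  rw [← dl_prc, add_sub_cancel_left]
  intro x hx
  obtain ⟨V, v1, v2⟩ := h1 x hx
  refine ⟨_, v2, fun l hl => prc_zero _ _ l _ fun n _ hn => v1 n fun y hy => ?_⟩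
  obtain ⟨x', k1, rfl | rfl⟩ := hn y hy
  exacts [(hl x' k1).2, (hl x' k1).1]

theorem acy_of_compact (hU : IsCompact U) {F : X × ℝ → X} (hF : Continuous F)
    (h : ∀ x ∈ U, ∀ t ∈ Icc (0 : ℝ) 1, F (x, t) ∈ U) {x₀ : X} (hx : x₀ ∈ U)
    (h0 : ∀ x ∈ U, F (x, 0) = x₀) (h1 : ∀ x ∈ U, F (x, 1) = x) : Acy U :=
  ⟨⟨x₀, hx⟩, fun a => by
    have o1 : Ok (fun _ => x₀) U univ {x₀} univ :=
      .of_mem (.of_continuous continuous_const _) (fun _ _ => rfl) fun _ _ _ => trivial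
    have := pull_htpy_compact hU hF h a
    rw [pull_congr (g := id) (f := fun x => F (x, 1)) h1, pull_id,
      ← pull_pull' o1 (.id (singleton_subset_iff.2 hx) fun _ _ _ => trivial)
        fun x k => (h0 x k).symm, pt_eq (mem_univ x₀) (pull id {x₀} univ a), map_smul,
      pull_one o1 (subset_univ _)] at this
    exact ⟨_, this.symm⟩⟩

section Reg
variable [RegularSpace X] [SecondCountableTopology X] [RegularSpace Y] [SecondCountableTopology Y]

/-- Vietoris-Begle. -/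
theorem pull_bij_stalk (hf : Ext f U) (hm : MapsTo f U U') (h : ∀ x ∈ U, x ∈ Z ↔ f x ∈ Z')
    (cl : ∀ y ∈ U', ∀ O, IsOpen O → U ∩ f ⁻¹' {y} ⊆ O → ∃ W ∈ 𝓝 y, U ∩ f ⁻¹' W ⊆ O)
    (loc : ∀ y ∈ U', Acy (U ∩ f ⁻¹' {y})) : Function.Bijective (pull f U Z : H U' Z' → H U Z) := by
  have := lh_stalk (c := fun _ : Unit => cls U univ onec) hf hm h h cl (fun _ => isDeg_one)
    fun y hy => by
      rw [pull_one (.id inter_subset_left fun x _ _ => mem_univ x) (subset_univ _)]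
      exact (bij_unit_iff (F := fun t : ℂ => t • cls _ univ onec)).2 (loc y hy).bij
  simp only [cup_one' (subset_univ U)] at this
  exact bij_unit_iff.1 this

theorem cup_bij_local (hf : Ext f U) (hm : MapsTo f U U') (hc' : Cl U' Z') (hc : Cl U Z₂)
    (h1 : ∀ x ∈ U, x ∈ Z₁ ↔ f x ∈ Z') (h2 : ∀ x ∈ U, x ∈ Z ↔ f x ∈ Z' ∧ x ∈ Z₂)
    {c : H U Z₂} {k : ℤ} (hk : IsDeg k c)
    (loc : ∀ y ∈ U', ∃ V, IsOpen V ∧ y ∈ V ∧ ∀ W, IsOpen W → W ⊆ V →
      Function.Bijective fun a : H (U' ∩ W) univ =>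
        cup (U ∩ f ⁻¹' W) Z₂ (pull f (U ∩ f ⁻¹' W) univ a) c) :
    Function.Bijective fun a : H U' Z' => cup U Z (pull f U Z₁ a) c :=
  (bij_unit_iff (F := fun a : H U' Z' => cup U Z (pull f U Z₁ a) c)).1
    (lh_local (c := fun _ : Unit => c) hf hm hc' hc h1 h2 (fun _ => hk) fun y hy =>
      (loc y hy).imp fun _ e => ⟨e.1, e.2.1, fun W w1 w2 => bij_unit_iff.2 (e.2.2 W w1 w2)⟩)

theorem pull_bij_local (hf : Ext f U) (hm : MapsTo f U U') (hc' : Cl U' Z')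
    (h : ∀ x ∈ U, x ∈ Z ↔ f x ∈ Z')
    (loc : ∀ y ∈ U', ∃ V, IsOpen V ∧ y ∈ V ∧ ∀ W, IsOpen W → W ⊆ V →
      Function.Bijective (pull f (U ∩ f ⁻¹' W) univ : H (U' ∩ W) univ → _)) :
    Function.Bijective (pull f U Z : H U' Z' → H U Z) := by
  have := cup_bij_local (c := cls U univ onec) hf hm hc' (.univ U) h (Z := Z) (by simpa using h)
    isDeg_one fun y hy => (loc y hy).imp fun _ e => ⟨e.1, e.2.1, fun W w1 w2 => by
      simp only [cup_one (U := U ∩ f ⁻¹' W) (subset_univ U) (.of_subset subset_rfl inter_subset_left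
        fun x _ _ _ => mem_univ x) Ok.refl, pull_id]
      exact e.2.2 W w1 w2⟩
  simpa only [cup_one' (subset_univ U)] using this

end Reg

section Reg
variable [RegularSpace X] [SecondCountableTopology X]

theorem pull_fst_Icc_bij :
    Function.Bijective (pull Prod.fst (U ×ˢ Icc (0 : ℝ) 1) (Z ×ˢ univ) : H U Z → _) := by
  refine pull_bij_stalk (.of_continuous continuous_fst _) (fun _ k => k.1) (by simp)
    (fun y hy O o k => ?_) fun y hy => ?_
  · refine ⟨_, isCompact_Icc.eventually_forall_of_forall_eventually (x₀ := y)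
      (P := fun x t => (x, t) ∈ O) fun t ht => o.mem_nhds (k ⟨⟨hy, ht⟩, rfl⟩), fun z hz => ?_⟩
    exact hz.2 z.2 hz.1.2
  · have e : U ×ˢ Icc (0 : ℝ) 1 ∩ Prod.fst ⁻¹' {y} = {y} ×ˢ Icc 0 1 :=
      Subset.antisymm (fun z k => ⟨k.2, k.1.2⟩) fun z k => ⟨⟨(show z.1 = y from k.1) ▸ hy, k.2⟩, k.1⟩
    rw [e]
    refine acy_of_compact (isCompact_singleton.prod isCompact_Icc)
      (F := fun z => (y, z.2 * z.1.2)) (by fun_prop) (fun z k t ht => ⟨rfl, mul_nonneg ht.1 k.2.1,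
        mul_le_one₀ ht.2 k.2.1 k.2.2⟩) (x₀ := (y, 0)) (by simp) (by simp) fun z k => ?_
    exact Prod.ext (Eq.symm k.1) (one_mul _)

/-- Homotopy invariance. -/
theorem pull_htpy {F : X × ℝ → Y} (h : Ok F (U ×ˢ Icc 0 1) (Z ×ˢ univ) U' Z') :
    (pull (fun x => F (x, 0)) U Z : H U' Z' →ₗ[ℂ] H U Z) = pull (fun x => F (x, 1)) U Z := by
  have o : ∀ t ∈ Icc (0 : ℝ) 1, Ok (fun x => (x, t)) U Z (U ×ˢ Icc 0 1) (Z ×ˢ univ) := fun t ht =>
    .of_mem (.of_continuous (by fun_prop) _) (fun _ k => ⟨k, ht⟩) fun _ _ k => k.1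
  have p : Ok Prod.fst (U ×ˢ Icc (0 : ℝ) 1) (Z ×ˢ univ) U Z :=
    .of_mem (.of_continuous continuous_fst _) (fun _ k => k.1) fun _ _ k => ⟨k, trivial⟩
  refine LinearMap.ext fun a => ?_
  rw [← pull_pull' (o 0 (by simp)) h fun _ _ => rfl, ← pull_pull' (o 1 (by simp)) h fun _ _ => rfl]
  obtain ⟨b, e⟩ := pull_fst_Icc_bij.2 (pull F (U ×ˢ Icc 0 1) (Z ×ˢ univ) a)
  rw [← e, pull_pull' (F := id) (o 0 (by simp)) p fun _ _ => rfl,
    pull_pull' (F := id) (o 1 (by simp)) p fun _ _ => rfl]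

theorem pull_htpy' {F : X × ℝ → Y} (hF : Ext F (U ×ˢ Icc 0 1))
    (h1 : ∀ x ∈ U, ∀ t ∈ Icc (0 : ℝ) 1, F (x, t) ∈ U')
    (h2 : ∀ x ∈ U, ∀ t ∈ Icc (0 : ℝ) 1, F (x, t) ∈ Z' → x ∈ Z) (e0 : ∀ x ∈ U, F (x, 0) = f x)
    (e1 : ∀ x ∈ U, F (x, 1) = g x) : (pull f U Z : H U' Z' →ₗ[ℂ] H U Z) = pull g U Z := by
  rw [← pull_congr (g := f) e0, ← pull_congr (g := g) e1]
  exact pull_htpy (.of_mem hF (fun z k => h1 _ k.1 _ k.2) fun z k e => ⟨h2 _ k.1 _ k.2 e, trivial⟩)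

theorem ext_htpy {F : X × ℝ → Y} (hU : IsLocallyClosed U) (hF : ContinuousOn F (U ×ˢ Icc 0 1)) :
    Ext F (U ×ˢ Icc 0 1) := .of_continuousOn (by
  rw [Set.prod_eq]
  exact (hU.preimage continuous_fst).inter
    (isClosed_Icc.preimage continuous_snd).isLocallyClosed) hF

/-- Deformation retracts. -/
theorem res_bij_of_retract (hU : U₁ ⊆ U) (hZ : ∀ x ∈ U₁, x ∈ Z ↔ x ∈ Z₁) {F : X × ℝ → X}
    (hF : Ext F (U ×ˢ Icc 0 1)) (h1 : ∀ x ∈ U, ∀ t ∈ Icc (0 : ℝ) 1, F (x, t) ∈ U)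
    (h2 : ∀ x ∈ U₁, ∀ t ∈ Icc (0 : ℝ) 1, F (x, t) ∈ U₁)
    (h3 : ∀ x ∈ U, ∀ t ∈ Icc (0 : ℝ) 1, F (x, t) ∈ Z → x ∈ Z) (e0 : ∀ x ∈ U, F (x, 0) = x)
    (e1 : ∀ x ∈ U, F (x, 1) ∈ U₁) : Function.Bijective (pull id U₁ Z₁ : H U Z → H U₁ Z₁) := by
  have o1 : Ok id U₁ Z₁ U Z := .id hU fun x k => (hZ x k).1
  have o2 : Ok (fun x => F (x, 1)) U Z U₁ Z₁ := .of_mem (hF.comp (f := fun x => (x, (1 : ℝ)))
    (.of_continuous (by fun_prop) _) fun _ k => ⟨k, by simp⟩) e1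
    fun x k e => h3 x k 1 (by simp) ((hZ _ (e1 x k)).2 e)
  refine Function.bijective_iff_has_inverse.2 ⟨pull (fun x => F (x, 1)) U Z, fun a => ?_,
    fun a => ?_⟩
  · rw [pull_pull' (F := fun x => F (x, 1)) o2 o1 fun _ _ => rfl,
      ← pull_htpy' (f := id) hF h1 h3 e0 fun _ _ => rfl, pull_id]
  · rw [pull_pull' (F := fun x => F (x, 1)) o1 o2 fun _ _ => rfl,
      ← pull_htpy' (f := id) (hF.mono (prod_mono hU subset_rfl)) h2 (fun x k t ht e =>
        (hZ x k).1 (h3 x (hU k) t ht ((hZ _ (h2 x k t ht)).2 e))) (fun x k => e0 x (hU k))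
        fun _ _ => rfl, pull_id]

/-- A projection with a section that is a deformation retract. -/
theorem pull_bij_of_section {s : Y → X} (h : Ok f U Z U' Z') (h' : Ok s U' Z' U Z)
    (e : ∀ y ∈ U', f (s y) = y) {F : X × ℝ → X} (hF : Ext F (U ×ˢ Icc 0 1))
    (h1 : ∀ x ∈ U, ∀ t ∈ Icc (0 : ℝ) 1, F (x, t) ∈ U)
    (h3 : ∀ x ∈ U, ∀ t ∈ Icc (0 : ℝ) 1, F (x, t) ∈ Z → x ∈ Z) (e0 : ∀ x ∈ U, F (x, 0) = s (f x))
    (e1 : ∀ x ∈ U, F (x, 1) = x) : Function.Bijective (pull f U Z : H U' Z' → H U Z) :=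
  Function.bijective_iff_has_inverse.2 ⟨pull s U' Z', fun a => by
    rw [pull_pull' (F := id) h' h e, pull_id], fun a => by
    rw [pull_pull h h', pull_htpy' (f := s ∘ f) (g := id) hF h1 h3 e0 e1, pull_id]⟩

end Reg

theorem supp_bij_of_subsingleton (h : U \ Z ⊆ U \ Z₁) [Subsingleton (H (U \ Z₁) Z)] :
    Function.Bijective (pull id U Z : H U Z₁ → H U Z) := by
  have e : (U \ Z₁) \ Z = U \ Z := Subset.antisymm (fun _ k => ⟨k.1.1, k.2⟩) fun _ k => ⟨h k, k.2⟩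
  refine ⟨(injective_iff_map_eq_zero _).2 fun a k => ?_,
    fun a => (exact_supp_res rfl e a).1 (Subsingleton.elim _ _)⟩
  obtain ⟨b, rfl⟩ := (exact_dlt_supp rfl e a).1 k
  rw [Subsingleton.elim b 0, map_zero]

theorem subsingleton_of_res_bij
    (h : Function.Bijective (pull id (U \ Z) univ : H U univ → H (U \ Z) univ)) :
    Subsingleton (H U Z) := by
  have e : (U \ Z) \ univ = U \ univ := by simp
  refine subsingleton_of_forall_eq 0 fun a => ?_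
  obtain ⟨b, rfl⟩ := (exact_dlt_supp rfl e a).1 (h.1 (by
    rw [map_zero]; exact (exact_supp_res rfl e _).2 ⟨a, rfl⟩))
  exact (exact_res_dlt rfl e b).2 (h.2 b)

theorem sgc_zc (h : φ ∈ Zc U Z) : sgc φ ∈ Zc U Z :=
  mem_Zc.2 ⟨sgc_bd h.1.1, dl_sgc φ ▸ neg_mem (sgc_lz h.1.2), sgc_lz h.2⟩

theorem cls_sgc_eq_zero (h : φ ∈ Zc U Z) (k : cls U Z φ = 0) : cls U Z (sgc φ) = 0 := by
  obtain ⟨ψ, h1, h2, h3⟩ := (cls_eq_zero h).1 k
  refine (cls_eq_zero (sgc_zc h)).2 ⟨-sgc ψ, neg_mem (sgc_bd h1), neg_mem (sgc_lz h2), ?_⟩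
  convert sgc_lz h3 using 1
  rw [map_neg, dl_sgc]
  funext l
  simp [sgc, mul_sub]

theorem jump_eq (c : X → ℝ) : jump c = dl (zc fun x => if 0 < c x then 1 else 0) := by
  funext l
  rcases l with _ | ⟨a, _ | ⟨b, _ | ⟨d, l⟩⟩⟩
  · rfl
  · simp [jump, dl_apply, zc]
  · simp only [jump, dl_cons', dl_nil, cn_apply, zc, sub_zero]
  · exact ((hom_zc _).dl _ (by simp; omega)).symm

theorem hom_jump (c : X → ℝ) : Hom 1 (jump c) := jump_eq c ▸ (hom_zc _).dl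

theorem step_lz_neg {c : X → ℝ} (hc : ∀ x ∈ U, ContinuousAt c x) :
    zc (fun x => if 0 < c x then 1 else 0) ∈ lz (U ∩ {x | c x < 0}) := zc_lz fun x hx =>
  ((hc x hx.1).eventually_lt continuousAt_const hx.2).mono fun _ k => if_neg k.not_gt

theorem step_lz_pos {c : X → ℝ} (hc : ∀ x ∈ U, ContinuousAt c x) :
    zc (fun x => if 0 < c x then 1 else 0) - onec ∈ lz (U ∩ {x | 0 < c x}) := by
  have : zc (fun x => if 0 < c x then 1 else 0) - onec =
      zc fun x => (if 0 < c x then 1 else 0) - 1 := by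
    funext l
    rcases l with _ | ⟨a, _ | ⟨b, l⟩⟩ <;> simp [zc, onec]
  rw [this]
  exact zc_lz fun x hx => (continuousAt_const.eventually_lt (hc x hx.1) hx.2).mono fun _ k => by
    simp [k]

theorem jump_zc {c : X → ℝ} (hc : ∀ x ∈ U, ContinuousAt c x) (h : ∀ x ∈ U, c x = 0 → x ∈ Z) :
    jump c ∈ Zc U Z := by
  rw [jump_eq]
  refine mem_Zc.2 ⟨dl_bd (zc_bd _), dl_dl (X := X) _ ▸ zero_mem _, lz_cover (dl_lz (step_lz_neg hc))
    (B := U ∩ {x | 0 < c x}) (by simpa [dl_onec] using dl_lz (step_lz_pos hc))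
      fun x hx k => ⟨hx.1, ?_⟩⟩
  exact lt_of_le_of_ne (not_lt.1 fun e => k ⟨hx.1, e⟩) fun e => hx.2 (h x hx.1 e.symm)

variable [RegularSpace X] [SecondCountableTopology X]

theorem res_bij_union (hU : U₁ ⊆ U) (hc : Cl U Z) (hn : ∀ x ∈ U₁, U₁ ∈ 𝓝[U] x)
    (h : Function.Bijective (pull id U₁ Z : H U Z → _)) :
    Function.Bijective (pull id (U₁ ∪ U \ Z) Z : H U Z → _) := by
  have sb : U₁ ∪ U \ Z ⊆ U := union_subset hU sdiff_subset
  have ex := res_excision (U := U₁ ∪ U \ Z) (Z := Z) (Z₁ := Z) subset_union_left (hc.mono sb)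
    (fun x k e => nhdsWithin_mono _ sb (hn x (k.resolve_right fun b => b.2 e))) fun _ _ => Iff.rfl
  refine (Function.Bijective.of_comp_iff' ex _).1 ?_
  convert h using 1
  exact funext fun a => pull_pull' (.id subset_union_left fun _ _ k => k) (.id sb fun _ _ k => k)
    (fun _ _ => rfl) a

/-- The suspension isomorphism. -/
theorem jump_bij {c : X → ℝ} (hc : ∀ x ∈ U, ContinuousAt c x) (hZ : Cl U Z)
    (h1 : ∀ x ∈ U, c x = 0 → x ∈ Z₁) (h1' : ∀ x ∈ U, x ∈ Z₁ → c x = 0)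
    (h2 : ∀ x ∈ U, x ∈ Z₂ ↔ x ∈ Z ∧ c x = 0)
    (hp : Function.Bijective (pull id (U ∩ {x | 0 < c x}) Z : H U Z → _))
    (hn : Function.Bijective (pull id (U ∩ {x | c x < 0}) Z : H U Z → _)) :
    Function.Bijective fun a : H U Z => cup U Z₂ a (cls U Z₁ (jump c)) := by
  have cu : CupOK U Z U Z₁ U Z₂ :=
    .of_subset subset_rfl subset_rfl fun x a b d => (h2 x a).2 ⟨b, h1' x a d⟩
  have mj := jump_zc hc h1
  have hp' := res_bij_union inter_subset_left hZ (fun x k => inter_mem_nhdsWithin _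
    (continuousAt_const.eventually_lt (hc x k.1) k.2)) hp
  have hn' := res_bij_union inter_subset_left hZ (fun x k => inter_mem_nhdsWithin _
    ((hc x k.1).eventually_lt continuousAt_const k.2)) hn
  have lp := step_lz_pos hc
  have ln := step_lz_neg hc
  have ej := jump_eq c
  have θb := zc_bd fun x => if 0 < c x then (1 : ℂ) else 0
  generalize (zc fun x => if 0 < c x then (1 : ℂ) else 0) = θ at lp ln ej θb
  generalize jump c = j at ej mj
  subst ej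
  set P := U ∩ {x | 0 < c x}
  set N := U ∩ {x | c x < 0}
  have ap : ∀ χ ∈ bd X, cupc χ θ - χ ∈ lz P := fun χ k => by
    have := cupc_lz (lz_empty χ) lp subset_union_right
    rwa [map_sub, cupc_onec k.1] at this
  have an : ∀ χ, cupc χ θ ∈ lz N := fun χ => cupc_lz (lz_empty χ) ln subset_union_right
  have al : ∀ {S χ}, χ ∈ lz S → cupc χ θ ∈ lz S := fun k =>
    cupc_lz k (lz_empty θ) subset_union_left
  have sP : P ⊆ U \ Z₂ := fun x k => ⟨k.1, fun e => ne_of_gt k.2 ((h2 x k.1).1 e).2⟩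
  have sN : N ⊆ U \ Z₂ := fun x k => ⟨k.1, fun e => ne_of_lt k.2 ((h2 x k.1).1 e).2⟩
  have sZ : U \ Z ⊆ U \ Z₂ := fun x k => ⟨k.1, fun e => k.2 ((h2 x k.1).1 e).1⟩
  have oP : Ok id P Z U Z := .id inter_subset_left fun _ _ k => k
  have oN : Ok id N Z U Z := .id inter_subset_left fun _ _ k => k
  have zN : ∀ χ ∈ Zc U Z, χ ∈ lz N → cls U Z χ = 0 := fun χ k e => hn.1 (by
    rw [res_cls oN k, map_zero, cls_eq_of_lz (oN.zc_id k) (zero_mem _) (by simpa using e), cls_zero])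
  constructor
  · refine (injective_iff_map_eq_zero ((cup U Z₂).flip (cls U Z₁ (dl θ)))).2 fun a => ?_
    obtain ⟨φ', m', rfl⟩ := exists_cls a
    obtain ⟨φ, m, rfl⟩ : ∃ φ ∈ Zc U Z, φ' = sgc φ := ⟨_, sgc_zc m', (sgc_sgc _).symm⟩
    rw [LinearMap.flip_apply, cup_cls cu m' mj, cls_eq_zero (cu.zc m' mj)]
    rintro ⟨ψ, k1, k2, k3⟩
    have mω : cupc φ θ - ψ ∈ Zc U Z := mem_Zc.2 ⟨sub_mem (cupc_bd m.1.1 θb) k1, by
      rw [map_sub, dl_cupc m.1.1.1 θb.1, add_sub_assoc]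
      exact add_mem (al m.1.2) k3, sub_mem (al m.2) (lz_anti sZ k2)⟩
    refine cls_sgc_eq_zero m (hp.1 ?_)
    rw [res_cls oP m, map_zero, ← cls_eq_of_lz (oP.zc_id mω) m.1.1 (by
      rw [sub_right_comm]; exact sub_mem (ap φ m.1.1) (lz_anti sP k2)), ← res_cls oP mω,
      zN _ mω (sub_mem (an φ) (lz_anti sN k2)), map_zero]
  · intro a
    obtain ⟨ψ, m, rfl⟩ := exists_cls a
    have m1 : ψ ∈ Zc U Z := mem_Zc.2 ⟨m.1.1, m.1.2, lz_anti sZ m.2⟩
    obtain ⟨ω, w1, w2, w3⟩ := (cls_eq_zero m1).1 (zN ψ m1 (lz_anti sN m.2))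
    have key : ∀ S ⊆ U \ Z₂, Function.Bijective (pull id (S ∪ U \ Z) Z : H U Z → _) →
        ∃ b ∈ Zc U Z, ∃ η ∈ bd X, η ∈ lz (U \ Z) ∧ ω - b - dl η ∈ lz S := fun S hS hb => by
      have sb : S ∪ U \ Z ⊆ U \ Z₂ := union_subset hS sZ
      have o : Ok id (S ∪ U \ Z) Z U Z := .id (sb.trans sdiff_subset) fun _ _ k => k
      have mω : ω ∈ Zc (S ∪ U \ Z) Z := mem_Zc.2 ⟨w1, by
        simpa using sub_mem (lz_anti sb m.2) (lz_anti (sb.trans sdiff_subset) w3),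
        lz_anti o.supp w2⟩
      obtain ⟨b, e⟩ := hb.2 (cls _ _ ω)
      obtain ⟨b, mb, rfl⟩ := exists_cls b
      rw [res_cls o mb, eq_comm, cls_eq_cls mω (o.zc_id mb)] at e
      obtain ⟨η, e1, e2, e3⟩ := e
      exact ⟨b, mb, η, e1, lz_anti (by exact fun x k => ⟨Or.inr k, k.2⟩) e2, lz_anti subset_union_left e3⟩
    obtain ⟨b, mb, η, e1, e2, e3⟩ := key P sP hp'
    obtain ⟨b', mb', η', e1', e2', e3'⟩ := key N sN hn'
    have mβ := sub_mem mb mb'
    refine ⟨cls U Z (sgc (b - b')), ?_⟩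
    change cup U Z₂ _ _ = _
    rw [cup_cls cu (sgc_zc mβ) mj, eq_comm, cls_eq_cls m (cu.zc (sgc_zc mβ) mj)]
    have bη := sub_mem e1 e1'
    refine ⟨ω - b' - cupc (b - b') θ - dl (η' + cupc (η - η') θ), sub_mem (sub_mem (sub_mem w1
      mb'.1.1) (cupc_bd mβ.1.1 θb)) (dl_bd (add_mem e1' (cupc_bd bη θb))), ?_, ?_⟩
    · refine lz_cover (A := U \ Z) (B := P ∪ N) (sub_mem (sub_mem (sub_mem w2 mb'.2) (al mβ.2))
        (dl_lz (add_mem e2' (al (sub_mem e2 e2'))))) (lz_union ?_ ?_) fun x k e => ?_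
      · convert sub_mem (sub_mem e3 (ap _ mβ.1.1)) (dl_lz (ap _ bη)) using 1
        simp only [map_sub, map_add]; abel
      · convert sub_mem (sub_mem e3' (an (b - b'))) (dl_lz (an (η - η'))) using 1
        simp only [map_add]; abel
      · rcases lt_trichotomy (c x) 0 with a | a | a
        · exact Or.inr ⟨k.1, a⟩
        · exact (k.2 ((h2 x k.1).2 ⟨by_contra fun b => e ⟨k.1, b⟩, a⟩)).elim
        · exact Or.inl ⟨k.1, a⟩
    · convert add_mem (add_mem w3 mb'.1.2) (al mβ.1.2) using 1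
      rw [map_sub, map_sub, map_sub, dl_dl, dl_cupc mβ.1.1.1 θb.1]
      abel

/-- The suspension isomorphism in the presence of a flow that translates `c`. -/
theorem jump_bij_flow {c : X → ℝ} (hc : Continuous c) (hZ : Cl U Z)
    (h1 : ∀ x ∈ U, c x = 0 → x ∈ Z₁) (h1' : ∀ x ∈ U, x ∈ Z₁ → c x = 0)
    (h2 : ∀ x ∈ U, x ∈ Z₂ ↔ x ∈ Z ∧ c x = 0) {Φ : X × ℝ → X} (hΦ : Continuous Φ)
    (e0 : ∀ x, Φ (x, 0) = x) (e1 : ∀ x t, c (Φ (x, t)) = c x + t)
    (e2 : ∀ x ∈ U, ∀ t, Φ (x, t) ∈ U) (e3 : ∀ x ∈ U, ∀ t, Φ (x, t) ∈ Z → x ∈ Z) :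
    Function.Bijective fun a : H U Z => cup U Z₂ a (cls U Z₁ (jump c)) := by
  refine jump_bij (fun _ _ => hc.continuousAt) hZ h1 h1' h2 ?_ ?_
  · refine res_bij_of_retract inter_subset_left (fun _ _ => Iff.rfl)
      (F := fun z => Φ (z.1, z.2 * (1 - c z.1))) (.of_continuous (by fun_prop) _)
      (fun x k _ _ => e2 x k _) (fun x k t ht => ⟨e2 x k.1 _, ?_⟩) (fun x k _ _ => e3 x k _)
      (fun x _ => by simp [e0]) fun x k => ⟨e2 x k _, by simp [e1]⟩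
    have : 0 < c x := k.2
    rw [mem_ofPred_eq, e1]
    rcases ht.2.eq_or_lt with rfl | h
    · linarith
    · nlinarith [ht.1, mul_pos this (sub_pos.2 h)]
  · refine res_bij_of_retract inter_subset_left (fun _ _ => Iff.rfl)
      (F := fun z => Φ (z.1, z.2 * (-1 - c z.1))) (.of_continuous (by fun_prop) _)
      (fun x k _ _ => e2 x k _) (fun x k t ht => ⟨e2 x k.1 _, ?_⟩) (fun x k _ _ => e3 x k _)
      (fun x _ => by simp [e0]) fun x k => ⟨e2 x k _, by simp [e1]⟩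
    have : c x < 0 := k.2
    rw [mem_ofPred_eq, e1]
    rcases ht.2.eq_or_lt with rfl | h
    · linarith
    · nlinarith [ht.1, mul_pos (neg_pos.2 this) (sub_pos.2 h)]

end Pool.Agent.Work.MP_849ab0_ag.G
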