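import Pool.Agent.Work.MP_849ab0_ag.G.FThom

/-! Increasing unions, disc bundles and the Barratt-Whitehead lemma. -/

noncomputable section

set_option linter.unusedSectionVars false

namespace Pool.Agent.Work.MP_849ab0_ag.G

open Set Topology Filter

variable {X Y : Type} [TopologicalSpace X] [TopologicalSpace Y]
variable {U Z U₁ Z₁ U₂ Z₂ : Set X} {U' Z' : Set Y}

theorem res_bij_iff (h1 : U \ Z₁ = U₂) (h2 : U₂ \ Z₂ = U \ Z) :
    Function.Bijective (pull id U₂ Z₂ : H U Z → H U₂ Z₂) ↔ Subsingleton (H U Z₁) := by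
  constructor
  · intro h
    refine subsingleton_of_forall_eq 0 fun a => ?_
    obtain ⟨b, rfl⟩ := (exact_dlt_supp h1 h2 a).1 (h.1 (by
      rw [map_zero]; exact (exact_supp_res h1 h2 _).2 ⟨a, rfl⟩))
    exact (exact_res_dlt h1 h2 b).2 (h.2 b)
  · intro h
    refine ⟨(injective_iff_map_eq_zero _).2 fun a k => ?_,
      fun a => (exact_res_dlt h1 h2 a).1 (Subsingleton.elim _ _)⟩
    obtain ⟨b, rfl⟩ := (exact_supp_res h1 h2 a).1 k
    rw [Subsingleton.elim b 0, map_zero]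

theorem subsingleton_iff : Subsingleton (H U Z) ↔ ∀ φ ∈ bd X, φ ∈ lz (U \ Z) → dl φ ∈ lz U →
    ∃ ψ ∈ bd X, ψ ∈ lz (U \ Z) ∧ φ - dl ψ ∈ lz U :=
  ⟨fun _ _ h1 h2 h3 => (cls_eq_zero (mem_Zc.2 ⟨h1, h3, h2⟩)).1 (Subsingleton.elim _ _), fun h =>
    subsingleton_of_forall_eq 0 fun a => by
      obtain ⟨φ, m, rfl⟩ := exists_cls a
      exact (cls_eq_zero m).2 (h φ m.1.1 m.2 m.1.2)⟩

variable [RegularSpace X] [SecondCountableTopology X]

theorem exists_level {O : ℕ → Set X} (hO : ∀ n, IsOpen (O n)) (hm : Monotone O) :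
    ∃ n : X → ℕ, ∀ x ∈ ⋃ k, O k, ∃ N, ∀ᶠ a in 𝓝 x, n a ≤ N ∧ ∀ M, n a ≤ M → x ∈ O M := by
  classical
  let _ := TopologicalSpace.pseudoMetrizableSpacePseudoMetric X
  let F : ℕ → Set X := fun m => {x | ((m : ENNReal) + 1)⁻¹ ≤ Metric.infEDist x (O m)ᶜ}
  refine ⟨fun a => if h : ∃ m, a ∈ F m then Nat.find h else 0, fun x hx => ?_⟩
  obtain ⟨j, hj⟩ := mem_iUnion.1 hx
  have hp : 0 < Metric.infEDist x (O j)ᶜ :=
    Metric.infEDist_pos_iff_notMem_closure.2 (by rw [(hO j).isClosed_compl.closure_eq]; simpa)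
  obtain ⟨n, hn⟩ := ENNReal.exists_inv_nat_lt hp.ne'
  have h1 : ∀ᶠ a in 𝓝 x, a ∈ F (max n j) := by
    filter_upwards [(isOpen_lt continuous_const Metric.continuous_infEDist).mem_nhds hn] with a ha
    refine le_trans ?_ (ha.le.trans (Metric.infEDist_anti (compl_subset_compl.2
      (hm (le_max_right n j)))))
    rw [ENNReal.inv_le_inv]
    exact_mod_cast (le_max_left n j).trans (Nat.le_succ _)
  have h2 : ∀ᶠ a in 𝓝 x, ∀ m ∈ Iic (max n j), a ∈ F m → x ∈ O m := by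
    refine (eventually_all_finite (finite_Iic _)).2 fun m _ => ?_
    by_cases k : x ∈ O m
    · exact .of_forall fun _ _ => k
    · have : Metric.infEDist x (O m)ᶜ < ((m : ENNReal) + 1)⁻¹ := by
        rw [Metric.infEDist_zero_of_mem (show x ∈ (O m)ᶜ from k)]; simp
      filter_upwards [(isOpen_lt Metric.continuous_infEDist continuous_const).mem_nhds this]
        with a ha e
      exact absurd e (not_le.2 ha)
  refine ⟨max n j, ?_⟩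
  filter_upwards [h1, h2] with a k1 k2
  have e : ∃ m, a ∈ F m := ⟨_, k1⟩
  rw [dif_pos e]
  exact ⟨Nat.find_min' e k1, fun M hM => hm hM (k2 _ (Nat.find_min' e k1) (Nat.find_spec e))⟩

theorem milnor_acyc {P : ℕ → Set X} (hm : Monotone P) (e : ⋃ N, P N = U)
    (hn : ∀ N, ∀ x ∈ P N, P N ∈ 𝓝[U] x) (hb : ∀ N, Subsingleton (H (P (N + 1)) (P N)ᶜ)) :
    Subsingleton (H U (P 0)ᶜ) := by
  have sU : ∀ N, P N ⊆ U := fun N => e ▸ subset_iUnion P N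
  refine subsingleton_iff.2 fun φ h1 h2 h3 => ?_
  rw [Set.sdiff_compl, inter_eq_right.2 (sU 0)] at h2 ⊢
  have step : ∀ N, ∀ χ ∈ bd X, χ ∈ lz (P N) → dl χ ∈ lz U →
      ∃ ψ ∈ bd X, ψ ∈ lz (P N) ∧ χ - dl ψ ∈ lz (P (N + 1)) := fun N χ k1 k2 k3 => by
    have := subsingleton_iff.1 (hb N) χ k1
    rw [Set.sdiff_compl, inter_eq_right.2 (hm N.le_succ)] at this
    exact this k2 (lz_anti (sU _) k3)
  choose! y y1 y2 y3 using step
  let χ : ℕ → List X → ℂ := fun N => Nat.rec φ (fun N χ => χ - dl (y N χ)) N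
  have hχ : ∀ N, χ N ∈ bd X ∧ χ N ∈ lz (P N) ∧ dl (χ N) ∈ lz U := fun N => by
    induction N with
    | zero => exact ⟨h1, h2, h3⟩
    | succ N ih =>
      refine ⟨sub_mem ih.1 (dl_bd (y1 N _ ih.1 ih.2.1 ih.2.2)), y3 N _ ih.1 ih.2.1 ih.2.2, ?_⟩
      change dl (χ N - dl _) ∈ _
      rw [map_sub, dl_dl, sub_zero]; exact ih.2.2
  have z1 : ∀ N, y N (χ N) ∈ bd X := fun N => y1 N _ (hχ N).1 (hχ N).2.1 (hχ N).2.2
  have z2 : ∀ N, y N (χ N) ∈ lz (P N) := fun N => y2 N _ (hχ N).1 (hχ N).2.1 (hχ N).2.2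
  have z3 : ∀ N, φ - dl (∑ M ∈ Finset.range N, y M (χ M)) = χ N := fun N => by
    induction N with
    | zero => simp [χ]
    | succ N ih => rw [Finset.sum_range_succ, map_add, ← sub_sub, ih]
  obtain ⟨w, z1, z2, z3⟩ : ∃ w : ℕ → List X → ℂ, (∀ N, w N ∈ bd X) ∧ (∀ N, w N ∈ lz (P N)) ∧
      ∀ N, φ - dl (∑ M ∈ Finset.range N, w M) = χ N := ⟨_, z1, z2, z3⟩
  obtain ⟨n, hn'⟩ := exists_level (O := fun N => (closure (U \ P N))ᶜ)
    (fun _ => isClosed_closure.isOpen_compl) fun M N k =>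
      compl_subset_compl.2 (closure_mono (sdiff_subset_sdiff_right (hm k)))
  let z : List X → ℂ := fun l => match l with
    | [] => 0
    | a :: m => ∑ M ∈ Finset.range (n a), w M (a :: m)
  have key : ∀ x ∈ U, ∃ N, x ∈ P N ∧ z - ∑ M ∈ Finset.range N, w M ∈ lz {x} := fun x hx => by
    obtain ⟨j, hj⟩ := mem_iUnion.1 (e.symm ▸ hx : x ∈ ⋃ N, P N)
    obtain ⟨N, k⟩ := hn' x (mem_iUnion.2 ⟨j, fun c => by
      obtain ⟨V, v1, v2⟩ := mem_nhdsWithin_iff_exists_mem_nhds_inter.1 (hn j x hj)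
      obtain ⟨b, b1, b2⟩ := mem_closure_iff_nhds.1 c V v1
      exact b2.2 (v2 ⟨b1, b2.1⟩)⟩)
    have mem : ∀ M, x ∉ closure (U \ P M) → x ∈ P M := fun M c =>
      by_contra fun d => c (subset_closure ⟨hx, d⟩)
    have : ∀ M, ∃ V ∈ 𝓝 x, x ∈ P M → ∀ l : List X, (∀ y ∈ l, y ∈ V) → w M l = 0 := fun M => by
      by_cases c : x ∈ P M
      · exact (z2 M x c).imp fun V d => ⟨d.1, fun _ => d.2⟩
      · exact ⟨univ, univ_mem, fun d => (c d).elim⟩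
    choose V v1 v2 using this
    refine ⟨N, mem N (k.self_of_nhds.2 N k.self_of_nhds.1), ?_⟩
    rintro _ rfl
    refine ⟨_, inter_mem k ((biInter_mem (finite_Iio N)).2 fun M _ => v1 M), fun l hl => ?_⟩
    rw [Pi.sub_apply, Finset.sum_apply, sub_eq_zero]
    cases l with
    | nil => exact (Finset.sum_eq_zero fun M _ => (z1 M).1).symm
    | cons a m =>
      have ha := (hl a List.mem_cons_self).1
      refine Finset.sum_subset (Finset.range_mono ha.1) fun M c d => v2 M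
        (mem M (ha.2 M (by simpa using d))) _ fun b hb => mem_iInter₂.1 (hl b hb).2 M (by simpa using c)
  obtain ⟨p, hp⟩ := ((cx X).bdd φ h1).exists
  refine ⟨msk (Iic (p - 1)) z, ⟨msk_zero rfl, p.toNat, fun l hl =>
    msk_of_not_mem _ (by simp only [mem_Iic]; omega)⟩, msk_lz _ fun x hx => ?_, ?_⟩
  · obtain ⟨N, -, k⟩ := key x (sU 0 hx)
    have := add_mem k (sum_mem (t := Finset.range N) fun M _ =>
      lz_anti (singleton_subset_iff.2 (hm M.zero_le hx)) (z2 M))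
    rw [sub_add_cancel] at this
    exact this x rfl
  · rw [dl_msk (t := Iic p) (by simp [le_sub_iff_add_le]), ← show msk (Iic p) φ = φ from hp,
      ← map_sub]
    refine msk_lz _ fun x hx => ?_
    obtain ⟨N, k1, k2⟩ := key x hx
    have := sub_mem (lz_anti (singleton_subset_iff.2 k1) (hχ N).2.1) (dl_lz k2)
    rw [← z3, map_sub, sub_sub, add_sub_cancel] at this
    exact this x rfl

/-- Increasing unions of relatively open sets. -/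
theorem milnor_res {V : ℕ → Set X} (hc : Cl U Z) (hm : Monotone V) (e : ⋃ N, V N = U)
    (hn : ∀ N, ∀ x ∈ V N, V N ∈ 𝓝[U] x)
    (hb : ∀ N, Function.Bijective (pull id (V N) Z : H (V (N + 1)) Z → _)) :
    Function.Bijective (pull id (V 0) Z : H U Z → _) := by
  have sU : ∀ N, V N ⊆ U := fun N => e ▸ subset_iUnion V N
  have sP : ∀ N, V N ∪ U \ Z ⊆ U := fun N => union_subset (sU N) sdiff_subset
  have ex : ∀ N, Function.Bijective (pull id (V N) Z : H (V N ∪ U \ Z) Z → _) := fun N =>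
    res_excision subset_union_left (hc.mono (sP N)) (fun x k e => nhdsWithin_mono _ (sP N)
      (hn N x (k.resolve_right fun b => b.2 e))) fun _ _ => Iff.rfl
  have rr : ∀ {A B C : Set X}, C ⊆ B → B ⊆ A → (pull id C Z : H B Z → _) ∘
      (pull id B Z : H A Z → _) = pull id C Z := fun k k' => funext fun a =>
    pull_pull' (.id k fun _ _ k => k) (.id k' fun _ _ k => k) (fun _ _ => rfl) a
  have dz : ∀ N, (V N ∪ U \ Z) \ Z = U \ Z := fun N =>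
    Subset.antisymm (sdiff_subset_sdiff_left (sP N)) fun _ k => ⟨Or.inr k, k.2⟩
  rw [← rr subset_union_left (sP 0)]
  refine (ex 0).comp ((res_bij_iff (Z₁ := (V 0 ∪ U \ Z)ᶜ) (by
    rw [Set.sdiff_compl, inter_eq_right.2 (sP 0)]) (dz 0)).2 (milnor_acyc
      (P := fun N => V N ∪ U \ Z) (fun M N k => union_subset_union_left _ (hm k))
      (by rw [← iUnion_union, e, union_eq_left.2 sdiff_subset]) (fun N x k => k.elim
        (fun k => mem_of_superset (hn N x k) subset_union_left)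
        fun k => mem_of_superset (hc.diff_mem_nhdsWithin k) subset_union_right) fun N => ?_))
  have s := union_subset_union_left (U \ Z) (hm N.le_succ)
  refine (res_bij_iff (Z := Z) (Z₂ := Z) (by rw [Set.sdiff_compl, inter_eq_right.2 s])
    ((dz N).trans (dz _).symm)).1 ((Function.Bijective.of_comp_iff' (ex N) _).1 ?_)
  rw [rr subset_union_left s, ← rr (hm N.le_succ) subset_union_left]
  exact (hb N).comp (ex _)

/-- Enlarging the support along a homotopy that pushes the complement. -/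
theorem supp_bij_of_push (h : U \ Z ⊆ U \ Z₁) {F : X × ℝ → X} (hF : Ext F ((U \ Z₁) ×ˢ Icc 0 1))
    (h1 : ∀ x ∈ U \ Z₁, ∀ t ∈ Icc (0 : ℝ) 1, F (x, t) ∈ U \ Z₁)
    (h2 : ∀ x ∈ U \ Z, ∀ t ∈ Icc (0 : ℝ) 1, F (x, t) ∈ U \ Z) (e0 : ∀ x ∈ U \ Z₁, F (x, 0) = x)
    (e1 : ∀ x ∈ U \ Z₁, F (x, 1) ∈ U \ Z) : Function.Bijective (pull id U Z : H U Z₁ → H U Z) := by
  have : Subsingleton (H (U \ Z₁) Z) :=
    (res_bij_iff (Z := univ) (Z₂ := univ) (U₂ := U \ Z) (Subset.antisymm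
      (fun _ k => ⟨k.1.1, k.2⟩) fun _ k => ⟨h k, k.2⟩) (by simp)).1
      (res_bij_of_retract h (fun _ _ => Iff.rfl) hF h1 h2 (fun _ _ _ _ _ => trivial) e0 e1)
  exact supp_bij_of_subsingleton h

section BW

variable {M₁ M₂ M₃ N₁ N₂ N₃ K L : Type} [AddCommGroup M₁] [AddCommGroup M₂] [AddCommGroup M₃]
  [AddCommGroup N₁] [AddCommGroup N₂] [AddCommGroup N₃] [AddCommGroup K] [AddCommGroup L]
  [Module ℂ M₁] [Module ℂ M₂] [Module ℂ M₃] [Module ℂ N₁] [Module ℂ N₂] [Module ℂ N₃]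
  [Module ℂ K] [Module ℂ L]

/-- The data of the Barratt-Whitehead lemma. -/
structure BW (i : M₁ →ₗ[ℂ] M₂) (j : M₂ →ₗ[ℂ] M₃) (δ : M₃ →ₗ[ℂ] M₁) (i' : N₁ →ₗ[ℂ] N₂)
    (j' : N₂ →ₗ[ℂ] N₃) (δ' : N₃ →ₗ[ℂ] N₁) (α : M₁ →ₗ[ℂ] N₁) (r : M₂ →ₗ[ℂ] N₂) (ρ : M₃ →ₗ[ℂ] N₃)
    (β : N₃ →ₗ[ℂ] K) (γ : M₃ →ₗ[ℂ] L) (m : K →ₗ[ℂ] M₂) : Prop where
  ij : ∀ x, j x = 0 ↔ ∃ y, i y = x
  jd : ∀ x, δ x = 0 ↔ ∃ y, j y = x
  di : ∀ x, i x = 0 ↔ ∃ y, δ y = x
  ij' : ∀ x, j' x = 0 ↔ ∃ y, i' y = x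
  jd' : ∀ x, δ' x = 0 ↔ ∃ y, j' y = x
  di' : ∀ x, i' x = 0 ↔ ∃ y, δ' y = x
  ba : Function.Bijective α
  bb : Function.Bijective β
  bc : Function.Bijective γ
  c1 : ∀ x, r (i x) = i' (α x)
  c2 : ∀ x, ρ (j x) = j' (r x)
  c3 : ∀ x, α (δ x) = δ' (ρ x)
  em : ∀ u v, α u = δ' v → m (β v) = i u

variable {i : M₁ →ₗ[ℂ] M₂} {j : M₂ →ₗ[ℂ] M₃} {δ : M₃ →ₗ[ℂ] M₁} {i' : N₁ →ₗ[ℂ] N₂}
  {j' : N₂ →ₗ[ℂ] N₃} {δ' : N₃ →ₗ[ℂ] N₁} {α : M₁ →ₗ[ℂ] N₁} {r : M₂ →ₗ[ℂ] N₂} {ρ : M₃ →ₗ[ℂ] N₃}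
  {β : N₃ →ₗ[ℂ] K} {γ : M₃ →ₗ[ℂ] L} {m : K →ₗ[ℂ] M₂} (h : BW i j δ i' j' δ' α r ρ β γ m)
include h

theorem BW.union (x : M₂) : (r x = 0 ∧ γ (j x) = 0) ↔ ∃ y, m y = x := by
  constructor
  · rintro ⟨h1, h2⟩
    obtain ⟨u, rfl⟩ := (h.ij x).1 (h.bc.1 (by rw [h2, map_zero]))
    obtain ⟨v, e⟩ := (h.di' _).1 (h.c1 u ▸ h1)
    exact ⟨_, h.em u v e.symm⟩
  · rintro ⟨y, rfl⟩
    obtain ⟨v, rfl⟩ := h.bb.2 y
    obtain ⟨u, e⟩ := h.ba.2 (δ' v)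
    rw [h.em u v e, h.c1, e, (h.ij _).2 ⟨u, rfl⟩, map_zero]
    exact ⟨(h.di' _).2 ⟨v, rfl⟩, rfl⟩

theorem BW.mid (x : N₂) (w : M₃) (e : j' x = ρ w) : ∃ z, r z = x ∧ j z = w := by
  obtain ⟨z, rfl⟩ := (h.jd w).1 (h.ba.1 (by rw [h.c3, ← e, (h.jd' _).2 ⟨x, rfl⟩, map_zero]))
  obtain ⟨u, k⟩ := (h.ij' (x - r z)).1 (by rw [map_sub, e, h.c2, sub_self])
  obtain ⟨u, rfl⟩ := h.ba.2 u
  exact ⟨z + i u, by rw [map_add, h.c1, k, add_sub_cancel], by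
    rw [map_add, (h.ij _).2 ⟨u, rfl⟩, add_zero]⟩

theorem BW.inter (z : K) : m z = 0 ↔ ∃ x w, β (j' x) - β (ρ w) = z := by
  constructor
  · obtain ⟨v, rfl⟩ := h.bb.2 z
    obtain ⟨u, e⟩ := h.ba.2 (δ' v)
    rw [h.em u v e]
    intro k
    obtain ⟨w, rfl⟩ := (h.di u).1 k
    obtain ⟨x, k⟩ := (h.jd' (v - ρ w)).1 (by rw [map_sub, ← e, h.c3, sub_self])
    exact ⟨x, -w, by rw [k]; simp⟩
  · rintro ⟨x, w, rfl⟩
    rw [map_sub, h.em 0 _ (by rw [map_zero, (h.jd' _).2 ⟨x, rfl⟩]), h.em _ _ (h.c3 w),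
      (h.di _).2 ⟨w, rfl⟩, map_zero, sub_zero]

end BW

end Pool.Agent.Work.MP_849ab0_ag.G
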