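import Pool.Agent.Work.MP_849ab0_ag.G.FHtpy

/-! Orientation classes, Mayer-Vietoris gluing and the Thom isomorphism. -/

noncomputable section

set_option linter.unusedSectionVars false

namespace Pool.Agent.Work.MP_849ab0_ag.G

open Set Topology Filter

variable {X Y : Type} {J J' : Type}

/-- The `2`-cocycle of a complex function. -/
def uc (w : X → ℂ) : List X → ℂ := cupc (jump fun x => (w x).re) (jump fun x => (w x).im)

/-- The product of the cocycles of a list of complex functions. -/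
def oc (w : J → X → ℂ) (L : List J) : List X → ℂ := L.foldr (fun j φ => cupc (uc (w j)) φ) onec

theorem oc_cons (w : J → X → ℂ) (j : J) (L : List J) : oc w (j :: L) = cupc (uc (w j)) (oc w L) :=
  rfl

theorem oc_nil_apply (w : J → X → ℂ) (L : List J) : oc w L [] = 0 := by
  cases L
  · simp [oc, onec]
  · rfl

theorem oc_append (w : J → X → ℂ) (L L' : List J) : oc w (L ++ L') = cupc (oc w L) (oc w L') := by
  induction L with
  | nil => exact (onec_cupc (oc_nil_apply w L')).symm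
  | cons j L ih => rw [List.cons_append, oc_cons, oc_cons, ih, cupc_assoc]

theorem oc_map (w : J → X → ℂ) (e : J' → J) (L : List J') : oc w (L.map e) = oc (w ∘ e) L := by
  induction L with
  | nil => rfl
  | cons j L ih => rw [List.map_cons, oc_cons, oc_cons, ih]; rfl

theorem pullc_jump (f : X → Y) (c : Y → ℝ) : pullc f (jump c) = jump (c ∘ f) := by
  funext l
  rcases l with _ | ⟨a, _ | ⟨b, _ | ⟨d, l⟩⟩⟩ <;> rfl

theorem pullc_oc (f : X → Y) (w : J → Y → ℂ) (L : List J) :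
    pullc f (oc w L) = oc (fun j x => w j (f x)) L := by
  induction L with
  | nil => exact pullc_onec f
  | cons j L ih => rw [oc_cons, oc_cons, pullc_cupc, ih, uc, pullc_cupc, pullc_jump, pullc_jump]; rfl

variable [TopologicalSpace X] [TopologicalSpace Y]
variable {U Z U₁ Z₁ Z₂ Z₀ A B : Set X} {U' Z' : Set Y} {φ ψ : List X → ℂ} {f g : X → Y}

theorem hom_uc (w : X → ℂ) : Hom (2 * 1) (uc w) := (hom_jump _).cupc (hom_jump _)

theorem hom_oc (w : J → X → ℂ) (L : List J) : Hom (2 * L.length) (oc w L) := by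
  induction L with
  | nil => exact hom_onec
  | cons j L ih =>
    rw [oc_cons, List.length_cons, Nat.cast_succ, mul_add, add_comm]
    exact (hom_uc (w j)).cupc ih

theorem cupOK (h : ∀ x ∈ U, x ∈ Z₁ → x ∈ Z₂ → x ∈ Z) : CupOK U Z₁ U Z₂ U Z :=
  .of_subset subset_rfl subset_rfl h

theorem jre_zc {w : X → ℂ} (hw : ∀ x ∈ U, ContinuousAt w x) :
    jump (fun x => (w x).re) ∈ Zc U {x | (w x).re = 0} :=
  jump_zc (fun x k => Complex.continuous_re.continuousAt.comp (hw x k)) fun _ _ k => k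

theorem jim_zc {w : X → ℂ} (hw : ∀ x ∈ U, ContinuousAt w x) :
    jump (fun x => (w x).im) ∈ Zc U {x | (w x).im = 0} :=
  jump_zc (fun x k => Complex.continuous_im.continuousAt.comp (hw x k)) fun _ _ k => k

theorem uc_zc {w : X → ℂ} (hw : ∀ x ∈ U, ContinuousAt w x) : uc w ∈ Zc U {x | w x = 0} :=
  (cupOK fun _ _ a b => Complex.ext a b).zc (jre_zc hw) (jim_zc hw)

theorem oc_zc {w : J → X → ℂ} (hw : ∀ j, ∀ x ∈ U, ContinuousAt (w j) x) (L : List J) :
    ∀ {Z : Set X}, (∀ x ∈ U, (∀ j ∈ L, w j x = 0) → x ∈ Z) → oc w L ∈ Zc U Z := by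
  induction L with
  | nil => exact fun h => onec_zc fun x k => h x k (by simp)
  | cons j L ih =>
    exact fun h => (cupOK (Z₂ := {x | ∀ j ∈ L, w j x = 0}) fun x k a b =>
      h x k (List.forall_mem_cons.2 ⟨a, b⟩)).zc (uc_zc (hw j)) (ih fun _ _ k => k)

theorem oc_perm {w : J → X → ℂ} (hw : ∀ j, ∀ x ∈ U, ContinuousAt (w j) x) {L L' : List J}
    (p : L.Perm L') : ∀ {Z : Set X}, (∀ x ∈ U, (∀ j ∈ L, w j x = 0) → x ∈ Z) →
      cls U Z (oc w L) = cls U Z (oc w L') := by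
  induction p with
  | nil => exact fun _ => rfl
  | @cons j L L' p ih =>
    intro Z h
    have c := cupOK (Z₁ := {x | w j x = 0}) (Z₂ := {x | ∀ j ∈ L, w j x = 0}) fun x k a b =>
      h x k (List.forall_mem_cons.2 ⟨a, b⟩)
    rw [oc_cons, oc_cons, ← cup_cls c (uc_zc (hw j)) (oc_zc hw L fun _ _ k => k),
      ih (Z := {x | ∀ j ∈ L, w j x = 0}) fun _ _ k => k, cup_cls c (uc_zc (hw j))
        (oc_zc hw L' fun _ _ k i hi => k i (p.subset hi))]
  | swap i j L =>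
    intro Z h
    have c1 := cupOK (U := U) (Z₁ := {x | w i x = 0}) (Z₂ := {x | w j x = 0})
      (Z := {x | w i x = 0 ∧ w j x = 0}) fun x k a b => ⟨a, b⟩
    have c := cupOK (Z₁ := {x | w i x = 0 ∧ w j x = 0}) (Z₂ := {x | ∀ j ∈ L, w j x = 0})
      fun x k a b => h x k (List.forall_mem_cons.2 ⟨a.2, List.forall_mem_cons.2 ⟨a.1, b⟩⟩)
    have m := oc_zc hw L (Z := {x | ∀ j ∈ L, w j x = 0}) fun _ _ k => k
    rw [oc_cons, oc_cons, oc_cons, oc_cons, ← cupc_assoc, ← cupc_assoc,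
      ← cup_cls c (c1.symm.zc (uc_zc (hw j)) (uc_zc (hw i))) m,
      ← cup_cls c (c1.zc (uc_zc (hw i)) (uc_zc (hw j))) m,
      ← cup_cls c1.symm (uc_zc (hw j)) (uc_zc (hw i)), ← cup_cls c1 (uc_zc (hw i)) (uc_zc (hw j)),
      cup_comm_even c1 (isDeg_cls (uc_zc (hw i)) (hom_uc _))]
  | trans p _ ih ih' =>
    exact fun h => (ih h).trans (ih' fun x k e => h x k fun i hi => e i (p.subset hi))

section Orient
variable [Fintype J] [Fintype J']

theorem orient_eq : orient J = cls univ {0} (oc (fun j v => v j) (Finset.univ : Finset J).toList) :=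
  rfl

theorem orient_zc : oc (fun j v => v j) (Finset.univ : Finset J).toList ∈
    Zc (univ : Set (J → ℂ)) {0} :=
  oc_zc (fun j _ _ => (continuous_apply j).continuousAt) _ fun _ _ k =>
    funext fun j => k j (by simp)

theorem isDeg_orient : IsDeg (2 * Fintype.card J) (orient J) :=
  isDeg_cls orient_zc (by
    have := hom_oc (fun j (v : J → ℂ) => v j) Finset.univ.toList
    rwa [Finset.length_toList] at this)

theorem pull_orient {F : X → J → ℂ} (hF : ∀ x ∈ U, ContinuousAt F x)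
    (h : ∀ x ∈ U, F x = 0 → x ∈ Z) {L : List J} (h1 : L.Nodup) (h2 : ∀ j, j ∈ L) :
    pull F U Z (orient J) = cls U Z (oc (fun j x => F x j) L) := by
  have a : Adm F U Z univ {0} := ⟨hF, fun _ _ => trivial, fun x k => ⟨trivial, fun e =>
    k.2 (h x k.1 e)⟩⟩
  rw [orient_eq, a.pull_cls orient_zc, pullc_oc]
  exact oc_perm (fun j x k => (continuous_apply j).continuousAt.comp (hF x k))
    ((List.perm_ext_iff_of_nodup (Finset.nodup_toList _) h1).2 (by simp [h2]))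
    fun x k e => h x k (funext fun j => e j (by simp))

theorem cont_comp_right {K K' : Type} (k : K → K') : Continuous fun v : K' → ℂ => v ∘ k :=
  continuous_pi fun j => continuous_apply (k j)

theorem orient_equiv (e : J' ≃ J) :
    pull (fun v : J → ℂ => v ∘ e) univ {0} (orient J') = orient J := by
  rw [pull_orient (F := fun v : J → ℂ => v ∘ e) (U := univ) (Z := {0})
    (L := (Finset.univ : Finset J).toList.map e.symm) (fun _ _ => (cont_comp_right _).continuousAt)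
    (fun v _ k => funext fun j => by simpa using congrFun k (e.symm j))
    ((Finset.nodup_toList _).map e.symm.injective) fun j => by simpa using ⟨e j, by simp⟩, oc_map,
    orient_eq]
  congr 2
  funext j v
  simp

theorem orient_sum {J₁ J₂ : Type} [Fintype J₁] [Fintype J₂] (e : J₁ ⊕ J₂ ≃ J) :
    orient J = cup univ {0}
      (pull (fun v : J → ℂ => v ∘ e ∘ Sum.inl) univ {v | v ∘ e ∘ Sum.inl = 0} (orient J₁))
      (pull (fun v : J → ℂ => v ∘ e ∘ Sum.inr) univ {v | v ∘ e ∘ Sum.inr = 0} (orient J₂)) := by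
  have c : ∀ {K : Type} (k : K → J) (j : K), ∀ v ∈ (univ : Set (J → ℂ)),
      ContinuousAt (fun v : J → ℂ => (v ∘ k) j) v := fun k j _ _ =>
    (continuous_apply (k j)).continuousAt
  have d : ∀ {K : Type} [Fintype K] (k : K → J),
      pull (fun v : J → ℂ => v ∘ k) univ {v | v ∘ k = 0} (orient K) =
        cls univ {v | v ∘ k = 0} (oc (fun j v => (v ∘ k) j) Finset.univ.toList) := fun k =>
    pull_orient (fun _ _ => (cont_comp_right _).continuousAt) (fun _ _ k => k)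
      (Finset.nodup_toList Finset.univ) (by simp)
  have cu : CupOK univ {v : J → ℂ | v ∘ e ∘ Sum.inl = 0} univ {v | v ∘ e ∘ Sum.inr = 0} univ {0} :=
    cupOK fun v _ a b => funext fun j => by
      obtain ⟨j | j, rfl⟩ := e.surjective j
      exacts [congrFun a j, congrFun b j]
  rw [d, d, cup_cls cu (oc_zc (c _) _ fun _ _ k => funext fun j => k j (by simp))
    (oc_zc (c _) _ fun _ _ k => funext fun j => k j (by simp)), ← pull_id (orient J),
    pull_orient (F := id) (U := univ) (Z := {0}) (L := Finset.univ.toList.map (e ∘ Sum.inl) ++ Finset.univ.toList.map (e ∘ Sum.inr))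
    (fun _ _ => continuousAt_id) (fun _ _ k => k) (List.nodup_append.2
      ⟨(Finset.nodup_toList _).map (e.injective.comp Sum.inl_injective),
        (Finset.nodup_toList _).map (e.injective.comp Sum.inr_injective), by simp⟩)
    (fun j => by obtain ⟨j | j, rfl⟩ := e.surjective j <;> simp), oc_append, oc_map, oc_map]
  rfl

theorem orient_end {M : (J → ℂ) →ₗ[ℂ] J → ℂ} (hM : Function.Injective M) :
    pull M univ {0} (orient J) = orient J := by
  have hc : {z : ℂ | z ≠ 0 ∧ Module.End.HasEigenvalue M ((z - 1) / z)}.Countable :=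
    ((Module.End.finite_hasEigenvalue M).image fun μ => 1 / (1 - μ)).countable.mono
      (by exact fun z k => ⟨_, k.2, by have := k.1; field_simp; ring⟩)
  obtain ⟨γ, hγ⟩ := (hc.isPathConnected_compl_of_one_lt_rank (by simp)).joinedIn 0 (by simp) 1 (by
    rintro ⟨-, k⟩
    obtain ⟨v, h1, h2⟩ := k.exists_hasEigenvector
    exact h2 (hM (by simpa using h1)))
  have cM := M.continuous_of_finiteDimensional
  rw [← pull_htpy' (f := id) (g := M) (U := univ) (U' := univ) (Z := {0}) (Z' := {0}) (F := fun z => (1 - γ.extend z.2) • z.1 + γ.extend z.2 • M z.1)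
    (.of_continuous (by fun_prop) _) (fun _ _ _ _ => trivial) (fun v _ t ht k => ?_) (by simp)
    (by simp), pull_id]
  by_contra hv
  have k' : (1 - γ.extend t) • v + γ.extend t • M v = 0 := k
  have h0 : γ.extend t ≠ 0 := fun e => hv (by simpa [e] using k')
  refine hγ ⟨t, ht⟩ ?_
  rw [← γ.extend_apply ht]
  refine ⟨h0, Module.End.hasEigenvalue_of_hasEigenvector (x := v)
    ⟨Module.End.mem_eigenspace_iff.2 ?_, hv⟩⟩
  refine smul_right_injective _ h0 ?_
  change γ.extend t • _ = γ.extend t • _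
  rw [smul_smul, mul_div_cancel₀ _ h0, eq_neg_of_add_eq_zero_right k', ← neg_smul, neg_sub]

/-- Complex linear isomorphisms preserve the orientation. -/
theorem orient_linear {M : (J → ℂ) → J' → ℂ} (h : IsLinearMap ℂ M) (hM : Function.Bijective M) :
    pull M univ {0} (orient J') = orient J := by
  have : Fintype.card J = Fintype.card J' := by
    simpa using (LinearEquiv.ofBijective (h.mk' M) hM).finrank_eq
  obtain ⟨e⟩ := Fintype.card_eq.1 this
  have cM : Continuous M := (h.mk' M).continuous_of_finiteDimensional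
  have o1 : Ok M univ {0} univ {0} := .of_mem (.of_continuous cM _) (fun _ _ => trivial)
    fun v _ k => hM.1 (k.trans h.map_zero.symm)
  have o3 : Ok (fun v : J' → ℂ => v ∘ e) univ {0} univ {0} :=
    .of_mem (.of_continuous (by fun_prop) _) (fun _ _ => trivial)
      fun v _ k => funext fun j => by simpa using congrFun k (e.symm j)
  rw [← orient_equiv e, pull_pull' (F := (LinearMap.funLeft ℂ ℂ e ∘ₗ h.mk' M :)) o1 o3
    fun _ _ => rfl]
  exact orient_end ((LinearMap.funLeft_injective_of_surjective ℂ ℂ e e.surjective).comp hM.1)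

end Orient

variable [RegularSpace X] [SecondCountableTopology X]

theorem oc_bij {w : J → X → ℂ} (hw : ∀ j, Continuous (w j)) {Φ : J → X × ℂ → X}
    (hΦ : ∀ j, Continuous (Φ j)) (e0 : ∀ j x, Φ j (x, 0) = x)
    (e1 : ∀ j x t, w j (Φ j (x, t)) = w j x + t) (e1' : ∀ i j x t, i ≠ j → w i (Φ j (x, t)) = w i x)
    (e2 : ∀ j, ∀ x ∈ U, ∀ t, Φ j (x, t) ∈ U) (L : List J) (hL : L.Nodup) :
    ∀ {Z Z₀ Z₁ : Set X}, Cl U Z → (∀ j ∈ L, ∀ x ∈ U, ∀ t, Φ j (x, t) ∈ Z → x ∈ Z) →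
      (∀ x ∈ U, x ∈ Z₁ ↔ ∀ j ∈ L, w j x = 0) → (∀ x ∈ U, x ∈ Z₀ ↔ x ∈ Z ∧ x ∈ Z₁) →
      Function.Bijective fun a : H U Z => cup U Z₀ a (cls U Z₁ (oc w L)) := by
  have hw' : ∀ j, ∀ x ∈ U, ContinuousAt (w j) x := fun j _ _ => (hw j).continuousAt
  induction L with
  | nil =>
    intro Z Z₀ Z₁ _ _ h1 h2
    have s : U ⊆ Z₁ := fun x k => (h1 x k).2 (by simp)
    convert res_bij_of_eq (U := U) (Z := Z) (Z₁ := Z₀) fun x k => by simp [h2 x k, s k] using 1
    exact funext fun a => cup_one s (cupOK fun x k a b => (h2 x k).2 ⟨a, b⟩)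
      (.id subset_rfl fun x k a => (h2 x k).2 ⟨a, s k⟩) a
  | cons j L ih =>
    intro Z Z₀ Z₁ hc h0 h1 h2
    have cre : Continuous fun x => (w j x).re := Complex.continuous_re.comp (hw j)
    have cim : Continuous fun x => (w j x).im := Complex.continuous_im.comp (hw j)
    have c1 : Cl U (Z ∩ {x | (w j x).re = 0}) :=
      hc.inter (.of_isClosed (isClosed_eq cre continuous_const) _)
    have b1 := jump_bij_flow (Z₁ := {x | (w j x).re = 0}) (Z₂ := Z ∩ {x | (w j x).re = 0}) cre hc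
      (fun _ _ k => k) (fun _ _ k => k) (fun _ _ => Iff.rfl) (Φ := fun z => Φ j (z.1, z.2))
      (by fun_prop) (by simp [e0]) (by simp [e1]) (fun x k t => e2 j x k _)
      fun x k t => h0 j (by simp) x k _
    have b2 := jump_bij_flow (Z₁ := {x | (w j x).im = 0}) (Z₂ := Z ∩ {x | w j x = 0}) cim c1
      (fun _ _ k => k) (fun _ _ k => k) (fun _ _ => by simp [Complex.ext_iff, and_assoc])
      (Φ := fun z => Φ j (z.1, z.2 * Complex.I)) (by fun_prop) (by simp [e0]) (by simp [e1])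
      (fun x k t => e2 j x k _) fun x k t e => ⟨h0 j (by simp) x k _ e.1, by simpa [e1] using e.2⟩
    have b3 := ih hL.of_cons (Z := Z ∩ {x | w j x = 0}) (Z₀ := Z₀) (Z₁ := {x | ∀ j ∈ L, w j x = 0})
      (hc.inter (.of_isClosed (isClosed_eq (hw j) continuous_const) _))
      (fun i hi x k t e => ⟨h0 i (by simp [hi]) x k _ e.1, by
        have := e.2
        rwa [mem_ofPred_eq, e1' j i x t fun a => hL.notMem (a ▸ hi)] at this⟩)
      (fun _ _ => Iff.rfl) fun x k => by simp [h2 x k, h1 x k, and_assoc]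
    convert b3.comp (b2.comp b1) using 1
    funext a
    obtain ⟨φ, m, rfl⟩ := exists_cls a
    have d1 := cupOK (U := U) (Z₁ := Z) (Z₂ := {x | (w j x).re = 0})
      (Z := Z ∩ {x | (w j x).re = 0}) fun _ _ a b => ⟨a, b⟩
    have d2 := cupOK (U := U) (Z₁ := Z ∩ {x | (w j x).re = 0}) (Z₂ := {x | (w j x).im = 0})
      (Z := Z ∩ {x | w j x = 0}) fun _ _ a b => ⟨a.1, Complex.ext a.2 b⟩
    have d3 := cupOK (U := U) (Z₁ := Z ∩ {x | w j x = 0}) (Z₂ := {x | ∀ j ∈ L, w j x = 0}) (Z := Z₀)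
      fun x k a b => (h2 x k).2 ⟨a.1, (h1 x k).2 (List.forall_mem_cons.2 ⟨a.2, b⟩)⟩
    have m1 := d1.zc m (jre_zc (hw' j))
    simp only [Function.comp_apply]
    rw [cup_cls d1 m (jre_zc (hw' j)), cup_cls d2 m1 (jim_zc (hw' j)),
      cup_cls (cupOK fun x k a b => (h2 x k).2 ⟨a, b⟩) m (oc_zc hw' _ fun x k => (h1 x k).2),
      cup_cls d3 (d2.zc m1 (jim_zc (hw' j))) (oc_zc hw' _ fun _ _ k => k), oc_cons, uc, cupc_assoc,
      cupc_assoc, cupc_assoc]

theorem lz_split (hA : ∀ x ∈ A, A ∈ 𝓝[B] x) (hB : ∀ x ∈ B, B ∈ 𝓝[A] x) (hφ : φ ∈ bd X)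
    (h : φ ∈ lz (A ∩ B)) : ∃ ψ ∈ bd X, ψ ∈ lz A ∧ φ - ψ ∈ lz B ∧ ∀ S, φ ∈ lz S → ψ ∈ lz S := by
  obtain ⟨O, O', o1, o2, k1, k2, k3⟩ := exists_sep (A := A \ nul φ) (B := B \ nul φ)
    (Set.disjoint_left.2 fun a h1 h2 => by
      obtain ⟨N, n1, n2⟩ := mem_nhdsWithin_iff_exists_mem_nhds_inter.1 (hB a h2.1)
      obtain ⟨b, b1, b2⟩ := mem_closure_iff_nhds.1 h1 N n1
      exact b2.2 (h b ⟨b2.1, n2 ⟨b1, b2.1⟩⟩))
    (Set.disjoint_left.2 fun a h1 h2 => by
      obtain ⟨N, n1, n2⟩ := mem_nhdsWithin_iff_exists_mem_nhds_inter.1 (hA a h1.1)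
      obtain ⟨b, b1, b2⟩ := mem_closure_iff_nhds.1 h2 N n1
      exact b2.2 (h b ⟨n2 ⟨b1, b2.1⟩, b2.1⟩))
  exact ⟨cut O' φ, cut_bd _ hφ, lz_cover (cut_lz O' (lz_nul φ))
    (cut_lz_of_disjoint o1 k1 k3.symm φ) fun _ a b => ⟨a, b⟩, lz_cover
    (sub_mem (lz_nul φ) (cut_lz O' (lz_nul φ))) (sub_cut_lz o2 k2 hφ.1) fun _ a b => ⟨a, b⟩,
    fun _ => cut_lz O'⟩

theorem nhdsWithin_diff {x : X} (h : A ∈ 𝓝[B] x) : A \ Z ∈ 𝓝[B \ Z] x :=
  mem_of_superset (inter_mem (nhdsWithin_mono _ sdiff_subset h) self_mem_nhdsWithin)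
    fun _ k => ⟨k.1, k.2.2⟩

/-- Mayer-Vietoris gluing. -/
theorem mv_glue {C D : Set X} (hA : ∀ x ∈ A, A ∈ 𝓝[B] x) (hB : ∀ x ∈ B, B ∈ 𝓝[A] x)
    (hC : C = A ∩ B) (hD : D = A ∪ B) (a : H A Z) (b : H B Z)
    (h : pull id C Z a = pull id C Z b) : ∃ c : H D Z, pull id A Z c = a ∧ pull id B Z c = b := by
  subst hC hD
  obtain ⟨φ, m, rfl⟩ := exists_cls a
  obtain ⟨ψ, m', rfl⟩ := exists_cls b
  have o1 : Ok id (A ∩ B) Z A Z := .id inter_subset_left fun _ _ k => k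
  have o2 : Ok id (A ∩ B) Z B Z := .id inter_subset_right fun _ _ k => k
  have o3 : Ok id A Z (A ∪ B) Z := .id subset_union_left fun _ _ k => k
  have o4 : Ok id B Z (A ∪ B) Z := .id subset_union_right fun _ _ k => k
  rw [res_cls o1 m, res_cls o2 m', cls_eq_cls (o1.zc_id m) (o2.zc_id m')] at h
  obtain ⟨χ, h1, h2, h3⟩ := h
  obtain ⟨η, k1, k2, k3, -⟩ := lz_split (A := A \ Z) (B := B \ Z)
    (fun x k => nhdsWithin_diff (hA x k.1)) (fun x k => nhdsWithin_diff (hB x k.1)) h1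
    (lz_anti (by exact fun x k => ⟨⟨k.1.1, k.2.1⟩, k.1.2⟩) h2)
  obtain ⟨α, r1, r2, r3, -⟩ := lz_split hA hB (sub_mem (sub_mem m.1.1 m'.1.1) (dl_bd h1)) h3
  have e : φ - dl η - α = ψ + dl (χ - η) + (φ - ψ - dl χ - α) := by rw [map_sub]; abel
  have mc : φ - dl η - α ∈ Zc (A ∪ B) Z := mem_Zc.2 ⟨sub_mem (sub_mem m.1.1 (dl_bd k1)) r1,
    lz_union (by simpa [dl_dl] using sub_mem m.1.2 (dl_lz r2)) (by
      rw [e, map_add, map_add, dl_dl, add_zero]; exact add_mem m'.1.2 (dl_lz r3)), by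
    rw [union_sdiff_distrib]
    exact lz_union (sub_mem (sub_mem m.2 (dl_lz k2)) (lz_anti sdiff_subset r2))
      (e ▸ add_mem (add_mem m'.2 (dl_lz k3)) (lz_anti sdiff_subset r3))⟩
  refine ⟨cls _ _ (φ - dl η - α), ?_, ?_⟩
  · rw [res_cls o3 mc, eq_comm, cls_eq_cls m (o3.zc_id mc)]
    exact ⟨η, k1, k2, by convert r2 using 1; abel⟩
  · rw [res_cls o4 mc, cls_eq_cls (o4.zc_id mc) m']
    exact ⟨χ - η, sub_mem h1 k1, k3, by rw [e]; convert r3 using 1; abel⟩

/-- Gluing over disjoint open sets. -/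
theorem disj_glue (hf : ContinuousOn f U) {W : ℕ → Set Y} (o : ∀ k, IsOpen (W k))
    (dj : Pairwise fun j k => Disjoint (W j) (W k)) {p : ℤ} (a : ∀ k, H (U ∩ f ⁻¹' W k) Z)
    (ha : ∀ k, IsDeg p (a k)) :
    ∃ c : H (U ∩ f ⁻¹' ⋃ k, W k) Z, ∀ k, pull id (U ∩ f ⁻¹' W k) Z c = a k := by
  choose φ m e d using ha
  obtain ⟨z, z1, -, z2⟩ := (loc_lz (B := ∅) (S := fun W => U ∩ f ⁻¹' W) hf (by simp)
    (by simp)).sum W o dj p φ fun k => ⟨(m k).1.1, Hom.msk_eq (d k) (mem_Iic.2 le_rfl), by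
      simpa using lz_empty _⟩
  have mk : ∀ k, z ∈ Zc (U ∩ f ⁻¹' W k) Z := fun k =>
    Zc_of_sub_lz (m k) z1 (by simpa using neg_mem (z2 k))
  have mz : z ∈ Zc (U ∩ f ⁻¹' ⋃ k, W k) Z := mem_Zc.2 ⟨z1, fun x hx => by
    obtain ⟨k, hk⟩ := mem_iUnion.1 hx.2
    exact (mk k).1.2 x ⟨hx.1, hk⟩, fun x hx => by
    obtain ⟨k, hk⟩ := mem_iUnion.1 hx.1.2
    exact (mk k).2 x ⟨⟨hx.1.1, hk⟩, hx.2⟩⟩
  exact ⟨cls _ _ z, fun k => by
    rw [res_cls (.id (inter_subset_inter_right _ (preimage_mono (subset_iUnion W k)))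
      fun _ _ k => k) mz, e, cls_eq_of_lz (mk k) (m k).1.1 (z2 k)]⟩

variable [RegularSpace Y] [SecondCountableTopology Y] [Fintype J]

theorem pull_fst_bij : Function.Bijective
    (pull Prod.fst (U' ×ˢ (univ : Set (J → ℂ))) (Z' ×ˢ univ) : H U' Z' → _) :=
  pull_bij_of_section (s := fun y => (y, 0)) (F := fun z => (z.1.1, z.2 • z.1.2))
    (.of_mem (.of_continuous continuous_fst _) (fun _ k => k.1) fun _ _ k => ⟨k, trivial⟩)
    (.of_mem (.of_continuous (by fun_prop) _) (fun _ k => ⟨k, trivial⟩) fun _ _ k => k.1)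
    (fun _ _ => rfl) (.of_continuous (by fun_prop) _) (fun _ k _ _ => ⟨k.1, trivial⟩)
    (fun _ _ _ _ k => ⟨k.1, trivial⟩) (by simp) (by simp)

/-- The Thom isomorphism of a trivial bundle. -/
theorem thom_triv (hc : Cl U' Z') : Function.Bijective fun a : H U' Z' =>
    cup (U' ×ˢ univ) (Z' ×ˢ {0}) (pull Prod.fst (U' ×ˢ univ) (Z' ×ˢ univ) a)
      (pull Prod.snd (U' ×ˢ univ) (univ ×ˢ {0}) (orient J)) := by
  classical
  rw [pull_orient (Z := univ ×ˢ {0}) (fun _ _ => continuousAt_snd) (fun _ _ k => ⟨trivial, k⟩)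
    (Finset.nodup_toList Finset.univ) (by simp)]
  refine (oc_bij (U := U' ×ˢ univ) (w := fun j (z : Y × (J → ℂ)) => z.2 j) (fun _ => by fun_prop)
    (Φ := fun j (z : (Y × (J → ℂ)) × ℂ) => (z.1.1, z.1.2 + (Pi.single j z.2 : J → ℂ)))
    (fun j => by
      exact continuous_fst.fst.prodMk (continuous_fst.snd.add
        ((continuous_single (A := fun _ : J => ℂ) j).comp continuous_snd))) (by simp) (by simp)
    (fun i j x t h => by simp [h]) (fun _ _ k _ => ⟨k.1, trivial⟩) _ (Finset.nodup_toList _)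
    (Z := Z' ×ˢ univ) ((hc.preimage continuousOn_fst fun _ k => k.1).congr (by simp))
    (fun _ _ _ _ _ k => ⟨k.1, trivial⟩) (by simp [funext_iff]) (by simp)).comp pull_fst_bij

theorem orient_ne_zero : orient J ≠ 0 := fun h => by
  have := (thom_triv (J := J) (Cl.univ ({()} : Set Unit))).1 (a₁ := cls _ _ onec) (a₂ := 0)
    (by simp [h])
  simpa [ev_one (mem_singleton ()) (subset_univ _)] using congrArg (ev ()) this

/-- A chart of a vector bundle `π : U → U'` with zero section `Z₀`. -/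
structure Chart (π : X → Y) (U Z₀ : Set X) (U' W : Set Y) (g : X → J → ℂ)
    (s : Y × (J → ℂ) → X) : Prop where
  op : IsOpen W
  extg : Ext g (U ∩ π ⁻¹' W)
  exts : Ext s ((U' ∩ W) ×ˢ univ)
  mem : ∀ y ∈ U' ∩ W, ∀ v, s (y, v) ∈ U
  fst : ∀ y ∈ U' ∩ W, ∀ v, π (s (y, v)) = y
  snd : ∀ y ∈ U' ∩ W, ∀ v, g (s (y, v)) = v
  inv : ∀ x ∈ U ∩ π ⁻¹' W, s (π x, g x) = x
  zero : ∀ x ∈ U ∩ π ⁻¹' W, x ∈ Z₀ ↔ g x = 0

variable {π : X → Y} {W W' : Set Y} {g : X → J → ℂ} {s : Y × (J → ℂ) → X}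

namespace Chart

theorem mono (h : Chart π U Z₀ U' W g s) (o : IsOpen W') (k : W' ⊆ W) : Chart π U Z₀ U' W' g s :=
  have a : U ∩ π ⁻¹' W' ⊆ U ∩ π ⁻¹' W := inter_subset_inter_right _ (preimage_mono k)
  have b : U' ∩ W' ⊆ U' ∩ W := inter_subset_inter_right _ k
  ⟨o, h.extg.mono a, h.exts.mono (prod_mono b subset_rfl), fun y e => h.mem y (b e),
    fun y e => h.fst y (b e), fun y e => h.snd y (b e), fun y e => h.inv y (a e),
    fun y e => h.zero y (a e)⟩

theorem restrict (h : Chart π U Z₀ U' W g s) (W' : Set Y) :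
    Chart π (U ∩ π ⁻¹' W') Z₀ (U' ∩ W') W g s :=
  have a : U ∩ π ⁻¹' W' ∩ π ⁻¹' W ⊆ U ∩ π ⁻¹' W := fun _ k => ⟨k.1.1, k.2⟩
  have b : U' ∩ W' ∩ W ⊆ U' ∩ W := fun _ k => ⟨k.1.1, k.2⟩
  ⟨h.op, h.extg.mono a, h.exts.mono (prod_mono b subset_rfl),
    fun y e v => ⟨h.mem y (b e) v, by rw [mem_preimage, h.fst y (b e)]; exact e.1.2⟩,
    fun y e => h.fst y (b e), fun y e => h.snd y (b e), fun y e => h.inv y (a e),
    fun y e => h.zero y (a e)⟩

theorem mem' (h : Chart π U Z₀ U' W g s) {y : Y} (hy : y ∈ U' ∩ W) (v : J → ℂ) :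
    s (y, v) ∈ U ∩ π ⁻¹' W := ⟨h.mem y hy v, by rw [mem_preimage, h.fst y hy]; exact hy.2⟩

theorem ok_fib (h : Chart π U Z₀ U' W g s) {y : Y} (hy : y ∈ U' ∩ W) {V : Set X}
    (hV : ∀ v, s (y, v) ∈ V) : Ok (fun v => s (y, v)) univ {0} V Z₀ :=
  .of_mem (h.exts.comp (f := fun v => (y, v)) (.of_continuous (by fun_prop) _)
    fun _ _ => ⟨hy, trivial⟩) (fun v _ => hV v)
    fun v _ k => (h.snd y hy v).symm.trans ((h.zero _ (h.mem' hy v)).1 k)

theorem ok_g (h : Chart π U Z₀ U' W g s) : Ok g (U ∩ π ⁻¹' W) Z₀ univ {0} :=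
  .of_mem h.extg (fun _ _ => trivial) fun x k e => (h.zero x k).2 e

theorem fib_g (h : Chart π U Z₀ U' W g s) {y : Y} (hy : y ∈ U' ∩ W) :
    pull (fun v => s (y, v)) univ {0} (pull g (U ∩ π ⁻¹' W) Z₀ (orient J)) = orient J := by
  rw [pull_pull' (F := id) (h.ok_fib hy (h.mem' hy)) h.ok_g fun v _ => h.snd y hy v, pull_id]

theorem bij (h : Chart π U Z₀ U' W g s) (hπ : Ext π U) (hm : MapsTo π U U') :
    Function.Bijective fun a : H (U' ∩ W) univ => cup (U ∩ π ⁻¹' W) Z₀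
      (pull π (U ∩ π ⁻¹' W) univ a) (pull g (U ∩ π ⁻¹' W) Z₀ (orient J)) := by
  have e := (hπ.mono inter_subset_left).prodMk h.extg
  have m : MapsTo (fun x => (π x, g x)) (U ∩ π ⁻¹' W) ((U' ∩ W) ×ˢ univ) :=
    fun x k => ⟨⟨hm k.1, k.2⟩, trivial⟩
  have o : Ok (fun x => (π x, g x)) (U ∩ π ⁻¹' W) Z₀ ((U' ∩ W) ×ˢ univ) (univ ×ˢ {0}) :=
    .of_mem e m fun x k a => (h.zero x k).2 a.2
  have o' : Ok (fun x => (π x, g x)) (U ∩ π ⁻¹' W) univ ((U' ∩ W) ×ˢ univ) (univ ×ˢ univ) :=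
    .of_mem e m fun x k a => trivial
  convert (pull_bij_of_inv o (.of_mem h.exts (fun z k => h.mem' k.1 z.2) fun z k a =>
    ⟨trivial, (h.snd _ k.1 _).symm.trans ((h.zero _ (h.mem' k.1 z.2)).1 a)⟩) h.inv
    fun z k => Prod.ext (h.fst _ k.1 _) (h.snd _ k.1 _)).comp (thom_triv (Cl.univ _)) using 1
  funext a
  rw [Function.comp_apply, pull_cup' o o' o (fun _ _ _ k => k) (cupOK fun _ _ _ k => k),
    pull_pull' (F := π) o' (.of_mem (.of_continuous continuous_fst _) (fun _ k => k.1)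
      fun _ _ _ => ⟨trivial, trivial⟩) fun _ _ => rfl,
    pull_pull' (F := g) o (.of_mem (.of_continuous continuous_snd _) (fun _ k => mem_univ _)
      fun _ _ k => ⟨trivial, k⟩) fun _ _ => rfl]

theorem fib_cup (h : Chart π U Z₀ U' W g s) (hπ : Ext π U) (hm : MapsTo π U U') {y : Y}
    (hy : y ∈ U' ∩ W) (a : H U' univ) (τ : H U Z₀) :
    pull (fun v => s (y, v)) univ {0} (cup U Z₀ (pull π U univ a) τ) =
      ev y a • pull (fun v => s (y, v)) univ {0} τ := by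
  have o := h.ok_fib hy (h.mem y hy)
  have o' : Ok (fun v => s (y, v)) univ univ U univ := .of_mem o.ext o.maps fun _ _ _ => trivial
  have o1 : Ok (fun _ : J → ℂ => y) univ univ {y} univ :=
    .of_mem (.of_continuous continuous_const _) (fun _ _ => rfl) fun _ _ _ => trivial
  have o2 : Ok id {y} univ U' univ := .id (singleton_subset_iff.2 hy.1) fun _ _ _ => trivial
  rw [pull_cup' o o' o (fun _ _ _ k => k) (cupOK fun _ _ _ k => k),
    pull_pull' (F := fun _ => y) o' (.of_mem hπ hm fun _ _ _ => trivial) fun v _ => h.fst y hy v,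
    ← pull_pull' (F := fun _ => y) o1 o2 fun _ _ => rfl, pt_eq (mem_univ y) (pull id {y} univ a), map_smul,
    pull_one o1 (subset_univ _), map_smul, LinearMap.smul_apply, one_cup' (subset_univ _),
    ev_pull o2 rfl]
  rfl

end Chart

theorem isDeg_of_cup {k p : ℤ} {τ : H U Z₀} (hτ : IsDeg k τ)
    (h : Function.Injective fun a : H U' Z' => cup U Z (pull f U Z₁ a) τ) {a : H U' Z'}
    (ha : IsDeg (p + k) (cup U Z (pull f U Z₁ a) τ)) : IsDeg p a :=
  isDeg_iff.2 (h (by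
    change cup U Z (pull f U Z₁ (prj {p} a)) τ = cup U Z (pull f U Z₁ a) τ
    rw [pull_prj, cup_prj_left (t := {p + k}) (by simp) _ hτ, isDeg_iff.1 ha]))

/-- A class of top degree that vanishes on all fibres vanishes. -/
theorem eq_zero_of_fib (hπ : Ext π U) (hm : MapsTo π U U') {τ : H U Z₀} {k : ℤ} (hτ : IsDeg k τ)
    (hb : Function.Bijective fun a : H U' univ => cup U Z₀ (pull π U univ a) τ) {c : H U Z₀}
    (hc : IsDeg k c) (h : ∀ y ∈ U', ∃ (W : Set Y) (g : X → J → ℂ) (s : Y × (J → ℂ) → X), y ∈ W ∧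
      Chart π U Z₀ U' W g s ∧ pull (fun v => s (y, v)) univ {0} τ = orient J ∧
        pull (fun v => s (y, v)) univ {0} c = 0) : c = 0 := by
  obtain ⟨a, rfl⟩ := hb.2 c
  have : a = 0 := (isDeg_of_cup hτ hb.1 (by rwa [zero_add])).eq_zero_of_ev fun y hy => by
    obtain ⟨W, g, s, h1, h2, h3, h4⟩ := h y hy
    rw [h2.fib_cup hπ hm ⟨hy, h1⟩, h3] at h4
    exact (smul_eq_zero.1 h4).resolve_right orient_ne_zero
  simp [this]

theorem Chart.res_eq (h : Chart π U Z₀ U' W g s) (hπ : Ext π U) (hm : MapsTo π U U') {τ : H U Z₀}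
    (hτ : IsDeg (2 * Fintype.card J) τ)
    (k : ∀ y ∈ U' ∩ W, pull (fun v => s (y, v)) univ {0} τ = orient J) :
    pull id (U ∩ π ⁻¹' W) Z₀ τ = pull g (U ∩ π ⁻¹' W) Z₀ (orient J) := by
  refine sub_eq_zero.1 (eq_zero_of_fib (U' := U' ∩ W) (hπ.mono inter_subset_left)
    (fun x k => ⟨hm k.1, k.2⟩)
    (isDeg_orient.pull _ _ _) (h.bij hπ hm) ((hτ.pull _ _ _).sub (isDeg_orient.pull _ _ _))
    fun y hy => ⟨W, g, s, hy.2, h.restrict W, h.fib_g hy, ?_⟩)
  rw [map_sub, h.fib_g hy, pull_pull' (F := fun v => s (y, v)) (h.ok_fib hy (h.mem' hy))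
    (.id inter_subset_left fun _ _ k => k) fun _ _ => rfl, k y hy, sub_self]

/-- The Thom isomorphism. -/
theorem thom_iso (hπ : Ext π U) (hm : MapsTo π U U') (hc' : Cl U' Z') (hc : Cl U Z₀)
    (h1 : ∀ x ∈ U, x ∈ Z₁ ↔ π x ∈ Z') (h2 : ∀ x ∈ U, x ∈ Z ↔ π x ∈ Z' ∧ x ∈ Z₀) {τ : H U Z₀}
    (hτ : IsDeg (2 * Fintype.card J) τ)
    (h : ∀ y ∈ U', ∃ (W : Set Y) (g : X → J → ℂ) (s : Y × (J → ℂ) → X), y ∈ W ∧
      Chart π U Z₀ U' W g s ∧ ∀ y ∈ U' ∩ W, pull (fun v => s (y, v)) univ {0} τ = orient J) :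
    Function.Bijective fun a : H U' Z' => cup U Z (pull π U Z₁ a) τ := by
  refine cup_bij_local hπ hm hc' hc h1 h2 hτ fun y hy => ?_
  obtain ⟨W, g, s, k1, k2, k3⟩ := h y hy
  refine ⟨W, k2.op, k1, fun W' o k => ?_⟩
  convert (k2.mono o k).bij hπ hm using 1
  funext a
  rw [← (k2.mono o k).res_eq hπ hm hτ fun y e => k3 y ⟨e.1, k e.2⟩,
    cup_res_right (.id inter_subset_left fun _ _ k => k) (cupOK fun _ _ _ k => k)]

/-- Existence of Thom classes. -/
theorem exists_thom {I : Type} {W : I → Set Y} {g : I → X → J → ℂ} {s : I → Y × (J → ℂ) → X}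
    (hπ : Ext π U) (hm : MapsTo π U U') (hc : Cl U Z₀) (h : ∀ i, Chart π U Z₀ U' (W i) (g i) (s i))
    (cov : ∀ y ∈ U', ∃ i, y ∈ W i)
    (lin : ∀ i j, ∀ y ∈ U' ∩ W i, y ∈ W j → IsLinearMap ℂ fun v => g j (s i (y, v))) :
    ∃ τ : H U Z₀, IsDeg (2 * Fintype.card J) τ ∧
      ∀ i, ∀ y ∈ U' ∩ W i, pull (fun v => s i (y, v)) univ {0} τ = orient J := by
  have hπ' := hπ.continuousOn
  have res : ∀ (V : Set Y) (V' : Set X), U ∩ π ⁻¹' V ⊆ V' → ∀ (τ : H V' Z₀) i,
      ∀ y ∈ U' ∩ W i, y ∈ V → pull (fun v => s i (y, v)) univ {0} (pull id (U ∩ π ⁻¹' V) Z₀ τ) =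
        pull (fun v => s i (y, v)) univ {0} τ := fun V V' k τ i y hy e =>
    pull_pull' ((h i).ok_fib (V := U ∩ π ⁻¹' V) hy fun v =>
      ⟨(h i).mem y hy v, by rwa [mem_preimage, (h i).fst y hy]⟩)
      (.id k fun _ _ k => k) (fun _ _ => rfl) τ
  have sub : ∀ {V V' : Set Y}, V ⊆ V' → U ∩ π ⁻¹' V ⊆ U ∩ π ⁻¹' V' := fun k =>
    inter_subset_inter_right _ (preimage_mono k)
  have nh : ∀ {V : Set Y} (V' : Set Y), IsOpen V → ∀ x ∈ U ∩ π ⁻¹' V,
      U ∩ π ⁻¹' V ∈ 𝓝[U ∩ π ⁻¹' V'] x := fun V' o x k => nhdsWithin_mono _ inter_subset_left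
    (inter_mem self_mem_nhdsWithin (hπ' x k.1 (o.mem_nhds k.2)))
  obtain ⟨V, -, v1, τ, t1, t2⟩ := cover_ind (fun V => ∃ τ : H (U ∩ π ⁻¹' V) Z₀,
    IsDeg (2 * Fintype.card J) τ ∧
      ∀ i, ∀ y ∈ U' ∩ W i, y ∈ V → pull (fun v => s i (y, v)) univ {0} τ = orient J) U'
    ⟨0, .zero _, fun _ _ _ k => k.elim⟩
    (fun V V' _ _ k ⟨τ, t1, t2⟩ => ⟨_, t1.pull id _ _, fun i y hy e => by
      rw [res V' _ (sub k) τ i y hy e, t2 i y hy (k e)]⟩)
    (fun V V' o o' ⟨τ, t1, t2⟩ ⟨τ', t1', t2'⟩ => by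
      have hπ1 := hπ.mono (inter_subset_left (t := π ⁻¹' (V ∩ V')))
      have hm1 : MapsTo π (U ∩ π ⁻¹' (V ∩ V')) (U' ∩ (V ∩ V')) := fun x k => ⟨hm k.1, k.2⟩
      have d := t1.pull id (U ∩ π ⁻¹' (V ∩ V')) Z₀
      obtain ⟨c, c1, c2⟩ := mv_glue (C := U ∩ π ⁻¹' (V ∩ V')) (D := U ∩ π ⁻¹' (V ∪ V')) (nh V' o)
        (nh V o') (by rw [preimage_inter, inter_inter_distrib_left])
        (by rw [preimage_union, inter_union_distrib_left]) τ τ' (sub_eq_zero.1 (eq_zero_of_fib hπ1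
          hm1 d (thom_iso hπ1 hm1 (.univ _) (hc.mono inter_subset_left) (by simp) (by simp) d
            fun y hy => by
              obtain ⟨i, hi⟩ := cov y hy.1
              exact ⟨_, _, _, hi, (h i).restrict _, fun y e => by
                rw [res _ _ (sub inter_subset_left) τ i y ⟨e.1.1, e.2⟩ e.1.2,
                  t2 i y ⟨e.1.1, e.2⟩ e.1.2.1]⟩) (d.sub (t1'.pull _ _ _)) fun y hy => by
          obtain ⟨i, hi⟩ := cov y hy.1
          have a := (res _ _ (sub inter_subset_left) τ i y ⟨hy.1, hi⟩ hy.2).trans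
            (t2 i y ⟨hy.1, hi⟩ hy.2.1)
          exact ⟨_, _, _, hi, (h i).restrict _, a, by
            rw [map_sub, a, res _ _ (sub inter_subset_right) τ' i y ⟨hy.1, hi⟩ hy.2,
              t2' i y ⟨hy.1, hi⟩ hy.2.2, sub_self]⟩))
      refine ⟨_, isDeg_prj _ c, fun i y hy e => ?_⟩
      rw [pull_prj, ← isDeg_iff.1 isDeg_orient]
      congr 1
      rcases e with e | e
      · rw [← res V _ (sub subset_union_left) c i y hy e, c1, t2 i y hy e]
      · rw [← res V' _ (sub subset_union_right) c i y hy e, c2, t2' i y hy e])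
    (fun V o dj hV => by
      choose τ t1 t2 using hV
      obtain ⟨c, c1⟩ := disj_glue hπ' o dj τ t1
      refine ⟨_, isDeg_prj _ c, fun i y hy e => ?_⟩
      obtain ⟨k, e⟩ := mem_iUnion.1 e
      rw [pull_prj, ← isDeg_iff.1 isDeg_orient, ← res (V k) _ (sub (subset_iUnion V k)) c i y hy e,
        c1, t2 k i y hy e])
    (fun y hy => by
      obtain ⟨j, hj⟩ := cov y hy
      refine ⟨W j, (h j).op, hj, _, isDeg_orient.pull (g j) _ _, fun i y hy e => ?_⟩
      have a : ∀ v, s i (y, v) ∈ U ∩ π ⁻¹' W j := fun v =>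
        ⟨(h i).mem y hy v, by rwa [mem_preimage, (h i).fst y hy]⟩
      rw [pull_pull ((h i).ok_fib hy a) (h j).ok_g]
      refine orient_linear (lin i j y hy e) (Function.bijective_iff_has_inverse.2
        ⟨fun v => g i (s j (y, v)), fun v => ?_, fun v => ?_⟩)
      · have := (h j).inv _ (a v)
        rw [(h i).fst y hy] at this
        simp only [Function.comp_apply, this, (h i).snd y hy]
      · have := (h i).inv (s j (y, v)) ⟨(h j).mem y ⟨hy.1, e⟩ v, by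
          rw [mem_preimage, (h j).fst y ⟨hy.1, e⟩]; exact hy.2⟩
        rw [(h j).fst y ⟨hy.1, e⟩] at this
        simp only [Function.comp_apply, this, (h j).snd y ⟨hy.1, e⟩])
  refine ⟨pull id U Z₀ τ, t1.pull _ _ _, fun i y hy => ?_⟩
  rw [pull_pull' (F := fun v => s i (y, v)) ((h i).ok_fib hy ((h i).mem y hy))
    (.id (subset_inter subset_rfl fun x k => v1 (hm k)) fun _ _ k => k) fun _ _ => rfl,
    t2 i y hy (v1 hy.1)]

end Pool.Agent.Work.MP_849ab0_ag.G
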