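import Pool.Agent.Work.MP_849ab0_ag.G.FHtpy
import Pool.Agent.Work.MP_849ab0_ag.G.ApiI
import Pool.Agent.Work.MP_849ab0_ag.G.FMil
import Mathlib

-- merged part: Pool.Agent.Work.MP_849ab0_ag.G.GrpIf
section
/-! Homotopy invariance in the form used for the Borel construction. -/

noncomputable section

namespace Pool.Agent.Work.MP_849ab0_ag.G

open Set Topology

variable {X Y : Type} [TopologicalSpace X] [TopologicalSpace Y]

theorem pull_hty [T3Space X] [SecondCountableTopology X] {U Z : Set X} {U' Z' : Set Y}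
    {F : X × ℝ → Y} (hU : IsLocallyClosed U) (_hZ : U ∩ closure (U ∩ Z) ⊆ Z)
    (hF : ContinuousOn F (U ×ˢ Icc 0 1)) (h1 : ∀ x ∈ U, ∀ t ∈ Icc (0 : ℝ) 1, F (x, t) ∈ U')
    (h2 : ∀ x ∈ U, ∀ t ∈ Icc (0 : ℝ) 1, F (x, t) ∈ Z' → x ∈ Z) :
    (pull (fun x => F (x, 0)) U Z : H U' Z' →ₗ[ℂ] H U Z) = pull (fun x => F (x, 1)) U Z :=
  pull_htpy' (ext_htpy hU hF) h1 h2 (fun _ _ => rfl) fun _ _ => rfl

end Pool.Agent.Work.MP_849ab0_ag.G
end
end

-- merged part: Pool.Agent.Work.MP_849ab0_ag.G.GrpGp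
section
/-! The pull-back `gp` does not depend on the choice of the equivariant map `EG' → EG`. -/

noncomputable section

set_option linter.unusedSectionVars false
set_option linter.unusedVariables false

namespace Pool.Agent.Work.MP_849ab0_ag.G

open Set Topology Matrix Filter

section Join

variable {ι : Type} [Fintype ι]

/-- A straight line of matrices. -/
def lineM (s s' : (ℕ → ℂ) → ℕ → ℂ) (a b : Matrix ι ℕ ℂ) (t : ℝ) : Matrix ι ℕ ℂ :=
  Matrix.of fun i n => (1 - t : ℂ) * s (a i) n + t * s' (b i) n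

theorem cont_lineM {s s' : (ℕ → ℂ) → ℕ → ℂ} (hs : Continuous s) (hs' : Continuous s')
    {T : Type} [TopologicalSpace T] {a b : T → Fm ι} {t : T → ℝ} (ha : Continuous a)
    (hb : Continuous b) (ht : Continuous t) :
    Continuous fun z => lineM s s' (a z).1 (b z).1 (t z) := by
  refine continuous_matrix fun i n => ?_
  have h1 : Continuous fun z => (t z : ℂ) := Complex.continuous_ofReal.comp ht
  have h2 : Continuous fun e : Fm ι => e.1 i := (continuous_apply i).comp Fm.cont_val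
  exact ((continuous_const.sub h1).mul ((continuous_apply n).comp (hs.comp (h2.comp ha)))).add
    (h1.mul ((continuous_apply n).comp (hs'.comp (h2.comp hb))))

theorem lineM_mul {s s' : (ℕ → ℂ) → ℕ → ℂ}
    (hs : ∀ (x : ι → ℂ) (a : ι → ℕ → ℂ) n, s (fun m => ∑ i, x i * a i m) n = ∑ i, x i * s (a i) n)
    (hs' : ∀ (x : ι → ℂ) (a : ι → ℕ → ℂ) n,
      s' (fun m => ∑ i, x i * a i m) n = ∑ i, x i * s' (a i) n)
    (u : Matrix ι ι ℂ) (a b : Matrix ι ℕ ℂ) (t : ℝ) :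
    lineM s s' (u * a) (u * b) t = u * lineM s s' a b t := by
  refine Matrix.ext fun i n => ?_
  change (1 - t : ℂ) * s (fun m => ∑ j, u i j * a j m) n + t * s' (fun m => ∑ j, u i j * b j m) n =
      ∑ j, u i j * ((1 - t : ℂ) * s (a j) n + t * s' (b j) n)
  rw [hs, hs', Finset.mul_sum, Finset.mul_sum, ← Finset.sum_add_distrib]
  exact Finset.sum_congr rfl fun j _ => by ring

/-- Any two frames are joined by a path, continuously and equivariantly. -/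
theorem exists_join (G : Gp) [G.Nice] : ∃ J : Fm G.ι × Fm G.ι × ℝ → Fm G.ι, Continuous J ∧
    (∀ a b, J (a, b, 0) = a) ∧ (∀ a b, J (a, b, 1) = b) ∧
      ∀ g a b t, J (G.fm.act g a, G.fm.act g b, t) = G.fm.act g (J (a, b, t)) := by
  let l1 : Fm G.ι × Fm G.ι × ℝ → Fm G.ι := fun z =>
    ⟨lineM id shE z.1.1 z.1.1 (3 * z.2.2), li_shE z.1.2 _⟩
  let l2 : Fm G.ι × Fm G.ι × ℝ → Fm G.ι := fun z =>
    ⟨lineM shE shO z.1.1 z.2.1.1 (3 * z.2.2 - 1), li_shEO z.1.2 z.2.1.2 _⟩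
  let l3 : Fm G.ι × Fm G.ι × ℝ → Fm G.ι := fun z =>
    ⟨lineM id shO z.2.1.1 z.2.1.1 (3 - 3 * z.2.2), li_shO z.2.1.2 _⟩
  have c1 : Continuous l1 := Fm.cont_iff.2 (cont_lineM continuous_id cont_shE continuous_fst
    continuous_fst (by fun_prop))
  have c2 : Continuous l2 := Fm.cont_iff.2 (cont_lineM cont_shE cont_shO continuous_fst
    continuous_snd.fst (by fun_prop))
  have c3 : Continuous l3 := Fm.cont_iff.2 (cont_lineM continuous_id cont_shO continuous_snd.fst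
    continuous_snd.fst (by fun_prop))
  refine ⟨fun z => if 3 * z.2.2 ≤ 1 then l1 z else if 3 * z.2.2 ≤ 2 then l2 z else l3 z, ?_, ?_, ?_,
    ?_⟩
  · refine c1.if_le (c2.if_le c3 (by fun_prop) continuous_const fun z hz => ?_) (by fun_prop)
      continuous_const fun z hz => ?_
    · refine Subtype.ext (Matrix.ext fun i n => ?_)
      simp only [l2, l3, lineM, hz, Matrix.of_apply]
      norm_num
    · rw [if_pos (by rw [hz]; norm_num)]
      refine Subtype.ext (Matrix.ext fun i n => ?_)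
      simp [l1, l2, lineM, hz]
  · intro a b
    exact (if_pos (by norm_num)).trans (Subtype.ext (Matrix.ext fun i n => by simp [l1, lineM]))
  · intro a b
    exact (if_neg (by norm_num)).trans ((if_neg (by norm_num)).trans
      (Subtype.ext (Matrix.ext fun i n => by simp [l3, lineM])))
  · intro g a b t
    dsimp only
    split_ifs
    · exact Subtype.ext (lineM_mul (fun _ _ _ => rfl) sum_shE _ _ _ _)
    · exact Subtype.ext (lineM_mul sum_shE sum_shO _ _ _ _)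
    · exact Subtype.ext (lineM_mul (fun _ _ _ => rfl) sum_shO _ _ _ _)

end Join

section OQ

variable {P Q R : Type} [TopologicalSpace P] [TopologicalSpace Q] [TopologicalSpace R]

/-- `q` restricts to an open quotient map `V → U`. -/
structure OQ (q : P → Q) (V : Set P) (U : Set Q) : Prop where
  maps : MapsTo q V U
  surj : SurjOn q V U
  nhds : ∀ p ∈ V, map q (𝓝[V] p) = 𝓝[U] (q p)

namespace OQ

variable {q : P → Q} {V : Set P} {U : Set Q}

theorem contOn (h : OQ q V U) : ContinuousOn q V := fun p hp =>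
  (h.nhds p hp).le.trans nhdsWithin_le_nhds

theorem contOn_iff (h : OQ q V U) {f : Q → R} : ContinuousOn f U ↔ ContinuousOn (f ∘ q) V := by
  refine ⟨fun k => k.comp h.contOn h.maps, fun k b hb => ?_⟩
  obtain ⟨p, hp, rfl⟩ := h.surj hb
  rw [ContinuousWithinAt, ← h.nhds p hp, tendsto_map'_iff]
  exact k p hp

theorem refl (V : Set P) : OQ id V V := ⟨mapsTo_id _, surjOn_id _, fun _ _ => map_id⟩

theorem comp {q' : Q → R} {W : Set R} (h' : OQ q' U W) (h : OQ q V U) : OQ (q' ∘ q) V W :=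
  ⟨h'.maps.comp h.maps, h'.surj.comp h.surj, fun p hp => by
    rw [← Filter.map_map, h.nhds p hp, h'.nhds _ (h.maps hp)]; rfl⟩

/-- cancel a quotient map on the right -/
theorem of_comp {q' : Q → R} {W : Set R} (h : OQ q V U) (h' : OQ (q' ∘ q) V W) : OQ q' U W :=
  ⟨fun b hb => by obtain ⟨p, hp, rfl⟩ := h.surj hb; exact h'.maps hp,
    fun c hc => by obtain ⟨p, hp, rfl⟩ := h'.surj hc; exact ⟨_, h.maps hp, rfl⟩, fun b hb => by
    obtain ⟨p, hp, rfl⟩ := h.surj hb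
    rw [← h.nhds p hp, Filter.map_map, h'.nhds p hp]; rfl⟩

theorem congr {q' : P → Q} (h : OQ q V U) (e : EqOn q q' V) : OQ q' V U :=
  ⟨h.maps.congr e, h.surj.congr e, fun p hp => by
    rw [← e hp, ← h.nhds p hp]
    exact map_congr (eventually_nhdsWithin_of_forall fun x hx => (e hx).symm)⟩

theorem prodMap {P' Q' : Type} [TopologicalSpace P'] [TopologicalSpace Q'] {q' : P' → Q'}
    {V' : Set P'} {U' : Set Q'} (h : OQ q V U) (h' : OQ q' V' U') :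
    OQ (Prod.map q q') (V ×ˢ V') (U ×ˢ U') :=
  ⟨h.maps.prodMap h'.maps, h.surj.prodMap h'.surj, fun p hp => by
    obtain ⟨a, b⟩ := p
    rw [nhdsWithin_prod_eq, ← Filter.prod_map_map_eq', h.nhds a hp.1, h'.nhds b hp.2,
      Prod.map_apply, nhdsWithin_prod_eq]⟩

theorem of_isOpenQuotientMap (h : IsOpenQuotientMap q) (U : Set Q) : OQ q (q ⁻¹' U) U :=
  ⟨fun _ k => k, fun b hb => by obtain ⟨p, rfl⟩ := h.surjective b; exact ⟨p, hb, rfl⟩,
    fun p hp => by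
      rw [nhdsWithin, Filter.map_inf_principal_preimage, h.map_nhds_eq, nhdsWithin]⟩

/-- a homeomorphism of subsets -/
theorem of_inv {s : Q → P} (hq : ContinuousOn q V) (hs : ContinuousOn s U) (m : MapsTo q V U)
    (m' : MapsTo s U V) (e : ∀ p ∈ V, s (q p) = p) (e' : ∀ b ∈ U, q (s b) = b) : OQ q V U :=
  ⟨m, fun b hb => ⟨_, m' hb, e' b hb⟩, fun p hp => by
    refine le_antisymm ((hq p hp).tendsto_nhdsWithin m) ?_
    have h1 : Tendsto s (𝓝[U] q p) (𝓝[V] p) := by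
      have := (hs _ (m hp)).tendsto_nhdsWithin m'
      rwa [e p hp] at this
    refine le_trans ?_ (Filter.map_mono h1)
    rw [Filter.map_map]
    exact (map_congr (eventually_nhdsWithin_of_forall fun x hx => e' x hx)).ge⟩

theorem snd [Nonempty P] (U : Set Q) : OQ (Prod.snd : P × Q → Q) (univ ×ˢ U) U := by
  have := of_isOpenQuotientMap (isOpenQuotientMap_snd (X := P) (Y := Q)) U
  rwa [← Set.univ_prod] at this

/-- restriction to a saturated subset -/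
theorem restrict (h : OQ q V U) {U' : Set Q} (k : U' ⊆ U) : OQ q (V ∩ q ⁻¹' U') U' :=
  ⟨fun _ hp => hp.2, fun b hb => by
    obtain ⟨p, hp, rfl⟩ := h.surj (k hb); exact ⟨p, ⟨hp, hb⟩, rfl⟩, fun p hp => by
    rw [nhdsWithin_inter', Filter.map_inf_principal_preimage, h.nhds p hp.1, ← nhdsWithin_inter',
      inter_eq_right.2 k]⟩

end OQ

/-- Homotopies are constructed upstairs. -/
theorem pull_hty_oq [T3Space Q] [SecondCountableTopology Q] {q : P → Q} {V : Set P} {U Z : Set Q}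
    (h : OQ q V U) (hU : IsLocallyClosed U) (hZ : U ∩ closure (U ∩ Z) ⊆ Z) {U' Z' : Set R}
    {F : P × ℝ → R} (hF : ContinuousOn F (V ×ˢ Icc 0 1))
    (hq : ∀ p ∈ V, ∀ p' ∈ V, q p = q p' → ∀ t ∈ Icc (0 : ℝ) 1, F (p, t) = F (p', t))
    (h1 : ∀ p ∈ V, ∀ t ∈ Icc (0 : ℝ) 1, F (p, t) ∈ U')
    (h2 : ∀ p ∈ V, ∀ t ∈ Icc (0 : ℝ) 1, F (p, t) ∈ Z' → q p ∈ Z) {F0 F1 : Q → R}
    (e0 : ∀ p ∈ V, F0 (q p) = F (p, 0)) (e1 : ∀ p ∈ V, F1 (q p) = F (p, 1)) :
    (pull F0 U Z : H U' Z' →ₗ[ℂ] H U Z) = pull F1 U Z := by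
  classical
  let K : Q × ℝ → R := fun z => if k : z.1 ∈ U then F ((h.surj k).choose, z.2) else F0 z.1
  have hK : ∀ p ∈ V, ∀ t ∈ Icc (0 : ℝ) 1, K (q p, t) = F (p, t) := fun p hp t ht =>
    (dif_pos (h.maps hp)).trans
      (hq _ (h.surj (h.maps hp)).choose_spec.1 p hp (h.surj (h.maps hp)).choose_spec.2 t ht)
  have := pull_hty (F := K) (U' := U') (Z' := Z') hU hZ
    ((h.prodMap (.refl (Icc (0 : ℝ) 1))).contOn_iff.2 (hF.congr fun z hz => hK _ hz.1 _ hz.2))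
    (fun b hb t ht => by obtain ⟨p, hp, rfl⟩ := h.surj hb; rw [hK p hp t ht]; exact h1 p hp t ht)
    (fun b hb t ht => by obtain ⟨p, hp, rfl⟩ := h.surj hb; rw [hK p hp t ht]; exact h2 p hp t ht)
  refine (pull_congr fun b hb => ?_).trans (this.trans (pull_congr fun b hb => ?_))
  · obtain ⟨p, hp, rfl⟩ := h.surj hb
    rw [e0 p hp, hK p hp 0 (by simp)]
  · obtain ⟨p, hp, rfl⟩ := h.surj hb
    rw [e1 p hp]; exact hK p hp 1 (by simp)

end OQ

variable {G G' G'' : Gp} [G.Nice] [G'.Nice] [G''.Nice] {X X' X'' : Type}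
variable [TopologicalSpace X] [TopologicalSpace X'] [TopologicalSpace X'']
variable {a : Act G X} {a' : Act G' X'} {a'' : Act G'' X''} [a.Ok] [a'.Ok] [a''.Ok]
variable {U Z : Set X} {U' Z' : Set X'} {U'' Z'' : Set X''}

theorem Act.Pr.bs_lc (h : a.Pr U Z) : IsLocallyClosed (a.bs U) := Act.isLocallyClosed_bs h.inv h.lc

theorem Act.Inv.closure {S : Set X} (h : a.Inv S) : a.Inv (closure S) := fun g x hx =>
  map_mem_closure (a.cont_act continuous_const continuous_id) hx (h g)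

theorem Act.Pr.bs_cl (h : a.Pr U Z) : a.bs U ∩ closure (a.bs U ∩ a.bs Z) ⊆ a.bs Z := by
  rintro p ⟨h1, h2⟩
  obtain ⟨e, x, rfl⟩ := a.bmk_surj p
  rw [← h.bs_inter] at h2
  have h3 := closure_minimal (Act.bs_mono (a := a) subset_closure)
    (Act.isClosed_bs h.inv_inter.closure isClosed_closure) h2
  rw [Act.mem_bs h.inv] at h1
  exact (h.mem_bs h1).2 (h.cl ⟨h1, (Act.mem_bs h.inv_inter.closure).1 h3⟩)

theorem Act.oq_bq (h : a.Inv U) : OQ a.bq (univ ×ˢ U) (a.bs U) := by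
  have := OQ.of_isOpenQuotientMap a.isOrbQ.isOpenQuotientMap (a.bs U)
  rwa [Act.bq_preimage h] at this

/-- Two lifts to `EG` with the same cocycle give the same pull-back. -/
theorem pull_eq_of_lift {P Q : Type} [TopologicalSpace P] [TopologicalSpace Q] [T3Space Q]
    [SecondCountableTopology Q] {q : P → Q} {V : Set P} {A B : Set Q} (h : OQ q V A)
    (hA : IsLocallyClosed A) (hB : A ∩ closure (A ∩ B) ⊆ B) (hp : a.Pr U Z)
    {g0 g1 : P → Fm G.ι} {f : P × ℝ → X} (c0 : ContinuousOn g0 V) (c1 : ContinuousOn g1 V)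
    (cf : ContinuousOn f (V ×ˢ Icc 0 1))
    (hq : ∀ p ∈ V, ∀ p' ∈ V, q p = q p' → ∃ γ, g0 p' = G.fm.act γ (g0 p) ∧
      g1 p' = G.fm.act γ (g1 p) ∧ ∀ t ∈ Icc (0 : ℝ) 1, f (p', t) = a.act γ (f (p, t)))
    (h1 : ∀ p ∈ V, ∀ t ∈ Icc (0 : ℝ) 1, f (p, t) ∈ U)
    (h2 : ∀ p ∈ V, ∀ t ∈ Icc (0 : ℝ) 1, f (p, t) ∈ Z → q p ∈ B) {F0 F1 : Q → a.Bor}
    (e0 : ∀ p ∈ V, F0 (q p) = a.bmk (g0 p) (f (p, 0)))
    (e1 : ∀ p ∈ V, F1 (q p) = a.bmk (g1 p) (f (p, 1))) :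
    (pull F0 A B : EH a U Z →ₗ[ℂ] H A B) = pull F1 A B := by
  obtain ⟨J, j1, j2, j3, j4⟩ := exists_join G
  refine pull_hty_oq h hA hB (F := fun z => a.bmk (J (g0 z.1, g1 z.1, z.2)) (f z))
    (a.contOn_bmk (j1.comp_continuousOn ((c0.comp continuousOn_fst fun _ k => k.1).prodMk
      ((c1.comp continuousOn_fst fun _ k => k.1).prodMk continuousOn_snd))) cf) ?_ ?_ ?_ ?_ ?_
  · intro p k p' k' e t ht
    obtain ⟨γ, r0, r1, r2⟩ := hq p k p' k' e
    dsimp only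
    rw [r0, r1, r2 t ht, j4, a.bmk_act]
  · exact fun p k t ht => (Act.mem_bs hp.inv).2 (h1 p k t ht)
  · exact fun p k t ht m => h2 p k t ht ((hp.mem_bs (h1 p k t ht)).1 m)
  · intro p k; rw [e0 p k, j2]
  · intro p k; rw [e1 p k, j3]

/-- The map of Borel constructions that defines `gp`. -/
def gm {G G' : Gp} {X X' : Type} (a' : Act G' X') (a : Act G X) (φ : G'.H → G.H) (f : X' → X)
    (p : a'.Bor) : a.Bor := a.bmk (eps φ (Quot.out p).1) (f (Quot.out p).2)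

theorem gp_def (φ : G'.H → G.H) (f : X' → X) :
    (gp a' φ f U' Z' : EH a U Z →ₗ[ℂ] _) = pull (gm a' a φ f) (a'.bs U') (a'.bs Z') := rfl

variable {φ : G'.H → G.H} {ψ : G''.H → G'.H} {f : X' → X} {f' : X'' → X'}

theorem gm_bmk [IsHom φ] (h : ∀ g, ∀ x ∈ U', f (a'.act g x) = a.act (φ g) (f x))
    (e : Fm G'.ι) {x : X'} (hx : x ∈ U') : gm a' a φ f (a'.bmk e x) = a.bmk (eps φ e) (f x) := by
  obtain ⟨g, h1, h2⟩ := a'.out_bmk e x
  rw [gm, h1, h2, (eps_spec φ).2, h g x hx, a.bmk_act]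

theorem out_mem (h : a.Inv U) {p : a.Bor} (hp : p ∈ a.bs U) : (Quot.out p).2 ∈ U :=
  (Act.mem_bs h).1 ((a.bmk_out p).symm ▸ hp)

theorem gp_congr0 {f₂ : X' → X} (h : a'.Inv U') (e : EqOn f f₂ U') :
    (gp a' φ f U' Z' : EH a U Z →ₗ[ℂ] _) = gp a' φ f₂ U' Z' :=
  pull_congr fun p hp => by rw [e (out_mem h hp)]

variable [T3Space X'] [SecondCountableTopology X'] [T3Space X''] [SecondCountableTopology X'']

/-- A map of Borel constructions that is given upstairs is admissible. -/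
theorem ok_of_lift (h' : a'.Pr U' Z') (h : a.Pr U Z) {g : Fm G'.ι × X' → Fm G.ι}
    {f : Fm G'.ι × X' → X} (cg : ContinuousOn g (univ ×ˢ U')) (cf : ContinuousOn f (univ ×ˢ U'))
    (h1 : ∀ e, ∀ x ∈ U', f (e, x) ∈ U) (h2 : ∀ e, ∀ x ∈ U', f (e, x) ∈ Z → x ∈ Z')
    {F : a'.Bor → a.Bor} (hF : ∀ e, ∀ x ∈ U', F (a'.bmk e x) = a.bmk (g (e, x)) (f (e, x))) :
    Ok F (a'.bs U') (a'.bs Z') (a.bs U) (a.bs Z) := by
  refine .of_mem (.of_continuousOn h'.bs_lc ((Act.contOn_bs h'.inv).2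
    ((a.contOn_bmk cg cf).congr fun z hz => hF _ _ hz.2))) ?_ ?_
  · rintro _ ⟨e, x, hx, rfl⟩
    rw [hF e x hx]; exact ⟨_, _, h1 e x hx, rfl⟩
  · rintro _ ⟨e, x, hx, rfl⟩ k
    rw [hF e x hx, h.mem_bs (h1 e x hx)] at k
    exact ⟨_, _, h2 e x hx k, rfl⟩

theorem GAdm.ok [IsHom φ] (h : GAdm a' a φ f U' Z' U Z) :
    Ok (gm a' a φ f) (a'.bs U') (a'.bs Z') (a.bs U) (a.bs Z) :=
  ok_of_lift h.src h.tgt (g := fun z => eps φ z.1) (f := fun z => f z.2)
    ((eps_spec φ).1.comp continuous_fst).continuousOn (h.cont.comp continuousOn_snd fun _ k => k.2)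
    (fun _ _ k => h.maps k) (fun _ => h.supp) fun e _ hx => gm_bmk h.eqv e hx

/-- `gp` is the pull-back along any equivariant choice. -/
theorem gp_eq [IsHom φ] (h : GAdm a' a φ f U' Z' U Z) {g : Fm G'.ι × X' → Fm G.ι}
    (cg : ContinuousOn g (univ ×ˢ U'))
    (eg : ∀ γ e, ∀ x ∈ U', g (G'.fm.act γ e, a'.act γ x) = G.fm.act (φ γ) (g (e, x)))
    {F : a'.Bor → a.Bor} (hF : ∀ e, ∀ x ∈ U', F (a'.bmk e x) = a.bmk (g (e, x)) (f x)) :
    (gp a' φ f U' Z' : EH a U Z →ₗ[ℂ] _) = pull F (a'.bs U') (a'.bs Z') := by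
  refine pull_eq_of_lift (Act.oq_bq h.src.inv) h.src.bs_lc h.src.bs_cl h.tgt
    (g0 := fun z => eps φ z.1) (g1 := g) (f := fun z => f z.1.2)
    ((eps_spec φ).1.comp continuous_fst).continuousOn cg
    (h.cont.comp continuous_fst.snd.continuousOn fun _ k => k.1.2) ?_ (fun p k _ _ => h.maps k.2)
    (fun p k _ _ m => ⟨_, _, h.supp _ k.2 m, rfl⟩) (fun p k => gm_bmk h.eqv _ k.2)
    fun p k => hF _ _ k.2
  rintro ⟨e, x⟩ k ⟨e', x'⟩ - r
  obtain ⟨γ, rfl, rfl⟩ := a'.bmk_eq_iff.1 r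
  exact ⟨φ γ, (eps_spec φ).2 _ _, eg _ _ _ k.2, fun _ _ => h.eqv _ _ k.2⟩

omit [T3Space X'] [SecondCountableTopology X'] [T3Space X''] [SecondCountableTopology X''] in
theorem GAdm.comp0 (h : GAdm a' a φ f U' Z' U Z) (h' : GAdm a'' a' ψ f' U'' Z'' U' Z') :
    GAdm a'' a (φ ∘ ψ) (f ∘ f') U'' Z'' U Z :=
  ⟨h'.src, h.tgt, h.cont.comp h'.cont h'.maps, fun g x hx => by
    rw [Function.comp_apply, h'.eqv g x hx, h.eqv _ _ (h'.maps hx)]; rfl,
    h.maps.comp h'.maps, fun x hx k => h'.supp x hx (h.supp _ (h'.maps hx) k)⟩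

theorem gp_gp [IsHom φ] [IsHom ψ] (h' : GAdm a'' a' ψ f' U'' Z'' U' Z')
    (h : GAdm a' a φ f U' Z' U Z) (c : EH a U Z) :
    gp a'' ψ f' U'' Z'' (gp a' φ f U' Z' c) = gp a'' (φ ∘ ψ) (f ∘ f') U'' Z'' c := by
  rw [gp_def, gp_def, pull_pull h'.ok h.ok, gp_eq (h.comp0 h') (g := fun z => eps φ (eps ψ z.1))
    (F := gm a' a φ f ∘ gm a'' a' ψ f')
    ((eps_spec φ).1.comp ((eps_spec ψ).1.comp continuous_fst)).continuousOn
    (fun γ e x hx => by rw [(eps_spec ψ).2, (eps_spec φ).2]; rfl)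
    (fun e x hx => by
      rw [Function.comp_apply, gm_bmk h'.eqv e hx, gm_bmk h.eqv _ (h'.maps hx)]; rfl)]

theorem gp_gp' [IsHom φ] [IsHom ψ] (h' : GAdm a'' a' ψ f' U'' Z'' U' Z')
    (h : GAdm a' a φ f U' Z' U Z) {χ : G''.H → G.H} {F : X'' → X} (e1 : ∀ g, φ (ψ g) = χ g)
    (e2 : ∀ x ∈ U'', f (f' x) = F x) (c : EH a U Z) :
    gp a'' ψ f' U'' Z'' (gp a' φ f U' Z' c) = gp a'' χ F U'' Z'' c := by
  obtain rfl : φ ∘ ψ = χ := funext e1
  rw [gp_gp h' h, gp_congr0 (f := f ∘ f') (f₂ := F) h'.src.inv e2]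

theorem gp_res {A B : Set X'} (h : GAdm a' a' id id U' Z' A B) :
    (gp a' id id U' Z' : EH a' A B →ₗ[ℂ] _) = pull id (a'.bs U') (a'.bs Z') :=
  gp_eq h (g := Prod.fst) continuousOn_fst (fun _ _ _ _ => rfl) fun _ _ _ => rfl

omit [T3Space X'] [SecondCountableTopology X'] in
theorem GAdm.res {A B : Set X'} (h' : a'.Pr U' Z') (h : a'.Pr A B) (k : U' ⊆ A)
    (k' : ∀ x ∈ U', x ∈ B → x ∈ Z') : GAdm a' a' id id U' Z' A B :=
  ⟨h', h, continuousOn_id, fun _ _ _ => rfl, k, k'⟩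

theorem gp_id0 (h : a'.Pr U' Z') (c : EH a' U' Z') : gp a' id id U' Z' c = c := by
  rw [gp_res (.res h h subset_rfl fun _ _ k => k), pull_id]

/-- Twisting by a map to the group does not change the pull-back. -/
theorem gp_twist {φ₂ : G'.H → G.H} [IsHom φ] [IsHom φ₂] (h : GAdm a' a φ f U' Z' U Z)
    {k : X' → G.H} (ck : ContinuousOn k U')
    (ek : ∀ γ, ∀ x ∈ U', φ₂ γ * k x = k (a'.act γ x) * φ γ) {f₂ : X' → X}
    (ef : ∀ x ∈ U', f₂ x = a.act (k x) (f x)) :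
    (gp a' φ₂ f₂ U' Z' : EH a U Z →ₗ[ℂ] _) = gp a' φ f U' Z' := by
  rw [gp_def φ₂]
  refine (gp_eq h (g := fun z => G.fm.act (k z.2)⁻¹ (eps φ₂ z.1)) (G.fm.contOn_act
    (ck.comp continuousOn_snd fun _ m => m.2).inv
    ((eps_spec φ₂).1.comp continuous_fst).continuousOn) (fun γ e x hx => ?_) fun e x hx => ?_).symm
  · dsimp only
    rw [(eps_spec φ₂).2, ← Act.act_mul, ← Act.act_mul, eq_mul_inv_of_mul_eq (ek γ x hx)]
    congr 1
    group
  · rw [gm_bmk (U' := U') (fun γ y hy => ?_) e hx, ef x hx, a.bmk_act_left, inv_inv]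
    rw [ef _ (h.src.inv γ y hy), ef y hy, h.eqv γ y hy, ← Act.act_mul, ← Act.act_mul, ek γ y hy]

/-- Equivariant homotopy invariance. -/
theorem gp_hty [IsHom φ] (h' : a'.Pr U' Z') (h : a.Pr U Z) {F : X' × ℝ → X}
    (cF : ContinuousOn F (U' ×ˢ Icc 0 1))
    (eF : ∀ g, ∀ x ∈ U', ∀ t ∈ Icc (0 : ℝ) 1, F (a'.act g x, t) = a.act (φ g) (F (x, t)))
    (h1 : ∀ x ∈ U', ∀ t ∈ Icc (0 : ℝ) 1, F (x, t) ∈ U)
    (h2 : ∀ x ∈ U', ∀ t ∈ Icc (0 : ℝ) 1, F (x, t) ∈ Z → x ∈ Z') :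
    (gp a' φ (fun x => F (x, 0)) U' Z' : EH a U Z →ₗ[ℂ] _) = gp a' φ (fun x => F (x, 1)) U' Z' := by
  rw [gp_def, gp_def]
  refine pull_eq_of_lift (Act.oq_bq h'.inv) h'.bs_lc h'.bs_cl h
    (g0 := fun z => eps φ z.1) (g1 := fun z => eps φ z.1) (f := fun z => F (z.1.2, z.2))
    ((eps_spec φ).1.comp continuous_fst).continuousOn
    ((eps_spec φ).1.comp continuous_fst).continuousOn
    (cF.comp (continuous_fst.snd.prodMk continuous_snd).continuousOn fun _ k => ⟨k.1.2, k.2⟩) ?_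
    (fun p k t ht => h1 _ k.2 t ht) (fun p k t ht m => ⟨_, _, h2 _ k.2 t ht m, rfl⟩)
    (fun p k => gm_bmk (f := fun x => F (x, 0)) (fun g x hx => eF g x hx 0 (by simp)) p.1 k.2)
    fun p k => gm_bmk (f := fun x => F (x, 1)) (fun g x hx => eF g x hx 1 (by simp)) p.1 k.2
  rintro ⟨e, x⟩ k ⟨e', x'⟩ - r
  obtain ⟨γ, rfl, rfl⟩ := a'.bmk_eq_iff.1 r
  exact ⟨φ γ, (eps_spec φ).2 _ _, (eps_spec φ).2 _ _, fun t ht => eF _ _ k.2 t ht⟩

end Pool.Agent.Work.MP_849ab0_ag.G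
end
end

-- merged part: Pool.Agent.Work.MP_849ab0_ag.G.ApiA
section
/-!
Functoriality, cup products, degrees (owner helper40).
-/

noncomputable section

set_option linter.unusedSectionVars false
set_option linter.unusedVariables false

namespace Pool.Agent.Work.MP_849ab0_ag.G

open Set Topology Matrix

section

variable {S : Type} [TopologicalSpace S] {V W V₁ W₁ : Set S}

theorem dpr_eq_prj (m : ℕ) : (dpr m : H V W →ₗ[ℂ] H V W) = prj {(m : ℤ)} := by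
  have e : ∀ φ : List S → ℂ, (fun l => if l.length = m + 1 then φ l else 0) = msk {(m : ℤ)} φ :=
    fun φ => funext fun l => by
      split_ifs with h
      · exact (msk_of_mem _ (by simp [h])).symm
      · exact (msk_of_not_mem _ (by simp; omega)).symm
  have := Classical.epsilon_spec (p := fun L : H V W →ₗ[ℂ] H V W => ∀ φ ∈ Zc V W,
    L (cls V W φ) = cls V W fun l => if l.length = m + 1 then φ l else 0)
    ⟨prj {(m : ℤ)}, fun φ h => by rw [prj_cls _ h, e]⟩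
  exact H_ext fun φ h => (this φ h).trans (by rw [prj_cls _ h, e])

theorem bdry_eq_dlt : (bdry V W : H V₁ W₁ →ₗ[ℂ] H V W) = dlt V W := by
  by_cases h : V \ W ⊆ V₁
  · have := Classical.epsilon_spec (p := fun L : H V₁ W₁ →ₗ[ℂ] H V W => ∀ φ ∈ Zc V₁ W₁,
      L (cls V₁ W₁ φ) = cls V W (dl φ)) ⟨dlt V W, fun φ k => dlt_cls h k⟩
    rw [bdry, if_pos h]
    exact H_ext fun φ k => (this φ k).trans (dlt_cls h k).symm
  · rw [bdry, if_neg h, dlt, dif_neg h]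

theorem Ev.prj_odd {x : H V W} (hx : Ev x) {m : ℤ} (hm : Odd m) : prj {m} x = 0 := by
  obtain ⟨φ, k, rfl, d⟩ := hx
  have : msk {m} φ = 0 := funext fun l => by
    by_cases e : (l.length : ℤ) - 1 ∈ ({m} : Set ℤ)
    · refine msk_zero (d l ?_)
      rw [Set.mem_singleton_iff] at e
      obtain ⟨r, rfl⟩ := hm
      exact ⟨(r + 1).toNat, by omega⟩
    · exact msk_of_not_mem _ e
  rw [prj_cls _ k, this, cls_zero]

theorem Ev.ind {x : H V W} (hx : Ev x) {Q : H V W → Prop} (h0 : Q 0)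
    (ha : ∀ a b, Q a → Q b → Q (a + b)) (hd : ∀ (p : ℤ) a, IsDeg (2 * p) a → Q a) : Q x := by
  obtain ⟨n, e⟩ := exists_sum_prj x
  rw [e]
  refine Finset.sum_induction _ Q ha h0 fun p _ => ?_
  rcases Int.even_or_odd (p : ℤ) with ⟨r, k⟩ | k
  · exact hd r _ (by rw [two_mul, ← k]; exact isDeg_prj _ _)
  · rw [hx.prj_odd k]; exact h0

end

section

variable {S : Type} [TopologicalSpace S] {V W : Set S} {p q : ℤ}

theorem isDeg_zero : IsDeg p (0 : H V W) := .zero p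
-- `IsDeg.add`, `IsDeg.smul`, `IsDeg.eq_zero_of_ne`, `IsDeg.sum` are in `FH`.
theorem IsDeg.eq_zero {x : H V W} (hx : IsDeg p x) (hp : p < 0) : x = 0 := hx.eq_zero_of_neg hp
theorem IsDeg.ev {x : H V W} (hx : IsDeg p x) (hp : Even p) : Ev x := by
  obtain ⟨φ, k, rfl, d⟩ := hx
  refine ⟨φ, k, rfl, fun l hl => d l fun e => ?_⟩
  obtain ⟨r, rfl⟩ := hp
  obtain ⟨r', hr⟩ := hl
  omega
theorem ev_zero : Ev (0 : H V W) := ⟨0, zero_mem _, cls_zero.symm, fun _ _ => rfl⟩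
theorem Ev.add {x y : H V W} (hx : Ev x) (hy : Ev y) : Ev (x + y) := by
  obtain ⟨φ, k, rfl, d⟩ := hx
  obtain ⟨ψ, k', rfl, d'⟩ := hy
  exact ⟨φ + ψ, add_mem k k', (cls_add k k').symm, fun l hl => by simp [d l hl, d' l hl]⟩
theorem Ev.smul (c : ℂ) {x : H V W} (hx : Ev x) : Ev (c • x) := by
  obtain ⟨φ, k, rfl, d⟩ := hx
  exact ⟨c • φ, Submodule.smul_mem _ c k, (cls_smul c k).symm, fun l hl => by simp [d l hl]⟩
theorem Ev.sum {ι : Type} (s : Finset ι) {x : ι → H V W} (h : ∀ i ∈ s, Ev (x i)) :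
    Ev (∑ i ∈ s, x i) := Finset.sum_induction _ Ev (fun _ _ => Ev.add) ev_zero h
theorem ev_iff {x : H V W} : Ev x ↔ ∀ m : ℕ, Odd m → dpr m x = 0 := by
  refine ⟨fun h m hm => by rw [dpr_eq_prj]; exact h.prj_odd (by exact_mod_cast hm), fun h => ?_⟩
  obtain ⟨n, e⟩ := exists_sum_prj x
  rw [e]
  refine Ev.sum _ fun m _ => ?_
  rcases Nat.even_or_odd m with k | k
  · exact (isDeg_prj _ _).ev (by exact_mod_cast k)
  · rw [← dpr_eq_prj, h m k]; exact ev_zero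
theorem isDeg_dpr (m : ℕ) (x : H V W) : IsDeg m (dpr m x) := by
  rw [dpr_eq_prj]; exact isDeg_prj _ _
theorem IsDeg.dpr_eq {x : H V W} (hx : IsDeg p x) (m : ℕ) :
    dpr m x = if (m : ℤ) = p then x else 0 := by
  rw [dpr_eq_prj]
  split_ifs with h
  · exact hx.prj_eq h.symm
  · exact hx.prj_eq_zero (Ne.symm h)
theorem sum_dpr (x : H V W) : ∃ N : ℕ, ∀ M ≥ N, ∑ m ∈ Finset.range M, dpr m x = x := by
  obtain ⟨n, e⟩ := exists_sum_prj x
  refine ⟨n, fun M hM => ?_⟩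
  rw [← Finset.sum_subset (Finset.range_mono hM) fun m _ hm => ?_]
  · simp only [dpr_eq_prj]; exact e.symm
  · rw [e, map_sum]
    refine Finset.sum_eq_zero fun i hi => ?_
    rw [(isDeg_prj _ _).dpr_eq, if_neg]
    intro k
    exact hm ((Nat.cast_injective k).symm ▸ hi)

theorem prj_map {S' : Type} [TopologicalSpace S'] {V' W' : Set S'}
    {L : H V W →ₗ[ℂ] H V' W'} {d : ℤ} (hd : ∀ p x, IsDeg p x → IsDeg (p + d) (L x)) (p : ℤ)
    (x : H V W) : L (prj {p} x) = prj {p + d} (L x) := by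
  obtain ⟨n, e⟩ := exists_sum_prj x
  have : ∀ (q : ℤ) y, IsDeg q y → L (prj {p} y) = prj {p + d} (L y) := fun q y hy => by
    by_cases k : q = p
    · rw [hy.prj_eq (s := {p}) k, (hd q y hy).prj_eq (s := {p + d}) (by simp [k])]
    · rw [hy.prj_eq_zero (s := {p}) k, (hd q y hy).prj_eq_zero (s := {p + d}) (by simp [k]),
        map_zero]
  rw [e, map_sum, map_sum, map_sum, map_sum]
  exact Finset.sum_congr rfl fun i _ => this _ _ (isDeg_prj _ _)

/-- the inverse of a graded bijection is graded -/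
theorem isDeg_of_map {S' : Type} [TopologicalSpace S'] {V' W' : Set S'} {L : H V W →ₗ[ℂ] H V' W'}
    (hL : Function.Injective L) {d : ℤ} (hd : ∀ p x, IsDeg p x → IsDeg (p + d) (L x)) {x : H V W}
    (hx : IsDeg (p + d) (L x)) : IsDeg p x :=
  isDeg_iff.2 (hL (by rw [prj_map hd, isDeg_iff.1 hx]))

/-- a graded map has homogeneous preimages -/
theorem exists_isDeg_of_map {S' : Type} [TopologicalSpace S'] {V' W' : Set S'}
    {L : H V W →ₗ[ℂ] H V' W'} {d : ℤ} (hd : ∀ p x, IsDeg p x → IsDeg (p + d) (L x)) {x : H V W}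
    (hx : IsDeg (p + d) (L x)) : ∃ x', IsDeg p x' ∧ L x' = L x :=
  ⟨prj {p} x, isDeg_prj _ _, by rw [prj_map hd, isDeg_iff.1 hx]⟩

end

variable {G G' G'' : Gp} [G.Nice] [G'.Nice] [G''.Nice] {X X' X'' Y Y' : Type}
  [TopologicalSpace X] [T3Space X] [SecondCountableTopology X]
  [TopologicalSpace X'] [T3Space X'] [SecondCountableTopology X']
  [TopologicalSpace X''] [T3Space X''] [SecondCountableTopology X'']
  [TopologicalSpace Y] [T3Space Y] [SecondCountableTopology Y]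
  [TopologicalSpace Y'] [T3Space Y'] [SecondCountableTopology Y']
  {a : Act G X} [a.Ok] {a' : Act G' X'} [a'.Ok] {a'' : Act G'' X''} [a''.Ok]
  {b : Act G Y} [b.Ok] {b' : Act G' Y'} [b'.Ok]
  {φ : G'.H → G.H} [IsHom φ] {ψ : G''.H → G'.H} [IsHom ψ]

variable {U Z U₁ Z₁ U₂ Z₂ U₃ Z₃ A B C D : Set X} {U' Z' U₁' Z₁' U₂' Z₂' : Set X'}
  {U'' Z'' : Set X''} {f : X' → X} {f' : X'' → X'}

theorem gp_comp (h : GAdm a' a φ f U' Z' U Z) (h' : GAdm a'' a' ψ f' U'' Z'' U' Z')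
    {χ : G''.H → G.H} (e : ∀ g, χ g = φ (ψ g)) {k : X'' → X} (e' : ∀ x ∈ U'', k x = f (f' x))
    (c : EH a U Z) : gp a'' ψ f' U'' Z'' (gp a' φ f U' Z' c) = gp a'' χ k U'' Z'' c :=
  gp_gp' h' h (fun g => (e g).symm) (fun x hx => (e' x hx).symm) c

theorem GAdm.comp (h : GAdm a' a φ f U' Z' U Z) (h' : GAdm a'' a' ψ f' U'' Z'' U' Z') :
    GAdm a'' a (φ ∘ ψ) (f ∘ f') U'' Z'' U Z := h.comp0 h'

theorem gp_id (h : a.Pr U Z) (c : EH a U Z) : gp a id id U Z c = c := gp_id0 h c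

theorem gp_congr (h : a'.Pr U' Z') {k : X' → X} (e : EqOn f k U') (c : EH a U Z) :
    gp a' φ f U' Z' c = gp a' φ k U' Z' c := by rw [gp_congr0 h.inv e]

theorem eq_zero_of_disjoint (h : a.Pr U Z) (e : U ∩ Z = ∅) (c : EH a U Z) : c = 0 :=
  (subsingleton_H (by rw [Set.disjoint_iff_inter_eq_empty, ← h.bs_inter, e, Act.bs_empty])).elim _ _

/-- only `U ∩ Z` matters -/
theorem gp_id_bij (h : a.Pr U Z) (h' : a.Pr U Z₁) (e : U ∩ Z = U ∩ Z₁) :
    Function.Bijective (gp a id id U Z₁ : EH a U Z → _) := by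
  rw [gp_res (gadm_id h h' subset_rfl (e ▸ inter_subset_right))]
  refine res_bij_of_eq fun p hp => ?_
  have : a.bs U ∩ a.bs Z = a.bs U ∩ a.bs Z₁ := by rw [← h.bs_inter, e, h'.bs_inter]
  exact ⟨fun k => (this.subset ⟨hp, k⟩).2, fun k => (this.symm.subset ⟨hp, k⟩).2⟩

theorem ECup.bs (h : ECup a U₁ Z₁ U₂ Z₂ U Z) :
    CupOK (a.bs U₁) (a.bs Z₁) (a.bs U₂) (a.bs Z₂) (a.bs U) (a.bs Z) where
  left := by rw [← h.p1.bs_diff, ← Act.bs_union]; exact Act.bs_mono h.ok.left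
  right := by rw [← h.p2.bs_diff, ← Act.bs_union]; exact Act.bs_mono h.ok.right
  supp := by
    rw [← h.p1.bs_diff, ← h.p2.bs_diff, ← h.p3.bs_diff, ← Act.bs_union]; exact Act.bs_mono h.ok.supp

theorem GAdm.ok_id (h : GAdm a a id id A B U Z) : Ok id (a.bs A) (a.bs B) (a.bs U) (a.bs Z) :=
  ok_of_lift h.src h.tgt (g := Prod.fst) (f := Prod.snd) continuousOn_fst continuousOn_snd
    (fun _ _ k => h.maps k) (fun _ => h.supp) fun _ _ _ => rfl

theorem gp_ecup (h : ECup a U₁ Z₁ U₂ Z₂ U Z) (h' : ECup a' U₁' Z₁' U₂' Z₂' U' Z')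
    (k : GAdm a' a φ f U' Z' U Z) (k₁ : GAdm a' a φ f U₁' Z₁' U₁ Z₁)
    (k₂ : GAdm a' a φ f U₂' Z₂' U₂ Z₂) (e₁ : U₁' ⊆ U') (e₂ : U₂' ⊆ U') (x : EH a U₁ Z₁)
    (y : EH a U₂ Z₂) :
    gp a' φ f U' Z' (ecup U Z x y) = ecup U' Z' (gp a' φ f U₁' Z₁' x) (gp a' φ f U₂' Z₂' y) :=
  pull_cup k.ok.ext subset_rfl (Act.bs_mono e₁) (Act.bs_mono e₂) k.ok k₁.ok k₂.ok h'.bs h.bs x y

theorem gp_id_ecup (h : ECup a U₁ Z₁ U₂ Z₂ U Z) (k : GAdm a a id id A B U Z) (x : EH a U₁ Z₁)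
    (y : EH a U₂ Z₂) : gp a id id A B (ecup U Z x y) = ecup A B x y := by
  rw [gp_res k]; exact res_cup_out k.ok_id h.bs x y

theorem ecup_gp_left (h : ECup a A B U₂ Z₂ U Z) (k : GAdm a a id id A B U₁ Z₁) (x : EH a U₁ Z₁)
    (y : EH a U₂ Z₂) : ecup U Z (gp a id id A B x) y = ecup U Z x y := by
  rw [gp_res k]; exact cup_res_left k.ok_id h.bs x y

theorem ecup_gp_right (h : ECup a U₁ Z₁ A B U Z) (k : GAdm a a id id A B U₂ Z₂) (x : EH a U₁ Z₁)
    (y : EH a U₂ Z₂) : ecup U Z x (gp a id id A B y) = ecup U Z x y := by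
  rw [gp_res k]; exact cup_res_right k.ok_id h.bs x y

theorem ecup_assoc (h₁ : ECup a U₁ Z₁ U₂ Z₂ A B) (h₂ : ECup a A B U₃ Z₃ U Z)
    (h₃ : ECup a U₂ Z₂ U₃ Z₃ C D) (h₄ : ECup a U₁ Z₁ C D U Z) (x : EH a U₁ Z₁) (y : EH a U₂ Z₂)
    (z : EH a U₃ Z₃) : ecup U Z (ecup A B x y) z = ecup U Z x (ecup C D y z) :=
  cup_assoc h₁.bs h₂.bs h₃.bs h₄.bs x y z

theorem eone_ecup (h : ECup a U₁ univ U₂ Z₂ U Z) (k : GAdm a a id id U Z U₂ Z₂) (y : EH a U₂ Z₂) :
    ecup U Z (eone a U₁) y = gp a id id U Z y := by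
  rw [gp_res k]; exact one_cup (Act.bs_mono (subset_univ _)) h.bs k.ok_id y

theorem ecup_eone (h : ECup a U₁ Z₁ U₂ univ U Z) (k : GAdm a a id id U Z U₁ Z₁) (x : EH a U₁ Z₁) :
    ecup U Z x (eone a U₂) = gp a id id U Z x := by
  rw [gp_res k]; exact cup_one (Act.bs_mono (subset_univ _)) h.bs k.ok_id x

theorem gp_eone (k : GAdm a' a φ f U' univ U univ) : gp a' φ f U' univ (eone a U) = eone a' U' :=
  pull_one k.ok (Act.bs_mono (subset_univ _))

theorem ecup_comm (h : ECup a U₁ Z₁ U₂ Z₂ U Z) (x : EH a U₁ Z₁) {y : EH a U₂ Z₂} (hy : Ev y) :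
    ecup U Z x y = ecup U Z y x :=
  hy.ind (Q := fun y => ecup U Z x y = ecup U Z y x) (by simp)
    (fun _ _ h1 h2 => by rw [map_add, map_add, LinearMap.add_apply, h1, h2])
    fun p y hy => cup_comm_even h.bs.symm hy x

theorem ECup.symm (h : ECup a U₁ Z₁ U₂ Z₂ U Z) : ECup a U₂ Z₂ U₁ Z₁ U Z :=
  ⟨h.p2, h.p1, h.p3, h.ok.symm⟩

/-- the plain case: all three classes live on `U` -/
theorem ecup_of (h₁ : a.Pr U Z₁) (h₂ : a.Pr U Z₂) (h : a.Pr U Z) (e : U ∩ Z₁ ∩ Z₂ ⊆ Z) :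
    ECup a U Z₁ U Z₂ U Z :=
  ⟨h₁, h₂, h, .of_subset subset_rfl subset_rfl fun _ k k1 k2 => e ⟨⟨k, k1⟩, k2⟩⟩

/-! ### ring structure -/

instance ringEH {G : Gp} {X : Type} [TopologicalSpace X] (a : Act G X) (U : Set X) :
    Ring (EH a U univ) where
  __ := (inferInstance : AddCommGroup (EH a U univ))
  mul x y := ecup U univ x y
  one := eone a U
  mul_assoc x y z :=
    have c : CupOK (a.bs U) (a.bs univ) (a.bs U) (a.bs univ) (a.bs U) (a.bs univ) :=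
      .of_subset subset_rfl subset_rfl fun _ _ k _ => k
    cup_assoc c c c c x y z
  one_mul := one_cup' (Act.bs_mono (subset_univ _))
  mul_one := cup_one' (Act.bs_mono (subset_univ _))
  left_distrib x y z := map_add (ecup U univ x) y z
  right_distrib x y z := by
    change ecup U univ (x + y) z = ecup U univ x z + ecup U univ y z
    rw [map_add, LinearMap.add_apply]
  zero_mul x := by
    change ecup U univ (0 : EH a U univ) x = 0
    rw [map_zero, LinearMap.zero_apply]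
  mul_zero x := map_zero (ecup U univ x)

theorem mul_def {G : Gp} {X : Type} [TopologicalSpace X] {a : Act G X} {U : Set X}
    (x y : EH a U univ) : x * y = ecup U univ x y := rfl

theorem one_def {G : Gp} {X : Type} [TopologicalSpace X] {a : Act G X} {U : Set X} :
    (1 : EH a U univ) = eone a U := rfl

instance algEH {G : Gp} {X : Type} [TopologicalSpace X] (a : Act G X) (U : Set X) :
    Algebra ℂ (EH a U univ) :=
  Algebra.ofModule
    (fun r x y => by rw [mul_def, mul_def, map_smul, LinearMap.smul_apply])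
    (fun r x y => by rw [mul_def, mul_def, map_smul])

/-- pull-back as an algebra map -/
def gpAlg (k : GAdm a' a φ f U' univ U univ) : EH a U univ →ₐ[ℂ] EH a' U' univ :=
  AlgHom.ofLinearMap (gp a' φ f U' univ) (gp_eone k) fun x y =>
    gp_ecup (ecup_of k.tgt k.tgt k.tgt (subset_univ _)) (ecup_of k.src k.src k.src (subset_univ _))
      k k k subset_rfl subset_rfl x y

theorem gpAlg_apply (k : GAdm a' a φ f U' univ U univ) (x : EH a U univ) :
    gpAlg k x = gp a' φ f U' univ x := rfl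

/-- change of group on the cohomology of a point -/
def gpt (φ : G'.H → G.H) [IsHom φ] : HPt G →ₐ[ℂ] HPt G' :=
  gpAlg (gadm_pt (Act.pr_pt G') φ)

theorem gpt_apply (c : HPt G) : gpt φ c = gp (Act.pt G') φ (fun _ => ()) univ univ c := rfl

theorem gpt_comp {χ : G''.H → G.H} [IsHom χ] (e : ∀ g, χ g = φ (ψ g)) (c : HPt G) :
    gpt ψ (gpt φ c) = gpt χ c :=
  gp_comp (gadm_pt (Act.pr_pt G') φ) (gadm_pt (Act.pr_pt G'') ψ) e (fun _ _ => rfl) c

theorem gpt_id (c : HPt G) : gpt id c = c := gp_id (Act.pr_pt G) c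

theorem sm_def (c : HPt G) (x : EH a U Z) :
    sm c x = ecup U Z (gp a id (fun _ => ()) U univ c) x := rfl

theorem ecup_top (h : a.Pr U Z) : ECup a U univ U Z U Z := ecup_of h.top h h inter_subset_right

theorem sm_one (h : a.Pr U Z) (x : EH a U Z) : sm 1 x = x := by
  rw [sm_def, one_def, gp_eone (gadm_pt h.top id),
    eone_ecup (ecup_top h) (gadm_id h h subset_rfl inter_subset_right), gp_id h]

theorem sm_mul (h : a.Pr U Z) (c d : HPt G) (x : EH a U Z) : sm (c * d) x = sm c (sm d x) := by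
  rw [sm_def, sm_def, sm_def, ← gpAlg_apply (gadm_pt h.top id), map_mul, mul_def]
  exact ecup_assoc (ecup_top h.top) (ecup_top h) (ecup_top h) (ecup_top h) _ _ _

theorem sm_pt (c d : HPt G) : sm c d = c * d := by
  rw [sm_def, mul_def]
  congr 2
  exact gpt_id c

theorem sm_eone (h : a.Pr U univ) (c : HPt G) :
    sm c (eone a U) = gp a id (fun _ => ()) U univ c := mul_one (gp a id (fun _ => ()) U univ c)

theorem gp_sm (k : GAdm a' a φ f U' Z' U Z) (c : HPt G) (x : EH a U Z) :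
    gp a' φ f U' Z' (sm c x) = sm (gpt φ c) (gp a' φ f U' Z' x) := by
  have k' : GAdm a' a φ f U' univ U univ :=
    ⟨k.src.top, k.tgt.top, k.cont, k.eqv, k.maps, fun _ _ _ => trivial⟩
  rw [sm_def, sm_def, gp_ecup (ecup_top k.tgt) (ecup_top k.src) k k' k subset_rfl subset_rfl,
    gp_comp (gadm_pt k.tgt.top id) k' (χ := φ) (fun _ => rfl) (k := fun _ => ()) (fun _ _ => rfl),
    gpt_apply, gp_comp (gadm_pt (Act.pr_pt G') φ) (gadm_pt k.src.top id) (χ := φ) (fun _ => rfl)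
      (k := fun _ => ()) (fun _ _ => rfl)]

theorem Act.pr_top (a : Act G X) : a.Pr univ univ := a.pr_univ isClosed_univ fun _ _ _ => trivial

theorem ecup_univ (h : a.Pr U Z) : ECup a univ univ U Z U Z :=
  ⟨a.pr_top, h, h, .of_subset (subset_univ _) subset_rfl fun _ _ _ k => k⟩

theorem sm_univ (h : a.Pr U Z) (c : HPt G) (x : EH a U Z) :
    sm c x = ecup U Z (gp a id (fun _ => ()) univ univ c) x := by
  have k := gadm_id a.pr_top h.top (subset_univ _) (subset_univ _)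
  rw [sm_def, ← ecup_gp_left (ecup_top h) k,
    gp_comp (gadm_pt a.pr_top id) k (χ := id) (fun _ => rfl) (k := fun _ => ()) fun _ _ => rfl]

theorem ecup_sm_left (h : ECup a U₁ Z₁ U₂ Z₂ U Z) (c : HPt G) (x : EH a U₁ Z₁) (y : EH a U₂ Z₂) :
    ecup U Z (sm c x) y = sm c (ecup U Z x y) := by
  rw [sm_univ h.p1, sm_univ h.p3, ecup_assoc (ecup_univ h.p1) h h (ecup_univ h.p3)]

theorem ecup_sm_right (h : ECup a U₁ Z₁ U₂ Z₂ U Z) {c : HPt G} (hc : Ev c) (x : EH a U₁ Z₁)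
    (y : EH a U₂ Z₂) : ecup U Z x (sm c y) = sm c (ecup U Z x y) := by
  have : Ev (gp a id (fun _ => ()) univ univ c) :=
    hc.ind (Q := fun c => Ev (gp a id (fun _ => ()) univ univ c)) (by rw [map_zero]; exact ev_zero)
      (fun _ _ h1 h2 => by rw [map_add]; exact h1.add h2)
      fun p y hy => (hy.pull _ _ _).ev (even_two_mul p)
  rw [← ecup_sm_left h, sm_univ h.p2, sm_univ h.p1,
    ← ecup_assoc (ecup_univ h.p1).symm h (ecup_univ h.p2) h, ecup_comm (ecup_univ h.p1).symm x this]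

/-! ### degrees -/

section

variable {G G' : Gp} {X X' : Type} [TopologicalSpace X] [TopologicalSpace X'] {a : Act G X}
  {a' : Act G' X'} {U Z U₁ Z₁ U₂ Z₂ : Set X} {U' Z' : Set X'} {p q : ℤ}

theorem IsDeg.gp {x : EH a U Z} (hx : IsDeg p x) (φ : G'.H → G.H) (f : X' → X) :
    IsDeg p (gp a' φ f U' Z' x) := hx.pull _ _ _
theorem Ev.gp {x : EH a U Z} (hx : Ev x) (φ : G'.H → G.H) (f : X' → X) :
    Ev (gp a' φ f U' Z' x) :=
  hx.ind (Q := fun x => Ev (MP_849ab0_ag.G.gp a' φ f U' Z' x)) (by rw [map_zero]; exact ev_zero)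
    (fun _ _ h1 h2 => by rw [map_add]; exact h1.add h2)
    fun p y hy => (hy.gp _ _).ev (even_two_mul p)
theorem IsDeg.ecup {x : EH a U₁ Z₁} {y : EH a U₂ Z₂} (hx : IsDeg p x) (hy : IsDeg q y) :
    IsDeg (p + q) (ecup U Z x y) := hx.cup hy _ _
theorem Ev.ecup {x : EH a U₁ Z₁} {y : EH a U₂ Z₂} (hx : Ev x) (hy : Ev y) : Ev (ecup U Z x y) :=
  hx.ind (Q := fun x => Ev (MP_849ab0_ag.G.ecup U Z x y)) (by rw [map_zero]; exact ev_zero)
    (fun _ _ h1 h2 => by rw [map_add]; exact h1.add h2) fun p x hx =>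
      hy.ind (Q := fun y => Ev (MP_849ab0_ag.G.ecup U Z x y)) (by rw [map_zero]; exact ev_zero)
        (fun _ _ h1 h2 => by rw [map_add]; exact h1.add h2)
        fun q y hy => (hx.ecup hy).ev ((even_two_mul p).add (even_two_mul q))
theorem isDeg_eone : IsDeg 0 (eone a U) := isDeg_one
theorem IsDeg.sm {c : HPt G} {x : EH a U Z} (hc : IsDeg p c) (hx : IsDeg q x) :
    IsDeg (p + q) (sm c x) := (hc.gp _ _).ecup hx
theorem Ev.sm {c : HPt G} {x : EH a U Z} (hc : Ev c) (hx : Ev x) : Ev (sm c x) :=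
  (hc.gp _ _).ecup hx
theorem IsDeg.ebd {x : EH a U₁ Z₁} (hx : IsDeg p x) : IsDeg (p + 1) (ebd U Z x) := by
  rw [MP_849ab0_ag.G.ebd, bdry_eq_dlt]; exact hx.dlt _ _

end

instance : PreconnectedSpace (Fm G.ι) := ⟨by
  obtain ⟨J, j1, j2, j3, -⟩ := exists_join G
  refine isPreconnected_of_forall_pair fun x _ y _ => ⟨range fun t : ℝ => J (x, y, t),
    subset_univ _, ⟨0, j2 x y⟩, ⟨1, j3 x y⟩, isPreconnected_range (j1.comp (by fun_prop))⟩⟩

theorem ev_const {S T : Type} [TopologicalSpace S] [TopologicalSpace T] [PreconnectedSpace T]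
    {V W : Set S} (y : H V W) {c : T → S} (hc : Continuous c) (h : ∀ t, c t ∈ V) (t t' : T) :
    ev (c t) y = ev (c t') y := by
  refine IsLocallyConstant.apply_eq_of_preconnectedSpace (f := fun t => ev (c t) y)
    ((IsLocallyConstant.iff_eventually_eq _).2 fun t => ?_) t t'
  exact (tendsto_nhdsWithin_iff.2 ⟨hc.continuousAt, .of_forall h⟩).eventually (ev_eventually y (h t))

theorem ev_bmk (h : a.Inv U) (y : EH a U Z) {x : X} (hx : x ∈ U) (e e' : Fm G.ι) :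
    ev (a.bmk e x) y = ev (a.bmk e' x) y :=
  ev_const y (a.cont_bmk continuous_id continuous_const) (fun _ => (Act.mem_bs h).2 hx) e e'

/-- a class of degree `0` that is nonzero at every point is a unit -/
theorem isUnit_of_deg0 (h : a.Pr U univ) {N : EH a U univ} (hN : IsDeg 0 N)
    (h0 : ∀ x ∈ U, gp (Act.pt Gp.one) (fun _ => 1) (fun _ => x) univ univ N ≠ 0) : IsUnit N := by
  have key : ∀ p ∈ a.bs U, ev p N ≠ 0 := by
    rintro _ ⟨e, x, hx, rfl⟩ e0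
    have k : GAdm (Act.pt Gp.one) a (fun _ => 1) (fun _ => x) univ univ U univ :=
      ⟨Act.pr_pt _, h, continuousOn_const, fun _ _ _ => (a.act_one x).symm, fun _ _ => hx,
        fun _ _ _ => trivial⟩
    refine h0 x hx ((hN.gp _ _).eq_zero_of_ev fun q hq => ?_)
    rw [gp_def, ev_pull k.ok hq, ← e0]
    exact ev_bmk h.inv N hx _ _
  obtain ⟨θ, m, rfl, d⟩ := hN
  have s : a.bs U ⊆ a.bs univ := Act.bs_mono (subset_univ _)
  have m' : zc (fun p => (θ [p])⁻¹) ∈ Zc (a.bs U) (a.bs univ) := mem_Zc.2 ⟨zc_bd _,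
    dl_zc_lz fun p hp => (eventually_apply_eq m.1.2 hp).mono fun q hq => by rw [hq], by
      rw [Set.sdiff_eq_empty.2 s]; exact lz_empty _⟩
  have c : CupOK (a.bs U) (a.bs univ) (a.bs U) (a.bs univ) (a.bs U) (a.bs univ) :=
    .of_subset subset_rfl subset_rfl fun _ _ k _ => k
  have d1 : IsDeg 0 (cls (a.bs U) (a.bs univ) θ) := isDeg_cls m d
  have d2 : IsDeg 0 (cls (a.bs U) (a.bs univ) (zc fun p => (θ [p])⁻¹)) := isDeg_cls m' (hom_zc _)
  refine ⟨⟨cls _ _ θ, cls _ _ (zc fun p => (θ [p])⁻¹), ?_, ?_⟩, rfl⟩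
  · refine sub_eq_zero.1 (IsDeg.eq_zero_of_ev (IsDeg.sub (zero_add (0 : ℤ) ▸ d1.ecup d2) isDeg_eone)
      fun p hp => ?_)
    have := key p hp
    rw [ev_cls hp m] at this
    rw [map_sub, mul_def, ecup, ev_cup c hp hp hp, ev_cls hp m, ev_cls hp m', one_def, eone,
      ev_one hp s]
    exact sub_eq_zero.2 (mul_inv_cancel₀ this)
  · refine sub_eq_zero.1 (IsDeg.eq_zero_of_ev (IsDeg.sub (zero_add (0 : ℤ) ▸ d2.ecup d1) isDeg_eone)
      fun p hp => ?_)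
    have := key p hp
    rw [ev_cls hp m] at this
    rw [map_sub, mul_def, ecup, ev_cup c hp hp hp, ev_cls hp m, ev_cls hp m', one_def, eone,
      ev_one hp s]
    exact sub_eq_zero.2 (inv_mul_cancel₀ this)

/-- `H^0` of a point -/
theorem deg0_pt {c : HPt G} (hc : IsDeg 0 c) : ∃ z : ℂ, c = z • (1 : HPt G) := by
  obtain ⟨e⟩ : Nonempty (Fm G.ι) := inferInstance
  refine ⟨ev ((Act.pt G).bmk e ()) c, sub_eq_zero.1
    (IsDeg.eq_zero_of_ev (hc.sub (isDeg_eone.smul _)) ?_)⟩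
  intro p hp
  obtain ⟨e', x, hx, rfl⟩ := id hp
  rw [map_sub, map_smul, one_def, eone, ev_one hp subset_rfl, smul_eq_mul, mul_one,
    ev_bmk (Act.inv_univ _) c hx e' e, sub_self]

theorem one_ne_zero_pt : (1 : HPt G) ≠ 0 := fun h => by
  obtain ⟨e⟩ : Nonempty (Fm G.ι) := inferInstance
  have := ev_one (U := (Act.pt G).bs univ) (x := (Act.pt G).bmk e ()) ⟨e, (), trivial, rfl⟩ subset_rfl
  rw [show cls _ _ onec = (0 : HPt G) from h, map_zero] at this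
  exact zero_ne_one this

end Pool.Agent.Work.MP_849ab0_ag.G
end
end

-- merged part: Pool.Agent.Work.MP_849ab0_ag.G.GrpMor
section
/-! Isomorphisms of quotient stacks induce isomorphisms in equivariant cohomology. -/

noncomputable section

set_option linter.unusedSectionVars false
set_option linter.unusedVariables false

namespace Pool.Agent.Work.MP_849ab0_ag.G

open Set Topology Matrix Filter

section

variable {P Q : Type} [TopologicalSpace P] [TopologicalSpace Q] {q : P → Q} {V : Set P} {U : Set Q}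

/-- a surjection that is open on the subspaces -/
theorem OQ.of_restrict (m : MapsTo q V U) (h : IsOpenQuotientMap (m.restrict q V U)) : OQ q V U :=
  ⟨m, fun b hb => by
    obtain ⟨p, e⟩ := h.surjective ⟨b, hb⟩
    exact ⟨p, p.2, congrArg Subtype.val e⟩, fun p hp => by
    rw [← map_nhds_subtype_val ⟨p, hp⟩, ← map_nhds_subtype_val ⟨q p, m hp⟩, Filter.map_map]
    change map (Subtype.val ∘ m.restrict q V U) _ = map Subtype.val (𝓝 (m.restrict q V U ⟨p, hp⟩))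
    rw [← h.map_nhds_eq, Filter.map_map]⟩

theorem exists_desc {R : Type} [Nonempty R] {F : P → R}
    (h : ∀ p ∈ V, ∀ p' ∈ V, q p = q p' → F p = F p') : ∃ F' : Q → R, ∀ p ∈ V, F' (q p) = F p := by
  classical
  refine ⟨fun b => if m : ∃ p ∈ V, q p = b then F m.choose else Classical.arbitrary _,
    fun p hp => ?_⟩
  have m : ∃ p' ∈ V, q p' = q p := ⟨p, hp, rfl⟩
  exact (dif_pos m).trans (h _ m.choose_spec.1 p hp m.choose_spec.2)

/-- proper maps between subsets of metrisable spaces are closed -/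
theorem isProperMap_restrict [T3Space Q] [SecondCountableTopology Q] (m : MapsTo q V U)
    (hc : ContinuousOn q V) (hp : ∀ K ⊆ U, IsCompact K → IsCompact (V ∩ q ⁻¹' K)) :
    IsProperMap (m.restrict q V U) := by
  refine isProperMap_iff_isCompact_preimage.2 ⟨hc.mapsToRestrict m, fun K hK => ?_⟩
  rw [Subtype.isCompact_iff]
  convert hp _ (Subtype.coe_image_subset U K) (Subtype.isCompact_iff.1 hK) using 1
  ext p
  constructor
  · rintro ⟨p, k, rfl⟩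
    exact ⟨p.2, _, k, rfl⟩
  · rintro ⟨k, b, k', e⟩
    exact ⟨⟨p, k⟩, by rwa [mem_preimage, show m.restrict q V U ⟨p, k⟩ = b from Subtype.ext e.symm],
      rfl⟩

end

variable {G G' : Gp} [G.Nice] [G'.Nice] {X X' : Type}
variable [TopologicalSpace X] [TopologicalSpace X'] [T3Space X] [SecondCountableTopology X]
  [T3Space X'] [SecondCountableTopology X']
variable {a : Act G X} {a' : Act G' X'} [a.Ok] [a'.Ok] {U Z : Set X} {U' Z' : Set X'}
variable {φ : G'.H → G.H} [IsHom φ] {f : X' → X}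

/-- The case that `G × U' → U` is known to be an open quotient map. -/
theorem gp_bij_of_oq (k : GAdm a' a φ f U' Z' U Z) (hz : ∀ x ∈ U', x ∈ Z' → f x ∈ Z)
    (ho : OQ (fun z : G.H × X' => a.act z.1 (f z.2)) (univ ×ˢ U') U)
    (hu : ∀ x ∈ U', ∀ x' ∈ U', ∀ g, a.act g (f x) = f x' → ∃! g', φ g' = g ∧ a'.act g' x = x') :
    Function.Bijective (gp a' φ f U' Z' : EH a U Z → _) := by
  classical
  -- the quotient map `EG × U' → EG ×_G U`
  let q : Fm G.ι × X' → a.Bor := fun z => a.bmk z.1 (f z.2)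
  have hq : OQ q (univ ×ˢ U') (a.bs U) := by
    have h1 : OQ (fun z : G.H × Fm G.ι × X' => (G.fm.act z.1 z.2.1, z.1, z.2.2))
        (univ ×ˢ univ ×ˢ U') (univ ×ˢ univ ×ˢ U') :=
      .of_inv (s := fun z : Fm G.ι × G.H × X' => (z.2.1, G.fm.act z.2.1⁻¹ z.1, z.2.2))
        ((G.fm.cont_act continuous_fst continuous_snd.fst).prodMk (by fun_prop)).continuousOn
        (continuous_snd.fst.prodMk ((G.fm.cont_act continuous_snd.fst.inv continuous_fst).prodMk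
          continuous_snd.snd)).continuousOn
        (fun _ m => ⟨trivial, trivial, m.2.2⟩) (fun _ m => ⟨trivial, trivial, m.2.2⟩)
        (fun _ _ => by simp only [Act.act_inv]) fun _ _ => by simp only [Act.act_inv']
    refine (OQ.snd (P := G.H) _).of_comp (((Act.oq_bq k.tgt.inv).comp
      (((OQ.refl univ).prodMap ho).comp h1)).congr fun z _ => a.bmk_act _ _ _)
  have hr : ∀ p ∈ univ ×ˢ U', ∀ p' ∈ univ ×ˢ U', q p = q p' →
      ∃ γ, p'.1 = G.fm.act (φ γ) p.1 ∧ p'.2 = a'.act γ p.2 := by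
    intro p m p' m' e
    obtain ⟨g, e1, e2⟩ := a.bmk_eq_iff.1 e
    obtain ⟨γ, ⟨rfl, e3⟩, -⟩ := hu _ m.2 _ m'.2 g e2
    exact ⟨γ, e1.symm, e3.symm⟩
  -- an equivariant map `EG × U' → EG'`
  have := a'.ok_sub k.src.inv
  obtain ⟨κ0, c0, e0⟩ := exists_fm (G := G') id (fun _ _ => rfl) continuous_id
    ((G.fm.res φ).prod (a'.sub U')).act Act.Ok.cont Act.Ok.one Act.Ok.mul fun p γ e => by
      have e1 : φ γ = 1 := Gp.fm_free (congrArg Prod.fst e)
      have e2 : a'.act γ p.2 = p.2 :=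
        (a'.sub_val k.src.inv γ p.2).symm.trans (congrArg (fun z => z.2.1) e)
      exact (hu _ p.2.2 _ p.2.2 1 (a.act_one _)).unique ⟨e1, e2⟩ ⟨IsHom.one ‹_›, a'.act_one _⟩
  let κ : Fm G.ι × X' → Fm G'.ι := fun z =>
    if m : z.2 ∈ U' then κ0 (z.1, ⟨z.2, m⟩) else Classical.arbitrary _
  have cκ : ContinuousOn κ (univ ×ˢ U') := by
    rw [continuousOn_iff_continuous_domRestrict]
    refine (c0.comp (continuous_subtype_val.fst.prodMk
      (continuous_subtype_val.snd.subtype_mk fun z => z.2.2))).congr fun z => ?_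
    exact (dif_pos (t := fun m => κ0 (z.1.1, ⟨z.1.2, m⟩)) z.2.2).symm
  have eκ : ∀ γ e, ∀ x ∈ U', κ (G.fm.act (φ γ) e, a'.act γ x) = G'.fm.act γ (κ (e, x)) := by
    intro γ e x m
    simp only [κ, dif_pos m, dif_pos (k.src.inv γ x m)]
    refine Eq.trans (congrArg κ0 ?_) (e0 γ (e, ⟨x, m⟩))
    exact Prod.ext rfl (Subtype.ext (a'.sub_val k.src.inv γ ⟨x, m⟩).symm)
  -- the inverse map
  rcases isEmpty_or_nonempty X' with h0 | h0
  · have e1 : Disjoint (a.bs U) (a.bs Z) := Set.disjoint_left.2 fun b m => by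
      obtain ⟨p, -, -⟩ := hq.surj m
      exact h0.elim p.2
    have e2 : Disjoint (a'.bs U') (a'.bs Z') := Set.disjoint_left.2 fun b ⟨_, x, _⟩ => h0.elim x
    have := subsingleton_H e1
    have := subsingleton_H e2
    exact ⟨fun _ _ _ => Subsingleton.elim _ _, fun _ => ⟨0, Subsingleton.elim _ _⟩⟩
  have : Nonempty a'.Bor := ⟨a'.bmk (Classical.arbitrary _) (Classical.arbitrary _)⟩
  obtain ⟨Ψ, eΨ⟩ := exists_desc (q := q) (V := univ ×ˢ U') (F := fun p => a'.bmk (κ p) p.2)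
    fun p m p' m' e => by
      obtain ⟨e', x'⟩ := p'
      obtain ⟨γ, rfl, rfl⟩ := hr p m _ m' e
      dsimp only
      rw [eκ γ _ _ m.2, a'.bmk_act]
  have oΨ : Ok Ψ (a.bs U) (a.bs Z) (a'.bs U') (a'.bs Z') := by
    refine .of_mem (.of_continuousOn k.tgt.bs_lc
      (hq.contOn_iff.2 ((a'.contOn_bmk cκ continuousOn_snd).congr eΨ))) (fun b m => ?_)
      fun b m m' => ?_
    · obtain ⟨p, hp, rfl⟩ := hq.surj m
      rw [eΨ p hp]; exact ⟨_, _, hp.2, rfl⟩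
    · obtain ⟨p, hp, rfl⟩ := hq.surj m
      rw [eΨ p hp, k.src.mem_bs hp.2] at m'
      exact ⟨_, _, hz _ hp.2 m', rfl⟩
  refine Function.bijective_iff_has_inverse.2 ⟨pull Ψ (a.bs U) (a.bs Z), fun c => ?_, fun c => ?_⟩
  · rw [gp_def, pull_pull oΨ k.ok, pull_eq_of_lift hq k.tgt.bs_lc k.tgt.bs_cl k.tgt
      (g0 := fun p => eps φ (κ p)) (g1 := Prod.fst) (f := fun z => f z.1.2)
      ((eps_spec φ).1.comp_continuousOn cκ) continuousOn_fst
      (k.cont.comp continuous_fst.snd.continuousOn fun _ m => m.1.2) ?_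
      (fun p m _ _ => k.maps m.2) (fun p m _ _ m' => ⟨_, _, m', rfl⟩) (F1 := id)
      (fun p m => by rw [Function.comp_apply, eΨ p m, gm_bmk k.eqv _ m.2]) (fun _ _ => rfl),
      pull_id]
    rintro p m ⟨e', x'⟩ m' e
    obtain ⟨γ, rfl, rfl⟩ := hr p m _ m' e
    exact ⟨φ γ, by rw [eκ γ _ _ m.2, (eps_spec φ).2], rfl, fun _ _ => k.eqv _ _ m.2⟩
  · have kid : GAdm a' a' id id U' Z' U' Z' := .res k.src k.src subset_rfl fun _ _ m => m
    rw [gp_def, pull_pull k.ok oΨ, ← gp_eq kid (g := fun z => κ (eps φ z.1, z.2))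
      (cκ.comp (((eps_spec φ).1.comp continuous_fst).prodMk continuous_snd).continuousOn
        fun _ m => ⟨trivial, m.2⟩)
      (fun γ e x m => by dsimp only; rw [(eps_spec φ).2, eκ γ _ _ m]; rfl)
      (fun e x m => by
        rw [Function.comp_apply, gm_bmk k.eqv e m]; exact eΨ (eps φ e, x) ⟨trivial, m⟩),
      gp_id0 k.src]

/-- a proper map -/
theorem oq_of_proper (k : GAdm a' a φ f U' Z' U Z) (hs : ∀ y ∈ U, ∃ g, ∃ x ∈ U', a.act g (f x) = y)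
    (hu : ∀ x ∈ U', ∀ x' ∈ U', ∀ g, a.act g (f x) = f x' → ∃ g', φ g' = g ∧ a'.act g' x = x')
    (hp : ∀ K ⊆ U, IsCompact K → IsCompact (U' ∩ f ⁻¹' K)) :
    OQ (fun z : G.H × X' => a.act z.1 (f z.2)) (univ ×ˢ U') U := by
  have m : MapsTo (fun z : G.H × X' => a.act z.1 (f z.2)) (univ ×ˢ U') U :=
    fun z hz => k.tgt.inv _ _ (k.maps hz.2)
  have c : ContinuousOn (fun z : G.H × X' => a.act z.1 (f z.2)) (univ ×ˢ U') :=
    a.contOn_act continuousOn_fst (k.cont.comp continuousOn_snd fun _ hz => hz.2)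
  have hpr := isProperMap_restrict m c fun K hK cK => by
    -- the saturation of `K` is compact
    have h1 : IsCompact ((fun z : G.H × X => a.act z.1 z.2) '' univ ×ˢ K) :=
      (isCompact_univ.prod cK).image Act.Ok.cont
    have h2 := hp _ (by rintro _ ⟨z, hz, rfl⟩; exact k.tgt.inv _ _ (hK hz.2)) h1
    have h3 := isCompact_univ (X := G.H).prod h2
    have h4 : IsClosed ((univ ×ˢ (U' ∩ f ⁻¹' ((fun z : G.H × X => a.act z.1 z.2) '' univ ×ˢ K))) ∩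
        (fun z : G.H × X' => a.act z.1 (f z.2)) ⁻¹' K) :=
      (c.mono (Set.prod_mono subset_rfl inter_subset_left)).preimage_isClosed_of_isClosed
        h3.isClosed cK.isClosed
    convert h3.of_isClosed_subset h4 inter_subset_left using 1
    ext z
    exact ⟨fun hz => ⟨⟨trivial, hz.1.2, (z.1⁻¹, _), ⟨trivial, hz.2⟩, a.act_inv _ _⟩, hz.2⟩,
      fun hz => ⟨⟨trivial, hz.1.2.1⟩, hz.2⟩⟩
  have hsurj : Function.Surjective (m.restrict _ _ _) := fun y => by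
    obtain ⟨g, x, hx, e⟩ := hs y y.2
    exact ⟨⟨(g, x), trivial, hx⟩, Subtype.ext e⟩
  let s : G'.H → (univ ×ˢ U' : Set (G.H × X')) → (univ ×ˢ U' : Set (G.H × X')) := fun γ z =>
    ⟨(z.1.1 * (φ γ)⁻¹, a'.act γ z.1.2), trivial, k.src.inv _ _ z.2.2⟩
  have : IsOrbQ s (m.restrict _ _ _) :=
    ⟨((continuous_snd.subtype_val.fst.mul ((IsHom.cont.comp continuous_fst).inv)).prodMk
      (a'.cont_act continuous_fst continuous_snd.subtype_val.snd)).subtype_mk _,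
      fun z => Subtype.ext (Prod.ext (by simp [s, IsHom.one ‹_›]) (a'.act_one _)),
      fun g h z => Subtype.ext (Prod.ext (by simp [s, IsHom.mul, mul_assoc]) (a'.act_mul _ _ _)),
      hpr.isClosedMap.isQuotientMap hpr.continuous hsurj, fun z w => ⟨fun e => by
        have e' : a.act z.1.1 (f z.1.2) = a.act w.1.1 (f w.1.2) := congrArg Subtype.val e
        obtain ⟨γ, e1, e2⟩ := hu _ z.2.2 _ w.2.2 (w.1.1⁻¹ * z.1.1) (by
          rw [a.act_mul, e', a.act_inv])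
        exact ⟨γ, Subtype.ext (Prod.ext (by simp [s, e1]) e2)⟩, by
        rintro ⟨γ, rfl⟩
        refine Subtype.ext ?_
        change a.act z.1.1 (f z.1.2) = a.act (z.1.1 * (φ γ)⁻¹) (f (a'.act γ z.1.2))
        rw [k.eqv _ _ z.2.2, a.act_mul, a.act_inv]⟩⟩
  exact .of_restrict m this.isOpenQuotientMap

end Pool.Agent.Work.MP_849ab0_ag.G
end
end

-- merged part: Pool.Agent.Work.MP_849ab0_ag.G.ApiB
section
/-!
Exact sequences, excision, homotopy invariance, descent (owners helper40; stackIso and gp_inner helper43).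
-/

noncomputable section

set_option linter.unusedSectionVars false
set_option linter.unusedVariables false

namespace Pool.Agent.Work.MP_849ab0_ag.G

open Set Topology Matrix

variable {G G' G'' : Gp} [G.Nice] [G'.Nice] [G''.Nice] {X X' X'' Y Y' : Type}
  [TopologicalSpace X] [T3Space X] [SecondCountableTopology X]
  [TopologicalSpace X'] [T3Space X'] [SecondCountableTopology X']
  [TopologicalSpace X''] [T3Space X''] [SecondCountableTopology X'']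
  [TopologicalSpace Y] [T3Space Y] [SecondCountableTopology Y]
  [TopologicalSpace Y'] [T3Space Y'] [SecondCountableTopology Y']
  {a : Act G X} [a.Ok] {a' : Act G' X'} [a'.Ok] {a'' : Act G'' X''} [a''.Ok]
  {b : Act G Y} [b.Ok] {b' : Act G' Y'} [b'.Ok]
  {φ : G'.H → G.H} [IsHom φ] {ψ : G''.H → G'.H} [IsHom ψ]

variable {U Z Z₁ O A B : Set X} {U' Z' Z₁' A' B' : Set X'} {f : X' → X}

/-! ### the long exact sequence `EH U Z₁ → EH U Z → EH (U \ Z₁) Z → EH U Z₁` -/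

theorem les_aux (h : a.Pr U Z) (h₁ : a.Pr U Z₁) (e : U ∩ Z₁ ⊆ Z) :
    a.bs (U \ Z₁) \ a.bs Z = a.bs U \ a.bs Z := by
  rw [← (h.diff h₁).bs_diff, ← h.bs_diff]
  congr 1
  exact Set.ext fun x => ⟨fun k => ⟨k.1.1, k.2⟩, fun k => ⟨⟨k.1, fun m => k.2 (e ⟨k.1, m⟩)⟩, k.2⟩⟩

theorem ebd_def {A B : Set X} : (ebd U Z : EH a A B →ₗ[ℂ] _) = dlt (a.bs U) (a.bs Z) := bdry_eq_dlt

theorem les_mid (h : a.Pr U Z) (h₁ : a.Pr U Z₁) (e : U ∩ Z₁ ⊆ Z) (x : EH a U Z) :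
    gp a id id (U \ Z₁) Z x = 0 ↔ ∃ y : EH a U Z₁, gp a id id U Z y = x := by
  rw [gp_res (gadm_id h (h.diff h₁) sdiff_subset inter_subset_right),
    gp_res (gadm_id h₁ h subset_rfl e)]
  exact exact_supp_res h₁.bs_diff.symm (les_aux h h₁ e) x

theorem les_right (h : a.Pr U Z) (h₁ : a.Pr U Z₁) (e : U ∩ Z₁ ⊆ Z) (x : EH a (U \ Z₁) Z) :
    ebd U Z₁ x = 0 ↔ ∃ y : EH a U Z, gp a id id (U \ Z₁) Z y = x := by
  rw [gp_res (gadm_id h (h.diff h₁) sdiff_subset inter_subset_right), ebd_def]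
  exact exact_res_dlt h₁.bs_diff.symm (les_aux h h₁ e) x

theorem les_left (h : a.Pr U Z) (h₁ : a.Pr U Z₁) (e : U ∩ Z₁ ⊆ Z) (x : EH a U Z₁) :
    gp a id id U Z x = 0 ↔ ∃ y : EH a (U \ Z₁) Z, ebd U Z₁ y = x := by
  rw [gp_res (gadm_id h₁ h subset_rfl e), ebd_def]
  exact exact_dlt_supp h₁.bs_diff.symm (les_aux h h₁ e) x

theorem gp_ebd (k : GAdm a' a φ f U' Z₁' U Z₁) (k' : GAdm a' a φ f (U' \ Z₁') Z' (U \ Z₁) Z)
    (x : EH a (U \ Z₁) Z) :
    gp a' φ f U' Z₁' (ebd U Z₁ x) = ebd U' Z₁' (gp a' φ f (U' \ Z₁') Z' x) := by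
  rw [ebd_def, ebd_def]
  exact pull_dlt k.ok.ext subset_rfl (Act.bs_mono sdiff_subset) k.ok k'.ok k.src.bs_diff.symm.subset
    k.tgt.bs_diff.symm.subset x

theorem ebd_sm (h : a.Pr U Z) (h₁ : a.Pr U Z₁) {c : HPt G} (hc : Ev c) (x : EH a (U \ Z₁) Z) :
    ebd U Z₁ (sm c x) = sm c (ebd U Z₁ x) := by
  rw [sm_univ (h.diff h₁), sm_univ h₁, ← ecup_comm (ecup_univ (h.diff h₁)).symm x (hc.gp _ _),
    ← ecup_comm (ecup_univ h₁).symm _ (hc.gp _ _), ebd_def]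
  refine dlt_cup (ecup_univ (h.diff h₁)).symm.bs (ecup_univ h₁).symm.bs h₁.bs_diff.symm.subset
    h₁.bs_diff.symm.subset (fun _ k => Or.inr (Act.bs_mono (subset_univ _) k)) x _

/-! ### excision, Mayer-Vietoris, unions -/

theorem Act.Pr.congr_mem (h : a.Pr U Z) (e : ∀ x ∈ U, x ∈ Z ↔ x ∈ Z₁) : a.Pr U Z₁ :=
  ⟨h.lc, h.inv, fun g x hx k => (e _ (h.inv g x hx)).1 (h.invz g x hx ((e x hx).2 k)),
    Cl.congr h.cl e⟩

theorem Act.Pr.of_op (h : a.Pr U Z) (hO : a.Pr U (U \ O)) (e : O ⊆ U) : a.Pr O Z := by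
  have := h.diff hO
  rwa [Set.sdiff_sdiff_cancel_left e] at this

theorem Act.Pr.bs_op (hO : a.Pr U (U \ O)) (e : O ⊆ U) : ∀ p ∈ a.bs O, a.bs O ∈ 𝓝[a.bs U] p := by
  have := hO.bs_diff
  rw [Set.sdiff_sdiff_cancel_left e] at this
  rw [this]
  exact fun p hp => Cl.diff_mem_nhdsWithin hO.bs_cl hp

theorem res_res {U₁ U₂ Z₂ : Set X} (h : a.Pr U Z) (h₁ : a.Pr U₁ Z₁) (h₂ : a.Pr U₂ Z₂) (e₁ : U₁ ⊆ U)
    (e₁' : U₁ ∩ Z ⊆ Z₁) (e₂ : U₂ ⊆ U₁) (e₂' : U₂ ∩ Z₁ ⊆ Z₂) (c : EH a U Z) :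
    gp a id id U₂ Z₂ (gp a id id U₁ Z₁ c) = gp a id id U₂ Z₂ c :=
  gp_comp (gadm_id h h₁ e₁ e₁') (gadm_id h₁ h₂ e₂ e₂') (fun _ => rfl) (fun _ _ => rfl) c

/-- `O` is open in `U` and contains the support -/
theorem excision (h : a.Pr U Z) (hO : a.Pr U (U \ O)) (e : O ⊆ U) (e' : U ∩ Z ⊆ O) :
    Function.Bijective (gp a id id O Z : EH a U Z → _) := by
  rw [gp_res (gadm_id h (h.of_op hO e) e inter_subset_right)]
  exact res_excision (Act.bs_mono e) h.bs_cl (fun p k k' => hO.bs_op e p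
    (Act.bs_mono e' (h.bs_inter.symm.subset ⟨k, k'⟩))) fun _ _ => Iff.rfl

/-- `A`, `B` open in `A ∪ B` -/
structure MV (a : Act G X) (A B Z : Set X) : Prop where
  pr : a.Pr (A ∪ B) Z
  pa : a.Pr (A ∪ B) (B \ A)
  pb : a.Pr (A ∪ B) (A \ B)

namespace MV

variable (h : MV a A B Z)
include h

theorem opa : a.Pr (A ∪ B) ((A ∪ B) \ A) := h.pa.congr_mem (by grind)
theorem opb : a.Pr (A ∪ B) ((A ∪ B) \ B) := h.pb.congr_mem (by grind)
theorem prA : a.Pr A Z := h.pr.of_op h.opa subset_union_left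
theorem prB : a.Pr B Z := h.pr.of_op h.opb subset_union_right
theorem prAB : a.Pr (A ∩ B) Z :=
  h.prA.of_op ((h.pb.mono h.prA subset_union_left).congr_mem (by grind)) inter_subset_left
theorem prS : a.Pr (A ∪ B) (Z \ B) := (h.pr.inter h.pb).congr_mem (by grind)
theorem prAS : a.Pr A (Z \ B) := h.prS.mono h.prA subset_union_left

theorem bw : BW (gp a id id (A ∪ B) Z : EH a (A ∪ B) (Z \ B) →ₗ[ℂ] _)
    (gp a id id ((A ∪ B) \ (Z \ B)) Z) (ebd (A ∪ B) (Z \ B))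
    (gp a id id A Z : EH a A (Z \ B) →ₗ[ℂ] _) (gp a id id (A \ (Z \ B)) Z) (ebd A (Z \ B))
    (gp a id id A (Z \ B)) (gp a id id A Z) (gp a id id (A \ (Z \ B)) Z) (gp a id id (A ∩ B) Z)
    (gp a id id B Z) (mvd a A B Z) :=
  have d := h.pr.diff h.prS
  have d' := h.prA.diff h.prAS
  have ba := excision h.prS h.opa subset_union_left (by grind)
  have bb := excision d' (O := A ∩ B) ((h.pb.mono d' (by grind)).congr_mem (by grind)) (by grind)
    (by grind)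
  { ij := les_mid h.pr h.prS (by grind)
    jd := les_right h.pr h.prS (by grind)
    di := les_left h.pr h.prS (by grind)
    ij' := les_mid h.prA h.prAS (by grind)
    jd' := les_right h.prA h.prAS (by grind)
    di' := les_left h.prA h.prAS (by grind)
    ba := ba
    bb := bb
    bc := excision d ((h.pb.mono d (by grind)).congr_mem (by grind)) (by grind) (by grind)
    c1 := fun x => by
      rw [res_res h.prS h.pr h.prA (by grind) (by grind) (by grind) (by grind),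
        res_res h.prS h.prAS h.prA (by grind) (by grind) (by grind) (by grind)]
    c2 := fun x => by
      rw [res_res h.pr d d' (by grind) (by grind) (by grind) (by grind),
        res_res h.pr h.prA d' (by grind) (by grind) (by grind) (by grind)]
    c3 := gp_ebd (gadm_id h.prS h.prAS (by grind) (by grind)) (gadm_id d d' (by grind) (by grind))
    em := fun u v e => by
      simp only [mvd, LinearMap.comp_apply]
      rw [linv_apply bb, ← e, linv_apply ba] }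

theorem jB (x : EH a (A ∪ B) Z) :
    gp a id id B Z (gp a id id ((A ∪ B) \ (Z \ B)) Z x) = gp a id id B Z x :=
  res_res h.pr (h.pr.diff h.prS) h.prB (by grind) (by grind) (by grind) (by grind) x

theorem jA (x : EH a A Z) :
    gp a id id (A ∩ B) Z (gp a id id (A \ (Z \ B)) Z x) = gp a id id (A ∩ B) Z x :=
  res_res h.prA (h.prA.diff h.prAS) h.prAB (by grind) (by grind) (by grind) (by grind) x

theorem jAB (x : EH a ((A ∪ B) \ (Z \ B)) Z) :
    gp a id id (A ∩ B) Z (gp a id id (A \ (Z \ B)) Z x) =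
      gp a id id (A ∩ B) Z (gp a id id B Z x) := by
  rw [res_res (h.pr.diff h.prS) (h.prA.diff h.prAS) h.prAB (by grind) (by grind) (by grind)
    (by grind), res_res (h.pr.diff h.prS) h.prB h.prAB (by grind) (by grind) (by grind) (by grind)]

theorem rep (z : EH a (A ∩ B) Z) : ∃ (u : EH a (A ∪ B) (Z \ B)) (v : EH a (A \ (Z \ B)) Z),
    gp a id id A (Z \ B) u = ebd A (Z \ B) v ∧ gp a id id (A ∩ B) Z v = z := by
  obtain ⟨v, rfl⟩ := h.bw.bb.2 z
  obtain ⟨u, e⟩ := h.bw.ba.2 (ebd A (Z \ B) v)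
  exact ⟨u, v, e, rfl⟩

end MV

theorem mv_union (h : MV a A B Z) (x : EH a (A ∪ B) Z) :
    (gp a id id A Z x = 0 ∧ gp a id id B Z x = 0) ↔ ∃ y, mvd a A B Z y = x := by
  rw [← h.jB]; exact h.bw.union x

theorem mv_mid (h : MV a A B Z) (x : EH a A Z) (y : EH a B Z) :
    gp a id id (A ∩ B) Z x = gp a id id (A ∩ B) Z y ↔
      ∃ z : EH a (A ∪ B) Z, gp a id id A Z z = x ∧ gp a id id B Z z = y := by
  constructor
  · obtain ⟨w, rfl⟩ := h.bw.bc.2 y
    intro e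
    obtain ⟨z, e1, rfl⟩ := h.bw.mid x w (h.bw.bb.1 (by rw [h.jA, h.jAB, e]))
    exact ⟨z, e1, (h.jB z).symm⟩
  · rintro ⟨z, rfl, rfl⟩
    rw [res_res h.pr h.prA h.prAB (by grind) (by grind) (by grind) (by grind),
      res_res h.pr h.prB h.prAB (by grind) (by grind) (by grind) (by grind)]

theorem mv_inter (h : MV a A B Z) (z : EH a (A ∩ B) Z) :
    mvd a A B Z z = 0 ↔ ∃ (x : EH a A Z) (y : EH a B Z),
      gp a id id (A ∩ B) Z x - gp a id id (A ∩ B) Z y = z := by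
  rw [h.bw.inter]
  simp only [h.jA, h.jAB]
  exact exists_congr fun x => ⟨fun ⟨w, e⟩ => ⟨_, e⟩, fun ⟨y, e⟩ => by
    obtain ⟨w, rfl⟩ := h.bw.bc.2 y
    exact ⟨w, e⟩⟩

theorem gp_mvd (h : MV a A B Z) (h' : MV a' A' B' Z')
    (k : GAdm a' a φ f (A' ∪ B') Z' (A ∪ B) Z) (kA : MapsTo f A' A) (kB : MapsTo f B' B)
    (z : EH a (A ∩ B) Z) :
    gp a' φ f (A' ∪ B') Z' (mvd a A B Z z) = mvd a' A' B' Z' (gp a' φ f (A' ∩ B') Z' z) := by
  obtain ⟨u, v, e, rfl⟩ := h.rep z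
  have mk : ∀ {P Q : Set X} {P' Q' : Set X'}, a.Pr P Q → a'.Pr P' Q' → P' ⊆ A' ∪ B' →
      MapsTo f P' P → (∀ x ∈ P', f x ∈ Q → x ∈ Q') → GAdm a' a φ f P' Q' P Q :=
    fun h1 h2 s m z => ⟨h2, h1, k.cont.mono s, fun g x hx => k.eqv g x (s hx), m, z⟩
  have s : ∀ x ∈ A' ∪ B', f x ∈ Z \ B → x ∈ Z' \ B' := fun x hx m =>
    ⟨k.supp x hx m.1, fun b => m.2 (kB b)⟩
  have k1 := mk h.prS h'.prS subset_rfl k.maps s
  have k2 := mk h.prAS h'.prAS subset_union_left kA fun x hx => s x (Or.inl hx)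
  have k3 := mk (h.prA.diff h.prAS) (h'.prA.diff h'.prAS) (by grind)
    (fun x hx => ⟨kA hx.1, fun m => hx.2 (s x (Or.inl hx.1) m)⟩) fun x hx => k.supp x (Or.inl hx.1)
  have k4 := mk h.prAB h'.prAB (by grind) (fun x hx => ⟨kA hx.1, kB hx.2⟩)
    fun x hx => k.supp x (Or.inl hx.1)
  rw [h.bw.em u v e, gp_comp (gadm_id h.prS h.pr subset_rfl (by grind)) k (χ := φ) (fun _ => rfl)
    (k := f) fun _ _ => rfl, gp_comp (gadm_id (h.prA.diff h.prAS) h.prAB (by grind) (by grind)) k4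
    (χ := φ) (fun _ => rfl) (k := f) fun _ _ => rfl,
    ← gp_comp k3 (gadm_id (h'.prA.diff h'.prAS) h'.prAB (by grind) (by grind)) (χ := φ)
      (fun _ => rfl) (k := f) fun _ _ => rfl, h'.bw.em (gp a' φ f _ _ u),
    gp_comp k1 (gadm_id h'.prS h'.pr subset_rfl (by grind)) (χ := φ) (fun _ => rfl) (k := f)
      fun _ _ => rfl]
  rw [← gp_ebd k2 k3, ← e, gp_comp k1 (gadm_id h'.prS h'.prAS subset_union_left (by grind))
    (χ := φ) (fun _ => rfl) (k := f) fun _ _ => rfl, gp_comp (gadm_id h.prS h.prAS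
      subset_union_left (by grind)) k2 (χ := φ) (fun _ => rfl) (k := f) fun _ _ => rfl]

theorem mvd_sm (h : MV a A B Z) {c : HPt G} (hc : Ev c) (z : EH a (A ∩ B) Z) :
    mvd a A B Z (sm c z) = sm c (mvd a A B Z z) := by
  obtain ⟨u, v, e, rfl⟩ := h.rep z
  have k := gp_sm (gadm_id (h.prA.diff h.prAS) h.prAB (by grind) (by grind)) c v
  rw [gpt_id] at k
  rw [← k, h.bw.em u v e, h.bw.em (sm c u), gp_sm (gadm_id h.prS h.pr subset_rfl (by grind)), gpt_id]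
  rw [gp_sm (gadm_id h.prS h.prAS subset_union_left (by grind)), gpt_id, e, ebd_sm h.prA h.prAS hc]

theorem IsDeg.mvd (h : MV a A B Z) {p : ℤ} {z : EH a (A ∩ B) Z} (hz : IsDeg p z) :
    IsDeg (p + 1) (mvd a A B Z z) := by
  obtain ⟨u, v, e, rfl⟩ := h.rep z
  rw [h.bw.em u v e]
  have hv : IsDeg p v :=
    isDeg_of_map h.bw.bb.1 (d := 0) (fun p x k => by simpa using k.gp _ _) (by simpa using hz)
  refine IsDeg.gp (isDeg_of_map h.bw.ba.1 (d := 0) (fun p x k => by simpa using k.gp _ _) ?_) _ _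
  rw [e, add_zero]
  exact hv.ebd

theorem sum_supp_bij {ι : Type} [Fintype ι] {W : ι → Set X} (h : a.Pr U Z)
    (hW : ∀ i, a.Pr U (W i)) (e : U ∩ Z = U ∩ ⋃ i, W i)
    (hd : ∀ i j, i ≠ j → U ∩ W i ∩ W j = ∅) :
    Function.Bijective fun y : ∀ i, EH a U (W i) => ∑ i, gp a id id U Z (y i) := by
  have m : ∀ x ∈ U, x ∈ Z ↔ ∃ i, x ∈ W i := fun x hx => by
    simpa [hx] using Set.ext_iff.1 e x
  have r := fun i => gp_res (gadm_id (hW i) h subset_rfl fun x k => (m x k.1).2 ⟨i, k.2⟩)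
  simp only [r]
  refine additivity (fun i => (hW i).bs_cl) ?_ ?_
  · rintro i j _ ⟨e, x, hx, rfl⟩ k1 k2
    by_contra k
    exact (hd i j k).subset ⟨⟨hx, ((hW i).mem_bs hx).1 k1⟩, ((hW j).mem_bs hx).1 k2⟩
  · rintro _ ⟨e, x, hx, rfl⟩
    simp only [h.mem_bs hx, fun i => (hW i).mem_bs (e := e) hx, m x hx]

/-- finitely many disjoint closed supports -/
theorem exists_sum_supp {ι : Type} [Fintype ι] {W : ι → Set X} (h : a.Pr U Z)
    (hW : ∀ i, a.Pr U (W i)) (e : U ∩ Z = U ∩ ⋃ i, W i)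
    (hd : ∀ i j, i ≠ j → U ∩ W i ∩ W j = ∅) (x : EH a U Z) :
    ∃ y : ∀ i, EH a U (W i), x = ∑ i, gp a id id U Z (y i) :=
  ((sum_supp_bij h hW e hd).2 x).imp fun _ => Eq.symm

theorem sum_supp_inj {ι : Type} [Fintype ι] {W : ι → Set X} (h : a.Pr U Z)
    (hW : ∀ i, a.Pr U (W i)) (e : U ∩ Z = U ∩ ⋃ i, W i)
    (hd : ∀ i j, i ≠ j → U ∩ W i ∩ W j = ∅) (y : ∀ i, EH a U (W i))
    (hy : ∑ i, gp a id id U Z (y i) = 0) (i : ι) : y i = 0 :=
  congrFun ((sum_supp_bij h hW e hd).1 (a₂ := 0) (by simpa using hy)) i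

/-- increasing unions of open sets -/
theorem milnor (h : a.Pr U Z) {V : ℕ → Set X} (hV : ∀ N, a.Pr U (U \ V N)) (hm : Monotone V)
    (e : ⋃ N, V N = U)
    (hb : ∀ N, Function.Bijective (gp a id id (V N) Z : EH a (V (N + 1)) Z → _)) :
    Function.Bijective (gp a id id (V 0) Z : EH a U Z → _) := by
  have s : ∀ N, V N ⊆ U := fun N => e ▸ subset_iUnion V N
  have pr := fun N => h.of_op (hV N) (s N)
  rw [gp_res (gadm_id h (pr 0) (s 0) inter_subset_right)]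
  refine milnor_res (V := fun N => a.bs (V N)) h.bs_cl (fun _ _ k => Act.bs_mono (hm k))
    (Subset.antisymm (iUnion_subset fun N => Act.bs_mono (s N)) ?_) (fun N => (hV N).bs_op (s N))
    fun N => gp_res (gadm_id (pr (N + 1)) (pr N) (hm N.le_succ) inter_subset_right) ▸ hb N
  rintro _ ⟨y, x, hx, rfl⟩
  obtain ⟨N, k⟩ := mem_iUnion.1 (e.symm.subset hx)
  exact mem_iUnion.2 ⟨N, y, x, k, rfl⟩

/-! ### homotopy invariance and descent -/

theorem gp_htpy {F : ℝ → X' → X}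
    (hF : ContinuousOn (fun z : ℝ × X' => F z.1 z.2) (Icc 0 1 ×ˢ U'))
    (k : ∀ s ∈ Icc (0 : ℝ) 1, GAdm a' a φ (F s) U' Z' U Z) (c : EH a U Z) :
    gp a' φ (F 0) U' Z' c = gp a' φ (F 1) U' Z' c :=
  LinearMap.congr_fun (gp_hty (k 0 (by simp)).src (k 0 (by simp)).tgt (F := fun z => F z.2 z.1)
    (hF.comp continuous_swap.continuousOn fun _ m => ⟨m.2, m.1⟩)
    (fun g x hx t ht => (k t ht).eqv g x hx) (fun x hx t ht => (k t ht).maps hx)
    fun x hx t ht => (k t ht).supp x hx) c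

/-- equivariant deformation retracts `A ⊆ U` -/
theorem gp_bij_retract (h : a.Pr U Z) (hA : a.Pr A Z) (e : A ⊆ U) {F : ℝ → X → X}
    (hF : ContinuousOn (fun z : ℝ × X => F z.1 z.2) (Icc 0 1 ×ˢ U))
    (k : ∀ s ∈ Icc (0 : ℝ) 1, GAdm a a id (F s) U Z U Z)
    (kA : ∀ s ∈ Icc (0 : ℝ) 1, MapsTo (F s) A A) (k0 : ∀ x ∈ U, F 0 x = x)
    (k1 : MapsTo (F 1) U A) : Function.Bijective (gp a id id A Z : EH a U Z → _) := by
  have i := gadm_id h hA e inter_subset_right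
  have r : GAdm a a id (F 1) U Z A Z :=
    have := k 1 (by simp); ⟨h, hA, this.cont, this.eqv, k1, this.supp⟩
  have kA' : ∀ s ∈ Icc (0 : ℝ) 1, GAdm a a id (F s) A Z A Z := fun s hs =>
    ⟨hA, hA, (k s hs).cont.mono e, fun g x hx => (k s hs).eqv g x (e hx), kA s hs,
      fun x hx => (k s hs).supp x (e hx)⟩
  refine Function.bijective_iff_has_inverse.2 ⟨gp a id (F 1) U Z, fun c => ?_, fun c => ?_⟩
  · rw [gp_comp i r (χ := id) (fun _ => rfl) (k := F 1) (fun _ _ => rfl), ← gp_htpy hF k,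
      gp_congr h (k := id) k0, gp_id h]
  · rw [gp_comp r i (χ := id) (fun _ => rfl) (k := F 1) (fun _ _ => rfl),
      ← gp_htpy (hF.mono (Set.prod_mono subset_rfl e)) kA',
      gp_congr hA (k := id) fun x hx => k0 x (e hx), gp_id hA]

/-- an invariant set that is star shaped with respect to a fixed point -/
theorem gp_bij_pt (h : a.Pr U univ) {x₀ : X} (hx : x₀ ∈ U) (hx' : ∀ g, a.act g x₀ = x₀)
    {F : ℝ → X → X} (hF : ContinuousOn (fun z : ℝ × X => F z.1 z.2) (Icc 0 1 ×ˢ U))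
    (k : ∀ s ∈ Icc (0 : ℝ) 1, GAdm a a id (F s) U univ U univ) (k0 : ∀ x ∈ U, F 0 x = x)
    (k1 : ∀ x ∈ U, F 1 x = x₀) :
    Function.Bijective (gp a id (fun _ => ()) U univ : HPt G → _) := by
  have r := gadm_pt (G' := G) h id
  have i : GAdm (Act.pt G) a id (fun _ => x₀) univ univ U univ :=
    ⟨Act.pr_pt G, h, continuousOn_const, fun g _ _ => (hx' g).symm, fun _ _ => hx,
      fun _ _ _ => trivial⟩
  refine Function.bijective_iff_has_inverse.2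
    ⟨gp (Act.pt G) id (fun _ => x₀) univ univ, fun c => ?_, fun c => ?_⟩
  · rw [gp_comp r i (χ := id) (fun _ => rfl) (k := id) (fun _ _ => rfl), gp_id (Act.pr_pt G)]
  · rw [gp_comp i r (χ := id) (fun _ => rfl) (k := F 1) k1, ← gp_htpy hF k,
      gp_congr h (k := id) k0, gp_id h]

/-- `f` induces an isomorphism of quotient stacks `[U' / G'] ≃ [U / G]`; `f` is proper from `U'`
to `U`. -/
theorem stackIso (k : GAdm a' a φ f U' Z' U Z) (hz : ∀ x ∈ U', x ∈ Z' → f x ∈ Z)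
    (hs : ∀ y ∈ U, ∃ g, ∃ x ∈ U', a.act g (f x) = y)
    (hu : ∀ x ∈ U', ∀ x' ∈ U', ∀ g, a.act g (f x) = f x' → ∃! g', φ g' = g ∧ a'.act g' x = x')
    (hp : ∀ K ⊆ U, IsCompact K → IsCompact (U' ∩ f ⁻¹' K)) :
    Function.Bijective (gp a' φ f U' Z' : EH a U Z → _) :=
  gp_bij_of_oq k hz (oq_of_proper k hs (fun x m x' m' g e => (hu x m x' m' g e).exists) hp) hu

/-- homeomorphisms and isomorphisms of groups -/
theorem gp_bij_homeo (k : GAdm a' a φ f U' Z' U Z) {φ' : G.H → G'.H} [IsHom φ'] {f' : X → X'}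
    (k' : GAdm a a' φ' f' U Z U' Z') (e : ∀ g, φ (φ' g) = g) (e' : ∀ g, φ' (φ g) = g)
    (h : ∀ x ∈ U, f (f' x) = x) (h' : ∀ x ∈ U', f' (f x) = x) :
    Function.Bijective (gp a' φ f U' Z' : EH a U Z → _) :=
  Function.bijective_iff_has_inverse.2 ⟨gp a φ' f' U Z, fun c => by
    rw [gp_comp k k' (χ := id) (fun g => (e g).symm) (k := id) (fun x m => (h x m).symm),
      gp_id k.tgt], fun c => by
    rw [gp_comp k' k (χ := id) (fun g => (e' g).symm) (k := id) (fun x m => (h' x m).symm),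
      gp_id k.src]⟩

/-- inner automorphisms act trivially -/
theorem gp_inner (h : a.Pr U Z) (k : G.H) (c : EH a U Z) :
    gp a (fun g => k * g * k⁻¹) (a.act k) U Z c = c := by
  have := isHom_conj k
  rw [gp_twist (gadm_id h h subset_rfl inter_subset_right) (k := fun _ => k) continuousOn_const
    (φ₂ := fun g => k * g * k⁻¹) (fun γ _ _ => by simp) (f₂ := a.act k) fun _ _ => rfl, gp_id h]

end Pool.Agent.Work.MP_849ab0_ag.G
end
end

-- merged part: Pool.Agent.Work.MP_849ab0_ag.G.GrpSec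
section
/-! The closed subgroup theorem and the local triviality of `EG → BG`. -/

noncomputable section

set_option linter.unusedSectionVars false

namespace Pool.Agent.Work.MP_849ab0_ag.G

open Set Topology Filter NormedSpace

section Closed
variable {E : Type} [NormedRing E] [NormedAlgebra ℝ E] [NormedAlgebra ℚ E] [FiniteDimensional ℝ E]
  [CompleteSpace E] {Γ : Submonoid E}

theorem exp_neg_mul (x : E) : exp (-x) * exp x = 1 := by
  rw [← exp_add_of_commute (Commute.refl x).neg_left, neg_add_cancel, exp_zero]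

theorem exp_mul_neg (x : E) : exp x * exp (-x) = 1 := by simpa using exp_neg_mul (-x)

theorem exp_neg_mem (hi : ∀ x ∈ Γ, ∃ y ∈ Γ, y * x = 1) {x : E} (h : exp x ∈ Γ) : exp (-x) ∈ Γ := by
  obtain ⟨y, h1, h2⟩ := hi _ h
  rwa [← one_mul (exp (-x)), ← h2, mul_assoc, exp_mul_neg, mul_one]

theorem exp_mem_of_lim (hc : IsClosed (Γ : Set E)) (hi : ∀ x ∈ Γ, ∃ y ∈ Γ, y * x = 1) {α : Type}
    {l : Filter α} [l.NeBot] {z : α → E} {t : α → ℝ} {x : E} (hz : ∀ᶠ a in l, exp (z a) ∈ Γ)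
    (ht : Tendsto t l (𝓝[>] 0)) (hx : Tendsto (fun a => (t a)⁻¹ • z a) l (𝓝 x)) (s : ℝ) :
    exp (s • x) ∈ Γ := by
  wlog hs : 0 ≤ s generalizing s
  · simpa using exp_neg_mem hi (this (-s) (by linarith))
  obtain ⟨t0, tp⟩ := tendsto_nhdsWithin_iff.1 ht
  have h1 : Tendsto (fun a => (⌊s / t a⌋₊ : ℝ) * t a) l (𝓝 s) := by
    refine tendsto_of_tendsto_of_tendsto_of_le_of_le' (g := fun a => s - t a) (h := fun _ => s)
      (by simpa using t0.const_sub s) tendsto_const_nhds (tp.mono fun a p => ?_)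
      (tp.mono fun a p => ?_)
    · have := (div_lt_iff₀ p).1 (Nat.lt_floor_add_one (s / t a))
      linarith
    · exact (le_div_iff₀ p).1 (Nat.floor_le (div_nonneg hs (le_of_lt p)))
  refine hc.mem_of_tendsto (h1.smul hx).exp ((hz.and tp).mono fun a k => ?_)
  rw [smul_smul, mul_assoc, mul_inv_cancel₀ (ne_of_gt k.2), mul_one, Nat.cast_smul_eq_nsmul,
    exp_nsmul]
  exact pow_mem k.1 _

/-- The Lie algebra of a closed group of units. -/
def lieOf (hc : IsClosed (Γ : Set E)) (hi : ∀ x ∈ Γ, ∃ y ∈ Γ, y * x = 1) : Submodule ℝ E where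
  carrier := {x | ∀ s : ℝ, exp (s • x) ∈ Γ}
  zero_mem' s := by simp
  smul_mem' c x h s := by rw [smul_smul]; exact h _
  add_mem' {x y} hx hy := by
    have d : HasStrictFDerivAt (exp : E → E) (ContinuousLinearEquiv.refl ℝ E : E →L[ℝ] E) 0 :=
      hasStrictFDerivAt_exp_zero
    have g : HasDerivAt (fun t : ℝ => exp (t • x) * exp (t • y)) (x + y) 0 := by
      simpa using (hasDerivAt_exp_smul_const x (0 : ℝ)).fun_mul
        (hasDerivAt_exp_smul_const y (0 : ℝ))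
    have g0 : exp ((0 : ℝ) • x) * exp ((0 : ℝ) • y) = exp 0 := by simp
    have k := (g0 ▸ d.to_localInverse.hasFDerivAt).comp_hasDerivAt 0 g
    have k0 : d.localInverse _ _ _ 1 = 0 := by simpa using d.localInverse_apply_image
    refine exp_mem_of_lim hc hi (l := 𝓝[>] 0) (t := id)
      (z := fun t => d.localInverse _ _ _ (exp (t • x) * exp (t • y))) ?_ tendsto_id ?_
    · filter_upwards [nhdsWithin_le_nhds ((g0 ▸ g.continuousAt.tendsto).eventually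
        d.eventually_right_inverse)] with t e
      rw [e]; exact mul_mem (hx t) (hy t)
    · simpa [k0] using k.tendsto_slope_zero_right

/-- A closed group of units is locally an equivariant retract. -/
theorem exists_retr_closed (hc : IsClosed (Γ : Set E)) (hi : ∀ x ∈ Γ, ∃ y ∈ Γ, y * x = 1) :
    ∃ N : Set E, IsOpen N ∧ 1 ∈ N ∧ ∃ r : E → E, ContinuousOn r N ∧ r 1 = 1 ∧ (∀ m ∈ N, r m ∈ Γ) ∧
      ∀ m ∈ N, ∀ γ ∈ Γ, γ * m ∈ N → r (γ * m) = γ * r m := by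
  obtain ⟨M, hM⟩ := (lieOf hc hi).exists_isCompl
  let p : E →L[ℝ] E := LinearMap.toContinuousLinearMap (Submodule.projection _ _ hM)
  let q : E →L[ℝ] E := 1 - p
  have p1 : ∀ x, exp (p x) ∈ Γ := fun x => by
    simpa [p] using Submodule.projection_apply_mem hM x 1
  have p2 : ∀ x ∈ lieOf hc hi, p x = x := fun x k => Submodule.projection_apply_of_mem_left hM k
  have pp : ∀ x, p (p x) = p x := fun x => p2 _ (Submodule.projection_apply_mem hM x)
  have pq : ∀ x, p (q x) = 0 := fun x => by simp [q, pp]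
  have qp : ∀ x, q (p x) = 0 := fun x => by simp [q, pp]
  have qq : ∀ x, q (q x) = q x := fun x => by simp [q, pp]
  have hA : ∀ᶠ y in 𝓝 (0 : E), p y = 0 → exp y ∈ Γ → y = 0 := by
    by_contra k
    have := frequently_iff_neBot.1 (not_eventually.1 k)
    obtain ⟨𝒰, h𝒰⟩ := Ultrafilter.exists_le (𝓝 (0 : E) ⊓ 𝓟 {y | ¬(p y = 0 → exp y ∈ Γ → y = 0)})
    obtain ⟨u1, u2⟩ := le_inf_iff.1 h𝒰
    have u3 : ∀ᶠ y in (𝒰 : Filter E), p y = 0 ∧ exp y ∈ Γ ∧ y ≠ 0 :=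
      Eventually.mono (le_principal_iff.1 u2) fun y e => by simpa using e
    have := FiniteDimensional.proper_real E
    obtain ⟨x, x1, x2⟩ := isCompact_iff_ultrafilter_le_nhds.1 (isCompact_sphere (0 : E) 1)
      (𝒰.map fun y => ‖y‖⁻¹ • y) (le_principal_iff.2 (u3.mono fun y e => by
        simp [norm_smul, e.2.2]))
    have x3 : x ∈ lieOf hc hi := exp_mem_of_lim hc hi (z := id) (t := fun y => ‖y‖)
      (u3.mono fun y e => e.2.1) (tendsto_nhdsWithin_iff.2 ⟨by simpa using Tendsto.norm u1,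
        u3.mono fun y e => norm_pos_iff.2 e.2.2⟩) x2
    have x4 : p x = 0 := (isClosed_eq p.continuous continuous_const).mem_of_tendsto x2
      (u3.mono fun y e => by simp [e.1])
    rw [p2 x x3] at x4
    simp [x4] at x1
  have d : HasStrictFDerivAt (fun m => exp (p m) * exp (q m))
      (ContinuousLinearEquiv.refl ℝ E : E →L[ℝ] E) 0 := by
    have d0 : ∀ T : E →L[ℝ] E, HasStrictFDerivAt (fun m => exp (T m)) T 0 := fun T => by
      simpa using (T.map_zero.symm ▸ hasStrictFDerivAt_exp_zero (𝕂 := ℝ)).comp 0 T.hasStrictFDerivAt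
    refine ((d0 p).fun_mul' (d0 q)).congr_fderiv ?_
    ext x; simp [q]
  let P := d.toOpenPartialHomeomorph _
  have t1 : (1 : E) ∈ P.target := by simpa using d.image_mem_toOpenPartialHomeomorph_target
  have s0 : P.symm 1 = 0 := by
    simpa [HasStrictFDerivAt.localInverse_def] using d.localInverse_apply_image
  have cP : Tendsto P.symm (𝓝 1) (𝓝 0) := s0 ▸ P.continuousAt_symm t1
  have ri : ∀ m ∈ P.target, exp (p (P.symm m)) * exp (q (P.symm m)) = m := fun m k => P.right_inv k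
  have c0 : ∀ T : E →L[ℝ] E, Tendsto (fun m => T (P.symm m)) (𝓝 1) (𝓝 0) := fun T => by
    simpa [Function.comp_def] using (T.continuous.tendsto 0).comp cP
  have hB : ∀ᶠ γ in 𝓝 (1 : E), γ ∈ Γ → exp (p (P.symm γ)) = γ := by
    filter_upwards [(c0 q).eventually hA, P.open_target.mem_nhds t1] with γ k1 k2 k3
    have := ri γ k2
    rw [k1 (pq _) (by
      rw [← one_mul (exp _), ← exp_neg_mul (p (P.symm γ)), mul_assoc, this]
      exact mul_mem (exp_neg_mem hi (p1 _)) k3), exp_zero, mul_one] at this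
    exact this
  have cδ : Tendsto (fun z : E × E => exp (q (P.symm z.2)) * exp (-q (P.symm z.1))) (𝓝 1 ×ˢ 𝓝 1)
      (𝓝 1) := by
    simpa using ((c0 q).comp tendsto_snd).exp.mul ((c0 q).comp tendsto_fst).neg.exp
  have hs := P.open_source.mem_nhds d.mem_toOpenPartialHomeomorph_source
  have hC : ∀ᶠ z in 𝓝 (1 : E) ×ˢ 𝓝 (1 : E), z.1 ∈ P.target ∧ z.2 ∈ P.target ∧
      ∀ γ ∈ Γ, z.2 = γ * z.1 → q (P.symm z.2) = q (P.symm z.1) := by
    filter_upwards [tendsto_fst (P.open_target.mem_nhds t1), tendsto_snd (P.open_target.mem_nhds t1),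
      cδ.eventually hB, ((c0 q).comp tendsto_snd) hs,
      ((c0 p).comp cδ).add ((c0 q).comp tendsto_fst) ((add_zero (0 : E)).symm ▸ hs)]
      with z k1 k2 k3 k4 k5
    refine ⟨k1, k2, fun γ hγ e => ?_⟩
    have := k3 (by
      have a : exp (q (P.symm z.2)) = exp (-p (P.symm z.2)) * (γ * (exp (p (P.symm z.1)) *
          exp (q (P.symm z.1)))) := by
        rw [ri _ k1, ← e, ← one_mul (exp _), ← exp_neg_mul (p (P.symm z.2)), mul_assoc, ri _ k2]
      rw [a, mul_assoc, mul_assoc, mul_assoc, exp_mul_neg, mul_one]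
      exact mul_mem (exp_neg_mem hi (p1 _)) (mul_mem hγ (p1 _)))
    have e2 := P.injOn k4 k5 (by
      change exp _ * exp _ = exp _ * exp _
      simp only [Function.comp_apply, map_add, pq, pp, qp, qq, add_zero, zero_add, exp_zero, one_mul]
      rw [this, mul_assoc, exp_neg_mul, mul_one])
    simpa [qq, qp] using congrArg q e2
  obtain ⟨N₁, n1, N₂, n2, n3⟩ := mem_prod_iff.1 hC
  obtain ⟨N, k1, k2, k3⟩ := mem_nhds_iff.1 (inter_mem n1 n2)
  have n4 : ∀ m ∈ N, ∀ m' ∈ N, _ := fun m a m' b => @n3 (m, m') ⟨(k1 a).1, (k1 b).2⟩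
  refine ⟨N, k2, k3, fun m => exp (p (P.symm m)), (exp_continuous.comp p.continuous).comp_continuousOn
    (P.continuousOn_symm.mono fun m a => (n4 m a m a).1), by simp [s0], fun m _ => p1 _,
    fun m a γ hγ b => ?_⟩
  obtain ⟨a1, a2, a3⟩ := n4 m a _ b
  have := (ri _ a2).trans (congrArg (γ * ·) (ri _ a1).symm)
  rw [a3 γ hγ rfl] at this
  simpa [mul_assoc, exp_mul_neg] using congrArg (· * exp (-q (P.symm m))) this

end Closed

variable (G : Gp) [G.Nice]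

theorem Gp.exists_retr : ∃ N : Set (Matrix G.ι G.ι ℂ), IsOpen N ∧ 1 ∈ N ∧
    ∃ r : Matrix G.ι G.ι ℂ → G.H, ContinuousOn r N ∧ r 1 = 1 ∧
      ∀ m ∈ N, ∀ g, G.u g * m ∈ N → r (G.u g * m) = g * r m := by
  have := Gp.Nice.cpt (G := G)
  let _ : NormedRing (Matrix G.ι G.ι ℂ) := Matrix.linftyOpNormedRing
  let _ : NormedAlgebra ℝ (Matrix G.ι G.ι ℂ) := Matrix.linftyOpNormedAlgebra
  let _ : NormedAlgebra ℚ (Matrix G.ι G.ι ℂ) := Matrix.linftyOpNormedAlgebra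
  have em : IsClosedEmbedding G.u := Gp.Nice.cont.isClosedEmbedding Gp.Nice.inj
  obtain ⟨N, n1, n2, r, r1, r2, r3, r4⟩ := exists_retr_closed (Γ := MonoidHom.mrange G.uh)
    em.isClosed_range (by rintro _ ⟨g, rfl⟩; exact ⟨_, ⟨g⁻¹, rfl⟩, Gp.u_inv_mul g⟩)
  have e : ∀ m ∈ N, G.u (Function.invFun G.u (r m)) = r m := fun m k => Function.invFun_eq (r3 m k)
  refine ⟨N, n1, n2, fun m => Function.invFun G.u (r m),
    em.isInducing.continuousOn_iff.2 (r1.congr e), Gp.Nice.inj ?_, fun m k g k' => Gp.Nice.inj ?_⟩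
  · rw [e 1 n2, r2, Gp.Nice.one]
  · rw [Gp.Nice.mul, e _ k, e _ k']
    exact r4 m k _ ⟨g, rfl⟩ k'

/-- `EG → BG` is locally trivial. -/
theorem Gp.exists_locTriv (e₀ : Fm G.ι) : ∃ V : Set (Fm G.ι), IsOpen V ∧ e₀ ∈ V ∧ G.fm.Inv V ∧
    ∃ ρ : Fm G.ι → G.H, ContinuousOn ρ V ∧ ρ e₀ = 1 ∧
      ∀ g, ∀ e ∈ V, ρ (G.fm.act g e) = g * ρ e := by
  have := Gp.Nice.cpt (G := G)
  have := Gp.Nice.tg (G := G)
  obtain ⟨N, n1, n2, r, r1, r2, r3⟩ := G.exists_retr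
  obtain ⟨f, f1, f2, f3⟩ := gleason_local G.uh Gp.Nice.cont G.fm.act Act.Ok.cont Act.Ok.one
    Act.Ok.mul e₀ fun h k => by rw [Gp.fm_free k, map_one]
  have f4 : ∀ h e, f (G.fm.act h e) = G.u h * f e := f3
  classical
  let ρ : Fm G.ι → G.H := fun e =>
    if h : ∃ g, G.u g * f e ∈ N then h.choose⁻¹ * r (G.u h.choose * f e) else 1
  have key : ∀ e g, G.u g * f e ∈ N → ρ e = g⁻¹ * r (G.u g * f e) := fun e g k => by
    have h : ∃ g, G.u g * f e ∈ N := ⟨g, k⟩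
    have a : G.u h.choose * f e = G.u (h.choose * g⁻¹) * (G.u g * f e) := by
      rw [← mul_assoc, ← Gp.Nice.mul, inv_mul_cancel_right]
    simp only [ρ, dif_pos h]
    rw [a, r3 _ k _ (a ▸ h.choose_spec), mul_assoc, inv_mul_cancel_left]
  have c : ∀ g, Continuous fun e => G.u g * f e := fun g => continuous_const.mul f1
  have a : ∀ g h e, G.u (g * h⁻¹) * f (G.fm.act h e) = G.u g * f e := fun g h e => by
    rw [f4, ← mul_assoc, ← Gp.Nice.mul, inv_mul_cancel_right]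
  have b : G.u 1 * f e₀ = 1 := by rw [f2, Gp.Nice.one, one_mul]
  refine ⟨⋃ g, {e | G.u g * f e ∈ N}, isOpen_iUnion fun g => n1.preimage (c g),
    mem_iUnion.2 ⟨1, show _ ∈ N from b.symm ▸ n2⟩, fun h e k => ?_, ρ, fun e k => ?_, ?_,
    fun h e k => ?_⟩
  · obtain ⟨g, k⟩ := mem_iUnion.1 k
    exact mem_iUnion.2 ⟨g * h⁻¹, show _ ∈ N from (a g h e).symm ▸ k⟩
  · obtain ⟨g, k⟩ := mem_iUnion.1 k
    have o := (n1.preimage (c g)).mem_nhds k
    exact (((r1.continuousAt (n1.mem_nhds k)).comp (f := fun e => G.u g * f e)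
      (c g).continuousAt).const_mul g⁻¹).congr
      (Eventually.mono o fun e k => (key e g k).symm) |>.continuousWithinAt
  · rw [key e₀ 1 (b.symm ▸ n2), b, r2, mul_one, inv_one]
  · obtain ⟨g, k⟩ := mem_iUnion.1 k
    rw [key e g k, key _ (g * h⁻¹) ((a g h e).symm ▸ k), a, mul_inv_rev, inv_inv, mul_assoc]

end Pool.Agent.Work.MP_849ab0_ag.G
end
end

-- merged part: Pool.Agent.Work.MP_849ab0_ag.G.ThA
section
/-! Equivariant Thom classes: charts, existence, uniqueness. -/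

noncomputable section

set_option linter.unusedSectionVars false
set_option linter.unusedVariables false

namespace Pool.Agent.Work.MP_849ab0_ag.G

open Set Topology

variable {G G' : Gp} [G.Nice] [G'.Nice] {X X' Y : Type}
  [TopologicalSpace X] [T3Space X] [SecondCountableTopology X]
  [TopologicalSpace X'] [T3Space X'] [SecondCountableTopology X']
  [TopologicalSpace Y] [T3Space Y] [SecondCountableTopology Y]
  {a : Act G X} [a.Ok] {a' : Act G' X'} [a'.Ok] {b : Act G Y} [b.Ok] {φ : G'.H → G.H} [IsHom φ]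
  {J : Type} [Fintype J] {ρ : Act G (J → ℂ)} [ρ.Rep] {U Z U₁ : Set X} {V W W₁ : Set Y}
  {U' Z' : Set X'} {p f : Y → X} {F : Y → J → ℂ}

theorem lc_prod {S T : Type} [TopologicalSpace S] [TopologicalSpace T] {A : Set S} {B : Set T}
    (h : IsLocallyClosed A) (k : IsLocallyClosed B) : IsLocallyClosed (A ×ˢ B) :=
  (h.preimage continuous_fst).inter (k.preimage continuous_snd)

/-- The map of Borel constructions induced by an equivariant map. -/
def bm {G : Gp} {X Y : Type} (b : Act G Y) (a : Act G X) (f : Y → X) (q : b.Bor) : a.Bor :=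
  a.bmk (Quot.out q).1 (f (Quot.out q).2)

theorem bm_bmk (h : ∀ g, ∀ y ∈ V, f (b.act g y) = a.act g (f y)) (e : Fm G.ι) {y : Y}
    (hy : y ∈ V) : bm b a f (b.bmk e y) = a.bmk e (f y) := by
  obtain ⟨g, h1, h2⟩ := b.out_bmk e y
  rw [bm, h1, h2, h g y hy, a.bmk_act]

theorem GAdm.ok_bm (h : GAdm b a id f V W U Z) :
    Ok (bm b a f) (b.bs V) (b.bs W) (a.bs U) (a.bs Z) :=
  ok_of_lift h.src h.tgt (g := Prod.fst) (f := fun z => f z.2) continuousOn_fst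
    (h.cont.comp continuousOn_snd fun _ k => k.2) (fun _ _ k => h.maps k) (fun _ => h.supp)
    fun e _ hx => bm_bmk h.eqv e hx

theorem gp_bm (h : GAdm b a id f V W U Z) :
    (gp b id f V W : EH a U Z →ₗ[ℂ] _) = pull (bm b a f) (b.bs V) (b.bs W) :=
  gp_eq h (g := Prod.fst) continuousOn_fst (fun _ _ _ _ => rfl) fun e _ hx => bm_bmk h.eqv e hx

section

variable {T : Type} [TopologicalSpace T] {A B : Set T}

theorem ok_bmk (h : a.Pr U Z) {ι : T → X} (hι : Ext ι A) (m : MapsTo ι A U)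
    (z : ∀ t ∈ A, ι t ∈ Z → t ∈ B) (e : Fm G.ι) :
    Ok (fun t => a.bmk e (ι t)) A B (a.bs U) (a.bs Z) :=
  .of_mem ((Ext.of_continuous (a.cont_bmk continuous_const continuous_id) univ).comp hι
    (mapsTo_univ _ _)) (fun _ k => ⟨e, _, m k, rfl⟩) fun t k k' => z t k ((h.mem_bs (m k)).1 k')

theorem pull_bmk_gp {f : X' → X} (k : GAdm a' a φ f U' Z' U Z) {ι : T → X'} (hι : Ext ι A)
    (m : MapsTo ι A U') (z : ∀ t ∈ A, ι t ∈ Z' → t ∈ B) (e : Fm G'.ι) (c : EH a U Z) :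
    pull (fun t => a'.bmk e (ι t)) A B (gp a' φ f U' Z' c) =
      pull (fun t => a.bmk (eps φ e) (f (ι t))) A B c :=
  pull_pull' (ok_bmk k.src hι m z e) k.ok (fun _ ht => gm_bmk k.eqv e (m ht)) c

end

namespace Fib

variable (h : Fib a b ρ p F U)
include h

theorem monoT (k : U₁ ⊆ U) : Fib a b ρ p F U₁ :=
  ⟨h.contp, h.eqvp, h.contF.mono (preimage_mono k), fun g y hy => h.eqvF g y (k hy),
    h.inv.imp fun _ m => ⟨m.1.mono (prod_mono k subset_rfl), fun x hx => m.2.1 x (k hx),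
      fun y hy => m.2.2 y (k hy)⟩⟩

theorem prT (hU : a.Pr U Z) : b.Pr (p ⁻¹' U) (p ⁻¹' Z) := hU.preimage (φ := id) h.contp h.eqvp

theorem gadmT (hU : a.Pr U Z) : GAdm b a id p (p ⁻¹' U) (p ⁻¹' Z) U Z :=
  ⟨h.prT hU, hU, h.contp.continuousOn, fun g y _ => h.eqvp g y, fun _ k => k, fun _ _ k => k⟩

theorem eadmT (hU : a.Pr U Z) : EAdm b ρ F (p ⁻¹' U) (F ⁻¹' {0}) :=
  ⟨(Act.Rep.pr ρ).preimage' (φ := id) (h.prT hU) h.contF (mapsTo_univ _ _) h.eqvF, Act.Rep.pr ρ,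
    h.contF, h.eqvF, mapsTo_univ _ _, fun _ _ k => k⟩

theorem injT {y y' : Y} (hy : p y ∈ U) (e : p y = p y') (e' : F y = F y') : y = y' := by
  obtain ⟨σ, -, -, k⟩ := h.inv
  rw [← k y hy, e, e', k y' (show p y' ∈ U from e ▸ hy)]

theorem invT (hU : a.Inv U) : ∃ σ : X × (J → ℂ) → Y, ContinuousOn σ (U ×ˢ univ) ∧
    (∀ x ∈ U, ∀ v, p (σ (x, v)) = x) ∧ (∀ x ∈ U, ∀ v, F (σ (x, v)) = v) ∧
    (∀ y, p y ∈ U → σ (p y, F y) = y) ∧
    ∀ g, ∀ x ∈ U, ∀ v, σ (a.act g x, ρ.act g v) = b.act g (σ (x, v)) := by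
  obtain ⟨σ, c, k, k'⟩ := h.inv
  refine ⟨σ, c, fun x hx v => (k x hx v).1, fun x hx v => (k x hx v).2, k', fun g x hx v => ?_⟩
  have := k _ (hU g x hx) (ρ.act g v)
  refine h.injT (this.1.symm ▸ hU g x hx) ?_ ?_
  · rw [this.1, h.eqvp, (k x hx v).1]
  · rw [this.2, h.eqvF g _ (show p _ ∈ U from (k x hx v).1.symm ▸ hx), (k x hx v).2]

theorem cont_fib {x : X} (hx : x ∈ U) {ι : (J → ℂ) → Y} (hι : ∀ v, p (ι v) = x ∧ F (ι v) = v) :
    Continuous ι := by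
  obtain ⟨σ, c, -, k⟩ := h.inv
  refine (c.comp_continuous (f := fun v => (x, v)) (by fun_prop) fun _ => ⟨hx, trivial⟩).congr
    fun v => ?_
  have := k (ι v) (show p _ ∈ U from (hι v).1.symm ▸ hx)
  rwa [(hι v).1, (hι v).2] at this

theorem fib_eq {x x' : X} (hx : x ∈ U) (hx' : x' ∈ U) {e e' : Fm G.ι} (r : a.bmk e x = a.bmk e' x')
    {ι ι' : (J → ℂ) → Y} (hι : ∀ v, p (ι v) = x ∧ F (ι v) = v)
    (hι' : ∀ v, p (ι' v) = x' ∧ F (ι' v) = v) :
    ∃ g, ∀ v, b.bmk e (ι v) = b.bmk e' (ι' (ρ.act g v)) := by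
  obtain ⟨g, rfl, rfl⟩ := a.bmk_eq_iff.1 r
  refine ⟨g, fun v => ?_⟩
  rw [h.injT (y := ι' _) (y' := b.act g (ι v)) ((hι' _).1.symm ▸ hx') (by
    rw [(hι' _).1, h.eqvp, (hι v).1]) (by
    rw [(hι' _).2, h.eqvF g _ (show p _ ∈ U from (hι v).1.symm ▸ hx), (hι v).2]), b.bmk_act]

theorem bm_eq (e : Fm G.ι) (y : Y) : bm b a p (b.bmk e y) = a.bmk e (p y) :=
  bm_bmk (V := univ) (fun g y _ => h.eqvp g y) e trivial

theorem chart (hU : a.Pr U Z) (e₀ : Fm G.ι) : ∃ W g s,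
    Chart (bm b a p) (b.bs (p ⁻¹' U)) (b.bs (F ⁻¹' {0})) (a.bs U) W g s ∧ (∀ x, a.bmk e₀ x ∈ W) ∧
      ∀ q ∈ a.bs U ∩ W, ∃ e, ∃ x ∈ U, ∃ ι : (J → ℂ) → Y, q = a.bmk e x ∧
        (∀ v, p (ι v) = x ∧ F (ι v) = v) ∧ (fun v => s (q, v)) = fun v => b.bmk e (ι v) := by
  obtain ⟨O, o1, o2, o3, t, t1, -, t3⟩ := G.exists_locTriv e₀
  obtain ⟨σ, c, s1, s2, s3, s4⟩ := h.invT hU.inv
  have hE := h.eadmT hU
  let W : Set a.Bor := {q | (Quot.out q).1 ∈ O}
  have hW : ∀ e x, a.bmk e x ∈ W ↔ e ∈ O := fun e x => by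
    obtain ⟨g, h1, -⟩ := a.out_bmk e x
    rw [mem_ofPred_eq, h1, o3.iff]
  have oW : IsOpen W := by
    rw [← a.isOrbQ.quot.isOpen_preimage]
    convert o1.preimage (continuous_fst (Y := X)) using 1
    exact Set.ext fun z => hW _ _
  have cπ : Continuous (bm b a p) := b.isOrbQ.quot.continuous_iff.2
    ((a.cont_bmk continuous_fst (h.contp.comp continuous_snd)).congr fun z => (h.bm_eq _ _).symm)
  let g : b.Bor → J → ℂ := fun q => ρ.act (t (Quot.out q).1)⁻¹ (F (Quot.out q).2)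
  have hg : ∀ e ∈ O, ∀ y, p y ∈ U → g (b.bmk e y) = ρ.act (t e)⁻¹ (F y) := fun e he y hy => by
    obtain ⟨γ, h1, h2⟩ := b.out_bmk e y
    simp only [g, h1, h2, t3 γ e he, h.eqvF γ y hy, mul_inv_rev, ρ.act_mul, ρ.act_inv]
  let s : a.Bor × (J → ℂ) → b.Bor := fun z =>
    b.bmk (Quot.out z.1).1 (σ ((Quot.out z.1).2, ρ.act (t (Quot.out z.1).1) z.2))
  have hs : ∀ e ∈ O, ∀ x ∈ U, ∀ v, s (a.bmk e x, v) = b.bmk e (σ (x, ρ.act (t e) v)) :=
    fun e he x hx v => by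
      obtain ⟨γ, h1, h2⟩ := a.out_bmk e x
      simp only [s, h1, h2, t3 γ e he, ρ.act_mul, s4 γ x hx, b.bmk_act]
  have r1 : ∀ q ∈ a.bs U ∩ W, ∃ e ∈ O, ∃ x ∈ U, q = a.bmk e x := by
    rintro _ ⟨⟨e, x, hx, rfl⟩, k⟩
    exact ⟨e, (hW e x).1 k, x, hx, rfl⟩
  have r2 : ∀ q ∈ b.bs (p ⁻¹' U) ∩ bm b a p ⁻¹' W, ∃ e ∈ O, ∃ y, p y ∈ U ∧ q = b.bmk e y := by
    rintro _ ⟨⟨e, y, hy, rfl⟩, k⟩
    rw [mem_preimage, h.bm_eq, hW] at k
    exact ⟨e, k, y, hy, rfl⟩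
  refine ⟨W, g, s, ⟨oW, .of_continuousOn (hE.src.bs_lc.inter (oW.preimage cπ).isLocallyClosed) ?_,
    .of_continuousOn (lc_prod (hU.bs_lc.inter oW.isLocallyClosed) isOpen_univ.isLocallyClosed) ?_,
    fun q k v => ?_, fun q k v => ?_, fun q k v => ?_, fun q k => ?_, fun q k => ?_⟩,
    fun x => (hW _ _).2 o2, fun q k => ?_⟩
  · have m : ∀ z ∈ univ ×ˢ (p ⁻¹' U) ∩ b.bq ⁻¹' (b.bs (p ⁻¹' U) ∩ bm b a p ⁻¹' W), z.1 ∈ O :=
      fun z k => (hW z.1 (p z.2)).1 (by rw [← h.bm_eq]; exact k.2.2)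
    exact ((Act.oq_bq hE.src.inv).restrict inter_subset_left).contOn_iff.2 ((ρ.contOn_act
      (t1.comp continuousOn_fst m).inv (h.contF.comp continuousOn_snd fun _ k => k.1.2)).congr
      fun z k => hg _ (m z k) _ k.1.2)
  · have m : ∀ z ∈ (univ ×ˢ U ∩ a.bq ⁻¹' (a.bs U ∩ W)) ×ˢ (univ : Set (J → ℂ)), z.1.1 ∈ O :=
      fun z k => (hW _ _).1 k.1.2.2
    exact (((Act.oq_bq hU.inv).restrict inter_subset_left).prodMap (.refl univ)).contOn_iff.2
      ((b.contOn_bmk continuous_fst.fst.continuousOn (c.comp (continuous_fst.snd.continuousOn.prodMk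
        (ρ.contOn_act (t1.comp continuous_fst.fst.continuousOn m) continuousOn_snd))
        fun _ k => ⟨k.1.1.2, trivial⟩)).congr fun z k => hs _ (m z k) _ k.1.1.2 _)
  · obtain ⟨e, he, x, hx, rfl⟩ := r1 q k
    exact ⟨e, _, by rwa [mem_preimage, s1 x hx], hs e he x hx v⟩
  · obtain ⟨e, he, x, hx, rfl⟩ := r1 q k
    rw [hs e he x hx, h.bm_eq, s1 x hx]
  · obtain ⟨e, he, x, hx, rfl⟩ := r1 q k
    rw [hs e he x hx, hg e he _ (by rwa [s1 x hx]), s2 x hx, ρ.act_inv]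
  · obtain ⟨e, he, y, hy, rfl⟩ := r2 q k
    rw [h.bm_eq, hg e he y hy, hs e he _ hy, ρ.act_inv', s3 y hy]
  · obtain ⟨e, he, y, hy, rfl⟩ := r2 q k
    rw [hE.src.mem_bs hy, hg e he y hy]
    exact ((Act.Inv.iff (a := ρ) (S := {0}) (fun g v => (Act.Rep.pr ρ).invz g v trivial) _ _)).symm
  · obtain ⟨e, he, x, hx, rfl⟩ := r1 q k
    have m := hU.inv (t e)⁻¹ x hx
    refine ⟨G.fm.act (t e)⁻¹ e, _, m, fun v => σ (_, v), (a.bmk_act _ _ _).symm,
      fun v => ⟨s1 _ m v, s2 _ m v⟩, funext fun v => ?_⟩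
    rw [hs e he x hx, ← b.bmk_act (t e)⁻¹, ← s4 _ x hx, ρ.act_inv]

end Fib

/-- `τ` restricts to the orientation class on every fibre. -/
def IsTh (b : Act G Y) (p : Y → X) (F : Y → J → ℂ) (U : Set X)
    (τ : EH b (p ⁻¹' U) (F ⁻¹' {0})) : Prop :=
  IsDeg (2 * Fintype.card J) τ ∧ ∀ e, ∀ x ∈ U, ∀ ι : (J → ℂ) → Y,
    (∀ v, p (ι v) = x ∧ F (ι v) = v) → pull (fun v => b.bmk e (ι v)) univ {0} τ = orient J

theorem rep_bij (ρ : Act G (J → ℂ)) [ρ.Rep] (g : G.H) : Function.Bijective (ρ.act g) :=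
  Function.bijective_iff_has_inverse.2 ⟨ρ.act g⁻¹, ρ.act_inv g, ρ.act_inv' g⟩

theorem Fib.exists_isTh (h : Fib a b ρ p F U) (hU : a.Pr U Z) : ∃ τ, IsTh b p F U τ := by
  choose W g s c1 c2 c3 using h.chart hU
  have hE := h.eadmT hU
  obtain ⟨τ, t1, t2⟩ := exists_thom (h.gadmT hU).ok_bm.ext (h.gadmT hU).ok_bm.maps hE.src.bs_cl c1
    (by rintro _ ⟨e, x, -, rfl⟩; exact ⟨e, c2 e x⟩) fun i j q k k' => by
      obtain ⟨e, x, hx, ι, rfl, r1, r2⟩ := c3 i q k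
      obtain ⟨e', x', hx', ι', r, r1', r2'⟩ := c3 j _ ⟨k.1, k'⟩
      obtain ⟨γ, r3⟩ := h.fib_eq hx hx' r r1 r1'
      convert Act.Rep.lin (ρ := ρ) γ using 2 with v
      rw [congrFun r2 v, r3, ← congrFun r2' _, (c1 j).snd _ ⟨k.1, k'⟩]
  refine ⟨τ, t1, fun e x hx ι hι => ?_⟩
  have k : a.bmk e x ∈ a.bs U ∩ W e := ⟨⟨e, x, hx, rfl⟩, c2 e x⟩
  obtain ⟨e', x', hx', ι', r, r1, r2⟩ := c3 e _ k
  obtain ⟨γ, r3⟩ := h.fib_eq hx hx' r hι r1
  rw [← pull_pull' (f := ρ.act γ) (.of_mem (.of_continuous (ρ.cont_act continuous_const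
    continuous_id) _) (mapsTo_univ _ _) fun v _ => (Act.Inv.iff (a := ρ) (S := {0})
      (fun g v => (Act.Rep.pr ρ).invz g v trivial) _ _).1) ((c1 e).ok_fib k ((c1 e).mem _ k))
    fun v _ => (congrFun r2 _).trans (r3 v).symm, t2 e _ k,
    orient_linear (Act.Rep.lin γ) (rep_bij ρ γ)]

variable {τ τ' : EH b (p ⁻¹' U) (F ⁻¹' {0})}

theorem IsTh.bij0 (t : IsTh b p F U τ) (h : Fib a b ρ p F U) (hU : a.Pr U Z)
    (hW : b.Pr (p ⁻¹' U) W) (hW₁ : b.Pr (p ⁻¹' U) W₁) (e₁ : ∀ y, p y ∈ U → (y ∈ W₁ ↔ p y ∈ Z))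
    (e : ∀ y, p y ∈ U → (y ∈ W ↔ p y ∈ Z ∧ F y = 0)) : Function.Bijective fun x : EH a U Z =>
      cup (b.bs (p ⁻¹' U)) (b.bs W) (pull (bm b a p) (b.bs (p ⁻¹' U)) (b.bs W₁) x) τ := by
  refine thom_iso (h.gadmT hU).ok_bm.ext (h.gadmT hU).ok_bm.maps hU.bs_cl (h.eadmT hU).src.bs_cl ?_ ?_
    t.1 ?_
  · rintro _ ⟨e, y, hy, rfl⟩
    rw [h.bm_eq, hW₁.mem_bs hy, hU.mem_bs hy, e₁ y hy]
  · rintro _ ⟨e', y, hy, rfl⟩
    rw [h.bm_eq, hW.mem_bs hy, hU.mem_bs hy, (h.eadmT hU).src.mem_bs hy, e y hy]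
    rfl
  · rintro _ ⟨e, x, hx, rfl⟩
    obtain ⟨W, g, s, c1, c2, c3⟩ := h.chart hU e
    refine ⟨W, g, s, c2 x, c1, fun q k => ?_⟩
    obtain ⟨e, x, hx, ι, -, r1, r2⟩ := c3 q k
    rw [r2, t.2 e x hx ι r1]

theorem IsTh.bij (t : IsTh b p F U τ) (h : Fib a b ρ p F U) (hU : a.Pr U Z)
    (hW : b.Pr (p ⁻¹' U) W) (e : ∀ y, p y ∈ U → (y ∈ W ↔ p y ∈ Z ∧ F y = 0)) :
    Function.Bijective fun x : EH a U Z =>
      ecup (p ⁻¹' U) W (gp b id p (p ⁻¹' U) (p ⁻¹' Z) x) τ := by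
  rw [gp_bm (h.gadmT hU)]
  exact t.bij0 h hU hW (h.prT hU) (fun _ _ => Iff.rfl) e

theorem IsTh.unique (t : IsTh b p F U τ) (t' : IsTh b p F U τ') (h : Fib a b ρ p F U)
    (hU : a.Pr U Z) : τ = τ' := by
  have := t.bij0 h hU.top (h.eadmT hU).src (h.prT hU).top (by simp) (by simp)
  unfold EH at this
  rw [a.bs_univ, b.bs_univ] at this
  refine sub_eq_zero.1 (eq_zero_of_fib (J := J) (h.gadmT hU).ok_bm.ext (h.gadmT hU).ok_bm.maps t.1 this
    (t.1.sub t'.1) ?_)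
  rintro _ ⟨e, x, hx, rfl⟩
  obtain ⟨W, g, s, c1, c2, c3⟩ := h.chart hU e
  refine ⟨W, g, s, c2 x, c1, ?_⟩
  obtain ⟨e, x, hx, ι, -, r1, r2⟩ := c3 _ ⟨⟨e, x, hx, rfl⟩, c2 x⟩
  rw [r2, map_sub, t.2 e x hx ι r1, t'.2 e x hx ι r1, sub_self]
  exact ⟨rfl, rfl⟩

theorem fib_unit (ρ : Act G (J → ℂ)) : Fib (Act.pt G) ρ ρ (fun _ => ()) id univ :=
  ⟨continuous_const, fun _ _ => rfl, continuousOn_id, fun _ _ _ => rfl, Prod.snd, continuousOn_snd,
    fun _ _ _ => ⟨rfl, rfl⟩, fun _ _ => rfl⟩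

theorem isTh_pt {τ : EH ρ univ {0}} : IsTh ρ (fun _ => ()) id univ τ ↔
    IsDeg (2 * Fintype.card J) τ ∧ ∀ e, pull (ρ.bmk e) univ {0} τ = orient J :=
  and_congr_right fun _ => forall_congr' fun e => ⟨fun k => k () trivial id fun _ => ⟨rfl, rfl⟩,
    fun k _ _ ι hι => by obtain rfl : ι = id := funext fun v => (hι v).2; exact k⟩

theorem thom_spec0 (ρ : Act G (J → ℂ)) [ρ.Rep] : IsDeg (2 * Fintype.card J) (thom ρ) ∧
    ∀ e, pull (ρ.bmk e) univ {0} (thom ρ) = orient J :=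
  Classical.epsilon_spec (p := fun τ : EH ρ univ {0} => IsDeg (2 * Fintype.card J) τ ∧
    ∀ e, pull (ρ.bmk e) univ {0} τ = orient J)
    (((fib_unit ρ).exists_isTh (Act.pr_pt G)).imp fun _ => isTh_pt.1)

theorem eq_thom {τ : EH ρ univ {0}} (h : IsDeg (2 * Fintype.card J) τ)
    (k : ∀ e, pull (ρ.bmk e) univ {0} τ = orient J) : τ = thom ρ :=
  (isTh_pt.2 ⟨h, k⟩).unique (isTh_pt.2 (thom_spec0 ρ)) (fib_unit ρ) (Act.pr_pt G)

theorem pull_bmk_eul {T : Type} [TopologicalSpace T] {A B : Set T} (h : EAdm b ρ F V W) {ι : T → Y}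
    (hι : Ext ι A) (m : MapsTo ι A V) (z : ∀ t ∈ A, ι t ∈ W → t ∈ B) (e : Fm G.ι) :
    pull (fun t => b.bmk e (ι t)) A B (eul b ρ F V W) = pull (F ∘ ι) A B (orient J) := by
  rw [eul, pull_bmk_gp h hι m z, ← (thom_spec0 ρ).2 (eps id e)]
  exact (pull_pull' (.of_mem ((Ext.of_continuousOn h.src.lc h.cont).comp hι m) (mapsTo_univ _ _)
    fun t ht k => z t ht (h.supp _ (m ht) k)) (ok_bmk (Act.Rep.pr ρ) (ι := id)
      (.of_continuous continuous_id _) (mapsTo_univ _ _) (fun _ _ k => k) _) (fun _ _ => rfl) _).symm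

theorem Fib.fib_eul (h : Fib a b ρ p F U) {J' : Type} [Fintype J'] {ρ' : Act G (J' → ℂ)} [ρ'.Rep]
    {F' : Y → J' → ℂ} (k : EAdm b ρ' F' (p ⁻¹' U) W) {x : X} (hx : x ∈ U) {ι : (J → ℂ) → Y}
    (hι : ∀ v, p (ι v) = x ∧ F (ι v) = v) {B : Set (J → ℂ)} (z : ∀ v, ι v ∈ W → v ∈ B)
    (e : Fm G.ι) : pull (fun v => b.bmk e (ι v)) univ B (eul b ρ' F' (p ⁻¹' U) W) =
      pull (F' ∘ ι) univ B (orient J') :=
  pull_bmk_eul k (.of_continuous (h.cont_fib hx hι) _)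
    (fun v _ => show p _ ∈ U from (hι v).1.symm ▸ hx) (fun v _ => z v) e

theorem Fib.isTh (h : Fib a b ρ p F U) (hU : a.Pr U Z) :
    IsTh b p F U (eul b ρ F (p ⁻¹' U) (F ⁻¹' {0})) :=
  ⟨(thom_spec0 ρ).1.gp _ _, fun e x hx ι hι => by
    rw [h.fib_eul (B := {0}) (h.eadmT hU) hx hι fun v k => (hι v).2.symm.trans k,
      show F ∘ ι = id from funext fun v => (hι v).2, pull_id]⟩

end Pool.Agent.Work.MP_849ab0_ag.G
end
end

-- merged part: Pool.Agent.Work.MP_849ab0_ag.G.ThB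
section
/-! Invariant radii, disc bundles and equivariant extension. -/

noncomputable section

set_option linter.unusedSectionVars false
set_option linter.unusedVariables false

namespace Pool.Agent.Work.MP_849ab0_ag.G

open Set Topology MeasureTheory

variable {G G' : Gp} [G.Nice] [G'.Nice] {X X' Y : Type}
  [TopologicalSpace X] [T3Space X] [SecondCountableTopology X]
  [TopologicalSpace X'] [T3Space X'] [SecondCountableTopology X']
  [TopologicalSpace Y] [T3Space Y] [SecondCountableTopology Y]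
  {a : Act G X} [a.Ok] {a' : Act G' X'} [a'.Ok] {b : Act G Y} [b.Ok] {φ : G'.H → G.H}
  {J : Type} [Fintype J] {ρ : Act G (J → ℂ)} [ρ.Rep] {U Z U₁ : Set X} {V W W₁ : Set Y}
  {U' Z' : Set X'} {p f : Y → X} {F : Y → J → ℂ} {R R' : X → ℝ}

theorem nsqT_nonneg (v : J → ℂ) : 0 ≤ nsq v := Finset.sum_nonneg fun _ _ => sq_nonneg _

theorem nsqT_cont : Continuous (nsq : (J → ℂ) → ℝ) := by unfold nsq; fun_prop

theorem nsqT_zero : nsq (0 : J → ℂ) = 0 := by simp [nsq]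

theorem nsqT_apply_le (v : J → ℂ) (j : J) : ‖v j‖ ^ 2 ≤ nsq v :=
  Finset.single_le_sum (f := fun j => ‖v j‖ ^ 2) (fun _ _ => sq_nonneg _) (Finset.mem_univ j)

theorem nsqT_pos {v : J → ℂ} (h : v ≠ 0) : 0 < nsq v := by
  obtain ⟨j, k⟩ := Function.ne_iff.1 h
  exact lt_of_lt_of_le (pow_pos (norm_pos_iff.2 k) 2) (nsqT_apply_le v j)

theorem nsqT_smul (c : ℝ) (v : J → ℂ) : nsq ((c : ℂ) • v) = c ^ 2 * nsq v := by
  simp [nsq, mul_pow, Finset.mul_sum]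

theorem exists_supT (hU : a.Inv U) (hc : ContinuousOn R U) : ∃ R' : X → ℝ, ContinuousOn R' U ∧
    (∀ g, ∀ x ∈ U, R' (a.act g x) = R' x) ∧
      ∀ x ∈ U, R x ≤ R' x ∧ ∃ g, R' x = R (a.act g x) := by
  have c : Continuous fun z : U × G.H => R (a.act z.2 z.1) := hc.comp_continuous
    (a.cont_act continuous_snd continuous_fst.subtype_val) fun z => hU _ _ z.1.2
  have k : ∀ x ∈ U, IsCompact ((fun g => R (a.act g x)) '' univ) := fun x hx =>
    isCompact_univ.image (c.comp (Continuous.prodMk_right (⟨x, hx⟩ : U)))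
  refine ⟨fun x => sSup ((fun g => R (a.act g x)) '' univ),
    continuousOn_iff_continuous_domRestrict.2 (isCompact_univ.continuous_sSup c), fun g x hx => ?_,
    fun x hx => ⟨le_csSup (k x hx).bddAbove ⟨1, trivial, by simp only [a.act_one]⟩, ?_⟩⟩
  · refine congrArg sSup (Set.ext fun r => ⟨?_, ?_⟩)
    · rintro ⟨k, -, rfl⟩
      exact ⟨k * g, trivial, by simp only [a.act_mul]⟩
    · rintro ⟨k, -, rfl⟩
      exact ⟨k * g⁻¹, trivial, by simp only [a.act_mul, a.act_inv]⟩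
  · obtain ⟨g, -, e⟩ := (k x hx).sSup_mem (univ_nonempty.image _)
    exact ⟨g, e.symm⟩

/-- continuous invariant radius functions -/
structure Rad (a : Act G X) (U : Set X) (R : X → ℝ) : Prop where
  cont : ContinuousOn R U
  nn : ∀ x ∈ U, 0 ≤ R x
  inv : ∀ g, ∀ x ∈ U, R (a.act g x) = R x

theorem Rad.add (h : Rad a U R) (h' : Rad a U R') : Rad a U fun x => R x + R' x :=
  ⟨h.cont.add h'.cont, fun x k => add_nonneg (h.nn x k) (h'.nn x k), fun g x k => by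
    rw [h.inv g x k, h'.inv g x k]⟩

theorem Rad.comp (h : Rad a U R) {f : X' → X} (k : GAdm a' a φ f U' Z' U Z) :
    Rad a' U' fun x => R (f x) :=
  ⟨h.cont.comp k.cont k.maps, fun x m => h.nn _ (k.maps m), fun g x m => by
    rw [k.eqv g x m, h.inv _ _ (k.maps m)]⟩

theorem exists_rad (hU : a.Inv U) (hc : ContinuousOn R U) :
    ∃ R', Rad a U R' ∧ ∀ x ∈ U, R x ≤ R' x := by
  obtain ⟨R', h1, h2, h3⟩ := exists_supT hU hc.abs
  exact ⟨R', ⟨h1, fun x k => (abs_nonneg _).trans (h3 x k).1, h2⟩,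
    fun x k => (le_abs_self _).trans (h3 x k).1⟩

theorem Act.Pr.exists_rad (h : a.Pr U Z) : ∃ d, Rad a U d ∧ ∀ x ∈ U, d x = 0 ↔ x ∈ Z := by
  obtain ⟨d, d1, d2, d3⟩ : ∃ d : X → ℝ, Continuous d ∧ (∀ x, 0 ≤ d x) ∧
      ∀ x, d x = 0 ↔ x ∈ closure (U ∩ Z) := by
    rcases (U ∩ Z).eq_empty_or_nonempty with e | e
    · exact ⟨fun _ => 1, continuous_const, fun _ => zero_le_one, by simp [e]⟩
    · let _ := TopologicalSpace.pseudoMetrizableSpacePseudoMetric X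
      exact ⟨_, Metric.continuous_infDist_pt _, fun _ => Metric.infDist_nonneg,
        fun x => (Metric.mem_closure_iff_infDist_zero e).symm⟩
  obtain ⟨d', h1, h2, h3⟩ := exists_supT h.inv d1.continuousOn
  refine ⟨d', ⟨h1, fun x k => (d2 x).trans (h3 x k).1, h2⟩, fun x k => ⟨fun e =>
    h.cl ⟨k, (d3 x).1 (le_antisymm (e ▸ (h3 x k).1) (d2 x))⟩, fun e => ?_⟩⟩
  obtain ⟨g, e'⟩ := (h3 x k).2
  rw [e', d3]
  exact subset_closure (h.inv_inter g x ⟨k, e⟩)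

/-- the disc bundle over `Z` -/
abbrev dsc (p : Y → X) (F : Y → J → ℂ) (Z : Set X) (R : X → ℝ) : Set Y :=
  p ⁻¹' Z ∩ {y | nsq (F y) ≤ R (p y)}

theorem Fib.pr_le (h : Fib a b ρ p F U) (hU : a.Pr U Z) (hR : Rad a U R) :
    b.Pr (p ⁻¹' U) {y | nsq (F y) ≤ R (p y)} :=
  (((Act.triv G ℝ).pr_univ (isClosed_Iic (a := 0)) fun _ _ k => k).preimage' (φ := id) (h.prT hU)
    (f := fun y => nsq (F y) - R (p y)) ((nsqT_cont.comp_continuousOn h.contF).sub
      (hR.cont.comp h.contp.continuousOn fun _ k => k)) (mapsTo_univ _ _) fun g y k => by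
      rw [h.eqvF g y k, h.eqvp, hR.inv g _ k, Act.Rep.nsq]; rfl).congr_mem (by simp)

theorem Fib.pr_dsc (h : Fib a b ρ p F U) (hU : a.Pr U Z) (hR : Rad a U R) :
    b.Pr (p ⁻¹' U) (dsc p F Z R) := (h.prT hU).inter (h.pr_le hU hR)

theorem supp_bij_push (h : b.Pr V W) (h₁ : b.Pr V W₁) (e : V ∩ W₁ ⊆ W) {Φ : ℝ → Y → Y}
    (hΦ : ContinuousOn (fun z : ℝ × Y => Φ z.1 z.2) (Icc 0 1 ×ˢ (V \ W₁)))
    (he : ∀ s ∈ Icc (0 : ℝ) 1, ∀ g, ∀ y ∈ V \ W₁, Φ s (b.act g y) = b.act g (Φ s y))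
    (k₁ : ∀ s ∈ Icc (0 : ℝ) 1, MapsTo (Φ s) (V \ W₁) (V \ W₁))
    (k : ∀ s ∈ Icc (0 : ℝ) 1, MapsTo (Φ s) (V \ W) (V \ W)) (k0 : ∀ y ∈ V \ W₁, Φ 0 y = y)
    (k1 : MapsTo (Φ 1) (V \ W₁) (V \ W)) :
    Function.Bijective (gp b id id V W : EH b V W₁ → _) := by
  have s : V \ W ⊆ V \ W₁ := fun y m => ⟨m.1, fun m' => m.2 (e ⟨m.1, m'⟩)⟩
  have d₁ := h.top.diff h₁
  have d := h.top.diff h
  have r := gp_bij_retract d₁ d s hΦ (fun t ht => ⟨d₁, d₁, hΦ.comp (f := fun y => (t, y))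
    (by fun_prop) fun _ m => ⟨ht, m⟩, he t ht, k₁ t ht, fun _ _ _ => trivial⟩) k k0 k1
  rw [gp_res (gadm_id d₁ d s (subset_univ _))] at r
  have := (res_bij_iff (Z₁ := b.bs W) (by
    rw [← (h.diff h₁).bs_diff]; congr 1; grind) (by simp [Act.bs_univ])).1 r
  rw [h₁.bs_diff] at this
  rw [gp_res (gadm_id h₁ h subset_rfl e)]
  exact supp_bij_of_subsingleton (by rw [← h.bs_diff, ← h₁.bs_diff]; exact Act.bs_mono s)

theorem Fib.disc_bij (h : Fib a b ρ p F U) (hU : a.Pr U Z) (hR : Rad a U R) :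
    Function.Bijective (gp b id id (p ⁻¹' U) (dsc p F Z R) :
      EH b (p ⁻¹' U) (p ⁻¹' Z ∩ F ⁻¹' {0}) → _) := by
  obtain ⟨σ, c, s1, s2, s3, s4⟩ := h.invT hU.inv
  obtain ⟨d, hd, d0⟩ := hU.exists_rad
  let l : ℝ → Y → ℝ := fun s y => 1 + s * ((R (p y) + 1) / (nsq (F y) + d (p y)))
  have pos : ∀ y ∈ p ⁻¹' U \ (p ⁻¹' Z ∩ F ⁻¹' {0}), 0 < nsq (F y) + d (p y) := fun y k => by
    by_cases e : F y = 0
    · exact add_pos_of_nonneg_of_pos (nsqT_nonneg _) ((hd.nn _ k.1).lt_of_ne'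
        fun e' => k.2 ⟨(d0 _ k.1).1 e', e⟩)
    · exact add_pos_of_pos_of_nonneg (nsqT_pos e) (hd.nn _ k.1)
  have l1 : ∀ s ∈ Icc (0 : ℝ) 1, ∀ y, p y ∈ U → 1 ≤ l s y := fun s hs y k =>
    le_add_of_nonneg_right (mul_nonneg hs.1 (div_nonneg (by linarith [hR.nn _ k])
      (add_nonneg (nsqT_nonneg _) (hd.nn _ k))))
  have cp : ContinuousOn (fun z : ℝ × Y => p z.2) (Icc 0 1 ×ˢ (p ⁻¹' U \ (p ⁻¹' Z ∩ F ⁻¹' {0}))) :=
    (h.contp.comp continuous_snd).continuousOn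
  have cF : ContinuousOn (fun z : ℝ × Y => F z.2) (Icc 0 1 ×ˢ (p ⁻¹' U \ (p ⁻¹' Z ∩ F ⁻¹' {0}))) :=
    h.contF.comp continuousOn_snd fun _ k => k.2.1
  refine supp_bij_push (h.pr_dsc hU hR) ((h.prT hU).inter (h.eadmT hU).src)
    (fun y k => ⟨k.2.1, by rw [mem_ofPred_eq, show F y = 0 from k.2.2, nsqT_zero]; exact hR.nn _ k.1⟩)
    (Φ := fun s y => σ (p y, (l s y : ℂ) • F y)) (c.comp (cp.prodMk
      ((Complex.continuous_ofReal.comp_continuousOn (continuousOn_const.add (continuousOn_fst.mul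
        (((hR.cont.comp cp fun _ k => k.2.1).add continuousOn_const).div
        ((nsqT_cont.comp_continuousOn cF).add (hd.cont.comp cp fun _ k => k.2.1))
        fun z k => (pos _ k.2).ne')))).smul cF)) fun _ k => ⟨k.2.1, trivial⟩)
    (fun s hs g y k => ?_) (fun s hs y k => ?_) (fun s hs y k => ?_) (fun y k => ?_) fun y k => ?_
  · simp only [l, h.eqvp, h.eqvF g y k.1, hR.inv g _ k.1, hd.inv g _ k.1, Act.Rep.nsq,
      ← s4 g _ k.1, (Act.Rep.lin g).map_smul]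
  · simp only [Set.mem_sdiff, mem_inter_iff, mem_preimage, s1 _ k.1, s2 _ k.1, mem_singleton_iff,
      smul_eq_zero]
    refine ⟨k.1, fun m => k.2 ⟨m.1, m.2.resolve_left fun e => ?_⟩⟩
    linarith [l1 s hs y k.1, Complex.ofReal_eq_zero.1 e]
  · simp only [Set.mem_sdiff, mem_inter_iff, mem_preimage, s1 _ k.1, s2 _ k.1, mem_ofPred_eq,
      nsqT_smul]
    exact ⟨k.1, fun m => k.2 ⟨m.1, le_trans (le_mul_of_one_le_left (nsqT_nonneg _)
      (one_le_pow₀ (l1 s hs y k.1))) m.2⟩⟩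
  · simp [l, s3 y k.1]
  · simp only [Set.mem_sdiff, mem_inter_iff, mem_preimage, s1 _ k.1, s2 _ k.1, mem_ofPred_eq,
      nsqT_smul]
    refine ⟨k.1, fun m => ?_⟩
    have h1 := pos y k
    have h2 := l1 1 (by simp) y k.1
    have h3 : l 1 y * nsq (F y) = nsq (F y) + (R (p y) + 1) := by
      simp only [l, (d0 _ k.1).2 m.1, add_zero] at h1 ⊢
      field_simp
    nlinarith [m.2, nsqT_nonneg (F y), mul_nonneg (sub_nonneg.2 h2) (h3 ▸ add_nonneg
      (nsqT_nonneg (F y)) (add_nonneg (hR.nn _ k.1) zero_le_one) : 0 ≤ l 1 y * nsq (F y))]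

theorem cont_avgT {H P E : Type} [TopologicalSpace H] [CompactSpace H] [MeasurableSpace H]
    [BorelSpace H] (μ : Measure H) [IsFiniteMeasure μ] [TopologicalSpace P] [NormedAddCommGroup E]
    [NormedSpace ℝ E] [SecondCountableTopology E] {g : P → H → E}
    (hg : Continuous fun q : P × H => g q.1 q.2) : Continuous fun p => ∫ k, g p k ∂μ := by
  borelize E
  have hint : ∀ f : C(H, E), Integrable f μ := fun f =>
    (BoundedContinuousFunction.mkOfCompact f).integrable μ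
  have hl : Continuous fun f : C(H, E) => ∫ k, f k ∂μ := by
    refine (LipschitzWith.of_dist_le_mul (K := (μ univ).toNNReal) fun f f' => ?_).continuous
    rw [dist_eq_norm, ← integral_sub (hint f) (hint f')]
    refine (norm_integral_le_of_norm_le_const (C := dist f f')
      (Filter.Eventually.of_forall fun k => ?_)).trans (le_of_eq ?_)
    · rw [← dist_eq_norm]; exact ContinuousMap.dist_apply_le_dist k
    · rw [mul_comm]; rfl
  exact hl.comp (ContinuousMap.curry ⟨fun q : P × H => g q.1 q.2, hg⟩).continuous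

/-- equivariant Tietze extension -/
theorem exists_eqv_ext (hU : a.Pr U Z) {r : X → J → ℂ} (hr : ContinuousOn r (U ∩ Z))
    (he : ∀ g, ∀ x ∈ U ∩ Z, r (a.act g x) = ρ.act g (r x)) :
    ∃ r' : X → J → ℂ, ContinuousOn r' U ∧ (∀ g, ∀ x ∈ U, r' (a.act g x) = ρ.act g (r' x)) ∧
      ∀ x ∈ U ∩ Z, r' x = r x := by
  classical
  borelize G.H
  let μ : Measure G.H := Measure.haarMeasure ⊤
  have : IsProbabilityMeasure μ := ⟨by simpa using @Measure.haarMeasure_self G.H _ _ _ _ _ ⊤⟩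
  have hS : IsClosed {x : U | x.1 ∈ Z} := isClosed_of_closure_subset fun x k =>
    hU.cl ⟨x.2, map_mem_closure continuous_subtype_val k fun y m => ⟨y.2, m⟩⟩
  obtain ⟨t, ht⟩ := ContinuousMap.exists_restrict_eq hS ⟨fun x => r x.1.1,
    hr.comp_continuous continuous_subtype_val.subtype_val fun x => ⟨x.1.2, x.2⟩⟩
  let t' : X → J → ℂ := fun x => if m : x ∈ U then t ⟨x, m⟩ else 0
  have c' : ContinuousOn t' U := continuousOn_iff_continuous_domRestrict.2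
    (t.continuous.congr fun x => (dif_pos (t := fun m => t ⟨x, m⟩) x.2).symm)
  have e' : ∀ x ∈ U ∩ Z, t' x = r x := fun x k =>
    (dif_pos k.1).trans (DFunLike.congr_fun ht ⟨⟨x, k.1⟩, k.2⟩)
  have c : Continuous fun q : U × G.H => ρ.act q.2 (t' (a.act q.2⁻¹ q.1)) :=
    ρ.cont_act continuous_snd (c'.comp_continuous (a.cont_act continuous_snd.inv
      continuous_fst.subtype_val) fun q => hU.inv _ _ q.1.2)
  refine ⟨fun x => ∫ k, ρ.act k (t' (a.act k⁻¹ x)) ∂μ,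
    continuousOn_iff_continuous_domRestrict.2 (cont_avgT μ c), fun g x k => ?_, fun x k => ?_⟩
  · beta_reduce
    rw [← integral_mul_left_eq_self _ g]
    simp only [mul_inv_rev, ρ.act_mul, a.act_mul, a.act_inv]
    exact (LinearMap.toContinuousLinearMap ((Act.Rep.lin (ρ := ρ) g).mk' _)).integral_comp_comm
      ((BoundedContinuousFunction.mkOfCompact
        ⟨_, c.comp (Continuous.prodMk_right (⟨x, k⟩ : U))⟩).integrable μ)
  · simp only [e' _ (hU.inv_inter _ x k), he _ x k, ρ.act_inv']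
    simp

end Pool.Agent.Work.MP_849ab0_ag.G
end
end

-- merged part: Pool.Agent.Work.MP_849ab0_ag.G.ApiT
section
/-!
Thom classes and integration along the fibre (owner helper40).
-/

noncomputable section

set_option linter.unusedSectionVars false
set_option linter.unusedVariables false

namespace Pool.Agent.Work.MP_849ab0_ag.G

open Set Topology Matrix

variable {G G' G'' : Gp} [G.Nice] [G'.Nice] [G''.Nice] {X X' X'' Y Y' : Type}
  [TopologicalSpace X] [T3Space X] [SecondCountableTopology X]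
  [TopologicalSpace X'] [T3Space X'] [SecondCountableTopology X']
  [TopologicalSpace X''] [T3Space X''] [SecondCountableTopology X'']
  [TopologicalSpace Y] [T3Space Y] [SecondCountableTopology Y]
  [TopologicalSpace Y'] [T3Space Y'] [SecondCountableTopology Y']
  {a : Act G X} [a.Ok] {a' : Act G' X'} [a'.Ok] {a'' : Act G'' X''} [a''.Ok]
  {b : Act G Y} [b.Ok] {b' : Act G' Y'} [b'.Ok]
  {φ : G'.H → G.H} [IsHom φ] {ψ : G''.H → G'.H} [IsHom ψ]

variable {J J' J₁ J₂ : Type} [Fintype J] [Fintype J'] [Fintype J₁] [Fintype J₂]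
  {ρ : Act G (J → ℂ)} [ρ.Rep] {ρ' : Act G (J' → ℂ)} [ρ'.Rep] {ρ₁ : Act G (J₁ → ℂ)} [ρ₁.Rep]
  {ρ₂ : Act G (J₂ → ℂ)} [ρ₂.Rep] {U Z U₁ Z₁ Z₂ : Set X} {V W V₁ W₁ W₂ : Set Y} {U' Z' : Set X'}
  {V' W' : Set Y'} {p : Y → X} {F : Y → J → ℂ}

theorem fib_prod (hU : a.Pr U Z) : Fib a (ρ.prod a) ρ Prod.snd Prod.fst U :=
  ⟨continuous_snd, fun _ _ => rfl, continuousOn_fst, fun _ _ _ => rfl, Prod.swap,
    continuous_swap.continuousOn, fun _ _ _ => ⟨rfl, rfl⟩, fun _ _ => rfl⟩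

/-! ### the classes `eul` -/

theorem thom_spec (ρ : Act G (J → ℂ)) [ρ.Rep] : IsDeg (2 * Fintype.card J) (thom ρ) ∧
    ∀ e, pull (ρ.bmk e) univ {0} (thom ρ) = orient J := thom_spec0 ρ

theorem isDeg_eul : IsDeg (2 * Fintype.card J) (eul b ρ F V W) := (thom_spec ρ).1.gp _ _

theorem ev_eul : Ev (eul b ρ F V W) := isDeg_eul.ev (even_two_mul _)

theorem ev_eucT : Ev (euc ρ) := ev_eul

theorem gp_eul (h : EAdm b ρ F V W) {f : Y' → Y} (k : GAdm b' b φ f V' W' V W)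
    {σ : Act G' (J → ℂ)} (e : ∀ g w, σ.act g w = ρ.act (φ g) w) {F' : Y' → J → ℂ}
    (e' : ∀ y ∈ V', F' y = F (f y)) : gp b' φ f V' W' (eul b ρ F V W) = eul b' σ F' V' W' := by
  obtain rfl : σ = ρ.res φ := congrArg Act.mk (funext₂ e)
  have k0 : GAdm (ρ.res φ) ρ φ id univ {0} univ {0} := ⟨Act.Rep.pr _, Act.Rep.pr _, continuousOn_id,
    fun _ _ _ => rfl, mapsTo_univ _ _, fun _ _ k => k⟩
  have t : gp (ρ.res φ) φ id univ {0} (thom ρ) = thom (ρ.res φ) :=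
    eq_thom ((thom_spec ρ).1.gp _ _) fun e => (pull_bmk_gp k0 (ι := id)
      (.of_continuous continuous_id _) (mapsTo_univ _ _) (fun _ _ k => k) e _).trans
      ((thom_spec ρ).2 _)
  have h' : EAdm b' (ρ.res φ) F' V' W' := ⟨k.src, Act.Rep.pr _,
    (h.cont.comp k.cont k.maps).congr e', fun g y hy => by
      rw [e' _ (k.src.inv g y hy), e' y hy, k.eqv g y hy, h.eqv _ _ (k.maps hy)]; rfl,
    mapsTo_univ _ _, fun y hy m => k.supp y hy (h.supp _ (k.maps hy) (e' y hy ▸ m))⟩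
  rw [eul, eul, ← t, gp_comp h k (χ := φ) (fun _ => rfl) e',
    gp_comp k0 h' (χ := φ) (fun _ => rfl) (k := F') fun _ _ => rfl]

theorem eul_congr (h : b.Pr V W) {F' : Y → J → ℂ} (e : EqOn F F' V) :
    eul b ρ F V W = eul b ρ F' V W := gp_congr h e _

theorem eul_htpy {F : ℝ → Y → J → ℂ}
    (hF : ContinuousOn (fun z : ℝ × Y => F z.1 z.2) (Icc 0 1 ×ˢ V))
    (k : ∀ s ∈ Icc (0 : ℝ) 1, EAdm b ρ (F s) V W) : eul b ρ (F 0) V W = eul b ρ (F 1) V W :=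
  gp_htpy hF k _

theorem eul_fam (h : EAdm b ρ F V W) {L : Y → (J → ℂ) → J' → ℂ}
    (hc : ContinuousOn (fun z : (J → ℂ) × Y => L z.2 z.1) (Prod.snd ⁻¹' V))
    (hl : ∀ y ∈ V, IsLinearMap ℂ (L y)) (hb : ∀ y ∈ V, Function.Bijective (L y))
    (he : ∀ g, ∀ y ∈ V, ∀ w, L (b.act g y) (ρ.act g w) = ρ'.act g (L y w)) :
    eul b ρ' (fun y => L y (F y)) V W = eul b ρ F V W := by
  rcases V.eq_empty_or_nonempty with rfl | ⟨y, hy⟩
  · rw [eq_zero_of_disjoint h.src (by simp) (eul _ _ _ _ _),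
      eq_zero_of_disjoint h.src (by simp) (eul _ _ _ _ _)]
  have cd : Fintype.card J = Fintype.card J' := by
    simpa using (LinearEquiv.ofBijective ((hl y hy).mk' _) (hb y hy)).finrank_eq
  have fb := fib_prod (ρ := ρ) h.src
  have e1 := fb.eadmT h.src
  have e2 : EAdm (ρ.prod b) ρ' (fun z => L z.2 z.1) (Prod.snd ⁻¹' V) (Prod.fst ⁻¹' {0}) :=
    ⟨e1.src, Act.Rep.pr _, hc, fun g z k => he g _ k _, mapsTo_univ _ _,
      fun z k m => (hb _ k).1 (Eq.trans m (hl _ k).map_zero.symm)⟩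
  have k : GAdm b (ρ.prod b) id (fun y => (F y, y)) V W (Prod.snd ⁻¹' V) (Prod.fst ⁻¹' {0}) :=
    ⟨h.src, e1.src, h.cont.prodMk continuousOn_id, fun g y hy => Prod.ext (h.eqv g y hy) rfl,
      fun _ k => k, h.supp⟩
  rw [← gp_eul e1 k (fun _ _ => rfl) fun _ _ => rfl, ← gp_eul e2 k (fun _ _ => rfl) fun _ _ => rfl]
  congr 1
  refine IsTh.unique ⟨cd ▸ isDeg_eul, fun e x hx ι hι => ?_⟩ (fb.isTh h.src) fb h.src
  rw [fb.fib_eul (B := {0}) e2 hx hι fun v k => (hι v).2.symm.trans k,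
    ← orient_linear (hl x hx) (hb x hx)]
  congr 2
  exact funext fun v => by rw [Function.comp_apply, (hι v).1, (hι v).2]

/-- a continuous equivariant family of linear isomorphisms -/
private theorem h43_contOn_mulVec {Z J J' : Type} [TopologicalSpace Z] [Fintype J]
    {M : Z → Matrix J' J ℂ} {v : Z → J → ℂ} {s : Set Z} (hM : ContinuousOn M s)
    (hv : ContinuousOn v s) : ContinuousOn (fun z => M z *ᵥ v z) s := by
  rw [continuousOn_iff_continuous_restrict] at *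
  exact hM.matrix_mulVec hv

theorem eul_linear (h : EAdm b ρ F V W) {M : Y → Matrix J' J ℂ} (hM : ContinuousOn M V)
    (hi : ∀ y ∈ V, ∃ N : Matrix J J' ℂ, (∀ w, N *ᵥ (M y *ᵥ w) = w) ∧ ∀ w, M y *ᵥ (N *ᵥ w) = w)
    (he : ∀ g, ∀ y ∈ V, ∀ w, M (b.act g y) *ᵥ ρ.act g w = ρ'.act g (M y *ᵥ w)) :
    eul b ρ' (fun y => M y *ᵥ F y) V W = eul b ρ F V W :=
  eul_fam h (L := fun y w => M y *ᵥ w)
    (h43_contOn_mulVec (hM.comp' continuousOn_snd fun _ k => k) continuousOn_fst)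
    (fun y _ => ⟨mulVec_add _, fun c => mulVec_smul _ c⟩)
    (fun y hy => Function.bijective_iff_has_inverse.2 ((hi y hy).elim fun N k => ⟨_, k⟩)) he

theorem eul_neg (h : EAdm b ρ F V W) : eul b ρ (fun y => -F y) V W = eul b ρ F V W :=
  eul_fam h (L := fun _ w => -w) continuousOn_fst.neg
    (fun _ _ => ⟨neg_add, fun c w => (smul_neg c w).symm⟩) (fun _ _ => neg_involutive.bijective)
    fun g _ _ w => ((Act.Rep.lin g).map_neg w).symm

theorem eul_equiv (h : EAdm b ρ F V W) (e : J' ≃ J)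
    (he : ∀ g w, ρ'.act g (w ∘ e) = ρ.act g w ∘ e) :
    eul b ρ' (fun y => F y ∘ e) V W = eul b ρ F V W :=
  eul_fam h (L := fun _ w => w ∘ e) ((cont_comp_right e).comp continuous_fst).continuousOn
    (fun _ _ => ⟨fun _ _ => rfl, fun _ _ => rfl⟩)
    (fun _ _ => (e.symm.arrowCongr (Equiv.refl ℂ)).bijective) fun g _ _ w => (he g w).symm

/-- `ρ` is the direct sum of `ρ₁` and `ρ₂` along `e` -/
def IsSum (ρ : Act G (J → ℂ)) (ρ₁ : Act G (J₁ → ℂ)) (ρ₂ : Act G (J₂ → ℂ)) (e : J₁ ⊕ J₂ ≃ J) :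
    Prop :=
  ∀ g w, (ρ.act g w ∘ e ∘ Sum.inl = ρ₁.act g (w ∘ e ∘ Sum.inl)) ∧
    ρ.act g w ∘ e ∘ Sum.inr = ρ₂.act g (w ∘ e ∘ Sum.inr)

theorem isSum_sum : IsSum (ρ₁.sum ρ₂) ρ₁ ρ₂ (Equiv.refl _) := fun _ _ => ⟨rfl, rfl⟩

theorem isSum_dg (χ : J → G.H → ℂ) (e : J₁ ⊕ J₂ ≃ J) :
    IsSum (Act.dg χ) (Act.dg (χ ∘ e ∘ Sum.inl)) (Act.dg (χ ∘ e ∘ Sum.inr)) e :=
  fun _ _ => ⟨rfl, rfl⟩

theorem sum_extT (e : J₁ ⊕ J₂ ≃ J) {v w : J → ℂ} (h₁ : v ∘ e ∘ Sum.inl = w ∘ e ∘ Sum.inl)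
    (h₂ : v ∘ e ∘ Sum.inr = w ∘ e ∘ Sum.inr) : v = w := funext fun j => by
  obtain ⟨i | i, rfl⟩ := e.surjective j
  exacts [congrFun h₁ i, congrFun h₂ i]

theorem nsq_splitT (e : J₁ ⊕ J₂ ≃ J) (v : J → ℂ) :
    nsq v = nsq (v ∘ e ∘ Sum.inl) + nsq (v ∘ e ∘ Sum.inr) := by
  simp only [nsq, ← e.sum_comp, Fintype.sum_sum_type, Function.comp_apply]

theorem eadm_comp {i : J₁ → J} (he : ∀ g w, ρ.act g w ∘ i = ρ₁.act g (w ∘ i)) :
    EAdm ρ ρ₁ (fun v => v ∘ i) univ {v | v ∘ i = 0} :=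
  ⟨(Act.Rep.pr ρ₁).preimage (φ := id) (cont_comp_right i) he, Act.Rep.pr _,
    (cont_comp_right i).continuousOn, fun g w _ => he g w, mapsTo_univ _ _, fun _ _ k => k⟩

theorem IsSum.eadm {e : J₁ ⊕ J₂ ≃ J} (he : IsSum ρ ρ₁ ρ₂ e)
    (h₁ : EAdm b ρ₁ (fun y => F y ∘ e ∘ Sum.inl) V W₁)
    (h₂ : EAdm b ρ₂ (fun y => F y ∘ e ∘ Sum.inr) V W₂) (h : b.Pr V W) (hW : V ∩ W₁ ∩ W₂ ⊆ W) :
    EAdm b ρ F V W :=
  ⟨h, Act.Rep.pr _, continuousOn_pi.2 fun j => by
    obtain ⟨i | i, rfl⟩ := e.surjective j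
    exacts [continuousOn_pi.1 h₁.cont i, continuousOn_pi.1 h₂.cont i],
    fun g y hy => sum_extT e ((h₁.eqv g y hy).trans (he g _).1.symm)
      ((h₂.eqv g y hy).trans (he g _).2.symm), mapsTo_univ _ _, fun y hy k =>
    hW ⟨⟨hy, h₁.supp y hy (by rw [show F y = 0 from k]; rfl)⟩,
      h₂.supp y hy (by rw [show F y = 0 from k]; rfl)⟩⟩

theorem eul_sum {e : J₁ ⊕ J₂ ≃ J} (he : IsSum ρ ρ₁ ρ₂ e)
    (h₁ : EAdm b ρ₁ (fun y => F y ∘ e ∘ Sum.inl) V W₁)
    (h₂ : EAdm b ρ₂ (fun y => F y ∘ e ∘ Sum.inr) V W₂) (h : b.Pr V W) (hW : V ∩ W₁ ∩ W₂ ⊆ W) :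
    eul b ρ F V W = ecup V W (eul b ρ₁ (fun y => F y ∘ e ∘ Sum.inl) V W₁)
      (eul b ρ₂ (fun y => F y ∘ e ∘ Sum.inr) V W₂) := by
  have c₁ := eadm_comp fun g w => (he g w).1
  have c₂ := eadm_comp fun g w => (he g w).2
  have z : ∀ v ∈ (univ : Set (J → ℂ)), v ∈ {v | v ∘ e ∘ Sum.inl = 0} →
      v ∈ {v | v ∘ e ∘ Sum.inr = 0} → v ∈ ({0} : Set (J → ℂ)) := fun v _ => sum_extT e (w := 0)
  have c := ecup_of c₁.src c₂.src (Act.Rep.pr ρ) fun v k => z v trivial k.1.2 k.2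
  have k := he.eadm h₁ h₂ h hW
  have i : Ext id (univ : Set (J → ℂ)) := .of_continuous continuous_id _
  have ok := fun {S} (m : ρ.Pr univ S) => ok_bmk m i (mapsTo_univ _ _) fun _ _ k => k
  have cd : (2 * Fintype.card J : ℤ) = 2 * Fintype.card J₁ + 2 * Fintype.card J₂ := by
    simp [← Fintype.card_congr e, mul_add]
  have t := eq_thom (τ := ecup univ {0}
    (eul ρ ρ₁ (fun v => v ∘ e ∘ Sum.inl) univ {v | v ∘ e ∘ Sum.inl = 0})
    (eul ρ ρ₂ (fun v => v ∘ e ∘ Sum.inr) univ {v | v ∘ e ∘ Sum.inr = 0}))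
    (cd ▸ isDeg_eul.ecup isDeg_eul)
    fun u => (pull_cup' (ok (Act.Rep.pr ρ) u) (ok c₁.src u) (ok c₂.src u) z c.bs _ _).trans (by
      rw [pull_bmk_eul c₁ i (mapsTo_univ _ _) fun _ _ k => k,
        pull_bmk_eul c₂ i (mapsTo_univ _ _) fun _ _ k => k]
      exact (orient_sum e).symm)
  have k₁ : GAdm b ρ id F V W₁ univ {v | v ∘ e ∘ Sum.inl = 0} :=
    ⟨h₁.src, c₁.src, k.cont, k.eqv, k.maps, h₁.supp⟩
  have k₂ : GAdm b ρ id F V W₂ univ {v | v ∘ e ∘ Sum.inr = 0} :=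
    ⟨h₂.src, c₂.src, k.cont, k.eqv, k.maps, h₂.supp⟩
  rw [eul, ← t, gp_ecup c (ecup_of h₁.src h₂.src h hW) k k₁ k₂ subset_rfl subset_rfl,
    gp_eul c₁ k₁ (fun _ _ => rfl) fun _ _ => rfl, gp_eul c₂ k₂ (fun _ _ => rfl) fun _ _ => rfl]

theorem eadm_zero (h : b.Pr V univ) : EAdm b ρ (fun _ => 0) V univ :=
  ⟨h, Act.Rep.pr ρ, continuousOn_const, fun g _ _ => (Act.Rep.lin g).map_zero.symm,
    fun _ _ => trivial, fun _ _ _ => trivial⟩

/-- forgetting the support gives the Euler class -/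
theorem eul_univ (h : EAdm b ρ F V univ) : eul b ρ F V univ = sm (euc ρ) (eone b V) := by
  rw [sm_eone h.src, euc, gp_eul (eadm_zero (Act.pr_pt G)) (gadm_pt h.src id) (σ := ρ)
    (fun _ _ => rfl) (F' := fun _ => 0) fun _ _ => rfl]
  have := eul_htpy (ρ := ρ) (b := b) (V := V) (W := univ) (F := fun s y => (s : ℂ) • F y)
    ((Complex.continuous_ofReal.comp continuous_fst).continuousOn.smul
      (h.cont.comp continuousOn_snd fun _ k => k.2)) fun s _ =>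
    ⟨h.src, h.tgt, h.cont.const_smul (s : ℂ), fun g y hy => by
      rw [h.eqv g y hy, (Act.Rep.lin _).map_smul], h.maps, fun _ _ _ => trivial⟩
  simpa using this.symm

/-- a summand on which `F` vanishes contributes its Euler class -/
theorem eul_sum_zero {e : J₁ ⊕ J₂ ≃ J} (he : IsSum ρ ρ₁ ρ₂ e)
    (h₁ : EAdm b ρ₁ (fun y => F y ∘ e ∘ Sum.inl) V W) (h₂ : ∀ y ∈ V, F y ∘ e ∘ Sum.inr = 0) :
    eul b ρ F V W = sm (euc ρ₂) (eul b ρ₁ (fun y => F y ∘ e ∘ Sum.inl) V W) := by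
  have k : EAdm b ρ₂ (fun y => F y ∘ e ∘ Sum.inr) V univ := ⟨h₁.src.top, Act.Rep.pr _,
    continuousOn_const.congr h₂, fun g y hy => by
      rw [h₂ y hy, h₂ _ (h₁.src.inv g y hy), (Act.Rep.lin _).map_zero],
    mapsTo_univ _ _, fun _ _ _ => trivial⟩
  have c := (ecup_top h₁.src).symm
  rw [eul_sum he h₁ k h₁.src fun _ m => m.1.2, eul_univ k, ecup_sm_right c ev_eucT,
    ecup_eone c (gadm_id h₁.src h₁.src subset_rfl inter_subset_right), gp_id h₁.src]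

theorem eul_isEmpty [IsEmpty J] (h : b.Pr V univ) : eul b ρ F V univ = eone b V := by
  obtain rfl : F = fun _ => 0 := Subsingleton.elim _ _
  have s : ρ.bs univ ⊆ ρ.bs {0} := Act.bs_mono fun _ _ => Subsingleton.elim _ _
  rw [eul, ← eq_thom (τ := cls _ _ onec) (by simpa using isDeg_one) fun e => by
    rw [pull_one (ok_bmk (Act.Rep.pr ρ) (ι := fun v => v) (.of_continuous continuous_id _)
      (mapsTo_univ _ _) (fun _ _ k => k) e) s, orient, Finset.univ_eq_empty, Finset.toList_empty]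
    rfl]
  exact pull_one (eadm_zero h).ok s

theorem euc_res : gpt φ (euc ρ) = euc (ρ.res φ) :=
  gp_eul (eadm_zero (Act.pr_pt G)) (gadm_pt (Act.pr_pt G') φ) (fun _ _ => rfl) fun _ _ => rfl

theorem euc_congr {σ : Act G (J → ℂ)} (e : ∀ g w, σ.act g w = ρ.act g w) : euc σ = euc ρ := by
  obtain rfl : σ = ρ := congrArg Act.mk (funext₂ e)
  rfl

theorem euc_sum {e : J₁ ⊕ J₂ ≃ J} (he : IsSum ρ ρ₁ ρ₂ e) : euc ρ = euc ρ₁ * euc ρ₂ :=
  eul_sum he (eadm_zero (Act.pr_pt G)) (eadm_zero (Act.pr_pt G)) (Act.pr_pt G) (subset_univ _)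

theorem gpt_eu {χ : G.H → ℂ} (h : IsChar χ) : gpt φ (eu χ) = eu fun g => χ (φ g) :=
  have := Act.rep_dg fun _ : Unit => h
  euc_res

-- `eu_mul` is in `ApiG`.

/-- injective derivative: the local class is nonzero -/
theorem loc_deg {L : Type} [NormedAddCommGroup L] [NormedSpace ℝ L] [FiniteDimensional ℝ L]
    (hL : Module.finrank ℝ L = 2 * Fintype.card J) {O : Set L} (hO : IsOpen O) {w : L}
    (hw : w ∈ O) {Γ : L → J → ℂ} (hc : ContinuousOn Γ O) (h0 : ∀ y ∈ O, Γ y = 0 ↔ y = w)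
    {A : L →L[ℝ] J → ℂ} (hA : HasFDerivAt Γ A w) (hi : Function.Injective A) :
    eul (Act.triv Gp.one L) (Act.triv Gp.one _) Γ O {w} ≠ 0 := by
  intro h
  have ad : EAdm (Act.triv Gp.one L) (Act.triv Gp.one _) Γ O {w} :=
    ⟨Act.pr_of _ hO.isLocallyClosed (fun _ _ k => k) isClosed_singleton fun _ _ k => k,
      Act.Rep.pr _, hc, fun _ _ _ => rfl, mapsTo_univ _ _, fun y k => (h0 y k).1⟩
  obtain ⟨K, k0, hK⟩ := A.toLinearMap.exists_antilipschitzWith (LinearMap.ker_eq_bot.2 hi)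
  obtain ⟨B, b1, b2, b3⟩ := eventually_nhds_iff.1 ((hA.isLittleO.def
    (c := (2 * K)⁻¹) (by positivity)).and (hO.mem_nhds hw))
  have key := pull_bmk_eul ad (ι := id) (A := B) (B := {w}) (.of_continuous continuous_id _)
    (fun y k => (b1 y k).2) (fun _ _ k => k) (Classical.arbitrary _)
  have cA : Continuous fun y => A (y - w) := by fun_prop
  rw [h, map_zero, ← pull_htpy' (F := fun z => A (z.1 - w) + z.2 • (Γ z.1 - A (z.1 - w)))
    (f := fun y => A (y - w)) (Z' := {0}) (ext_htpy b2.isLocallyClosed ((cA.comp continuous_fst).continuousOn.add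
      (continuousOn_snd.smul ((hc.comp continuousOn_fst fun z k => (b1 _ k.1).2).sub
        (cA.comp continuous_fst).continuousOn)))) (fun _ _ _ _ => mem_univ _) (fun y k t ht z => ?_)
    (by simp) (by simp)] at key
  · have bj : Function.Bijective A := ⟨hi, (LinearMap.injective_iff_surjective_of_finrank_eq_finrank
      (f := A.toLinearMap) (by
        rw [hL, Module.finrank_pi_fintype]; simp [mul_comm])).1 hi⟩
    let E := (LinearEquiv.ofBijective A.toLinearMap bj).toContinuousLinearEquiv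
    have o : Ok (fun y => A (y - w)) univ {w} univ {0} := .of_mem (.of_continuous cA _)
      (mapsTo_univ _ _) fun y _ z => sub_eq_zero.1 (hi (z.trans (map_zero A).symm))
    rw [← pull_pull' (f := id) (F := fun y => A (y - w)) (.id (subset_univ B) fun _ _ k => k) o fun _ _ => rfl] at key
    refine orient_ne_zero ((pull_bij_of_inv o (s := fun v => E.symm v + w) (.of_mem
      (.of_continuous (by fun_prop) _) (mapsTo_univ _ _) fun v _ z => by simpa using z)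
      (fun y _ => by rw [show A (y - w) = E (y - w) from rfl]; simp) fun v _ => by
        rw [add_sub_cancel_right]; exact E.apply_symm_apply v).1 ((res_excision (subset_univ B)
      (.of_isClosed isClosed_singleton _) (fun y _ z => mem_nhdsWithin_of_mem_nhds
        (b2.mem_nhds ((show y = w from z) ▸ b3))) fun _ _ => Iff.rfl).1 ?_))
    rw [← key, map_zero, map_zero]
  · have h1 := (b1 y k).1
    have h2 := hK.le_mul_norm (map_zero _) (y - w)
    rw [(h0 w hw).2 rfl, sub_zero] at h1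
    have h3 : ‖A (y - w)‖ ≤ (2 * K : ℝ)⁻¹ * ‖y - w‖ := by
      rw [eq_neg_of_add_eq_zero_left z, norm_neg, norm_smul, Real.norm_of_nonneg ht.1]
      exact (mul_le_of_le_one_left (norm_nonneg _) ht.2).trans h1
    have h4 : (K : ℝ) * ((2 * K : ℝ)⁻¹ * ‖y - w‖) = ‖y - w‖ / 2 := by field_simp
    refine sub_eq_zero.1 (norm_le_zero_iff.1 ?_)
    linarith [mul_le_mul_of_nonneg_left h3 K.coe_nonneg, show ‖y - w‖ ≤ K * ‖A (y - w)‖ from h2]

/-! ### Thom isomorphism and integration -/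

theorem thom_bij (h : Fib a b ρ p F U) (hU : a.Pr U Z) :
    Function.Bijective fun x : EH a U Z => ecup (p ⁻¹' U) (p ⁻¹' Z ∩ F ⁻¹' {0})
      (gp b id p (p ⁻¹' U) (p ⁻¹' Z) x) (eul b ρ F (p ⁻¹' U) (F ⁻¹' {0})) :=
  (h.isTh hU).bij h hU ((h.prT hU).inter (h.eadmT hU).src) fun _ _ => Iff.rfl

section Disc

variable {R R' : X → ℝ}

theorem Fib.ecup_dsc (h : Fib a b ρ p F U) (hU : a.Pr U Z) (hR : Rad a U R) :
    ECup b (p ⁻¹' U) (p ⁻¹' Z) (p ⁻¹' U) (F ⁻¹' {0}) (p ⁻¹' U) (dsc p F Z R) :=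
  ecup_of (h.prT hU) (h.eadmT hU).src (h.pr_dsc hU hR) fun y k =>
    ⟨k.1.2, by rw [mem_ofPred_eq, show F y = 0 from k.2, nsqT_zero]; exact hR.nn _ k.1.1⟩

theorem Fib.thm_bij (h : Fib a b ρ p F U) (hU : a.Pr U Z) (hR : Rad a U R) : Function.Bijective
    ((ecup (p ⁻¹' U) (dsc p F Z R)).flip (eul b ρ F (p ⁻¹' U) (F ⁻¹' {0})) ∘ₗ
      gp b id p (p ⁻¹' U) (p ⁻¹' Z) : EH a U Z →ₗ[ℂ] _) := by
  have k := (h.prT hU).inter (h.eadmT hU).src
  convert (h.disc_bij hU hR).comp (thom_bij h hU) using 1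
  exact funext fun x => (gp_id_ecup (ecup_of (h.prT hU) (h.eadmT hU).src k fun y k => ⟨k.1.2, k.2⟩)
    (gadm_id k (h.pr_dsc hU hR) subset_rfl fun y k => ⟨k.2.1, by
      rw [mem_ofPred_eq, show F y = 0 from k.2.2, nsqT_zero]; exact hR.nn _ k.1⟩) _ _).symm

theorem dsc_mono (e : ∀ x ∈ U, R x ≤ R' x) : p ⁻¹' U ∩ dsc p F Z R ⊆ dsc p F Z R' :=
  fun _ k => ⟨k.2.1, le_trans k.2.2 (e _ k.1)⟩

theorem IAdm.rad (h : IAdm a b ρ p F U Z V W) (hR : ContinuousOn R U) :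
    ∃ R', Rad a U R' ∧ (∀ x ∈ U, R x ≤ R' x) ∧ p ⁻¹' U ∩ W ⊆ dsc p F Z R' := by
  obtain ⟨R₀, h1, -, h3⟩ := h.bdd
  obtain ⟨R', r1, r2⟩ := exists_rad h.tgt.inv (h1.sup hR)
  exact ⟨R', r1, fun x k => le_sup_right.trans (r2 x k), fun y k =>
    ⟨h.supp y k.2 k.1, (h3 y k.2 k.1).trans (le_sup_left.trans (r2 _ k.1))⟩⟩

theorem IAdm.gadm_dsc (h : IAdm a b ρ p F U Z V W) (hR : Rad a U R)
    (hs : p ⁻¹' U ∩ W ⊆ dsc p F Z R) : GAdm b b id id (p ⁻¹' U) (dsc p F Z R) V W :=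
  gadm_id h.src (h.fib.pr_dsc h.tgt hR) h.sub hs

theorem IAdm.isInt_res (h : IAdm a b ρ p F U Z V W) {c : EH b V W} {x : EH a U Z}
    (hx : IsInt ρ p F c x) : ∃ R, Rad a U R ∧ ∀ R', Rad a U R' → (∀ x ∈ U, R x ≤ R' x) →
      gp b id id (p ⁻¹' U) (dsc p F Z R') c = ecup (p ⁻¹' U) (dsc p F Z R')
        (gp b id p (p ⁻¹' U) (p ⁻¹' Z) x) (eul b ρ F (p ⁻¹' U) (F ⁻¹' {0})) := by
  obtain ⟨R, h1, h2, -, h3, h4⟩ := hx
  have hR : Rad a U R := ⟨h1, fun x k => (h2 x k).1, fun g x k => (h2 x k).2 g⟩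
  refine ⟨R, hR, fun R' hR' e => ?_⟩
  have k := h.fib.pr_dsc h.tgt hR
  have k' := h.fib.pr_dsc h.tgt hR'
  rw [← res_res h.src k k' h.sub h3 subset_rfl (dsc_mono e), h4,
    gp_id_ecup (h.fib.ecup_dsc h.tgt hR) (gadm_id k k' subset_rfl (dsc_mono e))]

theorem intg_spec (h : IAdm a b ρ p F U Z V W) (c : EH b V W) :
    IsInt ρ p F c (intg a ρ p F U Z c) := by
  obtain ⟨R, hR, -, hs⟩ := h.rad (R := 0) continuousOn_const
  exact Classical.epsilon_spec (p := fun L : EH b V W →ₗ[ℂ] EH a U Z => ∀ c, IsInt ρ p F c (L c))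
    ⟨linv _ ∘ₗ gp b id id _ _, fun c => ⟨R, hR.cont, fun y k => ⟨hR.nn y k, fun g => hR.inv g y k⟩,
      h.sub, hs, (apply_linv (h.fib.thm_bij h.tgt hR) _).symm⟩⟩ c

theorem intg_unique (h : IAdm a b ρ p F U Z V W) {c : EH b V W} {x : EH a U Z}
    (hx : IsInt ρ p F c x) : intg a ρ p F U Z c = x := by
  obtain ⟨R, hR, e⟩ := h.isInt_res hx
  obtain ⟨R', hR', e'⟩ := h.isInt_res (intg_spec h c)
  exact (h.fib.thm_bij h.tgt (hR.add hR')).1 ((e' _ (hR.add hR') fun x k =>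
    le_add_of_nonneg_left (hR.nn x k)).symm.trans
      (e _ (hR.add hR') fun x k => le_add_of_nonneg_right (hR'.nn x k)))

theorem IAdm.intg_eq (h : IAdm a b ρ p F U Z V W) (hR : Rad a U R)
    (hs : p ⁻¹' U ∩ W ⊆ dsc p F Z R) {c : EH b V W} {x : EH a U Z}
    (e : gp b id id (p ⁻¹' U) (dsc p F Z R) c = ecup (p ⁻¹' U) (dsc p F Z R)
      (gp b id p (p ⁻¹' U) (p ⁻¹' Z) x) (eul b ρ F (p ⁻¹' U) (F ⁻¹' {0}))) :
    intg a ρ p F U Z c = x :=
  intg_unique h ⟨R, hR.cont, fun y k => ⟨hR.nn y k, fun g => hR.inv g y k⟩, h.sub, hs, e⟩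

theorem IAdm.res_eq (h : IAdm a b ρ p F U Z V W) (hR : Rad a U R)
    (hs : p ⁻¹' U ∩ W ⊆ dsc p F Z R) (c : EH b V W) :
    gp b id id (p ⁻¹' U) (dsc p F Z R) c = ecup (p ⁻¹' U) (dsc p F Z R)
      (gp b id p (p ⁻¹' U) (p ⁻¹' Z) (intg a ρ p F U Z c)) (eul b ρ F (p ⁻¹' U) (F ⁻¹' {0})) := by
  obtain ⟨x, e⟩ := (h.fib.thm_bij h.tgt hR).2 (gp b id id (p ⁻¹' U) (dsc p F Z R) c)
  rw [h.intg_eq hR hs e.symm]
  exact e.symm

theorem Fib.subT (h : Fib a b ρ p F U) {r : X → J → ℂ} (hr : ContinuousOn r U)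
    (he : ∀ g, ∀ x ∈ U, r (a.act g x) = ρ.act g (r x)) :
    Fib a b ρ p (fun y => F y - r (p y)) U := by
  obtain ⟨σ, c, k, k'⟩ := h.inv
  exact ⟨h.contp, h.eqvp, h.contF.sub (hr.comp h.contp.continuousOn fun _ k => k),
    fun g y m => by rw [h.eqvF g y m, h.eqvp, he g _ m, (Act.Rep.lin g).map_sub],
    fun z => σ (z.1, z.2 + r z.1), c.comp (continuousOn_fst.prodMk (continuousOn_snd.add
      (hr.comp continuousOn_fst fun _ m => m.1))) fun _ m => ⟨m.1, trivial⟩,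
    fun x m v => by simp [k x m], fun y m => by simp [k' y m]⟩

theorem Fib.shift (h : Fib a b ρ p F U) (hU : a.Pr U Z) (hR : Rad a U R) {r : X → J → ℂ}
    (hr : ContinuousOn r U) (he : ∀ g, ∀ x ∈ U, r (a.act g x) = ρ.act g (r x))
    (le : ∀ x ∈ U, nsq (r x) ≤ R x) (hW : b.Pr (p ⁻¹' U) W)
    (e : ∀ y, p y ∈ U → (y ∈ W ↔ F y = r (p y))) (x : EH b (p ⁻¹' U) (p ⁻¹' Z)) :
    ecup (p ⁻¹' U) (dsc p F Z R) x (eul b ρ (fun y => F y - r (p y)) (p ⁻¹' U) W) =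
      ecup (p ⁻¹' U) (dsc p F Z R) x (eul b ρ F (p ⁻¹' U) (F ⁻¹' {0})) := by
  have d := h.pr_le hU hR
  have c := ecup_of (h.prT hU) d (h.pr_dsc hU hR) fun y k => ⟨k.1.2, k.2⟩
  have e0 := h.eadmT hU
  have e1 := (h.subT hr he).eadmT hU
  have e2 : EAdm b ρ (fun y => F y - r (p y)) (p ⁻¹' U) W :=
    ⟨hW, e1.tgt, e1.cont, e1.eqv, e1.maps, fun y k m => (e y k).2 (sub_eq_zero.1 m)⟩
  have k0 := gadm_id e0.src d subset_rfl fun y k => by
    rw [mem_ofPred_eq, show F y = 0 from k.2, nsqT_zero]; exact hR.nn _ k.1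
  have k2 := gadm_id hW d subset_rfl fun y k => by
    rw [mem_ofPred_eq, (e y k.1).1 k.2]; exact le _ k.1
  rw [← ecup_gp_right c k0, ← ecup_gp_right c k2, gp_eul e0 k0 (fun _ _ => rfl) fun _ _ => rfl,
    gp_eul e2 k2 (fun _ _ => rfl) fun _ _ => rfl]
  have cr : ContinuousOn (fun y => r (p y)) (p ⁻¹' U) := hr.comp h.contp.continuousOn fun _ k => k
  have := eul_htpy (ρ := ρ) (b := b) (V := p ⁻¹' U) (W := {y | nsq (F y) ≤ R (p y)})
    (F := fun s y => F y - (s : ℂ) • r (p y)) ((h.contF.comp continuousOn_snd fun _ k => k.2).sub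
    ((Complex.continuous_ofReal.comp continuous_fst).continuousOn.smul
      (cr.comp continuousOn_snd fun _ k => k.2))) fun s hs =>
    ⟨d, e0.tgt, h.contF.sub (cr.const_smul (s : ℂ)), fun g y k => by
      rw [h.eqvF g y k, h.eqvp, he g _ k, ← (Act.Rep.lin g).map_smul, ← (Act.Rep.lin g).map_sub]
      rfl, e0.maps, fun y k m => by
      rw [mem_ofPred_eq, sub_eq_zero.1 m, nsqT_smul]
      exact (mul_le_of_le_one_left (nsqT_nonneg _) (pow_le_one₀ hs.1 hs.2)).trans (le _ k)⟩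
  congr 1
  simpa using this.symm

end Disc

theorem Act.Pr.inter_topT (h : a.Pr U Z) : a.Pr (U ∩ Z) univ :=
  ⟨Cl.isLocallyClosed_inter h.cl h.lc, h.inv_inter, fun _ _ _ _ => trivial, fun _ _ => trivial⟩

/-- integration against the class of a section `s` is restriction to the section -/
theorem intg_section (h : IAdm a b ρ p F U Z V W) {s : X → Y} (k : GAdm a b id s U Z V₁ W₁)
    (hs : ∀ x ∈ U, p (s x) = x) (hV : V = p ⁻¹' U)
    (hc : ECup b V₁ W₁ V {y | F y = F (s (p y))} V W) (c : EH b V₁ W₁) :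
    intg a ρ p F U Z (ecup V W c (eul b ρ (fun y => F y - F (s (p y))) V {y | F y = F (s (p y))}))
      = gp a id s U Z c := by
  subst hV
  have m : MapsTo s U (p ⁻¹' U) := fun x hx => by rwa [mem_preimage, hs x hx]
  have hr : ContinuousOn (fun x => F (s x)) U := h.fib.contF.comp k.cont m
  obtain ⟨R, hR, le, hW⟩ := h.rad (nsqT_cont.comp_continuousOn hr)
  have P := (h.fib.prT h.tgt).mono hc.p2.inter_topT inter_subset_left
  have e : ∀ y ∈ p ⁻¹' U ∩ {y | F y = F (s (p y))}, y = s (p y) := fun y m =>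
    h.fib.injT m.1 (hs _ m.1).symm m.2
  have k₁ := gadm_id k.tgt P (fun y m => e y m ▸ k.maps m.1) fun y m =>
    k.supp _ m.1.1 (e y m.1 ▸ m.2)
  have k₂ := gadm_id (h.fib.prT h.tgt) P inter_subset_left inter_subset_right
  have c₁ : ECup b _ _ _ _ _ _ := ⟨P, hc.p2, h.fib.pr_dsc h.tgt hR, fun _ m => Or.inr m, by grind,
    fun y m => (em _).imp (fun m' => ⟨⟨m.1, m'⟩, fun z => m.2 ⟨z, by
      rw [mem_ofPred_eq, show F y = _ from m']; exact le _ m.1⟩⟩) fun m' => ⟨m.1, m'⟩⟩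
  refine h.intg_eq hR hW ?_
  rw [gp_id_ecup hc (h.gadm_dsc hR hW), ← h.fib.shift h.tgt hR hr (fun g x hx => by
    rw [k.eqv g x hx]; exact h.fib.eqvF g _ (m hx)) le hc.p2 fun _ _ => Iff.rfl,
    ← ecup_gp_left c₁ k₁, ← ecup_gp_left c₁ k₂, gp_comp (h.fib.gadmT h.tgt) k₂ (χ := id)
      (fun _ => rfl) (k := p) fun _ _ => rfl, gp_comp k (ψ := id) (f' := p) (h.fib.gadmT h.tgt |>.comp k₂) (χ := id)
      (fun _ => rfl) (k := id) e]

/-- supports that are graphs over closed subsets -/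
theorem intg_graph (h : Fib a b ρ p F U) (hU : a.Pr U Z) (hW : b.Pr (p ⁻¹' U) W) {r : X → J → ℂ}
    (hr : ContinuousOn r (U ∩ Z)) (he : ∀ g, ∀ x ∈ U ∩ Z, r (a.act g x) = ρ.act g (r x))
    (e : ∀ y, p y ∈ U → (y ∈ W ↔ p y ∈ Z ∧ F y = r (p y))) :
    IAdm a b ρ p F U Z (p ⁻¹' U) W ∧
      Function.Bijective (intg a ρ p F U Z : EH b (p ⁻¹' U) W → _) := by
  obtain ⟨r', r1, r2, r3⟩ := exists_eqv_ext hU hr he
  have e' : ∀ y, p y ∈ U → (y ∈ W ↔ p y ∈ Z ∧ F y - r' (p y) = 0) := fun y m => by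
    rw [e y m, sub_eq_zero]
    exact and_congr_right fun z => by rw [r3 _ ⟨m, z⟩]
  have cr := nsqT_cont.comp_continuousOn r1
  have i : IAdm a b ρ p F U Z (p ⁻¹' U) W := ⟨h, hU, hW, subset_rfl, fun y k m => ((e y m).1 k).1,
    _, cr, fun g x m => by rw [Function.comp_apply, r2 g x m, Act.Rep.nsq]; rfl, fun y k m => by
      rw [sub_eq_zero.1 ((e' y m).1 k).2]; rfl⟩
  have h' := h.subT r1 r2
  refine ⟨i, (Function.Bijective.of_comp_iff _ ((h'.isTh hU).bij h' hU hW e')).1 ?_⟩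
  convert Function.bijective_id using 1
  obtain ⟨R, hR, le, hs⟩ := i.rad cr
  exact funext fun x => i.intg_eq hR hs (by
    rw [gp_id_ecup (ecup_of (h.prT hU) (h'.eadmT hU).src hW fun y k => (e' y k.1.1).2 ⟨k.1.2, k.2⟩)
      (i.gadm_dsc hR hs), h.shift hU hR r1 r2 le (h'.eadmT hU).src fun _ _ => sub_eq_zero]
    rfl)

/-- base change -/
theorem gp_intg (h : IAdm a b ρ p F U Z V W) {σ : Act G' (J → ℂ)} [σ.Rep] {p' : Y' → X'}
    {F' : Y' → J → ℂ} (h' : IAdm a' b' σ p' F' U' Z' V' W') {f : X' → X} {f' : Y' → Y}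
    (k : GAdm a' a φ f U' Z' U Z) (k' : GAdm b' b φ f' V' W' V W)
    (e : ∀ g w, σ.act g w = ρ.act (φ g) w) (e₁ : ∀ y, p' y ∈ U' → p (f' y) = f (p' y))
    (e₂ : ∀ y, p' y ∈ U' → F (f' y) = F' y) (c : EH b V W) :
    gp a' φ f U' Z' (intg a ρ p F U Z c) = intg a' σ p' F' U' Z' (gp b' φ f' V' W' c) := by
  obtain ⟨R, hR, -, hs⟩ := h.rad (R := 0) continuousOn_const
  obtain ⟨R', hR', le, hs'⟩ := h'.rad (hR.comp k).cont
  have mk : ∀ {D : Set Y} {D' : Set Y'}, b.Pr (p ⁻¹' U) D → b'.Pr (p' ⁻¹' U') D' →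
      (∀ y, p' y ∈ U' → f' y ∈ D → y ∈ D') → GAdm b' b φ f' (p' ⁻¹' U') D' (p ⁻¹' U) D :=
    fun d d' z => ⟨d', d, k'.cont.mono h'.sub, fun g y m => k'.eqv g y (h'.sub m), fun y m => by
      rw [mem_preimage, e₁ y m]; exact k.maps m, z⟩
  have z : ∀ y, p' y ∈ U' → f' y ∈ p ⁻¹' Z → y ∈ p' ⁻¹' Z' := fun y m z =>
    k.supp _ m (e₁ y m ▸ z)
  have k₀ := mk (h.fib.pr_dsc h.tgt hR) (h'.fib.pr_dsc h'.tgt hR') fun y m d => ⟨z y m d.1, by
    rw [mem_ofPred_eq, ← e₂ y m]; exact le_trans d.2 (e₁ y m ▸ le _ m)⟩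
  have k₁ := mk (h.fib.prT h.tgt) (h'.fib.prT h'.tgt) z
  have k₂ := mk (h.fib.eadmT h.tgt).src (h'.fib.eadmT h'.tgt).src fun y m z => (e₂ y m).symm.trans z
  refine (h'.intg_eq hR' hs' ?_).symm
  rw [gp_comp k' (h'.gadm_dsc hR' hs') (χ := φ) (fun _ => rfl) (k := f') fun _ _ => rfl,
    ← gp_comp (h.gadm_dsc hR hs) k₀ (χ := φ) (fun _ => rfl) (k := f') fun _ _ => rfl,
    h.res_eq hR hs, gp_ecup (h.fib.ecup_dsc h.tgt hR) (h'.fib.ecup_dsc h'.tgt hR') k₀ k₁ k₂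
      subset_rfl subset_rfl, gp_eul (h.fib.eadmT h.tgt) k₂ e fun y m => (e₂ y m).symm,
    gp_comp (h.fib.gadmT h.tgt) k₁ (χ := φ) (fun _ => rfl) (k := fun y => f (p' y))
      fun y m => (e₁ y m).symm, gp_comp k (h'.fib.gadmT h'.tgt) (χ := φ) (fun _ => rfl)
      (k := fun y => f (p' y)) fun _ _ => rfl]

theorem nsq_affineT (M : Matrix J' J ℂ) (r : J' → ℂ) {v : J → ℂ} {t : ℝ} (h : nsq v ≤ t) :
    nsq (M *ᵥ v + r) ≤ ∑ i, (∑ j, ‖M i j‖ * (t + 1) + ‖r i‖) ^ 2 := by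
  refine Finset.sum_le_sum fun i _ => pow_le_pow_left₀ (norm_nonneg _) ((norm_add_le _ _).trans
    (add_le_add ((norm_sum_le _ _).trans (Finset.sum_le_sum fun j _ => ?_)) le_rfl)) 2
  rw [norm_mul]
  exact mul_le_mul_of_nonneg_left (by nlinarith [nsqT_apply_le v j, norm_nonneg (v j)])
    (norm_nonneg _)

/-- the integral does not depend on the affine fibre coordinate -/
theorem intg_affine (h : IAdm a b ρ p F U Z V W) {F' : Y → J' → ℂ}
    (h' : IAdm a b ρ' p F' U Z V W) {M : X → Matrix J' J ℂ} (hM : ContinuousOn M U)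
    {r : X → J' → ℂ} (hr : ContinuousOn r U)
    (e : ∀ y, p y ∈ U → F' y = M (p y) *ᵥ F y + r (p y)) (c : EH b V W) :
    intg a ρ' p F' U Z c = intg a ρ p F U Z c := by
  obtain ⟨σ, -, s1, s2, -, s4⟩ := h.fib.invT h.tgt.inv
  obtain ⟨σ', -, t1, t2, -⟩ := h'.fib.invT h.tgt.inv
  have m : ∀ x ∈ U, ∀ v, p (σ (x, v)) ∈ U := fun x k v => (s1 x k v).symm ▸ k
  have key : ∀ x ∈ U, ∀ v, F' (σ (x, v)) = M x *ᵥ v + r x := fun x k v => by
    rw [e _ (m x k v), s1 x k, s2 x k]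
  have eq : ∀ g, ∀ x ∈ U, ∀ v, M (a.act g x) *ᵥ ρ.act g v + r (a.act g x) =
      ρ'.act g (M x *ᵥ v + r x) := fun g x k v => by
    rw [← key _ (h.tgt.inv g x k), s4 g x k, h'.fib.eqvF g _ (m x k v), key x k]
  have he : ∀ g, ∀ x ∈ U, r (a.act g x) = ρ'.act g (r x) := fun g x k => by
    simpa [(Act.Rep.lin g).map_zero] using eq g x k 0
  have bj : ∀ x ∈ U, Function.Bijective fun v => M x *ᵥ v := fun x k => ⟨fun v w z => by
    rw [← s2 x k v, h'.fib.injT (y' := σ (x, w)) (m x k v) (by rw [s1 x k, s1 x k]) (by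
      rw [key x k, key x k]; exact congrArg (· + r x) z), s2 x k], fun w => ⟨F (σ' (x, w + r x)), by
      simpa [t1 x k, t2 x k] using (e (σ' (x, w + r x)) ((t1 x k _).symm ▸ k)).symm⟩⟩
  obtain ⟨R, hR, -, hs⟩ := h.rad (R := 0) continuousOn_const
  obtain ⟨R', hR', le⟩ := exists_rad h.tgt.inv
    (R := fun x => ∑ i, (∑ j, ‖M x i j‖ * (R x + 1) + ‖r x i‖) ^ 2)
    (continuousOn_finsetSum _ fun i _ => ((continuousOn_finsetSum _ fun j _ =>
      (continuousOn_pi.1 (continuousOn_pi.1 hM i) j).norm.mul (hR.cont.add continuousOn_const)).add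
      (continuousOn_pi.1 hr i).norm).pow 2)
  have d := h.fib.pr_dsc h.tgt hR
  have d' := h'.fib.pr_dsc h.tgt hR'
  have s : p ⁻¹' U ∩ dsc p F Z R ⊆ dsc p F' Z R' := fun y k => ⟨k.2.1, by
    rw [mem_ofPred_eq, e y k.1]; exact (nsq_affineT _ _ k.2.2).trans (le _ k.1)⟩
  have e0 := h.fib.eadmT h.tgt
  refine h'.intg_eq hR' (fun y k => s ⟨k.1, hs k⟩) ?_
  rw [← res_res h.src d d' h.sub hs subset_rfl s, h.res_eq hR hs,
    gp_id_ecup (h.fib.ecup_dsc h.tgt hR) (gadm_id d d' subset_rfl s),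
    ← h'.fib.shift h.tgt hR' hr he (fun x k => le_trans (by
      simpa using nsq_affineT (M x) (r x) (nsqT_zero.trans_le (hR.nn x k))) (le x k)) e0.src
      fun y k => by
        rw [e y k, add_eq_right]
        exact ⟨fun z => by rw [show F y = 0 from z, mulVec_zero],
          fun z => (bj _ k).1 (z.trans (mulVec_zero _).symm)⟩,
    ← eul_fam (ρ' := ρ') e0 (L := fun y w => M (p y) *ᵥ w)
      (h43_contOn_mulVec (hM.comp' (f := fun z : (J → ℂ) × Y => p z.2)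
        (h.fib.contp.comp' continuous_snd).continuousOn fun _ k => k) continuousOn_fst)
      (fun y _ => ⟨mulVec_add _, fun c => mulVec_smul _ c⟩) (fun y k => bj _ k) fun g y k w => by
        have := eq g _ k w
        rwa [(Act.Rep.lin g).map_add, he g _ k, add_left_inj, ← h.fib.eqvp] at this,
    eul_congr e0.src (F' := fun y => F' y - r (p y)) fun y k => by simp [e y k]]

theorem Fib.ecup_pre (h : Fib a b ρ p F U) (hx : ECup a U₁ Z₁ U Z U Z₂) :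
    ECup b (p ⁻¹' U₁) (p ⁻¹' Z₁) (p ⁻¹' U) (p ⁻¹' Z) (p ⁻¹' U) (p ⁻¹' Z₂) :=
  ⟨hx.p1.preimage (φ := id) h.contp h.eqvp, h.prT hx.p2, h.prT hx.p3,
    fun _ k => hx.ok.left k, fun _ k => hx.ok.right k, fun _ k => hx.ok.supp k⟩

theorem Fib.ecup_pre_dsc (h : Fib a b ρ p F U) (hx : ECup a U₁ Z₁ U Z U Z₂) {R : X → ℝ}
    (hR : Rad a U R) :
    ECup b (p ⁻¹' U₁) (p ⁻¹' Z₁) (p ⁻¹' U) (dsc p F Z R) (p ⁻¹' U) (dsc p F Z₂ R) :=
  ⟨(h.ecup_pre hx).p1, h.pr_dsc hx.p2 hR, h.pr_dsc hx.p3 hR, fun _ k => Or.inr k,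
    fun _ k => (hx.ok.right k).imp_right fun m => ⟨k, fun d => m.2 d.1⟩, fun y k => by
      by_cases d : y ∈ dsc p F Z R
      · exact Or.inl ((hx.ok.supp ⟨k.1, fun z => k.2 ⟨z, d.2⟩⟩).resolve_right fun m => m.2 d.1)
      · exact Or.inr ⟨k.1, d⟩⟩

/-- projection formula -/
theorem intg_ecup (h : IAdm a b ρ p F U Z V W) (h' : IAdm a b ρ p F U Z₂ V W₂)
    (hx : ECup a U₁ Z₁ U Z U Z₂) (hy : ECup b (p ⁻¹' U₁) (p ⁻¹' Z₁) V W V W₂) (e : U₁ ⊆ U)
    (x : EH a U₁ Z₁) (c : EH b V W) :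
    intg a ρ p F U Z₂ (ecup V W₂ (gp b id p (p ⁻¹' U₁) (p ⁻¹' Z₁) x) c) =
      ecup U Z₂ x (intg a ρ p F U Z c) := by
  obtain ⟨R₀, hR₀, -, hs₀⟩ := h.rad (R := 0) continuousOn_const
  obtain ⟨R, hR, le, hs'⟩ := h'.rad hR₀.cont
  have hs : p ⁻¹' U ∩ W ⊆ dsc p F Z R := fun y k => dsc_mono le ⟨k.1, hs₀ k⟩
  have f := h.fib
  have k₁ := (f.monoT e).gadmT hx.p1
  have c₁ := f.ecup_pre hx
  have c₂ := f.ecup_pre_dsc hx hR
  refine h'.intg_eq hR hs' ?_
  rw [gp_id_ecup hy (h'.gadm_dsc hR hs'), ← ecup_gp_right c₂ (h.gadm_dsc hR hs), h.res_eq hR hs,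
    ← ecup_assoc c₁ (f.ecup_dsc h'.tgt hR) (f.ecup_dsc h.tgt hR) c₂,
    gp_ecup hx c₁ (f.gadmT h'.tgt) k₁ (f.gadmT h.tgt) (preimage_mono e) subset_rfl]

theorem intg_ecup' (h : IAdm a b ρ p F U Z V W) (h' : IAdm a b ρ p F U Z₂ V W₂)
    (hx : ECup a U Z U₁ Z₁ U Z₂) (hy : ECup b V W (p ⁻¹' U₁) (p ⁻¹' Z₁) V W₂) (e : U₁ ⊆ U)
    (x : EH a U₁ Z₁) (c : EH b V W) :
    intg a ρ p F U Z₂ (ecup V W₂ c (gp b id p (p ⁻¹' U₁) (p ⁻¹' Z₁) x)) =
      ecup U Z₂ (intg a ρ p F U Z c) x := by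
  obtain ⟨R₀, hR₀, -, hs₀⟩ := h.rad (R := 0) continuousOn_const
  obtain ⟨R, hR, le, hs'⟩ := h'.rad hR₀.cont
  have hs : p ⁻¹' U ∩ W ⊆ dsc p F Z R := fun y k => dsc_mono le ⟨k.1, hs₀ k⟩
  have f := h.fib
  have k₁ := (f.monoT e).gadmT hx.p2
  have c₁ := (f.ecup_pre hx.symm).symm
  have c₂ := (f.ecup_pre_dsc hx.symm hR).symm
  refine h'.intg_eq hR hs' ?_
  rw [gp_id_ecup hy (h'.gadm_dsc hR hs'), ← ecup_gp_left c₂ (h.gadm_dsc hR hs), h.res_eq hR hs,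
    ecup_comm (f.ecup_dsc h.tgt hR) _ ev_eul, ecup_comm (f.ecup_dsc h'.tgt hR) _ ev_eul,
    ecup_assoc (f.ecup_dsc h.tgt hR).symm c₂ c₁ (f.ecup_dsc h'.tgt hR).symm,
    gp_ecup hx c₁ (f.gadmT h'.tgt) (f.gadmT h.tgt) k₁ subset_rfl (preimage_mono e)]

theorem intg_sm (h : IAdm a b ρ p F U Z V W) (d : HPt G) (c : EH b V W) :
    intg a ρ p F U Z (sm d c) = sm d (intg a ρ p F U Z c) := by
  obtain ⟨R, hR, -, hs⟩ := h.rad (R := 0) continuousOn_const
  refine h.intg_eq hR hs ?_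
  rw [gp_sm (h.gadm_dsc hR hs), gp_sm (h.fib.gadmT h.tgt), h.res_eq hR hs,
    ecup_sm_left (h.fib.ecup_dsc h.tgt hR)]

theorem IsDeg.intg (h : IAdm a b ρ p F U Z V W) {m : ℤ} {c : EH b V W}
    (hc : IsDeg (m + 2 * Fintype.card J) c) : IsDeg m (intg a ρ p F U Z c) := by
  obtain ⟨R, hR, -, hs⟩ := h.rad (R := 0) continuousOn_const
  exact isDeg_of_map (h.fib.thm_bij h.tgt hR).1 (fun _ _ k => (k.gp _ _).ecup isDeg_eul)
    (h.res_eq hR hs c ▸ hc.gp id id)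

section

variable {Y₂ : Type} [TopologicalSpace Y₂] [T3Space Y₂] [SecondCountableTopology Y₂]
  {b₂ : Act G Y₂} [b₂.Ok] {V₂ W₃ : Set Y₂}

/-- Fubini -/
theorem intg_intg {e : J₁ ⊕ J₂ ≃ J} (he : IsSum ρ ρ₁ ρ₂ e) {F₁ : Y → J₁ → ℂ} {q : Y₂ → Y}
    {F₂ : Y₂ → J₂ → ℂ} {F : Y₂ → J → ℂ} (h₁ : IAdm a b ρ₁ p F₁ U Z V W)
    (h₂ : IAdm b b₂ ρ₂ q F₂ V W V₂ W₃) (h : IAdm a b₂ ρ (p ∘ q) F U Z V₂ W₃)
    (e₁ : ∀ y, p (q y) ∈ U → F y ∘ e ∘ Sum.inl = F₁ (q y))
    (e₂ : ∀ y, p (q y) ∈ U → F y ∘ e ∘ Sum.inr = F₂ y) (c : EH b₂ V₂ W₃) :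
    intg a ρ₁ p F₁ U Z (intg b ρ₂ q F₂ V W c) = intg a ρ (p ∘ q) F U Z c := by
  obtain ⟨R₀, hR₀, -, hs₀⟩ := h₁.rad (R := 0) continuousOn_const
  obtain ⟨R, hR, le, hs⟩ := h.rad hR₀.cont
  have hs₁ : p ⁻¹' U ∩ W ⊆ dsc p F₁ Z R := fun y k => dsc_mono le ⟨k.1, hs₀ k⟩
  have f₁ := h₁.fib
  have f₂ := h₂.fib.monoT h₁.sub
  have E := h₁.src.mono (f₁.prT h₁.tgt) h₁.sub
  have r₂ := hR.comp (f₁.gadmT h₁.tgt)
  have sp : ∀ y, p (q y) ∈ U → nsq (F y) = nsq (F₁ (q y)) + nsq (F₂ y) := fun y k => by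
    rw [nsq_splitT e, e₁ y k, e₂ y k]
  have hs₂ : q ⁻¹' (p ⁻¹' U) ∩ W₃ ⊆ dsc q F₂ W fun y => R (p y) := fun y k =>
    ⟨h₂.supp y k.2 (h₁.sub k.1), le_trans ((le_add_of_nonneg_left (nsqT_nonneg _)).trans
      (sp y k.1).ge) (hs k).2⟩
  have i₂ : IAdm b b₂ ρ₂ q F₂ (p ⁻¹' U) W V₂ W₃ := ⟨f₂, E, h.src, h.sub,
    fun y k m => (hs₂ ⟨m, k⟩).1, _, r₂.cont, r₂.inv, fun y k m => (hs₂ ⟨m, k⟩).2⟩
  have kE := gadm_id h₁.src E h₁.sub inter_subset_right
  have g := gp_intg h₂ i₂ kE (gadm_id h.src h.src subset_rfl inter_subset_right) (fun _ _ => rfl)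
    (fun _ _ => rfl) (fun _ _ => rfl) c
  rw [gp_id h.src] at g
  have rr := hR.add hR
  have D₁ := f₁.pr_dsc h₁.tgt hR
  have D : b₂.Pr (q ⁻¹' (p ⁻¹' U)) _ := h.fib.pr_dsc h.tgt rr
  have D₂ := f₂.pr_dsc E r₂
  have z₁ := (f₁.eadmT h₁.tgt).src
  have z₂ := (f₂.eadmT E).src
  have Z' := f₁.prT h₁.tgt
  have s : q ⁻¹' (p ⁻¹' U) ∩ dsc q F₂ W (fun y => R (p y)) ⊆ dsc (p ∘ q) F Z fun x => R x + R x :=
    fun y k => ⟨(hs₁ ⟨k.1, k.2.1⟩).1, by
      rw [mem_ofPred_eq, sp y k.1]; exact add_le_add (hs₁ ⟨k.1, k.2.1⟩).2 k.2.2⟩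
  have c₁ := ecup_of (f₂.prT D₁) z₂ D fun y k => ⟨k.1.2.1, by
    rw [mem_ofPred_eq, sp y k.1.1, show F₂ y = 0 from k.2, nsqT_zero]
    exact add_le_add k.1.2.2 (hR.nn _ k.1.1)⟩
  have c₂ := ecup_of (f₂.prT Z') (f₂.prT z₁) (f₂.prT D₁) fun y k => ⟨k.1.2, by
    rw [mem_ofPred_eq, show F₁ (q y) = 0 from k.2, nsqT_zero]; exact hR.nn _ k.1.1⟩
  have z := fun y (k : y ∈ q ⁻¹' (p ⁻¹' U) ∩ q ⁻¹' (F₁ ⁻¹' {0}) ∩ F₂ ⁻¹' {0}) =>
    sum_extT e (w := 0) ((e₁ y k.1.1).trans k.1.2) ((e₂ y k.1.1).trans k.2)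
  have e0 : EAdm b₂ ρ F (q ⁻¹' (p ⁻¹' U)) _ := h.fib.eadmT h.tgt
  refine (h.intg_eq rr (fun y k => s ⟨k.1, hs₂ k⟩) ?_).symm
  have k₁ := gadm_id (f₂.prT E) (f₂.prT D₁) subset_rfl fun _ k => hs₁ k
  refine ((res_res h.src D₂ D h.sub hs₂ subset_rfl s c).symm.trans ?_)
  change _ = ecup (q ⁻¹' (p ⁻¹' U)) _ (gp b₂ id _ (q ⁻¹' (p ⁻¹' U)) (q ⁻¹' (p ⁻¹' Z)) _)
    (eul b₂ ρ F (q ⁻¹' (p ⁻¹' U)) _)
  rw [i₂.res_eq r₂ hs₂, gp_id_ecup (f₂.ecup_dsc E r₂) (gadm_id D₂ D subset_rfl s), ← g,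
    ← ecup_gp_left c₁ k₁, gp_comp (f₂.gadmT E) k₁ (χ := id) (fun _ => rfl) (k := q) fun _ _ => rfl,
    gp_comp kE (ψ := id) (f' := q) ((f₂.gadmT E).comp k₁) (χ := id) (fun _ => rfl) (k := q) fun _ _ => rfl,
    ← gp_comp (h₁.gadm_dsc hR hs₁) (f₂.gadmT D₁) (χ := id) (fun _ => rfl) (k := q) fun _ _ => rfl,
    h₁.res_eq hR hs₁, gp_ecup (f₁.ecup_dsc h₁.tgt hR) c₂ (f₂.gadmT D₁) (f₂.gadmT Z') (f₂.gadmT z₁)
      subset_rfl subset_rfl, ecup_assoc c₂ c₁ (ecup_of (f₂.prT z₁) z₂ e0.src z)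
      (h.fib.ecup_dsc h.tgt rr),
    gp_comp (f₁.gadmT h₁.tgt) (f₂.gadmT Z') (χ := id) (fun _ => rfl) (k := p ∘ q) fun _ _ => rfl,
    gp_eul (f₁.eadmT h₁.tgt) (f₂.gadmT z₁) (fun _ _ => rfl) e₁, ← eul_congr z₂ e₂]
  exact congrArg _ (eul_sum he ⟨f₂.prT z₁, Act.Rep.pr _,
    (cont_comp_right _).comp_continuousOn e0.cont, fun g y k => by rw [e0.eqv g y k, (he _ _).1],
    e0.maps, fun y k m => (e₁ y k).symm.trans m⟩ ⟨z₂, Act.Rep.pr _,
    (cont_comp_right _).comp_continuousOn e0.cont, fun g y k => by rw [e0.eqv g y k, (he _ _).2],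
    e0.maps, fun y k m => (e₂ y k).symm.trans m⟩ e0.src z).symm

/-- restriction to a subrepresentation multiplies the integral by the Euler class of the
complement -/
theorem intg_restrict {e : J₁ ⊕ J₂ ≃ J} (he : IsSum ρ ρ₁ ρ₂ e) (h : IAdm a b ρ p F U Z V W)
    {q : Y₂ → X} {F₁ : Y₂ → J₁ → ℂ} (h₁ : IAdm a b₂ ρ₁ q F₁ U Z V₂ W₃) {j : Y₂ → Y}
    (k : GAdm b₂ b id j V₂ W₃ V W) (e₀ : ∀ y, q y ∈ U → p (j y) = q y)
    (e₁ : ∀ y, q y ∈ U → F (j y) ∘ e ∘ Sum.inl = F₁ y)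
    (e₂ : ∀ y, q y ∈ U → F (j y) ∘ e ∘ Sum.inr = 0) (c : EH b V W) :
    intg a ρ₁ q F₁ U Z (gp b₂ id j V₂ W₃ c) = sm (euc ρ₂) (intg a ρ p F U Z c) := by
  obtain ⟨R₀, hR₀, -, hs₀⟩ := h.rad (R := 0) continuousOn_const
  obtain ⟨R, hR, le, hs₁⟩ := h₁.rad hR₀.cont
  have hs : p ⁻¹' U ∩ W ⊆ dsc p F Z R := fun y k => dsc_mono le ⟨k.1, hs₀ k⟩
  have mk : ∀ {D : Set Y} {D' : Set Y₂}, b.Pr (p ⁻¹' U) D → b₂.Pr (q ⁻¹' U) D' →
      (∀ y, q y ∈ U → j y ∈ D → y ∈ D') → GAdm b₂ b id j (q ⁻¹' U) D' (p ⁻¹' U) D :=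
    fun d d' z => ⟨d', d, k.cont.mono h₁.sub, fun g y m => k.eqv g y (h₁.sub m), fun y m => by
      rwa [mem_preimage, e₀ y m], z⟩
  have z : ∀ y, q y ∈ U → j y ∈ p ⁻¹' Z → y ∈ q ⁻¹' Z := fun y m z => by
    rwa [mem_preimage, ← e₀ y m]
  have a₁ := h₁.fib.eadmT h.tgt
  have k₀ := mk (h.fib.pr_dsc h.tgt hR) (h₁.fib.pr_dsc h.tgt hR) fun y m d => ⟨z y m d.1, by
    rw [mem_ofPred_eq, ← e₁ y m, ← e₀ y m]
    exact le_trans (by rw [nsq_splitT e (F _)]; exact le_add_of_nonneg_right (nsqT_nonneg _)) d.2⟩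
  have k₁ := mk (h.fib.prT h.tgt) (h₁.fib.prT h.tgt) z
  have k₂ := mk (h.fib.eadmT h.tgt).src a₁.src fun y m z =>
    (e₁ y m).symm.trans (by rw [show F (j y) = 0 from z]; rfl)
  have c₁ := h₁.fib.ecup_dsc h.tgt hR
  refine h₁.intg_eq hR hs₁ ?_
  rw [gp_comp k (h₁.gadm_dsc hR hs₁) (χ := id) (fun _ => rfl) (k := j) fun _ _ => rfl,
    ← gp_comp (h.gadm_dsc hR hs) k₀ (χ := id) (fun _ => rfl) (k := j) fun _ _ => rfl,
    h.res_eq hR hs, gp_ecup (h.fib.ecup_dsc h.tgt hR) c₁ k₀ k₁ k₂ subset_rfl subset_rfl,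
    gp_eul (h.fib.eadmT h.tgt) k₂ (fun _ _ => rfl) fun _ _ => rfl,
    gp_comp (h.fib.gadmT h.tgt) k₁ (χ := id) (fun _ => rfl) (k := q) fun y m => (e₀ y m).symm,
    eul_sum_zero he ⟨a₁.src, a₁.tgt, a₁.cont.congr e₁, fun g y m => by
      rw [e₁ y m, e₁ _ (a₁.src.inv g y m), a₁.eqv g y m], mapsTo_univ _ _,
      fun y m z => (e₁ y m).symm.trans z⟩ e₂, eul_congr a₁.src e₁, ecup_sm_right c₁ ev_eucT,
    gp_sm (h₁.fib.gadmT h.tgt), gpt_id, ecup_sm_left c₁]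

end

end Pool.Agent.Work.MP_849ab0_ag.G
end
end

-- merged part: Pool.Agent.Work.MP_849ab0_ag.G.GrpAlg
section
/-! Linear algebra for free modules on monomials. -/

noncomputable section

namespace Pool.Agent.Work.MP_849ab0_ag.G

open Finsupp

variable {A B B' ι P : Type} [AddCommGroup A] [Module ℂ A] [AddCommGroup B] [Module ℂ B]
  [AddCommGroup B'] [Module ℂ B']

/-- the span of the images of the maps `L i`, `i ∈ I` -/
def spn (I : Set ι) (L : ι → A →ₗ[ℂ] B) : Submodule ℂ B := ⨆ i ∈ I, LinearMap.range (L i)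

/-- the images of the maps `L i`, `i ∈ I` are independent copies of `A` -/
def Indep (I : Set ι) (L : ι → A →ₗ[ℂ] B) : Prop :=
  ∀ z : ι →₀ A, (∀ i, i ∉ I → z i = 0) → lsum ℂ L z = 0 → z = 0

theorem mem_spn {I : Set ι} {L : ι → A →ₗ[ℂ] B} {i : ι} (h : i ∈ I) (a : A) : L i a ∈ spn I L :=
  Submodule.mem_iSup_of_mem i (Submodule.mem_iSup_of_mem h ⟨a, rfl⟩)

theorem spn_le {I : Set ι} {L : ι → A →ₗ[ℂ] B} {M : Submodule ℂ B} (h : ∀ i ∈ I, ∀ a, L i a ∈ M) :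
    spn I L ≤ M := iSup₂_le fun i hi => by rintro _ ⟨a, rfl⟩; exact h i hi a

theorem mem_spn_iff {I : Set ι} {L : ι → A →ₗ[ℂ] B} {y : B} :
    y ∈ spn I L ↔ ∃ z : ι →₀ A, (∀ i, i ∉ I → z i = 0) ∧ lsum ℂ L z = y := by
  classical
  constructor
  · intro h
    have : spn I L ≤ (Finsupp.supported A ℂ I).map (lsum ℂ L) := spn_le fun i hi a =>
      ⟨single i a, single_mem_supported ℂ a hi, by simp⟩
    obtain ⟨z, h1, h2⟩ := this h
    exact ⟨z, (mem_supported' ℂ z).1 h1, h2⟩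
  · rintro ⟨z, h, rfl⟩
    rw [lsum_apply, Finsupp.sum]
    exact Submodule.sum_mem _ fun i hi => mem_spn (by_contra fun k => mem_support_iff.1 hi (h i k)) _

theorem lsum_comp (r : B →ₗ[ℂ] B') (L : ι → A →ₗ[ℂ] B) (z : ι →₀ A) :
    lsum ℂ (fun i => r ∘ₗ L i) z = r (lsum ℂ L z) := by
  simp [lsum_apply, Finsupp.sum]

theorem lsum_congr {I : Set ι} {L L' : ι → A →ₗ[ℂ] B} (h : ∀ i ∈ I, L i = L' i) {z : ι →₀ A}
    (hz : ∀ i, i ∉ I → z i = 0) : lsum ℂ L z = lsum ℂ L' z := by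
  rw [lsum_apply, lsum_apply]
  exact Finsupp.sum_congr fun i hi => by
    rw [h i (by_contra fun k => mem_support_iff.1 hi (hz i k))]

theorem spn_congr {I : Set ι} {L L' : ι → A →ₗ[ℂ] B} (h : ∀ i ∈ I, L i = L' i) :
    spn I L = spn I L' := iSup_congr fun i => iSup_congr fun hi => by rw [h i hi]

theorem Indep.congr {I : Set ι} {L L' : ι → A →ₗ[ℂ] B} (h : ∀ i ∈ I, L i = L' i) (k : Indep I L) :
    Indep I L' := fun z hz e => k z hz (by rw [lsum_congr h hz, e])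

theorem spn_comp {I : Set ι} {L : ι → A →ₗ[ℂ] B} (r : B →ₗ[ℂ] B') :
    spn I (fun i => r ∘ₗ L i) = (spn I L).map r := by
  simp only [spn, Submodule.map_iSup, LinearMap.range_comp]

theorem spn_comp_top {I : Set ι} {L : ι → A →ₗ[ℂ] B} {r : B →ₗ[ℂ] B'} (hr : Function.Surjective r)
    (h : spn I L = ⊤) : spn I (fun i => r ∘ₗ L i) = ⊤ := by
  rw [spn_comp, h, Submodule.map_top, LinearMap.range_eq_top.2 hr]

theorem spn_top_of_comp {I : Set ι} {L : ι → A →ₗ[ℂ] B} {r : B →ₗ[ℂ] B'}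
    (hr : Function.Injective r) (h : spn I (fun i => r ∘ₗ L i) = ⊤) : spn I L = ⊤ := by
  refine eq_top_iff.2 fun y _ => ?_
  rw [spn_comp] at h
  obtain ⟨y', h1, h2⟩ : r y ∈ (spn I L).map r := h ▸ Submodule.mem_top
  exact hr h2 ▸ h1

theorem Indep.comp {I : Set ι} {L : ι → A →ₗ[ℂ] B} {r : B →ₗ[ℂ] B'} (hr : Function.Injective r)
    (h : Indep I L) : Indep I fun i => r ∘ₗ L i := fun z hz e =>
  h z hz (hr (by rw [← lsum_comp, e, map_zero]))

theorem Indep.of_comp {I : Set ι} {L : ι → A →ₗ[ℂ] B} {r : B →ₗ[ℂ] B'}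
    (h : Indep I fun i => r ∘ₗ L i) : Indep I L := fun z hz e =>
  h z hz (by rw [lsum_comp, e, map_zero])

theorem Indep.inj {I : Set ι} {L : ι → A →ₗ[ℂ] B} (h : Indep I L) {i : ι} (hi : i ∈ I) :
    Function.Injective (L i) := (injective_iff_map_eq_zero _).2 fun a e => by
  classical
  have := h (single i a) (fun j hj => single_eq_of_ne fun k => hj (k ▸ hi)) (by simpa using e)
  simpa using this

theorem indep_single {L : ι → A →ₗ[ℂ] B} {i : ι} (h : Function.Injective (L i)) :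
    Indep {i} L := fun z hz e => by
  have : z = single i (z i) := by
    ext j
    by_cases k : j = i
    · rw [k, single_eq_same]
    · rw [hz j k, single_eq_of_ne k]
  rw [this, lsum_single] at e
  rw [this, h (e.trans (map_zero _).symm), single_zero]

theorem spn_single {L : ι → A →ₗ[ℂ] B} {i : ι} (h : Function.Surjective (L i)) :
    spn {i} L = ⊤ := eq_top_iff.2 fun y _ => by
  obtain ⟨a, rfl⟩ := h y
  exact mem_spn (Set.mem_singleton i) a

section Mono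

variable {j : P} {I : Set (P →₀ ℕ)} (hI : ∀ m k, m + single j k ∈ I ↔ m ∈ I)
  {L : (P →₀ ℕ) → A →ₗ[ℂ] B} {r : B →ₗ[ℂ] B'}
include hI

/-- adjoining a variable -/
theorem indep_adjoin {x : B →ₗ[ℂ] B} (hx : Function.Injective x) (hr : ∀ b, r (x b) = 0)
    (hL : ∀ m, x ∘ₗ L m = L (m + single j 1)) (h : Indep {m ∈ I | m j = 0} fun m => r ∘ₗ L m) :
    Indep I L := by
  classical
  have key : ∀ z : (P →₀ ℕ) →₀ A, (∀ i, i ∉ I → z i = 0) → lsum ℂ L z = 0 → (∀ m, m j = 0 → z m = 0)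
      ∧ lsum ℂ L (z.comapDomain (· + single j 1) (add_left_injective _).injOn) = 0 := by
    intro z hz e
    set z1 := z.comapDomain (· + single j 1) (add_left_injective _).injOn
    have e1 : z = z.filter (fun m => m j = 0) + z1.mapDomain (· + single j 1) := by
      ext m
      by_cases k : m j = 0
      · rw [Finsupp.add_apply, filter_apply, if_pos k, mapDomain_of_notMem_range, add_zero]
        rintro ⟨m', rfl⟩
        simp at k
      · obtain ⟨m', rfl⟩ : ∃ m', m = m' + single j 1 := ⟨m - single j 1, (tsub_add_cancel_of_le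
          (single_le_iff.2 (Nat.pos_of_ne_zero k))).symm⟩
        rw [Finsupp.add_apply, filter_apply, if_neg k, mapDomain_apply (add_left_injective _), zero_add,
          comapDomain_apply]
    have e2 : lsum ℂ L (z1.mapDomain (· + single j 1)) = x (lsum ℂ L z1) := by
      rw [← lsum_comp, lsum_apply, lsum_apply,
        sum_mapDomain_index (fun _ => map_zero _) fun _ _ _ => map_add _ _ _]
      simp only [hL]
    rw [e1, map_add, e2] at e
    have e3 : z.filter (fun m => m j = 0) = 0 := h _ (fun m k => by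
      rw [filter_apply]
      split_ifs with k'
      · exact hz m fun k'' => k ⟨k'', k'⟩
      · rfl) (by rw [lsum_comp, eq_neg_of_add_eq_zero_left e, map_neg, hr, neg_zero])
    rw [e3, map_zero, zero_add] at e
    exact ⟨fun m k => by rw [← filter_apply_pos (fun m => m j = 0) z k, e3]; rfl,
      hx (e.trans (map_zero _).symm)⟩
  have : ∀ n, ∀ z : (P →₀ ℕ) →₀ A, (∀ i, i ∉ I → z i = 0) → lsum ℂ L z = 0 →
      ∀ m, m j = n → z m = 0 := by
    intro n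
    induction n with
    | zero => exact fun z hz e => (key z hz e).1
    | succ n ih =>
      intro z hz e m k
      obtain ⟨m', rfl⟩ : ∃ m', m = m' + single j 1 := ⟨m - single j 1, (tsub_add_cancel_of_le
        (single_le_iff.2 (by omega))).symm⟩
      exact ih _ (fun i hi => hz (i + single j 1) ((hI i 1).not.2 hi)) (key z hz e).2 m'
        (by simpa using k)
  exact fun z hz e => Finsupp.ext fun m => this _ z hz e m rfl

variable {n : ℕ} {e : B →ₗ[ℂ] B} {T : ℕ → A →ₗ[ℂ] A}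
  (he : ∀ m a, e (L m a) =
    L (m + single j n) a + ∑ k ∈ Finset.range n, L (m + single j k) (T k a))
include he

theorem monic_aux {z : (P →₀ ℕ) →₀ A} (hz : ∀ i, i ∉ I → z i = 0) :
    ∃ w : (P →₀ ℕ) →₀ A, (∀ i, i ∉ I → w i = 0) ∧ lsum ℂ L w = e (lsum ℂ L z) ∧
      ((∀ m, n ≤ m j → w m = 0) → z = 0) := by
  classical
  have sh : ∀ (k : ℕ) (u : (P →₀ ℕ) →₀ A), (∀ i, i ∉ I → u i = 0) → ∀ i, i ∉ I →
      u.mapDomain (· + single j k) i = 0 := fun k u hu i hi => by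
    by_cases c : i ∈ Set.range (· + single j k)
    · obtain ⟨m, rfl⟩ := c
      rw [mapDomain_apply (add_left_injective _), hu m ((hI m k).not.1 hi)]
    · exact mapDomain_of_notMem_range _ _ c
  refine ⟨z.mapDomain (· + single j n) + ∑ k ∈ Finset.range n,
    (z.mapRange (T k) (map_zero _)).mapDomain (· + single j k), fun i hi => ?_, ?_, fun h => ?_⟩
  · rw [Finsupp.add_apply, sh n z hz i hi, finsetSum_apply, zero_add]
    exact Finset.sum_eq_zero fun k _ => sh k _ (fun i hi => by simp [hz i hi]) i hi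
  · rw [← lsum_comp, map_add, map_sum]
    simp only [lsum_apply, sum_mapDomain_index (fun _ => map_zero _) fun _ _ _ => map_add _ _ _,
      sum_mapRange_index fun _ => map_zero _]
    simp only [Finsupp.sum, LinearMap.comp_apply, he, Finset.sum_add_distrib]
    congr 1
    exact Finset.sum_comm
  · by_contra k
    obtain ⟨m, h1, h2⟩ := Finset.exists_max_image z.support (fun m => m j)
      (support_nonempty_iff.2 k)
    have := h (m + single j n) (by simp)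
    rw [Finsupp.add_apply, mapDomain_apply (add_left_injective _), finsetSum_apply,
      Finset.sum_eq_zero, add_zero] at this
    · exact mem_support_iff.1 h1 this
    intro i hi
    by_cases c : m + single j n ∈ Set.range (· + single j i)
    · obtain ⟨m', c⟩ := c
      have c' := congrArg (· j) c
      have := Finset.mem_range.1 hi
      simp only [Finsupp.add_apply, single_eq_same] at c'
      rw [← c, mapDomain_apply (add_left_injective _), mapRange_apply,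
        notMem_support_iff.1 fun k => by have := h2 m' k; omega, map_zero]
    · exact mapDomain_of_notMem_range _ _ c

theorem monic_inj (hs : spn I L = ⊤) (hi : Indep I L) : Function.Injective e :=
  (injective_iff_map_eq_zero _).2 fun y hy => by
    obtain ⟨z, hz, rfl⟩ := mem_spn_iff.1 (hs ▸ Submodule.mem_top : y ∈ spn I L)
    obtain ⟨w, h1, h2, h3⟩ := monic_aux hI he hz
    rw [h3 fun m _ => by rw [hi w h1 (h2.trans hy)]; rfl, map_zero]

theorem monic_indep (hs : spn I L = ⊤) (hi : Indep I L) (hr : ∀ b, r b = 0 → ∃ y, e y = b) :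
    Indep {m ∈ I | m j < n} fun m => r ∘ₗ L m := fun u hu h => by
  rw [lsum_comp] at h
  obtain ⟨y, hy⟩ := hr _ h
  obtain ⟨z, hz, rfl⟩ := mem_spn_iff.1 (hs ▸ Submodule.mem_top : y ∈ spn I L)
  obtain ⟨w, h1, h2, h3⟩ := monic_aux hI he hz
  have hu' : ∀ i, i ∉ I → u i = 0 := fun i k => hu i fun c => k c.1
  have e1 : w = u := sub_eq_zero.1 (hi _ (fun i k => by simp [h1 i k, hu' i k])
    (by rw [map_sub, h2, hy, sub_self]))
  rw [h3 fun m k => by rw [e1]; exact hu m fun c => c.2.not_ge k, map_zero, map_zero] at hy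
  exact hi u hu' hy.symm

theorem monic_spn (hs : spn I L = ⊤) (hr : ∀ b, r (e b) = 0) (hr' : Function.Surjective r) :
    spn {m ∈ I | m j < n} (fun m => r ∘ₗ L m) = ⊤ := by
  rw [eq_top_iff, ← spn_comp_top hr' hs]
  have : ∀ N, ∀ m ∈ I, m j = N → ∀ a, r (L m a) ∈ spn {m ∈ I | m j < n} fun m => r ∘ₗ L m := by
    intro N
    induction N using Nat.strong_induction_on with
    | _ N ih =>
    intro m hm k a
    by_cases c : m j < n
    · exact mem_spn (I := {m ∈ I | m j < n}) (L := fun m => r ∘ₗ L m) (i := m) ⟨hm, c⟩ a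
    obtain ⟨m', rfl⟩ : ∃ m', m = m' + single j n := ⟨m - single j n, (tsub_add_cancel_of_le
      (single_le_iff.2 (by omega))).symm⟩
    have := hr (L m' a)
    rw [he, map_add, map_sum] at this
    rw [eq_neg_of_add_eq_zero_left this]
    refine neg_mem (Submodule.sum_mem _ fun i hi => ih _ ?_ _ ((hI _ _).2 ((hI _ _).1 hm)) rfl _)
    have := Finset.mem_range.1 hi
    simp only [Finsupp.add_apply, single_eq_same] at k ⊢
    omega
  exact spn_le fun m hm a => this _ m hm rfl a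

end Mono

end Pool.Agent.Work.MP_849ab0_ag.G
end
end
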