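import Pool.Agent.Work.MP_849ab0_ag.G.Bor

/-!
Projections, block matrices and truncated lattices.
-/

noncomputable section

set_option linter.unusedSectionVars false

namespace Pool.Agent.Work.MP_849ab0_ag.G

open Set Matrix

/-- `Q` is the orthogonal projection on a subspace graded by the colouring `c`. -/
def IsPr {J C : Type} [Fintype J] (c : J → C) (Q : Matrix J J ℂ) : Prop :=
  Qᴴ = Q ∧ Q * Q = Q ∧ ∀ a b, c a ≠ c b → Q a b = 0

/-- `y` preserves the image of the projection `Q`. -/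
def Pres {J : Type} [Fintype J] [DecidableEq J] (Q y : Matrix J J ℂ) : Prop := (1 - Q) * y * Q = 0

/-- The block matrix `g ⊕ c` on `V ⊕ ℂ`. -/
def hat {J : Type} (c : ℂ) (g : Matrix J J ℂ) : Matrix (Option J) (Option J) ℂ :=
  Matrix.of fun o o' =>
    match o, o' with
    | some a, some b => g a b
    | none, none => c
    | _, _ => 0

/-- The group `K × T`, `K = ∏ U (V i)`. -/
abbrev KT {I P : Type} [Fintype P] [DecidableEq P] (col : P → I) (κ : Type) [Fintype κ]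
    [DecidableEq κ] : Gp := (Gp.blk col).prod (Gp.tor κ)

/-- The exponents `-k ≤ i < k`. -/
abbrev Pos (k : ℕ) : Type := Finset.Ico (-(k : ℤ)) k

/-- Endomorphisms of `t^{-k} V[[t]] / t^k V[[t]]`. -/
abbrev En (P : Type) (k : ℕ) : Type := (P × Pos k) × (P × Pos k) → ℂ

variable {P : Type} [Fintype P] [DecidableEq P]

/-- The block `t^i V → t^j V` of the extension of `Q` by `1` on `t^k V[[t]]` and by `0` on the
powers below `t^{-k}`. -/
def blkAt {k : ℕ} (Q : En P k) (j i : ℤ) : Matrix P P ℂ :=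
  if h : j ∈ Finset.Ico (-(k : ℤ)) k ∧ i ∈ Finset.Ico (-(k : ℤ)) k then
    Matrix.of fun b a => Q ((b, ⟨j, h.1⟩), (a, ⟨i, h.2⟩))
  else if j = i ∧ (k : ℤ) ≤ i then 1 else 0

/-- The extension of `Q` to `V ⊕ ℂ` by the projection on `ℂ[[t]]`. -/
def ext {k : ℕ} (Q : En P k) : Matrix (Option P × Pos k) (Option P × Pos k) ℂ :=
  Matrix.of fun y x => hat (if y.2 = x.2 ∧ 0 ≤ x.2.1 then 1 else 0) (blkAt Q y.2 x.2) y.1 x.1

/-- A power series of matrices acting on `t^{-k} (V ⊕ ℂ)[[t]] / t^k (V ⊕ ℂ)[[t]]`. -/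
def ser (k : ℕ) (s : ℕ → Matrix (Option P) (Option P) ℂ) :
    Matrix (Option P × Pos k) (Option P × Pos k) ℂ :=
  Matrix.of fun y x => if x.2.1 ≤ y.2.1 then s (y.2.1 - x.2.1).toNat y.1 x.1 else 0

/-- `γ Q γ^*` for a Laurent polynomial `γ = ∑_{|x| ≤ k} γ x * t ^ x`. -/
def tw (k : ℕ) (γ : ℤ → Matrix P P ℂ) {l : ℕ} (Q : En P l) (m : ℕ) : En P m := fun z =>
  (∑ x ∈ Finset.Icc (-(k : ℤ)) k, ∑ y ∈ Finset.Icc (-(k : ℤ)) k,
    γ x * blkAt Q (z.1.2 - x) (z.2.2 - y) * (γ y)ᴴ) z.1.1 z.2.1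

/-- The index: `μ a` for the lattice spanned by the `t ^ (μ a) e_a`; its sum over a colour is
the component of the lattice. -/
def Qv.ind {k : ℕ} (Q : En P k) : Option P → ℂ
  | none => 0
  | some a => k - ∑ i, Q ((a, i), (a, i))

end Pool.Agent.Work.MP_849ab0_ag.G
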