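import Pool.Agent.Work.MP_849ab0_ag.G.ApiT

/-! Additivity of the Euler class of characters. -/

noncomputable section

set_option linter.unusedSectionVars false
set_option linter.unusedVariables false

namespace Pool.Agent.Work.MP_849ab0_ag.G

open Set Topology

variable {G : Gp} [G.Nice]

theorem res_eulT {J Y : Type} [Fintype J] {ρ : Act G (J → ℂ)} [ρ.Rep] [TopologicalSpace Y]
    [T3Space Y] [SecondCountableTopology Y] {b : Act G Y} [b.Ok] {F : Y → J → ℂ} {V W V' W' : Set Y}
    (h : EAdm b ρ F V W) (k : GAdm b b id id V' W' V W) :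
    gp b id id V' W' (eul b ρ F V W) = eul b ρ F V' W' := gp_eul h k (fun _ _ => rfl) fun _ _ => rfl

theorem eq_zero_of_res_ne {J : Type} [Fintype J] {ρ : Act G (J → ℂ)} [ρ.Rep] {Z : Set (J → ℂ)}
    (h : ρ.Pr univ Z) (h0 : 0 ∈ Z) {p : ℤ} (hp : p < 2 * Fintype.card J) {d : EH ρ univ Z}
    (hd : IsDeg p d) (e : gp ρ id id (univ \ {0}) Z d = 0) : d = 0 := by
  obtain ⟨y, rfl⟩ := (les_mid h (Act.Rep.pr ρ) (fun v k => by rwa [show v = 0 from k.2]) d).1 e
  obtain ⟨y', h1, h2⟩ := exists_isDeg_of_map (d := 0) (L := gp ρ id id univ Z)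
    (fun p x k => (add_zero p).symm ▸ k.gp id id) (p := p) (x := y) (by simpa using hd)
  have b := ((fib_unit ρ).isTh (Act.pr_pt G)).bij (fib_unit ρ) (Act.pr_pt G) (W := {0})
    (Act.Rep.pr ρ) (by simp)
  obtain ⟨x, rfl⟩ := b.2 y'
  have : x = 0 := (isDeg_of_map (L := (ecup _ _).flip _ ∘ₗ gp _ _ _ _ _) b.1
    (fun _ _ k => (k.gp _ _).ecup isDeg_eul) (p := p - 2 * Fintype.card J)
    ((sub_add_cancel p _).symm ▸ h1)).eq_zero (by omega)
  rw [← h2, this]
  beta_reduce
  rw [map_zero, map_zero, LinearMap.zero_apply]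
  exact map_zero (gp ρ id id univ Z)

theorem eu_mul0 {χ χ' : G.H → ℂ} (h : IsChar χ) (h' : IsChar χ') :
    eu (fun g => χ g * χ' g) = eu χ + eu χ' := by
  have := Act.rep_dg fun _ : Unit => h
  have := Act.rep_dg fun _ : Unit => h'
  have := Act.rep_dg fun _ : Unit => h.mul' h'
  let c : Bool → G.H → ℂ := fun i => Bool.rec χ' χ i
  have := Act.rep_dg (χ := c) fun i => Bool.rec h' h i
  have hc : ∀ i g, c i g ≠ 0 := fun i g => Bool.rec (h'.ne_zero g) (h.ne_zero g) i
  let Z : Set (Bool → ℂ) := {v | v true * v false = 0}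
  have pZ : (Act.dg c).Pr univ Z := Act.pr_univ _ (isClosed_eq (by fun_prop) continuous_const)
    fun g v k => (mul_mul_mul_comm _ _ _ _).trans (mul_eq_zero_of_right _ k)
  have pO : ∀ i, (Act.dg c).Pr univ {v | v i = 0} := fun i => Act.pr_univ _
    (isClosed_eq (by fun_prop) continuous_const) fun g v k => mul_eq_zero_of_right _ k
  have a : EAdm (Act.dg c) (Act.dg fun (_ : Unit) g => χ g * χ' g) (fun v _ => v true * v false)
      univ Z := ⟨pZ, Act.Rep.pr _, by fun_prop, fun g v _ => funext fun _ =>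
    mul_mul_mul_comm _ _ _ _, mapsTo_univ _ _, fun v _ k => congrFun k ()⟩
  have a₁ : EAdm (Act.dg c) (Act.dg fun _ : Unit => χ) (fun v _ => v true) univ Z :=
    ⟨pZ, Act.Rep.pr _, by fun_prop, fun g v _ => rfl, mapsTo_univ _ _,
      fun v _ k => mul_eq_zero_of_left (congrFun k ()) _⟩
  have a₂ : EAdm (Act.dg c) (Act.dg fun _ : Unit => χ') (fun v _ => v false) univ Z :=
    ⟨pZ, Act.Rep.pr _, by fun_prop, fun g v _ => rfl, mapsTo_univ _ _,
      fun v _ k => mul_eq_zero_of_right _ (congrFun k ())⟩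
  have u : univ \ {0} = (univ \ {v : Bool → ℂ | v false = 0}) ∪ univ \ {v | v true = 0} := by
    ext v; simp [funext_iff, -not_and, not_and_or]
  have p0 := pZ.diff (Act.Rep.pr _)
  rw [u] at p0
  have mv : MV (Act.dg c) _ _ Z := ⟨p0, ((pO false).mono p0 (subset_univ _)).congr_mem (by grind),
    ((pO true).mono p0 (subset_univ _)).congr_mem (by grind)⟩
  have van : ∀ (i : Bool) {ψ : G.H → ℂ} [(Act.dg fun _ : Unit => ψ).Rep],
      EAdm (Act.dg c) (Act.dg fun _ : Unit => ψ) (fun v _ => v i) univ Z →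
      eul (Act.dg c) (Act.dg fun _ : Unit => ψ) (fun v _ => v i) (univ \ {v | v i = 0}) Z = 0 :=
    fun i ψ _ m => by
      have q := (pO i).diff (pO i)
      have q' : EAdm (Act.dg c) (Act.dg fun _ : Unit => ψ) (fun v _ => v i) _ _ :=
        ⟨q, m.tgt, m.cont.mono sdiff_subset, fun g v _ => m.eqv g v trivial, mapsTo_univ _ _,
          fun v _ k => congrFun k ()⟩
      rw [← res_eulT q' (gadm_id q (pZ.diff (pO i)) subset_rfl fun _ k => (k.1.2 k.2).elim),
        eq_zero_of_disjoint q (by simp) (eul _ _ _ _ _), map_zero]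
  have lin : ∀ (i j : Bool) {ψ : G.H → ℂ} [(Act.dg fun _ : Unit => ψ).Rep],
      EAdm (Act.dg c) (Act.dg fun _ : Unit => ψ) (fun v _ => v j) univ Z →
      (∀ g, χ g * χ' g = c i g * ψ g) → (∀ v : Bool → ℂ, v true * v false = v i * v j) →
      eul (Act.dg c) (Act.dg fun (_ : Unit) g => χ g * χ' g) (fun v _ => v true * v false)
        (univ \ {v | v i = 0}) Z =
      eul (Act.dg c) (Act.dg fun _ : Unit => ψ) (fun v _ => v j) (univ \ {v | v i = 0}) Z :=
    fun i j ψ _ m e e' => by
      have m' : EAdm (Act.dg c) (Act.dg fun _ : Unit => ψ) (fun v _ => v j) _ _ :=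
        m.comp (gadm_id pZ (pZ.diff (pO i)) sdiff_subset inter_subset_right)
      rw [← eul_fam (ρ' := Act.dg fun (_ : Unit) g => χ g * χ' g) m' (L := fun v w => v i • w)
        (by fun_prop)
        (fun v _ => ⟨smul_add _, fun r w => smul_comm _ _ _⟩)
        (fun v k => MulAction.bijective (Units.mk0 _ k.2)) fun g v _ w => funext fun _ => by
          simp only [Act.dg, Pi.smul_apply, smul_eq_mul, e]; ring]
      simp only [e']
      rfl
  have d := eq_zero_of_res_ne pZ (by simp [Z]) (p := 2 * Fintype.card Unit) (by simp)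
    ((isDeg_eul (ρ := Act.dg fun (_ : Unit) g => χ g * χ' g) (F := fun v _ => v true * v false)).sub
      ((isDeg_eul (ρ := Act.dg fun _ : Unit => χ) (F := fun v _ => v true)).add
        (isDeg_eul (ρ := Act.dg fun _ : Unit => χ') (F := fun v _ => v false)))) (by
      rw [u]
      refine ((mv_union mv _).1 ⟨?_, ?_⟩).elim fun y e => e.symm.trans (by
        rw [eq_zero_of_disjoint mv.prAB (by ext v; simp [Z]; grind) y, map_zero])
      all_goals
        rw [res_res pZ p0 (pZ.diff (pO _)) (subset_univ _) inter_subset_right (by simp)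
          inter_subset_right]
        have k := fun i => gadm_id pZ (pZ.diff (pO i)) sdiff_subset inter_subset_right
        rw [map_sub, map_add, res_eulT a (k _), res_eulT a₁ (k _), res_eulT a₂ (k _)]
      · exact sub_eq_zero.2 ((lin false true a₁ (fun _ => mul_comm _ _) fun _ => mul_comm _ _).trans
          (by rw [van false a₂, add_zero]))
      · exact sub_eq_zero.2 ((lin true false a₂ (fun _ => rfl) fun _ => rfl).trans
          (by rw [van true a₁, zero_add])))
  have k : GAdm (Act.pt G) (Act.dg c) id (fun _ => 0) univ univ univ Z := ⟨Act.pr_pt G, pZ,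
    continuousOn_const, fun g _ _ => (Act.Rep.lin _).map_zero.symm, mapsTo_univ _ _,
    fun _ _ _ => trivial⟩
  have := congrArg (gp (Act.pt G) id (fun _ => 0) univ univ) (sub_eq_zero.1 d)
  rwa [map_add, gp_eul a k (fun _ _ => rfl) (F' := fun _ => 0) fun _ _ => funext fun _ => by simp,
    gp_eul a₁ k (fun _ _ => rfl) (F' := fun _ => 0) fun _ _ => rfl,
    gp_eul a₂ k (fun _ _ => rfl) (F' := fun _ => 0) fun _ _ => rfl] at this

end Pool.Agent.Work.MP_849ab0_ag.G
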